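import Pool.Agent.Y648.CS.T_LSP
import Pool.Agent.W920.FC.T_TT
import Pool.Agent.W920.FC.T_CMP
import Pool.Agent.W920.FC.T_PROJ
import Pool.Agent.W920.FD.T_RD

set_option autoImplicit false

/-!
# The choice of the basis, and the queries for the graph (helper590)
-/

namespace Pool.Agent.Y648.CS

open Pool.Agent.NPC Pool.Agent.H558R2 Pool.Agent.H622R3.SM Pool.Agent.W920.FC

namespace TBAS

/-! ### Lists -/

theorem f2_map {α β : Type} {R : α → β → Prop} (K : ℕ) (f : ℕ → α) (f' : ℕ → β)
    (h : ∀ i < K, R (f i) (f' i)) :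
    List.Forall₂ R ((List.range K).map f) ((List.range K).map f') := by
  rw [List.forall₂_map_left_iff, List.forall₂_map_right_iff, List.forall₂_same]
  exact fun i hi => h i (List.mem_range.1 hi)

theorem f2_flat {α β : Type} {R : α → β → Prop} (K : ℕ) (f : ℕ → List α) (f' : ℕ → List β)
    (h : ∀ i < K, List.Forall₂ R (f i) (f' i)) :
    List.Forall₂ R ((List.range K).flatMap f) ((List.range K).flatMap f') := by
  induction K with
  | zero => simp
  | succ K ih =>
    rw [List.range_succ, List.flatMap_append, List.flatMap_append, List.flatMap_singleton,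
      List.flatMap_singleton]
    exact List.rel_append (ih fun i hi => h i (by omega)) (h K (by omega))

theorem cost_le (qs : List Qry) (B : ℕ) (h : ∀ q ∈ qs, q.1.length ≤ B) :
    (qs.map fun q => q.1.length + 1).sum ≤ qs.length * (B + 1) := by
  induction qs with
  | nil => simp
  | cons q qs ih =>
    rw [List.map_cons, List.sum_cons, List.length_cons]
    have h1 := h q (by simp)
    have h2 := ih fun q hq => h q (by simp [hq])
    have e : (qs.length + 1) * (B + 1) = qs.length * (B + 1) + (B + 1) := by ring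
    omega

theorem osg_nn (v : ℝ) : 0 ≤ osg (signOut v) ↔ 0 ≤ v := by
  rw [TCMP.osg_signOut]
  rcases lt_trichotomy v 0 with h | h | h
  · rw [sign_neg h]
    constructor
    · intro h'
      exact absurd h' (by decide)
    · intro h'
      linarith
  · rw [h]
    simp
  · rw [sign_pos h]
    constructor
    · intro _
      exact h.le
    · intro _
      decide

theorem signOut_ne (v : ℝ) : signOut v ≠ none ↔ v ≠ 0 := by
  unfold signOut
  rcases lt_trichotomy v 0 with h | h | h
  · rw [if_neg (not_lt.2 h.le), if_pos h]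
    simp [h.ne]
  · subst h
    simp
  · rw [if_pos h]
    simp [h.ne']

/-! ### Sizes -/

/-- The bound for the monomials. -/
noncomputable def pQ (pB : Polynomial ℕ) : Polynomial ℕ :=
  pB + (Polynomial.C 48 * Polynomial.X + Polynomial.C 160)

theorem pQ_eval (pB : Polynomial ℕ) (s : ℕ) : (pQ pB).eval s = pB.eval s + (48 * s + 160) := by
  unfold pQ
  simp [Polynomial.eval_add, Polynomial.eval_mul]

section

variable {m n p : ℕ} {g : Reg → ℝ} {E : ℕ} {t : Mo} {W : List Mo}

theorem sz_wc (ht : MoG m n g E t) (hW : ∀ c < m + m, MoG m n g E (W.getD c moOne)) (c : ℕ) :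
    MoS E (4 * cD m n) (wc m t W c) := by
  unfold wc
  split_ifs with h1 h2
  · exact (hW c h1).1
  · exact ht.1
  · exact ⟨Nat.zero_le _, Nat.zero_le _, Nat.zero_le _, Nat.zero_le _⟩

theorem ok_wc (ht : MoG m n g E t) (hW : ∀ c < m + m, MoG m n g E (W.getD c moOne)) (c : ℕ) :
    MoOK m n g (wc m t W c) := by
  unfold wc
  split_ifs with h1 h2
  · exact (hW c h1).2.1
  · exact ht.2.1
  · intro x hx
    exact absurd hx (by simp [moOne])

theorem pos_wf (hM : S_MOV) (ht : MoG m n g E t)
    (hW : ∀ c < m + m, MoG m n g E (W.getD c moOne)) (c : ℕ) : 0 < wf m n g t W c := by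
  unfold wf wc
  split_ifs with h1 h2
  · exact (hW c h1).2.2
  · exact ht.2.2
  · rw [(hM m n g).1]
    exact one_pos

end

/-! ### Values -/

section

variable (m n p : ℕ) (g : Reg → ℝ) (drop : List Bool) (t : Mo) (W : List Mo)

/-- The values of the queries for the choice of the next column. -/
noncomputable def baV (β : List ℕ) : List ℝ :=
  ((List.range (m + m + 2)).map fun c => prV m n g 0 [cand m n p β c]) ++
    (List.range (m + m + 2)).flatMap fun c => (List.range (m + m + 2)).map fun c' =>
      cmV m n g (moMul (moMin (cand m n p β c)) (wc m t W c))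
        (moMul (moMin (cand m n p β c')) (wc m t W c'))

/-- The first columns. -/
noncomputable def bs : ℕ → List ℕ
  | 0 => []
  | i + 1 => bs i ++ [pick m drop (bs i).length ((baV m n p g t W (bs i)).map signOut)]

theorem bs_len (i : ℕ) : (bs m n p g drop t W i).length = i := by
  induction i with
  | zero => rfl
  | succ i ih =>
    rw [bs, List.length_append, ih]
    rfl

theorem bs_getD {i l : ℕ} (d : ℕ) (hl : l < i) : ∀ j, i ≤ j →
    (bs m n p g drop t W j).getD l d = (bs m n p g drop t W i).getD l d := by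
  intro j
  induction j with
  | zero =>
    intro h
    omega
  | succ j ih =>
    intro h
    rcases Nat.eq_or_lt_of_le h with h1 | h1
    · rw [h1]
    · rw [bs, List.getD_append _ _ _ _ (by rw [bs_len]; omega)]
      exact ih (by omega)

theorem bs_last (i : ℕ) (d : ℕ) : (bs m n p g drop t W (i + 1)).getD i d =
    pick m drop i ((baV m n p g t W (bs m n p g drop t W i)).map signOut) := by
  rw [bs, List.getD_append_right _ _ _ _ (by rw [bs_len]), bs_len]
  simp

theorem baV1 (β : List ℕ) (c : ℕ) (hc : c < m + m + 2) :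
    ((baV m n p g t W β).map signOut).getD c none = signOut (mv m n g (cand m n p β c)) := by
  unfold baV
  rw [List.map_append, List.getD_append _ _ _ _ (by simpa using hc), List.map_map,
    TPROJ.getD_map_range _ _ _ _ hc]
  show signOut (prV m n g 0 [cand m n p β c]) = _
  unfold prV
  simp

theorem baV2 (β : List ℕ) (c c' : ℕ) (hc : c < m + m + 2) (hc' : c' < m + m + 2) :
    ((baV m n p g t W β).map signOut).getD (m + m + 2 + (c * (m + m + 2) + c')) none =
      signOut (cmV m n g (moMul (moMin (cand m n p β c)) (wc m t W c))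
        (moMul (moMin (cand m n p β c')) (wc m t W c'))) := by
  unfold baV
  rw [List.map_append, List.getD_append_right _ _ _ _ (by simp)]
  have : m + m + 2 + (c * (m + m + 2) + c') -
      (List.map signOut ((List.range (m + m + 2)).map fun c =>
        prV m n g 0 [cand m n p β c])).length = c * (m + m + 2) + c' := by simp
  rw [this, List.map_flatMap]
  simp only [List.map_map]
  exact TPROJ.getD_block (fun c c' => signOut (cmV m n g
    (moMul (moMin (cand m n p β c)) (wc m t W c))
        (moMul (moMin (cand m n p β c')) (wc m t W c')))) none (m + m + 2) (m + m + 2) c hc c' hc'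

/-- The candidates as functions. -/
theorem bf_cand (β β' : List ℕ) (k : Fin (n + 2)) (hβ : β.length = k)
    (h : ∀ l < (k : ℕ), β.getD l 0 = β'.getD l 0) (c : ℕ) :
    bf n (cand m n p β c).2 =
      fun l => if l < k then bf n β' l else if l = k then c else un m n l := by
  funext l
  show (β ++ c :: (List.range (n + 1 - β.length)).map fun i => m + m + 2 + (β.length + 1 + i)).getD
    l 0 = _
  rcases lt_trichotomy l k with hl | hl | hl
  · have hl' : (l : ℕ) < k := hl
    rw [if_pos hl, List.getD_append _ _ _ _ (by omega), h l hl']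
    rfl
  · subst hl
    rw [if_neg (lt_irrefl _), if_pos rfl, List.getD_append_right _ _ _ _ (by omega), hβ,
      Nat.sub_self]
    rfl
  · have hl' : (k : ℕ) < l := hl
    have hl2 := l.2
    rw [if_neg (not_lt.2 hl.le), if_neg hl.ne', List.getD_append_right _ _ _ _ (by omega), hβ]
    obtain ⟨j, hj⟩ : ∃ j, (l : ℕ) - k = j + 1 := ⟨(l : ℕ) - k - 1, by omega⟩
    rw [hj, List.getD_cons_succ, TPROJ.getD_map_range _ _ _ _ (by omega)]
    show _ = m + m + 2 + (l : ℕ)
    omega

end

section

variable {m n p : ℕ} {g : Reg → ℝ} {drop : List Bool} {E : ℕ} {t : Mo} {W : List Mo}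

/-- The meaning of the comparisons. -/
theorem cmp_iff (hM : S_MOV) (ht : MoG m n g E t)
    (hW : ∀ c < m + m, MoG m n g E (W.getD c moOne)) (x y : Mn) (c c' : ℕ) :
    0 ≤ osg (signOut (cmV m n g (moMul (moMin x) (wc m t W c)) (moMul (moMin y) (wc m t W c')))) ↔
      |mv m n g y| * wf m n g t W c' ≤ |mv m n g x| * wf m n g t W c := by
  obtain ⟨-, -, -, hmul, hok, -, -, -, hmin, hcm, -⟩ := hM m n g
  have h1 := hcm (moMul (moMin x) (wc m t W c)) (moMul (moMin y) (wc m t W c'))
    (hok _ _ (hmin x).2 (ok_wc ht hW c)) (hok _ _ (hmin y).2 (ok_wc ht hW c'))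
  rw [h1, osg_nn, hmul, hmul, (hmin x).1, (hmin y).1, abs_mul, abs_mul, sub_nonneg]
  have h2 := pos_wf hM ht hW c
  have h3 := pos_wf hM ht hW c'
  unfold wf at h2 h3 ⊢
  rw [abs_of_pos h2, abs_of_pos h3]

/-- The choice of the next column. -/
theorem pick_ok (hM : S_MOV) (hL : S_LSP) (ht : MoG m n g E t)
    (hW : ∀ c < m + m, MoG m n g E (W.getD c moOne)) (β β' : List ℕ) (k : Fin (n + 2))
    (hβ : β.length = k) (h : ∀ l < (k : ℕ), β.getD l 0 = β'.getD l 0)
    (hk : β'.getD k 0 = pick m drop k ((baV m n p g t W β).map signOut)) :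
    (bf n β' k ∈ Acs m drop ∧ pdet (cl m n p g) (un m n) (bf n β') k (bf n β' k) ≠ 0 ∧
      ∀ c ∈ Acs m drop, |pdet (cl m n p g) (un m n) (bf n β') k c| * wf m n g t W c ≤
        |pdet (cl m n p g) (un m n) (bf n β') k (bf n β' k)| * wf m n g t W (bf n β' k)) ∨
    (bf n β' k = un m n k ∧ ∀ c ∈ Acs m drop, pdet (cl m n p g) (un m n) (bf n β') k c = 0) := by
  obtain ⟨-, -, -, -, -, hmv, hact⟩ := hL m n p g drop
  have hmc : ∀ c, mv m n g (cand m n p β c) =
      (-1) ^ (n + 1) * pdet (cl m n p g) (un m n) (bf n β') k c := by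
    intro c
    have h1 := hmv (cand m n p β c).2
    rw [bf_cand m n p β β' k hβ h c] at h1
    exact h1
  have habs : ∀ c, |mv m n g (cand m n p β c)| = |pdet (cl m n p g) (un m n) (bf n β') k c| := by
    intro c
    rw [hmc, abs_mul, abs_pow, abs_neg, abs_one, one_pow, one_mul]
  -- the condition of the filter
  have hcond : ∀ c < m + m + 2, (act m drop c &&
      (decide (((baV m n p g t W β).map signOut).getD c none ≠ none) &&
      (List.range (m + m + 2)).all fun c' => !(act m drop c') ||
        decide (0 ≤ osg (((baV m n p g t W β).map signOut).getD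
          (m + m + 2 + (c * (m + m + 2) + c')) none)))) = true ↔
      c ∈ Acs m drop ∧ pdet (cl m n p g) (un m n) (bf n β') k c ≠ 0 ∧
      ∀ c' ∈ Acs m drop, |pdet (cl m n p g) (un m n) (bf n β') k c'| * wf m n g t W c' ≤
        |pdet (cl m n p g) (un m n) (bf n β') k c| * wf m n g t W c := by
    intro c hc
    rw [Bool.and_eq_true, Bool.and_eq_true, decide_eq_true_eq, baV1 m n p g t W β c hc,
      signOut_ne, List.all_eq_true, ← hact c hc]
    refine and_congr Iff.rfl (and_congr ?_ ?_)
    · rw [← abs_pos, habs, abs_pos]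
    · constructor
      · intro h1 c' hc'
        have hc2 := TLSP.Acs_lt hc'
        have h2 := h1 c' (List.mem_range.2 hc2)
        rw [Bool.or_eq_true, Bool.not_eq_true', decide_eq_true_eq,
          baV2 m n p g t W β c c' hc hc2, cmp_iff hM ht hW, habs, habs] at h2
        rcases h2 with h2 | h2
        · rw [(hact c' hc2).1 hc'] at h2
          exact absurd h2 (by decide)
        · exact h2
      · intro h1 c' hc'
        have hc2 := List.mem_range.1 hc'
        rw [Bool.or_eq_true, Bool.not_eq_true', decide_eq_true_eq,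
          baV2 m n p g t W β c c' hc hc2, cmp_iff hM ht hW, habs, habs]
        by_cases hA : c' ∈ Acs m drop
        · exact Or.inr (h1 c' hA)
        · left
          by_contra h2
          rw [Bool.not_eq_false] at h2
          exact hA ((hact c' hc2).2 h2)
  unfold pick at hk
  rcases hl : (((List.range (m + m + 2)).filter fun c => act m drop c &&
      (decide (((baV m n p g t W β).map signOut).getD c none ≠ none) &&
      (List.range (m + m + 2)).all fun c' => !(act m drop c') ||
        decide (0 ≤ osg (((baV m n p g t W β).map signOut).getD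
          (m + m + 2 + (c * (m + m + 2) + c')) none))))) with _ | ⟨c₀, l⟩
  · rw [hl] at hk
    right
    have hk' : β'.getD k 0 = m + m + 2 + k := hk
    refine ⟨hk', ?_⟩
    by_contra hcon
    push Not at hcon
    obtain ⟨c₁, hc₁, hne⟩ := hcon
    obtain ⟨c, hc, hmax⟩ := Finset.exists_max_image (Acs m drop)
      (fun c => |pdet (cl m n p g) (un m n) (bf n β') k c| * wf m n g t W c) ⟨c₁, hc₁⟩
    have h1 : 0 < |pdet (cl m n p g) (un m n) (bf n β') k c| * wf m n g t W c :=
      lt_of_lt_of_le (mul_pos (abs_pos.2 hne) (pos_wf hM ht hW c₁)) (hmax c₁ hc₁)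
    have h2 : pdet (cl m n p g) (un m n) (bf n β') k c ≠ 0 := by
      intro h0
      rw [h0, abs_zero, zero_mul] at h1
      exact lt_irrefl _ h1
    have h3 := (hcond c (TLSP.Acs_lt hc)).2 ⟨hc, h2, hmax⟩
    have h4 : c ∈ (((List.range (m + m + 2)).filter fun c => act m drop c &&
      (decide (((baV m n p g t W β).map signOut).getD c none ≠ none) &&
      (List.range (m + m + 2)).all fun c' => !(act m drop c') ||
        decide (0 ≤ osg (((baV m n p g t W β).map signOut).getD
          (m + m + 2 + (c * (m + m + 2) + c')) none))))) :=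
      List.mem_filter.2 ⟨List.mem_range.2 (TLSP.Acs_lt hc), h3⟩
    rw [hl] at h4
    exact absurd h4 (List.not_mem_nil)
  · rw [hl] at hk
    left
    have hk' : bf n β' k = c₀ := hk
    have h4 : c₀ ∈ (((List.range (m + m + 2)).filter fun c => act m drop c &&
      (decide (((baV m n p g t W β).map signOut).getD c none ≠ none) &&
      (List.range (m + m + 2)).all fun c' => !(act m drop c') ||
        decide (0 ≤ osg (((baV m n p g t W β).map signOut).getD
          (m + m + 2 + (c * (m + m + 2) + c')) none))))) := by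
      rw [hl]
      exact List.mem_cons_self
    obtain ⟨h5, h6⟩ := List.mem_filter.1 h4
    rw [hk']
    exact (hcond c₀ (List.mem_range.1 h5)).1 h6

theorem cD_le (m n : ℕ) : cD m n ≤ 4 * (m + n) + 12 := by
  unfold cD cK
  omega

end

/-- The polynomial for the choice of the basis. -/
noncomputable def q1 (q : Polynomial ℕ) : Polynomial ℕ :=
  (Polynomial.C 2 * Polynomial.X + Polynomial.C 2 +
    (Polynomial.C 2 * Polynomial.X + Polynomial.C 2) *
      (Polynomial.C 2 * Polynomial.X + Polynomial.C 2)) * (q + 1)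

theorem q1_eval (q : Polynomial ℕ) (s : ℕ) : (q1 q).eval s =
    ((2 * s + 2) + (2 * s + 2) * (2 * s + 2)) * (q.eval s + 1) := by
  unfold q1
  simp [Polynomial.eval_add, Polynomial.eval_mul]

end TBAS

open TBAS in
/-- The choice of the basis. -/
theorem t_BAS : S_PR → S_CMPQ → S_MOV → S_LSP → S_BAS := by
  intro hPR hCM hM hL pB
  obtain ⟨qa, hqa⟩ := hPR (pQ pB)
  obtain ⟨qb, hqb⟩ := hCM (pQ pB)
  refine ⟨(qa + qb) + (Polynomial.X + Polynomial.C 2) * q1 (qa + qb), ?_⟩
  intro m n p g drop E t W hg hE ht hW
  have hpE : E ≤ (pQ pB).eval (m + n) := by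
    rw [pQ_eval]
    omega
  have hp1 : 1 ≤ (pQ pB).eval (m + n) := by
    rw [pQ_eval]
    omega
  have hpD : 1 + 4 * cD m n ≤ (pQ pB).eval (m + n) := by
    have := cD_le m n
    rw [pQ_eval]
    omega
  have hga : ∀ {v : ℝ}, Gd qa (m + n) g v → Gd (qa + qb) (m + n) g v := fun hv =>
    Pool.Agent.W920.FD.TRD.gd_mono (fun x => by
      rw [Polynomial.eval_add]; exact Nat.le_add_right _ _) hv
  have hgb : ∀ {v : ℝ}, Gd qb (m + n) g v → Gd (qa + qb) (m + n) g v := fun hv =>
    Pool.Agent.W920.FD.TRD.gd_mono (fun x => by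
      rw [Polynomial.eval_add]; exact Nat.le_add_left _ _) hv
  have hszm : ∀ (x : Mn) (c : ℕ), MoSz ((pQ pB).eval (m + n)) (moMul (moMin x) (wc m t W c)) := by
    intro x c
    obtain ⟨h1, h2, h3, h4⟩ := sz_wc ht hW c
    refine ⟨?_, ?_, ?_, ?_⟩
    · show ([] ++ (wc m t W c).1.2.1).length ≤ _
      rw [List.nil_append]
      omega
    · show ([] ++ (wc m t W c).1.2.2).length ≤ _
      rw [List.nil_append]
      omega
    · show ([x] ++ (wc m t W c).2.1).length ≤ _
      rw [List.length_append, List.length_singleton]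
      omega
    · show ([] ++ (wc m t W c).2.2).length ≤ _
      rw [List.nil_append]
      omega
  have hstep : ∀ β : List ℕ, Runs g (Gd (qa + qb) (m + n) g)
      (bnd (batch (baQs m n p t W β)) fun o => ret (β ++ [pick m drop β.length o]))
      (β ++ [pick m drop β.length ((baV m n p g t W β).map signOut)])
      ((q1 (qa + qb)).eval (m + n)) := by
    intro β
    have hv : List.Forall₂ (HasVal g (Gd (qa + qb) (m + n) g)) (baQs m n p t W β)
        (baV m n p g t W β) := by
      unfold baQs baV
      refine List.rel_append (f2_map _ _ _ fun c _ => ?_) (f2_flat _ _ _ fun c _ =>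
        f2_map _ _ _ fun c' _ => ?_)
      · exact TTT.hasVal_mono (fun v hv => hga hv)
          (hqa m n g 0 [cand m n p β c] hg (Nat.zero_le _) (by simpa using hp1)).1
      · exact TTT.hasVal_mono (fun v hv => hgb hv)
          (hqb m n g _ _ hg (hszm _ _) (hszm _ _)).1
    have hlen : ∀ q ∈ baQs m n p t W β, q.1.length ≤ (qa + qb).eval (m + n) := by
      intro q hq
      rw [Polynomial.eval_add]
      unfold baQs at hq
      rcases List.mem_append.1 hq with hq | hq
      · obtain ⟨c, -, rfl⟩ := List.mem_map.1 hq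
        exact (hqa m n g 0 [cand m n p β c] hg (Nat.zero_le _) (by simpa using hp1)).2.trans
          (Nat.le_add_right _ _)
      · obtain ⟨c, -, hq⟩ := List.mem_flatMap.1 hq
        obtain ⟨c', -, rfl⟩ := List.mem_map.1 hq
        exact (hqb m n g _ _ hg (hszm _ _) (hszm _ _)).2.trans (Nat.le_add_left _ _)
    have hcost := cost_le _ _ hlen
    have hql : (baQs m n p t W β).length = (m + m + 2) + (m + m + 2) * (m + m + 2) := by
      unfold baQs
      rw [List.length_append, List.length_map, List.length_range, TPROJ.length_block]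
    have h3 := t_TT.2.1 g (Gd (qa + qb) (m + n) g) _ _ hv
    have h4 := t_TT.1 _ _ g (Gd (qa + qb) (m + n) g) _
      (fun o => ret (β ++ [pick m drop β.length o])) _
      (β ++ [pick m drop β.length ((baV m n p g t W β).map signOut)]) _ 0 h3
      (Runs.done _ _ _ (fun h => rfl))
    refine t_TT.2.2.2 _ g _ _ _ _ _ _ (fun v hv => hv) ?_ h4
    rw [add_zero, q1_eval]
    refine hcost.trans ?_
    rw [hql]
    refine Nat.mul_le_mul_right _ ?_
    have h5 : m + m + 2 ≤ 2 * (m + n) + 2 := by omega
    exact Nat.add_le_add h5 (Nat.mul_le_mul h5 h5)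
  have hit := t_TT.2.2.1 (List ℕ) g (Gd (qa + qb) (m + n) g)
    (fun β => bnd (batch (baQs m n p t W β)) fun o => ret (β ++ [pick m drop β.length o]))
    (bs m n p g drop t W) (n + 2) ((q1 (qa + qb)).eval (m + n))
    (fun i _ => hstep (bs m n p g drop t W i))
  refine ⟨bs m n p g drop t W (n + 2), ?_, bs_len m n p g drop t W (n + 2), ?_⟩
  · refine t_TT.2.2.2 _ g _ _ _ _ _ _ (fun v hv =>
      Pool.Agent.W920.FD.TRD.gd_mono (fun x => ?_) hv) ?_ hit
    · rw [Polynomial.eval_add (p := qa + qb)]
      exact Nat.le_add_right _ _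
    · rw [Polynomial.eval_add (p := qa + qb), Polynomial.eval_mul]
      refine le_trans (Nat.mul_le_mul_right _ ?_) (Nat.le_add_left _ _)
      simp
  · intro k
    refine pick_ok hM hL ht hW (bs m n p g drop t W k) (bs m n p g drop t W (n + 2)) k
      (bs_len m n p g drop t W k) (fun l hl => ?_) ?_
    · exact (bs_getD m n p g drop t W 0 hl (n + 2) (by omega)).symm
    · rw [bs_getD m n p g drop t W 0 (Nat.lt_succ_self k) (n + 2) (by have := k.2; omega)]
      exact bs_last m n p g drop t W k 0

namespace TBAS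

section

variable (m n p : ℕ) (g : Reg → ℝ) (t : Mo) (W : List Mo) (β : List ℕ)

/-- The values of the queries for the graph. -/
noncomputable def grV : List ℝ :=
  (List.range (n + 2)).flatMap fun k => (List.range (m + m + 2)).flatMap fun c =>
    [prV m n g 0 [(p, β.set k c)],
      cmV m n g (moMul (moTwo (cE m n)) (moMul (tM p β k c) (wc m t W c)))
        (wc m t W (β.getD k 0))]

theorem grV_getD (k c r : ℕ) (hk : k < n + 2) (hc : c < m + m + 2) (hr : r < 2) :
    ((grV m n p g t W β).map signOut).getD (2 * (k * (m + m + 2) + c) + r) none =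
      signOut ([prV m n g 0 [(p, β.set k c)],
      cmV m n g (moMul (moTwo (cE m n)) (moMul (tM p β k c) (wc m t W c)))
        (wc m t W (β.getD k 0))].getD r 0) := by
  rw [TCMP.getD_signOut]
  have e : 2 * (k * (m + m + 2) + c) + r = k * ((m + m + 2) * 2) + (c * 2 + r) := by ring
  unfold grV
  rw [e, TCMP.flat_getD _ ((m + m + 2) * 2) (fun l => TCMP.length_flat _ 2 (fun _ => rfl) _) 0
    (n + 2) k (c * 2 + r) hk (by omega), TCMP.flat_getD _ 2 (fun _ => rfl) 0 (m + m + 2) c r hc hr]

theorem bf_set (hβ : β.length = n + 2) (k : Fin (n + 2)) (c : ℕ) :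
    bf n (β.set k c) = Function.update (bf n β) k c := by
  funext l
  show (β.set k c).getD l 0 = _
  by_cases h : l = k
  · subst h
    rw [Function.update_self, List.getD_eq_getElem?_getD, List.getElem?_set_self (by omega)]
    rfl
  · rw [Function.update_of_ne h]
    have h' : (k : ℕ) ≠ l := fun h' => h (Fin.ext h'.symm)
    rw [List.getD_eq_getElem?_getD, List.getElem?_set_ne h', ← List.getD_eq_getElem?_getD]
    rfl

end

/-- The polynomial for the queries of the graph. -/
noncomputable def q2 (q : Polynomial ℕ) : Polynomial ℕ :=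
  ((Polynomial.X + Polynomial.C 2) * ((Polynomial.C 2 * Polynomial.X + Polynomial.C 2) *
    Polynomial.C 2)) * (q + 1)

theorem q2_eval (q : Polynomial ℕ) (s : ℕ) : (q2 q).eval s =
    ((s + 2) * ((2 * s + 2) * 2)) * (q.eval s + 1) := by
  unfold q2
  simp [Polynomial.eval_add, Polynomial.eval_mul]

end TBAS

open TBAS in
/-- The queries for the graph. -/
theorem t_GRA : S_PR → S_CMPQ → S_MOV → S_LSP → S_GRD → S_GRA := by
  intro hPR hCM hM hL hGRD pB
  obtain ⟨qa, hqa⟩ := hPR (pQ pB)
  obtain ⟨qb, hqb⟩ := hCM (pQ pB)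
  refine ⟨(qa + qb) + q2 (qa + qb), ?_⟩
  intro m n p g drop E t W β hg hE ht hW hβ hG
  obtain ⟨-, -, -, hU, -, hmv, hact⟩ := hL m n p g drop
  have hwp : ∀ c ∈ Acs m drop, 0 < wf m n g t W c := fun c _ => pos_wf hM ht hW c
  have hd := (hGRD (n + 2) (cl m n p g) (un m n) (Acs m drop) (wf m n g t W) (bf n β) hU hwp hG).1
  have hmvβ : mv m n g (p, β) ≠ 0 := by
    rw [hmv]
    exact mul_ne_zero (pow_ne_zero _ (by norm_num)) hd
  have hp1 : 1 ≤ (pQ pB).eval (m + n) := by
    rw [pQ_eval]
    omega
  have hcDle := cD_le m n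
  have hga : ∀ {v : ℝ}, Gd qa (m + n) g v → Gd (qa + qb) (m + n) g v := fun hv =>
    Pool.Agent.W920.FD.TRD.gd_mono (fun x => by
      rw [Polynomial.eval_add]; exact Nat.le_add_right _ _) hv
  have hgb : ∀ {v : ℝ}, Gd qb (m + n) g v → Gd (qa + qb) (m + n) g v := fun hv =>
    Pool.Agent.W920.FD.TRD.gd_mono (fun x => by
      rw [Polynomial.eval_add]; exact Nat.le_add_left _ _) hv
  have hsz1 : ∀ (k c : ℕ), MoSz ((pQ pB).eval (m + n))
      (moMul (moTwo (cE m n)) (moMul (tM p β k c) (wc m t W c))) := by
    intro k c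
    obtain ⟨h1, h2, h3, h4⟩ := sz_wc ht hW c
    have hcE : cE m n = 8 * cD m n := rfl
    have hpe := pQ_eval pB (m + n)
    refine ⟨?_, ?_, ?_, ?_⟩
    · show (List.replicate (cE m n) () ++ ([] ++ (wc m t W c).1.2.1)).length ≤ _
      rw [List.length_append, List.length_replicate, List.nil_append]
      omega
    · show ([] ++ ([] ++ (wc m t W c).1.2.2)).length ≤ _
      rw [List.nil_append, List.nil_append]
      omega
    · show ([] ++ ([(p, β.set k c)] ++ (wc m t W c).2.1)).length ≤ _
      rw [List.nil_append, List.length_append, List.length_singleton]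
      omega
    · show ([] ++ ([(p, β)] ++ (wc m t W c).2.2)).length ≤ _
      rw [List.nil_append, List.length_append, List.length_singleton]
      omega
  have hsz2 : ∀ c : ℕ, MoSz ((pQ pB).eval (m + n)) (wc m t W c) := by
    intro c
    obtain ⟨h1, h2, h3, h4⟩ := sz_wc ht hW c
    have hpe := pQ_eval pB (m + n)
    exact ⟨by omega, by omega, by omega, by omega⟩
  have hok : ∀ k c : ℕ, MoOK m n g (moMul (moTwo (cE m n)) (moMul (tM p β k c) (wc m t W c))) := by
    intro k c x hx
    have hx' : x ∈ [] ++ ([(p, β)] ++ (wc m t W c).2.2) := hx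
    rw [List.nil_append, List.mem_append, List.mem_singleton] at hx'
    rcases hx' with rfl | hx'
    · exact hmvβ
    · exact ok_wc ht hW c x hx'
  refine ⟨(grV m n p g t W β).map signOut, ?_, ?_⟩
  · have hv : List.Forall₂ (HasVal g (Gd (qa + qb) (m + n) g)) (grQs m n p t W β)
        (grV m n p g t W β) := by
      unfold grQs grV
      refine f2_flat _ _ _ fun k _ => f2_flat _ _ _ fun c _ => ?_
      refine List.Forall₂.cons ?_ (List.Forall₂.cons ?_ List.Forall₂.nil)
      · exact TTT.hasVal_mono (fun v hv => hga hv)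
          (hqa m n g 0 [(p, β.set k c)] hg (Nat.zero_le _) (by simpa using hp1)).1
      · exact TTT.hasVal_mono (fun v hv => hgb hv)
          (hqb m n g _ _ hg (hsz1 _ _) (hsz2 _)).1
    have hlen : ∀ q ∈ grQs m n p t W β, q.1.length ≤ (qa + qb).eval (m + n) := by
      intro q hq
      rw [Polynomial.eval_add]
      unfold grQs at hq
      obtain ⟨k, -, hq⟩ := List.mem_flatMap.1 hq
      obtain ⟨c, -, hq⟩ := List.mem_flatMap.1 hq
      simp only [List.mem_cons, List.not_mem_nil, or_false] at hq
      rcases hq with rfl | rfl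
      · exact (hqa m n g 0 [(p, β.set k c)] hg (Nat.zero_le _) (by simpa using hp1)).2.trans
          (Nat.le_add_right _ _)
      · exact (hqb m n g _ _ hg (hsz1 _ _) (hsz2 _)).2.trans (Nat.le_add_left _ _)
    have hcost := cost_le _ _ hlen
    have hql : (grQs m n p t W β).length = (n + 2) * ((m + m + 2) * 2) := by
      unfold grQs
      exact TCMP.length_flat _ _ (fun k => TCMP.length_flat _ 2 (fun _ => rfl) _) _
    have h3 := t_TT.2.1 g (Gd (qa + qb) (m + n) g) _ _ hv
    refine t_TT.2.2.2 _ g _ _ _ _ _ _ (fun v hv =>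
      Pool.Agent.W920.FD.TRD.gd_mono (fun x => ?_) hv) ?_ h3
    · rw [Polynomial.eval_add (p := qa + qb)]
      exact Nat.le_add_right _ _
    · rw [Polynomial.eval_add (p := qa + qb), q2_eval]
      refine hcost.trans (le_trans ?_ (Nat.le_add_left _ _))
      rw [hql]
      refine Nat.mul_le_mul_right _ ?_
      exact Nat.mul_le_mul (by omega) (Nat.mul_le_mul_right _ (by omega))
  · intro k c hc
    have hk := k.2
    have habs : ∀ l : List ℕ, |mv m n g (p, l)| = |cdet (cl m n p g) (bf n l)| := by
      intro l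
      rw [hmv, abs_mul, abs_pow, abs_neg, abs_one, one_pow, one_mul]
    have h0 := grV_getD m n p g t W β k c 0 hk hc (by norm_num)
    have h1 := grV_getD m n p g t W β k c 1 hk hc (by norm_num)
    rw [add_zero] at h0
    constructor
    · unfold nz
      rw [Bool.and_eq_true, decide_eq_true_eq, h0, signOut_ne, ← bf_set n β hβ]
      refine and_congr Iff.rfl ?_
      have e : [prV m n g 0 [(p, β.set k c)],
        cmV m n g (moMul (moTwo (cE m n)) (moMul (tM p β k c) (wc m t W c)))
        (wc m t W (β.getD k 0))].getD 0 0 = mv m n g (p, β.set k c) := by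
        show prV m n g 0 [(p, β.set k c)] = _
        unfold prV
        simp
      rw [e, ← abs_pos, habs, abs_pos]
    · unfold edge
      rw [Bool.and_eq_true, decide_eq_true_eq, h1, ← bf_set n β hβ]
      refine and_congr Iff.rfl ?_
      have e : [prV m n g 0 [(p, β.set k c)],
        cmV m n g (moMul (moTwo (cE m n)) (moMul (tM p β k c) (wc m t W c)))
        (wc m t W (β.getD k 0))].getD 1 0 =
          cmV m n g (moMul (moTwo (cE m n)) (moMul (tM p β k c) (wc m t W c)))
            (wc m t W (β.getD k 0)) := rfl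
      obtain ⟨-, -, h2e, hmul, -, -, -, hrat, -, hcm, -⟩ := hM m n g
      rw [e, hcm _ _ (hok k c) (ok_wc ht hW _), osg_nn, sub_nonneg, hmul, hmul, (h2e _).1]
      have e2 : moV m n g (tM p β k c) = mv m n g (p, β.set k c) / mv m n g (p, β) := hrat _ _
      have hw1 := pos_wf hM ht hW c
      have hw2 := pos_wf hM ht hW (β.getD k 0)
      unfold wf at hw1 hw2 ⊢
      rw [e2, abs_mul, abs_mul, abs_div, abs_of_pos hw1, abs_of_pos hw2,
        abs_of_pos (show (0 : ℝ) < 2 ^ cE m n by positivity), habs, habs]
      have hdp : 0 < |cdet (cl m n p g) (bf n β)| := abs_pos.2 hd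
      have e3 : 2 ^ cE m n * (|cdet (cl m n p g) (bf n (β.set k c))| /
          |cdet (cl m n p g) (bf n β)| * moV m n g (wc m t W c)) =
          (2 ^ cE m n * (|cdet (cl m n p g) (bf n (β.set k c))| * moV m n g (wc m t W c))) /
            |cdet (cl m n p g) (bf n β)| := by
        field_simp
      rw [e3, le_div_iff₀ hdp, mul_comm (moV m n g (wc m t W (β.getD k 0)))]

end Pool.Agent.Y648.CS
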