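import Pool.Agent.Y529.CS.Sub
import Pool.Agent.H622R3.SM.T_FARKAS

/-!
# The beginning and the end of the phases
-/

set_option autoImplicit false
set_option linter.all false

namespace Pool.Agent.Y648.CS

open Pool.Agent.NPC Pool.Agent.H558R2 Pool.Agent.H622R3.SM Pool.Agent.Y529.CS

theorem cD_ge (m n : ℕ) : 12 ≤ cD m n := by
  unfold cD Pool.Agent.W920.FC.cK
  omega

theorem dlR_le (m n : ℕ) : dlR m n ≤ epR m n / 2 := by
  have h := cD_ge m n
  have e1 : epR m n / 2 = (1 / 2 : ℝ) ^ (2 * cD m n + 1) := by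
    unfold epR
    rw [pow_succ]
    ring
  rw [e1]
  unfold dlR
  apply pow_le_pow_of_le_one (by norm_num) (by norm_num)
  generalize cD m n = K at h ⊢
  nlinarith

theorem epR_le (m n : ℕ) : epR m n ≤ 1 := by
  unfold epR
  exact pow_le_one₀ (by norm_num) (by norm_num)

theorem M0R_ge (m n : ℕ) : 1 ≤ M0R m n := by
  unfold M0R
  exact one_le_pow₀ (by norm_num)

theorem mk2_lt {m : ℕ} (u v : Fin m → ℝ) (q nu : ℝ) {c : ℕ} (h : c < m) :
    mk2 u v q nu c = u ⟨c, h⟩ := mk2_l u v q nu ⟨c, h⟩

theorem rs_lt {m : ℕ} (B : List Bool) (x : ℕ → ℝ) {c : ℕ} (h : c < m)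
    (hB : B.getD c false = true) : (rs B x : Fin m → ℝ) ⟨c, h⟩ = x c := by
  unfold rs
  rw [if_pos hB]

theorem mem_Sl0 {m n : ℕ} (A : Fin m → Fin n → ℝ) (b : Fin m → ℝ) (u : Fin m → ℝ)
    (hu : ∀ c, 0 ≤ u c) (h1 : ∑ c, u c ≤ 1) (hA : ∀ i, ∑ c, A c i * u c = 0) :
    mk2 u 0 0 (∑ c, u c) ∈ Sl (Lsp m n 0 (start A b) (dr0 m)) (Xc m (dr0 m)) (m + m) (m + m + 1) 0 := by
  refine ⟨?_, ?_, ?_, ?_⟩
  · rw [mem_Lsp0]
    refine ⟨fun i => ?_, ?_, ?_⟩
    · simpa using hA i
    · simp
    · simp
  · intro c hc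
    rw [Xc0, Finset.mem_range] at hc
    rcases lt_cases hc with ⟨d, rfl⟩ | ⟨d, rfl⟩
    · rw [mk2_l]
      exact hu d
    · rw [mk2_r]
      exact le_rfl
  · rw [mk2_nu]
    exact h1
  · rw [mk2_q]

theorem beg0 (hM : S_MOV) {m n : ℕ} (A : Fin m → Fin n → ℝ) (b : Fin m → ℝ) :
    Inv m n 0 (start A b) (dr0 m) (64 * (cD m n * cD m n)) moOne (List.replicate (m + m) moOne) ∧
    ∀ x ∈ Lsp m n 0 (start A b) (dr0 m), (∀ c ∈ Xc m (dr0 m), 0 ≤ x c) → 0 ≤ x (m + m) := by
  obtain ⟨hM1, hM2, hM3, hM4, hM5, hM6, hM7, hM8, hM9, hM10, hM11⟩ := hM m n (start A b)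
  have hG : ∀ E, MoG m n (start A b) E moOne := by
    intro E
    refine ⟨⟨Nat.zero_le _, Nat.zero_le _, Nat.zero_le _, Nat.zero_le _⟩, hM2, ?_⟩
    rw [hM1]
    exact one_pos
  have hrep : ∀ c, (List.replicate (m + m) moOne).getD c moOne = moOne := by
    intro c
    by_cases hc : c < m + m
    · rw [List.getD_eq_getElem _ _ (by simpa using hc)]
      simp
    · rw [List.getD_eq_default _ _ (by simpa using hc)]
  have hwf : ∀ c, wf m n (start A b) moOne (List.replicate (m + m) moOne) c = 1 := by
    intro c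
    unfold wf wc
    rw [hrep]
    split_ifs <;> exact hM1
  constructor
  · refine ⟨by simp, hG _, fun c _ => ?_, ?_, ?_⟩
    · rw [hrep]
      exact hG _
    · intro x hx
      obtain ⟨hx1, hx2, hx3, hx4⟩ := hx
      rw [Xc0] at hx2
      rw [mem_Lsp0] at hx1
      obtain ⟨hL1, hL2, hL3⟩ := hx1
      have hl0 : ∀ c : Fin m, 0 ≤ x c := fun c =>
        hx2 c (Finset.mem_range.2 (by have := c.2; omega))
      have hr0 : ∀ c : Fin m, 0 ≤ x (m + c) := fun c =>
        hx2 _ (Finset.mem_range.2 (by have := c.2; omega))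
      have hle : ∀ c : Fin m, x c + x (m + c) ≤ 1 := by
        intro c
        rw [hL3] at hx3
        exact (Finset.single_le_sum (f := fun c : Fin m => x c + x (m + c))
          (fun d _ => add_nonneg (hl0 d) (hr0 d)) (Finset.mem_univ c)).trans hx3
      refine ⟨fun c hc => ?_, ?_, ?_⟩
      · rw [hwf]
        rw [Xc0, Finset.mem_range] at hc
        rcases lt_cases hc with ⟨d, rfl⟩ | ⟨d, rfl⟩
        · have := hle d
          have := hr0 d
          linarith
        · have := hle d
          have := hl0 d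
          linarith
      · have h1 : 0 ≤ x (m + m) := by
          rw [hL2]
          exact Finset.sum_nonneg fun c _ => hr0 c
        have h2 := M0R_ge m n
        rw [hM1]
        linarith
      · rw [hL3]
        exact Finset.sum_nonneg fun c _ => add_nonneg (hl0 c) (hr0 c)
    · intro c hc
      rw [Xc0, Finset.mem_range] at hc
      obtain ⟨d, hd⟩ : ∃ d : Fin m, c = d ∨ c = m + (d : ℕ) := by
        rcases lt_cases hc with ⟨d, hd⟩ | ⟨d, hd⟩
        · exact ⟨d, Or.inl hd⟩
        · exact ⟨d, Or.inr hd⟩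
      set u : Fin m → ℝ := fun e => if e = d then 1 / 2 else 0 with hu
      have hu0 : ∀ e, 0 ≤ u e := by
        intro e
        simp only [hu]
        split_ifs <;> norm_num
      have hus : ∑ e, u e = 1 / 2 := by
        simp [hu]
      refine ⟨mk2 u u (∑ e, u e) (∑ e, (u e + u e)), ⟨?_, ?_, ?_, ?_⟩, ?_⟩
      · rw [mem_Lsp0]
        refine ⟨fun i => ?_, ?_, ?_⟩
        · simp
        · simp
        · simp
      · intro c' hc'
        rw [Xc0, Finset.mem_range] at hc'
        rcases lt_cases hc' with ⟨e, rfl⟩ | ⟨e, rfl⟩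
        · rw [mk2_l]
          exact hu0 e
        · rw [mk2_r]
          exact hu0 e
      · rw [mk2_nu, Finset.sum_add_distrib, hus]
        norm_num
      · rw [mk2_q, hus, hM1]
        norm_num
      · rw [hwf, mul_one]
        have h1 := dlR_le m n
        have h2 := epR_le m n
        have h3 : mk2 u u (∑ e, u e) (∑ e, (u e + u e)) c = 1 / 2 := by
          rcases hd with rfl | rfl
          · rw [mk2_l]
            simp [hu]
          · rw [mk2_r]
            simp [hu]
        rw [h3]
        linarith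
  · intro x hx1 hx2
    rw [mem_Lsp0] at hx1
    rw [hx1.2.1]
    refine Finset.sum_nonneg fun c _ => hx2 _ ?_
    rw [Xc0, Finset.mem_range]
    have := c.2
    omega

theorem t_BEG0 : S_MOV → S_BEG0 := fun hM _ _ A b => beg0 hM A b

/-- The minor giving the entry of `b`. -/
theorem mv_t1 {m n : ℕ} (g : Reg → ℝ) {j : ℕ} (hj : j < m) :
    mv m n g (1, ((List.range n).map fun i => m + m + 2 + i) ++ [j, m + m + 2 + (n + 1)]) =
      (-1) ^ (n + 1) * - g [1, j] := by
  unfold mv
  congr 1
  have e1 : (Matrix.of fun i k : Fin (n + 2) => Rb m n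
      ((1, ((List.range n).map fun i => m + m + 2 + i) ++ [j, m + m + 2 + (n + 1)]) : Mn).1 g i
      (((1, ((List.range n).map fun i => m + m + 2 + i) ++
        [j, m + m + 2 + (n + 1)]) : Mn).2.getD k 0)) =
      (1 : Matrix (Fin (n + 2)) (Fin (n + 2)) ℝ).updateCol ⟨n, by omega⟩
        (fun i => Rb m n 1 g i j) := by
    ext i k
    rw [Matrix.of_apply, Matrix.updateCol_apply]
    have hunit : ∀ l : Fin (n + 2), Rb m n 1 g i (m + m + 2 + (l : ℕ)) =
        (1 : Matrix (Fin (n + 2)) (Fin (n + 2)) ℝ) i l := by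
      intro l
      unfold Rb
      rw [if_neg (by omega), if_neg (by omega), if_neg (by omega), if_neg (by omega),
        Matrix.one_apply]
      by_cases h : i = l
      · rw [if_pos (by rw [h]), if_pos h]
      · rw [if_neg (by intro h'; apply h; apply Fin.ext; omega), if_neg h]
    by_cases hk : k = ⟨n, by omega⟩
    · rw [if_pos hk, hk]
      simp
    · rw [if_neg hk]
      by_cases hk2 : (k : ℕ) < n
      · have e2 : (((List.range n).map fun i => m + m + 2 + i) ++
            [j, m + m + 2 + (n + 1)]).getD (k : ℕ) 0 = m + m + 2 + (k : ℕ) := by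
          rw [List.getD_append _ _ _ _ (by simpa using hk2),
            List.getD_eq_getElem _ _ (by simpa using hk2)]
          simp
        show Rb m n 1 g i ((((List.range n).map fun i => m + m + 2 + i) ++
            [j, m + m + 2 + (n + 1)]).getD (k : ℕ) 0) = _
        rw [e2, hunit]
      · have hk3 : (k : ℕ) = n + 1 := by
          have h1 := k.2
          have h2 : (k : ℕ) ≠ n := fun h => hk (Fin.ext h)
          omega
        have e2 : (((List.range n).map fun i => m + m + 2 + i) ++
            [j, m + m + 2 + (n + 1)]).getD (k : ℕ) 0 = m + m + 2 + (k : ℕ) := by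
          rw [hk3, List.getD_append_right _ _ _ _ (by simp)]
          simp
        show Rb m n 1 g i ((((List.range n).map fun i => m + m + 2 + i) ++
            [j, m + m + 2 + (n + 1)]).getD (k : ℕ) 0) = _
        rw [e2, hunit]
  rw [e1, ← Matrix.cramer_apply, Matrix.cramer_one]
  show Rb m n 1 g n j = _
  unfold Rb
  rw [if_pos hj, if_neg (by omega), if_pos rfl, if_neg (by omega)]

theorem beg1 (hM : S_MOV) {m n E j : ℕ} (A : Fin m → Fin n → ℝ) (b : Fin m → ℝ)
    (W : List Mo) (B : List Bool) (hE : 64 * (cD m n * cD m n) ≤ E)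
    (hT : Trm m n 0 (start A b) (dr0 m) E W B) :
    (j < m → start A b [1, j] ≠ 0 → (∀ i < m, |start A b [1, i]| ≤ |start A b [1, j]|) →
      ∀ o, o = signOut (prV m n (start A b) 0 ((t1 m n j).2.1 ++ (t1 m n j).2.2)) →
      Inv m n 1 (start A b) (dr1 m B) E (st1 m n j o W B).2.1 (st1 m n j o W B).2.2.1) ∧
    ((∃ x ∈ Lsp m n 1 (start A b) (dr1 m B), (∀ c ∈ Xc m (dr1 m B), 0 ≤ x c) ∧ x (m + m) < 0) →
      ¬ ∃ z : Fin n → ℝ, ∀ c, b c ≤ ∑ i, A c i * z i) ∧
    ((∀ y ∈ Sl (Lsp m n 1 (start A b) (dr1 m B)) (Xc m (dr1 m B)) (m + m) (m + m + 1) 0,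
      y (m + m) = 0) → ∃ z : Fin n → ℝ, ∀ c, b c ≤ ∑ i, A c i * z i) := by
  obtain ⟨hT1, hT2, y, hyL, hy1, hy2, hyq, hynu⟩ := hT
  obtain ⟨hM1, hM2, hM3, hM4, hM5, hM6, hM7, hM8, hM9, hM10, hM11⟩ := hM m n (start A b)
  refine ⟨?_, ?_, ?_⟩
  · intro hj hbj hmax o ho
    have hG1 : ∀ E, MoG m n (start A b) E moOne := by
      intro E
      refine ⟨⟨Nat.zero_le _, Nat.zero_le _, Nat.zero_le _, Nat.zero_le _⟩, hM2, ?_⟩
      rw [hM1]
      exact one_pos
    have habs : |moV m n (start A b) (t1 m n j)| = |start A b [1, j]| := by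
      unfold t1
      rw [(hM9 _).1, mv_t1 _ hj, abs_mul, abs_pow, abs_neg, abs_one, one_pow, one_mul, abs_neg]
    have hne : moV m n (start A b) (t1 m n j) ≠ 0 := by
      intro h
      rw [h, abs_zero] at habs
      exact hbj (abs_eq_zero.1 habs.symm)
    have hok : MoOK m n (start A b) (t1 m n j) := (hM9 _).2
    obtain ⟨hf1, hf2, hf3⟩ := hM11 _ hok hne
    rw [← ho] at hf1 hf2
    set T := |start A b [1, j]| with hTdef
    have hTpos : 0 < T := abs_pos.2 hbj
    rw [habs] at hf2
    set W' := (List.range (m + m)).map fun c =>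
      if (dr1 m B).getD c true then moOne else W.getD c moOne with hW'
    have hW'get : ∀ c < m + m, W'.getD c moOne =
        if (dr1 m B).getD c true = true then moOne else W.getD c moOne := by
      intro c hc
      rw [hW', List.getD_eq_getElem _ _ (by simpa using hc)]
      simp
    have hwf : ∀ c ∈ Xc m (dr1 m B), wf m n (start A b) (fixS (t1 m n j) o) W' c =
        moV m n (start A b) (W.getD c moOne) := by
      intro c hc
      have hc1 := (mem_Xc1 m B c).1 hc
      have hc2 : (dr1 m B).getD c true = false := by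
        unfold Xc at hc
        exact (Finset.mem_filter.1 hc).2
      unfold wf wc
      rw [if_pos (by omega), hW'get c (by omega), if_neg (by rw [hc2]; simp)]
    have hb : ∀ c : Fin m, |b c| ≤ T := by
      intro c
      have := hmax c c.2
      rwa [start1] at this
    have hq : ∀ u : Fin m → ℝ, (∀ c, 0 ≤ u c) → ∑ c, u c ≤ 1 →
        |∑ c, b c * u c| ≤ T := by
      intro u hu0 hu1
      calc |∑ c, b c * u c| ≤ ∑ c, |b c * u c| := Finset.abs_sum_le_sum_abs _ _
        _ ≤ ∑ c, T * u c := by
          refine Finset.sum_le_sum fun c _ => ?_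
          rw [abs_mul, abs_of_nonneg (hu0 c)]
          exact mul_le_mul_of_nonneg_right (hb c) (hu0 c)
        _ = T * ∑ c, u c := by rw [Finset.mul_sum]
        _ ≤ T := by nlinarith
    have hrs0 : ∀ x : ℕ → ℝ, (∀ c ∈ Xc m (dr1 m B), 0 ≤ x c) → ∀ c : Fin m, 0 ≤ rs B x c := by
      intro x hx c
      unfold rs
      split_ifs with h
      · exact hx c ((mem_Xc1 m B c).2 ⟨c.2, h⟩)
      · exact le_rfl
    refine ⟨?_, ?_, ?_, ?_, ?_⟩
    · show W'.length = m + m
      rw [hW']
      simp
    · refine ⟨⟨Nat.zero_le _, Nat.zero_le _, ?_, Nat.zero_le _⟩, hf1, ?_⟩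
      · show 1 ≤ 4 * cD m n
        have := cD_ge m n
        omega
      · show 0 < moV m n (start A b) (fixS (t1 m n j) o)
        rw [hf2]
        exact hTpos
    · intro c hc
      show MoG m n (start A b) E (W'.getD c moOne)
      rw [hW'get c hc]
      split_ifs
      · exact hG1 E
      · exact hT1 c hc
    · show Bds _ _ _ _ (moV m n (start A b) (fixS (t1 m n j) o))
        (wf m n (start A b) (fixS (t1 m n j) o) W') _
      rw [hf2]
      intro x hx
      obtain ⟨hx1, hx2, hx3, hx4⟩ := hx
      rw [mem_Lsp1] at hx1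
      obtain ⟨hL1, hL2, hL3⟩ := hx1
      have hr := hrs0 x hx2
      rw [hL3] at hx3
      have h1 := hT2 _ (mem_Sl0 A b (rs B x) hr hx3 hL1)
      refine ⟨?_, ?_, ?_⟩
      · intro c hc
        have hc1 := (mem_Xc1 m B c).1 hc
        rw [hwf c hc]
        have h2 := h1.1 c (by rw [Xc0, Finset.mem_range]; omega)
        rw [mk2_lt _ _ _ _ hc1.1, rs_lt B x hc1.1 hc1.2] at h2
        exact h2
      · rw [hL2]
        have h2 := hq _ hr hx3
        rw [abs_le] at h2
        have h3 := M0R_ge m n
        nlinarith [h2.2]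
      · rw [hL3]
        exact Finset.sum_nonneg fun c _ => hr c
    · intro c hc
      show ∃ x ∈ Sl _ _ _ _ (moV m n (start A b) (fixS (t1 m n j) o)),
        dlR m n * wf m n (start A b) (fixS (t1 m n j) o) W' c ≤ x c
      rw [hf2]
      rw [mem_Lsp0] at hyL
      obtain ⟨hL1, hL2, hL3⟩ := hyL
      have hy0 : ∀ c ∈ Xc m (dr0 m), 0 ≤ y c := by
        intro c hc
        by_cases h : B.getD c false = true
        · have h1 := hy1 c hc h
          have h2 := (hT1 c (by rw [Xc0, Finset.mem_range] at hc; exact hc)).2.2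
          have h3 : 0 < epR m n := by unfold epR; positivity
          have : 0 ≤ epR m n / 2 * moV m n (start A b) (W.getD c moOne) := by positivity
          linarith
        · rw [hy2 c hc (by simpa using h)]
      have hyr : ∀ c : Fin m, y (m + c) = 0 := by
        have h1 : ∑ c : Fin m, y (m + c) = 0 := by rw [← hL2, hyq]
        have h2 := (Finset.sum_eq_zero_iff_of_nonneg (fun c _ => hy0 _ (by
          rw [Xc0, Finset.mem_range]
          have := c.2
          omega))).1 h1
        exact fun c => h2 c (Finset.mem_univ c)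
      have hrsy : ∀ c : Fin m, rs B y c = y c := by
        intro c
        unfold rs
        split_ifs with h
        · rfl
        · exact (hy2 c (by rw [Xc0, Finset.mem_range]; have := c.2; omega) (by simpa using h)).symm
      have hrs : ∀ u v : ℝ, rs B (mk2 (rs B y : Fin m → ℝ) 0 u v) = (rs B y : Fin m → ℝ) := by
        intro u v
        funext c
        unfold rs
        split_ifs with h
        · rw [mk2_l, if_pos h]
        · rfl
      have hr : ∀ c : Fin m, 0 ≤ rs B y c := by
        intro c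
        rw [hrsy]
        exact hy0 c (by rw [Xc0, Finset.mem_range]; have := c.2; omega)
      have hsum : ∑ c : Fin m, rs B y c ≤ 1 := by
        refine le_trans (le_of_eq ?_) hynu
        rw [hL3]
        refine Finset.sum_congr rfl fun c _ => ?_
        rw [hrsy, hyr, add_zero]
      have hmem : mk2 (rs B y : Fin m → ℝ) 0 (- ∑ c, b c * rs B y c) (∑ c : Fin m, rs B y c) ∈
          Sl (Lsp m n 1 (start A b) (dr1 m B)) (Xc m (dr1 m B)) (m + m) (m + m + 1) T := by
       refine ⟨?_, ?_, ?_, ?_⟩
       · rw [mem_Lsp1, hrs]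
         refine ⟨fun i => ?_, mk2_q _ _ _ _, mk2_nu _ _ _ _⟩
         rw [← hL1 i]
         refine Finset.sum_congr rfl fun c _ => ?_
         rw [hrsy, hyr, sub_zero]
       · intro c' hc'
         have h1 := (mem_Xc1 m B c').1 hc'
         rw [mk2_lt _ _ _ _ h1.1]
         exact hr _
       · rw [mk2_nu]
         exact hsum
       · rw [mk2_q]
         have h2 := hq _ hr hsum
         rw [abs_le] at h2
         linarith [h2.1]
      refine ⟨_, hmem, ?_⟩
      rw [hwf c hc]
      have h1 := (mem_Xc1 m B c).1 hc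
      rw [mk2_lt _ _ _ _ h1.1, rs_lt B y h1.1 h1.2]
      have h4 := hy1 c (by rw [Xc0, Finset.mem_range]; omega) h1.2
      have h5 := (hT1 c (by omega)).2.2
      have h6 := dlR_le m n
      refine le_trans ?_ h4
      exact mul_le_mul_of_nonneg_right h6 h5.le
  · rintro ⟨x, hx1, hx2, hx3⟩ ⟨z, hz⟩
    rw [mem_Lsp1] at hx1
    obtain ⟨hL1, hL2, hL3⟩ := hx1
    have hr : ∀ c : Fin m, 0 ≤ rs B x c := by
      intro c
      unfold rs
      split_ifs with h
      · exact hx2 c ((mem_Xc1 m B c).2 ⟨c.2, h⟩)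
      · exact le_rfl
    rw [hL2] at hx3
    have h1 : ∑ c, b c * rs B x c ≤ 0 := by
      calc ∑ c, b c * rs B x c ≤ ∑ c : Fin m, (∑ i, A c i * z i) * rs B x c := by
            refine Finset.sum_le_sum fun c _ => ?_
            exact mul_le_mul_of_nonneg_right (hz c) (hr c)
        _ = ∑ c : Fin m, ∑ i, z i * (A c i * rs B x c) := by
            refine Finset.sum_congr rfl fun c _ => ?_
            rw [Finset.sum_mul]
            exact Finset.sum_congr rfl fun i _ => by ring
        _ = ∑ i, z i * ∑ c : Fin m, A c i * rs B x c := by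
            rw [Finset.sum_comm]
            exact Finset.sum_congr rfl fun i _ => by rw [Finset.mul_sum]
        _ = 0 := by
            refine Finset.sum_eq_zero fun i _ => ?_
            rw [hL1 i, mul_zero]
    linarith
  · intro h
    by_contra hno
    have hF := (t_FARKAS m n (A, b)).1 (by
      rintro ⟨z, hz⟩
      exact hno ⟨z, hz⟩)
    obtain ⟨u, hu0, huA, hub⟩ := hF
    have hs : 0 < ∑ c, u c := by
      by_contra hle
      have h1 : ∑ c, u c = 0 := le_antisymm (not_lt.1 hle) (Finset.sum_nonneg fun c _ => hu0 c)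
      have h2 := (Finset.sum_eq_zero_iff_of_nonneg (fun c _ => hu0 c)).1 h1
      have h3 : ∑ i, u i * (A, b).2 i = 0 :=
        Finset.sum_eq_zero fun c hc => by rw [h2 c hc, zero_mul]
      rw [h3] at hub
      exact lt_irrefl _ hub
    set s := ∑ c, u c with hsdef
    set v : Fin m → ℝ := fun c => u c / s with hv
    have hv0 : ∀ c, 0 ≤ v c := fun c => div_nonneg (hu0 c) hs.le
    have hv1 : ∑ c, v c = 1 := by
      simp only [hv]
      rw [← Finset.sum_div, div_self hs.ne']
    have hvA : ∀ i, ∑ c, A c i * v c = 0 := by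
      intro i
      have h1 := huA i
      have h2 : ∑ c, A c i * v c = (∑ c, u c * A c i) / s := by
        rw [Finset.sum_div]
        refine Finset.sum_congr rfl fun c _ => ?_
        simp only [hv]
        ring
      rw [h2, h1, zero_div]
    have hvb : 0 < ∑ c, b c * v c := by
      have h2 : ∑ c, b c * v c = (∑ c, u c * b c) / s := by
        rw [Finset.sum_div]
        refine Finset.sum_congr rfl fun c _ => ?_
        simp only [hv]
        ring
      rw [h2]
      exact div_pos hub hs
    have h1 := hT2 _ (mem_Sl0 A b v hv0 hv1.le hvA)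
    have hvB : ∀ c : Fin m, B.getD c false ≠ true → v c = 0 := by
      intro c hc
      have h2 := h1.2.1 c (by rw [Xc0, Finset.mem_range]; have := c.2; omega) (by simpa using hc)
      rwa [mk2_l] at h2
    have hrs : ∀ p q : ℝ, rs B (mk2 v 0 p q) = v := by
      intro p q
      funext c
      unfold rs
      split_ifs with h
      · rw [mk2_l]
      · exact (hvB c h).symm
    have h2 := h (mk2 v 0 (- ∑ c, b c * v c) (∑ c, v c)) (by
      refine ⟨?_, ?_, ?_, ?_⟩
      · rw [mem_Lsp1, hrs]
        exact ⟨hvA, mk2_q _ _ _ _, mk2_nu _ _ _ _⟩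
      · intro c hc
        have h3 := (mem_Xc1 m B c).1 hc
        rw [mk2_lt _ _ _ _ h3.1]
        exact hv0 _
      · rw [mk2_nu, hv1]
      · rw [mk2_q]
        linarith)
    rw [mk2_q] at h2
    linarith

theorem t_BEG1 : S_MOV → S_BEG1 := by
  intro hM m n E j A b W B hE hT
  exact beg1 hM A b W B hE hT

end Pool.Agent.Y648.CS
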