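import Pool.Agent.Y648.CS.StmA

set_option autoImplicit false

/-!
# The number of steps, from the counting lemma
-/

namespace Pool.Agent.Y648.CS

open Pool.Agent.NPC Pool.Agent.H558R2 Pool.Agent.H622R3.SM Pool.Agent.W920.FC

namespace TCUTC

/-- the columns of `b` in `Ac` -/
def Sc (Ac : Finset ℕ) {N : ℕ} (b : Fin N → ℕ) : Finset ℕ :=
  (Finset.univ.filter fun k => b k ∈ Ac).image b

open Classical in
/-- the bases with the same unit columns -/
noncomputable def Bas {N : ℕ} (a : ℕ → Fin N → ℝ) (u : Fin N → ℕ) (Ac : Finset ℕ)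
    (U : Finset (Fin N)) : Finset (Fin N → ℕ) :=
  (Fintype.piFinset fun k => if k ∈ U then {u k} else Ac).filter fun b => cdet a b ≠ 0

lemma mem_Bas {N : ℕ} (a : ℕ → Fin N → ℝ) (u : Fin N → ℕ) (Ac : Finset ℕ)
    (U : Finset (Fin N)) (b : Fin N → ℕ) : b ∈ Bas a u Ac U ↔
      (∀ k, (k ∈ U → b k = u k) ∧ (k ∉ U → b k ∈ Ac)) ∧ cdet a b ≠ 0 := by
  unfold Bas
  rw [Finset.mem_filter, Fintype.mem_piFinset]
  refine and_congr_left fun _ => forall_congr' fun k => ?_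
  by_cases h : k ∈ U
  · simp [h]
  · simp [h]

lemma cdet_inj {N : ℕ} (a : ℕ → Fin N → ℝ) (b : Fin N → ℕ) (h : cdet a b ≠ 0) :
    Function.Injective b := by
  intro i j hij
  by_contra hne
  refine h (Matrix.det_zero_of_column_eq hne fun k => ?_)
  simp [hij]

lemma mem_Sc (Ac : Finset ℕ) {N : ℕ} (b : Fin N → ℕ) (e : ℕ) :
    e ∈ Sc Ac b ↔ e ∈ Ac ∧ ∃ k, b k = e := by
  unfold Sc
  rw [Finset.mem_image]
  constructor
  · rintro ⟨k, hk, rfl⟩
    exact ⟨(Finset.mem_filter.1 hk).2, k, rfl⟩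
  · rintro ⟨h, k, rfl⟩
    exact ⟨k, Finset.mem_filter.2 ⟨Finset.mem_univ _, h⟩, rfl⟩

lemma Sc_card (Ac : Finset ℕ) {N : ℕ} (b : Fin N → ℕ) : (Sc Ac b).card ≤ N := by
  unfold Sc
  refine Finset.card_image_le.trans ((Finset.card_filter_le _ _).trans ?_)
  simp

lemma sum_Sc (Ac : Finset ℕ) {N : ℕ} (b : Fin N → ℕ) (hb : Function.Injective b) (f : ℕ → ℝ) :
    ∑ e ∈ Sc Ac b, f e = ∑ k ∈ Finset.univ.filter (fun k => b k ∈ Ac), f (b k) := by
  unfold Sc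
  rw [Finset.sum_image fun x _ y _ h => hb h]

lemma Sc_update (Ac : Finset ℕ) {N : ℕ} (b : Fin N → ℕ) (hb : Function.Injective b) (k : Fin N)
    (c : ℕ) (hc : c ∈ Ac) (hcb : ∀ l, b l ≠ c) :
    Sc Ac (Function.update b k c) = insert c ((Sc Ac b).erase (b k)) := by
  ext e
  rw [mem_Sc, Finset.mem_insert, Finset.mem_erase, mem_Sc]
  constructor
  · rintro ⟨h, l, rfl⟩
    by_cases hl : l = k
    · left
      rw [hl, Function.update_self]
    · right
      rw [Function.update_of_ne hl] at h ⊢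
      exact ⟨fun h' => hl (hb h'), h, l, rfl⟩
  · rintro (rfl | ⟨h1, h2, l, rfl⟩)
    · exact ⟨hc, k, Function.update_self _ _ _⟩
    · refine ⟨h2, l, ?_⟩
      rw [Function.update_of_ne]
      rintro rfl
      exact h1 rfl

/-- the counting lemma for greedy bases -/
lemma core (hGRD : S_GRD) (hGRV : S_GRV) (hCNT : S_CNT) {N : ℕ} (a : ℕ → Fin N → ℝ)
    (u : Fin N → ℕ) (Ac : Finset ℕ) (hU : Units a u Ac) (q nu : ℕ) (Z : Finset ℝ)
    (F : ℕ → ℝ → ℝ) (hK : Kink Ac q nu F Z) (C : ℝ) (hC : 0 ≤ C) (c₁ : ℕ) (M : ℕ) (T : ℕ → ℝ)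
    (w : ℕ → ℕ → ℝ) (β : ℕ → Fin N → ℕ)
    (h : ∀ i < M, (∀ c ∈ Ac, 0 < w i c) ∧ Greedy a u Ac (w i) (β i) ∧
      (∀ e ∈ Ac, F e (Real.logb 2 (T i)) ≤ Real.logb 2 (w i e) ∧
        Real.logb 2 (w i e) ≤ F e (Real.logb 2 (T i)) + C) ∧
      0 < T (i + 1) ∧ 2 * T (i + 1) ≤ T i ∧
      ∀ σ : ℕ → Bool, σ nu = false → σ q = true →
        ∃ k, β i k ∈ Ac ∧ ∃ c ∈ Ac, (∀ l, β i l ≠ c) ∧ σ (β i k) ≠ σ c ∧
        (|cdet a (β i)| * w i (β i k) ≤
            2 ^ c₁ * (|cdet a (Function.update (β i) k c)| * w i c) ∨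
          (σ (β i k) = true ∧ σ c = false ∧ |cdet a (β i)| * w i (β i k) * (T (i + 1) / T i) ≤
            2 ^ c₁ * (|cdet a (Function.update (β i) k c)| * w i c)))) :
    (M : ℝ) ≤ 2 * Z.card + (2 * Z.card + 1) * ((N + 1) ^ 2 *
      (2 * (2 * N * C + Real.logb 2 (N.factorial * 2 ^ (N * N)) + c₁) + 2)) := by
  have hD : 0 ≤ Real.logb 2 ((N.factorial : ℝ) * 2 ^ (N * N)) := by
    refine Real.logb_nonneg (by norm_num) ?_
    have h1 : (1 : ℝ) ≤ N.factorial := by exact_mod_cast Nat.one_le_iff_ne_zero.2 N.factorial_ne_zero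
    have h2 : (1 : ℝ) ≤ 2 ^ (N * N) := one_le_pow₀ (by norm_num)
    nlinarith
  rcases Nat.eq_zero_or_pos M with rfl | hM
  · have h0 : (0 : ℝ) ≤ Z.card := by positivity
    have h1 : (0 : ℝ) ≤ 2 * N * C := by positivity
    have h2 : (0 : ℝ) ≤ (c₁ : ℝ) := by positivity
    have h3 : (0 : ℝ) ≤ 2 * (2 * N * C + Real.logb 2 (N.factorial * 2 ^ (N * N)) + c₁) + 2 := by
      linarith
    simp only [Nat.cast_zero]
    positivity
  obtain ⟨g1, g2, _⟩ := h 0 hM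
  -- unit positions
  have hun : ∀ i < M, ∀ k, β i k = u k ↔ β 0 k = u k := fun i hi =>
    (hGRV N a u Ac (w 0) (β 0) hU g1 g2).2 (w i) (β i) (h i hi).1 (h i hi).2.1
  set U : Finset (Fin N) := Finset.univ.filter fun k => β 0 k = u k with hUd
  have hmU : ∀ k, k ∈ U ↔ β 0 k = u k := fun k => by simp [hUd]
  have hmem : ∀ i < M, β i ∈ Bas a u Ac U := by
    intro i hi
    rw [mem_Bas]
    refine ⟨fun k => ⟨fun hk => (hun i hi k).2 ((hmU k).1 hk), fun hk => ?_⟩,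
      (hGRD N a u Ac (w i) (β i) hU (h i hi).1 (h i hi).2.1).1⟩
    rcases (h i hi).2.1 k with h1 | h1
    · exact h1.1
    · exact absurd ((hmU k).2 ((hun i hi k).1 h1.1)) hk
  -- positions of the columns in `Ac`
  have hpos : ∀ b ∈ Bas a u Ac U, ∀ k, b k ∈ Ac ↔ k ∉ U := by
    intro b hb k
    rw [mem_Bas] at hb
    constructor
    · intro h1 h2
      rw [(hb.1 k).1 h2] at h1
      exact hU.2.2 k h1
    · exact (hb.1 k).2
  have hsum : ∀ b ∈ Bas a u Ac U, ∀ w' : ℕ → ℝ, (∀ c ∈ Ac, 0 < w' c) →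
      Real.logb 2 |cdet a b| + ∑ e ∈ Sc Ac b, Real.logb 2 (w' e) =
        Real.logb 2 (|cdet a b| * ∏ k ∈ Finset.univ.filter (fun k => k ∉ U), w' (b k)) := by
    intro b hb w' hw'
    have hd := ((mem_Bas a u Ac U b).1 hb).2
    have h1 : Finset.univ.filter (fun k => b k ∈ Ac) = Finset.univ.filter (fun k => k ∉ U) := by
      ext k
      simp only [Finset.mem_filter, Finset.mem_univ, true_and]
      exact hpos b hb k
    have h2 : ∀ k ∈ Finset.univ.filter (fun k => k ∉ U), w' (b k) ≠ 0 := by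
      intro k hk
      exact (hw' _ ((hpos b hb k).2 (Finset.mem_filter.1 hk).2)).ne'
    rw [Real.logb_mul (abs_ne_zero.2 hd) (Finset.prod_ne_zero_iff.2 h2), Real.logb_prod _ _ h2,
      sum_Sc Ac b (cdet_inj a b hd), h1]
  refine hCNT (Fin N → ℕ) (Bas a u Ac U) (fun b => Real.logb 2 |cdet a b|) (fun b => Sc Ac b) Ac
    q nu N Z F C (Real.logb 2 ((N.factorial : ℝ) * 2 ^ (N * N))) c₁ M
    (fun i => Real.logb 2 (T i)) (fun i e => Real.logb 2 (w i e)) β hC hD (by positivity)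
    (fun b _ => ⟨fun e he => ((mem_Sc Ac b e).1 he).1, Sc_card Ac b⟩) hK ?_
  intro i hi
  obtain ⟨f1, f2, f3, f4, f5, f6⟩ := h i hi
  have hTi : 0 < T i := by linarith
  obtain ⟨d1, d2, _⟩ := hGRD N a u Ac (w i) (β i) hU f1 f2
  refine ⟨hmem i hi, f3, ?_, ?_, ?_⟩
  · -- almost maximal volume
    intro b hb
    show Real.logb 2 |cdet a b| + ∑ e ∈ Sc Ac b, Real.logb 2 (w i e) ≤
      Real.logb 2 |cdet a (β i)| + ∑ e ∈ Sc Ac (β i), Real.logb 2 (w i e) +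
        Real.logb 2 ((N.factorial : ℝ) * 2 ^ (N * N))
    rw [hsum b hb _ f1, hsum (β i) (hmem i hi) _ f1]
    have hb' := (mem_Bas a u Ac U b).1 hb
    have h1 := (hGRV N a u Ac (w i) (β i) hU f1 f2).1 b (fun k =>
      ⟨fun hk => (hb'.1 k).1 ((hmU k).2 ((hun i hi k).1 hk)),
        fun hk => (hb'.1 k).2 (fun hk' => hk ((hun i hi k).2 ((hmU k).1 hk')))⟩)
    have h2 : Finset.univ.filter (fun k => β i k ≠ u k) =
        Finset.univ.filter (fun k => k ∉ U) := by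
      ext k
      simp only [Finset.mem_filter, Finset.mem_univ, true_and]
      exact not_congr ((hun i hi k).trans (hmU k).symm)
    rw [h2] at h1
    have p1 : 0 < |cdet a b| * ∏ k ∈ Finset.univ.filter (fun k => k ∉ U), w i (b k) := by
      refine mul_pos (abs_pos.2 hb'.2) (Finset.prod_pos fun k hk => ?_)
      exact f1 _ ((hpos b hb k).2 (Finset.mem_filter.1 hk).2)
    have p2 : 0 < |cdet a (β i)| * ∏ k ∈ Finset.univ.filter (fun k => k ∉ U), w i (β i k) := by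
      refine mul_pos (abs_pos.2 d1) (Finset.prod_pos fun k hk => ?_)
      exact f1 _ ((hpos _ (hmem i hi) k).2 (Finset.mem_filter.1 hk).2)
    have p3 : (0 : ℝ) < (N.factorial : ℝ) * 2 ^ (N * N) := by positivity
    have h3 := Real.logb_le_logb_of_le (by norm_num : (1 : ℝ) < 2) p1 h1
    rw [Real.logb_mul p3.ne' p2.ne'] at h3
    linarith
  · show Real.logb 2 (T (i + 1)) ≤ Real.logb 2 (T i) - 1
    have h1 := Real.logb_le_logb_of_le (by norm_num : (1 : ℝ) < 2)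
      (by linarith : 0 < 2 * T (i + 1)) f5
    rw [Real.logb_mul (by norm_num) f4.ne', Real.logb_self_eq_one (by norm_num)] at h1
    linarith
  · intro σ s1 s2
    obtain ⟨k, k1, c, c1, c2, c3, c4⟩ := f6 σ s1 s2
    have hw1 : 0 < w i (β i k) := f1 _ k1
    have hw2 : 0 < w i c := f1 _ c1
    have hd1 : 0 < |cdet a (β i)| := abs_pos.2 d1
    have ht : 0 < T (i + 1) / T i := div_pos f4 hTi
    have hne : cdet a (Function.update (β i) k c) ≠ 0 := by
      intro h0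
      rw [h0, abs_zero, zero_mul, mul_zero] at c4
      rcases c4 with c4 | ⟨_, _, c4⟩
      · exact absurd c4 (not_le.2 (mul_pos hd1 hw1))
      · exact absurd c4 (not_le.2 (mul_pos (mul_pos hd1 hw1) ht))
    have hd2 : 0 < |cdet a (Function.update (β i) k c)| := abs_pos.2 hne
    have hkU : k ∉ U := (hpos _ (hmem i hi) k).1 k1
    have hm' := (mem_Bas a u Ac U (β i)).1 (hmem i hi)
    have hS : Sc Ac (Function.update (β i) k c) = insert c ((Sc Ac (β i)).erase (β i k)) :=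
      Sc_update Ac (β i) d2 k c c1 c2
    have hcS : c ∉ Sc Ac (β i) := by
      rw [mem_Sc]
      rintro ⟨_, l, hl⟩
      exact c2 l hl
    have hkS : β i k ∈ Sc Ac (β i) := (mem_Sc _ _ _).2 ⟨k1, k, rfl⟩
    have hsm : ∑ f ∈ Sc Ac (Function.update (β i) k c), Real.logb 2 (w i f) =
        Real.logb 2 (w i c) + (∑ f ∈ Sc Ac (β i), Real.logb 2 (w i f) -
          Real.logb 2 (w i (β i k))) := by
      rw [hS, Finset.sum_insert (fun h' => hcS (Finset.mem_of_mem_erase h')),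
        Finset.sum_erase_eq_sub hkS]
    have hl2 : Real.logb 2 (2 ^ c₁ * (|cdet a (Function.update (β i) k c)| * w i c)) =
        c₁ + (Real.logb 2 |cdet a (Function.update (β i) k c)| + Real.logb 2 (w i c)) := by
      rw [Real.logb_mul (by positivity) (by positivity), Real.logb_mul hd2.ne' hw2.ne',
        Real.logb_pow, Real.logb_self_eq_one (by norm_num), mul_one]
    refine ⟨Function.update (β i) k c, ?_, β i k, hkS, c, c1, hcS, hS, c3, ?_⟩
    · rw [mem_Bas]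
      refine ⟨fun l => ?_, hne⟩
      by_cases hl : l = k
      · subst hl
        rw [Function.update_self]
        exact ⟨fun h' => absurd h' hkU, fun _ => c1⟩
      · rw [Function.update_of_ne hl]
        exact hm'.1 l
    · show (Real.logb 2 |cdet a (β i)| + ∑ f ∈ Sc Ac (β i), Real.logb 2 (w i f) - c₁ ≤
          Real.logb 2 |cdet a (Function.update (β i) k c)| +
            ∑ f ∈ Sc Ac (Function.update (β i) k c), Real.logb 2 (w i f)) ∨
        (σ (β i k) = true ∧ σ c = false ∧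
          Real.logb 2 |cdet a (β i)| + ∑ f ∈ Sc Ac (β i), Real.logb 2 (w i f) - c₁ -
            (Real.logb 2 (T i) - Real.logb 2 (T (i + 1))) ≤
          Real.logb 2 |cdet a (Function.update (β i) k c)| +
            ∑ f ∈ Sc Ac (Function.update (β i) k c), Real.logb 2 (w i f))
      rw [hsm]
      rcases c4 with c4 | ⟨s3, s4, c4⟩
      · left
        have h1 := Real.logb_le_logb_of_le (by norm_num : (1 : ℝ) < 2) (mul_pos hd1 hw1) c4
        rw [hl2, Real.logb_mul hd1.ne' hw1.ne'] at h1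
        linarith
      · right
        refine ⟨s3, s4, ?_⟩
        have h1 := Real.logb_le_logb_of_le (by norm_num : (1 : ℝ) < 2)
          (mul_pos (mul_pos hd1 hw1) ht) c4
        rw [hl2, Real.logb_mul (mul_pos hd1 hw1).ne' ht.ne', Real.logb_mul hd1.ne' hw1.ne',
          Real.logb_div f4.ne' hTi.ne'] at h1
        linarith

lemma cD_le (m n : ℕ) (hm : 1 ≤ m) (hn : 1 ≤ n) (s : ℝ) (hs : s = (m : ℝ) + n + 2) :
    (cD m n : ℝ) ≤ 5 * s := by
  have hm' : (1 : ℝ) ≤ m := by exact_mod_cast hm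
  have hn' : (1 : ℝ) ≤ n := by exact_mod_cast hn
  have hcD : cD m n = 4 * m + n + 12 := by
    unfold cD Pool.Agent.W920.FC.cK
    ring
  rw [hcD, hs]
  push_cast
  linarith

/-- the bound for the ratio -/
lemma ratio_le (m n K : ℕ) : (K : ℝ) ^ 2 * (1 + MR m n) / epR m n ≤
    2 ^ (2 * K + (4 * cD m n + 1)) := by
  have a1 : (K : ℝ) ≤ 2 ^ K := by
    exact_mod_cast (Nat.lt_two_pow_self (n := K)).le
  have a2 : (K : ℝ) ^ 2 ≤ 2 ^ (2 * K) := by
    rw [mul_comm 2 K, pow_mul]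
    exact pow_le_pow_left₀ (by positivity) a1 2
  have a3 : (1 + MR m n) / epR m n ≤ 2 ^ (4 * cD m n + 1) := by
    unfold MR epR
    rw [one_div, inv_pow, div_inv_eq_mul]
    generalize cD m n = d
    have b1 : (1 : ℝ) ≤ 2 ^ (2 * d) := one_le_pow₀ (by norm_num)
    have b2 : (2 : ℝ) ^ (4 * d + 1) = 2 * 2 ^ (2 * d) * 2 ^ (2 * d) := by
      rw [pow_succ, show 4 * d = 2 * d + 2 * d by ring, pow_add]
      ring
    rw [b2]
    exact mul_le_mul_of_nonneg_right (by linarith) (by positivity)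
  have a4 : 0 ≤ (1 + MR m n) / epR m n := by
    unfold MR epR
    positivity
  rw [mul_div_assoc, pow_add]
  exact mul_le_mul a2 a3 a4 (by positivity)

lemma logb_le (x : ℝ) (e : ℕ) (h0 : 0 < x) (h : x ≤ 2 ^ e) : Real.logb 2 x ≤ e := by
  have := Real.logb_le_logb_of_le (by norm_num : (1 : ℝ) < 2) h0 h
  rwa [Real.logb_pow, Real.logb_self_eq_one (by norm_num), mul_one] at this

/-- the constant `C` -/
lemma C_le (k m n : ℕ) (hm : 1 ≤ m) (hn : 1 ≤ n) (s : ℝ) (hs : s = (m : ℝ) + n + 2) :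
    (((m + n) ^ k + 1 : ℕ) : ℝ) +
      Real.logb 2 (((m + m + 2 : ℕ) : ℝ) ^ 2 * (1 + MR m n) / epR m n) ≤ 27 * s ^ (k + 1) := by
  have hm' : (1 : ℝ) ≤ m := by exact_mod_cast hm
  have hn' : (1 : ℝ) ≤ n := by exact_mod_cast hn
  have hs4 : (4 : ℝ) ≤ s := by linarith
  have hs1 : (1 : ℝ) ≤ s := by linarith
  have hsk : (1 : ℝ) ≤ s ^ k := one_le_pow₀ hs1
  have hr : (((m + n) ^ k + 1 : ℕ) : ℝ) ≤ 2 * s ^ k := by
    have h1 : (((m + n) ^ k + 1 : ℕ) : ℝ) = ((m : ℝ) + n) ^ k + 1 := by push_cast; rfl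
    have : ((m : ℝ) + n) ^ k ≤ s ^ k := pow_le_pow_left₀ (by positivity) (by linarith) k
    rw [h1]
    linarith
  have e2 := logb_le _ _ (by unfold MR epR; positivity) (ratio_le m n (m + m + 2))
  have e3 : ((2 * (m + m + 2) + (4 * cD m n + 1) : ℕ) : ℝ) ≤ 25 * s := by
    have h1 : ((2 * (m + m + 2) + (4 * cD m n + 1) : ℕ) : ℝ) =
        2 * ((m : ℝ) + m + 2) + (4 * (cD m n : ℝ) + 1) := by push_cast; rfl
    have h2 := cD_le m n hm hn s hs
    rw [h1]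
    linarith
  have e4 : 2 * s ^ k ≤ s ^ (k + 1) := by
    rw [pow_succ]
    nlinarith
  have e5 : s ≤ s ^ (k + 1) := by
    rw [pow_succ]
    nlinarith
  linarith

/-- the constant `D` -/
lemma D_le (N : ℕ) (s : ℝ) (hs : (N : ℝ) ≤ s) :
    Real.logb 2 ((N.factorial : ℝ) * 2 ^ (N * N)) ≤ 2 * s ^ 2 := by
  have e1 : ((N.factorial : ℕ) : ℝ) ≤ 2 ^ (N * N) := by
    have a1 : N.factorial ≤ N ^ N := Nat.factorial_le_pow N
    have a2 : N ^ N ≤ (2 ^ N) ^ N := Nat.pow_le_pow_left (Nat.lt_two_pow_self (n := N)).le _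
    rw [← pow_mul] at a2
    exact_mod_cast a1.trans a2
  have e2 : ((N.factorial : ℕ) : ℝ) * 2 ^ (N * N) ≤ 2 ^ (N * N + N * N) := by
    rw [pow_add]
    exact mul_le_mul_of_nonneg_right e1 (by positivity)
  refine (logb_le _ _ (by positivity) e2).trans ?_
  push_cast
  have : (0 : ℝ) ≤ N := by positivity
  nlinarith

/-- the bound, in terms of `s` -/
lemma total (k : ℕ) (s Zc N C D c₁ : ℝ) (hs4 : 4 ≤ s) (hZ0 : 0 ≤ Zc) (hN0 : 0 ≤ N) (hC0 : 0 ≤ C)
    (hD0 : 0 ≤ D) (hc0 : 0 ≤ c₁) (hN : N + 1 ≤ s) (hCb : C ≤ 27 * s ^ (k + 1))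
    (hDb : D ≤ 2 * s ^ 2) (hcC : c₁ ≤ 1600 * s ^ 2) (hZb : Zc ≤ 32 * s ^ (2 * k + 3)) :
    2 * Zc + (2 * Zc + 1) * ((N + 1) ^ 2 * (2 * (2 * N * C + D + c₁) + 2)) <
      s ^ (8 * k + 40) := by
  have hs1 : (1 : ℝ) ≤ s := by linarith
  have hs0 : (0 : ℝ) < s := by linarith
  have q1 : (1 : ℝ) ≤ s ^ (2 * k + 3) := one_le_pow₀ hs1
  have q2 : s ^ 2 ≤ s ^ (k + 2) := pow_le_pow_right₀ hs1 (by omega)
  have q3 : (1 : ℝ) ≤ s ^ (k + 2) := one_le_pow₀ hs1
  have r1 : 2 * (2 * N * C + D + c₁) + 2 ≤ 3314 * s ^ (k + 2) := by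
    have e1 : 2 * N * C ≤ 2 * s * (27 * s ^ (k + 1)) := by
      have : N ≤ s := by linarith
      gcongr
    have e2 : 2 * s * (27 * s ^ (k + 1)) = 54 * s ^ (k + 2) := by ring
    linarith
  have r2 : (N + 1) ^ 2 ≤ s ^ 2 := pow_le_pow_left₀ (by positivity) hN 2
  have r3 : (0 : ℝ) ≤ 2 * (2 * N * C + D + c₁) + 2 := by positivity
  have r4 : (N + 1) ^ 2 * (2 * (2 * N * C + D + c₁) + 2) ≤ s ^ 2 * (3314 * s ^ (k + 2)) :=
    mul_le_mul r2 r1 r3 (by positivity)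
  have r5 : 2 * Zc + 1 ≤ 65 * s ^ (2 * k + 3) := by linarith
  have r6 : (2 * Zc + 1) * ((N + 1) ^ 2 * (2 * (2 * N * C + D + c₁) + 2)) ≤
      (65 * s ^ (2 * k + 3)) * (s ^ 2 * (3314 * s ^ (k + 2))) :=
    mul_le_mul r5 r4 (by positivity) (by positivity)
  have r7 : (65 * s ^ (2 * k + 3)) * (s ^ 2 * (3314 * s ^ (k + 2))) =
      215410 * s ^ (3 * k + 7) := by ring
  have r8 : s ^ (2 * k + 3) ≤ s ^ (3 * k + 7) := pow_le_pow_right₀ hs1 (by omega)
  have r9 : (262144 : ℝ) * s ^ (3 * k + 7) ≤ s ^ (3 * k + 16) := by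
    have e1 : (262144 : ℝ) ≤ s ^ 9 := by
      have h1 : (4 : ℝ) ^ 9 ≤ s ^ 9 := pow_le_pow_left₀ (by norm_num) hs4 9
      have h2 : (262144 : ℝ) = 4 ^ 9 := by norm_num
      rw [h2]
      exact h1
    have e2 : s ^ (3 * k + 16) = s ^ 9 * s ^ (3 * k + 7) := by
      rw [← pow_add]
      congr 1
      omega
    rw [e2]
    exact mul_le_mul_of_nonneg_right e1 (by positivity)
  have r10 : s ^ (3 * k + 16) ≤ s ^ (8 * k + 40) := pow_le_pow_right₀ hs1 (by omega)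
  have r12 : (0 : ℝ) < s ^ (3 * k + 7) := by positivity
  linarith

lemma Z_le (k m n : ℕ) (hm : 1 ≤ m) (hn : 1 ≤ n) (s : ℝ) (hs : s = (m : ℝ) + n + 2) (Zc : ℕ)
    (hZ : Zc ≤ (m + m + 2) * ((m + m + 2) * ((m + n) ^ k + 1)) ^ 2) :
    (Zc : ℝ) ≤ 32 * s ^ (2 * k + 3) := by
  have hm' : (1 : ℝ) ≤ m := by exact_mod_cast hm
  have hn' : (1 : ℝ) ≤ n := by exact_mod_cast hn
  have hs1 : (1 : ℝ) ≤ s := by linarith
  have hsk : (1 : ℝ) ≤ s ^ k := one_le_pow₀ hs1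
  have hK : ((m + m + 2 : ℕ) : ℝ) ≤ 2 * s := by
    push_cast
    linarith
  have hr : (((m + n) ^ k + 1 : ℕ) : ℝ) ≤ 2 * s ^ k := by
    have h1 : (((m + n) ^ k + 1 : ℕ) : ℝ) = ((m : ℝ) + n) ^ k + 1 := by push_cast; rfl
    have : ((m : ℝ) + n) ^ k ≤ s ^ k := pow_le_pow_left₀ (by positivity) (by linarith) k
    rw [h1]
    linarith
  generalize (m + m + 2 : ℕ) = K at *
  generalize ((m + n) ^ k + 1 : ℕ) = r at *
  have e1 : (Zc : ℝ) ≤ (K : ℝ) * ((K : ℝ) * (r : ℝ)) ^ 2 := by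
    exact_mod_cast hZ
  have e2 : (K : ℝ) * ((K : ℝ) * (r : ℝ)) ^ 2 ≤ (2 * s) * ((2 * s) * (2 * s ^ k)) ^ 2 := by
    gcongr
  have e3 : (2 * s) * ((2 * s) * (2 * s ^ k)) ^ 2 = 32 * s ^ (2 * k + 3) := by
    ring
  linarith

/-- the constants -/
lemma numerics (k m n : ℕ) (hm : 1 ≤ m) (hn : 1 ≤ n) (Zc : ℕ)
    (hZ : Zc ≤ (m + m + 2) * ((m + m + 2) * ((m + n) ^ k + 1)) ^ 2) (C : ℝ) (hC0 : 0 ≤ C)
    (hC : C = (((m + n) ^ k + 1 : ℕ) : ℝ) +
      Real.logb 2 (((m + m + 2 : ℕ) : ℝ) ^ 2 * (1 + MR m n) / epR m n)) :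
    2 * (Zc : ℝ) + (2 * Zc + 1) * ((((n + 2 : ℕ) : ℝ) + 1) ^ 2 *
      (2 * (2 * ((n + 2 : ℕ) : ℝ) * C +
        Real.logb 2 (((n + 2).factorial : ℝ) * 2 ^ ((n + 2) * (n + 2))) + cC m n) + 2)) <
      (cI k m n : ℝ) := by
  obtain ⟨s, hs⟩ : ∃ s : ℝ, s = (m : ℝ) + n + 2 := ⟨_, rfl⟩
  have hm' : (1 : ℝ) ≤ m := by exact_mod_cast hm
  have hn' : (1 : ℝ) ≤ n := by exact_mod_cast hn
  have r11 : (cI k m n : ℝ) = s ^ (8 * k + 40) := by
    unfold cI
    rw [Nat.cast_pow, hs]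
    push_cast
    rfl
  have hD0 : 0 ≤ Real.logb 2 (((n + 2).factorial : ℝ) * 2 ^ ((n + 2) * (n + 2))) := by
    refine Real.logb_nonneg (by norm_num) ?_
    have h1 : (1 : ℝ) ≤ (n + 2).factorial := by
      exact_mod_cast Nat.one_le_iff_ne_zero.2 (n + 2).factorial_ne_zero
    have h2 : (1 : ℝ) ≤ 2 ^ ((n + 2) * (n + 2)) := one_le_pow₀ (by norm_num)
    exact one_le_mul_of_one_le_of_one_le h1 h2
  have hcC : (cC m n : ℝ) ≤ 1600 * s ^ 2 := by
    have h1 : (cC m n : ℝ) = 64 * ((cD m n : ℝ) * (cD m n : ℝ)) := by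
      unfold cC
      push_cast
      rfl
    have h2 := cD_le m n hm hn s hs
    have h3 : (0 : ℝ) ≤ (cD m n : ℝ) := Nat.cast_nonneg _
    rw [h1]
    generalize (cD m n : ℝ) = d at h2 h3
    nlinarith
  have hc0 : (0 : ℝ) ≤ (cC m n : ℝ) := Nat.cast_nonneg _
  generalize (cC m n : ℝ) = c₁ at hcC hc0
  rw [r11]
  refine total k s Zc ((n + 2 : ℕ) : ℝ) C _ c₁ (by linarith) (Nat.cast_nonneg _)
    (Nat.cast_nonneg _) hC0 hD0 hc0 ?_ (by rw [hC]; exact C_le k m n hm hn s hs) ?_ hcC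
    (Z_le k m n hm hn s hs Zc hZ)
  · push_cast
    linarith
  · refine D_le (n + 2) s ?_
    push_cast
    linarith

end TCUTC

open TCUTC

theorem t_CUTC : S_LSP → S_GRD → S_GRV → S_FST → S_CNT → S_CUTC := by
  intro hLSP hGRD hGRV hFST hCNT k m n p g drop T M hm hn hSc hcut
  obtain ⟨l1, l2, l3, l4, l5, l6, l7⟩ := hLSP m n p g drop
  obtain ⟨Z, F, z1, z2, z3⟩ := hFST (Lsp m n p g drop) (Xc m drop) (m + m) (m + m + 1)
    ((m + n) ^ k + 1) (m + m + 2) (by omega) l1 l3 hSc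
  have hch : ∀ i, ∃ (w : ℕ → ℝ) (β : Fin (n + 2) → ℕ) (x : ℕ → ℝ), i < M →
      Wts (Xc m drop) (m + m) (m + m + 1) (T i) w ∧
      Bds (Lsp m n p g drop) (Xc m drop) (m + m) (m + m + 1) (T i) w (MR m n) ∧
      Cen (Lsp m n p g drop) (Xc m drop) (m + m) (m + m + 1) (T i) w (epR m n) x ∧
      Greedy (cl m n p g) (un m n) (Acs m drop) w β ∧ 0 < T (i + 1) ∧ 2 * T (i + 1) ≤ T i ∧
      ∀ σ : ℕ → Bool, σ (m + m + 1) = false → σ (m + m) = true →
        ∃ k, β k ∈ Acs m drop ∧ ∃ c ∈ Acs m drop, (∀ l, β l ≠ c) ∧ σ (β k) ≠ σ c ∧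
        (|cdet (cl m n p g) β| * w (β k) ≤
            2 ^ cC m n * (|cdet (cl m n p g) (Function.update β k c)| * w c) ∨
          (σ (β k) = true ∧ σ c = false ∧ |cdet (cl m n p g) β| * w (β k) * (T (i + 1) / T i) ≤
            2 ^ cC m n * (|cdet (cl m n p g) (Function.update β k c)| * w c))) := by
    intro i
    by_cases hi : i < M
    · obtain ⟨w, β, x, h⟩ := hcut i hi
      exact ⟨w, β, x, fun _ => h⟩
    · exact ⟨fun _ => 0, fun _ => 0, fun _ => 0, fun h => absurd h hi⟩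
  choose w β x h using hch
  have hep : 0 < epR m n := by unfold epR; positivity
  have hep1 : epR m n ≤ 1 := by
    unfold epR
    exact pow_le_one₀ (by norm_num) (by norm_num)
  have hMR : 1 ≤ MR m n := by
    unfold MR
    exact one_le_pow₀ (by norm_num)
  set C : ℝ := (((m + n) ^ k + 1 : ℕ) : ℝ) +
      Real.logb 2 (((m + m + 2 : ℕ) : ℝ) ^ 2 * (1 + MR m n) / epR m n) with hCd
  have hC0 : 0 ≤ C := by
    have h1 : 0 ≤ Real.logb 2 (((m + m + 2 : ℕ) : ℝ) ^ 2 * (1 + MR m n) / epR m n) := by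
      refine Real.logb_nonneg (by norm_num) ?_
      rw [le_div_iff₀ hep]
      have h2 : (1 : ℝ) ≤ ((m + m + 2 : ℕ) : ℝ) ^ 2 := by
        refine one_le_pow₀ ?_
        exact_mod_cast (by omega : 1 ≤ m + m + 2)
      nlinarith
    positivity
  have hcore := core hGRD hGRV hCNT (cl m n p g) (un m n) (Acs m drop) l4 (m + m) (m + m + 1)
    Z F z2 C hC0 (cC m n) M T w β (by
      intro i hi
      obtain ⟨h1, h2, h3, h4, h5, h6, h7⟩ := h i hi
      refine ⟨?_, h4, ?_, h5, h6, h7⟩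
      · intro c hc
        obtain ⟨_, _, _, t1, t2, t3, t4⟩ := h1
        rcases Finset.mem_insert.1 hc with rfl | hc
        · rw [t3]; exact t1
        · rcases Finset.mem_insert.1 hc with rfl | hc
          · rw [t4]; exact one_pos
          · exact t2 c hc
      · exact z3 (T i) (w i) (MR m n) (epR m n) (x i) h1 hep hep1 hMR h2 h3)
  have hnum := numerics k m n hm hn Z.card z1 C hC0 hCd
  exact_mod_cast hcore.trans_lt hnum

end Pool.Agent.Y648.CS
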