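import Pool.Agent.Y648.CS.StmM
import Pool.Agent.W920.FC.T_ORD1
import Pool.Agent.W920.FC.T_ORD2B
import Pool.Agent.W920.FD.T_EQM
import Pool.Agent.W920.FD.T_SZ4
import Pool.Agent.W920.FD.T_LEN

set_option autoImplicit false

/-!
# The query for a minor (helper590, adapting T_EQM and T_SZ4)
-/

namespace Pool.Agent.Y648.CS

open Pool.Agent.NPC Pool.Agent.H558R2 Pool.Agent.H622R3.SM Pool.Agent.W920.FC

namespace TDET

/-- The matrix of the minor. -/
noncomputable def MM (m n : ℕ) (g : Reg → ℝ) (x : Mn) : Matrix (Fin (n + 2)) (Fin (n + 2)) ℝ :=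
  Matrix.of fun i k : Fin (n + 2) => Rb m n x.1 g i (x.2.getD k 0)

/-- The entries. -/
def entP (m n : ℕ) (x : Mn) : List Instr :=
  (List.range (n + 2)).flatMap fun i => (List.range (n + 2)).map fun k =>
    entI m n x.1 i (x.2.getD k 0) [4, i, k]

theorem detQ_eq (m n : ℕ) (x : Mn) : detQ m n x = (entP m n x ++ flProg (n + 2), [10, n + 1]) := rfl

theorem mem_entP {m n : ℕ} {x : Mn} {I : Instr} (hI : I ∈ entP m n x) :
    ∃ i k, i < n + 2 ∧ k < n + 2 ∧ I = entI m n x.1 i (x.2.getD k 0) [4, i, k] := by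
  simp only [entP, List.mem_flatMap, List.mem_map, List.mem_range] at hI
  obtain ⟨i, hi, k, hk, rfl⟩ := hI
  exact ⟨i, k, hi, hk, rfl⟩

theorem entI_dst (m n p i c : ℕ) (r : Reg) : (entI m n p i c r).dst = r := by
  unfold entI
  split_ifs <;> rfl

theorem b2 : ([2] : Reg) ∈ baseReg := by simp [baseReg]
theorem b3 : ([3] : Reg) ∈ baseReg := by simp [baseReg]
theorem b0 (i j : ℕ) : ([0, i, j] : Reg) ∈ baseReg := by simp [baseReg]
theorem b1 (i : ℕ) : ([1, i] : Reg) ∈ baseReg := by simp [baseReg]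

theorem entI_ops (m n p i c : ℕ) (r : Reg) :
    (entI m n p i c r).fst ∈ baseReg ∧ (entI m n p i c r).snd ∈ baseReg := by
  unfold entI
  split_ifs <;> exact ⟨by first | exact b2 | exact b3 | exact b0 _ _ | exact b1 _,
    by first | exact b2 | exact b3 | exact b0 _ _ | exact b1 _⟩

theorem entI_eqn (m n p i c : ℕ) (r : Reg) (g V : Reg → ℝ) (hg : Base g)
    (hV : ∀ r ∈ baseReg, V r = g r) (hr : V r = Rb m n p g i c) : Eqn V (entI m n p i c r) := by
  have h2 : V [2] = 1 := (hV _ b2).trans hg.1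
  have h3 : V [3] = 0 := (hV _ b3).trans hg.2
  have h0 : ∀ i j, V [0, i, j] = g [0, i, j] := fun i j => hV _ (b0 i j)
  have h1 : ∀ i, V [1, i] = g [1, i] := fun i => hV _ (b1 i)
  unfold Rb at hr
  unfold entI
  split_ifs at hr ⊢ <;> refine ⟨?_, by simp⟩ <;> simp only [Op.eval, hr, h2, h3, h0, h1] <;> ring

theorem ordE (m n : ℕ) (x : Mn) : Ord baseReg (entP m n x) := by
  refine TORD.ord_of_sorted _ _ ?_ ?_ ?_
  · refine TORD.pwF _ _ (fun i hi => TORD.pwM _ _ fun a b hab hb => ?_)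
      fun i i' hii hi' x hx y hy => ?_
    · simp only [TORD.LT, entI_dst, TORD.key4]
      simp [List.cons_lt_cons_iff]
      omega
    · simp only [List.mem_map, List.mem_range] at hx hy
      obtain ⟨j, hj, rfl⟩ := hx
      obtain ⟨j', hj', rfl⟩ := hy
      simp only [TORD.LT, entI_dst, TORD.key4]
      simp [List.cons_lt_cons_iff]
      omega
  · intro I hI
    obtain ⟨i, k, hi, hk, rfl⟩ := mem_entP hI
    rw [entI_dst]
    simp [baseReg]
  · intro I hI r hr
    obtain ⟨i, k, hi, hk, rfl⟩ := mem_entP hI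
    have h := entI_ops m n x.1 i (x.2.getD k 0) [4, i, k]
    rcases hr with rfl | rfl
    · exact Or.inl h.1
    · exact Or.inl h.2

theorem wrE {m n : ℕ} {x : Mn} {i k : ℕ} (hi : i < n + 2) (hk : k < n + 2) :
    [4, i, k] ∈ wr (entP m n x) := by
  refine ⟨entI m n x.1 i (x.2.getD k 0) [4, i, k], ?_, entI_dst _ _ _ _ _ _⟩
  simp only [entP, List.mem_flatMap, List.mem_map, List.mem_range]
  exact ⟨i, hi, k, hk, rfl⟩

theorem wrE_hd {m n : ℕ} {x : Mn} {r : Reg} (hr : r ∈ wr (entP m n x)) : r.headD 0 = 4 := by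
  obtain ⟨I, hI, rfl⟩ := hr
  obtain ⟨i, k, hi, hk, rfl⟩ := mem_entP hI
  rw [entI_dst]
  rfl

/-- The values of all registers. -/
noncomputable def vd {K : ℕ} (g : Reg → ℝ) (G : Matrix (Fin K) (Fin K) ℝ) : Reg → ℝ
  | [4, i, j] => ent G i j
  | [5, k] => (k : ℝ)
  | [6, k, i, j] => ent (flN G k) i j
  | [7, k, i, j, l] => ent G i l * ent (flN G k) l j
  | [8, k, i, j, l] => ∑ l' ∈ Finset.range l, ent G i l' * ent (flN G k) l' j
  | [9, k, i] => ∑ i' ∈ Finset.range i, ∑ l ∈ Finset.range K, ent G i' l * ent (flN G k) l i'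
  | [10, k] => cVal G k
  | r => g r

theorem vd_base {K : ℕ} (g : Reg → ℝ) (G : Matrix (Fin K) (Fin K) ℝ) :
    ∀ r ∈ baseReg, vd g G r = g r := by
  intro r hr
  unfold vd
  split <;> first | rfl | (exfalso; revert hr; simp [baseReg])

section

variable {K : ℕ} {g : Reg → ℝ} (G : Matrix (Fin K) (Fin K) ℝ) (hg : Base g)

lemma v4 (i j : ℕ) : vd g G [4, i, j] = ent G i j := rfl
lemma v5 (k : ℕ) : vd g G [5, k] = (k : ℝ) := rfl
lemma v6 (k i j : ℕ) : vd g G [6, k, i, j] = ent (flN G k) i j := rfl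
lemma v7 (k i j l : ℕ) : vd g G [7, k, i, j, l] = ent G i l * ent (flN G k) l j := rfl
lemma v8 (k i j l : ℕ) : vd g G [8, k, i, j, l] = ∑ l' ∈ Finset.range l,
    ent G i l' * ent (flN G k) l' j := rfl
lemma v9 (k i : ℕ) : vd g G [9, k, i] = ∑ i' ∈ Finset.range i,
    ∑ l ∈ Finset.range K, ent G i' l * ent (flN G k) l i' := rfl
lemma v10 (k : ℕ) : vd g G [10, k] =
    (∑ i ∈ Finset.range K, ∑ l ∈ Finset.range K,
      ent G i l * ent (flN G k) l i) / ((k : ℝ) + 1) := rfl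

include hg

lemma v2 : vd g G [2] = 1 := (vd_base g G [2] b2).trans hg.1
lemma v3 : vd g G [3] = 0 := (vd_base g G [3] b3).trans hg.2

lemma good_initProg : ∀ I ∈ initProg K, Eqn (vd g G) I := by
  intro I hI
  unfold initProg at hI
  simp only [List.mem_cons, List.mem_flatMap, List.mem_map, List.mem_range] at hI
  rcases hI with rfl | ⟨i, hi, j, hj, rfl⟩
  · refine ⟨?_, by simp⟩
    simp only [Op.eval]
    rw [v5, v3 G hg]
    simp
  · refine ⟨?_, by simp⟩
    simp only [Op.eval]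
    rw [v6, v3 G hg, Pool.Agent.W920.FD.TEQM.ent_mk _ _ _ hi hj]
    have e : flN G 0 = 1 := rfl
    rw [e, Matrix.one_apply]
    by_cases hij : i = j
    · subst hij
      rw [if_pos rfl, if_pos rfl, v2 G hg]
      norm_num
    · rw [if_neg hij, if_neg (by simpa using hij), v3 G hg]
      norm_num

lemma good_prodProg (k : ℕ) : ∀ I ∈ prodProg K k, Eqn (vd g G) I := by
  intro I hI
  unfold prodProg at hI
  simp only [List.mem_cons, List.mem_flatMap, List.mem_range, List.not_mem_nil, or_false] at hI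
  obtain ⟨i, hi, j, hj, rfl | ⟨l, hl, rfl | rfl⟩⟩ := hI
  · refine ⟨?_, by simp⟩
    simp only [Op.eval]
    rw [v8, v3 G hg]
    simp
  · refine ⟨?_, by simp⟩
    simp only [Op.eval]
    rw [v7, v4, v6]
  · refine ⟨?_, by simp⟩
    simp only [Op.eval]
    rw [v8, v8, v7, Finset.sum_range_succ]

lemma good_traceProg (k : ℕ) : ∀ I ∈ traceProg K k, Eqn (vd g G) I := by
  intro I hI
  unfold traceProg at hI
  simp only [List.mem_cons, List.mem_append, List.mem_map, List.mem_range, List.not_mem_nil,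
    or_false, List.cons_append] at hI
  rcases hI with rfl | ⟨i, hi, rfl⟩ | rfl | rfl
  · refine ⟨?_, by simp⟩
    simp only [Op.eval]
    rw [v9, v3 G hg]
    simp
  · refine ⟨?_, by simp⟩
    simp only [Op.eval]
    rw [v9, v9, v8, Finset.sum_range_succ]
  · refine ⟨?_, by simp⟩
    simp only [Op.eval]
    rw [v5, v5, v2 G hg]
    push_cast
    ring
  · refine ⟨?_, fun _ => ?_⟩
    · simp only [Op.eval]
      rw [v10, v9, v5]
      push_cast
      rfl
    · simp only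
      rw [v5]
      positivity

lemma good_nextProg (k : ℕ) : ∀ I ∈ nextProg K k, Eqn (vd g G) I := by
  intro I hI
  unfold nextProg at hI
  simp only [List.mem_flatMap, List.mem_map, List.mem_range] at hI
  obtain ⟨i, hi, j, hj, rfl⟩ := hI
  refine ⟨?_, by simp⟩
  simp only [Op.eval]
  rw [v6, v8, Pool.Agent.W920.FD.TEQM.ent_mk _ _ _ hi hj,
    Pool.Agent.W920.FD.TEQM.ent_mul _ _ i j hi hj]
  have e : flN G (k + 1) = G * flN G k -
      (Matrix.trace (G * flN G k) / ((k : ℝ) + 1)) • 1 := rfl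
  rw [e, Matrix.sub_apply, Matrix.smul_apply, smul_eq_mul, Matrix.one_apply]
  by_cases hij : i = j
  · subst hij
    rw [if_pos rfl, if_pos rfl, v10, Pool.Agent.W920.FD.TEQM.sum_trace]
    ring
  · rw [if_neg hij, if_neg (by simpa using hij), v3 G hg]
    ring

lemma good_fl : ∀ I ∈ flProg K, Eqn (vd g G) I := by
  intro I hI
  unfold flProg at hI
  simp only [List.mem_append, List.mem_flatMap, List.mem_range] at hI
  rcases hI with hI | ⟨k, hk, hI | hI | hI⟩
  · exact good_initProg G hg I hI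
  · exact good_prodProg G hg k I hI
  · exact good_traceProg G hg k I hI
  · exact good_nextProg G hg k I hI

end

/-- The value. -/
theorem cVal_det {K : ℕ} (G : Matrix (Fin (K + 1)) (Fin (K + 1)) ℝ) :
    cVal G K = (-1) ^ K * G.det := by
  have h := det_eq_flN (-G) (by omega)
  rw [neg_neg, Nat.add_sub_cancel, Matrix.det_neg, Fintype.card_fin] at h
  unfold cVal
  rw [Pool.Agent.W920.FD.TEQM.sum_trace]
  have e : ((K + 1 : ℕ) : ℝ) = (K : ℝ) + 1 := by push_cast; ring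
  rw [e] at h
  have h2 : Matrix.trace (G * flN G K) / ((K : ℝ) + 1) = -((-1) ^ (K + 1) * G.det) := by
    rw [← h, neg_neg]
  rw [h2, pow_succ]
  ring

/-- The sizes. -/
theorem sizes {K : ℕ} (hK : 1 ≤ K) {g : Reg → ℝ} (G : Matrix (Fin K) (Fin K) ℝ) {E β Q : ℕ}
    (hE : 1 ≤ E) (hEβ : E ≤ 2 ^ β) (hI : ∀ i j, IB (G i j) E (2 ^ β))
    (hQ : (K * K + β * K) + ((1 + 3 * K + β) * K + (β + 5 * K + 2)) ≤ Q) :
    (∀ i j, QB Q (vd g G [4, i, j])) ∧ ∀ I ∈ flProg K, QB Q (vd g G I.dst) := by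
  have hden : ∀ k e : ℕ, k ≤ K → e ≤ K → k.factorial * E ^ e ≤ 2 ^ Q := by
    intro k e hk he
    refine (Pool.Agent.W920.FD.TSZ4.den_le hEβ hk he).trans
      (Nat.pow_le_pow_right (by norm_num) (by omega))
  have hKp := Pool.Agent.W920.FD.TSZ4.K_le K
  have hnum : ∀ k : ℕ, k ≤ K → K * (K * (2 ^ β * (2 * K ^ 3 * 2 ^ β) ^ k)) ≤ 2 ^ Q := by
    intro k hk
    have h1 := Pool.Agent.W920.FD.TSZ4.pw_le (β := β) hk
    calc K * (K * (2 ^ β * (2 * K ^ 3 * 2 ^ β) ^ k))
        ≤ 2 ^ K * (2 ^ K * (2 ^ β * 2 ^ ((1 + 3 * K + β) * K))) :=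
          Nat.mul_le_mul hKp (Nat.mul_le_mul hKp (Nat.mul_le_mul_left _ h1))
      _ = 2 ^ (K + (K + (β + (1 + 3 * K + β) * K))) := by
          rw [← pow_add, ← pow_add, ← pow_add]
      _ ≤ 2 ^ Q := Nat.pow_le_pow_right (by norm_num) (by
          have : 0 ≤ K * K + β * K := Nat.zero_le _
          omega)
  have hle1 : ∀ a : ℕ, a ≤ K * a := fun a => by
    calc a = 1 * a := (one_mul a).symm
      _ ≤ K * a := Nat.mul_le_mul_right _ hK
  have hle2 : ∀ a : ℕ, a ≤ K * (K * a) := fun a => (hle1 a).trans (Nat.mul_le_mul_left _ (hle1 a))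
  have hnat : ∀ k : ℕ, k ≤ K → QB Q (k : ℝ) := by
    intro k hk
    refine ⟨1, k, le_rfl, Nat.one_le_two_pow, ?_, by simp⟩
    rw [Int.natAbs_natCast]
    exact (hk.trans hKp).trans (Nat.pow_le_pow_right (by norm_num) (by omega))
  have hb : 2 ^ β ≤ 2 ^ Q := Nat.pow_le_pow_right (by norm_num) (by omega)
  have s4 : ∀ i j : ℕ, QB Q (vd g G [4, i, j]) := fun i j =>
    Pool.Agent.W920.FD.TSZ4.qb_of (Pool.Agent.W920.FD.TSZ4.c4 hI i j) hE (hEβ.trans hb) hb
  have s6 : ∀ k i j : ℕ, k ≤ K → QB Q (vd g G [6, k, i, j]) := by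
    intro k i j hk
    refine Pool.Agent.W920.FD.TSZ4.qb_of (Pool.Agent.W920.FD.TSZ4.c6 hI hK hk i j)
      (Pool.Agent.W920.FD.TSZ4.den_pos hE) (hden k k hk hk) ?_
    have h1 := Pool.Agent.W920.FD.TSZ4.pw_le (β := β) hk
    exact h1.trans (Nat.pow_le_pow_right (by norm_num) (by omega))
  have s7 : ∀ k i j l : ℕ, k < K → QB Q (vd g G [7, k, i, j, l]) := fun k i j l hk =>
    Pool.Agent.W920.FD.TSZ4.qb_of (Pool.Agent.W920.FD.TSZ4.c7 hI hK hk.le i j l)
      (Pool.Agent.W920.FD.TSZ4.den_pos hE) (hden k (k + 1) hk.le hk)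
      ((hle2 _).trans (hnum k hk.le))
  have s8 : ∀ k i j l : ℕ, k < K → l ≤ K → QB Q (vd g G [8, k, i, j, l]) := fun k i j l hk hl =>
    Pool.Agent.W920.FD.TSZ4.qb_of (Pool.Agent.W920.FD.TSZ4.c8 hI hK hk.le i j hl)
      (Pool.Agent.W920.FD.TSZ4.den_pos hE) (hden k (k + 1) hk.le hk)
      ((hle1 _).trans (hnum k hk.le))
  have s9 : ∀ k i : ℕ, k < K → i ≤ K → QB Q (vd g G [9, k, i]) := fun k i hk hi =>
    Pool.Agent.W920.FD.TSZ4.qb_of (Pool.Agent.W920.FD.TSZ4.c9 hI hK hk.le hi)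
      (Pool.Agent.W920.FD.TSZ4.den_pos hE) (hden k (k + 1) hk.le hk) (hnum k hk.le)
  have s10 : ∀ k : ℕ, k < K → QB Q (vd g G [10, k]) := fun k hk =>
    Pool.Agent.W920.FD.TSZ4.qb_of (Pool.Agent.W920.FD.TSZ4.c10 hI hK hk.le)
      (Pool.Agent.W920.FD.TSZ4.den_pos hE) (hden (k + 1) (k + 1) hk hk) (hnum k hk.le)
  have s5 : ∀ k : ℕ, k ≤ K → QB Q (vd g G [5, k]) := fun k hk => hnat k hk
  refine ⟨s4, ?_⟩
  intro I hI'
  unfold flProg at hI'
  rw [List.mem_append] at hI'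
  rcases hI' with hI' | hI'
  · unfold initProg at hI'
    simp only [List.mem_cons, List.mem_flatMap, List.mem_map, List.mem_range] at hI'
    rcases hI' with rfl | ⟨i, hi, j, hj, rfl⟩
    · exact s5 0 (Nat.zero_le _)
    · exact s6 0 i j (Nat.zero_le _)
  · simp only [List.mem_flatMap, List.mem_append, List.mem_range] at hI'
    obtain ⟨k, hk, hI' | hI' | hI'⟩ := hI'
    · unfold prodProg at hI'
      simp only [List.mem_cons, List.mem_flatMap, List.mem_range, List.not_mem_nil,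
        or_false] at hI'
      obtain ⟨i, hi, j, hj, rfl | ⟨l, hl, rfl | rfl⟩⟩ := hI'
      · exact s8 k i j 0 hk (Nat.zero_le _)
      · exact s7 k i j l hk
      · exact s8 k i j (l + 1) hk hl
    · unfold traceProg at hI'
      simp only [List.cons_append, List.mem_cons, List.mem_append, List.mem_map, List.mem_range,
        List.not_mem_nil, or_false] at hI'
      rcases hI' with rfl | ⟨i, hi, rfl⟩ | rfl | rfl
      · exact s9 k 0 hk (Nat.zero_le _)
      · exact s9 k (i + 1) hk hi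
      · exact s5 (k + 1) hk
      · exact s10 k hk
    · unfold nextProg at hI'
      simp only [List.mem_flatMap, List.mem_map, List.mem_range] at hI'
      obtain ⟨i, hi, j, hj, rfl⟩ := hI'
      exact s6 (k + 1) i j hk

/-- The entries are small. -/
theorem Rb_IB (m n p : ℕ) (g : Reg → ℝ) (i c : ℕ) {D lam : ℕ} (hD : 1 ≤ D) (hDl : D ≤ 2 ^ lam)
    (h : ∀ r ∈ baseReg, ∃ z : ℤ, z.natAbs ≤ 2 ^ lam ∧ g r * D = z) :
    IB (Rb m n p g i c) D (2 ^ lam) := by
  have hz : ∀ z : ℤ, z.natAbs ≤ 2 ^ lam → |z| ≤ ((2 ^ lam : ℕ) : ℤ) := by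
    intro z hz
    rw [← Int.natCast_natAbs]
    exact_mod_cast hz
  have h0 : IB (0 : ℝ) D (2 ^ lam) := ⟨0, by simp, by simp⟩
  have h1 : IB (1 : ℝ) D (2 ^ lam) := ⟨D, by simp, by
    rw [Nat.abs_cast]
    exact_mod_cast hDl⟩
  have h1' : IB (-1 : ℝ) D (2 ^ lam) := ⟨-D, by push_cast; ring, by
    rw [abs_neg, Nat.abs_cast]
    exact_mod_cast hDl⟩
  have hp : ∀ r ∈ baseReg, IB (g r) D (2 ^ lam) := by
    intro r hr
    obtain ⟨z, h2, h3⟩ := h r hr
    exact ⟨z, h3, hz z h2⟩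
  have hn : ∀ r ∈ baseReg, IB (- g r) D (2 ^ lam) := by
    intro r hr
    obtain ⟨z, h2, h3⟩ := h r hr
    refine ⟨-z, by rw [neg_mul, h3]; push_cast; ring, ?_⟩
    rw [abs_neg]
    exact hz z h2
  unfold Rb
  split_ifs <;> first
    | exact h0 | exact h1 | exact h1' | exact hp _ (b0 _ _) | exact hn _ (b0 _ _)
    | exact hn _ (b1 _)

/-- The polynomial. -/
noncomputable def qD : Polynomial ℕ :=
  ((Polynomial.X + 2) * (Polynomial.X + 2) + Polynomial.X * (Polynomial.X + 2) +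
    ((1 + 3 * (Polynomial.X + 2) + Polynomial.X) * (Polynomial.X + 2) +
      (Polynomial.X + 5 * (Polynomial.X + 2) + 2))) +
    ((Polynomial.X + 2) * (Polynomial.X + 2) + (((Polynomial.X + 2) * (Polynomial.X + 2) + 1) +
      (Polynomial.X + 2) * ((Polynomial.X + 2) * ((Polynomial.X + 2) * ((Polynomial.X + 2) * 2 + 1))
        + ((Polynomial.X + 2) + 3 + (Polynomial.X + 2) * (Polynomial.X + 2)))))

theorem qD_eval (s : ℕ) : qD.eval s =
    ((s + 2) * (s + 2) + s * (s + 2) + ((1 + 3 * (s + 2) + s) * (s + 2) +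
      (s + 5 * (s + 2) + 2))) +
    ((s + 2) * (s + 2) + (((s + 2) * (s + 2) + 1) +
      (s + 2) * ((s + 2) * ((s + 2) * ((s + 2) * 2 + 1)) + ((s + 2) + 3 + (s + 2) * (s + 2))))) := by
  unfold qD
  simp [Polynomial.eval_add, Polynomial.eval_mul]

theorem qD_ge (K β s : ℕ) (hK : K ≤ s + 2) (hβ : β ≤ s) :
    (K * K + β * K) + ((1 + 3 * K + β) * K + (β + 5 * K + 2)) ≤ qD.eval s := by
  rw [qD_eval]
  refine le_trans ?_ (Nat.le_add_right _ _)
  gcongr

theorem len_ge (K s : ℕ) (hK : K ≤ s + 2) :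
    K * K + ((K * K + 1) + K * (K * (K * (K * 2 + 1)) + (K + 3 + K * K))) ≤ qD.eval s := by
  rw [qD_eval]
  refine le_trans ?_ (Nat.le_add_left _ _)
  gcongr

end TDET

open TDET in
/-- The query for a minor. -/
theorem t_DET : S_DET := by
  refine ⟨qD, fun m n g x hg => ?_⟩
  rw [detQ_eq]
  set G := MM m n g x with hG
  have hord1 : Ord baseReg (entP m n x) := ordE m n x
  have hfl := t_ORD2B t_ORD1 (n + 2) (baseReg ∪ wr (entP m n x)) Set.subset_union_left
    (fun i hi j hj => Or.inr (wrE hi hj)) (fun r hr => by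
      rcases hr with hr | hr
      · have : r.headD 0 < 4 := hr
        omega
      · have := wrE_hd hr
        omega)
  have hord : Ord baseReg (entP m n x ++ flProg (n + 2)) :=
    (t_ORD1.1 _ _ _).2 ⟨hord1, hfl.1⟩
  have hent : ∀ i k, i < n + 2 → k < n + 2 →
      vd g G [4, i, k] = Rb m n x.1 g i (x.2.getD k 0) := by
    intro i k hi hk
    rw [v4, Pool.Agent.W920.FD.TEQM.ent_mk _ _ _ hi hk, hG]
    rfl
  refine ⟨⟨hord, vd g G, vd_base g G, ?_, ?_, ?_⟩, ?_⟩
  · intro I hI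
    have hE : Eqn (vd g G) I := by
      rcases List.mem_append.1 hI with hI | hI
      · obtain ⟨i, k, hi, hk, rfl⟩ := mem_entP hI
        exact entI_eqn _ _ _ _ _ _ g _ hg (vd_base g G) (hent i k hi hk)
      · exact good_fl G hg I hI
    refine ⟨hE.1, hE.2, ?_⟩
    intro lam hlam
    obtain ⟨D, hD1, hD2, hD3⟩ := hlam
    have hIB : ∀ i j, IB (G i j) D (2 ^ lam) := fun i j =>
      Rb_IB m n x.1 g i (x.2.getD j 0) hD1 hD2 hD3
    have hs := sizes (K := n + 2) (by omega) (g := g) G hD1 hD2 hIB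
      (qD_ge (n + 2) lam (m + n + lam) (by omega) (by omega))
    rcases List.mem_append.1 hI with hI | hI
    · obtain ⟨i, k, hi, hk, rfl⟩ := mem_entP hI
      rw [entI_dst]
      exact hs.1 i k
    · exact hs.2 I hI
  · right
    obtain ⟨I, hI, hI2⟩ := hfl.2.2.2 (n + 1) (by omega)
    exact ⟨I, List.mem_append_right _ hI, hI2⟩
  · show cVal G (n + 1) = mv m n g x
    rw [cVal_det]
    rfl
  · show (entP m n x ++ flProg (n + 2)).length ≤ _
    rw [List.length_append]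
    have h1 : (entP m n x).length = (n + 2) * (n + 2) := by
      unfold entP
      rw [List.length_flatMap]
      simp
    have h2 := Pool.Agent.W920.FD.TLEN.l_fl (n + 2)
    rw [h1]
    refine le_trans (Nat.add_le_add_left h2 _) (len_ge (n + 2) (m + n) (by omega))

end Pool.Agent.Y648.CS
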