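import Pool.Agent.Y648.CS.T_FIN1

set_option autoImplicit false

/-!
# Few scales of circuit ratios: the final assembly
-/

namespace Pool.Agent.Y648.CS

open Pool.Agent.NPC Pool.Agent.H558R2 Pool.Agent.H622R3.SM Pool.Agent.W920.FC

namespace FL

open FN

theorem base_start {m n : ℕ} (A : Matrix (Fin m) (Fin n) ℝ) (b : Fin m → ℝ) :
    Base (start A b) := by
  constructor
  · rfl
  · rfl

theorem two_le_bitLength (q : ℚ) : 2 ≤ bitLength q := by
  unfold bitLength
  have h : 1 ≤ Nat.size q.den := Nat.size_pos.2 q.den_pos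
  omega

theorem le_inputLength {m n : ℕ} (hm : 1 ≤ m) (A : Matrix (Fin m) (Fin n) ℚ)
    (b : Fin m → ℚ) : m + n ≤ inputLength A b := by
  unfold inputLength
  have h1 : m * (n * 2) ≤ ∑ i, ∑ j, bitLength (A i j) := by
    calc m * (n * 2) = ∑ i : Fin m, ∑ j : Fin n, 2 := by simp
      _ ≤ _ := Finset.sum_le_sum fun i _ => Finset.sum_le_sum fun j _ => two_le_bitLength _
  have h2 : m * 2 ≤ ∑ i, bitLength (b i) := by
    calc m * 2 = ∑ i : Fin m, 2 := by simp
      _ ≤ _ := Finset.sum_le_sum fun i _ => two_le_bitLength _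
  have h3 : n ≤ m * (n * 2) := by nlinarith
  omega

/-- The value of the first number `t` of the second phase. -/
theorem t1_val (hM : S_MOV) (m n j : ℕ) (hj : j < m) (g : Reg → ℝ) :
    |moV m n g (t1 m n j)| = |g [1, j]| := by
  obtain ⟨-, -, -, -, -, -, -, -, hmin, -, -⟩ := hM m n g
  unfold t1
  rw [(hmin _).1]
  unfold mv
  have hM2 : (Matrix.of fun i k : Fin (n + 2) => Rb m n 1 g i
      ((((List.range n).map fun i => m + m + 2 + i) ++ [j, m + m + 2 + (n + 1)]).getD k 0)) =
      (1 : Matrix (Fin (n + 2)) (Fin (n + 2)) ℝ).updateCol ⟨n, by omega⟩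
        fun i => Rb m n 1 g i j := by
    ext i k
    rw [Matrix.of_apply, Matrix.updateCol_apply]
    by_cases hk : k = ⟨n, by omega⟩
    · rw [if_pos hk, hk]
      congr 1
      rw [List.getD_eq_getElem?_getD, List.getElem?_append_right (by simp)]
      simp
    · rw [if_neg hk, Matrix.one_apply]
      have hk2 : (k : ℕ) ≠ n := fun h => hk (Fin.ext h)
      have hcol : (((List.range n).map fun i => m + m + 2 + i) ++
          [j, m + m + 2 + (n + 1)]).getD k 0 = m + m + 2 + k := by
        rcases Nat.lt_or_ge k n with h | h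
        · rw [List.getD_eq_getElem?_getD, List.getElem?_append_left (by simpa using h),
            List.getElem?_map, List.getElem?_range h]
          rfl
        · have h2 : (k : ℕ) = n + 1 := by have := k.2; omega
          rw [List.getD_eq_getElem?_getD, List.getElem?_append_right (by simpa using h), h2]
          simp
      rw [hcol]
      unfold Rb
      rw [if_neg (by omega), if_neg (by omega), if_neg (by omega), if_neg (by omega)]
      by_cases hik : i = k
      · rw [hik, if_pos rfl, if_pos rfl]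
      · rw [if_neg hik, if_neg (fun h => hik (Fin.ext (by omega)))]
  rw [hM2, ← Matrix.cramer_apply, Matrix.cramer_one]
  simp only [Module.End.one_apply]
  rw [abs_mul, abs_pow]
  have hR : Rb m n 1 g n j = - g [1, j] := by
    unfold Rb
    rw [if_pos hj, if_neg (lt_irrefl _), if_pos rfl, if_neg (by norm_num)]
  rw [hR]
  simp

/-- The values of the queries on `b`. -/
noncomputable def bVals (m n : ℕ) (g : Reg → ℝ) : List ℝ :=
  ((List.range m).map fun j => g [1, j]) ++
    ((List.range m).map fun j => t1 m n j).flatMap fun u =>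
      ((List.range m).map fun j => t1 m n j).map fun v => cmV m n g u v

theorem t1_sz (m n j : ℕ) : MoSz 1 (t1 m n j) := by
  refine ⟨?_, ?_, ?_, ?_⟩ <;> simp [t1, moMin]

theorem bQs_val {m n : ℕ} {g : Reg → ℝ} {q : Polynomial ℕ}
    (h : ∀ i j : ℕ, HasVal g (Gd q (m + n) g) (cmpQ m n (t1 m n i) (t1 m n j))
      (cmV m n g (t1 m n i) (t1 m n j))) :
    List.Forall₂ (HasVal g (Gd q (m + n) g)) (bQs m n) (bVals m n g) := by
  unfold bQs bVals
  refine List.rel_append ?_ (forall_sq _ ?_)
  · rw [List.forall₂_map_left_iff, List.forall₂_map_right_iff, List.forall₂_same]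
    intro j _
    refine ⟨trivial, g, fun _ _ => rfl, fun I hI => absurd hI (by simp), Or.inl ?_, rfl⟩
    show ([1, j] : Reg).headD 0 < 4
    simp
  · intro a ha b hb
    obtain ⟨i, -, rfl⟩ := List.mem_map.1 ha
    obtain ⟨j, -, rfl⟩ := List.mem_map.1 hb
    exact h i j

theorem bQs_len {m n c : ℕ}
    (h : ∀ i j : ℕ, (cmpQ m n (t1 m n i) (t1 m n j)).1.length ≤ c) :
    ((bQs m n).map fun q => q.1.length + 1).sum ≤ m + m * (m * (c + 1)) := by
  unfold bQs
  rw [List.map_append, List.sum_append]
  refine Nat.add_le_add ?_ ?_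
  · rw [List.map_map]
    have h1 : ∀ L : List ℕ, (L.map ((fun q : Qry => q.1.length + 1) ∘
        fun j => (([], [1, j]) : Qry))).sum ≤ L.length := by
      intro L
      induction L with
      | nil => simp
      | cons a L ih =>
        rw [List.map_cons, List.sum_cons, List.length_cons]
        simp only [Function.comp, List.length_nil] at ih ⊢
        omega
    have h2 := h1 (List.range m)
    rwa [List.length_range] at h2
  · have h1 := sq_len (m := m) (n := n) ((List.range m).map fun j => t1 m n j) c (by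
      intro a ha b hb
      obtain ⟨i, -, rfl⟩ := List.mem_map.1 ha
      obtain ⟨j, -, rfl⟩ := List.mem_map.1 hb
      exact h i j)
    rwa [List.length_map, List.length_range] at h1

theorem bV1 {m n : ℕ} (g : Reg → ℝ) {j : ℕ} (hj : j < m) :
    ((bVals m n g).map signOut).getD j none = signOut (g [1, j]) := by
  unfold bVals
  rw [List.map_append, List.getD_eq_getElem?_getD, List.getElem?_append_left (by simpa using hj),
    List.map_map, List.getElem?_map, List.getElem?_range hj]
  rfl

theorem bV2 {m n : ℕ} (g : Reg → ℝ) {i j : ℕ} (hi : i < m) (hj : j < m) :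
    ((bVals m n g).map signOut).getD (m + (i * m + j)) none =
      signOut (cmV m n g (t1 m n i) (t1 m n j)) := by
  unfold bVals
  rw [List.map_append, List.getD_eq_getElem?_getD, List.getElem?_append_right (by simp)]
  have h1 : m + (i * m + j) - (((List.range m).map fun j => g [1, j]).map signOut).length =
      i * m + j := by simp
  rw [h1, ← List.getD_eq_getElem?_getD, List.map_flatMap]
  have h2 := getD_fm (fun u => (((List.range m).map fun j => t1 m n j).map fun v =>
    cmV m n g u v).map signOut) m none ((List.range m).map fun j => t1 m n j)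
    (fun a _ => by simp) i j (by simpa using hi) hj
  rw [h2, List.getD_eq_getElem?_getD]
  simp [hj]

/-- The position of the largest entry. -/
theorem bMax_spec {m : ℕ} (hm : 1 ≤ m) (val : ℕ → ℝ) (o : List Outcome)
    (h : ∀ i < m, ∀ j < m, o.getD (m + (i * m + j)) none = signOut (val i - val j)) :
    bMax m o < m ∧ ∀ i < m, val i ≤ val (bMax m o) := by
  obtain ⟨i0, hi0⟩ : ∃ i : Fin m, ∀ j : Fin m, val j ≤ val i := by
    have : Nonempty (Fin m) := ⟨⟨0, hm⟩⟩
    exact Finite.exists_max fun i : Fin m => val i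
  have hmem : (i0 : ℕ) ∈ (List.range m).filter fun i => (List.range m).all fun j =>
      decide (0 ≤ osg (o.getD (m + (i * m + j)) none)) := by
    rw [List.mem_filter]
    refine ⟨List.mem_range.2 i0.2, ?_⟩
    rw [List.all_eq_true]
    intro j hj
    rw [decide_eq_true_eq, h i0 i0.2 j (List.mem_range.1 hj), osg_nonneg, sub_nonneg]
    exact hi0 ⟨j, List.mem_range.1 hj⟩
  unfold bMax
  obtain ⟨i1, hi1⟩ : ∃ i1, ((List.range m).filter fun i => (List.range m).all fun j =>
      decide (0 ≤ osg (o.getD (m + (i * m + j)) none))).head? = some i1 := by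
    cases hh : ((List.range m).filter fun i => (List.range m).all fun j =>
      decide (0 ≤ osg (o.getD (m + (i * m + j)) none))) with
    | nil => rw [hh] at hmem; exact absurd hmem (by simp)
    | cons a s => exact ⟨a, rfl⟩
  rw [hi1]
  have hm1 := List.mem_of_mem_head? (by rw [hi1]; rfl : i1 ∈ ((List.range m).filter fun i =>
    (List.range m).all fun j => decide (0 ≤ osg (o.getD (m + (i * m + j)) none))).head?)
  rw [List.mem_filter, List.mem_range, List.all_eq_true] at hm1
  refine ⟨hm1.1, fun j hj => ?_⟩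
  have h2 := hm1.2 j (List.mem_range.2 hj)
  rw [decide_eq_true_eq, h i1 hm1.1 j hj, osg_nonneg, sub_nonneg] at h2
  exact h2

theorem signOut_true (v : ℝ) : signOut v = some true ↔ 0 < v := by
  unfold signOut
  by_cases h : 0 < v
  · rw [if_pos h]
    simp [h]
  · rw [if_neg h]
    by_cases h2 : v < 0
    · rw [if_pos h2]
      simp [h]
    · rw [if_neg h2]
      simp [h]

end FL

open FN FL in
/-- The correctness of the whole computation. -/
theorem t_RUNS (k : ℕ) : S_PHS k → S_BEG0 → S_BEG1 → S_SC → S_MOV → S_CMPQ → S_PR →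
    ∃ q : Polynomial ℕ, ∀ m n : ℕ, 1 ≤ m → 1 ≤ n → ∀ (A : Matrix (Fin m) (Fin n) ℝ)
      (b : Fin m → ℝ), FewScales k m n A → ∃ ans : Bool,
      Runs (start A b) (Gd q (m + n) (start A b)) (TA (cI k) m n) ans (q.eval (m + n)) ∧
      (ans = true ↔ ∃ x : Fin n → ℝ, b ≤ A.mulVec x) := by
  intro hPHS hB0 hB1 hSC hM hCM hPR
  obtain ⟨q0, h0⟩ := hPHS (64 * (pD * pD))
  obtain ⟨q1, h1⟩ := hPHS (q0 + 64 * (pD * pD))
  obtain ⟨qc, hc⟩ := hCM 1
  obtain ⟨qp, hp⟩ := hPR 2
  obtain ⟨q, hq⟩ : ∃ q : Polynomial ℕ, q = (q0 + (q1 + (qc + qp))) + (Polynomial.X + (Polynomial.X *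
    (Polynomial.X * (qc + 1)) + (qp + 1))) := ⟨_, rfl⟩
  have l0 : PLe q0 q := by
    rw [hq]; exact (ple_add_left _ _).trans (ple_add_left _ _)
  have l1 : PLe q1 q := by
    rw [hq]; exact ((ple_add_left _ _).trans (ple_add_right _ _)).trans (ple_add_left _ _)
  have lc : PLe qc q := by
    rw [hq]
    exact (((ple_add_left _ _).trans (ple_add_right _ _)).trans (ple_add_right _ _)).trans
      (ple_add_left _ _)
  have lp : PLe qp q := by
    rw [hq]
    exact (((ple_add_right _ _).trans (ple_add_right _ _)).trans (ple_add_right _ _)).trans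
      (ple_add_left _ _)
  refine ⟨q, fun m n hm hn A b hA => ?_⟩
  have hqe : q.eval (m + n) = (q0.eval (m + n) + (q1.eval (m + n) + (qc.eval (m + n) +
      qp.eval (m + n)))) + ((m + n) + ((m + n) * ((m + n) * (qc.eval (m + n) + 1)) +
        (qp.eval (m + n) + 1))) := by
    rw [hq]
    simp only [Polynomial.eval_add, Polynomial.eval_mul, Polynomial.eval_X, Polynomial.eval_one]
  obtain ⟨g, hg⟩ : ∃ g, g = start A b := ⟨_, rfl⟩
  have hbase : Base g := by rw [hg]; exact base_start A b
  have hK2 : 64 * (cD m n * cD m n) ≤ (64 * (pD * pD) : Polynomial ℕ).eval (m + n) := by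
    simp only [Polynomial.eval_mul, Polynomial.eval_ofNat]
    exact Nat.mul_le_mul_left _ (Nat.mul_le_mul (pD_le m n) (pD_le m n))
  obtain ⟨hI0, hnn⟩ := hB0 m n A b
  obtain ⟨hS0, hS1⟩ := hSC k m n A b hA
  rw [← hg] at hI0 hnn hS0 hS1 ⊢
  obtain ⟨s, r0, hs⟩ := h0 m n 0 g (dr0 m) (64 * (cD m n * cD m n)) moOne
    (List.replicate (m + m) moOne) [] hbase hm hn hK2 le_rfl hI0 hS0
  have hs2 : s.1 = 2 ∧ Trm m n 0 g (dr0 m) (q0.eval (m + n)) s.2.2.1 s.2.2.2 := by
    rcases hs with ⟨-, x, hx1, hx2, hx3⟩ | h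
    · exact absurd hx3 (not_lt.2 (hnn x hx1 hx2))
    · exact h
  obtain ⟨hs1, hTrm⟩ := hs2
  -- the queries on `b`
  have hcmp : ∀ i j : ℕ, HasVal g (Gd qc (m + n) g) (cmpQ m n (t1 m n i) (t1 m n j))
      (cmV m n g (t1 m n i) (t1 m n j)) ∧
      (cmpQ m n (t1 m n i) (t1 m n j)).1.length ≤ qc.eval (m + n) := by
    intro i j
    have e1 : (1 : Polynomial ℕ).eval (m + n) = 1 := Polynomial.eval_one
    exact hc m n g _ _ hbase (by rw [e1]; exact t1_sz m n i) (by rw [e1]; exact t1_sz m n j)
  have rb := runs_batch (bQs_val fun i j => (hcmp i j).1)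
  have sb := bQs_len (m := m) (n := n) fun i j => (hcmp i j).2
  obtain ⟨o, ho⟩ : ∃ o, o = (bVals m n g).map signOut := ⟨_, rfl⟩
  rw [← ho] at rb
  have ho1 : ∀ j < m, o.getD j none = signOut (g [1, j]) := fun j hj => by rw [ho, bV1 g hj]
  have hmc : m * (m * (qc.eval (m + n) + 1)) ≤ (m + n) * ((m + n) * (qc.eval (m + n) + 1)) :=
    Nat.mul_le_mul (Nat.le_add_right _ _) (Nat.mul_le_mul_right _ (Nat.le_add_right _ _))
  have hgb : ∀ j : Fin m, g [1, (j : ℕ)] = b j := by
    intro j
    rw [hg]
    show (if h : (j : ℕ) < m then b ⟨j, h⟩ else 0) = b j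
    rw [dif_pos j.2]
  by_cases hall : ((List.range m).all fun j => decide (o.getD j none ≠ some true)) = true
  · -- all entries of `b` are at most zero
    refine ⟨true, ?_, ?_⟩
    · have r : Runs g (Gd q (m + n) g) (TA (cI k) m n) true
          (q0.eval (m + n) + (((bQs m n).map fun q => q.1.length + 1).sum + 0)) := by
        unfold TA
        refine runs_bnd (runs_mono l0 le_rfl r0) ?_
        unfold TB
        rw [if_neg (by rw [hs1]; norm_num)]
        refine runs_bnd (runs_mono lc le_rfl rb) ?_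
        rw [if_pos hall]
        exact runs_ret _
      refine t_TT.2.2.2 _ _ _ _ _ _ _ _ (fun _ h => h) ?_ r
      rw [hqe]
      omega
    · refine ⟨fun _ => ⟨0, ?_⟩, fun _ => rfl⟩
      rw [Matrix.mulVec_zero]
      intro j
      rw [List.all_eq_true] at hall
      have h2 := hall j (List.mem_range.2 j.2)
      rw [decide_eq_true_eq, ho1 j j.2, Ne, signOut_true, not_lt, hgb] at h2
      exact h2
  · -- the second phase
    have hval : ∀ i < m, |moV m n g (t1 m n i)| = |g [1, i]| := fun i hi => t1_val hM m n i hi g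
    have ht1ok : ∀ i, MoOK m n g (t1 m n i) := by
      intro i
      obtain ⟨-, -, -, -, -, -, -, -, hmin, -, -⟩ := hM m n g
      exact (hmin _).2
    obtain ⟨hbm, hbx⟩ := bMax_spec hm (fun i => |g [1, i]|) o (by
      intro i hi j hj
      rw [ho, bV2 g hi hj]
      obtain ⟨-, -, -, -, -, -, -, -, -, hcs, -⟩ := hM m n g
      rw [hcs _ _ (ht1ok i) (ht1ok j), hval i hi, hval j hj])
    obtain ⟨j, hj⟩ : ∃ j, j = bMax m o := ⟨_, rfl⟩
    rw [← hj] at hbm hbx
    have hne : g [1, j] ≠ 0 := by
      rw [List.all_eq_true] at hall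
      push Not at hall
      obtain ⟨i, hi, h2⟩ := hall
      have hi' := List.mem_range.1 hi
      rw [ho1 i hi'] at h2
      have h3 : signOut (g [1, i]) = some true := by
        by_contra h4
        exact h2 (decide_eq_true h4)
      rw [signOut_true] at h3
      have h4 := hbx i hi'
      rw [abs_of_pos h3] at h4
      intro h5
      rw [h5, abs_zero] at h4
      linarith
    have hfx : HasVal g (Gd qp (m + n) g) (fxQ m n (t1 m n j))
        (prV m n g 0 ((t1 m n j).2.1 ++ (t1 m n j).2.2)) ∧
        (fxQ m n (t1 m n j)).1.length ≤ qp.eval (m + n) := by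
      refine hp m n g 0 _ hbase (Nat.zero_le _) ?_
      have e2 : (2 : Polynomial ℕ).eval (m + n) = 2 := Polynomial.eval_ofNat _ _
      rw [e2]
      simp [t1, moMin]
    have rf := runs_batch (List.Forall₂.cons hfx.1 List.Forall₂.nil)
    obtain ⟨o', ho'⟩ : ∃ o', o' = (List.map signOut
      [prV m n g 0 ((t1 m n j).2.1 ++ (t1 m n j).2.2)]) := ⟨_, rfl⟩
    rw [← ho'] at rf
    have ho'0 : o'.getD 0 none = signOut (prV m n g 0 ((t1 m n j).2.1 ++ (t1 m n j).2.2)) := by
      rw [ho']; rfl
    obtain ⟨hb1, hb2, hb3⟩ := hB1 m n (q0.eval (m + n) + 64 * (cD m n * cD m n)) j A b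
      s.2.2.1 s.2.2.2 (by omega) (by rw [← hg]; exact hTrm.mono (Nat.le_add_right _ _))
    rw [← hg] at hb1 hb2 hb3
    have hI1 := hb1 hbm hne hbx (o'.getD 0 none) ho'0
    obtain ⟨s', r1, hs'⟩ := h1 m n 1 g (dr1 m s.2.2.2) (q0.eval (m + n) + 64 * (cD m n * cD m n))
      _ _ [] hbase hm hn (by rw [Polynomial.eval_add]; omega) (by omega) hI1 (hS1 _)
    refine ⟨decide (s'.1 ≠ 1), ?_, ?_⟩
    · have r : Runs g (Gd q (m + n) g) (TA (cI k) m n) (decide (s'.1 ≠ 1))
          (q0.eval (m + n) + (((bQs m n).map fun q => q.1.length + 1).sum +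
            ((([fxQ m n (t1 m n j)].map fun q => q.1.length + 1).sum) +
              (q1.eval (m + n) + 0)))) := by
        unfold TA
        refine runs_bnd (runs_mono l0 le_rfl r0) ?_
        unfold TB
        rw [if_neg (by rw [hs1]; norm_num)]
        refine runs_bnd (runs_mono lc le_rfl rb) ?_
        rw [if_neg hall, ← hj]
        refine runs_bnd (runs_mono lp le_rfl rf) ?_
        exact runs_bnd (runs_mono l1 le_rfl r1) (runs_ret _)
      refine t_TT.2.2.2 _ _ _ _ _ _ _ _ (fun _ h => h) ?_ r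
      rw [hqe]
      have h6 : (([fxQ m n (t1 m n j)].map fun q => q.1.length + 1).sum) =
          (fxQ m n (t1 m n j)).1.length + 1 := by
        simp
      rw [h6]
      have h7 := hfx.2
      omega
    · rcases hs' with ⟨h2, h3⟩ | ⟨h2, h3⟩
      · rw [h2]
        constructor
        · intro h4
          exact absurd h4 (by simp)
        · intro h4
          exact absurd h4 (hb2 h3)
      · rw [h2]
        constructor
        · intro _
          refine hb3 fun y hy => ?_
          exact (h3.2.1 y hy).2.2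
        · intro _
          simp

open FN FL in
theorem t_FINAL (k : ℕ) : Pool.Agent.W920.FC.S_RUN → S_CTRL → S_BITS → S_PTA k → S_PHS k →
    S_BEG0 → S_BEG1 → S_SC → S_MOV → S_CMPQ → S_PR → S_FINAL k := by
  intro hRUN hCTRL hBITS hPTA hPHS hB0 hB1 hSC hM hCM hPR
  refine ⟨hCTRL (TA (cI k)) hPTA, ?_, ?_⟩
  · intro m n h w
    unfold alg algOf
    cases TA (cI k) m n h <;> simp
  · obtain ⟨qs, hqs⟩ := t_RUNS k hPHS hB0 hB1 hSC hM hCM hPR
    refine ⟨qs + 1 + (2 * qs.comp (3 * Polynomial.X) + 3), ?_⟩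
    intro m n hm hn A b hC
    obtain ⟨ans, r, hans⟩ := hqs m n hm hn A b hC
    have hfuel : qs.eval (m + n) + 1 ≤
        (qs + 1 + (2 * qs.comp (3 * Polynomial.X) + 3)).eval (m + n) := by
      simp only [Polynomial.eval_add, Polynomial.eval_one]
      omega
    obtain ⟨nums, steps, hrun, hsteps, hG⟩ := hRUN (TA (cI k)) m n _ _ ans _ r ∅ _ hfuel
    refine ⟨ans, nums, steps, hrun, hans, by omega, ?_⟩
    intro A' b' hA hb' v hv'
    have hA2 : (fun i j => ((A' i j : ℚ) : ℝ)) = (A : Fin m → Fin n → ℝ) := by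
      funext i j
      exact hA i j
    have hb2 : (fun i => ((b' i : ℚ) : ℝ)) = b := by
      funext i
      exact hb' i
    have hRB := hBITS.2 m n A' b'
    rw [hA2, hb2] at hRB
    have hQ := hG v hv' _ hRB
    obtain ⟨q, hq, hq2⟩ := hBITS.1 _ _ hQ
    refine ⟨q, hq, hq2.trans ?_⟩
    have hL := le_inputLength hm A' b'
    have hmono := pe_mono qs (show m + n + 2 * inputLength A' b' ≤ 3 * inputLength A' b' by
      omega)
    simp only [Polynomial.eval_add, Polynomial.eval_mul, Polynomial.eval_comp,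
      Polynomial.eval_X, Polynomial.eval_ofNat]
    omega

end Pool.Agent.Y648.CS
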