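import Pool.Agent.Y648.CS.StmS

set_option autoImplicit false

/-!
# Greedy bases (helper590)
-/

namespace Pool.Agent.Y648.CS

namespace TGRD

open Matrix

variable {N : ℕ}

/-- The rows `a (β l)`, `l < k`, then unit vectors. -/
noncomputable def Ck (a : ℕ → Fin N → ℝ) (β : Fin N → ℕ) (k : ℕ) (l : Fin N) : Fin N → ℝ :=
  if (l : ℕ) < k then a (β l) else Pi.single l 1

/-- The linear form `D_k`. -/
noncomputable def Lf (a : ℕ → Fin N → ℝ) (β : Fin N → ℕ) (k : Fin N) : (Fin N → ℝ) →ₗ[ℝ] ℝ :=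
  (Matrix.detRowAlternating (n := Fin N) (R := ℝ)).toMultilinearMap.toLinearMap (Ck a β k) k

theorem Lf_apply (a : ℕ → Fin N → ℝ) (β : Fin N → ℕ) (k : Fin N) (v : Fin N → ℝ) :
    Lf a β k v = Matrix.detRowAlternating (Function.update (Ck a β k) k v) := rfl

/-- The determinants of the first columns. -/
noncomputable def Pk (a : ℕ → Fin N → ℝ) (β : Fin N → ℕ) (k : ℕ) : ℝ :=
  Matrix.detRowAlternating (Ck a β k)

theorem cdet_eq (a : ℕ → Fin N → ℝ) (β : Fin N → ℕ) :
    cdet a β = Matrix.detRowAlternating fun k => a (β k) := by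
  unfold cdet
  rw [← Matrix.det_transpose]
  rfl

section

variable {a : ℕ → Fin N → ℝ} {u : Fin N → ℕ} {Ac : Finset ℕ} {w : ℕ → ℝ} {β : Fin N → ℕ}

theorem au (hU : Units a u Ac) (k : Fin N) : a (u k) = Pi.single k 1 := by
  funext i
  rw [hU.1 k i, Pi.single_apply]

theorem pdet_eq (hU : Units a u Ac) (k : Fin N) (c : ℕ) : pdet a u β k c = Lf a β k (a c) := by
  unfold pdet
  rw [cdet_eq, Lf_apply]
  congr 1
  funext l
  by_cases h1 : l = k
  · subst h1
    simp
  · rw [Function.update_of_ne h1]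
    unfold Ck
    by_cases h2 : l < k
    · rw [if_pos h2, if_pos (show (l : ℕ) < k from h2)]
    · rw [if_neg h2, if_neg h1, if_neg (show ¬ (l : ℕ) < k from h2), au hU]

theorem L_lt {k l : Fin N} (h : l < k) : Lf a β k (a (β l)) = 0 := by
  rw [Lf_apply]
  refine AlternatingMap.map_eq_zero_of_eq _ _ (i := l) (j := k) ?_ h.ne
  rw [Function.update_self, Function.update_of_ne h.ne]
  unfold Ck
  rw [if_pos (show (l : ℕ) < k from h)]

theorem L_gt {k l : Fin N} (h : k < l) : Lf a β k (Pi.single l 1) = 0 := by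
  rw [Lf_apply]
  refine AlternatingMap.map_eq_zero_of_eq _ _ (i := l) (j := k) ?_ h.ne'
  rw [Function.update_self, Function.update_of_ne h.ne']
  unfold Ck
  rw [if_neg (show ¬ (l : ℕ) < k from not_lt.2 (le_of_lt h))]

theorem L_eq (k : Fin N) : Lf a β k (Pi.single k 1) = Pk a β k := by
  rw [Lf_apply]
  unfold Pk
  congr 1
  refine Function.update_eq_self_iff.2 ?_
  unfold Ck
  rw [if_neg (lt_irrefl _)]

theorem L_self (k : Fin N) : Lf a β k (a (β k)) = Pk a β (k + 1) := by
  rw [Lf_apply]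
  unfold Pk
  congr 1
  funext l
  by_cases h1 : l = k
  · subst h1
    rw [Function.update_self]
    unfold Ck
    rw [if_pos (Nat.lt_succ_self _)]
  · rw [Function.update_of_ne h1]
    unfold Ck
    have h1' : (l : ℕ) ≠ k := fun h => h1 (Fin.ext h)
    by_cases h2 : (l : ℕ) < k
    · rw [if_pos h2, if_pos (by omega)]
    · rw [if_neg h2, if_neg (by omega)]

theorem Pk_zero : Pk a β 0 = 1 := by
  unfold Pk
  have : Ck a β 0 = (1 : Matrix (Fin N) (Fin N) ℝ) := by
    funext l i
    unfold Ck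
    rw [if_neg (Nat.not_lt_zero _), Matrix.one_apply, Pi.single_apply]
    simp [eq_comm]
  rw [this]
  exact Matrix.det_one

theorem Pk_N : Pk a β N = cdet a β := by
  rw [cdet_eq]
  unfold Pk
  congr 1
  funext l
  unfold Ck
  rw [if_pos l.2]

theorem Pk_ne (hU : Units a u Ac) (hG : Greedy a u Ac w β) : ∀ k ≤ N, Pk a β k ≠ 0 := by
  intro k
  induction k with
  | zero =>
    intro _
    rw [Pk_zero]
    exact one_ne_zero
  | succ k ih =>
    intro hk
    have ih' := ih (by omega)
    have h1 := L_self (a := a) (β := β) ⟨k, hk⟩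
    rw [show k + 1 = ((⟨k, hk⟩ : Fin N) : ℕ) + 1 from rfl, ← h1]
    rcases hG ⟨k, hk⟩ with ⟨-, h2, -⟩ | ⟨h2, -⟩
    · rwa [pdet_eq hU] at h2
    · rw [h2, au hU, L_eq]
      exact ih'

theorem cdet_ne (hU : Units a u Ac) (hG : Greedy a u Ac w β) : cdet a β ≠ 0 := by
  rw [← Pk_N]
  exact Pk_ne hU hG N le_rfl

theorem inj (h : cdet a β ≠ 0) : Function.Injective β := by
  intro k l hkl
  by_contra hne
  apply h
  rw [cdet_eq]
  exact AlternatingMap.map_eq_zero_of_eq _ _ (i := k) (j := l) (by rw [hkl]) hne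

/-- The matrix with the columns `a (β k)`. -/
noncomputable def Am (a : ℕ → Fin N → ℝ) (β : Fin N → ℕ) : Matrix (Fin N) (Fin N) ℝ :=
  Matrix.of fun i k => a (β k) i

theorem cr_eq (l : Fin N) (c : ℕ) : cdet a (Function.update β l c) = cramer (Am a β) (a c) l := by
  rw [cramer_apply]
  unfold cdet
  congr 1
  ext i k
  rw [Matrix.of_apply, Matrix.updateCol_apply]
  by_cases h : k = l
  · subst h
    rw [Function.update_self, if_pos rfl]
  · rw [Function.update_of_ne h, if_neg h]
    rfl

theorem cr_self (l l' : Fin N) : cramer (Am a β) (a (β l')) l = if l = l' then cdet a β else 0 := by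
  have h := Matrix.cramer_transpose_row_self ((Am a β)ᵀ) l'
  have h2 : (Am a β)ᵀ l' = a (β l') := rfl
  rw [h2, Matrix.transpose_transpose] at h
  rw [h, Pi.single_apply, Matrix.det_transpose]
  rfl

theorem cramer_sum (v : Fin N → ℝ) :
    ∑ l, cramer (Am a β) v l • a (β l) = cdet a β • v := by
  have h := Matrix.mulVec_cramer (Am a β) v
  rw [show (Am a β).det = cdet a β from rfl] at h
  rw [← h]
  funext i
  rw [Finset.sum_apply]
  simp only [Pi.smul_apply, smul_eq_mul, Matrix.mulVec, dotProduct]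
  refine Finset.sum_congr rfl fun l _ => ?_
  rw [mul_comm]
  rfl

theorem cramer_inj (h : cdet a β ≠ 0) {v : Fin N → ℝ} (hv : ∀ l, cramer (Am a β) v l = 0) :
    v = 0 := by
  have h1 := cramer_sum (a := a) (β := β) v
  simp only [hv, zero_smul, Finset.sum_const_zero] at h1
  have h2 := (smul_eq_zero.1 h1.symm).resolve_left h
  exact h2

/-- `D_k` applied to the representation of a vector. -/
theorem L_sum (k : Fin N) (v : Fin N → ℝ) :
    ∑ l, cramer (Am a β) v l * Lf a β k (a (β l)) = cdet a β * Lf a β k v := by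
  have h := congrArg (Lf a β k) (cramer_sum (a := a) (β := β) v)
  rw [map_sum, map_smul, smul_eq_mul] at h
  rw [← h]
  refine Finset.sum_congr rfl fun l _ => ?_
  rw [map_smul, smul_eq_mul]

theorem unit_zero (hU : Units a u Ac) (hG : Greedy a u Ac w β) (k : Fin N) (hk : β k = u k) :
    (∀ c ∈ Ac, Lf a β k (a c) = 0) ∧ ∀ c ∈ Ac, cramer (Am a β) (a c) k = 0 := by
  have h1 : ∀ c ∈ Ac, Lf a β k (a c) = 0 := by
    intro c hc
    rcases hG k with ⟨h2, -, -⟩ | ⟨-, h2⟩
    · rw [hk] at h2
      exact absurd h2 (hU.2.2 k)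
    · rw [← pdet_eq hU]
      exact h2 c hc
  refine ⟨h1, fun c hc => ?_⟩
  have h2 := L_sum (a := a) (β := β) k (a c)
  rw [h1 c hc, mul_zero, Finset.sum_eq_single k] at h2
  · rcases mul_eq_zero.1 h2 with h3 | h3
    · exact h3
    · rw [L_self] at h3
      exact absurd h3 (Pk_ne hU hG _ k.2)
  · intro l _ hl
    rcases lt_or_gt_of_ne hl with h3 | h3
    · rw [L_lt h3, mul_zero]
    · rcases hG l with ⟨h4, -, -⟩ | ⟨h4, -⟩
      · rw [h1 _ h4, mul_zero]
      · rw [h4, au hU, L_gt h3, mul_zero]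
  · intro h3
    exact absurd (Finset.mem_univ k) h3

theorem geo_le (k : Fin N) :
    1 + ∑ l ∈ Finset.univ.filter (fun l => k < l), (2 : ℝ) ^ (N - 1 - (l : ℕ)) ≤
      2 ^ (N - 1 - (k : ℕ)) := by
  have h1 : ∑ l ∈ Finset.univ.filter (fun l => k < l), (2 : ℝ) ^ (N - 1 - (l : ℕ)) =
      ∑ j ∈ (Finset.univ.filter (fun l : Fin N => k < l)).image
      (fun l : Fin N => N - 1 - (l : ℕ)),
        (2 : ℝ) ^ j := by
    rw [Finset.sum_image]
    intro l _ l' _ hll
    have := l.2
    have := l'.2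
    simp only at hll
    exact Fin.ext (by omega)
  have h2 : (Finset.univ.filter (fun l : Fin N => k < l)).image
      (fun l : Fin N => N - 1 - (l : ℕ)) ⊆
      Finset.range (N - 1 - (k : ℕ)) := by
    intro j hj
    rw [Finset.mem_image] at hj
    obtain ⟨l, hl, rfl⟩ := hj
    have hkl : (k : ℕ) < l := (Finset.mem_filter.1 hl).2
    have := l.2
    rw [Finset.mem_range]
    omega
  rw [h1]
  have h3 := Finset.sum_le_sum_of_subset_of_nonneg h2
    (f := fun j => (2 : ℝ) ^ j) (fun j _ _ => by positivity)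
  have h4 : ∑ j ∈ Finset.range (N - 1 - (k : ℕ)), (2 : ℝ) ^ j = 2 ^ (N - 1 - (k : ℕ)) - 1 := by
    rw [geom_sum_eq (by norm_num)]
    norm_num
  linarith

theorem bound (hU : Units a u Ac) (hw : ∀ c ∈ Ac, 0 < w c) (hG : Greedy a u Ac w β) {c : ℕ}
    (hc : c ∈ Ac) : ∀ n : ℕ, ∀ k : Fin N, N - 1 - (k : ℕ) = n → β k ∈ Ac →
      |cramer (Am a β) (a c) k| * w c ≤ 2 ^ (N - 1 - (k : ℕ)) * (|cdet a β| * w (β k)) := by
  intro n
  induction n using Nat.strong_induction_on with
  | _ n ih =>
    intro k hkn hk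
    have hmax : ∀ c ∈ Ac, |Lf a β k (a c)| * w c ≤ |Lf a β k (a (β k))| * w (β k) := by
      intro c hc
      rcases hG k with ⟨-, -, h2⟩ | ⟨h2, -⟩
      · have := h2 c hc
        rwa [pdet_eq hU, pdet_eq hU] at this
      · rw [h2] at hk
        exact absurd hk (hU.2.2 k)
    have hL0 : Lf a β k (a (β k)) ≠ 0 := by
      rw [L_self]
      exact Pk_ne hU hG _ k.2
    set d := |cdet a β| with hd
    set Λ := |Lf a β k (a (β k))| with hΛ
    have hΛ0 : 0 < Λ := abs_pos.2 hL0
    have h2 := L_sum (a := a) (β := β) k (a c)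
    rw [← Finset.add_sum_erase _ _ (Finset.mem_univ k)] at h2
    have h3 : |cramer (Am a β) (a c) k| * Λ ≤ d * |Lf a β k (a c)| +
        ∑ l ∈ Finset.univ.erase k, |cramer (Am a β) (a c) l| * |Lf a β k (a (β l))| := by
      have h4 : cramer (Am a β) (a c) k * Lf a β k (a (β k)) = cdet a β * Lf a β k (a c) -
        ∑ l ∈ Finset.univ.erase k, cramer (Am a β) (a c) l * Lf a β k (a (β l)) := by
        linarith
      rw [hΛ, ← abs_mul, h4]
      refine (abs_sub _ _).trans ?_
      rw [abs_mul]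
      refine add_le_add le_rfl ((Finset.abs_sum_le_sum_abs _ _).trans ?_)
      exact Finset.sum_le_sum fun l _ => by rw [abs_mul]
    have hwc : 0 < w c := hw c hc
    have h5 : ∑ l ∈ Finset.univ.erase k, |cramer (Am a β) (a c) l| * |Lf a β k (a (β l))| * w c ≤
        ∑ l ∈ Finset.univ.filter (fun l => k < l), (2 : ℝ) ^ (N - 1 - (l : ℕ)) *
          (d * (Λ * w (β k))) := by
      rw [← Finset.sum_filter_add_sum_filter_not (Finset.univ.erase k) (fun l => k < l)]
      have e1 : ∑ l ∈ (Finset.univ.erase k).filter (fun l => ¬ k < l),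
          |cramer (Am a β) (a c) l| * |Lf a β k (a (β l))| * w c = 0 := by
        refine Finset.sum_eq_zero fun l hl => ?_
        rw [Finset.mem_filter, Finset.mem_erase] at hl
        have : l < k := lt_of_le_of_ne (not_lt.1 hl.2) hl.1.1
        rw [L_lt this]
        simp
      have e2 : (Finset.univ.erase k).filter (fun l => k < l) =
          Finset.univ.filter (fun l => k < l) := by
        ext l
        simp only [Finset.mem_filter, Finset.mem_erase, Finset.mem_univ, and_true, true_and]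
        constructor
        · exact fun h => h.2
        · exact fun h => ⟨h.ne', h⟩
      rw [e1, add_zero, e2]
      refine Finset.sum_le_sum fun l hl => ?_
      have hkl : k < l := (Finset.mem_filter.1 hl).2
      have hkl' : (k : ℕ) < l := hkl
      have hlN := l.2
      rcases hG l with ⟨h4, -, -⟩ | ⟨h4, -⟩
      · have h6 := ih (N - 1 - (l : ℕ)) (by omega) l rfl h4
        have h7 := hmax (β l) h4
        have h8 : 0 < w (β l) := hw _ h4
        calc |cramer (Am a β) (a c) l| * |Lf a β k (a (β l))| * w c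
            = (|cramer (Am a β) (a c) l| * w c) * |Lf a β k (a (β l))| := by ring
          _ ≤ (2 ^ (N - 1 - (l : ℕ)) * (d * w (β l))) * |Lf a β k (a (β l))| :=
              mul_le_mul_of_nonneg_right h6 (abs_nonneg _)
          _ = 2 ^ (N - 1 - (l : ℕ)) * (d * (|Lf a β k (a (β l))| * w (β l))) := by ring
          _ ≤ 2 ^ (N - 1 - (l : ℕ)) * (d * (Λ * w (β k))) := by
              have : 0 ≤ d := abs_nonneg _
              gcongr
      · rw [h4, au hU, L_gt hkl]
        have : 0 ≤ d := abs_nonneg _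
        have := (hw _ hk).le
        simp only [abs_zero, mul_zero, zero_mul]
        positivity
    rw [← Finset.sum_mul] at h5
    have h5' : (∑ l ∈ Finset.univ.erase k, |cramer (Am a β) (a c) l| * |Lf a β k (a (β l))|) * w c ≤
        (∑ l ∈ Finset.univ.filter (fun l => k < l), (2 : ℝ) ^ (N - 1 - (l : ℕ))) *
          (d * (Λ * w (β k))) := by
      rw [Finset.sum_mul, Finset.sum_mul]
      rw [← Finset.sum_mul] at h5
      rw [Finset.sum_mul, Finset.sum_mul] at h5
      exact h5
    have h9 := geo_le k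
    have hd0 : 0 ≤ d := abs_nonneg _
    have hX : 0 ≤ d * (Λ * w (β k)) := by
      have := (hw _ hk).le
      positivity
    have h10 : (|cramer (Am a β) (a c) k| * w c) * Λ ≤
        (2 ^ (N - 1 - (k : ℕ)) * (d * w (β k))) * Λ := by
      calc (|cramer (Am a β) (a c) k| * w c) * Λ = (|cramer (Am a β) (a c) k| * Λ) * w c := by ring
        _ ≤ (d * |Lf a β k (a c)| +
          ∑ l ∈ Finset.univ.erase k, |cramer (Am a β) (a c) l| * |Lf a β k (a (β l))|) * w c :=
            mul_le_mul_of_nonneg_right h3 hwc.le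
        _ = d * (|Lf a β k (a c)| * w c) + (∑ l ∈ Finset.univ.erase k,
            |cramer (Am a β) (a c) l| * |Lf a β k (a (β l))|) * w c := by ring
        _ ≤ d * (Λ * w (β k)) + (∑ l ∈ Finset.univ.filter (fun l => k < l),
            (2 : ℝ) ^ (N - 1 - (l : ℕ))) * (d * (Λ * w (β k))) :=
            add_le_add (mul_le_mul_of_nonneg_left (hmax c hc) hd0) h5'
        _ = (1 + ∑ l ∈ Finset.univ.filter (fun l => k < l), (2 : ℝ) ^ (N - 1 - (l : ℕ))) *
            (d * (Λ * w (β k))) := by ring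
        _ ≤ 2 ^ (N - 1 - (k : ℕ)) * (d * (Λ * w (β k))) := mul_le_mul_of_nonneg_right h9 hX
        _ = _ := by ring
    exact le_of_mul_le_mul_right h10 hΛ0

theorem bound' (hU : Units a u Ac) (hw : ∀ c ∈ Ac, 0 < w c) (hG : Greedy a u Ac w β) {c : ℕ}
    (hc : c ∈ Ac) (k : Fin N) (hk : β k ∈ Ac) :
      |cramer (Am a β) (a c) k| * w c ≤ 2 ^ N * (|cdet a β| * w (β k)) := by
  refine (bound hU hw hG hc _ k rfl hk).trans ?_
  have h1 : (2 : ℝ) ^ (N - 1 - (k : ℕ)) ≤ 2 ^ N := pow_le_pow_right₀ (by norm_num) (by omega)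
  have := (hw _ hk).le
  exact mul_le_mul_of_nonneg_right h1 (by positivity)

/-- A combination of the columns, in coordinates. -/
theorem cramer_comb (S : Finset ℕ) (x : ℕ → ℝ) (l : Fin N) :
    cramer (Am a β) (∑ c ∈ S, x c • a c) l = ∑ c ∈ S, x c * cramer (Am a β) (a c) l := by
  rw [map_sum, Finset.sum_apply]
  refine Finset.sum_congr rfl fun c _ => ?_
  rw [map_smul, Pi.smul_apply, smul_eq_mul]

end

end TGRD

open TGRD in
/-- Greedy bases. -/
theorem t_GRD : S_GRD := by
  intro N a u Ac w β hU hw hG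
  have hd := cdet_ne hU hG
  have hinj := inj hd
  refine ⟨hd, hinj, ?_, ?_, ?_⟩
  · intro k hk c hc
    rw [cr_eq]
    exact (unit_zero hU hG k hk).2 c hc
  · intro k hk c hc
    rw [cr_eq]
    exact bound' hU hw hG hc k hk
  · intro Ls hLs T hT
    classical
    set bs := Ac.filter fun c => ∃ k, β k = c with hbs
    have hmem : ∀ k, β k ∈ Ac → β k ∈ bs := fun k hk => Finset.mem_filter.2 ⟨hk, k, rfl⟩
    -- the coordinate of a combination
    have hco : ∀ (x : ℕ → ℝ) (k : Fin N), β k ∈ Ac →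
        Matrix.cramer (Am a β) (∑ c ∈ Ac, x c • a c) k =
          cdet a β * (x (β k) - ∑ j ∈ Ac \ bs, T (β k) j * x j) := by
      intro x k hk
      rw [cramer_comb, ← Finset.sum_sdiff (Finset.filter_subset _ _ : bs ⊆ Ac)]
      have e1 : ∑ c ∈ bs, x c * Matrix.cramer (Am a β) (a c) k = x (β k) * cdet a β := by
        rw [Finset.sum_eq_single_of_mem (β k) (hmem k hk)]
        · rw [cr_self, if_pos rfl]
        · intro c hc hne
          obtain ⟨-, l, rfl⟩ := Finset.mem_filter.1 hc
          rw [cr_self, if_neg (fun h => hne (by rw [h])), mul_zero]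
      have e2 : ∑ c ∈ Ac \ bs, x c * Matrix.cramer (Am a β) (a c) k =
          - (cdet a β * ∑ j ∈ Ac \ bs, T (β k) j * x j) := by
        rw [Finset.mul_sum, ← Finset.sum_neg_distrib]
        refine Finset.sum_congr rfl fun c _ => ?_
        rw [hT k hk c, cr_eq]
        field_simp
      rw [e1, e2]
      ring
    have hL : ∀ x, x ∈ Ls ↔ ∑ c ∈ Ac, x c • a c = 0 := by
      intro x
      rw [hLs, funext_iff]
      refine forall_congr' fun i => ?_
      rw [Finset.sum_apply]
      simp only [Pi.smul_apply, smul_eq_mul, Pi.zero_apply, mul_comm]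
    refine ⟨Finset.filter_subset _ _, ?_, ?_⟩
    · intro x hx i hi
      obtain ⟨hiA, k, rfl⟩ := Finset.mem_filter.1 hi
      have h1 := hco x k hiA
      rw [(hL x).1 hx, map_zero, Pi.zero_apply] at h1
      have h2 := (mul_eq_zero.1 h1.symm).resolve_left hd
      linarith
    · intro v
      refine ⟨fun c => if c ∈ bs then ∑ j ∈ Ac \ bs, T c j * v j else v c, ?_, ?_⟩
      · rw [hL]
        apply cramer_inj hd
        intro l
        rcases hG l with ⟨h4, -, -⟩ | ⟨h4, -⟩
        · rw [hco _ l h4]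
          simp only [if_pos (hmem l h4)]
          have : ∑ j ∈ Ac \ bs, T (β l) j * (if j ∈ bs then ∑ j' ∈ Ac \ bs, T j j' * v j'
              else v j) = ∑ j ∈ Ac \ bs, T (β l) j * v j := by
            refine Finset.sum_congr rfl fun j hj => ?_
            rw [if_neg (Finset.mem_sdiff.1 hj).2]
          rw [this, sub_self, mul_zero]
        · rw [cramer_comb]
          refine Finset.sum_eq_zero fun c hc => ?_
          rw [(unit_zero hU hG l h4).2 c hc, mul_zero]
      · intro j hj
        simp only [if_neg (Finset.mem_sdiff.1 hj).2]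

end Pool.Agent.Y648.CS
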