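import Pool.Agent.Y648.CS.T_GRD

set_option autoImplicit false

/-!
# Greedy bases have almost maximal volume (helper590)
-/

namespace Pool.Agent.Y648.CS

namespace TGRV

open Matrix TGRD

variable {N : ℕ} {a : ℕ → Fin N → ℝ} {u : Fin N → ℕ} {Ac : Finset ℕ} {w w' : ℕ → ℝ}
  {β β' : Fin N → ℕ}

theorem vol (hU : Units a u Ac) (hw : ∀ c ∈ Ac, 0 < w c) (hG : Greedy a u Ac w β)
    (hβ : ∀ k, (β k = u k → β' k = u k) ∧ (β k ≠ u k → β' k ∈ Ac)) :
    |cdet a β'| * ∏ k ∈ Finset.univ.filter (fun k => β k ≠ u k), w (β' k) ≤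
    (N.factorial * 2 ^ (N * N)) *
      (|cdet a β| * ∏ k ∈ Finset.univ.filter (fun k => β k ≠ u k), w (β k)) := by
  have hd := cdet_ne hU hG
  have hin : ∀ k, β k ≠ u k → β k ∈ Ac := by
    intro k hk
    rcases hG k with ⟨h, -, -⟩ | ⟨h, -⟩
    · exact h
    · exact absurd h hk
  obtain ⟨W', hW'⟩ : ∃ W' : Fin N → ℝ, W' = fun k => if β k ≠ u k then w (β' k) else 1 := ⟨_, rfl⟩
  obtain ⟨W, hW⟩ : ∃ W : Fin N → ℝ, W = fun k => if β k ≠ u k then w (β k) else 1 := ⟨_, rfl⟩
  have hWp : ∀ k, 0 < W k := by
    intro k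
    rw [hW]
    by_cases h : β k ≠ u k
    · simp only [if_pos h]
      exact hw _ (hin k h)
    · simp only [if_neg h]
      exact one_pos
  have hW'p : ∀ k, 0 < W' k := by
    intro k
    rw [hW']
    by_cases h : β k ≠ u k
    · simp only [if_pos h]
      exact hw _ ((hβ k).2 h)
    · simp only [if_neg h]
      exact one_pos
  have e1 : ∏ k ∈ Finset.univ.filter (fun k => β k ≠ u k), w (β' k) = ∏ k, W' k := by
    rw [Finset.prod_filter, hW']
  have e2 : ∏ k ∈ Finset.univ.filter (fun k => β k ≠ u k), w (β k) = ∏ k, W k := by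
    rw [Finset.prod_filter, hW]
  rw [e1, e2]
  obtain ⟨R, hR⟩ : ∃ R : Matrix (Fin N) (Fin N) ℝ, R = Matrix.diagonal (fun l => (W l)⁻¹) *
    (Matrix.of fun l k => cramer (Am a β) (a (β' k)) l / cdet a β) * Matrix.diagonal W' := ⟨_, rfl⟩
  have hRe : ∀ l k, R l k = (W l)⁻¹ * (cramer (Am a β) (a (β' k)) l / cdet a β) * W' k := by
    intro l k
    rw [hR, Matrix.mul_diagonal, Matrix.diagonal_mul]
    rfl
  have hdet : cdet a β' * ∏ k, W' k = cdet a β * R.det * ∏ k, W k := by
    have h1 : Am a β' = Am a β * Matrix.of fun l k => cramer (Am a β) (a (β' k)) l / cdet a β := by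
      ext i k
      have h := congrFun (cramer_sum (a := a) (β := β) (a (β' k))) i
      rw [Finset.sum_apply] at h
      simp only [Pi.smul_apply, smul_eq_mul] at h
      rw [Matrix.mul_apply]
      show a (β' k) i = ∑ l, a (β l) i * (cramer (Am a β) (a (β' k)) l / cdet a β)
      have e : ∑ l, a (β l) i * (cramer (Am a β) (a (β' k)) l / cdet a β) =
          (∑ l, cramer (Am a β) (a (β' k)) l * a (β l) i) / cdet a β := by
        rw [Finset.sum_div]
        refine Finset.sum_congr rfl fun l _ => ?_
        ring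
      rw [e, h]
      field_simp
    have h2 : cdet a β' = cdet a β *
        (Matrix.of fun l k => cramer (Am a β) (a (β' k)) l / cdet a β).det := by
      have := congrArg Matrix.det h1
      rw [Matrix.det_mul] at this
      exact this
    have hWne : ∏ k, W k ≠ 0 := (Finset.prod_pos fun k _ => hWp k).ne'
    have h3 : R.det = (∏ k, W k)⁻¹ *
        (Matrix.of fun l k => cramer (Am a β) (a (β' k)) l / cdet a β).det * ∏ k, W' k := by
      rw [hR, Matrix.det_mul, Matrix.det_mul, Matrix.det_diagonal, Matrix.det_diagonal,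
        Finset.prod_inv_distrib]
    rw [h2, h3]
    field_simp
  have hRb : ∀ l k, |R l k| ≤ 2 ^ N := by
    intro l k
    rw [hRe]
    have h2N : (1 : ℝ) ≤ 2 ^ N := one_le_pow₀ (by norm_num)
    by_cases hk : β k = u k
    · have hk' : β' k = β k := by rw [(hβ k).1 hk, hk]
      rw [hk', cr_self]
      by_cases hl : l = k
      · subst hl
        have e3 : W l = 1 := by rw [hW]; simp [hk]
        have e4 : W' l = 1 := by rw [hW']; simp [hk]
        rw [if_pos rfl, e3, e4, div_self hd]
        simpa using h2N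
      · rw [if_neg hl]
        simp
    · have hk' := (hβ k).2 hk
      by_cases hl : β l = u l
      · rw [(unit_zero hU hG l hl).2 _ hk']
        simp
      · have hb := bound' hU hw hG hk' l (hin l hl)
        have e3 : W l = w (β l) := by rw [hW]; simp [hl]
        have e4 : W' k = w (β' k) := by rw [hW']; simp [hk]
        have hdp : 0 < |cdet a β| := abs_pos.2 hd
        have hwl : 0 < w (β l) := hw _ (hin l hl)
        have hwk : 0 < w (β' k) := hw _ hk'
        rw [e3, e4, abs_mul, abs_mul, abs_inv, abs_div, abs_of_pos hwl, abs_of_pos hwk]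
        have : (w (β l))⁻¹ * (|cramer (Am a β) (a (β' k)) l| / |cdet a β|) * w (β' k) =
            (|cramer (Am a β) (a (β' k)) l| * w (β' k)) / (|cdet a β| * w (β l)) := by
          field_simp
        rw [this, div_le_iff₀ (by positivity)]
        exact hb
  have hRd : |R.det| ≤ N.factorial * 2 ^ (N * N) := by
    have h := Matrix.det_le (A := R) (abv := AbsoluteValue.abs) (x := (2 : ℝ) ^ N)
      (fun i j => hRb i j)
    rw [Fintype.card_fin, nsmul_eq_mul, ← pow_mul] at h
    exact h
  have hWP : 0 < ∏ k, W k := Finset.prod_pos fun k _ => hWp k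
  have hWP' : 0 < ∏ k, W' k := Finset.prod_pos fun k _ => hW'p k
  calc |cdet a β'| * ∏ k, W' k = |cdet a β' * ∏ k, W' k| := by rw [abs_mul, abs_of_pos hWP']
    _ = |R.det| * (|cdet a β| * ∏ k, W k) := by
        rw [hdet, abs_mul, abs_mul, abs_of_pos hWP]
        ring
    _ ≤ _ := mul_le_mul_of_nonneg_right hRd (by positivity)

theorem half (hU : Units a u Ac) (hG : Greedy a u Ac w β)
    (hG' : Greedy a u Ac w' β') (k : Fin N)
    (ih : ∀ l < k, β' l = u l ↔ β l = u l) (hk : β k = u k) : β' k = u k := by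
  have hg0 : Lf a β k (Pi.single k 1) ≠ 0 := by
    rw [L_eq]
    exact Pk_ne hU hG _ k.2.le
  have hg0' : Lf a β' k (Pi.single k 1) ≠ 0 := by
    rw [L_eq]
    exact Pk_ne hU hG' _ k.2.le
  have hexp : ∀ (L : (Fin N → ℝ) →ₗ[ℝ] ℝ) (v : Fin N → ℝ), L v = ∑ i, v i * L (Pi.single i 1) := by
    intro L v
    conv_lhs => rw [pi_eq_sum_univ' v]
    rw [map_sum]
    refine Finset.sum_congr rfl fun i _ => ?_
    rw [map_smul, smul_eq_mul]
  obtain ⟨μ, hμ⟩ : ∃ μ : Fin N → ℝ, μ = fun i =>
    Lf a β' k (Pi.single i 1) / Lf a β' k (Pi.single k 1) -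
      Lf a β k (Pi.single i 1) / Lf a β k (Pi.single k 1) := ⟨_, rfl⟩
  have hμv : ∀ v : Fin N → ℝ, ∑ i, v i * μ i = Lf a β' k v / Lf a β' k (Pi.single k 1) -
      Lf a β k v / Lf a β k (Pi.single k 1) := by
    intro v
    rw [hexp (Lf a β' k) v, hexp (Lf a β k) v, Finset.sum_div, Finset.sum_div,
      ← Finset.sum_sub_distrib, hμ]
    refine Finset.sum_congr rfl fun i _ => ?_
    ring
  have hz : ∀ i, (i < k → β i = u i) → μ i = 0 := by
    intro i hi
    rw [hμ]
    simp only
    rcases lt_trichotomy i k with h | h | h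
    · have h1 := hi h
      have h2 := (ih i h).2 h1
      have h3 := L_lt (a := a) (β := β) h
      have h4 := L_lt (a := a) (β := β') h
      rw [h1, au hU] at h3
      rw [h2, au hU] at h4
      rw [h3, h4]
      simp
    · rw [h, div_self hg0, div_self hg0', sub_self]
    · rw [L_gt h, L_gt h]
      simp
  have hMz : (Matrix.of (Ck a β' k)).mulVec μ = 0 := by
    funext l
    show ∑ i, Ck a β' k l i * μ i = 0
    by_cases hl : l < k
    · by_cases hl2 : β l = u l
      · have h2 := (ih l hl).2 hl2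
        have h3 : Ck a β' k l = Pi.single l 1 := by
          unfold Ck
          rw [if_pos (show (l : ℕ) < k from hl), h2, au hU]
        rw [h3, Finset.sum_eq_single l]
        · rw [hz l (fun _ => hl2), mul_zero]
        · intro i _ hi
          rw [Pi.single_eq_of_ne hi, zero_mul]
        · intro h
          exact absurd (Finset.mem_univ l) h
      · have h2 : β' l ≠ u l := fun h => hl2 ((ih l hl).1 h)
        have h3 : Ck a β' k l = a (β' l) := by
          unfold Ck
          rw [if_pos (show (l : ℕ) < k from hl)]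
        have h4 : β' l ∈ Ac := by
          rcases hG' l with ⟨h, -, -⟩ | ⟨h, -⟩
          · exact h
          · exact absurd h h2
        rw [h3, hμv, L_lt hl, (unit_zero hU hG k hk).1 _ h4]
        simp
    · have h3 : Ck a β' k l = Pi.single l 1 := by
        unfold Ck
        rw [if_neg (show ¬ (l : ℕ) < k from hl)]
      rw [h3, Finset.sum_eq_single l]
      · rw [hz l (fun h => absurd h hl), mul_zero]
      · intro i _ hi
        rw [Pi.single_eq_of_ne hi, zero_mul]
      · intro h
        exact absurd (Finset.mem_univ l) h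
  have hμ0 : μ = 0 := Matrix.eq_zero_of_mulVec_eq_zero (M := Matrix.of (Ck a β' k))
    (Pk_ne hU hG' _ k.2.le) hMz
  rcases hG' k with ⟨h1, h2, -⟩ | ⟨h1, -⟩
  · exfalso
    apply h2
    rw [pdet_eq hU]
    have h3 := hμv (a (β' k))
    rw [hμ0, (unit_zero hU hG k hk).1 _ h1] at h3
    simp only [Pi.zero_apply, mul_zero, Finset.sum_const_zero, zero_div, sub_zero] at h3
    exact (div_eq_zero_iff.1 h3.symm).resolve_right hg0'
  · exact h1

end TGRV

open TGRV in
/-- Greedy bases have almost maximal volume, and the unit columns do not depend on the weights. -/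
theorem t_GRV : S_GRD → S_GRV := by
  intro _ N a u Ac w β hU hw hG
  refine ⟨fun β' hβ => vol hU hw hG hβ, ?_⟩
  intro w' β' hw' hG'
  have key : ∀ n : ℕ, ∀ k : Fin N, (k : ℕ) = n → (β' k = u k ↔ β k = u k) := by
    intro n
    induction n using Nat.strong_induction_on with
    | _ n ih =>
      intro k hk
      have ih' : ∀ l < k, β' l = u l ↔ β l = u l := fun l hl =>
        ih l (by rw [← hk]; exact hl) l rfl
      exact ⟨fun h => half hU hG' hG k (fun l hl => (ih' l hl).symm) h,
        fun h => half hU hG hG' k ih' h⟩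
  exact fun k => key k k rfl

end Pool.Agent.Y648.CS
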