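import Pool.Agent.Y648.CS.Ut

set_option autoImplicit false

/-!
# Few scales of circuit ratios: one iteration, and a phase
-/

namespace Pool.Agent.Y648.CS

open Pool.Agent.NPC Pool.Agent.H558R2 Pool.Agent.H622R3.SM Pool.Agent.W920.FC

theorem getD_take {m : ℕ} {Ws : List Mo} {c : ℕ} (hc : c < m) :
    (Ws.take m).getD c moOne = Ws.getD c moOne := by
  rw [List.getD_eq_getElem?_getD, List.getD_eq_getElem?_getD, List.getElem?_take, if_pos hc]

theorem t_ITR : S_REC → S_PEQ → S_BAS → S_GRA → S_LAB → S_FIN → S_ITR := by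
  intro hREC hPEQ hBAS hGRA hLAB hFIN pB
  obtain ⟨q1, h1⟩ := hREC pB
  obtain ⟨q2, h2⟩ := hPEQ q1
  obtain ⟨q3, h3⟩ := hBAS (pB + pR)
  obtain ⟨q4, h4⟩ := hGRA (pB + pR)
  obtain ⟨q5, h5⟩ := hFIN (pB + pR)
  refine ⟨q1 + (q2 + (q3 + (q4 + q5))), ?_⟩
  have l1 : PLe q1 (q1 + (q2 + (q3 + (q4 + q5)))) := ple_add_left _ _
  have l2 : PLe q2 (q1 + (q2 + (q3 + (q4 + q5)))) :=
    (ple_add_left _ _).trans (ple_add_right _ _)
  have l3 : PLe q3 (q1 + (q2 + (q3 + (q4 + q5)))) :=
    ((ple_add_left _ _).trans (ple_add_right _ _)).trans (ple_add_right _ _)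
  have l4 : PLe q4 (q1 + (q2 + (q3 + (q4 + q5)))) :=
    (((ple_add_left _ _).trans (ple_add_right _ _)).trans (ple_add_right _ _)).trans
      (ple_add_right _ _)
  have l5 : PLe q5 (q1 + (q2 + (q3 + (q4 + q5)))) :=
    (((ple_add_right _ _).trans (ple_add_right _ _)).trans (ple_add_right _ _)).trans
      (ple_add_right _ _)
  intro m n p g drop E t W B hg hE hE64 hI
  have hER : E + cR m n ≤ (pB + pR).eval (m + n) := by
    rw [Polynomial.eval_add]
    exact Nat.add_le_add hE (pR_le m n)
  obtain ⟨Ws, y, x, r1, hlen, hWs, hWs2, hy, hcen, hz, hbd⟩ := h1 m n p g drop E t W hg hE hI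
  obtain ⟨r2, s2⟩ := h2 m n p g drop Ws y hg hWs2 hy
  have r1' := runs_mono l1 le_rfl r1
  have r2' := runs_mono l2 s2 (runs_batch r2)
  obtain ⟨o, ho⟩ : ∃ o, o = (alV (GMat (n + 3) (m + m + 4) (gW m n p g (wV m n g Ws))
    (fun _ => 1) (drK m n drop)) y).map signOut := ⟨_, rfl⟩
  rw [← ho] at hz r2'
  have hval : ∀ E', q1.eval (m + n) + (q2.eval (m + n) + E') =
      q1.eval (m + n) + (q2.eval (m + n) + E') := fun _ => rfl
  have heval : (q1 + (q2 + (q3 + (q4 + q5)))).eval (m + n) = q1.eval (m + n) +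
      (q2.eval (m + n) + (q3.eval (m + n) + (q4.eval (m + n) + q5.eval (m + n)))) := by
    simp only [Polynomial.eval_add]
  have hcx : ∀ c ∈ Xc m drop, 0 ≤ x c := by
    intro c hc
    have h6 := hcen.2.1 c hc
    have hc2 : c < m + m := Finset.mem_range.1 (Finset.mem_filter.1 hc).1
    have h7 : 0 < wf m n g t (Ws.take (m + m)) c := by
      unfold wf wc
      rw [if_pos hc2, getD_take hc2]
      exact (hWs c hc2).2.2
    exact (mul_nonneg (by unfold epR; positivity) h7.le).trans h6
  by_cases hzz : zOf (cD m n) o (cO m n + (m + m + 3)) < 0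
  · refine ⟨(1, (t, (W, B))), ?_, Or.inr (Or.inl ⟨rfl, x, hcen.1, hcx, hz.1 hzz⟩)⟩
    have r3 : Runs g (Gd (q1 + (q2 + (q3 + (q4 + q5)))) (m + n) g)
        (itr m n p drop (0, (t, (W, B)))) (1, (t, (W, B)))
        (q1.eval (m + n) + (q2.eval (m + n) + 0)) := by
      unfold itr
      rw [if_neg (by simp)]
      refine runs_bnd r1' (runs_bnd r2' ?_)
      rw [if_pos hzz]
      exact runs_ret _
    refine t_TT.2.2.2 _ _ _ _ _ _ _ _ (fun _ h => h) ?_ r3
    rw [heval]
    omega
  · have hx0 : 0 ≤ x (m + m) := by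
      by_contra hneg
      exact hzz (hz.2 (not_le.1 hneg))
    have hb := hbd hx0
    have hWt : ∀ c < m + m, MoG m n g (E + cR m n) ((Ws.take (m + m)).getD c moOne) := by
      intro c hc
      rw [getD_take hc]
      exact hWs c hc
    have htG := hI.szt.mono (Nat.le_add_right E (cR m n))
    obtain ⟨β, r3, hβl, hgr⟩ := h3 m n p g drop (E + cR m n) t (Ws.take (m + m)) hg hER htG hWt
    obtain ⟨o', r4, hgo⟩ := h4 m n p g drop (E + cR m n) t (Ws.take (m + m)) β hg hER htG hWt hβl
      hgr
    have hwts : Wts (Xc m drop) (m + m) (m + m + 1) (moV m n g t)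
        (wf m n g t (Ws.take (m + m))) := by
      refine ⟨?_, ?_, by omega, hI.szt.2.2, ?_, ?_, ?_⟩
      · intro h
        have := Finset.mem_range.1 (Finset.mem_filter.1 h).1
        omega
      · intro h
        have := Finset.mem_range.1 (Finset.mem_filter.1 h).1
        omega
      · intro c hc
        have hc2 : c < m + m := Finset.mem_range.1 (Finset.mem_filter.1 hc).1
        unfold wf wc
        rw [if_pos hc2]
        exact (hWt c hc2).2.2
      · unfold wf wc
        rw [if_neg (by omega), if_pos rfl]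
      · unfold wf wc
        rw [if_neg (by omega), if_neg (by omega)]
        simp [moV, moOne, prV]
    have hlab := hLAB m n p g drop (moV m n g t) (wf m n g t (Ws.take (m + m))) β o' hwts hβl hgr
      hgo
    have hlen' : (Ws.take (m + m)).length = m + m := by
      rw [List.length_take, hlen]
      omega
    obtain ⟨s, r5, hs⟩ := h5 m n p g drop (E + cR m n) t (Ws.take (m + m)) β o' x hg hER (by omega)
      hlen' htG hWt hβl hb hcen hgr hgo hlab
    refine ⟨s, ?_, ?_⟩
    · have r6 : Runs g (Gd (q1 + (q2 + (q3 + (q4 + q5)))) (m + n) g)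
          (itr m n p drop (0, (t, (W, B)))) s
          (q1.eval (m + n) + (q2.eval (m + n) + (q3.eval (m + n) + (q4.eval (m + n) +
            q5.eval (m + n))))) := by
        unfold itr
        rw [if_neg (by simp)]
        refine runs_bnd r1' (runs_bnd r2' ?_)
        rw [if_neg hzz]
        exact runs_bnd (runs_mono l3 le_rfl r3) (runs_bnd (runs_mono l4 le_rfl r4)
          (runs_mono l5 le_rfl r5))
      rw [heval]
      exact r6
    · rcases hs with hs | hs
      · exact Or.inl hs
      · exact Or.inr (Or.inr hs)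

/-- The sequence of the states. -/
theorem exists_seq {σ : Type} (P : ℕ → σ → Prop) (R : σ → σ → Prop) (s0 : σ) (h0 : P 0 s0)
    (hs : ∀ i s, P i s → ∃ s', R s s' ∧ P (i + 1) s') :
    ∃ s : ℕ → σ, s 0 = s0 ∧ ∀ i, P i (s i) ∧ R (s i) (s (i + 1)) := by
  choose! f hf using hs
  refine ⟨fun i => Nat.rec s0 (fun i s => f i s) i, rfl, ?_⟩
  have hP : ∀ i, P i (Nat.rec s0 (fun i s => f i s) i : σ) := by
    intro i
    induction i with
    | zero => exact h0
    | succ i ih => exact (hf i _ ih).2
  exact fun i => ⟨hP i, (hf i _ (hP i)).1⟩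

theorem ret_runs {β : Type} {g : Reg → ℝ} {G : ℝ → Prop} {b b' : β} {c : ℕ}
    (h : Runs g G (ret b) b' c) : b' = b := by
  cases h with
  | done _ _ _ h6 =>
    have h7 := h6 []
    unfold ret at h7
    have h8 := Sum.inl.inj h7
    exact (congrArg Prod.fst h8).symm
  | step _ _ _ _ _ h6 _ _ =>
    unfold ret at h6
    exact absurd h6 (by simp)

theorem t_PHS (k : ℕ) : S_ITR → S_CUTC → S_PHS k := by
  intro hITR hCUT pB
  obtain ⟨pI, hpI⟩ : ∃ p : Polynomial ℕ, ∀ m n, cI k m n ≤ p.eval (m + n) := by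
    refine ⟨(Polynomial.X + 2) ^ (8 * k + 40), fun m n => ?_⟩
    simp [cI]
  obtain ⟨q, hq⟩ := hITR (pB + pI * (pR + 1))
  refine ⟨q + (pI * q + (pB + pI * (pR + 1))), ?_⟩
  have l1 : PLe q (q + (pI * q + (pB + pI * (pR + 1)))) := ple_add_left _ _
  intro m n p g drop E t W B hg hm hn hE hE64 hI hSc
  -- the property of the state number `i`
  let P : ℕ → PS → Prop := fun i s =>
    (s.1 = 0 ∧ i ≤ cI k m n ∧ Inv m n p g drop (E + i * (cR m n + 1)) s.2.1 s.2.2.1) ∨
      (s.1 = 1 ∧ ∃ x ∈ Lsp m n p g drop, (∀ c ∈ Xc m drop, 0 ≤ x c) ∧ x (m + m) < 0) ∨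
      (s.1 = 2 ∧ Trm m n p g drop ((q + (pI * q + (pB + pI * (pR + 1)))).eval (m + n))
        s.2.2.1 s.2.2.2) ∨ cI k m n < i
  have hev : (q + (pI * q + (pB + pI * (pR + 1)))).eval (m + n) = q.eval (m + n) +
      (pI.eval (m + n) * q.eval (m + n) + (pB.eval (m + n) + pI.eval (m + n) *
        (pR.eval (m + n) + 1))) := by
    simp only [Polynomial.eval_add, Polynomial.eval_mul, Polynomial.eval_one]
  have hbound : ∀ i ≤ cI k m n, E + i * (cR m n + 1) ≤ (pB + pI * (pR + 1)).eval (m + n) := by
    intro i hi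
    simp only [Polynomial.eval_add, Polynomial.eval_mul, Polynomial.eval_one]
    have h1 := pR_le m n
    have h2 : i * (cR m n + 1) ≤ pI.eval (m + n) * (pR.eval (m + n) + 1) :=
      Nat.mul_le_mul (hi.trans (hpI m n)) (by omega)
    omega
  let R : PS → PS → Prop := fun s s' =>
    (Runs g (Gd q (m + n) g) (itr m n p drop s) s' (q.eval (m + n)) ∨ False) ∧
      (s.1 = 0 → s'.1 = 0 → Cut m n p g drop (moV m n g s.2.1) (moV m n g s'.2.1))
  have hstep : ∀ i s, P i s → ∃ s', (i < cI k m n → R s s') ∧ P (i + 1) s' := by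
    intro i s hPs
    by_cases hi : i < cI k m n
    swap
    · exact ⟨s, fun h => absurd h hi, Or.inr (Or.inr (Or.inr (by omega)))⟩
    rcases hPs with h | h | h | h
    · obtain ⟨h0, -, hI'⟩ := h
      have hs : s = (0, (s.2.1, (s.2.2.1, s.2.2.2))) := by
        rw [← h0]
      obtain ⟨s', r, hs'⟩ := hq m n p g drop (E + i * (cR m n + 1)) s.2.1 s.2.2.1 s.2.2.2 hg
        (hbound i hi.le) (by omega) hI'
      rw [← hs] at r
      refine ⟨s', fun _ => ⟨Or.inl r, ?_⟩, ?_⟩
      · intro _ h1
        rcases hs' with h2 | h2 | h2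
        · exact h2.2.2
        · exact absurd (h1.symm.trans h2.1) (by norm_num)
        · exact absurd (h1.symm.trans h2.1) (by norm_num)
      · rcases hs' with h2 | h2 | h2
        · refine Or.inl ⟨h2.1, hi, ?_⟩
          refine h2.2.1.mono ?_
          have : (i + 1) * (cR m n + 1) = i * (cR m n + 1) + (cR m n + 1) := by ring
          omega
        · exact Or.inr (Or.inl h2)
        · refine Or.inr (Or.inr (Or.inl ⟨h2.1, h2.2.mono ?_⟩))
          have h3 := hbound (i + 1) hi
          have h4 : (i + 1) * (cR m n + 1) = i * (cR m n + 1) + (cR m n + 1) := by ring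
          have h5 : (pB + pI * (pR + 1)).eval (m + n) ≤
              (q + (pI * q + (pB + pI * (pR + 1)))).eval (m + n) :=
            ((ple_add_right _ _).trans (ple_add_right _ _)) _
          omega
    · refine ⟨s, fun _ => ⟨Or.inl ?_, fun h0 => absurd (h0.symm.trans h.1) (by norm_num)⟩,
        Or.inr (Or.inl h)⟩
      unfold itr
      rw [if_pos (by rw [h.1]; norm_num)]
      exact t_TT.2.2.2 _ _ _ _ _ _ _ _ (fun _ h => h) (Nat.zero_le _) (runs_ret s)
    · refine ⟨s, fun _ => ⟨Or.inl ?_, fun h0 => absurd (h0.symm.trans h.1) (by norm_num)⟩,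
        Or.inr (Or.inr (Or.inl h))⟩
      unfold itr
      rw [if_pos (by rw [h.1]; norm_num)]
      exact t_TT.2.2.2 _ _ _ _ _ _ _ _ (fun _ h => h) (Nat.zero_le _) (runs_ret s)
    · omega
  obtain ⟨f, hf⟩ : ∃ f : ℕ → PS → PS, ∀ i s, P i s →
      (i < cI k m n → R s (f i s)) ∧ P (i + 1) (f i s) := by
    choose! f hf using hstep
    exact ⟨f, hf⟩
  obtain ⟨st, hst0, hst⟩ : ∃ st : ℕ → PS, st 0 = (0, (t, (W, B))) ∧
      ∀ i, st (i + 1) = f i (st i) :=
    ⟨fun i => Nat.rec (0, (t, (W, B))) (fun i s => f i s) i, rfl, fun _ => rfl⟩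
  have hP : ∀ i, P i (st i) := by
    intro i
    induction i with
    | zero =>
      rw [hst0]
      refine Or.inl ⟨rfl, Nat.zero_le _, ?_⟩
      have : E + 0 * (cR m n + 1) = E := by ring
      rw [this]
      exact hI
    | succ i ih =>
      rw [hst]
      exact (hf i _ ih).2
  have hR : ∀ i < cI k m n, R (st i) (st (i + 1)) := fun i hi => by
    rw [hst]
    exact (hf i _ (hP i)).1 hi
  have hrun : Runs g (Gd q (m + n) g) (iter (itr m n p drop) (cI k m n) (0, (t, (W, B))))
      (st (cI k m n)) (cI k m n * q.eval (m + n)) := by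
    rw [← hst0]
    refine t_TT.2.2.1 PS g _ (itr m n p drop) st (cI k m n) (q.eval (m + n)) fun i hi => ?_
    rcases (hR i hi).1 with h | h
    · exact h
    · exact h.elim
  refine ⟨st (cI k m n), runs_mono l1 ?_ hrun, ?_⟩
  · rw [hev]
    have h1 : cI k m n * q.eval (m + n) ≤ pI.eval (m + n) * q.eval (m + n) :=
      Nat.mul_le_mul_right _ (hpI m n)
    omega
  · rcases hP (cI k m n) with h | h | h | h
    · exfalso
      -- all states before are running
      have hback : ∀ j, j ≤ cI k m n → (st (cI k m n - j)).1 = 0 := by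
        intro j
        induction j with
        | zero => intro _; exact h.1
        | succ j ih =>
          intro hj
          have h1 := ih (by omega)
          have h2 : cI k m n - (j + 1) + 1 = cI k m n - j := by omega
          have h3 := hR (cI k m n - (j + 1)) (by omega)
          rw [h2] at h3
          by_contra hne
          rcases h3.1 with h4 | h4
          · unfold itr at h4
            rw [if_pos hne] at h4
            rw [ret_runs h4] at h1
            exact hne h1
          · exact h4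
      have hall : ∀ i ≤ cI k m n, (st i).1 = 0 := by
        intro i hi
        have := hback (cI k m n - i) (by omega)
        rwa [Nat.sub_sub_self hi] at this
      have := hCUT k m n p g drop (fun i => moV m n g (st i).2.1) (cI k m n) hm hn hSc
        fun i hi => (hR i hi).2 (hall i hi.le) (hall (i + 1) hi)
      exact lt_irrefl _ this
    · exact Or.inl h
    · exact Or.inr h
    · exact absurd h (lt_irrefl _)

end Pool.Agent.Y648.CS
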