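import Pool.Agent.Y648.CS.StmA

/-!
# The labels of the graph search
-/

set_option autoImplicit false
set_option linter.all false

namespace Pool.Agent.Y648.CS

open Pool.Agent.NPC Pool.Agent.H558R2 Pool.Agent.H622R3.SM

namespace TLAB

/-! ### Stabilisation -/

theorem stab (N : ℕ) (D : ℕ → Finset ℕ) (Φ : Finset ℕ → Finset ℕ)
    (h1 : ∀ i, D i ⊆ Finset.range N) (h2 : ∀ i, D i ⊆ D (i + 1)) (h3 : ∀ i, D (i + 1) = Φ (D i)) :
    D (N + 1) = D N := by
  by_contra hne
  have h4 : ∀ i ≤ N, D (i + 1) ≠ D i := by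
    intro i hi heq
    have h5 : ∀ j, D (i + j + 1) = D (i + j) := by
      intro j
      induction j with
      | zero => exact heq
      | succ j ih =>
        have e1 : i + (j + 1) = i + j + 1 := by ring
        rw [e1, h3 (i + j + 1), ih, ← h3, ih]
    have h6 := h5 (N - i)
    have e2 : i + (N - i) = N := by omega
    rw [e2] at h6
    exact hne h6
  have h5 : ∀ i ≤ N + 1, i ≤ (D i).card := by
    intro i
    induction i with
    | zero => intro _; exact Nat.zero_le _
    | succ i ih =>
      intro hi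
      have h6 := ih (by omega)
      have h7 : D i ⊂ D (i + 1) := (Finset.ssubset_iff_subset_ne).2
        ⟨h2 i, (h4 i (by omega)).symm⟩
      have h8 := Finset.card_lt_card h7
      omega
  have h6 := h5 (N + 1) le_rfl
  have h7 := Finset.card_le_card (h1 (N + 1))
  rw [Finset.card_range] at h7
  omega

/-! ### Labels -/

theorem isL_iff (l : Lab) (b : Bool) (c : ℕ) :
    isL l b c = true ↔ ∃ U, l.getD c none = some (b, U) := by
  unfold isL
  rw [decide_eq_true_iff]
  cases h : l.getD c none with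
  | none => simp
  | some x =>
    obtain ⟨x1, x2⟩ := x
    simp

theorem lbW_eq (l : Lab) (c : ℕ) (b : Bool) (U : Mo) (h : l.getD c none = some (b, U)) :
    lbW l c = U := by
  unfold lbW
  rw [h]
  rfl

section

variable (m n p : ℕ) (drop : List Bool) (β : List ℕ) (o : List Outcome)

theorem labS_get (l : Lab) (v : ℕ) (hv : v < m + m + 2) :
    (labS m n p drop β o l).getD v none = (l.getD v none).elim
      (((List.range (m + m + 2)).flatMap fun u => (l.getD u none).elim [] fun x =>
        (hop m n p drop β o u v).map fun f => (x.1, moMul x.2 f)).head?) fun x => some x := by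
  unfold labS
  rw [List.getD_eq_getElem _ _ (by simpa using hv)]
  simp

theorem labS_get' (l : Lab) (v : ℕ) (hv : ¬ v < m + m + 2) :
    (labS m n p drop β o l).getD v none = none := by
  unfold labS
  rw [List.getD_eq_default _ _ (by simpa using hv)]

theorem labS_keep (l : Lab) (v : ℕ) (x : Bool × Mo) (hv : v < m + m + 2)
    (h : l.getD v none = some x) : (labS m n p drop β o l).getD v none = some x := by
  rw [labS_get m n p drop β o l v hv, h]
  rfl

theorem labS_new (l : Lab) (v : ℕ) (y : Bool × Mo) (h : l.getD v none = none)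
    (h' : (labS m n p drop β o l).getD v none = some y) : v < m + m + 2 ∧
    ∃ u < m + m + 2, ∃ x, l.getD u none = some x ∧ ∃ f ∈ hop m n p drop β o u v,
      y = (x.1, moMul x.2 f) := by
  by_cases hv : v < m + m + 2
  · refine ⟨hv, ?_⟩
    rw [labS_get m n p drop β o l v hv, h] at h'
    have h1 := List.mem_of_mem_head? (l := (List.range (m + m + 2)).flatMap fun u =>
      (l.getD u none).elim [] fun x => (hop m n p drop β o u v).map fun f => (x.1, moMul x.2 f))
      (a := y) h'
    rw [List.mem_flatMap] at h1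
    obtain ⟨u, hu, h2⟩ := h1
    rw [List.mem_range] at hu
    cases hx : l.getD u none with
    | none =>
      rw [hx] at h2
      simp at h2
    | some x =>
      rw [hx] at h2
      have h3 : y ∈ (hop m n p drop β o u v).map fun f => (x.1, moMul x.2 f) := h2
      rw [List.mem_map] at h3
      obtain ⟨f, hf, hfy⟩ := h3
      exact ⟨u, hu, x, hx, f, hf, hfy.symm⟩
  · rw [labS_get' m n p drop β o l v hv] at h'
    simp at h'

theorem labS_ne (l : Lab) (u v : ℕ) (x : Bool × Mo) (hu : u < m + m + 2) (hv : v < m + m + 2)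
    (h : l.getD u none = some x) (hh : hop m n p drop β o u v ≠ []) :
    (labS m n p drop β o l).getD v none ≠ none := by
  rw [labS_get m n p drop β o l v hv]
  cases hx : l.getD v none with
  | some y =>
    show some y ≠ none
    simp
  | none =>
    show ((List.range (m + m + 2)).flatMap fun u => (l.getD u none).elim [] fun x =>
        (hop m n p drop β o u v).map fun f => (x.1, moMul x.2 f)).head? ≠ none
    intro h1
    rw [List.head?_eq_none_iff] at h1
    obtain ⟨f, hf⟩ := List.exists_mem_of_ne_nil _ hh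
    have h2 : (x.1, moMul x.2 f) ∈ (List.range (m + m + 2)).flatMap fun u =>
        (l.getD u none).elim [] fun x =>
          (hop m n p drop β o u v).map fun f => (x.1, moMul x.2 f) := by
      rw [List.mem_flatMap]
      refine ⟨u, List.mem_range.2 hu, ?_⟩
      rw [h]
      show _ ∈ (hop m n p drop β o u v).map fun f => (x.1, moMul x.2 f)
      exact List.mem_map.2 ⟨f, hf, rfl⟩
    rw [h1] at h2
    simp at h2

theorem mem_hop (u v : ℕ) (f : Mo) : f ∈ hop m n p drop β o u v ↔ ∃ k < n + 2,
    (β.getD k 0 = u ∧ edge m drop β o k v = true ∧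
      f = moMul (moTwo (cE m n)) (moInv (tM p β k v))) ∨
    (β.getD k 0 = v ∧ edge m drop β o k u = true ∧
      f = moMul (moTwo (cE m n)) (tM p β k u)) := by
  unfold hop
  rw [List.mem_flatMap]
  constructor
  · rintro ⟨k, hk, hf⟩
    rw [List.mem_range] at hk
    refine ⟨k, hk, ?_⟩
    rw [List.mem_append] at hf
    rcases hf with hf | hf
    · split_ifs at hf with h
      · rw [Bool.and_eq_true, decide_eq_true_iff] at h
        rw [List.mem_singleton] at hf
        exact Or.inl ⟨h.1, h.2, hf⟩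
      · simp at hf
    · split_ifs at hf with h
      · rw [Bool.and_eq_true, decide_eq_true_iff] at h
        rw [List.mem_singleton] at hf
        exact Or.inr ⟨h.1, h.2, hf⟩
      · simp at hf
  · rintro ⟨k, hk, h⟩
    refine ⟨k, List.mem_range.2 hk, ?_⟩
    rw [List.mem_append]
    rcases h with ⟨h1, h2, h3⟩ | ⟨h1, h2, h3⟩
    · left
      rw [if_pos (by rw [Bool.and_eq_true, decide_eq_true_iff]; exact ⟨h1, h2⟩), h3]
      exact List.mem_singleton_self _
    · right
      rw [if_pos (by rw [Bool.and_eq_true, decide_eq_true_iff]; exact ⟨h1, h2⟩), h3]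
      exact List.mem_singleton_self _

end

theorem bf_set (n : ℕ) (β : List ℕ) (hβ : β.length = n + 2) (k : Fin (n + 2)) (c : ℕ) :
    bf n (β.set k c) = Function.update (bf n β) k c := by
  funext l
  unfold bf
  rw [Function.update_apply]
  have hl : (l : ℕ) < β.length := by rw [hβ]; exact l.2
  rw [List.getD_eq_getElem _ _ (by simpa using hl), List.getElem_set]
  by_cases h : l = k
  · rw [if_pos h, if_pos (by rw [h])]
  · rw [if_neg h, if_neg (by intro h'; exact h (Fin.ext h'.symm)), List.getD_eq_getElem _ _ hl]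

theorem cE_ge (m n : ℕ) : n + 2 ≤ cE m n := by
  unfold cE cD Pool.Agent.W920.FC.cK
  omega

/-- Everything about a hop. -/
theorem hop_spec (hG : S_GRD) (hM : S_MOV) (hL : S_LSP) {m n p : ℕ} {g : Reg → ℝ}
    {drop : List Bool} {t : ℝ} {w : ℕ → ℝ} {β : List ℕ} {o : List Outcome}
    (hw : Wts (Xc m drop) (m + m) (m + m + 1) t w) (hβ : β.length = n + 2)
    (hgr : Greedy (cl m n p g) (un m n) (Acs m drop) w (bf n β)) (ho : GrOK m n p g drop w β o)
    {u v : ℕ} (hu : u < m + m + 2) (hv : v < m + m + 2) {f : Mo}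
    (hf : f ∈ hop m n p drop β o u v) :
    u ∈ Acs m drop ∧ v ∈ Acs m drop ∧ 0 < w u ∧ 0 < w v ∧ MoOK m n g f ∧ MoS (cE m n) 1 f ∧
    w v ≤ |moV m n g f| * w u ∧ |moV m n g f| * w u ≤ 2 ^ (2 * cE m n) * w v := by
  obtain ⟨hL1, hL2, hL3, hL4, hL5, hL6, hL7⟩ := hL m n p g drop
  obtain ⟨hw1, hw2, hw3, hw4, hw5, hw6, hw7⟩ := hw
  have hwpos : ∀ c ∈ Acs m drop, 0 < w c := by
    intro c hc
    unfold Acs at hc
    rw [Finset.mem_insert, Finset.mem_insert] at hc
    rcases hc with rfl | rfl | hc
    · rw [hw6]; exact hw4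
    · rw [hw7]; exact one_pos
    · exact hw5 c hc
  obtain ⟨hG1, hG2, hG3, hG4, hG5⟩ := hG _ _ _ _ w _ hL4 hwpos hgr
  obtain ⟨hM1, hM2, hM3, hM4, hM5, hM6, hM7, hM8, hM9, hM10, hM11⟩ := hM m n g
  have hE : (0 : ℝ) < 2 ^ cE m n := by positivity
  have hmvβ : mv m n g (p, β) ≠ 0 := by
    rw [hL6]
    exact mul_ne_zero (pow_ne_zero _ (by norm_num)) hG1
  -- facts on an edge
  have key : ∀ (k : Fin (n + 2)) (c : ℕ), c < m + m + 2 → edge m drop β o k c = true →
      β.getD k 0 < m + m + 2 ∧ β.getD k 0 ∈ Acs m drop ∧ c ∈ Acs m drop ∧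
      cdet (cl m n p g) (Function.update (bf n β) k c) ≠ 0 ∧
      w (β.getD k 0) ≤ 2 ^ cE m n * (|moV m n g (tM p β k c)| * w c) ∧
      |moV m n g (tM p β k c)| * w c ≤ 2 ^ cE m n * w (β.getD k 0) ∧
      moV m n g (tM p β k c) ≠ 0 ∧ mv m n g (p, β.set k c) ≠ 0 := by
    intro k c hc he
    obtain ⟨hpos, hle⟩ := ((ho k c hc).2).1 he
    unfold pos at hpos
    rw [Bool.and_eq_true, Bool.and_eq_true, decide_eq_true_iff] at hpos
    obtain ⟨hp1, hp2, hp3⟩ := hpos
    have hcA : c ∈ Acs m drop := (hL7 c hc).2 hp2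
    have hkA : β.getD k 0 ∈ Acs m drop := by
      rcases hgr k with ⟨h1, _⟩ | ⟨h1, _⟩
      · exact h1
      · exfalso
        have h2 : β.getD k 0 = un m n k := h1
        rw [h2] at hp1
        unfold un at hp1
        omega
    have hwk := hwpos _ hkA
    have hwc := hwpos _ hcA
    have hdet : 0 < |cdet (cl m n p g) (bf n β)| := abs_pos.2 hG1
    have hupd : cdet (cl m n p g) (Function.update (bf n β) k c) ≠ 0 := by
      intro h
      rw [h, abs_zero, zero_mul, mul_zero] at hle
      have : 0 < |cdet (cl m n p g) (bf n β)| * w (β.getD k 0) := mul_pos hdet hwk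
      linarith
    have hup := hG4 k hkA c hcA
    have hT : |moV m n g (tM p β k c)| =
        |cdet (cl m n p g) (Function.update (bf n β) k c)| / |cdet (cl m n p g) (bf n β)| := by
      unfold tM
      rw [hM8, hL6, hL6, bf_set n β hβ, mul_div_mul_left _ _ (pow_ne_zero _ (by norm_num)),
        abs_div]
    have hmv : mv m n g (p, β.set k c) ≠ 0 := by
      rw [hL6, bf_set n β hβ]
      exact mul_ne_zero (pow_ne_zero _ (by norm_num)) hupd
    refine ⟨hp1, hkA, hcA, hupd, ?_, ?_, ?_, hmv⟩
    · rw [hT]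
      have e1 : 2 ^ cE m n * (|cdet (cl m n p g) (Function.update (bf n β) k c)| /
          |cdet (cl m n p g) (bf n β)| * w c) = (2 ^ cE m n *
          (|cdet (cl m n p g) (Function.update (bf n β) k c)| * w c)) /
          |cdet (cl m n p g) (bf n β)| := by ring
      rw [e1, le_div_iff₀ hdet]
      linarith
    · rw [hT]
      have e1 : |cdet (cl m n p g) (Function.update (bf n β) k c)| /
          |cdet (cl m n p g) (bf n β)| * w c =
          (|cdet (cl m n p g) (Function.update (bf n β) k c)| * w c) /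
          |cdet (cl m n p g) (bf n β)| := by ring
      rw [e1, div_le_iff₀ hdet]
      have h2 : (2 : ℝ) ^ (n + 2) ≤ 2 ^ cE m n := pow_le_pow_right₀ (by norm_num) (cE_ge m n)
      have h3 : 0 ≤ |cdet (cl m n p g) (bf n β)| * w (β.getD k 0) := (mul_pos hdet hwk).le
      have h4 := mul_le_mul_of_nonneg_right h2 h3
      have h5 : |cdet (cl m n p g) (Function.update (bf n β) k c)| * w c ≤
          2 ^ (n + 2) * (|cdet (cl m n p g) (bf n β)| * w (β.getD k 0)) := hup
      linarith
    · unfold tM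
      rw [hM8]
      exact div_ne_zero hmv hmvβ
  rw [mem_hop] at hf
  obtain ⟨k, hk, hf⟩ := hf
  have h2E : (2 : ℝ) ^ (2 * cE m n) = 2 ^ cE m n * 2 ^ cE m n := by
    rw [two_mul, pow_add]
  rcases hf with ⟨h1, h2, h3⟩ | ⟨h1, h2, h3⟩
  · obtain ⟨k1, k2, k3, k4, k5, k6, k7, k8⟩ := key ⟨k, hk⟩ v hv h2
    have hbk : β.getD ((⟨k, hk⟩ : Fin (n + 2)) : ℕ) 0 = u := h1
    rw [hbk] at k1 k2 k5 k6
    have kTn : (⟨k, hk⟩ : Fin (n + 2)).val = k := rfl
    rw [kTn] at k5 k6 k7 k8
    have hTpos : 0 < |moV m n g (tM p β k v)| := abs_pos.2 k7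
    have hfv : |moV m n g f| = 2 ^ cE m n * |moV m n g (tM p β k v)|⁻¹ := by
      rw [h3, hM4, abs_mul, (hM3 _).1, (hM7 _).1, abs_of_pos hE]
    have hokT : MoOK m n g (tM p β k v) := by
      intro x hx
      have : x = (p, β) := by
        simpa [tM, moRat] using hx
      rw [this]
      exact hmvβ
    refine ⟨k2, k3, hwpos _ k2, hwpos _ k3, ?_, ?_, ?_, ?_⟩
    · rw [h3]
      exact hM5 _ _ (hM3 _).2 ((hM7 _).2 hokT k7)
    · rw [h3]
      refine ⟨?_, ?_, ?_, ?_⟩ <;> simp [moMul, moTwo, moInv, tM, moRat]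
    · rw [hfv]
      have e1 : 2 ^ cE m n * |moV m n g (tM p β k v)|⁻¹ * w u =
          (2 ^ cE m n * w u) / |moV m n g (tM p β k v)| := by
        rw [div_eq_mul_inv]; ring
      rw [e1, le_div_iff₀ hTpos]
      linarith
    · rw [hfv, h2E]
      have e1 : 2 ^ cE m n * |moV m n g (tM p β k v)|⁻¹ * w u =
          (2 ^ cE m n * w u) / |moV m n g (tM p β k v)| := by
        rw [div_eq_mul_inv]; ring
      rw [e1, div_le_iff₀ hTpos]
      have := mul_le_mul_of_nonneg_left k5 hE.le
      linarith
  · obtain ⟨k1, k2, k3, k4, k5, k6, k7, k8⟩ := key ⟨k, hk⟩ u hu h2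
    have hbk : β.getD ((⟨k, hk⟩ : Fin (n + 2)) : ℕ) 0 = v := h1
    rw [hbk] at k1 k2 k5 k6
    have kTn : (⟨k, hk⟩ : Fin (n + 2)).val = k := rfl
    rw [kTn] at k5 k6 k7 k8
    have hTpos : 0 < |moV m n g (tM p β k u)| := abs_pos.2 k7
    have hfv : |moV m n g f| = 2 ^ cE m n * |moV m n g (tM p β k u)| := by
      rw [h3, hM4, abs_mul, (hM3 _).1, abs_of_pos hE]
    have hokT : MoOK m n g (tM p β k u) := by
      intro x hx
      have : x = (p, β) := by
        simpa [tM, moRat] using hx
      rw [this]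
      exact hmvβ
    refine ⟨k3, k2, hwpos _ k3, hwpos _ k2, ?_, ?_, ?_, ?_⟩
    · rw [h3]
      exact hM5 _ _ (hM3 _).2 hokT
    · rw [h3]
      refine ⟨?_, ?_, ?_, ?_⟩ <;> simp [moMul, moTwo, moInv, tM, moRat]
    · rw [hfv]
      linarith
    · rw [hfv, h2E]
      have := mul_le_mul_of_nonneg_left k6 hE.le
      linarith

/-- The invariant of the iteration. -/
structure LInv (m n p : ℕ) (g : Reg → ℝ) (drop : List Bool) (t : ℝ) (w : ℕ → ℝ) (β : List ℕ)
    (o : List Outcome) (i : ℕ) (l : Lab) : Prop where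
  q : l.getD (m + m) none = some (true, moOne)
  nu : l.getD (m + m + 1) none = some (false, moOne)
  all : ∀ c b U, l.getD c none = some (b, U) → c < m + m + 2 ∧ c ∈ Acs m drop ∧ MoOK m n g U ∧
    MoS (i * cE m n) i U ∧ w c ≤ |moV m n g U| * root t b ∧
    |moV m n g U| * root t b ≤ 2 ^ (2 * cE m n * i) * w c ∧
    ∀ σ : ℕ → Bool, (∀ u v, u < m + m + 2 → v < m + m + 2 → hop m n p drop β o u v ≠ [] →
      σ u = σ v) → σ c = σ (if b then m + m else m + m + 1)

theorem linv (hG : S_GRD) (hM : S_MOV) (hL : S_LSP) {m n p : ℕ} {g : Reg → ℝ}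
    {drop : List Bool} {t : ℝ} {w : ℕ → ℝ} {β : List ℕ} {o : List Outcome}
    (hw : Wts (Xc m drop) (m + m) (m + m + 1) t w) (hβ : β.length = n + 2)
    (hgr : Greedy (cl m n p g) (un m n) (Acs m drop) w (bf n β)) (ho : GrOK m n p g drop w β o)
    (i : ℕ) : LInv m n p g drop t w β o i ((labS m n p drop β o)^[i] (lab0 m)) := by
  obtain ⟨hM1, hM2, hM3, hM4, hM5, hM6, hM7, hM8, hM9, hM10, hM11⟩ := hM m n g
  obtain ⟨hw1, hw2, hw3, hw4, hw5, hw6, hw7⟩ := hw
  have hroot : ∀ b : Bool, 0 ≤ root t b := by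
    intro b
    unfold root
    split_ifs
    · exact hw4.le
    · exact zero_le_one
  induction i with
  | zero =>
    have hq : (lab0 m).getD (m + m) none = some (true, moOne) := by
      unfold lab0
      rw [List.getD_eq_getElem _ _ (by simp)]
      simp
    have hnu : (lab0 m).getD (m + m + 1) none = some (false, moOne) := by
      unfold lab0
      rw [List.getD_eq_getElem _ _ (by simp)]
      simp
    refine ⟨hq, hnu, ?_⟩
    intro c b U h
    have h0 : (lab0 m).getD c none = some (b, U) := h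
    have hc : c < m + m + 2 := by
      by_contra hc
      unfold lab0 at h0
      rw [List.getD_eq_default _ _ (by simpa using hc)] at h0
      simp at h0
    have hcase : (c = m + m ∧ b = true ∧ U = moOne) ∨ (c = m + m + 1 ∧ b = false ∧ U = moOne) := by
      unfold lab0 at h0
      rw [List.getD_eq_getElem _ _ (by simpa using hc)] at h0
      simp only [List.getElem_map, List.getElem_range] at h0
      split_ifs at h0 with h1 h2
      · left
        simp only [Option.some.injEq, Prod.mk.injEq] at h0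
        exact ⟨h1, h0.1.symm, h0.2.symm⟩
      · right
        simp only [Option.some.injEq, Prod.mk.injEq] at h0
        exact ⟨h2, h0.1.symm, h0.2.symm⟩
    rcases hcase with ⟨rfl, rfl, rfl⟩ | ⟨rfl, rfl, rfl⟩
    · refine ⟨hc, ?_, hM2, ⟨Nat.zero_le _, Nat.zero_le _, Nat.zero_le _, Nat.zero_le _⟩, ?_, ?_,
        fun σ _ => rfl⟩
      · unfold Acs
        exact Finset.mem_insert_self _ _
      · rw [hM1, abs_one, one_mul, hw6]
        exact le_rfl
      · rw [hM1, abs_one, one_mul, hw6, mul_zero, pow_zero, one_mul]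
        exact le_rfl
    · refine ⟨hc, ?_, hM2, ⟨Nat.zero_le _, Nat.zero_le _, Nat.zero_le _, Nat.zero_le _⟩, ?_, ?_,
        fun σ _ => rfl⟩
      · unfold Acs
        exact Finset.mem_insert_of_mem (Finset.mem_insert_self _ _)
      · rw [hM1, abs_one, one_mul, hw7]
        exact le_rfl
      · rw [hM1, abs_one, one_mul, hw7, mul_zero, pow_zero, one_mul]
        exact le_rfl
  | succ i ih =>
    rw [Function.iterate_succ_apply']
    set l := (labS m n p drop β o)^[i] (lab0 m) with hl
    refine ⟨labS_keep m n p drop β o l _ _ (by omega) ih.q,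
      labS_keep m n p drop β o l _ _ (by omega) ih.nu, ?_⟩
    intro c b U h
    cases hc : l.getD c none with
    | some x =>
      have hcm := (ih.all c x.1 x.2 hc).1
      rw [labS_keep m n p drop β o l c x hcm hc] at h
      have hx : x = (b, U) := by simpa using h
      subst hx
      obtain ⟨a1, a2, a3, a4, a5, a6, a7⟩ := ih.all c b U hc
      refine ⟨a1, a2, a3, ?_, a5, a6.trans ?_, a7⟩
      · obtain ⟨s1, s2, s3, s4⟩ := a4
        have e1 : i * cE m n ≤ (i + 1) * cE m n := Nat.mul_le_mul_right _ (by omega)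
        exact ⟨s1.trans e1, s2.trans e1, by omega, by omega⟩
      · have hwc : 0 ≤ w c := by
          have h5 : 0 ≤ |moV m n g U| * root t b := mul_nonneg (abs_nonneg _) (hroot b)
          have h6 := h5.trans a6
          have h7 : (0 : ℝ) < 2 ^ (2 * cE m n * i) := by positivity
          exact nonneg_of_mul_nonneg_right h6 h7
        apply mul_le_mul_of_nonneg_right _ hwc
        apply pow_le_pow_right₀ (by norm_num)
        apply Nat.mul_le_mul_left
        omega
    | none =>
      obtain ⟨hcm, u, hu, x, hx, f, hf, hy⟩ := labS_new m n p drop β o l c (b, U) hc h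
      obtain ⟨b', U'⟩ := x
      simp only [Prod.mk.injEq] at hy
      obtain ⟨rfl, rfl⟩ := hy
      obtain ⟨a1, a2, a3, a4, a5, a6, a7⟩ := ih.all u b U' hx
      obtain ⟨f1, f2, f3, f4, f5, f6, f7, f8⟩ := hop_spec hG hM hL
        ⟨hw1, hw2, hw3, hw4, hw5, hw6, hw7⟩ hβ hgr ho hu hcm hf
      refine ⟨hcm, f2, hM5 _ _ a3 f5, ?_, ?_, ?_, ?_⟩
      · obtain ⟨s1, s2, s3, s4⟩ := a4
        obtain ⟨r1, r2, r3, r4⟩ := f6
        have e1 : (i + 1) * cE m n = i * cE m n + cE m n := by ring
        rw [e1]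
        refine ⟨?_, ?_, ?_, ?_⟩
        · show (U'.1.2.1 ++ f.1.2.1).length ≤ _
          rw [List.length_append]
          omega
        · show (U'.1.2.2 ++ f.1.2.2).length ≤ _
          rw [List.length_append]
          omega
        · show (U'.2.1 ++ f.2.1).length ≤ _
          rw [List.length_append]
          omega
        · show (U'.2.2 ++ f.2.2).length ≤ _
          rw [List.length_append]
          omega
      · rw [hM4, abs_mul]
        calc w c ≤ |moV m n g f| * w u := f7
          _ ≤ |moV m n g f| * (|moV m n g U'| * root t b) :=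
              mul_le_mul_of_nonneg_left a5 (abs_nonneg _)
          _ = _ := by ring
      · rw [hM4, abs_mul]
        have h7 : (0 : ℝ) < 2 ^ (2 * cE m n * i) := by positivity
        calc |moV m n g U'| * |moV m n g f| * root t b =
              |moV m n g f| * (|moV m n g U'| * root t b) := by ring
          _ ≤ |moV m n g f| * (2 ^ (2 * cE m n * i) * w u) :=
              mul_le_mul_of_nonneg_left a6 (abs_nonneg _)
          _ = 2 ^ (2 * cE m n * i) * (|moV m n g f| * w u) := by ring
          _ ≤ 2 ^ (2 * cE m n * i) * (2 ^ (2 * cE m n) * w c) :=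
              mul_le_mul_of_nonneg_left f8 h7.le
          _ = _ := by
              rw [← mul_assoc, ← pow_add]
              congr 2
      · intro σ hσ
        rw [← a7 σ hσ]
        exact (hσ u c hu hcm (List.ne_nil_of_mem hf)).symm

end TLAB

open TLAB

theorem t_LAB : S_GRD → S_MOV → S_LSP → S_LAB := by
  classical
  intro hG hM hL m n p g drop t w β o hw hβ hgr ho
  have hinv := fun i => linv hG hM hL hw hβ hgr ho i
  set N := m + m + 2 with hN
  set L : ℕ → Lab := fun i => (labS m n p drop β o)^[i] (lab0 m) with hLdef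
  set D : ℕ → Finset ℕ := fun i => (Finset.range N).filter fun c => (L i).getD c none ≠ none
    with hD
  have hLs : ∀ i, L (i + 1) = labS m n p drop β o (L i) := by
    intro i
    simp only [hLdef]
    rw [Function.iterate_succ_apply']
  have hmemD : ∀ i c, c ∈ D i ↔ c < N ∧ ∃ x, (L i).getD c none = some x := by
    intro i c
    simp only [hD]
    rw [Finset.mem_filter, Finset.mem_range, Option.ne_none_iff_exists']
  have hclosed : ∀ i c, c ∈ D (i + 1) ↔ c ∈ D i ∨ (c < N ∧ ∃ u ∈ D i, hop m n p drop β o u c ≠ []) := by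
    intro i c
    rw [hmemD, hmemD]
    constructor
    · rintro ⟨hc, y, hy⟩
      cases hx : (L i).getD c none with
      | some x => exact Or.inl ⟨hc, x, rfl⟩
      | none =>
        right
        rw [hLs] at hy
        obtain ⟨_, u, hu, x, hx', f, hf, _⟩ := labS_new m n p drop β o (L i) c y hx hy
        exact ⟨hc, u, (hmemD i u).2 ⟨hu, x, hx'⟩, List.ne_nil_of_mem hf⟩
    · rintro (⟨hc, x, hx⟩ | ⟨hc, u, hu, hh⟩)
      · refine ⟨hc, x, ?_⟩
        rw [hLs]
        exact labS_keep m n p drop β o (L i) c x hc hx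
      · obtain ⟨hu1, x, hx⟩ := (hmemD i u).1 hu
        refine ⟨hc, ?_⟩
        rw [hLs]
        exact Option.ne_none_iff_exists'.1 (labS_ne m n p drop β o (L i) u c x hu1 hc hx hh)
  have hst : D (N + 1) = D N := by
    apply stab N D (fun S => S ∪ (Finset.range N).filter fun c =>
      ∃ u ∈ S, hop m n p drop β o u c ≠ [])
    · intro i
      exact Finset.filter_subset _ _
    · intro i c hc
      exact (hclosed i c).2 (Or.inl hc)
    · intro i
      ext c
      rw [hclosed, Finset.mem_union]
      apply or_congr Iff.rfl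
      rw [Finset.mem_filter, Finset.mem_range]
  have hfin : labs m n p drop β o = L N := rfl
  rw [hfin]
  have hI : LInv m n p g drop t w β o N (L N) := hinv N
  refine ⟨?_, ?_, ?_, ?_, ?_⟩
  · rw [isL_iff]
    exact ⟨_, hI.q⟩
  · rw [isL_iff]
    exact ⟨_, hI.nu⟩
  · intro c b hcb
    obtain ⟨U, hU⟩ := (isL_iff _ _ _).1 hcb
    obtain ⟨a1, a2, a3, a4, a5, a6, a7⟩ := hI.all c b U hU
    rw [lbW_eq _ _ _ _ hU]
    refine ⟨a2, ?_, a3, a4, a5, a6⟩
    unfold isL
    rw [hU]
    cases b <;> simp
  · intro u v hu hv hh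
    have hu' : ∃ x, (L N).getD u none = some x := by
      rcases hu with hu | hu
      · obtain ⟨U, hU⟩ := (isL_iff _ _ _).1 hu
        exact ⟨_, hU⟩
      · obtain ⟨U, hU⟩ := (isL_iff _ _ _).1 hu
        exact ⟨_, hU⟩
    obtain ⟨x, hx⟩ := hu'
    have huN : u < N := (hI.all u x.1 x.2 hx).1
    have hv1 : v ∈ D (N + 1) := (hclosed N v).2 (Or.inr ⟨hv, u, (hmemD N u).2 ⟨huN, x, hx⟩, hh⟩)
    rw [hst, hmemD] at hv1
    obtain ⟨_, ⟨b, U⟩, hy⟩ := hv1
    cases b
    · right
      rw [isL_iff]
      exact ⟨U, hy⟩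
    · left
      rw [isL_iff]
      exact ⟨U, hy⟩
  · intro σ hσ c b hcb
    obtain ⟨U, hU⟩ := (isL_iff _ _ _).1 hcb
    exact (hI.all c b U hU).2.2.2.2.2.2 σ hσ

end Pool.Agent.Y648.CS
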