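import Pool.Agent.Y648.CS.StmA

set_option autoImplicit false

/-!
# Elementary facts on the subspaces (helper590)
-/

namespace Pool.Agent.Y648.CS

open Pool.Agent.NPC Pool.Agent.H558R2 Pool.Agent.H622R3.SM Pool.Agent.W920.FC

namespace TLSP

theorem mem_Xc {m : ℕ} {drop : List Bool} {c : ℕ} :
    c ∈ Xc m drop ↔ c < m + m ∧ drop.getD c true = false := by
  unfold Xc
  rw [Finset.mem_filter, Finset.mem_range]

theorem nu_nmem (m : ℕ) (drop : List Bool) : m + m + 1 ∉ Xc m drop := fun h => by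
  have := (mem_Xc.1 h).1
  omega

theorem q_nmem (m : ℕ) (drop : List Bool) : m + m ∉ insert (m + m + 1) (Xc m drop) := fun h => by
  rcases Finset.mem_insert.1 h with h | h
  · omega
  · have := (mem_Xc.1 h).1
    omega

theorem sum_Acs (m : ℕ) (drop : List Bool) (f : ℕ → ℝ) :
    ∑ c ∈ Acs m drop, f c = f (m + m) + (f (m + m + 1) + ∑ c ∈ Xc m drop, f c) := by
  unfold Acs
  rw [Finset.sum_insert (q_nmem m drop), Finset.sum_insert (nu_nmem m drop)]

theorem Rb_q (m n p : ℕ) (g : Reg → ℝ) (i : ℕ) :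
    Rb m n p g i (m + m) = if i = n then -1 else 0 := by
  unfold Rb
  rw [if_neg (by omega), if_neg (by omega), if_pos rfl]

theorem Rb_nu (m n p : ℕ) (g : Reg → ℝ) (i : ℕ) :
    Rb m n p g i (m + m + 1) = if i = n + 1 then -1 else 0 := by
  unfold Rb
  rw [if_neg (by omega), if_neg (by omega), if_neg (by omega), if_pos rfl]

theorem Rb_un (m n p : ℕ) (g : Reg → ℝ) (i k : ℕ) :
    Rb m n p g i (m + m + 2 + k) = if k = i then 1 else 0 := by
  unfold Rb
  rw [if_neg (by omega), if_neg (by omega), if_neg (by omega), if_neg (by omega)]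
  by_cases h : k = i
  · rw [if_pos (by omega), if_pos h]
  · rw [if_neg (by omega), if_neg h]

theorem Rb_last (m n p : ℕ) (g : Reg → ℝ) (c : ℕ) (hc : c < m + m) :
    Rb m n p g (n + 1) c = 1 := by
  unfold Rb
  by_cases h : c < m
  · rw [if_pos h, if_neg (by omega), if_neg (by omega)]
  · rw [if_neg h, if_pos hc, if_neg (by omega), if_neg (by omega)]

theorem card_Xc (m : ℕ) (drop : List Bool) : (Xc m drop).card ≤ m + m := by
  unfold Xc
  refine (Finset.card_filter_le _ _).trans ?_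
  rw [Finset.card_range]

/-- `nu`. -/
theorem nu_eq {m n p : ℕ} {g : Reg → ℝ} {drop : List Bool} {x : ℕ → ℝ}
    (hx : x ∈ Lsp m n p g drop) : x (m + m + 1) = ∑ c ∈ Xc m drop, x c := by
  have h : ∑ c ∈ Acs m drop, Rb m n p g (n + 1) c * x c = 0 := hx (n + 1) (by omega)
  rw [sum_Acs, Rb_q, Rb_nu, if_neg (by omega), if_pos rfl] at h
  have h2 : ∑ c ∈ Xc m drop, Rb m n p g (n + 1) c * x c = ∑ c ∈ Xc m drop, x c := by
    refine Finset.sum_congr rfl fun c hc => ?_
    rw [Rb_last _ _ _ _ _ (mem_Xc.1 hc).1, one_mul]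
  rw [h2] at h
  linarith

/-- `q`. -/
theorem q_eq {m n p : ℕ} {g : Reg → ℝ} {drop : List Bool} {x : ℕ → ℝ}
    (hx : x ∈ Lsp m n p g drop) : x (m + m) = ∑ c ∈ Xc m drop, Rb m n p g n c * x c := by
  have h : ∑ c ∈ Acs m drop, Rb m n p g n c * x c = 0 := hx n (by omega)
  rw [sum_Acs, Rb_q, Rb_nu, if_pos rfl, if_neg (by omega)] at h
  linarith

theorem mem_Acs {m : ℕ} {drop : List Bool} {c : ℕ} :
    c ∈ Acs m drop ↔ c = m + m ∨ c = m + m + 1 ∨ c ∈ Xc m drop := by
  unfold Acs
  rw [Finset.mem_insert, Finset.mem_insert]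

theorem Acs_lt {m : ℕ} {drop : List Bool} {c : ℕ} (h : c ∈ Acs m drop) : c < m + m + 2 := by
  rcases mem_Acs.1 h with rfl | rfl | h
  · omega
  · omega
  · have := (mem_Xc.1 h).1
    omega

theorem act_iff (m : ℕ) (drop : List Bool) (c : ℕ) (hc : c < m + m + 2) :
    c ∈ Acs m drop ↔ act m drop c = true := by
  rw [mem_Acs, mem_Xc]
  unfold act
  simp only [Bool.or_eq_true, decide_eq_true_eq, Bool.not_eq_true']
  constructor
  · rintro (rfl | rfl | ⟨h1, h2⟩)
    · exact Or.inl le_rfl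
    · exact Or.inl (by omega)
    · exact Or.inr h2
  · rintro (h | h)
    · omega
    · by_cases h1 : c < m + m
      · exact Or.inr (Or.inr ⟨h1, h⟩)
      · omega

theorem units (m n p : ℕ) (g : Reg → ℝ) (drop : List Bool) :
    Units (cl m n p g) (un m n) (Acs m drop) := by
  refine ⟨?_, ?_, ?_⟩
  · intro k i
    show Rb m n p g i (m + m + 2 + k) = _
    rw [Rb_un]
    by_cases h : i = k
    · subst h
      rw [if_pos rfl, if_pos rfl]
    · rw [if_neg h, if_neg (fun h' => h (Fin.ext h'.symm))]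
  · intro k l h
    have h' : m + m + 2 + (k : ℕ) = m + m + 2 + l := h
    exact Fin.ext (by omega)
  · intro k h
    have h1 := Acs_lt h
    have h2 : un m n k = m + m + 2 + k := rfl
    omega

end TLSP

open TLSP in
/-- Elementary facts on the subspaces. -/
theorem t_LSP : S_LSP := by
  intro m n p g drop
  have hcard := card_Xc m drop
  refine ⟨⟨?_, nu_nmem m drop, by omega, fun x hx => nu_eq hx, fun x hx h => ?_⟩, ?_, ?_,
    units m n p g drop, ?_, fun β => rfl, fun c hc => act_iff m drop c hc⟩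
  · intro h
    have := (mem_Xc.1 h).1
    omega
  · rw [q_eq hx]
    exact Finset.sum_eq_zero fun c hc => by rw [h c hc, mul_zero]
  · unfold cD cK
    omega
  · omega
  · intro x
    constructor
    · intro h i
      exact h i i.2
    · intro h i hi
      exact h ⟨i, hi⟩

end Pool.Agent.Y648.CS
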