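import Pool.Agent.Y648.CS.T_TUP

set_option autoImplicit false

/-!
# Renaming of registers
-/

namespace Pool.Agent.Y648.CS

open Pool.Agent.NPC Pool.Agent.H558R2 Pool.Agent.H622R3.SM Pool.Agent.W920.FC

namespace TREL

open TTUP Pool.Agent.W920.FC.TORD1

theorem reg3 {r : Reg} (h1 : r.length = 3) (h2 : r.headD 0 = 0) :
    r = [0, r.getD 1 0, r.getD 2 0] := by
  match r, h1, h2 with
  | [a, b, c], _, h2 =>
    have : a = 0 := h2
    subst this
    rfl

theorem rl_not {m n : ℕ} {r : Reg} (h : r ∉ baseReg) : rl m n r = 81 :: r := by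
  have h' : ¬ r.headD 0 < 4 := h
  have h1 : ¬ (r.length = 3 ∧ r.headD 0 = 0 ∧ r.getD 1 0 < n + 3 ∧ r.getD 2 0 < m + m + 4) := by
    rintro ⟨-, h2, -⟩
    omega
  have h2 : r ≠ [2] := by
    rintro rfl
    exact h' (by norm_num)
  simp only [rl, if_neg h1, if_neg h2, if_neg h']

theorem rl_base {m n : ℕ} {r : Reg} (h : r ∈ baseReg) :
    (∃ i < n + 3, ∃ c < m + m + 4, r = [0, i, c] ∧ rl m n r = [80, i, c]) ∨
    (r = [2] ∧ rl m n r = [2]) ∨
    (r ≠ [2] ∧ (∀ i < n + 3, ∀ c < m + m + 4, r ≠ [0, i, c]) ∧ rl m n r = [3]) := by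
  have h' : r.headD 0 < 4 := h
  by_cases h1 : r.length = 3 ∧ r.headD 0 = 0 ∧ r.getD 1 0 < n + 3 ∧ r.getD 2 0 < m + m + 4
  · left
    have e := reg3 h1.1 h1.2.1
    refine ⟨r.getD 1 0, h1.2.2.1, r.getD 2 0, h1.2.2.2, e, ?_⟩
    simp only [rl, if_pos h1]
    conv_lhs => rw [e]
    rfl
  · right
    by_cases h2 : r = [2]
    · left
      refine ⟨h2, ?_⟩
      simp only [rl, if_neg h1, if_pos h2]
    · right
      refine ⟨h2, ?_, ?_⟩
      · rintro i hi c hc rfl
        exact h1 ⟨rfl, rfl, hi, hc⟩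
      · simp only [rl, if_neg h1, if_neg h2, if_pos h']

/-- The valuation. -/
noncomputable def val (V V' : Reg → ℝ) : Reg → ℝ
  | 81 :: r => V' r
  | r => V r

theorem val_ne {V V' : Reg → ℝ} {r : Reg} (h : r.headD 0 ≠ 81) : val V V' r = V r := by
  unfold val
  split
  · rename_i r'
    exact absurd rfl h
  · rfl

end TREL

open TREL TTUP Pool.Agent.W920.FC.TORD1

theorem t_REL : S_REL := by
  rintro m n p g g' G Ws q v hg hord hwr hmem ⟨V, hVb, hVe, hVm⟩ hg2 hg0 ⟨qord, V', q1, q2, q3, q4⟩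
  have h2b : ([2] : Reg) ∈ baseReg := by
    change (2 : ℕ) < 4
    norm_num
  have h3b : ([3] : Reg) ∈ baseReg := by
    change (3 : ℕ) < 4
    norm_num
  set T : Set Reg := baseReg ∪ Pool.Agent.W920.FC.wr (preP m n p Ws) with hT
  have hTh : ∀ r ∈ T, r.headD 0 ≠ 81 := by
    rintro r (h | h)
    · have : r.headD 0 < 4 := h
      omega
    · have := hwr r h
      omega
  have hrlT : ∀ r ∈ baseReg, rl m n r ∈ T := by
    intro r hr
    rcases rl_base (m := m) (n := n) hr with ⟨i, hi, c, hc, -, h⟩ | ⟨-, h⟩ | ⟨-, -, h⟩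
    · rw [h]
      exact Or.inr (hmem i hi c hc)
    · rw [h]
      exact Or.inl h2b
    · rw [h]
      exact Or.inl h3b
  have hval : ∀ r, val V V' (rl m n r) = V' r := by
    intro r
    by_cases hr : r ∈ baseReg
    · rw [val_ne (hTh _ (hrlT r hr)), q1 r hr]
      rcases rl_base (m := m) (n := n) hr with ⟨i, hi, c, hc, h0, h⟩ | ⟨h0, h⟩ | ⟨h0, h1, h⟩
      · rw [h, hVm i hi c hc, h0]
      · rw [h, hVb _ h2b, hg.1, h0, hg2]
      · rw [h, hVb _ h3b, hg.2, hg0 r hr h0 h1]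
    · rw [rl_not hr]
      rfl
  refine ⟨?_, val V V', ?_, ?_, ?_, (hval q.2).trans q4⟩
  · change Ord baseReg (preP m n p Ws ++ q.1.map (rlI m n))
    rw [ord_append]
    refine ⟨hord, ?_⟩
    refine ord_ren (rl m n) q.1 baseReg T hrlT ?_ ?_ qord
    · intro r hr h
      rw [rl_not hr] at h
      exact hTh _ h rfl
    · intro r hr r' hr' h
      rw [rl_not hr, rl_not hr'] at h
      simpa using h
  · intro r hr
    rw [val_ne (hTh r (Or.inl hr)), hVb r hr]
  · intro I hI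
    change I ∈ preP m n p Ws ++ q.1.map (rlI m n) at hI
    rcases List.mem_append.1 hI with hI | hI
    · obtain ⟨f1, f2⟩ := ord_opr _ _ hord I hI
      obtain ⟨⟨e1, e2⟩, e3⟩ := hVe I hI
      rw [val_ne (hTh _ f1), val_ne (hTh _ f2), val_ne (hTh I.dst (Or.inr ⟨I, hI, rfl⟩))]
      exact ⟨e1, e2, e3⟩
    · obtain ⟨J, hJ, rfl⟩ := List.mem_map.1 hI
      obtain ⟨e1, e2, e3⟩ := q2 J hJ
      change val V V' (rl m n J.dst) = J.op.eval (val V V' (rl m n J.fst))
        (val V V' (rl m n J.snd)) ∧ (J.op = Op.div → val V V' (rl m n J.snd) ≠ 0) ∧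
        G (val V V' (rl m n J.dst))
      rw [hval, hval, hval]
      exact ⟨e1, e2, e3⟩
  · rcases q3 with h | ⟨J, hJ, h⟩
    · rcases hrlT _ h with h | ⟨I, hI, h⟩
      · exact Or.inl h
      · exact Or.inr ⟨I, List.mem_append_left _ hI, h⟩
    · right
      refine ⟨rlI m n J, List.mem_append_right _ (List.mem_map.2 ⟨J, hJ, rfl⟩), ?_⟩
      change rl m n J.dst = rl m n q.2
      rw [h]

end Pool.Agent.Y648.CS
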