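import Pool.Agent.Y648.CS.T_PRE
import Pool.Agent.Y648.CS.T_REL
import Pool.Agent.W920.FD.T_HVP

set_option autoImplicit false

/-!
# The queries of the perceptron algorithm
-/

namespace Pool.Agent.Y648.CS

open Pool.Agent.NPC Pool.Agent.H558R2 Pool.Agent.H622R3.SM Pool.Agent.W920.FC

namespace TPEQ

open TTUP TPRE Pool.Agent.W920.FD.THVP

/-! ### Lists -/

theorem fa_split {β γ : Type} {R : β → γ → Prop} : ∀ {a : List β} {b : List γ} {c : List β}
    {d : List γ}, a.length = b.length → List.Forall₂ R (a ++ c) (b ++ d) →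
    List.Forall₂ R a b ∧ List.Forall₂ R c d := by
  intro a
  induction a with
  | nil =>
    intro b c d hl h
    cases b with
    | nil => exact ⟨List.Forall₂.nil, h⟩
    | cons y b => simp at hl
  | cons x a ih =>
    intro b c d hl h
    cases b with
    | nil => simp at hl
    | cons y b =>
      cases h with
      | cons h1 h2 =>
        obtain ⟨h3, h4⟩ := ih (by simpa using hl) h2
        exact ⟨List.Forall₂.cons h1 h3, h4⟩

theorem fa_unmap {α β γ : Type} {R : β → γ → Prop} : ∀ {l : List α} {f : α → β} {g : α → γ},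
    List.Forall₂ R (l.map f) (l.map g) → ∀ x ∈ l, R (f x) (g x) := by
  intro l
  induction l with
  | nil => intro f g _ x hx; simp at hx
  | cons a l ih =>
    intro f g h x hx
    cases h with
    | cons h1 h2 =>
      rcases List.mem_cons.1 hx with rfl | hx
      · exact h1
      · exact ih h2 x hx

theorem fa_unflat {α α' β γ : Type} {R : β → γ → Prop} : ∀ {l : List α} {l' : List α'}
    {f : α → α' → β} {g : α → α' → γ},
    List.Forall₂ R (l.flatMap fun r => l'.map (f r)) (l.flatMap fun r => l'.map (g r)) →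
    ∀ x ∈ l, ∀ y ∈ l', R (f x y) (g x y) := by
  intro l
  induction l with
  | nil => intro l' f g _ x hx; simp at hx
  | cons a l ih =>
    intro l' f g h x hx y hy
    rw [List.flatMap_cons, List.flatMap_cons] at h
    obtain ⟨h1, h2⟩ := fa_split (by simp) h
    rcases List.mem_cons.1 hx with rfl | hx
    · exact fa_unmap h1 y hy
    · exact ih h2 x hx y hy

theorem fa_mono {β γ : Type} {R R' : β → γ → Prop} (h : ∀ a b, R a b → R' a b) {l : List β}
    {l' : List γ} (hl : List.Forall₂ R l l') : List.Forall₂ R' l l' := by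
  induction hl with
  | nil => exact List.Forall₂.nil
  | cons h1 _ ih => exact List.Forall₂.cons (h _ _ h1) ih

/-! ### Values -/

theorem hv_mono {g : Reg → ℝ} {G G' : ℝ → Prop} (h : ∀ v, G v → G' v) {q : Qry} {v : ℝ}
    (hq : HasVal g G q v) : HasVal g G' q v := by
  obtain ⟨a1, V, a2, a3, a4, a5⟩ := hq
  exact ⟨a1, V, a2, fun I hI => ⟨(a3 I hI).1, (a3 I hI).2.1, h _ (a3 I hI).2.2⟩, a4, a5⟩

theorem hv_gd {g : Reg → ℝ} {p : Polynomial ℕ} {S : ℕ} {q : Qry} {v : ℝ}
    (hq : HasVal g (Gd p S g) q v) : ∀ lam, RB lam g → QB (p.eval (S + lam) + lam) v := by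
  obtain ⟨a1, V, a2, a3, a4, a5⟩ := hq
  intro lam hlam
  rw [← a5]
  rcases a4 with h | ⟨I, hI, h⟩
  · rw [a2 _ h]
    exact QB_mono (by omega) (QB_base hlam h)
  · rw [← h]
    exact QB_mono (by omega) ((a3 I hI).2.2 lam hlam)

theorem QB_add {a b : ℕ} {v w : ℝ} (hv : QB a v) (hw : QB b w) : QB (a + b + 1) (v + w) := by
  obtain ⟨E, z, h1, h2, h3, h4⟩ := hv
  obtain ⟨E', z', h1', h2', h3', h4'⟩ := hw
  refine ⟨E * E', z * E' + z' * E, Nat.mul_pos h1 h1', ?_, ?_, ?_⟩
  · rw [pow_add, pow_add]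
    exact (Nat.mul_le_mul h2 h2').trans (Nat.le_mul_of_pos_right _ (by norm_num))
  · have e1 : (z * E').natAbs ≤ 2 ^ a * 2 ^ b := by
      rw [Int.natAbs_mul]; exact Nat.mul_le_mul h3 (by simpa using h2')
    have e2 : (z' * E).natAbs ≤ 2 ^ a * 2 ^ b := by
      rw [Int.natAbs_mul, mul_comm (2 ^ a)]; exact Nat.mul_le_mul h3' (by simpa using h2)
    have e3 := Int.natAbs_add_le (z * E') (z' * E)
    rw [pow_add, pow_add]
    omega
  · push_cast
    rw [← h4, ← h4']
    ring

theorem QB_sub {a b : ℕ} {v w : ℝ} (hv : QB a v) (hw : QB b w) : QB (a + b + 1) (v - w) := by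
  rw [sub_eq_add_neg]
  exact QB_add hv (QB_neg hw)

theorem vok1 (S : ℕ) (g : Reg → ℝ) (hg : Base g) :
    Pool.Agent.W920.FD.VOK 1 S g V1 (fun _ => 1) := by
  refine ⟨trivial, ?_, ?_, by simp [V1], by simp [V1], by simp [V1], ⟨g, fun _ _ => rfl, ?_, ?_⟩, ?_⟩
  · rintro r ⟨I, hI, -⟩
    simp [V1] at hI
  · intro r hr
    simp only [V1, List.mem_singleton] at hr
    left
    rw [hr]
    exact b2
  · intro I hI
    simp [V1] at hI
  · intro l hl
    have : l = 0 := by simp [V1] at hl; exact hl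
    subst this
    exact hg.1
  · intro lam _
    refine ⟨1, le_rfl, Nat.one_le_two_pow, fun l _ => ⟨1, ?_, by simp⟩⟩
    simp

end TPEQ

open TPEQ TTUP TPRE TREL Pool.Agent.W920.FD.THVP

theorem t_ALLQ : Pool.Agent.W920.FD.S_HVP → S_CMB → S_TWO → S_ALLQ := by
  intro hH hC h2
  obtain ⟨q1, hq1⟩ := hH 1 0
  set q2 : Polynomial ℕ := q1.comp (2 * Polynomial.X + 7) with hq2
  set q3 : Polynomial ℕ := 2 * q2 + 2 * Polynomial.X + 5 with hq3
  set q : Polynomial ℕ := q3 + (q2 + (4 * Polynomial.X + 13) * (4 * Polynomial.X + 12) *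
    (2 * q2 + 6)) with hq
  have e2 : ∀ x, q2.eval x = q1.eval (2 * x + 7) := fun x => by
    rw [hq2, Polynomial.eval_comp]
    simp only [Polynomial.eval_add, Polynomial.eval_mul, Polynomial.eval_X, Polynomial.eval_ofNat]
  have e3 : ∀ x, q3.eval x = 2 * q2.eval x + 2 * x + 5 := fun x => by
    rw [hq3]
    simp only [Polynomial.eval_add, Polynomial.eval_mul, Polynomial.eval_X, Polynomial.eval_ofNat]
  have e4 : ∀ x, q.eval x = q3.eval x + (q2.eval x + (4 * x + 13) * (4 * x + 12) *
      (2 * q2.eval x + 6)) := fun x => by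
    rw [hq]
    simp only [Polynomial.eval_add, Polynomial.eval_mul, Polynomial.eval_X, Polynomial.eval_ofNat]
  refine ⟨q, fun m n g drop y hg hy => ?_⟩
  have hK : cD m n = cK (n + 3) (m + m + 4) := rfl
  -- the base queries
  obtain ⟨f1, f2⟩ := hq1 (n + 3) (m + m + 4) g V1 (fun _ => 1) (L1 m n) (drK m n drop) y hg
    (vok1 _ g hg) (by
      intro u hu
      rw [L1, List.mem_replicate] at hu
      rw [hu.2]
      constructor <;> intro x hx <;> simp at hx <;> subst hx <;> simp)
    (by rw [L1, List.length_replicate]; rfl) (by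
      intro u hu
      rw [L1, List.mem_replicate] at hu
      rw [hu.2]
      simp [evF, V1]) hy
  have hG : GMat (n + 3) (m + m + 4) g
      (fun j => rt V1.2.length (fun _ => 1) ((L1 m n).getD j ([], []))) (drK m n drop) =
      GMat (n + 3) (m + m + 4) g (fun _ => 1) (drK m n drop) := by
    have hrt : ∀ j, j < cK (n + 3) (m + m + 4) →
        rt V1.2.length (fun _ => 1) ((L1 m n).getD j ([], [])) = 1 := by
      intro j hj
      have : (L1 m n).getD j ([], []) = ([1], [1]) := by
        rw [L1, List.getD_eq_getElem?_getD, List.getElem?_replicate, if_pos (by rw [hK]; exact hj)]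
        rfl
      rw [this]
      simp [rt, evF, V1]
    funext j l
    unfold GMat
    beta_reduce
    rw [hrt j j.2, hrt l l.2]
  rw [hG] at f1
  set GG := GMat (n + 3) (m + m + 4) g (fun _ => 1) (drK m n drop) with hGG
  have hgd : ∀ v, Gd q1 (n + 3 + (m + m + 4)) g v → Gd q2 (m + n) g v := by
    intro v hv lam hlam
    refine QB_mono ?_ (hv lam hlam)
    rw [e2]
    exact eval_mono q1 (by omega)
  have f1' := fa_mono (fun a b hab => hv_mono hgd hab) f1
  obtain ⟨f3, f4⟩ := fa_split (by simp) f1'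
  have hc : ∀ k < cD m n, HasVal g (Gd q2 (m + n) g)
      (Pool.Agent.W920.FD.cQ V1 (n + 3) (m + m + 4) (L1 m n) (drK m n drop) k) (cVal GG k) :=
    fun k hk => fa_unmap f3 k (List.mem_range.2 hk)
  have hd : ∀ r < cD m n + 1, ∀ j < cD m n, HasVal g (Gd q2 (m + n) g)
      (Pool.Agent.W920.FD.dQ V1 (n + 3) (m + m + 4) (L1 m n) (drK m n drop) y r j)
      (dVal GG y r j) :=
    fun r hr j hj => fa_unflat f4 r (List.mem_range.2 hr) j (List.mem_range.2 hj)
  have hle : ∀ Q ∈ Pool.Agent.W920.FD.perQs V1 (n + 3) (m + m + 4) (L1 m n) (drK m n drop) y,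
      Q.1.length + 1 ≤ q2.eval (m + n) := by
    intro Q hQ
    refine (List.single_le_sum (by simp) _ (List.mem_map.2 ⟨Q, hQ, rfl⟩)).trans (f2.trans ?_)
    rw [e2]
    exact eval_mono q1 (by omega)
  have hcl : ∀ k < cD m n,
      (Pool.Agent.W920.FD.cQ V1 (n + 3) (m + m + 4) (L1 m n) (drK m n drop) k).1.length ≤
        q2.eval (m + n) := by
    intro k hk
    have := hle _ (List.mem_append_left _ (List.mem_map.2 ⟨k, List.mem_range.2 hk, rfl⟩))
    omega
  have hdl : ∀ r < cD m n + 1, ∀ j < cD m n,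
      (Pool.Agent.W920.FD.dQ V1 (n + 3) (m + m + 4) (L1 m n) (drK m n drop) y r j).1.length ≤
        q2.eval (m + n) := by
    intro r hr j hj
    have := hle _ (List.mem_append_right _ (List.mem_flatMap.2 ⟨r, List.mem_range.2 hr,
      List.mem_map.2 ⟨j, List.mem_range.2 hj, rfl⟩⟩))
    omega
  have hg3 : ∀ v, Gd q2 (m + n) g v → Gd q3 (m + n) g v := fun v hv lam hlam =>
    QB_mono (by rw [e3]; omega) (hv lam hlam)
  -- the margin queries
  have htwo := h2 g (Gd q3 (m + n) g) 2 hg (fun t ht lam _ => QB_pow t _ (by rw [e3]; omega))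
  have hmr : ∀ r < cD m n + 1, ∀ j < cD m n,
      HasVal g (Gd q3 (m + n) g) (mrQ m n drop y r j) (mVal GG y r j) ∧
      (mrQ m n drop y r j).1.length ≤ 2 * q2.eval (m + n) + 5 := by
    intro r hr j hj
    have hd1 := hd r hr j hj
    have hd2 : ∀ lam, RB lam g → QB (2 + (q2.eval (m + n + lam) + lam)) (2 ^ 2 * dVal GG y r j) :=
      fun lam hlam => QB_mul (QB_pow 2 2 le_rfl) (hv_gd hd1 lam hlam)
    obtain ⟨g1, g2⟩ := hC g (Gd q3 (m + n) g) Op.mul _ _ _ _ htwo.1 (hv_mono hg3 hd1)
      (by simp) (fun lam hlam => QB_mono (by rw [e3]; omega) (hd2 lam hlam))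
    have hdl1 := hdl r hr j hj
    by_cases hr0 : r = 0
    · subst hr0
      have hone : HasVal g (Gd q3 (m + n) g) oneQ 1 :=
        ⟨trivial, g, fun _ _ => rfl, fun I hI => by simp [oneQ] at hI, Or.inl b2, hg.1⟩
      obtain ⟨g3, g4⟩ := hC g (Gd q3 (m + n) g) Op.sub _ _ _ _ g1 hone (by simp)
        (fun lam hlam => QB_mono (by rw [e3]; omega) (QB_sub (hd2 lam hlam) (QB_one 0)))
      refine ⟨?_, ?_⟩
      · simp only [mrQ, mVal, if_true]
        exact g3
      · simp only [mrQ, if_true]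
        rw [g4, g2, htwo.2]
        simp only [oneQ, List.length_nil]
        omega
    · have hc1 := hc (r - 1) (by omega)
      obtain ⟨g3, g4⟩ := hC g (Gd q3 (m + n) g) Op.add _ _ _ _ g1 (hv_mono hg3 hc1) (by simp)
        (fun lam hlam => QB_mono (by rw [e3]; omega) (QB_add (hd2 lam hlam) (hv_gd hc1 lam hlam)))
      have hcl1 := hcl (r - 1) (by omega)
      refine ⟨?_, ?_⟩
      · simp only [mrQ, mVal, if_neg hr0]
        exact g3
      · simp only [mrQ, if_neg hr0]
        rw [g4, g2, htwo.2]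
        omega
  have hgq : ∀ v, Gd q3 (m + n) g v → Gd q (m + n) g v := fun v hv lam hlam =>
    QB_mono (by rw [e4]; omega) (hv lam hlam)
  refine ⟨?_, ?_⟩
  · refine fa_app _ (fa_mono (fun a b hab => hv_mono hgq (hv_mono hg3 hab)) f1')
      (fa_flatMap _ _ _ _ fun r hr => fa_map _ _ _ _ fun j hj => hv_mono hgq
        (hmr r (List.mem_range.1 hr) j (List.mem_range.1 hj)).1)
  · rw [allQs, List.map_append, List.sum_append, e4]
    have g1 : ((Pool.Agent.W920.FD.perQs V1 (n + 3) (m + m + 4) (L1 m n) (drK m n drop) y).map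
        fun q => q.1.length + 1).sum ≤ q2.eval (m + n) := by
      refine f2.trans ?_
      rw [e2]
      exact eval_mono q1 (by omega)
    have g2 : ((((List.range (cD m n + 1)).flatMap fun r => (List.range (cD m n)).map fun j =>
        mrQ m n drop y r j)).map fun q => q.1.length + 1).sum ≤
        (cD m n + 1) * cD m n * (2 * q2.eval (m + n) + 6) := by
      refine (List.sum_le_card_nsmul _ (2 * q2.eval (m + n) + 6) ?_).trans ?_
      · intro x hx
        obtain ⟨Q, hQ, rfl⟩ := List.mem_map.1 hx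
        obtain ⟨r, hr, hQ⟩ := List.mem_flatMap.1 hQ
        obtain ⟨j, hj, rfl⟩ := List.mem_map.1 hQ
        have := (hmr r (List.mem_range.1 hr) j (List.mem_range.1 hj)).2
        omega
      · simp [List.length_flatMap]
    have g3 : cD m n ≤ 4 * (m + n) + 12 := by
      simp only [cD, cK]
      omega
    have g4 : (cD m n + 1) * cD m n * (2 * q2.eval (m + n) + 6) ≤
        (4 * (m + n) + 13) * (4 * (m + n) + 12) * (2 * q2.eval (m + n) + 6) :=
      Nat.mul_le_mul_right _ (Nat.mul_le_mul (by omega) g3)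
    omega

theorem t_PEQ : S_PRE → S_REL → S_ALLQ → S_PEQ := by
  intro hP hR hA pB
  obtain ⟨qp, hqp⟩ := hP pB
  obtain ⟨qa, hqa⟩ := hA
  set q : Polynomial ℕ := qp + qa.comp (Polynomial.X + qp) + (qa * qp + qa) with hq
  have e1 : ∀ x, q.eval x = qp.eval x + qa.eval (x + qp.eval x) +
      (qa.eval x * qp.eval x + qa.eval x) := fun x => by
    rw [hq]
    simp only [Polynomial.eval_add, Polynomial.eval_mul, Polynomial.eval_comp, Polynomial.eval_X]
  refine ⟨q, fun m n p g drop Ws y hg hWs hy => ?_⟩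
  obtain ⟨c1, c2, c3, ⟨V, c4, c5, c6⟩, c7, c8⟩ := hqp m n p g Ws hg hWs
  set g' := gW m n p g (wV m n g Ws) with hg'
  have hgb : Base g' := by
    constructor <;> simp [hg', gW]
  obtain ⟨d1, d2⟩ := hqa m n g' drop y hgb hy
  have hgd : ∀ v, Gd qa (m + n) g' v → Gd q (m + n) g v := by
    intro v hv lam hlam
    refine QB_mono ?_ (hv _ (c8 lam hlam))
    rw [e1]
    have := eval_mono qa (show m + n + qp.eval (m + n + lam) ≤ m + n + lam +
      qp.eval (m + n + lam) by omega)
    omega
  have hgp : ∀ v, Gd qp (m + n) g v → Gd q (m + n) g v := fun v hv lam hlam =>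
    QB_mono (by rw [e1]; omega) (hv lam hlam)
  have hg0 : ∀ r ∈ baseReg, r ≠ [2] → (∀ i < n + 3, ∀ c < m + m + 4, r ≠ [0, i, c]) →
      g' r = 0 := by
    intro r _ h1 h2
    rw [hg', gW, if_neg, if_neg h1]
    rintro ⟨h3, h4, h5, h6⟩
    exact h2 _ h5 _ h6 (reg3 h3 h4)
  have hgi : ∀ i < n + 3, ∀ c < m + m + 4, V [80, i, c] = g' [0, i, c] := by
    intro i hi c hc
    rw [c6 i hi c hc, hg']
    simp only [gW]
    rw [if_pos ⟨by simp, by simp, by simpa using hi, by simpa using hc⟩]
    simp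
  have hg2 : g' [2] = 1 := hgb.1
  have key : ∀ (Q : Qry) (v : ℝ), HasVal g' (Gd qa (m + n) g') Q v →
      HasVal g (Gd q (m + n) g) (reQ m n p Ws Q) v := by
    intro Q v hQ
    exact hR m n p g g' (Gd q (m + n) g) Ws Q v hg c1 c2 c3
      ⟨V, c4, fun I hI => ⟨(c5 I hI).1, hgp _ (c5 I hI).2⟩, hgi⟩ hg2 hg0 (hv_mono hgd hQ)
  refine ⟨?_, ?_⟩
  · rw [peQs, List.forall₂_map_left_iff]
    exact fa_mono key d1
  · have hlen : ∀ l : List Qry, ((l.map (reQ m n p Ws)).map fun q => q.1.length + 1).sum =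
        l.length * (preP m n p Ws).length + (l.map fun q => q.1.length + 1).sum := by
      intro l
      induction l with
      | nil => simp
      | cons a l ih =>
        simp only [List.map_cons, List.sum_cons, List.length_cons] at ih ⊢
        rw [ih]
        simp only [reQ, List.length_append, List.length_map]
        ring
    have hcount : ∀ l : List Qry, l.length ≤ (l.map fun q => q.1.length + 1).sum := by
      intro l
      induction l with
      | nil => simp
      | cons a l ih =>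
        simp only [List.map_cons, List.sum_cons, List.length_cons]
        omega
    rw [peQs, hlen, e1]
    have h1 : (allQs m n drop y).length * (preP m n p Ws).length ≤
        qa.eval (m + n) * qp.eval (m + n) :=
      Nat.mul_le_mul ((hcount _).trans d2) c7
    omega

end Pool.Agent.Y648.CS
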