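import Pool.Agent.Y648.CS.StmM
import Pool.Agent.W920.FC.T_PROJ
import Pool.Agent.W920.FC.T_PERC

set_option autoImplicit false

/-!
# The perceptron algorithm with margins (job M7)
-/

namespace Pool.Agent.Y648.CS

open Pool.Agent.NPC Pool.Agent.H558R2 Pool.Agent.H622R3.SM Pool.Agent.W920.FC Matrix

namespace TPERM

open Pool.Agent.W920.FC.TPROJ

lemma len_per {K : ℕ} (G : Matrix (Fin K) (Fin K) ℝ) (y : List ℕ) :
    ((perVals G y).map signOut).length = K + (K + 1) * K := by
  unfold perVals
  rw [List.length_map, List.length_append, length_block]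
  simp

lemma a_lt {K : ℕ} (G : Matrix (Fin K) (Fin K) ℝ) (y : List ℕ) (k : ℕ) (hk : k < K + (K + 1) * K) :
    ((alV G y).map signOut).getD k none = ((perVals G y).map signOut).getD k none := by
  unfold alV
  rw [List.map_append, List.getD_append _ _ _ _ (by rw [len_per]; exact hk)]

lemma a_c {K : ℕ} (G : Matrix (Fin K) (Fin K) ℝ) (y : List ℕ) (k : ℕ) (hk : k < K) :
    ((alV G y).map signOut).getD k none = signOut (cVal G k) := by
  rw [a_lt G y k (by omega), o_c G y k hk]

lemma a_d {K : ℕ} (G : Matrix (Fin K) (Fin K) ℝ) (y : List ℕ) (r j : ℕ) (hr : r < K + 1)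
    (hj : j < K) :
    ((alV G y).map signOut).getD (K + (r * K + j)) none = signOut (dVal G y r j) := by
  have h : r * K + j < (K + 1) * K := by
    calc r * K + j < r * K + K := by omega
      _ = (r + 1) * K := by ring
      _ ≤ (K + 1) * K := Nat.mul_le_mul_right _ (by omega)
  rw [a_lt G y _ (by omega), o_d G y r j hr hj]

lemma a_m {K : ℕ} (G : Matrix (Fin K) (Fin K) ℝ) (y : List ℕ) (r j : ℕ) (hr : r < K + 1)
    (hj : j < K) :
    ((alV G y).map signOut).getD (K + (K + 1) * K + (r * K + j)) none =
      signOut (mVal G y r j) := by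
  unfold alV
  rw [List.map_append, List.getD_append_right _ _ _ _ (by rw [len_per]; omega), len_per]
  have : K + (K + 1) * K + (r * K + j) - (K + (K + 1) * K) = r * K + j := by omega
  rw [this, List.map_flatMap]
  simp only [List.map_map]
  exact getD_block (fun r j => signOut (mVal G y r j)) none K (K + 1) r hr j hj

lemma sg_nonpos (x : ℝ) : ((SignType.sign x : ℤ) ≤ 0 ↔ x ≤ 0) := by
  rcases lt_trichotomy x 0 with h | h | h
  · simp [h, sign_neg h, h.le]
  · simp [h]
  · simp [h, sign_pos h]

theorem prm : S_PRM := by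
  intro K G y hG
  set o := (alV G y).map signOut with ho
  obtain ⟨r, h1, h2, h3, h4⟩ := rk_spec (fun k' => decide (o.getD k' none ≠ none)) K
  have hr : rkOf K o = r := h1
  have hz : ∀ k, r ≤ k → k < K → cVal G k = 0 := by
    intro k hk hk2
    have := h3 k hk hk2
    rw [ho, a_c G y k hk2] at this
    simp only [decide_eq_false_iff_not, signOut_ne, not_not] at this
    exact this
  have hker : G * flN G r = 0 := by
    have e := flN_chain G r hz (K - r) (by omega)
    rw [show r + (K - r) = K by omega, flN_top] at e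
    rcases Nat.lt_or_ge r K with h | h
    · obtain ⟨t, ht⟩ : ∃ t, K - r = t + 1 := ⟨K - r - 1, by omega⟩
      rw [ht] at e
      exact pow_mul_zero G hG _ t e.symm
    · have : r = K := by omega
      rw [this, flN_top, Matrix.mul_zero]
  set yy : Fin K → ℝ := fun j => ((y.getD j 0 : ℕ) : ℝ) with hyy
  rcases h4 with h4 | ⟨h4, h5⟩
  · -- the matrix is zero
    subst h4
    have hG0 : G = 0 := by simpa [flN] using hker
    refine ⟨yy, ⟨by rw [hG0]; simp, 0, by intro j; simp⟩, ?_⟩
    intro j
    have hd0 : dVal G y 0 j = yy j := by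
      rw [dVal_eq]
      simp [flN, hyy]
    have hd : zOf K o j = (SignType.sign (yy j) : ℤ) := by
      unfold zOf
      rw [hr, if_pos rfl, one_mul, ho, a_d G y 0 j (by omega) j.2, osg_signOut, hd0]
    have hm : mOf K o j = (SignType.sign (2 ^ 2 * yy j - 1) : ℤ) := by
      unfold mOf
      rw [hr, if_pos rfl, one_mul, ho, a_m G y 0 j (by omega) j.2, osg_signOut]
      unfold mVal
      rw [if_pos rfl, hd0]
    refine ⟨?_, ?_, ?_⟩
    · rw [hd]
      rcases lt_trichotomy (yy j) 0 with h | h | h
      · simp [h, sign_neg h, h.not_gt]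
      · simp [h]
      · simp [h, sign_pos h]
    · rw [hd]
      rcases lt_trichotomy (yy j) 0 with h | h | h
      · simp [h, sign_neg h]
      · simp [h]
      · simp [h, sign_pos h, h.not_gt]
    · rw [hm, sg_nonpos]
      constructor <;> intro h <;> linarith
  · have hrK : r - 1 < K := by omega
    have hc : cVal G (r - 1) ≠ 0 := by
      rw [ho] at h5
      simp only [a_c G y (r - 1) hrK, decide_eq_true_eq, signOut_ne] at h5
      exact h5
    set c := cVal G (r - 1) with hcdef
    have hfl : flN G r = G * flN G (r - 1) - c • 1 := by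
      obtain ⟨s, rfl⟩ : ∃ s, r = s + 1 := ⟨r - 1, by omega⟩
      rw [flN, hcdef, cVal_eq]
      simp
    refine ⟨fun j => -(1 / c) * (flN G r *ᵥ yy) j, ⟨?_, fun l => (1 / c) * (flN G (r - 1) *ᵥ yy) l,
      ?_⟩, ?_⟩
    · have : (fun j => -(1 / c) * (flN G r *ᵥ yy) j) = (-(1 / c)) • (flN G r *ᵥ yy) := by
        ext j; simp
      rw [this, mulVec_smul, mulVec_mulVec, hker, zero_mulVec, smul_zero]
    · intro j
      have : (fun l => (1 / c) * (flN G (r - 1) *ᵥ yy) l) = (1 / c) • (flN G (r - 1) *ᵥ yy) := by
        ext j; simp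
      rw [this, mulVec_smul, mulVec_mulVec]
      simp only [Pi.smul_apply, smul_eq_mul]
      rw [hfl, sub_mulVec, Pi.sub_apply, smul_mulVec, one_mulVec, Pi.smul_apply, smul_eq_mul]
      field_simp
      ring
    · intro j
      have hd : zOf K o j = - (SignType.sign c : ℤ) * (SignType.sign ((flN G r *ᵥ yy) j) : ℤ) := by
        unfold zOf
        rw [hr, if_neg (by omega), ho, a_c G y (r - 1) hrK, a_d G y r j (by omega) j.2,
          osg_signOut, osg_signOut, dVal_eq]
      have hm : mOf K o j = - (SignType.sign c : ℤ) *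
          (SignType.sign (2 ^ 2 * (flN G r *ᵥ yy) j + c) : ℤ) := by
        unfold mOf
        rw [hr, if_neg (by omega), ho, a_c G y (r - 1) hrK, a_m G y r j (by omega) j.2,
          osg_signOut, osg_signOut]
        unfold mVal
        rw [if_neg (by omega), dVal_eq]
      set d := (flN G r *ᵥ yy) j with hdd
      refine ⟨?_, ?_, ?_⟩
      · rw [hd]; exact (sgn_lem c d hc).1
      · rw [hd]; exact (sgn_lem c d hc).2
      · rw [hm, ← not_lt, (sgn_lem c (2 ^ 2 * d + c) hc).1, not_lt]
        have e : -(1 / c) * (2 ^ 2 * d + c) = 4 * (-(1 / c) * d) - 1 := by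
          field_simp
          ring
        rw [e]
        constructor <;> intro h <;> linarith

/-- one step of the projections -/
theorem stp (K : ℕ) (G : Matrix (Fin K) (Fin K) ℝ) (y y' z z' : Fin K → ℝ) (j : Fin K)
    (hG : G.IsSymm) (hz : IsPr G y z) (hz' : IsPr G y' z')
    (hy : ∀ l, y' l = y l + if l = j then 1 else 0) (hzj : z j ≤ 1 / 4) :
    ∑ l, z' l ^ 2 ≤ ∑ l, z l ^ 2 + 3 / 2 := by
  obtain ⟨hGz, u, hu⟩ := hz
  obtain ⟨hGz', u', hu'⟩ := hz'
  set p : Fin K → ℝ := z' - z with hp
  have hGp : G.mulVec p = 0 := by rw [hp, Matrix.mulVec_sub, hGz, hGz', sub_zero]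
  have hrange : ∀ l, (if l = j then (1 : ℝ) else 0) - p l = G.mulVec (u' - u) l := by
    intro l
    rw [Matrix.mulVec_sub, Pi.sub_apply, ← hu', ← hu, hy l, hp, Pi.sub_apply]
    ring
  have key : ∀ t : Fin K → ℝ, G.mulVec t = 0 → t j = ∑ l, t l * p l := by
    intro t ht
    have h1 : t ⬝ᵥ G.mulVec (u' - u) = 0 := by
      rw [Matrix.dotProduct_mulVec, ← Matrix.mulVec_transpose, hG.eq, ht, zero_dotProduct]
    have h2 : ∑ l, t l * ((if l = j then (1 : ℝ) else 0) - p l) = 0 := by
      refine Eq.trans ?_ h1
      exact Finset.sum_congr rfl fun l _ => by rw [hrange]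
    simp only [mul_sub] at h2
    rw [Finset.sum_sub_distrib] at h2
    simp only [mul_ite, mul_one, mul_zero, Finset.sum_ite_eq', Finset.mem_univ, if_true] at h2
    linarith
  have h1 := key z hGz
  have h2 := key p hGp
  have h3 : p j ^ 2 ≤ ∑ l, p l * p l := by
    rw [sq]
    exact Finset.single_le_sum (f := fun l => p l * p l) (fun l _ => mul_self_nonneg _)
      (Finset.mem_univ j)
  have h4 : p j ≤ 1 := by nlinarith
  have h5 : ∑ l, z' l ^ 2 = ∑ l, z l ^ 2 + 2 * ∑ l, z l * p l + ∑ l, p l * p l := by
    rw [Finset.mul_sum, ← Finset.sum_add_distrib, ← Finset.sum_add_distrib]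
    refine Finset.sum_congr rfl fun l _ => ?_
    rw [hp, Pi.sub_apply]; ring
  rw [h5, ← h1, ← h2]
  linarith

theorem step (K : ℕ) (G : Matrix (Fin K) (Fin K) ℝ) (ts : List Bool) (i : ℕ) :
    (bdM K ts ((alV G (pSt K G ts i).1).map signOut) = [] ∧
      pSt K G ts (i + 1) = ((pSt K G ts i).1, true)) ∨
    ∃ j, j < K ∧ ts.getD j false = true ∧
      mOf K ((alV G (pSt K G ts i).1).map signOut) j ≤ 0 ∧
      bdM K ts ((alV G (pSt K G ts i).1).map signOut) ≠ [] ∧
      pSt K G ts (i + 1) = (bump (pSt K G ts i).1 K j, (pSt K G ts i).2) := by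
  have h0 : pSt K G ts (i + 1) = pUpd K ts (pSt K G ts i)
      ((alV G (pSt K G ts i).1).map signOut) := rfl
  rw [h0]
  set o := (alV G (pSt K G ts i).1).map signOut with ho
  unfold pUpd
  rcases hb : bdM K ts o with _ | ⟨j, t⟩
  · left
    exact ⟨rfl, by simp⟩
  · right
    have hj : j ∈ bdM K ts o := by rw [hb]; simp
    unfold bdM at hj
    rw [List.mem_filter, List.mem_range] at hj
    obtain ⟨h1, h2⟩ := hj
    rw [Bool.and_eq_true, decide_eq_true_eq] at h2
    exact ⟨j, h1, h2.1, h2.2, by simp, by simp⟩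

lemma filt_len (p : ℕ → Bool) (K : ℕ) :
    ((((List.range K).filter p).length : ℕ) : ℝ) =
      ∑ l ∈ Finset.range K, if p l = true then (1:ℝ) else 0 := by
  induction K with
  | zero => simp
  | succ K ih =>
    rw [List.range_succ, List.filter_append, List.length_append, Finset.sum_range_succ, ← ih]
    push_cast
    congr 1
    by_cases h : p K = true
    · simp [h]
    · simp [h]

end TPERM

open TPERM Pool.Agent.W920.FC.TPERC

theorem t_PRM : S_PRM := prm

theorem t_PERM : S_PRM → S_PERM := by
  intro hprm K G ts dr hK hG hdr htd hhalf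
  set T : ℕ := 4 * (K * (K * K)) with hT
  have hKr : (1 : ℝ) ≤ K := by exact_mod_cast hK
  choose z hz1 hz2 using fun y : List ℕ => hprm K G y hG
  -- sizes
  have hsz : ∀ i l, (pSt K G ts i).1.getD l 0 ≤ i := by
    intro i
    induction i with
    | zero =>
      intro l
      show ((List.range K).map fun _ => 0).getD l 0 ≤ 0
      rw [getD_zero]
    | succ i ih =>
      intro l
      rcases step K G ts i with ⟨-, h1⟩ | ⟨j, -, -, -, -, h1⟩
      · rw [h1]
        exact (ih l).trans (by omega)
      · rw [h1]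
        show (bump _ _ _).getD l 0 ≤ _
        rw [getD_bump]
        have := ih l
        split_ifs <;> omega
  -- the coordinates which are not tested
  have hnt : ∀ i l, ts.getD l false = false → (pSt K G ts i).1.getD l 0 = 0 := by
    intro i
    induction i with
    | zero =>
      intro l _
      exact getD_zero _ _
    | succ i ih =>
      intro l hl
      rcases step K G ts i with ⟨-, h1⟩ | ⟨j, -, hj, -, -, h1⟩
      · rw [h1]
        exact ih l hl
      · rw [h1]
        show (bump _ _ _).getD l 0 = _
        rw [getD_bump]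
        have h2 := ih l hl
        have h3 : l ≠ j := by
          intro h
          rw [h, hj] at hl
          simp at hl
        rw [if_neg h3, h2]
        simp
  -- the norms
  have hsymm : ∀ u v : Fin K → ℝ, ∑ l, u l * G.mulVec v l = ∑ l, G.mulVec u l * v l := by
    intro u v
    have h1 : u ⬝ᵥ G.mulVec v = G.mulVec u ⬝ᵥ v := by
      rw [Matrix.dotProduct_mulVec, ← Matrix.mulVec_transpose, hG.eq]
    exact h1
  have hnorm : ∀ i, ∑ l, z (pSt K G ts i).1 l ^ 2 ≤ 3 / 2 * (i : ℝ) := by
    intro i
    induction i with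
    | zero =>
      obtain ⟨hk, u, hu⟩ := hz1 (pSt K G ts 0).1
      set Z := z (pSt K G ts 0).1 with hZ
      have h1 : ∀ l, G.mulVec u l = - Z l := by
        intro l
        rw [← hu l]
        have h2 : (pSt K G ts 0).1.getD l 0 = 0 := getD_zero _ _
        show (((pSt K G ts 0).1.getD l 0 : ℕ) : ℝ) - Z l = -Z l
        rw [h2]
        simp
      have h3 := hsymm Z u
      have h4 : ∑ l, G.mulVec Z l * u l = 0 := by
        rw [hk]
        simp
      rw [h4] at h3
      have h5 : ∑ l, Z l * G.mulVec u l = - ∑ l, Z l ^ 2 := by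
        rw [← Finset.sum_neg_distrib]
        exact Finset.sum_congr rfl fun l _ => by rw [h1 l]; ring
      rw [h5] at h3
      simp only [Nat.cast_zero]
      linarith
    | succ i ih =>
      rcases step K G ts i with ⟨-, h1⟩ | ⟨j, hj, hts, hm, -, h1⟩
      · rw [h1]
        push_cast
        linarith
      · have h2 := stp K G
          (fun l => (((pSt K G ts i).1.getD l 0 : ℕ) : ℝ))
          (fun l => (((pSt K G ts (i + 1)).1.getD l 0 : ℕ) : ℝ))
          (z (pSt K G ts i).1) (z (pSt K G ts (i + 1)).1) ⟨j, hj⟩ hG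
          (hz1 _) (hz1 _) ?_ ?_
        · push_cast
          linarith
        · intro l
          rw [h1]
          show (((bump (pSt K G ts i).1 K j).getD l 0 : ℕ) : ℝ) = _
          rw [getD_bump, if_pos l.2]
          by_cases hlj : (l : ℕ) = j
          · rw [if_pos hlj, if_pos (Fin.ext hlj)]
            push_cast
            rfl
          · rw [if_neg hlj, if_neg (fun h => hlj (congrArg Fin.val h)), add_zero]
        · exact ((hz2 (pSt K G ts i).1 ⟨j, hj⟩).2.2).1 hm
  have hnormT := hnorm T
  have hTr : ((T : ℕ) : ℝ) = 4 * (K : ℝ) ^ 3 := by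
    rw [hT]; push_cast; ring
  rw [hTr] at hnormT
  refine ⟨hsz, ?_, ?_⟩
  · -- success
    have hfl : ∀ i, (pSt K G ts i).2 = true →
        bdM K ts ((alV G (pSt K G ts i).1).map signOut) = [] := by
      intro i
      induction i with
      | zero =>
        intro h
        exact absurd h (by simp [pSt])
      | succ i ih =>
        intro h
        rcases step K G ts i with ⟨h2, h1⟩ | ⟨j, -, -, -, hne, h1⟩
        · rw [h1]
          exact h2
        · rw [h1] at h
          exact absurd (ih h) hne
    intro h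
    have hb := hfl T h
    refine ⟨z (pSt K G ts T).1, hz1 _, ?_, ?_⟩
    · intro j hj
      by_contra hcon
      push Not at hcon
      have hm := ((hz2 (pSt K G ts T).1 j).2.2).2 hcon
      have hmem : (j : ℕ) ∈ bdM K ts ((alV G (pSt K G ts T).1).map signOut) := by
        unfold bdM
        rw [List.mem_filter, List.mem_range]
        refine ⟨j.2, ?_⟩
        rw [Bool.and_eq_true, decide_eq_true_eq]
        exact ⟨hj, hm⟩
      rw [hb] at hmem
      simp at hmem
    · intro j
      have h1 : z (pSt K G ts T).1 j ^ 2 ≤ ∑ l, z (pSt K G ts T).1 l ^ 2 :=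
        Finset.single_le_sum (f := fun l => z (pSt K G ts T).1 l ^ 2) (fun l _ => sq_nonneg _)
          (Finset.mem_univ j)
      have h2 : z (pSt K G ts T).1 j ^ 2 ≤ (3 * (K:ℝ) ^ 2) ^ 2 := by
        refine (h1.trans hnormT).trans ?_
        have h3 : (K:ℝ) ^ 3 ≤ (K:ℝ) ^ 4 := pow_le_pow_right₀ hKr (by norm_num)
        nlinarith
      exact abs_le_of_sq_le_sq h2 (by positivity)
  · intro hF
    have hflag_mono : ∀ i, (pSt K G ts i).2 = true → (pSt K G ts (i + 1)).2 = true := by
      intro i h
      rcases step K G ts i with ⟨-, h1⟩ | ⟨j, -, -, -, -, h1⟩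
      · rw [h1]
      · rw [h1]; exact h
    have hflag : ∀ i ≤ T, (pSt K G ts i).2 = false := by
      intro i hi
      by_contra hcon
      rw [Bool.not_eq_false] at hcon
      have : ∀ i', i ≤ i' → (pSt K G ts i').2 = true := by
        intro i' hii
        induction i', hii using Nat.le_induction with
        | base => exact hcon
        | succ i' _ ih => exact hflag_mono i' ih
      rw [this T hi] at hF
      simp at hF
    have hst : ∀ i < T, ∃ j, j < K ∧
        (pSt K G ts (i + 1)).1 = bump (pSt K G ts i).1 K j := by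
      intro i hi
      rcases step K G ts i with ⟨-, h1⟩ | ⟨j, h3, -, -, -, h1⟩
      · have := hflag (i + 1) hi
        rw [h1] at this
        simp at this
      · exact ⟨j, h3, by rw [h1]⟩
    -- the sum of the coordinates
    have hsum : ∀ i ≤ T, ∑ l ∈ Finset.range K, (pSt K G ts i).1.getD l 0 = i := by
      intro i
      induction i with
      | zero =>
        intro _
        refine Finset.sum_eq_zero fun l _ => ?_
        exact getD_zero _ _
      | succ i ih =>
        intro hi
        obtain ⟨j, hj, h1⟩ := hst i hi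
        rw [h1]
        have h2 : ∀ l ∈ Finset.range K,
            (bump (pSt K G ts i).1 K j).getD l 0 =
              (pSt K G ts i).1.getD l 0 + if l = j then 1 else 0 := by
          intro l hl
          rw [Finset.mem_range] at hl
          rw [getD_bump, if_pos hl]
          split_ifs <;> rfl
        rw [Finset.sum_congr rfl h2, Finset.sum_add_distrib, ih (by omega),
          Finset.sum_ite_eq', if_pos (Finset.mem_range.2 hj)]
    set Y := (pSt K G ts T).1 with hY
    have hsumT := hsum T le_rfl
    rw [← hY] at hsumT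
    have hKK : 0 < 4 * (K * K) := by positivity
    have htst : ∀ j < K, 4 * (K * K) ≤ Y.getD j 0 → ts.getD j false = true := by
      intro j _ h
      by_contra hcon
      rw [Bool.not_eq_true] at hcon
      have h1 : Y.getD j 0 = 0 := hnt T j hcon
      omega
    refine ⟨?_, htst, ?_⟩
    · by_contra hcon
      push Not at hcon
      have hcon' : ∀ j < K, Y.getD j 0 < 4 * (K * K) := by
        intro j hj
        by_contra h
        push Not at h
        have := hcon j hj (htst j hj h)
        omega
      have h1 : ∑ l ∈ Finset.range K, Y.getD l 0 < ∑ l ∈ Finset.range K, 4 * (K * K) := by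
        refine Finset.sum_lt_sum_of_nonempty ⟨0, Finset.mem_range.2 hK⟩ ?_
        intro l hl
        exact hcon' l (Finset.mem_range.1 hl)
      rw [hsumT, Finset.sum_const, Finset.card_range, smul_eq_mul, hT] at h1
      have h2 : K * (4 * (K * K)) = 4 * (K * (K * K)) := by ring
      omega
    · intro x hGx hx1 hx0 j hj
      obtain ⟨hk, u, hu⟩ := hz1 Y
      set Z := z Y with hZ
      have h1 : ∑ l : Fin K, ((Y.getD l 0 : ℕ) : ℝ) * x l = ∑ l, Z l * x l := by
        have h2 : ∑ l, G.mulVec u l * x l = 0 := by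
          rw [← hsymm u x, hGx]
          simp
        have h3 : ∀ l : Fin K, ((Y.getD l 0 : ℕ) : ℝ) * x l = Z l * x l + G.mulVec u l * x l := by
          intro l
          have := hu l
          rw [← this]
          ring
        rw [Finset.sum_congr rfl fun l _ => h3 l, Finset.sum_add_distrib, h2, add_zero]
      have h4 : (∑ l, Z l * x l) ^ 2 ≤ (∑ l, Z l ^ 2) * ∑ l, x l ^ 2 :=
        Finset.sum_mul_sq_le_sq_mul_sq _ _ _
      have h5 : ∑ l, x l ^ 2 ≤ (K:ℝ) / 2 := by
        have e1 : ∑ l : Fin K, x l ^ 2 ≤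
            ∑ l : Fin K, if (!(dr.getD l false)) = true then (1:ℝ) else 0 := by
          refine Finset.sum_le_sum fun l _ => ?_
          by_cases hl : dr.getD l false = true
          · rw [hdr x hGx l hl, hl]; simp
          · have h6 : (!(dr.getD l false)) = true := by
              rw [Bool.not_eq_true] at hl
              rw [hl]; rfl
            rw [if_pos h6]
            have := hx1 l
            rw [abs_le] at this
            nlinarith [this.1, this.2]
        have e2 : ∑ l : Fin K, (if (!(dr.getD l false)) = true then (1:ℝ) else 0) =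
            ∑ l ∈ Finset.range K, if (!(dr.getD l false)) = true then (1:ℝ) else 0 :=
          (Finset.sum_range (fun l => if (!(dr.getD l false)) = true then (1:ℝ) else 0)).symm
        rw [e2, ← filt_len (fun l => !(dr.getD l false)) K] at e1
        have e3 : (2:ℝ) * ((((List.range K).filter fun j => !(dr.getD j false)).length : ℕ) : ℝ) ≤
            K := by exact_mod_cast hhalf
        linarith
      have h5' : 0 ≤ ∑ l, x l ^ 2 := Finset.sum_nonneg fun l _ => sq_nonneg _
      have h6 : (∑ l, Z l * x l) ^ 2 ≤ (2 * (K : ℝ) ^ 2) ^ 2 := by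
        refine h4.trans ?_
        calc (∑ l, Z l ^ 2) * ∑ l, x l ^ 2 ≤ (3 / 2 * (4 * (K : ℝ) ^ 3)) * ((K:ℝ) / 2) :=
              mul_le_mul hnormT h5 h5' (by positivity)
          _ = 3 * (K:ℝ) ^ 4 := by ring
          _ ≤ (2 * (K : ℝ) ^ 2) ^ 2 := by nlinarith [pow_pos (lt_of_lt_of_le one_pos hKr) 4]
      have h8 : ∑ l, Z l * x l ≤ 2 * (K : ℝ) ^ 2 := by
        refine le_of_sq_le_sq ?_ (by positivity)
        exact h6
      have hnn : ∀ l : Fin K, 0 ≤ ((Y.getD l 0 : ℕ) : ℝ) * x l := by
        intro l
        by_cases hl : ts.getD l false = true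
        · exact mul_nonneg (Nat.cast_nonneg _) (hx0 l hl)
        · rw [Bool.not_eq_true] at hl
          have : Y.getD l 0 = 0 := hnt T l hl
          rw [this]; simp
      have h9 : ((Y.getD j 0 : ℕ) : ℝ) * x j ≤
          ∑ l : Fin K, ((Y.getD l 0 : ℕ) : ℝ) * x l :=
        Finset.single_le_sum (f := fun l : Fin K => ((Y.getD l 0 : ℕ) : ℝ) * x l)
          (fun l _ => hnn l) (Finset.mem_univ j)
      have h10 : 4 * (K : ℝ) ^ 2 ≤ ((Y.getD j 0 : ℕ) : ℝ) := by
        have : ((4 * (K * K) : ℕ) : ℝ) ≤ ((Y.getD j 0 : ℕ) : ℝ) := by exact_mod_cast hj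
        push_cast at this
        linarith
      have hxj : 0 ≤ x j := hx0 j (htst j j.2 hj)
      have h11 : 4 * (K : ℝ) ^ 2 * x j ≤ ((Y.getD j 0 : ℕ) : ℝ) * x j :=
        mul_le_mul_of_nonneg_right h10 hxj
      have h12 : 4 * (K : ℝ) ^ 2 * x j ≤ 2 * (K : ℝ) ^ 2 := by
        rw [h1] at h9
        linarith
      have h13 : 0 < (K : ℝ) ^ 2 := by positivity
      by_contra hcon
      push Not at hcon
      nlinarith

end Pool.Agent.Y648.CS
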