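import Pool.Agent.Y648.CS.StmM
import Pool.Agent.W920.FC.T_ORD1
import Pool.Agent.W920.FD.T_HVFR

set_option autoImplicit false

/-!
# Products of minors, comparisons, monomials
-/

namespace Pool.Agent.Y648.CS

open Pool.Agent.NPC Pool.Agent.H558R2 Pool.Agent.H622R3.SM Pool.Agent.W920.FC

namespace TPR

open Pool.Agent.W920.FC.TORD1 (ord_append ord_cons wr_append wr_cons ord_range map_range_eq)
open Pool.Agent.W920.FD.THVFR (ord_oper QB_mono QB_sub)

lemma QB_mul {β γ : ℕ} {x y : ℝ} (hx : QB β x) (hy : QB γ y) : QB (β + γ) (x * y) := by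
  obtain ⟨E, z, h1, h2, h3, h4⟩ := hx
  obtain ⟨E', z', h1', h2', h3', h4'⟩ := hy
  refine ⟨E * E', z * z', Nat.mul_pos h1 h1', ?_, ?_, ?_⟩
  · rw [pow_add]; exact Nat.mul_le_mul h2 h2'
  · rw [Int.natAbs_mul, pow_add]; exact Nat.mul_le_mul h3 h3'
  · push_cast
    linear_combination (y * E') * h4 + (z : ℝ) * h4'

lemma QB_div {β γ : ℕ} {x y : ℝ} (hx : QB β x) (hy : QB γ y) (h0 : y ≠ 0) :
    QB (β + γ) (x / y) := by
  obtain ⟨E, z, h1, h2, h3, h4⟩ := hx
  obtain ⟨E', z', h1', h2', h3', h4'⟩ := hy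
  have hz' : z' ≠ 0 := by
    intro hz
    rw [hz, Int.cast_zero] at h4'
    rcases mul_eq_zero.1 h4' with h | h
    · exact h0 h
    · have h5 : E' = 0 := by exact_mod_cast h
      omega
  have e1 : ((z'.natAbs : ℕ) : ℝ) = (z'.sign : ℝ) * (z' : ℝ) := by
    rw [Nat.cast_natAbs, ← Int.sign_mul_self_eq_abs, Int.cast_mul]
  refine ⟨E * z'.natAbs, z * (E' * z'.sign), Nat.mul_pos h1 (Int.natAbs_pos.2 hz'), ?_, ?_, ?_⟩
  · rw [pow_add]; exact Nat.mul_le_mul h2 h3'
  · rw [Int.natAbs_mul, Int.natAbs_mul, pow_add, Int.natAbs_sign_of_ne_zero hz', mul_one,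
      Int.natAbs_natCast]
    exact Nat.mul_le_mul h3 h2'
  · rw [div_mul_eq_mul_div, div_eq_iff h0]
    push_cast
    rw [e1]
    linear_combination ((z'.sign : ℝ) * (z' : ℝ)) * h4 - ((z'.sign : ℝ) * (z : ℝ)) * h4'

lemma QB_two (t : ℕ) : QB t ((2 : ℝ) ^ t) :=
  ⟨1, 2 ^ t, le_refl _, Nat.one_le_two_pow, by rw [Int.natAbs_pow]; norm_num, by push_cast; ring⟩

lemma hv_mono {g : Reg → ℝ} {G G' : ℝ → Prop} (h : ∀ v, G v → G' v) {q : Qry} {v : ℝ}
    (hq : HasVal g G q v) : HasVal g G' q v := by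
  obtain ⟨h1, V, h2, h3, h4⟩ := hq
  exact ⟨h1, V, h2, fun I hI => ⟨(h3 I hI).1, (h3 I hI).2.1, h _ (h3 I hI).2.2⟩, h4⟩

lemma gd_mono {p p' : Polynomial ℕ} {S : ℕ} {g : Reg → ℝ} (h : ∀ x, p.eval x ≤ p'.eval x) (v : ℝ)
    (hv : Gd p S g v) : Gd p' S g v := fun lam hl => QB_mono (h _) (hv lam hl)

lemma hv_val {g : Reg → ℝ} {p : Polynomial ℕ} {S : ℕ} {qr : Qry} {v : ℝ}
    (hq : HasVal g (Gd p S g) qr v) {lam : ℕ} (hl : RB lam g) :
    QB (p.eval (S + lam) + (S + lam)) v := by
  obtain ⟨_, V, h2, h3, h4, rfl⟩ := hq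
  rcases h4 with h4 | ⟨I, hI, h4⟩
  · rw [h2 _ h4]
    obtain ⟨D, d1, d2, d3⟩ := hl
    obtain ⟨z, z1, z2⟩ := d3 _ h4
    exact QB_mono (by omega) ⟨D, z, d1, d2, z1, z2⟩
  · rw [← h4]
    exact QB_mono (by omega) ((h3 I hI).2.2 lam hl)

/-- the product of the first `t` numbers -/
lemma prod_take (l : List ℝ) (t : ℕ) (h : t < l.length) :
    (l.take (t + 1)).prod = (l.take t).prod * l.getD t 0 := by
  rw [List.prod_take_succ l t h, List.getD_eq_getElem _ _ h]

/-- the chain of multiplications is well ordered -/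
lemma ord_chain (S : Set Reg) (N : ℕ) (f : ℕ → Reg) (h0 : ([62, 0] : Reg) ∈ S)
    (hf : ∀ t < N, f t ∈ S) (hS : ∀ t, ([62, t + 1] : Reg) ∉ S) :
    Ord S ((List.range N).map fun t => (⟨Op.mul, [62, t + 1], [62, t], f t⟩ : Instr)) := by
  rw [map_range_eq]
  refine ord_range _ _ _ fun i hi => ?_
  refine ⟨?_, Or.inl (hf i hi), ?_, trivial⟩
  · rcases i with _ | i
    · exact Or.inl h0
    · exact Or.inr ⟨i, by omega, _, List.mem_singleton.2 rfl, rfl⟩
  · rintro (h | ⟨j, hj, I, hI, h⟩)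
    · exact hS i h
    · rw [List.mem_singleton] at hI
      subst hI
      simp at h
      omega

end TPR

open TPR

open Pool.Agent.W920.FC.TORD1 (ord_append ord_cons wr_append wr_cons ord_range map_range_eq) in
open Pool.Agent.W920.FD.THVFR (ord_oper QB_mono QB_sub) in
theorem t_PR : S_TUP → S_TWO → S_DET → S_PR := by
  intro hT h2 hD pB
  obtain ⟨q1, hq1⟩ := hD
  refine ⟨pB + pB * (q1 + Polynomial.X) + q1 + (pB + 1 + pB * q1 + 1 + pB), ?_⟩
  intro m n g e l hg he hl
  have ev : ∀ x, (pB + pB * (q1 + Polynomial.X) + q1 + (pB + 1 + pB * q1 + 1 + pB)).eval x =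
      pB.eval x + pB.eval x * (q1.eval x + x) + q1.eval x +
        (pB.eval x + 1 + pB.eval x * q1.eval x + 1 + pB.eval x) := by
    intro x
    simp
  set q : Polynomial ℕ := pB + pB * (q1 + Polynomial.X) + q1 + (pB + 1 + pB * q1 + 1 + pB) with hq
  clear_value q
  set qs : List Qry := twoQ e :: l.map (detQ m n) with hqs
  have hmono : ∀ lam, pB.eval (m + n) ≤ pB.eval (m + n + lam) := fun lam =>
    eval_mono pB (by omega)
  have hF : List.Forall₂ (HasVal g (Gd q (m + n) g)) qs ((2 : ℝ) ^ e :: l.map (mv m n g)) := by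
    refine List.Forall₂.cons ?_ ?_
    · refine (h2 g _ e hg (fun t ht lam hl' => QB_mono ?_ (QB_two t))).1
      have := hmono lam
      rw [ev]
      omega
    · rw [List.forall₂_map_left_iff, List.forall₂_map_right_iff, List.forall₂_same]
      intro x _
      refine hv_mono (gd_mono ?_) (hq1 m n g x hg).1
      intro y
      rw [ev]
      omega
  obtain ⟨t1, t2, t3, ⟨V, v1, v2, v3⟩, t5⟩ := hT g _ qs _ hF
  have hlen : qs.length = l.length + 1 := by simp [hqs]
  have hbw : ∀ r ∈ baseReg ∪ wr (tupP qs), r.headD 0 ≠ 62 := by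
    rintro r (hr | hr)
    · have hr' : r.headD 0 < 4 := hr
      omega
    · have := t2 r hr
      omega
  have hdet : ∀ lam, RB lam g → ∀ x, QB (q1.eval (m + n + lam) + (m + n + lam)) (mv m n g x) :=
    fun lam hl' x => hv_val (hq1 m n g x hg).1 hl'
  obtain ⟨V', w1, w2⟩ : ∃ V' : Reg → ℝ, (∀ r, r.headD 0 ≠ 62 → V' r = V r) ∧
      ∀ t, V' [62, t] = 2 ^ e * ((l.map (mv m n g)).take t).prod :=
    ⟨fun r => if r.headD 0 = 62 then 2 ^ e * ((l.map (mv m n g)).take (r.getD 1 0)).prod else V r,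
      fun r hr => if_neg hr, fun t => by simp⟩
  refine ⟨⟨?_, V', ?_, ?_, ?_, ?_⟩, ?_⟩
  · -- order
    refine (ord_append _ _ _).2 ⟨t1, ?_⟩
    rw [ord_cons]
    refine ⟨t3 0 (by omega), Or.inl (by simp [baseReg]), fun h => hbw _ h (by simp), ?_⟩
    refine ord_chain _ _ _ (Or.inr rfl) (fun t ht => Or.inl (t3 (t + 1) (by omega))) ?_
    rintro t (h | h)
    · exact hbw _ h (by simp)
    · simp at h
  · -- base registers
    intro r hr
    have hr' : r.headD 0 < 4 := hr
    have h0 : r.headD 0 ≠ 62 := by omega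
    rw [w1 r h0]
    exact v1 r hr
  · -- equations
    intro I hI
    rcases List.mem_append.1 hI with hI | hI
    · have h3 := ord_oper _ _ t1 I hI
      have h4 := v2 I hI
      have d0 := hbw I.dst (Or.inr ⟨I, hI, rfl⟩)
      have d1 := hbw I.fst h3.1
      have d2 := hbw I.snd h3.2
      rw [w1 _ d0, w1 _ d1, w1 _ d2]
      exact ⟨h4.1.1, h4.1.2, h4.2⟩
    · rcases List.mem_cons.1 hI with hI | hI
      · subst hI
        have d1 : V' (tupR qs 0) = 2 ^ e := (w1 _ (hbw _ (t3 0 (by omega)))).trans (v3 0 (by omega))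
        have e3 : V' [3] = 0 :=
          (w1 _ (by simp)).trans ((v1 _ (by simp [baseReg])).trans hg.2)
        have e5 : V' [62, 0] = 2 ^ e := by rw [w2]; simp
        refine ⟨?_, fun h => (by cases h), ?_⟩
        · show V' [62, 0] = V' (tupR qs 0) + V' [3]
          rw [e5, d1, e3, add_zero]
        · intro lam hl'
          show QB _ (V' [62, 0])
          rw [e5]
          refine QB_mono ?_ (QB_two e)
          have := hmono lam
          rw [ev]
          omega
      · obtain ⟨t, ht, rfl⟩ := List.mem_map.1 hI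
        rw [List.mem_range] at ht
        have e4 : V' (tupR qs (t + 1)) = (l.map (mv m n g)).getD t 0 := by
          rw [w1 _ (hbw _ (t3 (t + 1) (by omega))), v3 (t + 1) (by omega)]
          simp
        refine ⟨?_, fun h => (by cases h), ?_⟩
        · show V' [62, t + 1] = V' [62, t] * V' (tupR qs (t + 1))
          rw [e4, w2, w2, prod_take _ t (by simpa using ht), mul_assoc]
        · intro lam hl'
          show QB _ (V' [62, t + 1])
          rw [w2]
          have h7 : ∀ s ≤ l.length, QB (s * (q1.eval (m + n + lam) + (m + n + lam)))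
              ((l.map (mv m n g)).take s).prod := by
            intro s hs
            induction s with
            | zero => exact ⟨1, 1, by simp⟩
            | succ s ih =>
              rw [prod_take _ _ (by simpa using (show s < l.length by omega)), add_mul, one_mul]
              refine QB_mul (ih (by omega)) ?_
              have h8 : s < (l.map (mv m n g)).length := by simp; omega
              rw [List.getD_eq_getElem _ _ h8, List.getElem_map]
              exact hdet lam hl' _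
          refine QB_mono ?_ (QB_mul (QB_two e) (h7 (t + 1) (by omega)))
          have h9 := hmono lam
          have h10 : (t + 1) * (q1.eval (m + n + lam) + (m + n + lam)) ≤
              pB.eval (m + n + lam) * (q1.eval (m + n + lam) + (m + n + lam)) :=
            Nat.mul_le_mul_right _ (by omega)
          rw [ev]
          omega
  · -- register
    refine Or.inr ?_
    rcases h : l.length with _ | N
    · refine ⟨(⟨Op.add, [62, 0], tupR qs 0, [3]⟩ : Instr), ?_, by simp [prQ, h]⟩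
      exact List.mem_append.2 (Or.inr (List.mem_cons.2 (Or.inl rfl)))
    · refine ⟨(⟨Op.mul, [62, N + 1], [62, N], tupR qs (N + 1)⟩ : Instr), ?_, by simp [prQ, h]⟩
      refine List.mem_append.2 (Or.inr (List.mem_cons.2 (Or.inr ?_)))
      exact List.mem_map.2 ⟨N, List.mem_range.2 (by omega), rfl⟩
  · show V' [62, l.length] = _
    rw [w2, List.take_of_length_le (by simp)]
    rfl
  · -- length
    have h3 : (prQ m n e l).1.length = (tupP qs).length + (l.length + 1) := by
      simp [prQ, ← hqs]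
    have h4 : (qs.map fun q => q.1.length).sum ≤ (e + 1) + l.length * q1.eval (m + n) := by
      rw [hqs, List.map_cons, List.sum_cons, List.map_map]
      refine Nat.add_le_add ?_ ?_
      · exact (h2 g (fun _ => True) e hg (fun _ _ => trivial)).2.le
      · have := List.sum_le_card_nsmul (l.map ((fun q : Qry => q.1.length) ∘ detQ m n))
          (q1.eval (m + n)) (by
            intro x hx
            obtain ⟨y, _, rfl⟩ := List.mem_map.1 hx
            exact (hq1 m n g y hg).2)
        simpa using this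
    have h5 : l.length * q1.eval (m + n) ≤ pB.eval (m + n) * q1.eval (m + n) :=
      Nat.mul_le_mul_right _ hl
    rw [h3, t5, ev]
    omega

namespace TPR

open Pool.Agent.W920.FD.THVFR (QB_mono QB_sub)

lemma QB_neg {β : ℕ} {x : ℝ} (hx : QB β x) : QB β (-x) := by
  obtain ⟨E, z, h1, h2, h3, h4⟩ := hx
  refine ⟨E, -z, h1, h2, by rwa [Int.natAbs_neg], ?_⟩
  push_cast
  linear_combination -h4

lemma QB_op {β : ℕ} {x y : ℝ} (op : Op) (hx : QB β x) (hy : QB β y) (h : op = Op.div → y ≠ 0) :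
    QB (2 * β + 1) (op.eval x y) := by
  cases op with
  | add =>
    have := QB_sub hx (QB_neg hy)
    rwa [sub_neg_eq_add] at this
  | sub => exact QB_sub hx hy
  | mul => exact QB_mono (by omega) (QB_mul hx hy)
  | div => exact QB_mono (by omega) (QB_div hx hy (h rfl))

/-- the polynomial after one operation -/
noncomputable def cq (p : Polynomial ℕ) : Polynomial ℕ := 2 * (p + Polynomial.X) + 1 + p

lemma cq_eval (p : Polynomial ℕ) (x : ℕ) : (cq p).eval x = 2 * (p.eval x + x) + 1 + p.eval x := by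
  simp [cq]

lemma cmb_gd (hC : S_CMB) {g : Reg → ℝ} {p : Polynomial ℕ} {S : ℕ} {op : Op} {q₁ q₂ : Qry}
    {v₁ v₂ : ℝ} (h1 : HasVal g (Gd p S g) q₁ v₁) (h2 : HasVal g (Gd p S g) q₂ v₂)
    (h : op = Op.div → v₂ ≠ 0) : HasVal g (Gd (cq p) S g) (cmb op q₁ q₂) (op.eval v₁ v₂) ∧
      (cmb op q₁ q₂).1.length = q₁.1.length + q₂.1.length + 1 := by
  have hm : ∀ x, p.eval x ≤ (cq p).eval x := fun x => by rw [cq_eval]; omega
  refine hC g _ op q₁ q₂ v₁ v₂ (hv_mono (gd_mono hm) h1) (hv_mono (gd_mono hm) h2) h ?_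
  intro lam hl
  refine QB_mono ?_ (QB_op op (hv_val h1 hl) (hv_val h2 hl) h)
  rw [cq_eval]
  omega

lemma prV_append (m n : ℕ) (g : Reg → ℝ) (e e' : ℕ) (l l' : List Mn) :
    prV m n g (e + e') (l ++ l') = prV m n g e l * prV m n g e' l' := by
  simp only [prV, List.map_append, List.prod_append, pow_add]
  ring

lemma prV_ne (m n : ℕ) (g : Reg → ℝ) (e : ℕ) (l : List Mn) (h : ∀ x ∈ l, mv m n g x ≠ 0) :
    prV m n g e l ≠ 0 := by
  refine mul_ne_zero (pow_ne_zero _ two_ne_zero) (List.prod_ne_zero ?_)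
  intro h0
  obtain ⟨x, hx, h1⟩ := List.mem_map.1 h0
  exact h x hx h1

lemma prV_ne_iff (m n : ℕ) (g : Reg → ℝ) (e : ℕ) (l : List Mn) (h : prV m n g e l ≠ 0) :
    ∀ x ∈ l, mv m n g x ≠ 0 := by
  intro x hx h1
  refine h ?_
  unfold prV
  rw [List.prod_eq_zero (List.mem_map.2 ⟨x, hx, h1⟩), mul_zero]

lemma signOut_congr {u v : ℝ} (h1 : 0 < u ↔ 0 < v) (h2 : u < 0 ↔ v < 0) :
    signOut u = signOut v := by
  unfold signOut
  by_cases h3 : 0 < v
  · rw [if_pos (h1.2 h3), if_pos h3]
  · rw [if_neg (fun h => h3 (h1.1 h)), if_neg h3]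
    by_cases h4 : v < 0
    · rw [if_pos (h2.2 h4), if_pos h4]
    · rw [if_neg (fun h => h4 (h2.1 h)), if_neg h4]

lemma signOut_false {v : ℝ} : signOut v = some false ↔ v < 0 := by
  unfold signOut
  constructor
  · intro h
    split_ifs at h with h1 h2
    · simp at h
    · exact h2
  · intro h
    rw [if_neg (by linarith), if_pos h]

end TPR

open Pool.Agent.W920.FD.THVFR (QB_mono) in
theorem t_CMPQ : S_CMB → S_PR → S_CMPQ := by
  intro hC hP pB
  obtain ⟨q0, h0⟩ := hP (2 * pB)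
  refine ⟨cq (cq q0) + (4 * q0 + 3), ?_⟩
  intro m n g a b hg ha hb
  have e0 : (2 * pB).eval (m + n) = 2 * pB.eval (m + n) := by simp
  obtain ⟨a1, a2, a3, a4⟩ := ha
  obtain ⟨b1, b2, b3, b4⟩ := hb
  obtain ⟨p1, p2⟩ := h0 m n g (a.1.2.1.length + b.1.2.2.length) (a.2.1 ++ b.2.2) hg (by omega)
    (by rw [List.length_append]; omega)
  obtain ⟨r1, r2⟩ := h0 m n g (b.1.2.1.length + a.1.2.2.length) (b.2.1 ++ a.2.2) hg (by omega)
    (by rw [List.length_append]; omega)
  obtain ⟨s1, s2⟩ := cmb_gd hC (op := Op.mul) p1 p1 (fun h => by cases h)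
  obtain ⟨t1, t2⟩ := cmb_gd hC (op := Op.mul) r1 r1 (fun h => by cases h)
  obtain ⟨u1, u2⟩ := cmb_gd hC (op := Op.sub) s1 t1 (fun h => by cases h)
  refine ⟨hv_mono (gd_mono ?_) u1, ?_⟩
  · intro x
    rw [Polynomial.eval_add]
    omega
  · have e1 : (cq (cq q0) + (4 * q0 + 3)).eval (m + n) =
        (cq (cq q0)).eval (m + n) + (4 * q0.eval (m + n) + 3) := by simp
    unfold cmpQ
    rw [u2, s2, t2, e1]
    omega

open Pool.Agent.W920.FD.THVFR (QB_mono) in
theorem t_MOQ : S_CMB → S_PR → S_MOQ := by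
  intro hC hP pB
  obtain ⟨q0, h0⟩ := hP pB
  refine ⟨cq (cq q0) + (2 * q0 + 2), ?_⟩
  intro m n g a hg ha hok
  obtain ⟨a1, a2, a3, a4⟩ := ha
  obtain ⟨p1, p2⟩ := h0 m n g a.1.2.1.length a.2.1 hg a1 a3
  obtain ⟨r1, r2⟩ := h0 m n g a.1.2.2.length a.2.2 hg a2 a4
  obtain ⟨s1, s2⟩ := cmb_gd hC (op := Op.div) p1 r1 (fun _ => prV_ne m n g _ _ hok)
  have hz : HasVal g (Gd (cq q0) (m + n) g) (([], [3]) : Qry) 0 :=
    ⟨trivial, g, fun _ _ => rfl, fun I hI => by simp at hI, Or.inl (by simp [baseReg]), hg.2⟩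
  obtain ⟨u1, u2⟩ := cmb_gd hC (op := Op.sub) hz s1 (fun h => by cases h)
  have e1 : (cq (cq q0) + (2 * q0 + 2)).eval (m + n) =
      (cq (cq q0)).eval (m + n) + (2 * q0.eval (m + n) + 2) := by simp
  have hm1 : ∀ x, (cq (cq q0)).eval x ≤ (cq (cq q0) + (2 * q0 + 2)).eval x := fun x => by
    rw [Polynomial.eval_add]; omega
  have hm0 : ∀ x, (cq q0).eval x ≤ (cq (cq q0) + (2 * q0 + 2)).eval x := fun x => by
    refine le_trans ?_ (hm1 x)
    rw [cq_eval (cq q0)]
    omega
  by_cases h : a.1.1 = true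
  · have e2 : moV m n g a = Op.sub.eval 0 (Op.div.eval (prV m n g a.1.2.1.length a.2.1)
        (prV m n g a.1.2.2.length a.2.2)) := by
      simp only [moV, h, if_true, Op.eval]
      ring
    have e3 : moQ m n a = cmb Op.sub ([], [3]) (cmb Op.div (prQ m n a.1.2.1.length a.2.1)
        (prQ m n a.1.2.2.length a.2.2)) := by
      simp only [moQ, h, if_true]
    rw [e2, e3]
    refine ⟨hv_mono (gd_mono hm1) u1, ?_⟩
    rw [u2, s2, e1]
    simp only [List.length_nil]
    omega
  · have h' : a.1.1 = false := by simpa using h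
    have e2 : moV m n g a = Op.div.eval (prV m n g a.1.2.1.length a.2.1)
        (prV m n g a.1.2.2.length a.2.2) := by
      simp [moV, h', Op.eval]
    have e3 : moQ m n a = cmb Op.div (prQ m n a.1.2.1.length a.2.1)
        (prQ m n a.1.2.2.length a.2.2) := by
      simp [moQ, h']
    rw [e2, e3]
    refine ⟨hv_mono (gd_mono hm0) s1, ?_⟩
    rw [s2, e1]
    omega

namespace TPR

lemma sgn_abs (s : Bool) (x : ℝ) : |(if s = true then (-1 : ℝ) else 1) * x| = |x| := by
  cases s <;> simp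

lemma sgn_xor (s t : Bool) : (if (s ^^ t) = true then (-1 : ℝ) else 1) =
    (if s = true then (-1 : ℝ) else 1) * (if t = true then (-1 : ℝ) else 1) := by
  cases s <;> cases t <;> simp

lemma moV_abs (m n : ℕ) (g : Reg → ℝ) (a : Mo) : |moV m n g a| =
    |prV m n g a.1.2.1.length a.2.1| / |prV m n g a.1.2.2.length a.2.2| := by
  unfold moV
  rw [sgn_abs, abs_div]

lemma prV_one (m n : ℕ) (g : Reg → ℝ) (x : Mn) : prV m n g 0 [x] = mv m n g x := by
  simp [prV]

lemma prV_nil (m n : ℕ) (g : Reg → ℝ) (e : ℕ) : prV m n g e [] = 2 ^ e := by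
  simp [prV]

lemma cm_sign (m n : ℕ) (g : Reg → ℝ) (a b : Mo) (ha : MoOK m n g a) (hb : MoOK m n g b) :
    signOut (cmV m n g a b) = signOut (|moV m n g a| - |moV m n g b|) := by
  have hA := prV_ne m n g a.1.2.2.length _ ha
  have hB := prV_ne m n g b.1.2.2.length _ hb
  rw [moV_abs, moV_abs]
  unfold cmV
  rw [prV_append, prV_append]
  generalize prV m n g a.1.2.2.length a.2.2 = A2 at *
  generalize prV m n g b.1.2.2.length b.2.2 = B2 at *
  generalize prV m n g a.1.2.1.length a.2.1 = A1 at *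
  generalize prV m n g b.1.2.1.length b.2.1 = B1 at *
  have hA' : 0 < |A2| := abs_pos.2 hA
  have hB' : 0 < |B2| := abs_pos.2 hB
  have e1 : A1 * B2 * (A1 * B2) - B1 * A2 * (B1 * A2) =
      (|A1| * |B2|) ^ 2 - (|B1| * |A2|) ^ 2 := by
    rw [← abs_mul, ← abs_mul, sq_abs, sq_abs]
    ring
  have e2 : |A1| / |A2| - |B1| / |B2| = (|A1| * |B2| - |B1| * |A2|) / (|A2| * |B2|) := by
    field_simp
  have hp : 0 ≤ |A1| * |B2| := by positivity
  have hq : 0 ≤ |B1| * |A2| := by positivity
  have hd : 0 < |A2| * |B2| := by positivity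
  rw [e1, e2]
  refine signOut_congr ?_ ?_
  · rw [div_pos_iff_of_pos_right hd, sub_pos, sub_pos]
    exact pow_lt_pow_iff_left₀ hq hp two_ne_zero
  · rw [div_lt_iff₀ hd, zero_mul, sub_neg, sub_neg]
    exact pow_lt_pow_iff_left₀ hp hq two_ne_zero

end TPR

theorem t_MOV : S_MOV := by
  intro m n g
  refine ⟨?_, ?_, ?_, ?_, ?_, ?_, ?_, ?_, ?_, ?_, ?_⟩
  · simp [moV, moOne, prV]
  · intro x hx
    simp [moOne] at hx
  · intro e
    refine ⟨by simp [moV, moTwo, prV], ?_⟩
    intro x hx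
    simp [moTwo] at hx
  · intro a b
    have h1 : prV m n g (moMul a b).1.2.1.length (moMul a b).2.1 =
        prV m n g a.1.2.1.length a.2.1 * prV m n g b.1.2.1.length b.2.1 := by
      rw [← prV_append]
      simp [moMul]
    have h2 : prV m n g (moMul a b).1.2.2.length (moMul a b).2.2 =
        prV m n g a.1.2.2.length a.2.2 * prV m n g b.1.2.2.length b.2.2 := by
      rw [← prV_append]
      simp [moMul]
    have h3 : (if (moMul a b).1.1 = true then (-1 : ℝ) else 1) =
        (if a.1.1 = true then (-1 : ℝ) else 1) * (if b.1.1 = true then (-1 : ℝ) else 1) := by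
      exact sgn_xor a.1.1 b.1.1
    unfold moV
    rw [h1, h2, h3, mul_div_mul_comm]
    ring
  · intro a b ha hb x hx
    rcases List.mem_append.1 hx with h | h
    · exact ha x h
    · exact hb x h
  · intro a
    refine ⟨?_, fun h => h⟩
    have h2 : prV m n g (moHalf a).1.2.2.length (moHalf a).2.2 =
        2 * prV m n g a.1.2.2.length a.2.2 := by
      simp only [moHalf, prV, List.length_cons, pow_succ]
      ring
    unfold moV
    rw [h2]
    simp only [moHalf]
    rw [mul_comm (2 : ℝ) (prV m n g a.1.2.2.length a.2.2), ← div_div, mul_div_assoc]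
    rfl
  · intro a
    refine ⟨?_, ?_⟩
    · rw [moV_abs, moV_abs]
      simp only [moInv]
      rw [inv_div]
    · intro _ h x hx
      refine prV_ne_iff m n g a.1.2.1.length a.2.1 ?_ x hx
      intro h0
      apply h
      unfold moV
      rw [h0, zero_div, mul_zero]
  · intro x y
    simp [moV, moRat, prV]
  · intro x
    refine ⟨by simp [moV, moMin, prV], ?_⟩
    intro y hy
    simp [moMin] at hy
  · exact fun a b ha hb => cm_sign m n g a b ha hb
  · intro a ha h
    refine ⟨ha, ?_, abs_pos.2 h⟩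
    have hA := prV_ne m n g a.1.2.2.length _ ha
    have e1 : prV m n g 0 (a.2.1 ++ a.2.2) =
        prV m n g 0 a.2.1 * prV m n g 0 a.2.2 := by
      rw [← prV_append]
    have e2 : ∀ e l, prV m n g e l = 2 ^ e * prV m n g 0 l := by
      intro e l
      simp [prV]
    rw [moV_abs, e1]
    unfold moV
    simp only [fixS, decide_eq_true_eq, signOut_false]
    rw [e2 a.1.2.2.length a.2.2] at hA
    rw [e2 a.1.2.1.length a.2.1, e2 a.1.2.2.length a.2.2]
    generalize prV m n g 0 a.2.1 = U at *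
    generalize prV m n g 0 a.2.2 = W at *
    have p1 : (0 : ℝ) < 2 ^ a.1.2.1.length := by positivity
    have p2 : (0 : ℝ) < 2 ^ a.1.2.2.length := by positivity
    have hW : W ≠ 0 := right_ne_zero_of_mul hA
    rw [← abs_div]
    have e3 : 2 ^ a.1.2.1.length * U / (2 ^ a.1.2.2.length * W) =
        2 ^ a.1.2.1.length / 2 ^ a.1.2.2.length * (U * W) / W ^ 2 := by
      field_simp
    have hW2 : 0 < W ^ 2 := by positivity
    have p3 : (0 : ℝ) < 2 ^ a.1.2.1.length / 2 ^ a.1.2.2.length := by positivity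
    by_cases h5 : U * W < 0
    · rw [if_pos h5, e3, abs_of_nonpos]
      · ring
      · exact div_nonpos_of_nonpos_of_nonneg (mul_nonpos_of_nonneg_of_nonpos p3.le h5.le) hW2.le
    · rw [if_neg h5, e3, abs_of_nonneg]
      · ring
      · exact div_nonneg (mul_nonneg p3.le (not_lt.1 h5)) hW2.le

end Pool.Agent.Y648.CS
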