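import Pool.Agent.Y648.CS.T_TUP

set_option autoImplicit false

/-!
# The program for the weighted matrix
-/

namespace Pool.Agent.Y648.CS

open Pool.Agent.NPC Pool.Agent.H558R2 Pool.Agent.H622R3.SM Pool.Agent.W920.FC

namespace TPRE

open TTUP Pool.Agent.W920.FC.TORD1

/-! ### Small numbers -/

theorem QB_mono {a b : ℕ} (h : a ≤ b) {v : ℝ} (hv : QB a v) : QB b v := by
  obtain ⟨E, z, h1, h2, h3, h4⟩ := hv
  have := Nat.pow_le_pow_right (show 0 < 2 by norm_num) h
  exact ⟨E, z, h1, h2.trans this, h3.trans this, h4⟩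

theorem QB_mul {a b : ℕ} {v w : ℝ} (hv : QB a v) (hw : QB b w) : QB (a + b) (v * w) := by
  obtain ⟨E, z, h1, h2, h3, h4⟩ := hv
  obtain ⟨E', z', h1', h2', h3', h4'⟩ := hw
  refine ⟨E * E', z * z', Nat.mul_pos h1 h1', ?_, ?_, ?_⟩
  · rw [pow_add]; exact Nat.mul_le_mul h2 h2'
  · rw [Int.natAbs_mul, pow_add]; exact Nat.mul_le_mul h3 h3'
  · push_cast
    rw [← h4, ← h4']
    ring

theorem QB_zero (a : ℕ) : QB a 0 := ⟨1, 0, le_rfl, Nat.one_le_two_pow, by simp, by simp⟩

theorem QB_one (a : ℕ) : QB a 1 := ⟨1, 1, le_rfl, Nat.one_le_two_pow, by simpa using Nat.one_le_two_pow, by simp⟩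

theorem QB_neg {a : ℕ} {v : ℝ} (h : QB a v) : QB a (-v) := by
  obtain ⟨E, z, h1, h2, h3, h4⟩ := h
  exact ⟨E, -z, h1, h2, by rwa [Int.natAbs_neg], by push_cast; rw [← h4]; ring⟩

theorem QB_pow (t b : ℕ) (h : t ≤ b) : QB b ((2 : ℝ) ^ t) := by
  refine ⟨1, 2 ^ t, le_rfl, Nat.one_le_two_pow, ?_, by simp⟩
  rw [Int.natAbs_pow]
  exact Nat.pow_le_pow_right (by norm_num) h

theorem QB_base {lam : ℕ} {g : Reg → ℝ} (h : RB lam g) {r : Reg} (hr : r ∈ baseReg) :
    QB lam (g r) := by
  obtain ⟨D, h1, h2, h3⟩ := h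
  obtain ⟨z, hz, hz'⟩ := h3 r hr
  exact ⟨D, z, h1, h2, hz, hz'⟩

/-- A common denominator. -/
theorem common {ι : Type} [DecidableEq ι] (s : Finset ι) (v : ι → ℝ) (β : ℕ)
    (h : ∀ i ∈ s, QB β (v i)) :
    ∃ D : ℕ, 1 ≤ D ∧ D ≤ 2 ^ (s.card * β) ∧ ∀ i ∈ s, ∃ z : ℤ, z.natAbs ≤ 2 ^ (s.card * β) ∧
      v i * D = z := by
  induction s using Finset.induction_on with
  | empty => exact ⟨1, le_rfl, Nat.one_le_two_pow, by simp⟩
  | insert a s has ih =>
    obtain ⟨D, h1, h2, h3⟩ := ih fun i hi => h i (Finset.mem_insert_of_mem hi)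
    obtain ⟨E, z, g1, g2, g3, g4⟩ := h a (Finset.mem_insert_self _ _)
    have e : 2 ^ ((insert a s).card * β) = 2 ^ (s.card * β) * 2 ^ β := by
      rw [Finset.card_insert_of_notMem has, add_mul, one_mul, pow_add]
    rw [e]
    refine ⟨D * E, Nat.mul_pos h1 g1, Nat.mul_le_mul h2 g2, fun i hi => ?_⟩
    rcases Finset.mem_insert.1 hi with rfl | hi
    · refine ⟨z * D, ?_, ?_⟩
      · rw [Int.natAbs_mul, mul_comm]
        exact Nat.mul_le_mul (by simpa using h2) g3
      · push_cast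
        rw [← g4]
        ring
    · obtain ⟨z', h4, h5⟩ := h3 i hi
      refine ⟨z' * E, ?_, ?_⟩
      · rw [Int.natAbs_mul]
        exact Nat.mul_le_mul h4 (by simpa using g2)
      · push_cast
        rw [← h5]
        ring

/-! ### Coefficients -/

theorem b2 : ([2] : Reg) ∈ baseReg := by
  change (2 : ℕ) < 4
  norm_num

theorem b3 : ([3] : Reg) ∈ baseReg := by
  change (3 : ℕ) < 4
  norm_num

theorem b0 (i c : ℕ) : ([0, i, c] : Reg) ∈ baseReg := by
  change (0 : ℕ) < 4
  norm_num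

theorem b1 (i : ℕ) : ([1, i] : Reg) ∈ baseReg := by
  change (1 : ℕ) < 4
  norm_num

/-- The instruction `I` writes `r`, reads base registers, and gives the value `v`. -/
def Spec (I : Instr) (r : Reg) (v : (Reg → ℝ) → ℝ) : Prop :=
  I.dst = r ∧ I.fst ∈ baseReg ∧ I.snd ∈ baseReg ∧ I.op ≠ Op.div ∧
    ∀ g, Base g → I.op.eval (g I.fst) (g I.snd) = v g

theorem spec0 (r : Reg) : Spec ⟨Op.add, r, [3], [3]⟩ r (fun _ => 0) :=
  ⟨rfl, b3, b3, by simp, fun g hg => by simp [Op.eval, hg.2]⟩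

theorem spec1 (r : Reg) : Spec ⟨Op.add, r, [2], [3]⟩ r (fun _ => 1) :=
  ⟨rfl, b2, b3, by simp, fun g hg => by simp [Op.eval, hg.1, hg.2]⟩

theorem specm (r : Reg) : Spec ⟨Op.sub, r, [3], [2]⟩ r (fun _ => -1) :=
  ⟨rfl, b3, b2, by simp, fun g hg => by simp [Op.eval, hg.1, hg.2]⟩

theorem speca (r : Reg) (a b : ℕ) : Spec ⟨Op.add, r, [0, a, b], [3]⟩ r (fun g => g [0, a, b]) :=
  ⟨rfl, b0 _ _, b3, by simp, fun g hg => by simp [Op.eval, hg.2]⟩

theorem specb (r : Reg) (a b : ℕ) : Spec ⟨Op.sub, r, [3], [0, a, b]⟩ r (fun g => -g [0, a, b]) :=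
  ⟨rfl, b3, b0 _ _, by simp, fun g hg => by simp [Op.eval, hg.2]⟩

theorem specc (r : Reg) (a : ℕ) : Spec ⟨Op.sub, r, [3], [1, a]⟩ r (fun g => -g [1, a]) :=
  ⟨rfl, b3, b1 _, by simp, fun g hg => by simp [Op.eval, hg.2]⟩

theorem spec_ent (m n p i c : ℕ) (r : Reg) :
    Spec (entI m n p i c r) r (fun g => Rb m n p g i c) := by
  unfold entI Rb
  split_ifs
  all_goals first
    | exact speca _ _ _ | exact spec0 _ | exact specc _ _ | exact spec1 _ | exact specb _ _ _
    | exact specm _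

theorem spec_cof (m n p i c : ℕ) (r : Reg) :
    Spec (cofI m n p i c r) r (fun g => Pc m n p g i c) := by
  unfold cofI Pc
  split_ifs
  all_goals first
    | exact spec_ent _ _ _ _ _ _ | exact spec0 _ | exact spec1 _ | exact specm _

theorem QB_Rb {lam : ℕ} {g : Reg → ℝ} (h : RB lam g) (m n p i c : ℕ) :
    QB lam (Rb m n p g i c) := by
  unfold Rb
  split_ifs
  all_goals first
    | exact QB_base h (b0 _ _) | exact QB_zero _ | exact QB_neg (QB_base h (b1 _))
    | exact QB_one _ | exact QB_neg (QB_base h (b0 _ _)) | exact QB_neg (QB_one _)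

theorem QB_Pc {lam : ℕ} {g : Reg → ℝ} (h : RB lam g) (m n p i c : ℕ) :
    QB lam (Pc m n p g i c) := by
  unfold Pc
  split_ifs
  all_goals first
    | exact QB_Rb h _ _ _ _ _ | exact QB_zero _ | exact QB_one _ | exact QB_neg (QB_one _)

/-! ### The program -/

/-- The second part of the program. -/
def mat (m n p : ℕ) (R : ℕ → ℕ → Reg) : List Instr :=
  (List.range (n + 3)).flatMap fun i => (List.range (m + m + 4)).flatMap fun c =>
    [cofI m n p i c [79, i, c], (⟨Op.mul, [80, i, c], [79, i, c], R i c⟩ : Instr)]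

theorem mem_mat {m n p : ℕ} {R : ℕ → ℕ → Reg} {I : Instr} : I ∈ mat m n p R ↔
    ∃ i < n + 3, ∃ c < m + m + 4, I = cofI m n p i c [79, i, c] ∨
      I = ⟨Op.mul, [80, i, c], [79, i, c], R i c⟩ := by
  simp only [mat, List.mem_flatMap, List.mem_range, List.mem_cons, List.not_mem_nil, or_false]

theorem wr_cell {m n p i c : ℕ} {R : ℕ → ℕ → Reg} {r : Reg}
    (h : r ∈ Pool.Agent.W920.FC.wr [cofI m n p i c [79, i, c],
      (⟨Op.mul, [80, i, c], [79, i, c], R i c⟩ : Instr)]) : r = [79, i, c] ∨ r = [80, i, c] := by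
  obtain ⟨I, hI, rfl⟩ := h
  simp only [List.mem_cons, List.not_mem_nil, or_false] at hI
  rcases hI with rfl | rfl
  · exact Or.inl (spec_cof m n p i c _).1
  · exact Or.inr rfl

theorem ord_mat {m n p : ℕ} {R : ℕ → ℕ → Reg} {S : Set Reg} (hb : baseReg ⊆ S)
    (hS : ∀ r ∈ S, r.headD 0 < 79) (hR : ∀ i < n + 3, ∀ c < m + m + 4, R i c ∈ S) :
    Ord S (mat m n p R) := by
  refine ord_range _ _ _ fun i hi => ord_range _ _ _ fun c hc => ?_
  have key : ∀ a : ℕ, 79 ≤ a → ([a, i, c] : Reg) ∉ S ∪ {r | ∃ j < i, r ∈ Pool.Agent.W920.FC.wr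
      ((List.range (m + m + 4)).flatMap fun c => [cofI m n p j c [79, j, c],
        (⟨Op.mul, [80, j, c], [79, j, c], R j c⟩ : Instr)])} ∪
      {r | ∃ j < c, r ∈ Pool.Agent.W920.FC.wr [cofI m n p i j [79, i, j],
        (⟨Op.mul, [80, i, j], [79, i, j], R i j⟩ : Instr)]} := by
    rintro a ha ((h | ⟨j, hj, h⟩) | ⟨j, hj, h⟩)
    · have : a < 79 := hS _ h
      omega
    · obtain ⟨c', -, h⟩ := mem_wr_range.1 h
      rcases wr_cell h with h | h
      · simp only [List.cons.injEq] at h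
        omega
      · simp only [List.cons.injEq] at h
        omega
    · rcases wr_cell h with h | h
      · simp only [List.cons.injEq] at h
        omega
      · simp only [List.cons.injEq] at h
        omega
  obtain ⟨s1, s2, s3, -, -⟩ := spec_cof m n p i c [79, i, c]
  refine ⟨Or.inl (Or.inl (hb s2)), Or.inl (Or.inl (hb s3)), ?_, ?_, ?_, ?_, trivial⟩
  · rw [s1]
    exact key 79 le_rfl
  · rw [s1]
    exact Or.inl rfl
  · exact Or.inr (Or.inl (Or.inl (hR i hi c hc)))
  · rintro (h | h)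
    · rw [s1] at h
      simp at h
    · exact key 80 (by norm_num) h

/-- The valuation. -/
noncomputable def val (V : Reg → ℝ) (P W : ℕ → ℕ → ℝ) : Reg → ℝ
  | [79, i, c] => P i c
  | [80, i, c] => W i c
  | r => V r

theorem val_lt {V : Reg → ℝ} {P W : ℕ → ℕ → ℝ} {r : Reg} (h : r.headD 0 < 79) :
    val V P W r = V r := by
  unfold val
  split
  · rename_i i c
    change (79 : ℕ) < 79 at h
    omega
  · rename_i i c
    change (80 : ℕ) < 79 at h
    omega
  · rfl

end TPRE

open TPRE TTUP Pool.Agent.W920.FC.TORD1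

theorem t_PRE : S_TUP → S_TWO → S_MOQ → S_PRE := by
  intro hT h2 hM pB
  obtain ⟨q1, hq1⟩ := hM pB
  set q0 : Polynomial ℕ := q1 + (28 * Polynomial.X + 84) with hq0
  set q : Polynomial ℕ := (Polynomial.X + 3) * (2 * Polynomial.X + 4) * (q0 + 2 * Polynomial.X) +
    (2 * Polynomial.X + 4) * q1 + (28 * Polynomial.X + 85) +
    2 * ((Polynomial.X + 3) * (2 * Polynomial.X + 4)) with hq
  refine ⟨q, fun m n p g Ws hg hWs => ?_⟩
  have hcA : ∀ lam, cA m n ≤ (28 * Polynomial.X + 84 : Polynomial ℕ).eval (m + n + lam) := by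
    intro lam
    simp only [cA, cD, cK, Polynomial.eval_add, Polynomial.eval_mul, Polynomial.eval_X,
      Polynomial.eval_ofNat]
    omega
  have hq0e : ∀ x, q0.eval x = q1.eval x + (28 * Polynomial.X + 84 : Polynomial ℕ).eval x :=
    fun x => by rw [hq0, Polynomial.eval_add]
  have hqe : ∀ x, q.eval x = (x + 3) * (2 * x + 4) * (q0.eval x + 2 * x) +
      (2 * x + 4) * q1.eval x + (28 * x + 85) + 2 * ((x + 3) * (2 * x + 4)) := fun x => by
    rw [hq]
    simp only [Polynomial.eval_add, Polynomial.eval_mul, Polynomial.eval_X, Polynomial.eval_ofNat]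
  have hqq0 : ∀ x, q0.eval x + 2 * x ≤ q.eval x := fun x => by
    rw [hqe]
    nlinarith [Nat.zero_le (q0.eval x), Nat.zero_le x, Nat.zero_le (q1.eval x),
      Nat.zero_le (x * q0.eval x), Nat.zero_le (x * x * q0.eval x)]
  have hWc : ∀ c, MoSz (pB.eval (m + n)) (Ws.getD c moOne) ∧ MoOK m n g (Ws.getD c moOne) := by
    intro c
    by_cases h : c < Ws.length
    · rw [List.getD_eq_getElem?_getD, List.getElem?_eq_getElem h]
      exact hWs _ (List.getElem_mem h)
    · rw [List.getD_eq_getElem?_getD, List.getElem?_eq_none (by omega)]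
      exact ⟨⟨Nat.zero_le _, Nat.zero_le _, Nat.zero_le _, Nat.zero_le _⟩, fun x hx => by
        simp [moOne] at hx⟩
  set vs : List ℝ := ((List.range (m + m + 4)).map fun c => wV m n g Ws c) ++ [2 ^ cA m n] with hvs
  -- the queries
  have hmono : ∀ {p p' : Polynomial ℕ}, (∀ x, p.eval x ≤ p'.eval x) → ∀ {q : Qry} {v : ℝ},
      HasVal g (Gd p (m + n) g) q v → HasVal g (Gd p' (m + n) g) q v := by
    rintro p p' hp q v ⟨a1, V, a2, a3, a4, a5⟩
    refine ⟨a1, V, a2, fun I hI => ⟨(a3 I hI).1, (a3 I hI).2.1, fun lam hlam => ?_⟩, a4, a5⟩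
    exact QB_mono (hp _) ((a3 I hI).2.2 lam hlam)
  have hF : List.Forall₂ (HasVal g (Gd q0 (m + n) g)) (wtQs m n Ws) vs := by
    rw [wtQs, hvs]
    refine List.rel_append ?_ (List.Forall₂.cons ?_ List.Forall₂.nil)
    · rw [List.forall₂_map_left_iff, List.forall₂_map_right_iff, List.forall₂_same]
      intro c _
      obtain ⟨w1, w2⟩ := hWc c
      exact hmono (fun x => by rw [hq0e]; omega) (hq1 m n g _ hg w1 w2).1
    · refine (h2 g _ (cA m n) hg fun t ht lam _ => ?_).1
      refine QB_pow t _ (ht.trans ((hcA lam).trans ?_))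
      rw [hq0e]
      omega
  obtain ⟨a1, a2, a3, ⟨V, c1, c2, c3⟩, a5⟩ := hT g _ _ _ hF
  have hlen : (wtQs m n Ws).length = m + m + 5 := by simp [wtQs]
  -- the weights
  set ix : ℕ → ℕ → ℕ := fun i c => if i = n + 2 ∧ c = m + m + 3 then m + m + 4 else c with hix
  have hixl : ∀ i, ∀ c < m + m + 4, ix i c < (wtQs m n Ws).length := by
    intro i c hc
    rw [hlen, hix]
    simp only
    split_ifs <;> omega
  set R : ℕ → ℕ → Reg := fun i c => tupR (wtQs m n Ws) (ix i c) with hR
  have hVR : ∀ i, ∀ c < m + m + 4, V (R i c) =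
      if i = n + 2 ∧ c = m + m + 3 then 2 ^ cA m n else wV m n g Ws c := by
    intro i c hc
    rw [hR]
    simp only
    rw [c3 _ (hixl i c hc), hix, hvs]
    simp only
    split_ifs with h
    · rw [List.getD_append_right _ _ _ _ (by simp)]
      simp
    · rw [List.getD_append _ _ _ _ (by simpa using hc), List.getD_eq_getElem?_getD,
        List.getElem?_eq_getElem (by simpa using hc)]
      simp
  have hRm : ∀ i, ∀ c < m + m + 4, R i c ∈ baseReg ∪ Pool.Agent.W920.FC.wr (tupP (wtQs m n Ws)) :=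
    fun i c hc => a3 _ (hixl i c hc)
  have hSh : ∀ r ∈ baseReg ∪ Pool.Agent.W920.FC.wr (tupP (wtQs m n Ws)), r.headD 0 < 79 := by
    rintro r (h | h)
    · have : r.headD 0 < 4 := h
      omega
    · rw [a2 r h]
      norm_num
  have hVRq : ∀ lam, RB lam g → ∀ i, ∀ c < m + m + 4,
      QB (q0.eval (m + n + lam) + lam) (V (R i c)) := by
    intro lam hlam i c hc
    rcases hRm i c hc with h | ⟨I, hI, h⟩
    · rw [c1 _ h]
      exact QB_mono (by omega) (QB_base hlam h)
    · rw [← h]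
      exact QB_mono (by omega) ((c2 I hI).2 lam hlam)
  have hPWR : ∀ i, ∀ c < m + m + 4, PW m n p g (wV m n g Ws) i c =
      Pc m n p g i c * V (R i c) := by
    intro i c hc
    rw [hVR i c hc, PW]
  have hPWq : ∀ lam, RB lam g → ∀ i, ∀ c < m + m + 4,
      QB (q0.eval (m + n + lam) + 2 * lam) (PW m n p g (wV m n g Ws) i c) := by
    intro lam hlam i c hc
    rw [hPWR i c hc]
    exact QB_mono (by omega) (QB_mul (QB_Pc hlam m n p i c) (hVRq lam hlam i c hc))
  have hpre : preP m n p Ws = tupP (wtQs m n Ws) ++ mat m n p R := rfl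
  refine ⟨?_, ?_, ?_, ⟨val V (Pc m n p g) (PW m n p g (wV m n g Ws)), ?_, ?_, fun i _ c _ => rfl⟩,
    ?_, ?_⟩
  · rw [hpre, ord_append]
    exact ⟨a1, ord_mat Set.subset_union_left hSh fun i _ c hc => hRm i c hc⟩
  · rintro r hr
    rw [hpre, wr_append] at hr
    rcases hr with hr | ⟨I, hI, rfl⟩
    · rw [a2 r hr]
      norm_num
    · obtain ⟨i, -, c, -, h | h⟩ := mem_mat.1 hI
      · rw [h, (spec_cof m n p i c _).1]
        exact ⟨by norm_num, by norm_num⟩
      · rw [h]
        exact ⟨by norm_num, by norm_num⟩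
  · intro i hi c hc
    rw [hpre, wr_append]
    right
    exact ⟨_, mem_mat.2 ⟨i, hi, c, hc, Or.inr rfl⟩, rfl⟩
  · intro r hr
    have : r.headD 0 < 4 := hr
    rw [val_lt (by omega), c1 r hr]
  · intro I hI
    rw [hpre] at hI
    rcases List.mem_append.1 hI with hI | hI
    · obtain ⟨f1, f2⟩ := ord_opr _ _ a1 I hI
      obtain ⟨⟨e1, e2⟩, e3⟩ := c2 I hI
      unfold Eqn
      rw [val_lt (hSh _ f1), val_lt (hSh _ f2), val_lt (hSh I.dst (Or.inr ⟨I, hI, rfl⟩))]
      exact ⟨⟨e1, e2⟩, fun lam hlam => QB_mono (by have := hqq0 (m + n + lam); omega)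
        (e3 lam hlam)⟩
    · obtain ⟨i, hi, c, hc, h | h⟩ := mem_mat.1 hI
      · obtain ⟨s1, s2, s3, s4, s5⟩ := spec_cof m n p i c [79, i, c]
        rw [← h] at s1 s2 s3 s4 s5
        have hb : ∀ r ∈ baseReg, val V (Pc m n p g) (PW m n p g (wV m n g Ws)) r = g r := by
          intro r hr
          have : r.headD 0 < 4 := hr
          rw [val_lt (by omega), c1 r hr]
        have hd : val V (Pc m n p g) (PW m n p g (wV m n g Ws)) I.dst = Pc m n p g i c := by
          rw [s1]
          rfl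
        refine ⟨⟨?_, fun h => absurd h s4⟩, fun lam hlam => ?_⟩
        · rw [hd, hb _ s2, hb _ s3, s5 g hg]
        · rw [hd]
          exact QB_mono (by have := hqq0 (m + n + lam); omega) (QB_Pc hlam m n p i c)
      · have hd : val V (Pc m n p g) (PW m n p g (wV m n g Ws)) I.dst =
            PW m n p g (wV m n g Ws) i c := by
          rw [h]
          rfl
        refine ⟨⟨?_, fun h' => ?_⟩, fun lam hlam => ?_⟩
        · rw [hd, hPWR i c hc, h]
          change _ = Pc m n p g i c * val V (Pc m n p g) (PW m n p g (wV m n g Ws)) (R i c)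
          rw [val_lt (hSh _ (hRm i c hc))]
        · rw [h] at h'
          simp at h'
        · rw [hd]
          exact QB_mono (by have := hqq0 (m + n + lam); omega) (hPWq lam hlam i c hc)
  · have hmat : (mat m n p R).length = (n + 3) * ((m + m + 4) * 2) := by
      simp [mat, List.length_flatMap]
    have hsum : ((wtQs m n Ws).map fun q => q.1.length).sum ≤
        (m + m + 4) * q1.eval (m + n) + (cA m n + 1) := by
      rw [wtQs, List.map_append, List.sum_append, List.map_map]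
      refine Nat.add_le_add ?_ ?_
      · refine (List.sum_le_card_nsmul _ (q1.eval (m + n)) ?_).trans ?_
        · intro x hx
          obtain ⟨c, -, rfl⟩ := List.mem_map.1 hx
          obtain ⟨w1, w2⟩ := hWc c
          exact (hq1 m n g _ hg w1 w2).2
        · simp
      · simp [twoQ]
    rw [hpre, List.length_append, a5, hmat, hqe]
    have e1 := hcA 0
    rw [add_zero] at e1
    simp only [Polynomial.eval_add, Polynomial.eval_mul, Polynomial.eval_X,
      Polynomial.eval_ofNat] at e1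
    have e2 : (m + m + 4) * q1.eval (m + n) ≤ (2 * (m + n) + 4) * q1.eval (m + n) :=
      Nat.mul_le_mul_right _ (by omega)
    have e3 : (n + 3) * ((m + m + 4) * 2) ≤ 2 * ((m + n + 3) * (2 * (m + n) + 4)) := by
      calc (n + 3) * ((m + m + 4) * 2) = 2 * ((n + 3) * (m + m + 4)) := by ring
        _ ≤ _ := Nat.mul_le_mul_left _ (Nat.mul_le_mul (by omega) (by omega))
    omega
  · intro lam hlam
    classical
    obtain ⟨D, d1, d2, d3⟩ := common (Finset.range (n + 3) ×ˢ Finset.range (m + m + 4))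
      (fun x => PW m n p g (wV m n g Ws) x.1 x.2) (q0.eval (m + n + lam) + 2 * lam) (by
        intro x hx
        rw [Finset.mem_product, Finset.mem_range, Finset.mem_range] at hx
        exact hPWq lam hlam x.1 x.2 hx.2)
    rw [Finset.card_product, Finset.card_range, Finset.card_range] at d2 d3
    have hle : (n + 3) * (m + m + 4) * (q0.eval (m + n + lam) + 2 * lam) ≤
        q.eval (m + n + lam) := by
      rw [hqe]
      have : (n + 3) * (m + m + 4) * (q0.eval (m + n + lam) + 2 * lam) ≤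
          (m + n + lam + 3) * (2 * (m + n + lam) + 4) *
            (q0.eval (m + n + lam) + 2 * (m + n + lam)) :=
        Nat.mul_le_mul (Nat.mul_le_mul (by omega) (by omega)) (by omega)
      omega
    have hpw := Nat.pow_le_pow_right (show 0 < 2 by norm_num) hle
    refine ⟨D, d1, d2.trans hpw, fun r _ => ?_⟩
    unfold gW
    split_ifs with h h'
    · obtain ⟨z, hz, hz'⟩ := d3 (r.getD 1 0, r.getD 2 0) (by
        rw [Finset.mem_product, Finset.mem_range, Finset.mem_range]
        exact h.2.2)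
      exact ⟨z, hz.trans hpw, hz'⟩
    · exact ⟨D, by simpa using d2.trans hpw, by simp⟩
    · exact ⟨0, by simp, by simp⟩

end Pool.Agent.Y648.CS
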