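import Pool.Agent.Y648.CS.T_QD
import Pool.Agent.W920.FD.T_Q4

set_option autoImplicit false

/-!
# The whole computation in polynomial time
-/

namespace Pool.Agent.Y648.CS

open Pool.Agent.NPC Pool.Agent.H558R2 Pool.Agent.H622R3.SM Pool.Agent.W920.FC

namespace TPTA

open TQQ TQD Pool.Agent.W920.FD.TQ4

/-! ### Bounds for monomials -/

/-- Lengths and sizes of a monomial. -/
def MoB (E L S : ℕ) (a : Mo) : Prop :=
  a.1.2.1.length ≤ E ∧ a.1.2.2.length ≤ E ∧ a.2.1.length ≤ L ∧ a.2.2.length ≤ L ∧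
  (∀ x ∈ a.2.1, sz x ≤ S) ∧ ∀ x ∈ a.2.2, sz x ≤ S

theorem mob_mono {E L S E' L' S' : ℕ} {a : Mo} (h : MoB E L S a) (hE : E ≤ E') (hL : L ≤ L')
    (hS : S ≤ S') : MoB E' L' S' a :=
  ⟨h.1.trans hE, h.2.1.trans hE, h.2.2.1.trans hL, h.2.2.2.1.trans hL,
    fun x hx => (h.2.2.2.2.1 x hx).trans hS, fun x hx => (h.2.2.2.2.2 x hx).trans hS⟩

theorem mob_one (E L S : ℕ) : MoB E L S moOne := by simp [MoB, moOne]

theorem mob_two (e S : ℕ) : MoB e 0 S (moTwo e) := by simp [MoB, moTwo]

theorem mob_half {E L S : ℕ} {a : Mo} (h : MoB E L S a) : MoB (E + 1) L S (moHalf a) := by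
  obtain ⟨h1, h2, h3, h4, h5, h6⟩ := h
  exact ⟨h1.trans (Nat.le_succ _), by simpa [moHalf] using h2, h3, h4, h5, h6⟩

theorem mob_inv {E L S : ℕ} {a : Mo} (h : MoB E L S a) : MoB E L S (moInv a) := by
  obtain ⟨h1, h2, h3, h4, h5, h6⟩ := h
  exact ⟨h2, h1, h4, h3, h6, h5⟩

theorem mob_fix {E L S : ℕ} {a : Mo} (o : Outcome) (h : MoB E L S a) : MoB E L S (fixS a o) := h

theorem mob_mul {E L S E' L' : ℕ} {a b : Mo} (h : MoB E L S a) (h' : MoB E' L' S b) :
    MoB (E + E') (L + L') S (moMul a b) := by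
  obtain ⟨h1, h2, h3, h4, h5, h6⟩ := h
  obtain ⟨g1, g2, g3, g4, g5, g6⟩ := h'
  refine ⟨?_, ?_, ?_, ?_, ?_, ?_⟩
  · simp only [moMul, List.length_append]; omega
  · simp only [moMul, List.length_append]; omega
  · simp only [moMul, List.length_append]; omega
  · simp only [moMul, List.length_append]; omega
  · intro x hx
    simp only [moMul, List.mem_append] at hx
    exact hx.elim (h5 x) (g5 x)
  · intro x hx
    simp only [moMul, List.mem_append] at hx
    exact hx.elim (h6 x) (g6 x)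

theorem mob_rat {S : ℕ} {x y : Mn} (hx : sz x ≤ S) (hy : sz y ≤ S) : MoB 0 1 S (moRat x y) := by
  refine ⟨le_rfl, le_rfl, le_rfl, le_rfl, ?_, ?_⟩
  · intro z hz
    simp only [moRat, List.mem_singleton] at hz
    rw [hz]; exact hx
  · intro z hz
    simp only [moRat, List.mem_singleton] at hz
    rw [hz]; exact hy

theorem mob_any (a : Mo) : MoB (sz a) (sz a) (sz a) a := by
  obtain ⟨⟨s, u, v⟩, l, l'⟩ := a
  have h1 := length_lt_sz u
  have h2 := length_lt_sz v
  have h3 := length_lt_sz l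
  have h4 := length_lt_sz l'
  refine ⟨?_, ?_, ?_, ?_, ?_, ?_⟩
  · simp only [sz_pair]; omega
  · simp only [sz_pair]; omega
  · simp only [sz_pair]; omega
  · simp only [sz_pair]; omega
  · intro x hx
    have h5 := sz_le_of_mem (l := l) hx
    simp only [sz_pair (α := (Bool × (List Unit × List Unit)))
      (β := List Mn × List Mn), sz_pair (α := List Mn)] 
    omega
  · intro x hx
    have h5 := sz_le_of_mem (l := l') hx
    simp only [sz_pair (α := (Bool × (List Unit × List Unit)))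
      (β := List Mn × List Mn), sz_pair (α := List Mn)] 
    omega

/-- The bound for the size of a monomial. -/
def moZ (E L S : ℕ) : ℕ := 4 * E + 2 * (L * (S + 1)) + 12

theorem mob_sz {E L S : ℕ} {a : Mo} (h : MoB E L S a) : sz a ≤ moZ E L S := by
  obtain ⟨⟨s, u, v⟩, l, l'⟩ := a
  obtain ⟨h1, h2, h3, h4, h5, h6⟩ := h
  simp only at h1 h2 h3 h4 h5 h6
  have e1 := sz_le_length_mul u 1 (fun _ _ => le_rfl)
  have e2 := sz_le_length_mul v 1 (fun _ _ => le_rfl)
  have e3 := sz_le_length_mul l S h5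
  have e4 := sz_le_length_mul l' S h6
  have e5 := Nat.mul_le_mul_right (S + 1) h3
  have e6 := Nat.mul_le_mul_right (S + 1) h4
  have e7 := sz_bool_le s
  have e : sz (((s, (u, v)), (l, l')) : Mo) =
      (sz s + (sz u + sz v + 1) + 1) + (sz l + sz l' + 1) + 1 := by
    rw [sz_pair, sz_pair s, sz_pair u, sz_pair l]
  rw [e]
  unfold moZ
  omega

/-! ### Bases -/

/-- Bounds for the basis. -/
def BtB (m n : ℕ) (bt : List ℕ) : Prop := bt.length ≤ n + 2 ∧ ∀ x ∈ bt, x ≤ m + m + n + 4

/-- The bound for the size of a minor. -/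
def Smn (p m n : ℕ) : ℕ := sz p + ((n + 2) * (4 * (m + m + n + 4) + 2) + 1) + 1

theorem sz_mn {p m n : ℕ} {bt : List ℕ} (h : BtB m n bt) : sz ((p, bt) : Mn) ≤ Smn p m n := by
  have h1 := sz_le_length_mul bt (4 * (m + m + n + 4) + 1) (fun x hx => by
    have h2 := sz_nat_le x
    have h3 := NPC.Poly.size_le_self x
    have h4 := h.2 x hx
    omega)
  have h2 := Nat.mul_le_mul_right (4 * (m + m + n + 4) + 1 + 1) h.1
  have e : sz ((p, bt) : Mn) = sz p + sz bt + 1 := sz_pair p bt
  have e2 : (n + 2) * (4 * (m + m + n + 4) + 1 + 1) = (n + 2) * (4 * (m + m + n + 4) + 2) := rfl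
  rw [e]
  unfold Smn
  omega

theorem btb_set {m n : ℕ} {bt : List ℕ} (h : BtB m n bt) {k c : ℕ} (hc : c ≤ m + m + n + 4) :
    BtB m n (bt.set k c) := by
  refine ⟨by rw [List.length_set]; exact h.1, fun x hx => ?_⟩
  rcases List.mem_or_eq_of_mem_set hx with hx | hx
  · exact h.2 x hx
  · rw [hx]; exact hc

theorem mob_tM {m n p : ℕ} {bt : List ℕ} (h : BtB m n bt) {k c : ℕ} (hc : c < m + m + 2) :
    MoB 0 1 (Smn p m n) (tM p bt k c) :=
  mob_rat (sz_mn (btb_set h (by omega))) (sz_mn h)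

theorem pick_le {m k : ℕ} {drop : List Bool} {o : List Outcome} :
    pick m drop k o ≤ m + m + 2 + k := by
  unfold pick
  cases hh : ((List.range (m + m + 2)).filter fun c => act m drop c &&
    (decide (o.getD c none ≠ none) && (List.range (m + m + 2)).all fun c' => !(act m drop c') ||
      decide (0 ≤ osg (o.getD (m + m + 2 + (c * (m + m + 2) + c')) none)))).head? with
  | none => simp
  | some c =>
    have h1 := List.mem_of_mem_head? (Option.mem_def.2 hh)
    have h2 := List.mem_range.1 (List.mem_filter.1 h1).1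
    simp only [Option.getD_some]
    omega

/-- A step for the basis. -/
def baF (m n p : ℕ) (drop : List Bool) (t : Mo) (W : List Mo) (bt : List ℕ) : TT (List ℕ) :=
  bnd (batch (baQs m n p t W bt)) fun o => ret (bt ++ [pick m drop bt.length o])

theorem basis_eq (m n p : ℕ) (drop : List Bool) (t : Mo) (W : List Mo) :
    basis m n p drop t W = iter (baF m n p drop t W) (n + 2) [] := rfl

theorem out_ba (hO : S_OUT) {m n p : ℕ} {drop : List Bool} {t : Mo} {W : List Mo} :
    ∀ (i : ℕ) (bt : List ℕ), Out (iter (baF m n p drop t W) i []) bt →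
      bt.length = i ∧ ∀ x ∈ bt, x ≤ m + m + 2 + i := by
  intro i
  induction i with
  | zero =>
    intro bt h
    have := hO.1 _ _ _ h
    subst this
    exact ⟨rfl, fun x hx => absurd hx List.not_mem_nil⟩
  | succ i ih =>
    intro bt h
    obtain ⟨b, hb, hc⟩ := hO.2.2.1 _ _ _ _ _ h
    obtain ⟨h1, h2⟩ := ih b hb
    unfold baF at hc
    obtain ⟨o, -, hc⟩ := hO.2.1 _ _ _ _ _ hc
    have := hO.1 _ _ _ hc
    subst this
    refine ⟨by simp [h1], fun x hx => ?_⟩
    rcases List.mem_append.1 hx with hx | hx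
    · have := h2 x hx
      omega
    · rw [List.mem_singleton] at hx
      have := pick_le (m := m) (k := b.length) (drop := drop) (o := o)
      rw [hx]
      omega

theorem out_basis (hO : S_OUT) {m n p : ℕ} {drop : List Bool} {t : Mo} {W : List Mo}
    {bt : List ℕ} (h : Out (basis m n p drop t W) bt) : BtB m n bt := by
  rw [basis_eq] at h
  obtain ⟨h1, h2⟩ := out_ba hO _ _ h
  exact ⟨h1.le, fun x hx => (h2 x hx).trans (by omega)⟩

/-! ### Labels -/

theorem mob_hop {m n p : ℕ} {drop : List Bool} {bt : List ℕ} {o : List Outcome} {u v : ℕ}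
    (h : BtB m n bt) (hu : u < m + m + 2) (hv : v < m + m + 2) {f : Mo}
    (hf : f ∈ hop m n p drop bt o u v) : MoB (cE m n) 1 (Smn p m n) f := by
  unfold hop at hf
  obtain ⟨k, -, hf⟩ := List.mem_flatMap.1 hf
  rcases List.mem_append.1 hf with hf | hf
  · split_ifs at hf with h1
    · rw [List.mem_singleton] at hf
      rw [hf]
      have := mob_mul (mob_two (cE m n) (Smn p m n)) (mob_inv (mob_tM (p := p) h (k := k) hv))
      simpa using this
    · simp at hf
  · split_ifs at hf with h1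
    · rw [List.mem_singleton] at hf
      rw [hf]
      have := mob_mul (mob_two (cE m n) (Smn p m n)) (mob_tM (p := p) h (k := k) hu)
      simpa using this
    · simp at hf

theorem getD_some_mem {L : Lab} {u : ℕ} {x : Bool × Mo} (hx : L.getD u none = some x) :
    some x ∈ L := by
  rw [List.getD_eq_getElem?_getD] at hx
  cases hu : L[u]? with
  | none => rw [hu] at hx; simp at hx
  | some z =>
    rw [hu] at hx
    simp only [Option.getD_some] at hx
    subst hx
    exact List.mem_of_getElem? hu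

theorem lab_mob {m n p : ℕ} {drop : List Bool} {bt : List ℕ} {o : List Outcome}
    (hbt : BtB m n bt) :
    ∀ (i : ℕ) (x : Bool × Mo), some x ∈ (labS m n p drop bt o)^[i] (lab0 m) →
        MoB (i * cE m n) i (Smn p m n) x.2 := by
  intro i
  induction i with
  | zero =>
    intro x hx
    simp only [Function.iterate_zero, id, lab0, List.mem_map] at hx
    obtain ⟨c, -, hc⟩ := hx
    split_ifs at hc with h1 h2
    · simp only [Option.some.injEq] at hc
      rw [← hc]
      exact mob_one _ _ _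
    · simp only [Option.some.injEq] at hc
      rw [← hc]
      exact mob_one _ _ _
  | succ i ih =>
    rw [Function.iterate_succ_apply']
    set L := (labS m n p drop bt o)^[i] (lab0 m) with hL
    intro x hx
    have e : (i + 1) * cE m n = i * cE m n + cE m n := by ring
    simp only [labS, List.mem_map, List.mem_range] at hx
    obtain ⟨v, hv, hx⟩ := hx
    cases hLv : L.getD v none with
    | some z =>
      rw [hLv] at hx
      simp only [Option.elim_some, Option.some.injEq] at hx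
      subst hx
      exact mob_mono (ih _ (getD_some_mem hLv)) (by omega) (by omega) le_rfl
    | none =>
      rw [hLv] at hx
      simp only [Option.elim_none] at hx
      have hx' := List.mem_of_mem_head? (Option.mem_def.2 hx)
      rw [List.mem_flatMap] at hx'
      obtain ⟨u, hu, hx'⟩ := hx'
      have hu := List.mem_range.1 hu
      cases hLu : L.getD u none with
      | none => rw [hLu] at hx'; simp at hx'
      | some z =>
        rw [hLu] at hx'
        simp only [Option.elim_some, List.mem_map] at hx'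
        obtain ⟨f, hf, rfl⟩ := hx'
        rw [e]
        exact mob_mul (ih _ (getD_some_mem hLu)) (mob_hop hbt hu hv hf)

/-- The bound for the exponents of labels. -/
def lE (m n : ℕ) : ℕ := (m + m + 2) * cE m n

theorem mob_lbW {m n p : ℕ} {drop : List Bool} {bt : List ℕ} {o : List Outcome}
    (hbt : BtB m n bt) (c : ℕ) :
    MoB (lE m n) (m + m + 2) (Smn p m n) (lbW (labs m n p drop bt o) c) := by
  unfold lbW
  cases h : (labs m n p drop bt o).getD c none with
  | none => exact mob_one _ _ _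
  | some x => exact lab_mob hbt _ x (getD_some_mem h)

theorem mob_crs {m n p : ℕ} {drop : List Bool} {bt : List ℕ} {o : List Outcome}
    (hbt : BtB m n bt) {a : Mo} (ha : a ∈ crs m n p drop bt o (labs m n p drop bt o)) :
    MoB (2 * lE m n) (4 * m + 5) (Smn p m n) a := by
  unfold crs at ha
  obtain ⟨k, -, ha⟩ := List.mem_flatMap.1 ha
  obtain ⟨c, hc, ha⟩ := List.mem_flatMap.1 ha
  have hc := List.mem_range.1 hc
  split_ifs at ha with h1
  · rw [List.mem_singleton] at ha
    rw [ha]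
    exact mob_mono (mob_mul (mob_tM (p := p) hbt (k := k) hc) (mob_mul
      (mob_lbW (p := p) (drop := drop) (o := o) hbt c)
      (mob_inv (mob_lbW (p := p) (drop := drop) (o := o) hbt (bt.getD k 0)))))
      (by omega) (by omega) le_rfl
  · simp at ha

theorem mob_argmax {E L S : ℕ} {l : List Mo} (o : List Outcome) (h : ∀ a ∈ l, MoB E L S a) :
    MoB E L S (argmax l o) := by
  unfold argmax
  rw [List.getD_eq_getElem?_getD]
  generalize ((((List.range l.length).filter fun i => (List.range l.length).all fun j =>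
    decide (0 ≤ osg (o.getD (i * l.length + j) none))).head?).getD 0) = i
  cases hi : l[i]? with
  | none => exact mob_one _ _ _
  | some z => exact h z (List.mem_of_getElem? hi)

/-! ### The parts of the end of an iteration -/

/-- The state after a jump. -/
def finR (A : Mo) (N : List Mo) (o3 : List Outcome) : PS :=
  (0, (fixS A (o3.getD 0 none), (N.zipIdx.map fun x => fixS x.1 (o3.getD (x.2 + 1) none), [])))

/-- A jump. -/
def finC (m n : ℕ) (A : Mo) (N : List Mo) : TT PS :=
  bnd (batch (fxQ m n A :: N.map (fxQ m n))) fun o3 => ret (finR A N o3)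

/-- The end of the end of an iteration. -/
def finB (m n : ℕ) (drop : List Bool) (l : Lab) (t : Mo) (W : List Mo) (A : Mo) : TT PS :=
  bnd (batch [cmpQ m n (moMul (moTwo (cJ m n + 1)) A) t]) fun o'' =>
    if o''.getD 0 none = some false then
      finC m n (moMul (moTwo (cJ m n)) A) (newW m n drop l (moMul (moTwo (cJ m n)) A))
    else ret (0, (moHalf t, (W, [])))

/-- The end of an iteration, from the labels. -/
def finA (m n p : ℕ) (drop : List Bool) (t : Mo) (W : List Mo) (bt : List ℕ) (o : List Outcome)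
    (l : Lab) : TT PS :=
  if conn m n p drop bt o l then ret (0, (moHalf t, (W, [])))
  else
    if (crs m n p drop bt o l).isEmpty then
      ret (2, (t, (W, (List.range (m + m)).map fun c => isL l false c)))
    else
      bnd (batch (sqQs m n (crs m n p drop bt o l))) fun o' =>
        finB m n drop l t W (argmax (crs m n p drop bt o l) o')

theorem fin_eq (m n p : ℕ) (drop : List Bool) (t : Mo) (W : List Mo) (bt : List ℕ)
    (o : List Outcome) : fin m n p drop t W bt o =
      finA m n p drop t W bt o (labs m n p drop bt o) := rfl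

/-! ### The states -/

/-- Bounds for a state. -/
def PInv (E L S K Z : ℕ) (s : PS) : Prop :=
  sz s.1 ≤ Z ∧ MoB E L S s.2.1 ∧ s.2.2.1.length ≤ K ∧ (∀ a ∈ s.2.2.1, MoB E L S a) ∧
  s.2.2.2.length ≤ K

theorem pinv_mono {E L S K Z E' : ℕ} {s : PS} (h : PInv E L S K Z s) (hE : E ≤ E') :
    PInv E' L S K Z s :=
  ⟨h.1, mob_mono h.2.1 hE le_rfl le_rfl, h.2.2.1,
    fun a ha => mob_mono (h.2.2.2.1 a ha) hE le_rfl le_rfl, h.2.2.2.2⟩

/-- The growth of the exponents in one iteration. -/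
def cG (m n : ℕ) : ℕ := Pool.Agent.Y648.CS.cR m n + cJ m n + cW m n + 3 * lE m n + 1

theorem out_finB (hO : S_OUT) {m n p E L S K Z : ℕ} {drop : List Bool} {bt : List ℕ}
    {o : List Outcome} {t A : Mo} {W : List Mo} {c : PS} (hL : 6 * m + 8 ≤ L)
    (hS : Smn p m n ≤ S) (hK : m + m ≤ K) (hZ : 20 ≤ Z) (hbt : BtB m n bt)
    (ht : MoB E L S t) (hW : ∀ a ∈ W, MoB (E + Pool.Agent.Y648.CS.cR m n) L S a)
    (hWl : W.length ≤ K) (hA : MoB (2 * lE m n) (4 * m + 5) (Smn p m n) A)
    (hc : Out (finB m n drop (labs m n p drop bt o) t W A) c) : PInv (E + cG m n) L S K Z c := by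
  have h0 : sz (0 : ℕ) ≤ 20 := by
    have := sz_nat_le 0
    simp at this
    omega
  have hhalf : PInv (E + cG m n) L S K Z (0, (moHalf t, (W, []))) := by
    refine ⟨h0.trans hZ, mob_mono (mob_half ht) ?_ le_rfl le_rfl, hWl, fun a ha =>
      mob_mono (hW a ha) ?_ le_rfl le_rfl, Nat.zero_le _⟩
    · unfold cG; omega
    · unfold cG; omega
  unfold finB at hc
  obtain ⟨o1, -, hc⟩ := hO.2.1 _ _ _ _ _ hc
  split_ifs at hc with h1
  · unfold finC at hc
    obtain ⟨o2, -, hc⟩ := hO.2.1 _ _ _ _ _ hc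
    rw [hO.1 _ _ _ hc]
    have hA' : MoB (cJ m n + 2 * lE m n) (0 + (4 * m + 5)) (Smn p m n)
        (moMul (moTwo (cJ m n)) A) := mob_mul (mob_two _ _) hA
    refine ⟨h0.trans hZ, ?_, ?_, ?_, Nat.zero_le _⟩
    · refine mob_fix _ (mob_mono hA' ?_ (by omega) hS)
      unfold cG; omega
    · simp only [finR, newW, List.length_map, List.length_zipIdx, List.length_range]
      exact hK
    · intro a ha
      obtain ⟨x, hx, rfl⟩ := List.mem_map.1 ha
      have hx' : x.1 ∈ newW m n drop (labs m n p drop bt o) (moMul (moTwo (cJ m n)) A) := by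
        obtain ⟨x1, x2⟩ := x
        exact List.fst_mem_of_mem_zipIdx hx
      refine mob_fix _ ?_
      unfold newW at hx'
      obtain ⟨c', -, hc'⟩ := List.mem_map.1 hx'
      have hl := mob_lbW (p := p) (drop := drop) (o := o) hbt c'
      split_ifs at hc' with g1 g2
      · rw [← hc']
        refine mob_mono (mob_mul (mob_two (cW m n) _) (mob_mul hl hA')) ?_ (by omega) hS
        unfold cG; omega
      · rw [← hc']
        refine mob_mono hl ?_ (by omega) hS
        unfold cG; omega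
      · rw [← hc']
        exact mob_one _ _ _
  · rw [hO.1 _ _ _ hc]
    exact hhalf

theorem out_fin (hO : S_OUT) {m n p E L S K Z : ℕ} {drop : List Bool} {bt : List ℕ}
    {o : List Outcome} {t : Mo} {W : List Mo} {c : PS} (hL : 6 * m + 8 ≤ L)
    (hS : Smn p m n ≤ S) (hK : m + m ≤ K) (hZ : 20 ≤ Z) (hbt : BtB m n bt)
    (ht : MoB E L S t) (hW : ∀ a ∈ W, MoB (E + Pool.Agent.Y648.CS.cR m n) L S a)
    (hWl : W.length ≤ K)
    (hc : Out (fin m n p drop t W bt o) c) : PInv (E + cG m n) L S K Z c := by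
  have h0 : sz (0 : ℕ) ≤ 20 := by
    have := sz_nat_le 0
    simp at this
    omega
  have h2 : sz (2 : ℕ) ≤ 20 := by
    have := sz_nat_le 2
    have e : Nat.size 2 ≤ 2 := NPC.Poly.size_le_self 2
    omega
  rw [fin_eq] at hc
  unfold finA at hc
  split_ifs at hc with h1 h3
  · rw [hO.1 _ _ _ hc]
    refine ⟨h0.trans hZ, mob_mono (mob_half ht) ?_ le_rfl le_rfl, hWl, fun a ha =>
      mob_mono (hW a ha) ?_ le_rfl le_rfl, Nat.zero_le _⟩
    · unfold cG; omega
    · unfold cG; omega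
  · rw [hO.1 _ _ _ hc]
    refine ⟨h2.trans hZ, mob_mono ht ?_ le_rfl le_rfl, hWl, fun a ha =>
      mob_mono (hW a ha) ?_ le_rfl le_rfl, ?_⟩
    · unfold cG; omega
    · unfold cG; omega
    · simp only [List.length_map, List.length_range]
      exact hK
  · obtain ⟨o1, -, hc⟩ := hO.2.1 _ _ _ _ _ hc
    exact out_finB hO hL hS hK hZ hbt ht hW hWl (mob_argmax _ fun a ha => mob_crs hbt ha) hc

/-! ### The search for the centre -/

/-- A step of the perceptron algorithm. -/
def stepF (m n p : ℕ) (drop : List Bool) (Ws : List Mo) (t : List ℕ × Bool) :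
    TT (List ℕ × Bool) :=
  bnd (batch (peQs m n p drop Ws t.1)) fun o => ret (pUpd (cD m n) (tsK m n drop) t o)

/-- The perceptron algorithm. -/
def perc (m n p : ℕ) (drop : List Bool) (Ws : List Mo) : TT (List ℕ × Bool) :=
  iter (stepF m n p drop Ws) (cT (n + 3) (m + m + 4))
    ((List.range (cD m n)).map fun _ => 0, false)

/-- The result of a round. -/
def rndR (m n : ℕ) (s : RS) (t : List ℕ × Bool) : RS :=
  if t.2 = true then ((s.1.1, t.1), true) else ((halve m n s.1.1 t.1, t.1), false)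

theorem rnd_eq (m n p : ℕ) (drop : List Bool) (s : RS) :
    rnd m n p drop s = if s.2 = true then ret s
      else bnd (perc m n p drop s.1.1) fun t => ret (rndR m n s t) := rfl

theorem inv_pUpd {K i : ℕ} {ts : List Bool} {s : List ℕ × Bool} {o : List Outcome}
    (h : Inv K i s.1) : Inv K (i + 1) (pUpd K ts s o).1 := by
  unfold pUpd
  cases (bdM K ts o).head? with
  | none => exact inv_succ h
  | some j => exact inv_bump h j

theorem out_steps (hO : S_OUT) {m n p : ℕ} {drop : List Bool} {Ws : List Mo} (i : ℕ)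
    (t : List ℕ × Bool)
    (h : Out (iter (stepF m n p drop Ws) i ((List.range (cD m n)).map fun _ => 0, false)) t) :
    Inv (cD m n) i t.1 := by
  refine out_iter hO (inv_zero _) ?_ i t h
  intro i b c hb hc
  unfold stepF at hc
  obtain ⟨o, -, ho⟩ := hO.2.1 _ _ _ _ _ hc
  rw [hO.1 _ _ _ ho]
  exact inv_pUpd hb

theorem halve_getD {m n : ℕ} {Ws : List Mo} {y : List ℕ} {c : ℕ} (hc : c < m + m + 4) :
    (halve m n Ws y).getD c moOne = moHalf (Ws.getD c moOne) ∨
      (halve m n Ws y).getD c moOne = Ws.getD c moOne := by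
  unfold halve
  rw [List.getD_eq_getElem?_getD, List.getElem?_map, List.getElem?_range hc]
  simp only [Option.map_some, Option.getD_some]
  split_ifs
  · exact Or.inl rfl
  · exact Or.inr rfl

theorem out_rnds (hO : S_OUT) {m n p E L S : ℕ} {drop : List Bool} {s0 : RS}
    (h0 : ∀ c < m + m, MoB E L S (s0.1.1.getD c moOne)) : ∀ (i : ℕ) (s : RS),
    Out (iter (rnd m n p drop) i s0) s → ∀ c < m + m, MoB (E + i) L S (s.1.1.getD c moOne) := by
  intro i
  induction i with
  | zero =>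
    intro s h
    rw [hO.1 _ _ _ h]
    exact h0
  | succ i ih =>
    intro s h c hc
    obtain ⟨b, hb, h⟩ := hO.2.2.1 _ _ _ _ _ h
    have h1 := ih b hb c hc
    rw [rnd_eq] at h
    split_ifs at h with hs
    · rw [hO.1 _ _ _ h]
      exact mob_mono h1 (by omega) le_rfl le_rfl
    · obtain ⟨t, -, h⟩ := hO.2.1 _ _ _ _ _ h
      rw [hO.1 _ _ _ h]
      unfold rndR
      split_ifs with ht
      · exact mob_mono h1 (by omega) le_rfl le_rfl
      · rcases halve_getD (m := m) (n := n) (Ws := b.1.1) (y := t.1) (c := c) (by omega)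
          with e | e
        · simp only [e]
          exact mob_half h1
        · simp only [e]
          exact mob_mono h1 (by omega) le_rfl le_rfl

theorem getD_mob {E L S : ℕ} {W : List Mo} (h : ∀ a ∈ W, MoB E L S a) (c : ℕ) :
    MoB E L S (W.getD c moOne) := by
  rw [List.getD_eq_getElem?_getD]
  cases hi : W[c]? with
  | none => exact mob_one _ _ _
  | some z => exact h z (List.mem_of_getElem? hi)

theorem out_recen (hO : S_OUT) {m n p E L S : ℕ} {drop : List Bool} {t : Mo} {W : List Mo}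
    {c : RS} (hW : ∀ a ∈ W, MoB E L S a) (h : Out (recen m n p drop t W) c) :
    ∀ a ∈ c.1.1.take (m + m), MoB (E + Pool.Agent.Y648.CS.cR m n) L S a := by
  unfold recen at h
  have h1 := out_rnds (E := E) (L := L) (S := S) hO ?_ _ c h
  · intro a ha
    obtain ⟨i, hi, rfl⟩ := List.getElem_of_mem ha
    rw [List.length_take] at hi
    have h2 := h1 i (by omega)
    rw [List.getD_eq_getElem?_getD, List.getElem?_eq_getElem (by omega)] at h2
    rw [List.getElem_take]
    exact h2
  · intro i hi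
    simp only [ws0]
    rw [List.getD_eq_getElem?_getD, List.getElem?_append_left (by simpa using hi),
      List.getElem?_map, List.getElem?_range hi]
    exact getD_mob hW i

theorem out_itr (hO : S_OUT) {m n p E L S K Z : ℕ} {drop : List Bool} {s c : PS}
    (hL : 6 * m + 8 ≤ L) (hS : Smn p m n ≤ S) (hK : m + m ≤ K) (hZ : 20 ≤ Z)
    (h : PInv E L S K Z s) (hc : Out (itr m n p drop s) c) : PInv (E + cG m n) L S K Z c := by
  unfold itr at hc
  by_cases h0 : s.1 ≠ 0
  · rw [if_pos h0] at hc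
    rw [hO.1 _ _ _ hc]
    exact pinv_mono h (Nat.le_add_right _ _)
  · rw [if_neg h0] at hc
    obtain ⟨c1, hc1, hc⟩ := hO.2.1 _ _ _ _ _ hc
    obtain ⟨o, -, hc⟩ := hO.2.1 _ _ _ _ _ hc
    have hr := out_recen hO h.2.2.2.1 hc1
    split_ifs at hc with hz
    · rw [hO.1 _ _ _ hc]
      have h1 : sz (1 : ℕ) ≤ 20 := by
        have := sz_nat_le 1
        have e : Nat.size 1 ≤ 1 := NPC.Poly.size_le_self 1
        omega
      have h' := pinv_mono h (Nat.le_add_right E (cG m n))
      exact ⟨h1.trans hZ, h'.2⟩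
    · obtain ⟨bt, hbt, hc⟩ := hO.2.1 _ _ _ _ _ hc
      obtain ⟨o', -, hc⟩ := hO.2.1 _ _ _ _ _ hc
      refine out_fin hO hL hS hK hZ (out_basis hO hbt) h.2.1 hr ?_ hc
      rw [List.length_take]
      exact (min_le_left _ _).trans hK

theorem out_itrs (hO : S_OUT) {m n p E L S K Z : ℕ} {drop : List Bool} {s0 : PS}
    (hL : 6 * m + 8 ≤ L) (hS : Smn p m n ≤ S) (hK : m + m ≤ K) (hZ : 20 ≤ Z)
    (h0 : PInv E L S K Z s0) : ∀ (i : ℕ) (s : PS), Out (iter (itr m n p drop) i s0) s →
      PInv (E + i * cG m n) L S K Z s := by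
  intro i
  induction i with
  | zero =>
    intro s h
    rw [hO.1 _ _ _ h]
    simpa using h0
  | succ i ih =>
    intro s h
    obtain ⟨b, hb, h⟩ := hO.2.2.1 _ _ _ _ _ h
    have e : E + (i + 1) * cG m n = E + i * cG m n + cG m n := by ring
    rw [e]
    exact out_itr hO hL hS hK hZ (ih b hb) h

/-- The bound for the size of a state. -/
def psZ (E L S K Z : ℕ) : ℕ :=
  Z + moZ E L S + K * (moZ E L S + 1) + 4 * K + 5

theorem pinv_sz {E L S K Z : ℕ} {s : PS} (h : PInv E L S K Z s) : sz s ≤ psZ E L S K Z := by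
  obtain ⟨st, t, W, B⟩ := s
  obtain ⟨h1, h2, h3, h4, h5⟩ := h
  simp only at h1 h2 h3 h4 h5
  have e1 := mob_sz h2
  have e2 := sz_le_length_mul W (moZ E L S) fun a ha => mob_sz (h4 a ha)
  have e3 := sz_le_length_mul B 3 fun a _ => sz_bool_le a
  have e4 := Nat.mul_le_mul_right (moZ E L S + 1) h3
  have e : sz ((st, (t, (W, B))) : PS) = sz st + (sz t + (sz W + sz B + 1) + 1) + 1 := by
    rw [sz_pair, sz_pair t, sz_pair W]
  rw [e]
  unfold psZ
  omega

theorem pinv_any (s : PS) {L S K Z : ℕ} (hL : sz s ≤ L) (hS : sz s ≤ S) (hK : sz s ≤ K)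
    (hZ : sz s ≤ Z) : PInv (sz s) L S K Z s := by
  obtain ⟨st, t, W, B⟩ := s
  have e : sz ((st, (t, (W, B))) : PS) = sz st + (sz t + (sz W + sz B + 1) + 1) + 1 := by
    rw [sz_pair, sz_pair t, sz_pair W]
  have h1 := length_lt_sz W
  have h2 := length_lt_sz B
  refine ⟨?_, mob_mono (mob_any t) ?_ ?_ ?_, ?_, fun a ha => ?_, ?_⟩
  · change sz st ≤ Z
    omega
  · omega
  · omega
  · omega
  · change W.length ≤ K
    omega
  · have h3 := sz_le_of_mem (l := W) ha
    exact mob_mono (mob_any a) (by omega) (by omega) (by omega)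
  · change B.length ≤ K
    omega

/-! ### Polynomials -/

/-- `moZ` for polynomials. -/
noncomputable def moZp (E L S : Polynomial ℕ) : Polynomial ℕ := 4 * E + 2 * (L * (S + 1)) + 12

theorem moZp_eval (E L S : Polynomial ℕ) (x : ℕ) :
    (moZp E L S).eval x = moZ (E.eval x) (L.eval x) (S.eval x) := by
  unfold moZp moZ
  simp only [Polynomial.eval_add, Polynomial.eval_mul, Polynomial.eval_one, Polynomial.eval_ofNat]

/-- `psZ` for polynomials. -/
noncomputable def psZp (E L S K Z : Polynomial ℕ) : Polynomial ℕ :=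
  Z + moZp E L S + K * (moZp E L S + 1) + 4 * K + 5

theorem psZp_eval (E L S K Z : Polynomial ℕ) (x : ℕ) :
    (psZp E L S K Z).eval x =
      psZ (E.eval x) (L.eval x) (S.eval x) (K.eval x) (Z.eval x) := by
  unfold psZp psZ
  simp only [Polynomial.eval_add, Polynomial.eval_mul, Polynomial.eval_one, Polynomial.eval_ofNat,
    moZp_eval]

theorem psZ_mono {E L S K Z E' L' S' K' Z' : ℕ} (h1 : E ≤ E') (h2 : L ≤ L') (h3 : S ≤ S')
    (h4 : K ≤ K') (h5 : Z ≤ Z') : psZ E L S K Z ≤ psZ E' L' S' K' Z' := by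
  unfold psZ moZ
  gcongr

/-! ### Polynomial time -/

variable {α β γ σ : Type} [TEnc α] [TEnc β] [TEnc γ] [TEnc σ]

theorem pt_ite {c : α → Prop} [DecidablePred c] {T T' : α → TT β}
    (hc : Poly (fun a => decide (c a))) (hT : PT T) (hT' : PT T') :
    PT (fun a => if c a then T a else T' a) := by
  unfold Pool.Agent.W920.FC.PT at *
  refine (NPC.Poly.ite (p := fun p : α × List Outcome => c p.1)
    (hc.comp (NPC.Poly.fst NPC.Poly.id)) hT hT').congr fun p => ?_
  change (if c p.1 then T p.1 p.2 else T' p.1 p.2) = (if c p.1 then T p.1 else T' p.1) p.2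
  by_cases h : c p.1
  · rw [if_pos h, if_pos h]
  · rw [if_neg h, if_neg h]

theorem pt_perc (hO : S_OUT) (hP : S_PT) (hI : S_PTITER) (hQ : Pool.Agent.W920.FD.S_QP)
    (h4 : S_PP4) {m n : α → ℕ} {drop : α → List Bool} {Ws : α → List Mo} (p : ℕ)
    (hm : UPoly m) (hn : UPoly n) (hd : Poly drop) (hW : Poly Ws) :
    PT (fun a => perc (m a) (n a) p (drop a) (Ws a)) := by
  have hT : UPoly (fun a => cT (n a + 3) (m a + m a + 4)) := ucT (un3 hn) (um4 hm)
  unfold perc
  refine hI α (List ℕ × Bool) (fun a t => stepF (m a) (n a) p (drop a) (Ws a) t)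
    (fun a => cT (n a + 3) (m a + m a + 4))
    (fun a => ((List.range (cD (m a) (n a))).map fun _ => 0, false)) ?_ hT ?_ ?_ ?_
  · have b : Poly (fun q : α × (List ℕ × Bool) => q.1) := NPC.Poly.fst NPC.Poly.id
    have b2 : Poly (fun q : α × (List ℕ × Bool) => q.2.1) :=
      NPC.Poly.fst (NPC.Poly.snd NPC.Poly.id)
    have g1 : Poly (fun q : α × (List ℕ × Bool) =>
        peQs (m q.1) (n q.1) p (drop q.1) (Ws q.1) q.2.1) :=
      ppeQs hQ p (UPoly.comp (n := m) hm b) (UPoly.comp (n := n) hn b) (hd.comp b) (hW.comp b) b2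
    have c : Poly (fun q : (α × (List ℕ × Bool)) × List Outcome => q.1.1) :=
      NPC.Poly.fst (NPC.Poly.fst NPC.Poly.id)
    have c2 : Poly (fun q : (α × (List ℕ × Bool)) × List Outcome => q.1.2.1) :=
      NPC.Poly.fst (NPC.Poly.snd (NPC.Poly.fst NPC.Poly.id))
    have c3 : Poly (fun q : (α × (List ℕ × Bool)) × List Outcome => q.1.2.2) :=
      NPC.Poly.snd (NPC.Poly.snd (NPC.Poly.fst NPC.Poly.id))
    have c4 : Poly (fun q : (α × (List ℕ × Bool)) × List Outcome => q.2) :=
      NPC.Poly.snd NPC.Poly.id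
    have g2 : Poly (fun q : (α × (List ℕ × Bool)) × List Outcome =>
        pUpd (cD (m q.1.1) (n q.1.1)) (tsK (m q.1.1) (n q.1.1) (drop q.1.1))
          (q.1.2.1, q.1.2.2) q.2) :=
      ppUpd h4 (UPoly.comp (n := m) hm c) (UPoly.comp (n := n) hn c) (hd.comp c) c4 c2 c3
    exact hP.2.1 (α × (List ℕ × Bool)) (List Outcome) (List ℕ × Bool)
      (fun q => batch (peQs (m q.1) (n q.1) p (drop q.1) (Ws q.1) q.2.1))
      (fun q o => ret (pUpd (cD (m q.1) (n q.1)) (tsK (m q.1) (n q.1) (drop q.1)) q.2 o))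
      (hP.2.2 _ _ g1) (hP.1 _ _ _ g2)
  · exact NPC.Poly.pair (NPC.Poly.map (F := fun _ _ => 0) (ucD hm hn).range (NPC.Poly.const _))
      (NPC.Poly.const _)
  · intro a t
    unfold stepF
    exact hO.2.2.2.2.1 _ _ _ _ (hO.2.2.2.2.2.1 _) fun o => hO.2.2.2.1 _ _
  · refine sz_poly hT (ucD hm hn) fun a i t _ ht => ?_
    exact out_steps hO i t ht

theorem pt_rnd (hO : S_OUT) (hP : S_PT) (hI : S_PTITER) (hQ : Pool.Agent.W920.FD.S_QP)
    (h4 : S_PP4) {m n : α → ℕ} {drop : α → List Bool} {s : α → RS} (p : ℕ)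
    (hm : UPoly m) (hn : UPoly n) (hd : Poly drop) (hs : Poly s) :
    PT (fun a => rnd (m a) (n a) p (drop a) (s a)) := by
  simp only [rnd_eq]
  have hs11 : Poly (fun a => (s a).1.1) := NPC.Poly.fst (NPC.Poly.fst hs)
  refine pt_ite (c := fun a => (s a).2 = true) (T := fun a => ret (s a))
    (T' := fun a => bnd (perc (m a) (n a) p (drop a) (s a).1.1) fun t =>
      ret (rndR (m a) (n a) (s a) t)) (NPC.Poly.decide_bool (NPC.Poly.snd hs)) (hP.1 _ _ _ hs) ?_
  refine hP.2.1 α (List ℕ × Bool) RS (fun a => perc (m a) (n a) p (drop a) (s a).1.1)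
    (fun a t => ret (rndR (m a) (n a) (s a) t)) (pt_perc hO hP hI hQ h4 p hm hn hd hs11)
    (hP.1 _ _ _ ?_)
  unfold rndR
  have b : Poly (fun q : α × (List ℕ × Bool) => q.1) := NPC.Poly.fst NPC.Poly.id
  have b2 : Poly (fun q : α × (List ℕ × Bool) => q.2.1) :=
    NPC.Poly.fst (NPC.Poly.snd NPC.Poly.id)
  have b3 : Poly (fun q : α × (List ℕ × Bool) => q.2.2) :=
    NPC.Poly.snd (NPC.Poly.snd NPC.Poly.id)
  refine NPC.Poly.ite (NPC.Poly.decide_bool b3) ?_ ?_
  · exact NPC.Poly.pair (NPC.Poly.pair (hs11.comp b) b2) (NPC.Poly.const true)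
  · exact NPC.Poly.pair (NPC.Poly.pair (phalve (UPoly.comp (n := m) hm b)
      (UPoly.comp (n := n) hn b) (hs11.comp b) b2) b2) (NPC.Poly.const false)

theorem shr_rnd (hO : S_OUT) (m n p : ℕ) (drop : List Bool) (s : RS) :
    Shr (rnd m n p drop s) := by
  rw [rnd_eq]
  split_ifs
  · exact hO.2.2.2.1 _ _
  · refine hO.2.2.2.2.1 _ _ _ _ ?_ fun t => hO.2.2.2.1 _ _
    unfold perc
    refine hO.2.2.2.2.2.2 _ _ _ _ fun t => ?_
    unfold stepF
    exact hO.2.2.2.2.1 _ _ _ _ (hO.2.2.2.2.2.1 _) fun o => hO.2.2.2.1 _ _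

/-- Sizes of the states of the search for the centre. -/
theorem sz_rnds (hO : S_OUT) {m n p M Y : ℕ} {drop : List Bool} {s0 : RS}
    (hl : s0.1.1.length ≤ m + m + 4) (h0 : ∀ a ∈ s0.1.1, sz a ≤ M) (hM : sz moOne ≤ M)
    (hY0 : sz s0.1.2 ≤ Y)
    (hY : cD m n * (4 * cT (n + 3) (m + m + 4) + 2) + 5 ≤ Y) : ∀ (i : ℕ) (s : RS),
    Out (iter (rnd m n p drop) i s0) s → s.1.1.length ≤ m + m + 4 ∧
      (∀ a ∈ s.1.1, sz a ≤ M + 2 * i) ∧ sz s.1.2 ≤ Y := by
  intro i
  induction i with
  | zero =>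
    intro s h
    rw [hO.1 _ _ _ h]
    exact ⟨hl, h0, hY0⟩
  | succ i ih =>
    intro s h
    obtain ⟨b, hb, h⟩ := hO.2.2.1 _ _ _ _ _ h
    obtain ⟨h1, h2, h3⟩ := ih b hb
    have h2' : ∀ a ∈ b.1.1, sz a ≤ M + 2 * (i + 1) := fun a ha => (h2 a ha).trans (by omega)
    rw [rnd_eq] at h
    split_ifs at h with hs
    · rw [hO.1 _ _ _ h]
      exact ⟨h1, h2', h3⟩
    · obtain ⟨t, ht, h⟩ := hO.2.1 _ _ _ _ _ h
      unfold perc at ht
      have hy := inv_sz (out_steps hO _ t ht)
      have hy' : sz t.1 ≤ Y := by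
        have : sz t = sz t.1 + sz t.2 + 1 := sz_pair t.1 t.2
        omega
      rw [hO.1 _ _ _ h]
      unfold rndR
      split_ifs with ht'
      · exact ⟨h1, h2', hy'⟩
      · refine ⟨by simp [halve], ?_, hy'⟩
        intro a ha
        have hg : ∀ c, sz (b.1.1.getD c moOne) ≤ M + 2 * i := by
          intro c
          rw [List.getD_eq_getElem?_getD]
          cases hi : b.1.1[c]? with
          | none =>
            simp only [Option.getD_none]
            omega
          | some z => exact h2 z (List.mem_of_getElem? hi)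
        unfold halve at ha
        simp only at ha
        obtain ⟨c, -, ha⟩ := List.mem_map.1 ha
        have hgc := hg c
        split_ifs at ha with hif
        · rw [← ha]
          have e : sz (moHalf (b.1.1.getD c moOne)) = sz (b.1.1.getD c moOne) + 2 := by
            generalize b.1.1.getD c moOne = z
            obtain ⟨⟨z1, z2, z3⟩, z4, z5⟩ := z
            simp only [moHalf]
            rw [sz_pair, sz_pair z1, sz_pair z2, sz_list_cons, sz_unit]
            rw [sz_pair (z1, (z2, z3)), sz_pair z1, sz_pair z2]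
            omega
          omega
        · rw [← ha]
          omega

theorem pt_recen (hO : S_OUT) (hP : S_PT) (hI : S_PTITER) (hQ : Pool.Agent.W920.FD.S_QP)
    (h4 : S_PP4) {m n : α → ℕ} {drop : α → List Bool} {t : α → Mo} {W : α → List Mo} (p : ℕ)
    (hm : UPoly m) (hn : UPoly n) (hd : Poly drop) (ht : Poly t) (hW : Poly W) :
    PT (fun a => recen (m a) (n a) p (drop a) (t a) (W a)) := by
  have hws := pws0 hm hn ht hW
  unfold recen
  refine hI α RS (fun a s => rnd (m a) (n a) p (drop a) s)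
    (fun a => Pool.Agent.Y648.CS.cR (m a) (n a))
    (fun a => ((ws0 (m a) (n a) (t a) (W a), []), false)) ?_ (ucR hm hn)
    (NPC.Poly.pair (NPC.Poly.pair hws (NPC.Poly.const [])) (NPC.Poly.const false))
    (fun a s => shr_rnd hO _ _ _ _ _) ?_
  · have b : Poly (fun q : α × RS => q.1) := NPC.Poly.fst NPC.Poly.id
    exact pt_rnd hO hP hI hQ h4 p (UPoly.comp (n := m) hm b) (UPoly.comp (n := n) hn b)
      (hd.comp b) (NPC.Poly.snd NPC.Poly.id)
  · obtain ⟨p1, hp1⟩ := hws.sz_le
    obtain ⟨p2, hp2⟩ := upoly_bound (um4 hm)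
    obtain ⟨p3, hp3⟩ := upoly_bound (ucR hm hn)
    obtain ⟨p4, hp4⟩ := upoly_bound (n := fun a =>
      cD (m a) (n a) * (4 * cT (n a + 3) (m a + m a + 4) + 2) + 5)
      (UPoly.add (UPoly.mul (ucD hm hn) (UPoly.add (UPoly.mul (UPoly.const 4)
        (ucT (un3 hn) (um4 hm))) (UPoly.const 2))) (UPoly.const 5))
    refine ⟨p2 * (p1 + Polynomial.C (sz moOne) + 2 * p3 + 1) + p4 + 6, fun a i s hi hs => ?_⟩
    obtain ⟨g1, g2, g3⟩ := sz_rnds (M := sz (ws0 (m a) (n a) (t a) (W a)) + sz moOne)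
      (Y := cD (m a) (n a) * (4 * cT (n a + 3) (m a + m a + 4) + 2) + 5) hO
      (by simp [ws0]) (fun x hx => (le_of_lt (sz_le_of_mem hx)).trans (Nat.le_add_right _ _))
      (Nat.le_add_left _ _) (by simp) le_rfl i s hs
    obtain ⟨⟨s1, s2⟩, s3⟩ := s
    simp only at g1 g2 g3
    have e1 := sz_le_length_mul s1 _ g2
    have e2 := sz_bool_le s3
    have e3 : sz (((s1, s2), s3) : RS) = sz s1 + sz s2 + 1 + sz s3 + 1 := by
      rw [sz_pair, sz_pair s1]
    rw [e3]
    simp only [Polynomial.eval_add, Polynomial.eval_mul, Polynomial.eval_one,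
      Polynomial.eval_ofNat, Polynomial.eval_C]
    have hi' := hi.trans (hp3 a)
    have hp1a := hp1 a
    have f1 : s1.length * (sz (ws0 (m a) (n a) (t a) (W a)) + sz moOne + 2 * i + 1) ≤
        p2.eval (sz a) * (p1.eval (sz a) + sz moOne + 2 * p3.eval (sz a) + 1) :=
      Nat.mul_le_mul (g1.trans (hp2 a)) (by omega)
    have f2 := g3.trans (hp4 a)
    omega

theorem pt_basis (hO : S_OUT) (hP : S_PT) (hI : S_PTITER) (h4 : S_PP4) {m n : α → ℕ}
    {drop : α → List Bool} {t : α → Mo} {W : α → List Mo} (p : ℕ)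
    (hm : UPoly m) (hn : UPoly n) (hd : Poly drop) (ht : Poly t) (hW : Poly W) :
    PT (fun a => basis (m a) (n a) p (drop a) (t a) (W a)) := by
  simp only [basis_eq]
  refine hI α (List ℕ) (fun a bt => baF (m a) (n a) p (drop a) (t a) (W a) bt)
    (fun a => n a + 2) (fun _ => []) ?_ (un2 hn) (NPC.Poly.const []) ?_ ?_
  · unfold baF
    refine hP.2.1 (α × List ℕ) (List Outcome) (List ℕ)
      (fun q => batch (baQs (m q.1) (n q.1) p (t q.1) (W q.1) q.2))
      (fun q o => ret (q.2 ++ [pick (m q.1) (drop q.1) q.2.length o])) ?_ ?_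
    · have b : Poly (fun q : α × List ℕ => q.1) := NPC.Poly.fst NPC.Poly.id
      exact hP.2.2 _ _ (pbaQs p (UPoly.comp (n := m) hm b) (UPoly.comp (n := n) hn b)
        (ht.comp b) (hW.comp b) (NPC.Poly.snd NPC.Poly.id))
    · have b : Poly (fun q : (α × List ℕ) × List Outcome => q.1.1) :=
        NPC.Poly.fst (NPC.Poly.fst NPC.Poly.id)
      have b2 : Poly (fun q : (α × List ℕ) × List Outcome => q.1.2) :=
        NPC.Poly.snd (NPC.Poly.fst NPC.Poly.id)
      exact hP.1 _ _ _ (NPC.Poly.append b2 (NPC.Poly.cons (ppick h4 (UPoly.comp (n := m) hm b)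
        (hd.comp b) (NPC.Poly.length b2) (NPC.Poly.snd NPC.Poly.id)) (NPC.Poly.const [])))
  · intro a t
    unfold baF
    exact hO.2.2.2.2.1 _ _ _ _ (hO.2.2.2.2.2.1 _) fun o => hO.2.2.2.1 _ _
  · obtain ⟨q, hq⟩ := upoly_bound (n := fun a =>
      (n a + 2) * (4 * (m a + m a + 2 + (n a + 2)) + 1 + 1) + 1)
      (UPoly.add (UPoly.mul (un2 hn) (UPoly.add (UPoly.add (UPoly.mul (UPoly.const 4)
        (UPoly.add (um2 hm) (un2 hn))) (UPoly.const 1)) (UPoly.const 1))) (UPoly.const 1))
    refine ⟨q, fun a i s hi hs => le_trans ?_ (hq a)⟩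
    obtain ⟨h1, h2⟩ := out_ba hO i s hs
    have h3 := sz_le_length_mul s (4 * (m a + m a + 2 + (n a + 2)) + 1) (fun x hx => by
      have h2 := sz_nat_le x
      have h3 := NPC.Poly.size_le_self x
      have h4 := ‹∀ x ∈ s, x ≤ m a + m a + 2 + i› x hx
      omega)
    have h5 := Nat.mul_le_mul_right (4 * (m a + m a + 2 + (n a + 2)) + 1 + 1)
      (show s.length ≤ n a + 2 by omega)
    omega

theorem pfix {a : α → Mo} {o : α → Outcome} (ha : Poly a) (ho : Poly o) :
    Poly (fun x => fixS (a x) (o x)) :=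
  NPC.Poly.pair (NPC.Poly.pair (NPC.Poly.dec_eq ho (NPC.Poly.const _))
    (NPC.Poly.snd (NPC.Poly.fst ha))) (NPC.Poly.snd ha)

theorem pfxQ {m n : α → ℕ} {a : α → Mo} (hm : UPoly m) (hn : UPoly n) (ha : Poly a) :
    Poly (fun x => fxQ (m x) (n x) (a x)) :=
  pprQ hm hn (UPoly.const 0) (NPC.Poly.append (pl1 ha) (pl2 ha))

theorem pfinR {A : α → Mo} {N : α → List Mo} {o : α → List Outcome} (hA : Poly A)
    (hN : Poly N) (ho : Poly o) : Poly (fun a => finR (A a) (N a) (o a)) := by
  unfold finR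
  refine NPC.Poly.pair (NPC.Poly.const 0) (NPC.Poly.pair (pfix hA
    (NPC.Poly.getD ho (NPC.Poly.const 0) (NPC.Poly.const none))) (NPC.Poly.pair ?_
      (NPC.Poly.const [])))
  refine NPC.Poly.map (F := fun a (x : Mo × ℕ) => fixS x.1 ((o a).getD (x.2 + 1) none))
    (NPC.Poly.zipIdx hN) ?_
  have b : Poly (fun q : α × (Mo × ℕ) => q.1) := NPC.Poly.fst NPC.Poly.id
  have b1 : Poly (fun q : α × (Mo × ℕ) => q.2.1) := NPC.Poly.fst (NPC.Poly.snd NPC.Poly.id)
  have b2 : Poly (fun q : α × (Mo × ℕ) => q.2.2) := NPC.Poly.snd (NPC.Poly.snd NPC.Poly.id)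
  exact pfix b1 (NPC.Poly.getD (ho.comp b) (NPC.Poly.succ b2) (NPC.Poly.const none))

theorem pt_finC (hP : S_PT) {m n : α → ℕ} {A : α → Mo} {N : α → List Mo} (hm : UPoly m)
    (hn : UPoly n) (hA : Poly A) (hN : Poly N) :
    PT (fun a => finC (m a) (n a) (A a) (N a)) := by
  have g1 : Poly (fun a => fxQ (m a) (n a) (A a) :: (N a).map (fxQ (m a) (n a))) := by
    refine NPC.Poly.cons (pfxQ hm hn hA) (NPC.Poly.map (F := fun a x => fxQ (m a) (n a) x) hN ?_)
    exact pfxQ (UPoly.comp (n := m) hm (NPC.Poly.fst NPC.Poly.id))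
      (UPoly.comp (n := n) hn (NPC.Poly.fst NPC.Poly.id)) (NPC.Poly.snd NPC.Poly.id)
  have b : Poly (fun q : α × List Outcome => q.1) := NPC.Poly.fst NPC.Poly.id
  have b2 : Poly (fun q : α × List Outcome => q.2) := NPC.Poly.snd NPC.Poly.id
  have g2 : Poly (fun q : α × List Outcome => finR (A q.1) (N q.1) q.2) :=
    pfinR (hA.comp b) (hN.comp b) b2
  exact hP.2.1 α (List Outcome) PS
    (fun a => batch (fxQ (m a) (n a) (A a) :: (N a).map (fxQ (m a) (n a))))
    (fun a o3 => ret (finR (A a) (N a) o3)) (hP.2.2 _ _ g1) (hP.1 _ _ _ g2)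

theorem pt_finB (hP : S_PT) {m n : α → ℕ} {drop : α → List Bool} {l : α → Lab} {t : α → Mo}
    {W : α → List Mo} {A : α → Mo} (hm : UPoly m) (hn : UPoly n) (hd : Poly drop) (hl : Poly l)
    (ht : Poly t) (hW : Poly W) (hA : Poly A) :
    PT (fun a => finB (m a) (n a) (drop a) (l a) (t a) (W a) (A a)) := by
  have hJ := ucJ hm hn
  have hA1 : Poly (fun a => moMul (moTwo (cJ (m a) (n a) + 1)) (A a)) :=
    pmul (ptwoM (UPoly.add hJ (UPoly.const 1))) hA
  have hA2 : Poly (fun a => moMul (moTwo (cJ (m a) (n a))) (A a)) := pmul (ptwoM hJ) hA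
  have hN := pnewW hm hn hd hl hA2
  have b : Poly (fun q : α × List Outcome => q.1) := NPC.Poly.fst NPC.Poly.id
  have b2 : Poly (fun q : α × List Outcome => q.2) := NPC.Poly.snd NPC.Poly.id
  have g1 : Poly (fun a => [cmpQ (m a) (n a) (moMul (moTwo (cJ (m a) (n a) + 1)) (A a)) (t a)]) :=
    NPC.Poly.cons (pcmpQ hm hn hA1 ht) (NPC.Poly.const [])
  have g2 : Poly (fun q : α × List Outcome => decide (q.2.getD 0 none = some false)) :=
    NPC.Poly.dec_eq (NPC.Poly.getD b2 (NPC.Poly.const 0) (NPC.Poly.const none))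
      (NPC.Poly.const _)
  have g3 : Poly (fun q : α × List Outcome => ((0, (moHalf (t q.1), (W q.1, []))) : PS)) :=
    NPC.Poly.pair (NPC.Poly.const 0) (NPC.Poly.pair (phalf (ht.comp b))
      (NPC.Poly.pair (hW.comp b) (NPC.Poly.const [])))
  have g4 : PT (fun q : α × List Outcome => finC (m q.1) (n q.1)
      (moMul (moTwo (cJ (m q.1) (n q.1))) (A q.1)) (newW (m q.1) (n q.1) (drop q.1) (l q.1)
        (moMul (moTwo (cJ (m q.1) (n q.1))) (A q.1)))) :=
    pt_finC hP (UPoly.comp (n := m) hm b) (UPoly.comp (n := n) hn b) (hA2.comp b) (hN.comp b)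
  exact hP.2.1 α (List Outcome) PS
    (fun a => batch [cmpQ (m a) (n a) (moMul (moTwo (cJ (m a) (n a) + 1)) (A a)) (t a)])
    (fun a o'' => if o''.getD 0 none = some false then
      finC (m a) (n a) (moMul (moTwo (cJ (m a) (n a))) (A a))
        (newW (m a) (n a) (drop a) (l a) (moMul (moTwo (cJ (m a) (n a))) (A a)))
    else ret (0, (moHalf (t a), (W a, [])))) (hP.2.2 _ _ g1)
    (pt_ite (c := fun q : α × List Outcome => q.2.getD 0 none = some false) g2 g4
      (hP.1 _ _ _ g3))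

theorem pt_finA (hP : S_PT) (h4 : S_PP4) {m n : α → ℕ} {drop : α → List Bool} {t : α → Mo}
    {W : α → List Mo} {bt : α → List ℕ} {o : α → List Outcome} {l : α → Lab} (p : ℕ)
    (hm : UPoly m) (hn : UPoly n) (hd : Poly drop) (ht : Poly t) (hW : Poly W)
    (hb : Poly bt) (ho : Poly o) (hl : Poly l) :
    PT (fun a => finA (m a) (n a) p (drop a) (t a) (W a) (bt a) (o a) (l a)) := by
  have hc := pcrs p hm hn hd hb ho hl
  obtain ⟨C, hC⟩ : ∃ C : α → List Mo, C = fun a =>
    crs (m a) (n a) p (drop a) (bt a) (o a) (l a) := ⟨_, rfl⟩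
  have eC : ∀ a, crs (m a) (n a) p (drop a) (bt a) (o a) (l a) = C a := fun a => by rw [hC]
  rw [← hC] at hc
  unfold finA
  simp only [eC]
  refine pt_ite (NPC.Poly.decide_bool (pconn h4 p hm hn hd hb ho hl))
    (hP.1 _ _ _ (NPC.Poly.pair (NPC.Poly.const 0) (NPC.Poly.pair (phalf ht)
      (NPC.Poly.pair hW (NPC.Poly.const []))))) ?_
  refine pt_ite (NPC.Poly.decide_bool (NPC.Poly.isEmpty hc)) (hP.1 _ _ _ (NPC.Poly.pair
    (NPC.Poly.const 2) (NPC.Poly.pair ht (NPC.Poly.pair hW ?_)))) ?_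
  · exact NPC.Poly.map (F := fun a c => isL (l a) false c) (UPoly.add hm hm).range
      (pisL false (hl.comp (NPC.Poly.fst NPC.Poly.id)) (NPC.Poly.snd NPC.Poly.id))
  · refine hP.2.1 α (List Outcome) PS (fun a => batch (sqQs (m a) (n a) (C a)))
      (fun a o' => finB (m a) (n a) (drop a) (l a) (t a) (W a) (argmax (C a) o'))
      (hP.2.2 _ _ (psqQs hm hn hc)) ?_
    have b : Poly (fun q : α × List Outcome => q.1) := NPC.Poly.fst NPC.Poly.id
    exact pt_finB hP (UPoly.comp (n := m) hm b) (UPoly.comp (n := n) hn b) (hd.comp b)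
      (hl.comp b) (ht.comp b) (hW.comp b) (pargmax h4 (hc.comp b) (NPC.Poly.snd NPC.Poly.id))

theorem pt_fin (hP : S_PT) (h4 : S_PP4) {m n : α → ℕ} {drop : α → List Bool} {t : α → Mo}
    {W : α → List Mo} {bt : α → List ℕ} {o : α → List Outcome} (p : ℕ)
    (hm : UPoly m) (hn : UPoly n) (hd : Poly drop) (ht : Poly t) (hW : Poly W)
    (hb : Poly bt) (ho : Poly o) :
    PT (fun a => fin (m a) (n a) p (drop a) (t a) (W a) (bt a) (o a)) := by
  simp only [fin_eq]
  exact pt_finA hP h4 p hm hn hd ht hW hb ho (plabs h4 p hm hn hd hb ho)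

/-- `take` in polynomial time. -/
theorem ptake {l : α → List β} {k : α → ℕ} (hl : Poly l) (hk : Poly k) :
    Poly (fun a => (l a).take (k a)) := by
  refine (NPC.Poly.map (F := fun _ (x : β × ℕ) => x.1) (NPC.Poly.filter
    (p := fun a (x : β × ℕ) => decide (x.2 < k a)) (NPC.Poly.zipIdx hl)
    (NPC.Poly.decide_lt (NPC.Poly.snd (NPC.Poly.snd NPC.Poly.id))
      (hk.comp (NPC.Poly.fst NPC.Poly.id)))) (NPC.Poly.fst (NPC.Poly.snd NPC.Poly.id))).congr
    fun a => ?_
  have key : ∀ (l : List β) (j k : ℕ), ((l.zipIdx j).filter fun x => decide (x.2 < j + k)).map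
      (fun x => x.1) = l.take k := by
    intro l
    induction l with
    | nil => intro j k; simp
    | cons x l ih =>
      intro j k
      rw [List.zipIdx_cons]
      cases k with
      | zero =>
        have h1 : ∀ y ∈ (x, j) :: l.zipIdx (j + 1), ¬ (decide (y.2 < j + 0) = true) := by
          intro y hy
          rcases List.mem_cons.1 hy with rfl | hy
          · simp
          · have := List.le_snd_of_mem_zipIdx hy
            simp
            omega
        rw [List.filter_eq_nil_iff.2 h1]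
        simp
      | succ k =>
        rw [List.filter_cons_of_pos (by simp), List.map_cons, List.take_succ_cons]
        congr 1
        rw [← ih (j + 1) k]
        congr 1
        refine List.filter_congr fun y _ => ?_
        congr 1
        rw [show j + (k + 1) = j + 1 + k by omega]
  have := key (l a) 0 (k a)
  simpa using this

theorem shr_basis (hO : S_OUT) (m n p : ℕ) (drop : List Bool) (t : Mo) (W : List Mo) :
    Shr (basis m n p drop t W) := by
  rw [basis_eq]
  refine hO.2.2.2.2.2.2 _ _ _ _ fun t => ?_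
  unfold baF
  exact hO.2.2.2.2.1 _ _ _ _ (hO.2.2.2.2.2.1 _) fun o => hO.2.2.2.1 _ _

theorem shr_fin (hO : S_OUT) (m n p : ℕ) (drop : List Bool) (t : Mo) (W : List Mo)
    (bt : List ℕ) (o : List Outcome) : Shr (fin m n p drop t W bt o) := by
  rw [fin_eq]
  unfold finA
  split_ifs
  · exact hO.2.2.2.1 _ _
  · exact hO.2.2.2.1 _ _
  · refine hO.2.2.2.2.1 _ _ _ _ (hO.2.2.2.2.2.1 _) fun o' => ?_
    unfold finB
    refine hO.2.2.2.2.1 _ _ _ _ (hO.2.2.2.2.2.1 _) fun o'' => ?_
    split_ifs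
    · unfold finC
      exact hO.2.2.2.2.1 _ _ _ _ (hO.2.2.2.2.2.1 _) fun o'' => hO.2.2.2.1 _ _
    · exact hO.2.2.2.1 _ _

theorem shr_itr (hO : S_OUT) (m n p : ℕ) (drop : List Bool) (s : PS) :
    Shr (itr m n p drop s) := by
  unfold itr
  by_cases h0 : s.1 ≠ 0
  · rw [if_pos h0]
    exact hO.2.2.2.1 _ _
  · rw [if_neg h0]
    refine hO.2.2.2.2.1 _ _ _ _ ?_ fun c => ?_
    · unfold recen
      exact hO.2.2.2.2.2.2 _ _ _ _ fun t => shr_rnd hO _ _ _ _ _
    · refine hO.2.2.2.2.1 _ _ _ _ (hO.2.2.2.2.2.1 _) fun o => ?_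
      split_ifs
      · exact hO.2.2.2.1 _ _
      · refine hO.2.2.2.2.1 _ _ _ _ (shr_basis hO _ _ _ _ _ _) fun bt => ?_
        exact hO.2.2.2.2.1 _ _ _ _ (hO.2.2.2.2.2.1 _) fun o' => shr_fin hO _ _ _ _ _ _ _ _

/-- The second half of an iteration. -/
def itrB (m n p : ℕ) (drop : List Bool) (s : PS) (W : List Mo) : TT PS :=
  bnd (basis m n p drop s.2.1 W) fun bt =>
    bnd (batch (grQs m n p s.2.1 W bt)) fun o' => fin m n p drop s.2.1 W bt o'

theorem pt_itrB (hO : S_OUT) (hP : S_PT) (hI : S_PTITER) (h4 : S_PP4) {m n : α → ℕ}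
    {drop : α → List Bool} {s : α → PS} {W : α → List Mo} (p : ℕ)
    (hm : UPoly m) (hn : UPoly n) (hd : Poly drop) (hs : Poly s) (hW : Poly W) :
    PT (fun a => itrB (m a) (n a) p (drop a) (s a) (W a)) := by
  have ht : Poly (fun a => (s a).2.1) := NPC.Poly.fst (NPC.Poly.snd hs)
  obtain ⟨t, ht'⟩ : ∃ t : α → Mo, t = fun a => (s a).2.1 := ⟨_, rfl⟩
  have et : ∀ a, (s a).2.1 = t a := fun a => by rw [ht']
  rw [← ht'] at ht
  unfold itrB
  simp only [et]
  refine hP.2.1 α (List ℕ) PS (fun a => basis (m a) (n a) p (drop a) (t a) (W a))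
    (fun a bt => bnd (batch (grQs (m a) (n a) p (t a) (W a) bt)) fun o' =>
      fin (m a) (n a) p (drop a) (t a) (W a) bt o')
    (pt_basis hO hP hI h4 p hm hn hd ht hW) ?_
  have b : Poly (fun q : α × List ℕ => q.1) := NPC.Poly.fst NPC.Poly.id
  have c : Poly (fun q : (α × List ℕ) × List Outcome => q.1.1) :=
    NPC.Poly.fst (NPC.Poly.fst NPC.Poly.id)
  refine hP.2.1 (α × List ℕ) (List Outcome) PS
    (fun q => batch (grQs (m q.1) (n q.1) p (t q.1) (W q.1) q.2))
    (fun q o' => fin (m q.1) (n q.1) p (drop q.1) (t q.1) (W q.1) q.2 o')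
    (hP.2.2 _ _ (pgrQs p (UPoly.comp (n := m) hm b) (UPoly.comp (n := n) hn b) (ht.comp b)
      (hW.comp b) (NPC.Poly.snd NPC.Poly.id))) ?_
  exact pt_fin hP h4 p (UPoly.comp (n := m) hm c) (UPoly.comp (n := n) hn c) (hd.comp c)
    (ht.comp c) (hW.comp c) (NPC.Poly.snd (NPC.Poly.fst NPC.Poly.id)) (NPC.Poly.snd NPC.Poly.id)

theorem itr_eq (m n p : ℕ) (drop : List Bool) (s : PS) :
    itr m n p drop s = if s.1 ≠ 0 then ret s else
      bnd (recen m n p drop s.2.1 s.2.2.1) fun c =>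
        bnd (batch (peQs m n p drop c.1.1 c.1.2)) fun o =>
          if zOf (cD m n) o (cO m n + (m + m + 3)) < 0 then ret (1, s.2)
          else itrB m n p drop s (c.1.1.take (m + m)) := rfl

theorem pt_itr (hO : S_OUT) (hP : S_PT) (hI : S_PTITER) (hQ : Pool.Agent.W920.FD.S_QP)
    (h4 : S_PP4) {m n : α → ℕ} {drop : α → List Bool} {s : α → PS} (p : ℕ)
    (hm : UPoly m) (hn : UPoly n) (hd : Poly drop) (hs : Poly s) :
    PT (fun a => itr (m a) (n a) p (drop a) (s a)) := by
  simp only [itr_eq]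
  have ht : Poly (fun a => (s a).2.1) := NPC.Poly.fst (NPC.Poly.snd hs)
  have hW : Poly (fun a => (s a).2.2.1) := NPC.Poly.fst (NPC.Poly.snd (NPC.Poly.snd hs))
  refine pt_ite (c := fun a => (s a).1 ≠ 0) (NPC.Poly.decide_not (NPC.Poly.dec_eq
    (NPC.Poly.fst hs) (NPC.Poly.const 0))) (hP.1 _ _ _ hs) ?_
  refine hP.2.1 α RS PS (fun a => recen (m a) (n a) p (drop a) (s a).2.1 (s a).2.2.1)
    (fun a c => bnd (batch (peQs (m a) (n a) p (drop a) c.1.1 c.1.2)) fun o =>
          if zOf (cD (m a) (n a)) o (cO (m a) (n a) + (m a + m a + 3)) < 0 then ret (1, (s a).2)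
          else itrB (m a) (n a) p (drop a) (s a) (c.1.1.take (m a + m a)))
    (pt_recen hO hP hI hQ h4 p hm hn hd ht hW) ?_
  have b : Poly (fun q : α × RS => q.1) := NPC.Poly.fst NPC.Poly.id
  refine hP.2.1 (α × RS) (List Outcome) PS
    (fun q => batch (peQs (m q.1) (n q.1) p (drop q.1) q.2.1.1 q.2.1.2))
    (fun q o => if zOf (cD (m q.1) (n q.1)) o (cO (m q.1) (n q.1) + (m q.1 + m q.1 + 3)) < 0
      then ret (1, (s q.1).2)
      else itrB (m q.1) (n q.1) p (drop q.1) (s q.1) (q.2.1.1.take (m q.1 + m q.1)))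
    (hP.2.2 _ _ (ppeQs hQ p (UPoly.comp (n := m) hm b) (UPoly.comp (n := n) hn b) (hd.comp b)
      (NPC.Poly.fst (NPC.Poly.fst (NPC.Poly.snd NPC.Poly.id)))
      (NPC.Poly.snd (NPC.Poly.fst (NPC.Poly.snd NPC.Poly.id))))) ?_
  have c : Poly (fun q : (α × RS) × List Outcome => q.1.1) :=
    NPC.Poly.fst (NPC.Poly.fst NPC.Poly.id)
  have c2 : Poly (fun q : (α × RS) × List Outcome => q.1.2.1.1) :=
    NPC.Poly.fst (NPC.Poly.fst (NPC.Poly.snd (NPC.Poly.fst NPC.Poly.id)))
  have hm' : UPoly (fun q : (α × RS) × List Outcome => m q.1.1) := UPoly.comp (n := m) hm c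
  have hn' : UPoly (fun q : (α × RS) × List Outcome => n q.1.1) := UPoly.comp (n := n) hn c
  have hz : Poly (fun q : (α × RS) × List Outcome => zOf (cD (m q.1.1) (n q.1.1)) q.2
      (cO (m q.1.1) (n q.1.1) + (m q.1.1 + m q.1.1 + 3))) :=
    Pool.Agent.W920.FC.TPU4.z_poly h4 (ucD hm' hn') (NPC.Poly.snd NPC.Poly.id)
      (NPC.Poly.add (ucO hm' hn').toPoly (NPC.Poly.add (NPC.Poly.add hm'.toPoly hm'.toPoly)
        (NPC.Poly.const 3)))
  refine pt_ite (((h4 _).1 _ _ hz (NPC.Poly.const 0)).2.2.2.2.1) (hP.1 _ _ _ (NPC.Poly.pair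
    (NPC.Poly.const 1) (NPC.Poly.snd (hs.comp c)))) ?_
  exact pt_itrB hO hP hI h4 p hm' hn' (hd.comp c) (hs.comp c) (ptake c2
    (NPC.Poly.add hm'.toPoly hm'.toPoly))

theorem pt_itrs (hO : S_OUT) (hP : S_PT) (hI : S_PTITER) (hQ : Pool.Agent.W920.FD.S_QP)
    (h4 : S_PP4) {m n N : α → ℕ} {drop : α → List Bool} {s : α → PS} (p : ℕ)
    (hm : UPoly m) (hn : UPoly n) (hN : UPoly N) (hd : Poly drop) (hs : Poly s) :
    PT (fun a => iter (itr (m a) (n a) p (drop a)) (N a) (s a)) := by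
  refine hI α PS (fun a x => itr (m a) (n a) p (drop a) x) N s ?_ hN hs
    (fun a x => shr_itr hO _ _ _ _ _) ?_
  · have b : Poly (fun q : α × PS => q.1) := NPC.Poly.fst NPC.Poly.id
    exact pt_itr hO hP hI hQ h4 p (UPoly.comp (n := m) hm b) (UPoly.comp (n := n) hn b)
      (hd.comp b) (NPC.Poly.snd NPC.Poly.id)
  · have hlE : UPoly (fun a => lE (m a) (n a)) := UPoly.mul (um2 hm) (ucE hm hn)
    have hG : UPoly (fun a => cG (m a) (n a)) :=
      UPoly.add (UPoly.add (UPoly.add (UPoly.add (ucR hm hn) (ucJ hm hn)) (ucW hm hn))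
        (UPoly.mul (UPoly.const 3) hlE)) (UPoly.const 1)
    have hSm : UPoly (fun a => Smn p (m a) (n a)) :=
      UPoly.add (UPoly.add (UPoly.const (sz p)) (UPoly.add (UPoly.mul (un2 hn) (UPoly.add
        (UPoly.mul (UPoly.const 4) (UPoly.add (UPoly.add (UPoly.add hm hm) hn) (UPoly.const 4)))
        (UPoly.const 2))) (UPoly.const 1))) (UPoly.const 1)
    obtain ⟨r, hr⟩ := hs.sz_le
    obtain ⟨pm, hpm⟩ := upoly_bound (n := fun a => 6 * m a + 8)
      (UPoly.add (UPoly.mul (UPoly.const 6) hm) (UPoly.const 8))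
    obtain ⟨pN, hpN⟩ := upoly_bound hN
    obtain ⟨pG, hpG⟩ := upoly_bound hG
    obtain ⟨pS, hpS⟩ := upoly_bound hSm
    refine ⟨psZp (r + pN * pG) (r + pm) (r + pS) (r + pm) (r + 20), fun a i x hi hx => ?_⟩
    have hra := hr a
    have hma := hpm a
    have hSa := hpS a
    have h1 := out_itrs (E := sz (s a)) (L := r.eval (sz a) + pm.eval (sz a))
      (S := r.eval (sz a) + pS.eval (sz a)) (K := r.eval (sz a) + pm.eval (sz a))
      (Z := r.eval (sz a) + 20) hO (by omega) (by omega) (by omega) (by omega)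
      (pinv_any (s a) (by omega) (by omega) (by omega) (by omega)) i x hx
    have h2 := pinv_sz h1
    rw [psZp_eval]
    refine h2.trans (psZ_mono ?_ ?_ ?_ ?_ ?_)
    · simp only [Polynomial.eval_add, Polynomial.eval_mul]
      have h3 : i * cG (m a) (n a) ≤ pN.eval (sz a) * pG.eval (sz a) :=
        Nat.mul_le_mul (hi.trans (hpN a)) (hpG a)
      omega
    · rw [Polynomial.eval_add]
    · rw [Polynomial.eval_add]
    · rw [Polynomial.eval_add]
    · rw [Polynomial.eval_add, Polynomial.eval_ofNat]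

/-! ### The second phase -/

theorem pdr1 {m : α → ℕ} {B : α → List Bool} (hm : UPoly m) (hB : Poly B) :
    Poly (fun a => dr1 (m a) (B a)) := by
  unfold dr1
  refine NPC.Poly.map (F := fun a c => !(decide (c < m a) && (B a).getD c false))
    (UPoly.add hm hm).range ?_
  have b : Poly (fun q : α × ℕ => q.1) := NPC.Poly.fst NPC.Poly.id
  have b2 : Poly (fun q : α × ℕ => q.2) := NPC.Poly.snd NPC.Poly.id
  exact NPC.Poly.not (NPC.Poly.and (NPC.Poly.decide_lt b2 (hm.toPoly.comp b))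
    (NPC.Poly.getD (hB.comp b) b2 (NPC.Poly.const false)))

theorem pt1 {m n j : α → ℕ} (hm : UPoly m) (hn : UPoly n) (hj : Poly j) :
    Poly (fun a => t1 (m a) (n a) (j a)) := by
  unfold t1
  have hM := (um2 hm).toPoly
  refine pmin (NPC.Poly.pair (NPC.Poly.const 1) (NPC.Poly.append (NPC.Poly.map
    (F := fun a i => m a + m a + 2 + i) hn.range (NPC.Poly.add
      (hM.comp (NPC.Poly.fst NPC.Poly.id)) (NPC.Poly.snd NPC.Poly.id)))
    (NPC.Poly.cons hj (NPC.Poly.cons (NPC.Poly.add hM (NPC.Poly.succ hn.toPoly))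
      (NPC.Poly.const [])))))

theorem pbQs {m n : α → ℕ} (hm : UPoly m) (hn : UPoly n) :
    Poly (fun a => bQs (m a) (n a)) := by
  unfold bQs
  refine NPC.Poly.append (NPC.Poly.map (F := fun _ j => (([], [1, j]) : Qry)) hm.range ?_)
    (psqQs hm hn (NPC.Poly.map (F := fun a j => t1 (m a) (n a) j) hm.range ?_))
  · exact NPC.Poly.pair (NPC.Poly.const []) (NPC.Poly.cons (NPC.Poly.const 1)
      (NPC.Poly.cons (NPC.Poly.snd NPC.Poly.id) (NPC.Poly.const [])))
  · exact pt1 (UPoly.comp (n := m) hm (NPC.Poly.fst NPC.Poly.id))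
      (UPoly.comp (n := n) hn (NPC.Poly.fst NPC.Poly.id)) (NPC.Poly.snd NPC.Poly.id)

theorem pbMax (h4 : S_PP4) {m : α → ℕ} {o : α → List Outcome} (hm : UPoly m) (ho : Poly o) :
    Poly (fun a => bMax (m a) (o a)) := by
  unfold bMax
  refine NPC.Poly.optGetD (NPC.Poly.head? (NPC.Poly.filter
    (p := fun a i => (List.range (m a)).all fun j =>
      decide (0 ≤ osg ((o a).getD (m a + (i * m a + j)) none))) hm.range ?_)) (NPC.Poly.const 0)
  refine NPC.Poly.all (l := fun q : α × ℕ => List.range (m q.1))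
    (p := fun q j => decide (0 ≤ osg ((o q.1).getD (m q.1 + (q.2 * m q.1 + j)) none)))
    (hm.range.comp (NPC.Poly.fst NPC.Poly.id)) ?_
  have c : Poly (fun q : (α × ℕ) × ℕ => q.1.1) := NPC.Poly.fst (NPC.Poly.fst NPC.Poly.id)
  have c2 : Poly (fun q : (α × ℕ) × ℕ => q.1.2) := NPC.Poly.snd (NPC.Poly.fst NPC.Poly.id)
  have c3 : Poly (fun q : (α × ℕ) × ℕ => q.2) := NPC.Poly.snd NPC.Poly.id
  have hm' : Poly (fun q : (α × ℕ) × ℕ => m q.1.1) := hm.toPoly.comp c
  exact posgle h4 (NPC.Poly.getD (ho.comp c) (NPC.Poly.add hm' (NPC.Poly.add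
    (NPC.Poly.mul c2 hm') c3)) (NPC.Poly.const none))

theorem pst1 {m n j : α → ℕ} {o : α → Outcome} {W : α → List Mo} {B : α → List Bool}
    (hm : UPoly m) (hn : UPoly n) (hj : Poly j) (ho : Poly o) (hW : Poly W) (hB : Poly B) :
    Poly (fun a => st1 (m a) (n a) (j a) (o a) (W a) (B a)) := by
  have hD := pdr1 hm hB
  unfold st1
  refine NPC.Poly.pair (NPC.Poly.const 0) (NPC.Poly.pair (pfix (pt1 hm hn hj) ho)
    (NPC.Poly.pair (NPC.Poly.map (F := fun a c => if (dr1 (m a) (B a)).getD c true then moOne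
      else (W a).getD c moOne) (UPoly.add hm hm).range ?_) (NPC.Poly.const [])))
  have b : Poly (fun q : α × ℕ => q.1) := NPC.Poly.fst NPC.Poly.id
  have b2 : Poly (fun q : α × ℕ => q.2) := NPC.Poly.snd NPC.Poly.id
  exact NPC.Poly.ite (NPC.Poly.decide_bool (NPC.Poly.getD (hD.comp b) b2
    (NPC.Poly.const true))) (NPC.Poly.const _) (NPC.Poly.getD (hW.comp b) b2 (NPC.Poly.const _))

theorem pt_TB (hO : S_OUT) (hP : S_PT) (hI : S_PTITER) (hQ : Pool.Agent.W920.FD.S_QP)
    (h4 : S_PP4) {m n N : α → ℕ} {s : α → PS} (hm : UPoly m) (hn : UPoly n) (hN : UPoly N)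
    (hs : Poly s) : PT (fun a => TB (m a) (n a) (N a) (s a)) := by
  unfold TB
  refine pt_ite (c := fun a => (s a).1 ≠ 2) (NPC.Poly.decide_not (NPC.Poly.dec_eq
    (NPC.Poly.fst hs) (NPC.Poly.const 2))) (hP.1 _ _ _ (NPC.Poly.const true)) ?_
  refine hP.2.1 α (List Outcome) Bool (fun a => batch (bQs (m a) (n a)))
    (fun a o => if (List.range (m a)).all fun j => decide (o.getD j none ≠ some true) then
        ret true
      else
        bnd (batch [fxQ (m a) (n a) (t1 (m a) (n a) (bMax (m a) o))]) fun o' =>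
          bnd (iter (itr (m a) (n a) 1 (dr1 (m a) (s a).2.2.2)) (N a)
            (st1 (m a) (n a) (bMax (m a) o) (o'.getD 0 none) (s a).2.2.1 (s a).2.2.2)) fun s' =>
            ret (decide (s'.1 ≠ 1))) (hP.2.2 _ _ (pbQs hm hn)) ?_
  have b : Poly (fun q : α × List Outcome => q.1) := NPC.Poly.fst NPC.Poly.id
  have b2 : Poly (fun q : α × List Outcome => q.2) := NPC.Poly.snd NPC.Poly.id
  refine pt_ite (c := fun q : α × List Outcome =>
    ((List.range (m q.1)).all fun j => decide (q.2.getD j none ≠ some true)) = true)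
    (NPC.Poly.decide_bool ?_) (hP.1 _ _ _ (NPC.Poly.const true)) ?_
  · refine NPC.Poly.all (l := fun q : α × List Outcome => List.range (m q.1))
      (p := fun q j => decide (q.2.getD j none ≠ some true)) (hm.range.comp b) ?_
    exact NPC.Poly.decide_not (NPC.Poly.dec_eq (NPC.Poly.getD
      (NPC.Poly.snd (NPC.Poly.fst NPC.Poly.id)) (NPC.Poly.snd NPC.Poly.id) (NPC.Poly.const none))
      (NPC.Poly.const _))
  · have hmb : UPoly (fun q : α × List Outcome => m q.1) := UPoly.comp (n := m) hm b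
    have hnb : UPoly (fun q : α × List Outcome => n q.1) := UPoly.comp (n := n) hn b
    refine hP.2.1 (α × List Outcome) (List Outcome) Bool
      (fun q => batch [fxQ (m q.1) (n q.1) (t1 (m q.1) (n q.1) (bMax (m q.1) q.2))])
      (fun q o' => bnd (iter (itr (m q.1) (n q.1) 1 (dr1 (m q.1) (s q.1).2.2.2)) (N q.1)
            (st1 (m q.1) (n q.1) (bMax (m q.1) q.2) (o'.getD 0 none) (s q.1).2.2.1
              (s q.1).2.2.2)) fun s' => ret (decide (s'.1 ≠ 1)))
      (hP.2.2 _ _ (NPC.Poly.cons (pfxQ hmb hnb (pt1 hmb hnb (pbMax h4 hmb b2)))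
        (NPC.Poly.const []))) ?_
    have c : Poly (fun q : (α × List Outcome) × List Outcome => q.1.1) :=
      NPC.Poly.fst (NPC.Poly.fst NPC.Poly.id)
    have c2 : Poly (fun q : (α × List Outcome) × List Outcome => q.1.2) :=
      NPC.Poly.snd (NPC.Poly.fst NPC.Poly.id)
    have hmc : UPoly (fun q : (α × List Outcome) × List Outcome => m q.1.1) :=
      UPoly.comp (n := m) hm c
    have hnc : UPoly (fun q : (α × List Outcome) × List Outcome => n q.1.1) :=
      UPoly.comp (n := n) hn c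
    have hNc : UPoly (fun q : (α × List Outcome) × List Outcome => N q.1.1) :=
      UPoly.comp (n := N) hN c
    have hWc : Poly (fun q : (α × List Outcome) × List Outcome => (s q.1.1).2.2.1) :=
      NPC.Poly.fst (NPC.Poly.snd (NPC.Poly.snd (hs.comp c)))
    have hBc : Poly (fun q : (α × List Outcome) × List Outcome => (s q.1.1).2.2.2) :=
      NPC.Poly.snd (NPC.Poly.snd (NPC.Poly.snd (hs.comp c)))
    refine hP.2.1 ((α × List Outcome) × List Outcome) PS Bool
      (fun q => iter (itr (m q.1.1) (n q.1.1) 1 (dr1 (m q.1.1) (s q.1.1).2.2.2)) (N q.1.1)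
            (st1 (m q.1.1) (n q.1.1) (bMax (m q.1.1) q.1.2) (q.2.getD 0 none) (s q.1.1).2.2.1
              (s q.1.1).2.2.2)) (fun _ s' => ret (decide (s'.1 ≠ 1)))
      (pt_itrs hO hP hI hQ h4 1 hmc hnc hNc (pdr1 hmc hBc) (pst1 hmc hnc (pbMax h4 hmc c2)
        (NPC.Poly.getD (NPC.Poly.snd NPC.Poly.id) (NPC.Poly.const 0) (NPC.Poly.const _))
        hWc hBc)) ?_
    exact hP.1 _ _ _ (NPC.Poly.decide_not (NPC.Poly.dec_eq
      (NPC.Poly.fst (NPC.Poly.snd NPC.Poly.id)) (NPC.Poly.const 1)))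

theorem ucI (k : ℕ) {m n : α → ℕ} (hm : UPoly m) (hn : UPoly n) :
    UPoly (fun a => cI k (m a) (n a)) := by
  have h : UPoly (fun a => m a + n a + 2) := UPoly.add (UPoly.add hm hn) (UPoly.const 2)
  refine (UPoly.eval h (Polynomial.X ^ (8 * k + 40))).congr fun a => ?_
  simp only [Polynomial.eval_pow, Polynomial.eval_X, cI]

end TPTA

open TPTA TQQ TQD in
/-- The computation in polynomial time. -/
theorem t_PTA (k : ℕ) : S_OUT → S_PT → S_PTITER → Pool.Agent.W920.FD.S_QP → S_PP4 → S_PTA k := by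
  intro hO hP hI hQ h4
  have hm : UPoly (fun a : List Unit × List Unit => a.1.length) :=
    UPoly.length (NPC.Poly.fst NPC.Poly.id)
  have hn : UPoly (fun a : List Unit × List Unit => a.2.length) :=
    UPoly.length (NPC.Poly.snd NPC.Poly.id)
  have hN := ucI k hm hn
  unfold S_PTA TA
  refine hP.2.1 (List Unit × List Unit) PS Bool
    (fun a => iter (itr a.1.length a.2.length 0 (dr0 a.1.length)) (cI k a.1.length a.2.length)
      (st0 a.1.length)) (fun a s => TB a.1.length a.2.length (cI k a.1.length a.2.length) s)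
    ?_ ?_
  · refine pt_itrs hO hP hI hQ h4 0 hm hn hN ?_ ?_
    · unfold dr0
      exact (NPC.Poly.map (F := fun _ _ => false) (UPoly.add hm hm).range
        (NPC.Poly.const false)).congr fun a => by simp
    · unfold st0
      refine NPC.Poly.pair (NPC.Poly.const 0) (NPC.Poly.pair (NPC.Poly.const _) (NPC.Poly.pair
        ?_ (NPC.Poly.const [])))
      exact (NPC.Poly.map (F := fun _ _ => moOne) (UPoly.add hm hm).range
        (NPC.Poly.const _)).congr fun a => by simp
  · have b : Poly (fun q : (List Unit × List Unit) × PS => q.1) := NPC.Poly.fst NPC.Poly.id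
    exact pt_TB hO hP hI hQ h4 (UPoly.comp (n := fun a : List Unit × List Unit => a.1.length) hm b)
      (UPoly.comp (n := fun a : List Unit × List Unit => a.2.length) hn b)
      (UPoly.comp (n := fun a : List Unit × List Unit => cI k a.1.length a.2.length) hN b)
      (NPC.Poly.snd NPC.Poly.id)

end Pool.Agent.Y648.CS
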