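import Pool.Agent.Y648.CS.T_QQ
import Pool.Agent.W920.FC.T_PU4

set_option autoImplicit false

/-!
# The parts of an iteration in polynomial time
-/

namespace Pool.Agent.Y648.CS

open Pool.Agent.NPC Pool.Agent.H558R2 Pool.Agent.H622R3.SM Pool.Agent.W920.FC

namespace TQD

open TQQ Pool.Agent.W920.FC.TPU4

variable {α β : Type} [TEnc α] [TEnc β]

/-! ### Monomials -/

theorem pmul {a b : α → Mo} (ha : Poly a) (hb : Poly b) : Poly (fun x => moMul (a x) (b x)) :=
  NPC.Poly.pair (NPC.Poly.pair (NPC.Poly.xor (psg ha) (psg hb))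
    (NPC.Poly.pair (NPC.Poly.append (pu1 ha) (pu1 hb)) (NPC.Poly.append (pu2 ha) (pu2 hb))))
    (NPC.Poly.pair (NPC.Poly.append (pl1 ha) (pl1 hb)) (NPC.Poly.append (pl2 ha) (pl2 hb)))

theorem pinv {a : α → Mo} (ha : Poly a) : Poly (fun x => moInv (a x)) :=
  NPC.Poly.pair (NPC.Poly.pair (psg ha) (NPC.Poly.pair (pu2 ha) (pu1 ha)))
    (NPC.Poly.pair (pl2 ha) (pl1 ha))

theorem ptwoM {e : α → ℕ} (he : UPoly e) : Poly (fun x => moTwo (e x)) :=
  NPC.Poly.pair (NPC.Poly.pair (NPC.Poly.const false) (NPC.Poly.pair he (NPC.Poly.const [])))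
    (NPC.Poly.const ([], []))

theorem phalf {a : α → Mo} (ha : Poly a) : Poly (fun x => moHalf (a x)) :=
  NPC.Poly.pair (NPC.Poly.pair (psg ha) (NPC.Poly.pair (pu1 ha)
    (NPC.Poly.cons (NPC.Poly.const ()) (pu2 ha)))) (NPC.Poly.snd ha)

theorem pmin {a : α → Mn} (ha : Poly a) : Poly (fun x => moMin (a x)) :=
  NPC.Poly.pair (NPC.Poly.const (false, ([], [])))
    (NPC.Poly.pair (NPC.Poly.cons ha (NPC.Poly.const [])) (NPC.Poly.const []))

theorem prat {a b : α → Mn} (ha : Poly a) (hb : Poly b) : Poly (fun x => moRat (a x) (b x)) :=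
  NPC.Poly.pair (NPC.Poly.const (false, ([], [])))
    (NPC.Poly.pair (NPC.Poly.cons ha (NPC.Poly.const [])) (NPC.Poly.cons hb (NPC.Poly.const [])))

theorem pset {l : α → List ℕ} {k c : α → ℕ} (hl : Poly l) (hk : Poly k) (hc : Poly c) :
    Poly (fun x => (l x).set (k x) (c x)) := by
  refine (NPC.Poly.map (F := fun x (z : ℕ × ℕ) => if z.2 = k x then c x else z.1)
    (NPC.Poly.zipIdx hl) ?_).congr fun x => ?_
  · exact NPC.Poly.ite (NPC.Poly.dec_eq (NPC.Poly.snd (NPC.Poly.snd NPC.Poly.id))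
      (hk.comp (NPC.Poly.fst NPC.Poly.id))) (hc.comp (NPC.Poly.fst NPC.Poly.id))
      (NPC.Poly.fst (NPC.Poly.snd NPC.Poly.id))
  · refine List.ext_getElem (by simp) fun i h1 h2 => ?_
    rw [List.getElem_set]
    simp only [List.getElem_map, List.getElem_zipIdx, zero_add]
    by_cases h : i = k x
    · rw [if_pos h, if_pos h.symm]
    · rw [if_neg h, if_neg fun h' => h h'.symm]

/-! ### The perceptron algorithm -/

theorem pws0 {m n : α → ℕ} {t : α → Mo} {W : α → List Mo} (hm : UPoly m) (hn : UPoly n)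
    (ht : Poly t) (hW : Poly W) : Poly (fun a => ws0 (m a) (n a) (t a) (W a)) := by
  unfold ws0
  have h2 := ptwoM (ucA hm hn)
  refine NPC.Poly.append (NPC.Poly.map (F := fun a c => (W a).getD c moOne)
    (UPoly.add hm hm).range (NPC.Poly.getD (hW.comp (NPC.Poly.fst NPC.Poly.id))
      (NPC.Poly.snd NPC.Poly.id) (NPC.Poly.const _))) ?_
  exact NPC.Poly.cons (NPC.Poly.const _) (NPC.Poly.cons h2 (NPC.Poly.cons (NPC.Poly.const _)
    (NPC.Poly.cons (pmul h2 ht) (NPC.Poly.const []))))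

theorem phalve {m n : α → ℕ} {W : α → List Mo} {y : α → List ℕ} (hm : UPoly m) (hn : UPoly n)
    (hW : Poly W) (hy : Poly y) : Poly (fun a => halve (m a) (n a) (W a) (y a)) := by
  have hD := ucD hm hn
  have hDp := hD.toPoly
  have h1 : Poly (fun a => ((List.range (cD (m a) (n a))).filter fun j =>
      decide (4 * (cD (m a) (n a) * cD (m a) (n a)) ≤ (y a).getD j 0)).head?) := by
    refine NPC.Poly.head? (NPC.Poly.filter (p := fun a j =>
      decide (4 * (cD (m a) (n a) * cD (m a) (n a)) ≤ (y a).getD j 0)) hD.range ?_)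
    have hDp' : Poly (fun q : α × ℕ => cD (m q.1) (n q.1)) := hDp.comp (NPC.Poly.fst NPC.Poly.id)
    exact NPC.Poly.decide_le (NPC.Poly.mul (NPC.Poly.const 4) (NPC.Poly.mul hDp' hDp'))
      (NPC.Poly.getD (hy.comp (NPC.Poly.fst NPC.Poly.id)) (NPC.Poly.snd NPC.Poly.id)
        (NPC.Poly.const 0))
  obtain ⟨H, hH⟩ : ∃ H : α → Option ℕ, H = fun a => ((List.range (cD (m a) (n a))).filter fun j =>
      decide (4 * (cD (m a) (n a) * cD (m a) (n a)) ≤ (y a).getD j 0)).head? := ⟨_, rfl⟩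
  have eH : ∀ a, ((List.range (cD (m a) (n a))).filter fun j =>
      decide (4 * (cD (m a) (n a) * cD (m a) (n a)) ≤ (y a).getD j 0)).head? = H a := fun a => by
    rw [hH]
  rw [← hH] at h1
  unfold halve
  simp only [eH]
  refine NPC.Poly.map (F := fun a c => if H a = some (cO (m a) (n a) + c) then
    moHalf ((W a).getD c moOne) else (W a).getD c moOne) (um4 hm).range ?_
  have b : Poly (fun q : α × ℕ => q.1) := NPC.Poly.fst NPC.Poly.id
  have b2 : Poly (fun q : α × ℕ => q.2) := NPC.Poly.snd NPC.Poly.id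
  have hw : Poly (fun q : α × ℕ => (W q.1).getD q.2 moOne) :=
    NPC.Poly.getD (hW.comp b) b2 (NPC.Poly.const _)
  exact NPC.Poly.ite (NPC.Poly.dec_eq (h1.comp b) (NPC.Poly.some (NPC.Poly.add
    ((ucO hm hn).toPoly.comp b) b2))) (phalf hw) hw

theorem posgle (h : S_PP4) {f : α → Outcome} (hf : Poly f) :
    Poly (fun a => decide (0 ≤ osg (f a))) :=
  ((h α).1 _ _ (NPC.Poly.const 0) (osg_poly hf)).2.2.2.2.2.1

theorem pmOf (h : S_PP4) {K j : α → ℕ} {o : α → List Outcome} (hK : UPoly K) (ho : Poly o)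
    (hj : Poly j) : Poly (fun a => mOf (K a) (o a) (j a)) := by
  have hr := rk_poly hK ho
  have hKp := hK.toPoly
  unfold mOf
  have h1 : Poly (fun a => osg ((o a).getD (rkOf (K a) (o a) - 1) none)) :=
    osg_poly (NPC.Poly.getD ho (NPC.Poly.sub hr (NPC.Poly.const 1)) (NPC.Poly.const none))
  have h2 : Poly (fun a => osg ((o a).getD (K a + (K a + 1) * K a +
      (rkOf (K a) (o a) * K a + j a)) none)) :=
    osg_poly (NPC.Poly.getD ho (NPC.Poly.add (NPC.Poly.add hKp (NPC.Poly.mul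
      (NPC.Poly.succ hKp) hKp)) (NPC.Poly.add (NPC.Poly.mul hr hKp) hj)) (NPC.Poly.const none))
  have h3 : Poly (fun a => - osg ((o a).getD (rkOf (K a) (o a) - 1) none)) :=
    (((h α).1 _ _ h1 h1).2.2.1)
  have h4 : Poly (fun a => if rkOf (K a) (o a) = 0 then (1 : ℤ) else
      - osg ((o a).getD (rkOf (K a) (o a) - 1) none)) :=
    NPC.Poly.ite (NPC.Poly.dec_eq hr (NPC.Poly.const 0)) (NPC.Poly.const 1) h3
  exact ((h α).1 _ _ h4 h2).2.1

theorem ptsK {m n : α → ℕ} {drop : α → List Bool} (hm : UPoly m) (hn : UPoly n)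
    (hd : Poly drop) : Poly (fun a => tsK (m a) (n a) (drop a)) := by
  unfold tsK
  refine NPC.Poly.map (F := fun a j => if j < cO (m a) (n a) then false
    else if j < cO (m a) (n a) + (m a + m a) then !((drop a).getD (j - cO (m a) (n a)) true)
    else decide (j < cO (m a) (n a) + (m a + m a + 2))) (ucD hm hn).range ?_
  have b : Poly (fun q : α × ℕ => q.1) := NPC.Poly.fst NPC.Poly.id
  have b2 : Poly (fun q : α × ℕ => q.2) := NPC.Poly.snd NPC.Poly.id
  have hm' : Poly (fun q : α × ℕ => m q.1) := hm.toPoly.comp b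
  have hO : Poly (fun q : α × ℕ => cO (m q.1) (n q.1)) := (ucO hm hn).toPoly.comp b
  have hmm : Poly (fun q : α × ℕ => m q.1 + m q.1) := NPC.Poly.add hm' hm'
  refine NPC.Poly.ite (NPC.Poly.decide_lt b2 hO) (NPC.Poly.const false) ?_
  refine NPC.Poly.ite (NPC.Poly.decide_lt b2 (NPC.Poly.add hO hmm))
    (NPC.Poly.not (NPC.Poly.getD (hd.comp b) (NPC.Poly.sub b2 hO) (NPC.Poly.const true))) ?_
  exact NPC.Poly.decide_lt b2 (NPC.Poly.add hO (NPC.Poly.add hmm (NPC.Poly.const 2)))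

theorem ppUpd (h : S_PP4) {m n : α → ℕ} {drop : α → List Bool} {o : α → List Outcome}
    {y : α → List ℕ} {b : α → Bool} (hm : UPoly m) (hn : UPoly n) (hd : Poly drop) (ho : Poly o)
    (hy : Poly y) (hb : Poly b) :
    Poly (fun x => pUpd (cD (m x) (n x)) (tsK (m x) (n x) (drop x)) (y x, b x) (o x)) := by
  have hD := ucD hm hn
  have hts := ptsK hm hn hd
  have hD2 : UPoly (fun q : α × ℕ => cD (m q.1) (n q.1)) :=
    UPoly.comp (n := fun a => cD (m a) (n a)) hD (NPC.Poly.fst NPC.Poly.id)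
  unfold pUpd
  refine NPC.Poly.optGetD (NPC.Poly.optMap_fp
    (h := fun a j => (bump (y a) (cD (m a) (n a)) j, b a)) (NPC.Poly.head? ?_) ?_)
    (NPC.Poly.pair hy (NPC.Poly.const true))
  · unfold bdM
    refine NPC.Poly.filter (p := fun a j => (tsK (m a) (n a) (drop a)).getD j false &&
      decide (mOf (cD (m a) (n a)) (o a) j ≤ 0)) hD.range ?_
    refine NPC.Poly.and (NPC.Poly.getD (hts.comp (NPC.Poly.fst NPC.Poly.id))
      (NPC.Poly.snd NPC.Poly.id) (NPC.Poly.const false)) ?_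
    have hz : Poly (fun p : α × ℕ => mOf (cD (m p.1) (n p.1)) (o p.1) p.2) :=
      pmOf h hD2 (ho.comp (NPC.Poly.fst NPC.Poly.id)) (NPC.Poly.snd NPC.Poly.id)
    exact ((h (α × ℕ)).1 _ _ hz (NPC.Poly.const 0)).2.2.2.2.2.1
  · exact NPC.Poly.pair (bump_poly (hy.comp (NPC.Poly.fst NPC.Poly.id)) hD2
      (NPC.Poly.snd NPC.Poly.id)) (hb.comp (NPC.Poly.fst NPC.Poly.id))

/-! ### The basis -/

theorem um2 {m : α → ℕ} (hm : UPoly m) : UPoly (fun a => m a + m a + 2) :=
  UPoly.add (UPoly.add hm hm) (UPoly.const 2)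

theorem un2 {n : α → ℕ} (hn : UPoly n) : UPoly (fun a => n a + 2) := UPoly.add hn (UPoly.const 2)

theorem pact {m c : α → ℕ} {drop : α → List Bool} (hm : Poly m) (hd : Poly drop) (hc : Poly c) :
    Poly (fun a => act (m a) (drop a) (c a)) :=
  NPC.Poly.or (NPC.Poly.decide_le (NPC.Poly.add hm hm) hc)
    (NPC.Poly.not (NPC.Poly.getD hd hc (NPC.Poly.const true)))

theorem pwc {m c : α → ℕ} {t : α → Mo} {W : α → List Mo} (hm : Poly m) (ht : Poly t)
    (hW : Poly W) (hc : Poly c) : Poly (fun a => wc (m a) (t a) (W a) (c a)) :=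
  NPC.Poly.ite (NPC.Poly.decide_lt hc (NPC.Poly.add hm hm))
    (NPC.Poly.getD hW hc (NPC.Poly.const _))
    (NPC.Poly.ite (NPC.Poly.dec_eq hc (NPC.Poly.add hm hm)) ht (NPC.Poly.const _))

theorem pcand {m n c : α → ℕ} {bt : α → List ℕ} (p : ℕ) (hm : UPoly m) (hn : UPoly n)
    (hb : Poly bt) (hc : Poly c) : Poly (fun a => cand (m a) (n a) p (bt a) (c a)) := by
  unfold cand
  have hl := NPC.Poly.length hb
  have hu : UPoly (fun a => n a + 1 - (bt a).length) :=
    UPoly.of_le (NPC.Poly.sub (NPC.Poly.succ hn.toPoly) hl) (UPoly.add hn (UPoly.const 1))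
      fun a => Nat.sub_le _ _
  refine NPC.Poly.pair (NPC.Poly.const p) (NPC.Poly.append hb (NPC.Poly.cons hc ?_))
  refine NPC.Poly.map (F := fun a i => m a + m a + 2 + ((bt a).length + 1 + i)) hu.range ?_
  have b : Poly (fun q : α × ℕ => q.1) := NPC.Poly.fst NPC.Poly.id
  have b2 : Poly (fun q : α × ℕ => q.2) := NPC.Poly.snd NPC.Poly.id
  exact NPC.Poly.add ((um2 hm).toPoly.comp b) (NPC.Poly.add (NPC.Poly.succ (hl.comp b)) b2)

theorem pbaQs {m n : α → ℕ} {t : α → Mo} {W : α → List Mo} {bt : α → List ℕ} (p : ℕ)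
    (hm : UPoly m) (hn : UPoly n) (ht : Poly t) (hW : Poly W) (hb : Poly bt) :
    Poly (fun a => baQs (m a) (n a) p (t a) (W a) (bt a)) := by
  have hM := um2 hm
  unfold baQs
  refine NPC.Poly.append (NPC.Poly.map (F := fun a c =>
    prQ (m a) (n a) 0 [cand (m a) (n a) p (bt a) c]) hM.range ?_) ?_
  · have b : Poly (fun q : α × ℕ => q.1) := NPC.Poly.fst NPC.Poly.id
    have b2 : Poly (fun q : α × ℕ => q.2) := NPC.Poly.snd NPC.Poly.id
    have hm' : UPoly (fun q : α × ℕ => m q.1) := UPoly.comp (n := m) hm b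
    have hn' : UPoly (fun q : α × ℕ => n q.1) := UPoly.comp (n := n) hn b
    exact pprQ hm' hn' (UPoly.const 0)
      (NPC.Poly.cons (pcand p hm' hn' (hb.comp b) b2) (NPC.Poly.const []))
  · refine NPC.Poly.flatMap (F := fun a c => (List.range (m a + m a + 2)).map fun c' =>
      cmpQ (m a) (n a) (moMul (moMin (cand (m a) (n a) p (bt a) c)) (wc (m a) (t a) (W a) c))
        (moMul (moMin (cand (m a) (n a) p (bt a) c')) (wc (m a) (t a) (W a) c'))) hM.range ?_
    refine NPC.Poly.map (l := fun q : α × ℕ => List.range (m q.1 + m q.1 + 2))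
      (F := fun q c' => cmpQ (m q.1) (n q.1)
        (moMul (moMin (cand (m q.1) (n q.1) p (bt q.1) q.2)) (wc (m q.1) (t q.1) (W q.1) q.2))
        (moMul (moMin (cand (m q.1) (n q.1) p (bt q.1) c')) (wc (m q.1) (t q.1) (W q.1) c')))
      (hM.range.comp (NPC.Poly.fst NPC.Poly.id)) ?_
    have b : Poly (fun q : (α × ℕ) × ℕ => q.1.1) := NPC.Poly.fst (NPC.Poly.fst NPC.Poly.id)
    have b2 : Poly (fun q : (α × ℕ) × ℕ => q.1.2) := NPC.Poly.snd (NPC.Poly.fst NPC.Poly.id)
    have b3 : Poly (fun q : (α × ℕ) × ℕ => q.2) := NPC.Poly.snd NPC.Poly.id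
    have hm' : UPoly (fun q : (α × ℕ) × ℕ => m q.1.1) := UPoly.comp (n := m) hm b
    have hn' : UPoly (fun q : (α × ℕ) × ℕ => n q.1.1) := UPoly.comp (n := n) hn b
    exact pcmpQ hm' hn'
      (pmul (pmin (pcand p hm' hn' (hb.comp b) b2)) (pwc hm'.toPoly (ht.comp b) (hW.comp b) b2))
      (pmul (pmin (pcand p hm' hn' (hb.comp b) b3)) (pwc hm'.toPoly (ht.comp b) (hW.comp b) b3))

theorem ppick (h : S_PP4) {m k : α → ℕ} {drop : α → List Bool} {o : α → List Outcome}
    (hm : UPoly m) (hd : Poly drop) (hk : Poly k) (ho : Poly o) :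
    Poly (fun a => pick (m a) (drop a) (k a) (o a)) := by
  have hM := um2 hm
  unfold pick
  refine NPC.Poly.optGetD (NPC.Poly.head? (NPC.Poly.filter (p := fun a c =>
    act (m a) (drop a) c && (decide ((o a).getD c none ≠ none) &&
      (List.range (m a + m a + 2)).all fun c' => !(act (m a) (drop a) c') ||
        decide (0 ≤ osg ((o a).getD (m a + m a + 2 + (c * (m a + m a + 2) + c')) none))))
    hM.range ?_)) (NPC.Poly.add hM.toPoly hk)
  have b : Poly (fun q : α × ℕ => q.1) := NPC.Poly.fst NPC.Poly.id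
  have b2 : Poly (fun q : α × ℕ => q.2) := NPC.Poly.snd NPC.Poly.id
  refine NPC.Poly.and (pact (hm.toPoly.comp b) (hd.comp b) b2) (NPC.Poly.and ?_ ?_)
  · exact NPC.Poly.decide_not (NPC.Poly.dec_eq (NPC.Poly.getD (ho.comp b) b2
      (NPC.Poly.const none)) (NPC.Poly.const none))
  · refine NPC.Poly.all (l := fun q : α × ℕ => List.range (m q.1 + m q.1 + 2))
      (p := fun q c' => !(act (m q.1) (drop q.1) c') ||
        decide (0 ≤ osg ((o q.1).getD (m q.1 + m q.1 + 2 + (q.2 * (m q.1 + m q.1 + 2) + c')) none)))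
      (hM.range.comp b) ?_
    have c : Poly (fun q : (α × ℕ) × ℕ => q.1.1) := NPC.Poly.fst (NPC.Poly.fst NPC.Poly.id)
    have c2 : Poly (fun q : (α × ℕ) × ℕ => q.1.2) := NPC.Poly.snd (NPC.Poly.fst NPC.Poly.id)
    have c3 : Poly (fun q : (α × ℕ) × ℕ => q.2) := NPC.Poly.snd NPC.Poly.id
    have hM' : Poly (fun q : (α × ℕ) × ℕ => m q.1.1 + m q.1.1 + 2) := hM.toPoly.comp c
    exact NPC.Poly.or (NPC.Poly.not (pact (hm.toPoly.comp c) (hd.comp c) c3))
      (posgle h (NPC.Poly.getD (ho.comp c) (NPC.Poly.add hM' (NPC.Poly.add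
        (NPC.Poly.mul c2 hM') c3)) (NPC.Poly.const none)))

/-! ### The graph -/

theorem ptM {k c : α → ℕ} {bt : α → List ℕ} (p : ℕ) (hb : Poly bt) (hk : Poly k) (hc : Poly c) :
    Poly (fun a => tM p (bt a) (k a) (c a)) :=
  prat (NPC.Poly.pair (NPC.Poly.const p) (pset hb hk hc)) (NPC.Poly.pair (NPC.Poly.const p) hb)

theorem pgrQs {m n : α → ℕ} {t : α → Mo} {W : α → List Mo} {bt : α → List ℕ} (p : ℕ)
    (hm : UPoly m) (hn : UPoly n) (ht : Poly t) (hW : Poly W) (hb : Poly bt) :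
    Poly (fun a => grQs (m a) (n a) p (t a) (W a) (bt a)) := by
  have hM := um2 hm
  unfold grQs
  refine NPC.Poly.flatMap (F := fun a k => (List.range (m a + m a + 2)).flatMap fun c =>
    [prQ (m a) (n a) 0 [(p, (bt a).set k c)],
      cmpQ (m a) (n a) (moMul (moTwo (cE (m a) (n a))) (moMul (tM p (bt a) k c)
        (wc (m a) (t a) (W a) c))) (wc (m a) (t a) (W a) ((bt a).getD k 0))]) (un2 hn).range ?_
  refine NPC.Poly.flatMap (l := fun q : α × ℕ => List.range (m q.1 + m q.1 + 2))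
    (F := fun q c => [prQ (m q.1) (n q.1) 0 [(p, (bt q.1).set q.2 c)],
      cmpQ (m q.1) (n q.1) (moMul (moTwo (cE (m q.1) (n q.1))) (moMul (tM p (bt q.1) q.2 c)
        (wc (m q.1) (t q.1) (W q.1) c))) (wc (m q.1) (t q.1) (W q.1) ((bt q.1).getD q.2 0))])
    (hM.range.comp (NPC.Poly.fst NPC.Poly.id)) ?_
  have b : Poly (fun q : (α × ℕ) × ℕ => q.1.1) := NPC.Poly.fst (NPC.Poly.fst NPC.Poly.id)
  have b2 : Poly (fun q : (α × ℕ) × ℕ => q.1.2) := NPC.Poly.snd (NPC.Poly.fst NPC.Poly.id)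
  have b3 : Poly (fun q : (α × ℕ) × ℕ => q.2) := NPC.Poly.snd NPC.Poly.id
  have hm' : UPoly (fun q : (α × ℕ) × ℕ => m q.1.1) := UPoly.comp (n := m) hm b
  have hn' : UPoly (fun q : (α × ℕ) × ℕ => n q.1.1) := UPoly.comp (n := n) hn b
  have hw : ∀ c : (α × ℕ) × ℕ → ℕ, Poly c →
      Poly (fun q : (α × ℕ) × ℕ => wc (m q.1.1) (t q.1.1) (W q.1.1) (c q)) := fun c hc =>
    pwc hm'.toPoly (ht.comp b) (hW.comp b) hc
  exact NPC.Poly.cons (pprQ hm' hn' (UPoly.const 0) (NPC.Poly.cons (NPC.Poly.pair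
    (NPC.Poly.const p) (pset (hb.comp b) b2 b3)) (NPC.Poly.const [])))
    (NPC.Poly.cons (pcmpQ hm' hn' (pmul (ptwoM (ucE hm' hn')) (pmul (ptM p (hb.comp b) b2 b3)
      (hw _ b3))) (hw _ (NPC.Poly.getD (hb.comp b) b2 (NPC.Poly.const 0)))) (NPC.Poly.const []))

theorem ppos {m k c : α → ℕ} {drop : α → List Bool} {bt : α → List ℕ} (hm : Poly m)
    (hd : Poly drop) (hb : Poly bt) (hk : Poly k) (hc : Poly c) :
    Poly (fun a => pos (m a) (drop a) (bt a) (k a) (c a)) := by
  unfold pos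
  exact NPC.Poly.and (NPC.Poly.decide_lt (NPC.Poly.getD hb hk (NPC.Poly.const 0))
    (NPC.Poly.add (NPC.Poly.add hm hm) (NPC.Poly.const 2)))
    (NPC.Poly.and (pact hm hd hc) (NPC.Poly.not (NPC.Poly.dec_mem hc hb)))

theorem pnz {m k c : α → ℕ} {drop : α → List Bool} {bt : α → List ℕ} {o : α → List Outcome}
    (hm : Poly m) (hd : Poly drop) (hb : Poly bt) (ho : Poly o) (hk : Poly k) (hc : Poly c) :
    Poly (fun a => nz (m a) (drop a) (bt a) (o a) (k a) (c a)) := by
  unfold nz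
  exact NPC.Poly.and (ppos hm hd hb hk hc) (NPC.Poly.decide_not (NPC.Poly.dec_eq
    (NPC.Poly.getD ho (NPC.Poly.mul (NPC.Poly.const 2) (NPC.Poly.add (NPC.Poly.mul hk
      (NPC.Poly.add (NPC.Poly.add hm hm) (NPC.Poly.const 2))) hc)) (NPC.Poly.const none))
      (NPC.Poly.const none)))

theorem pedge (h : S_PP4) {m k c : α → ℕ} {drop : α → List Bool} {bt : α → List ℕ}
    {o : α → List Outcome} (hm : Poly m) (hd : Poly drop) (hb : Poly bt) (ho : Poly o)
    (hk : Poly k) (hc : Poly c) :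
    Poly (fun a => edge (m a) (drop a) (bt a) (o a) (k a) (c a)) := by
  unfold edge
  exact NPC.Poly.and (ppos hm hd hb hk hc) (posgle h
    (NPC.Poly.getD ho (NPC.Poly.add (NPC.Poly.mul (NPC.Poly.const 2) (NPC.Poly.add
      (NPC.Poly.mul hk (NPC.Poly.add (NPC.Poly.add hm hm) (NPC.Poly.const 2))) hc))
      (NPC.Poly.const 1)) (NPC.Poly.const none)))

theorem phop (h : S_PP4) {m n u v : α → ℕ} {drop : α → List Bool} {bt : α → List ℕ}
    {o : α → List Outcome} (p : ℕ) (hm : UPoly m) (hn : UPoly n) (hd : Poly drop) (hb : Poly bt)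
    (ho : Poly o) (hu : Poly u) (hv : Poly v) :
    Poly (fun a => hop (m a) (n a) p (drop a) (bt a) (o a) (u a) (v a)) := by
  unfold hop
  refine NPC.Poly.flatMap (F := fun a k =>
    (if decide ((bt a).getD k 0 = u a) && edge (m a) (drop a) (bt a) (o a) k (v a) then
      [moMul (moTwo (cE (m a) (n a))) (moInv (tM p (bt a) k (v a)))] else []) ++
    (if decide ((bt a).getD k 0 = v a) && edge (m a) (drop a) (bt a) (o a) k (u a) then
      [moMul (moTwo (cE (m a) (n a))) (tM p (bt a) k (u a))] else [])) (un2 hn).range ?_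
  have b : Poly (fun q : α × ℕ => q.1) := NPC.Poly.fst NPC.Poly.id
  have b2 : Poly (fun q : α × ℕ => q.2) := NPC.Poly.snd NPC.Poly.id
  have hm' : Poly (fun q : α × ℕ => m q.1) := hm.toPoly.comp b
  have hE : Poly (fun q : α × ℕ => moTwo (cE (m q.1) (n q.1))) :=
    ptwoM (UPoly.comp (n := fun a => cE (m a) (n a)) (ucE hm hn) b)
  have hbk : Poly (fun q : α × ℕ => (bt q.1).getD q.2 0) :=
    NPC.Poly.getD (hb.comp b) b2 (NPC.Poly.const 0)
  have hedge : ∀ w : α × ℕ → ℕ, Poly w → Poly (fun q : α × ℕ =>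
      edge (m q.1) (drop q.1) (bt q.1) (o q.1) q.2 (w q)) := fun w hw =>
    pedge h hm' (hd.comp b) (hb.comp b) (ho.comp b) b2 hw
  have htM : ∀ w : α × ℕ → ℕ, Poly w → Poly (fun q : α × ℕ => tM p (bt q.1) q.2 (w q)) :=
    fun w hw => ptM p (hb.comp b) b2 hw
  refine NPC.Poly.append ?_ ?_
  · exact NPC.Poly.ite (NPC.Poly.decide_bool (NPC.Poly.and (NPC.Poly.dec_eq hbk (hu.comp b))
      (hedge _ (hv.comp b)))) (NPC.Poly.cons (pmul hE (pinv (htM _ (hv.comp b))))
        (NPC.Poly.const [])) (NPC.Poly.const [])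
  · exact NPC.Poly.ite (NPC.Poly.decide_bool (NPC.Poly.and (NPC.Poly.dec_eq hbk (hv.comp b))
      (hedge _ (hu.comp b)))) (NPC.Poly.cons (pmul hE (htM _ (hu.comp b)))
        (NPC.Poly.const [])) (NPC.Poly.const [])

/-! ### The labels -/

theorem plab0 {m : α → ℕ} (hm : UPoly m) : Poly (fun a => lab0 (m a)) := by
  unfold lab0
  refine NPC.Poly.map (F := fun a c => if c = m a + m a then some (true, moOne) else
    if c = m a + m a + 1 then some (false, moOne) else none) (um2 hm).range ?_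
  have b2 : Poly (fun q : α × ℕ => q.2) := NPC.Poly.snd NPC.Poly.id
  have hmm : Poly (fun q : α × ℕ => m q.1 + m q.1) :=
    (UPoly.add hm hm).toPoly.comp (NPC.Poly.fst NPC.Poly.id)
  exact NPC.Poly.ite (NPC.Poly.dec_eq b2 hmm) (NPC.Poly.const _)
    (NPC.Poly.ite (NPC.Poly.dec_eq b2 (NPC.Poly.succ hmm)) (NPC.Poly.const _) (NPC.Poly.const _))

theorem plabS (h : S_PP4) {m n : α → ℕ} {drop : α → List Bool} {bt : α → List ℕ}
    {o : α → List Outcome} {l : α → Lab} (p : ℕ) (hm : UPoly m) (hn : UPoly n) (hd : Poly drop)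
    (hb : Poly bt) (ho : Poly o) (hl : Poly l) :
    Poly (fun a => labS (m a) (n a) p (drop a) (bt a) (o a) (l a)) := by
  have hM := um2 hm
  unfold labS
  refine NPC.Poly.map (F := fun a v => ((l a).getD v none).elim
    (((List.range (m a + m a + 2)).flatMap fun u => ((l a).getD u none).elim [] fun x =>
      (hop (m a) (n a) p (drop a) (bt a) (o a) u v).map fun f => (x.1, moMul x.2 f)).head?)
    fun x => some x) hM.range ?_
  have b : Poly (fun q : α × ℕ => q.1) := NPC.Poly.fst NPC.Poly.id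
  have b2 : Poly (fun q : α × ℕ => q.2) := NPC.Poly.snd NPC.Poly.id
  refine NPC.Poly.optElim (o := fun q : α × ℕ => (l q.1).getD q.2 none)
    (g := fun q => ((List.range (m q.1 + m q.1 + 2)).flatMap fun u =>
      ((l q.1).getD u none).elim [] fun x =>
      (hop (m q.1) (n q.1) p (drop q.1) (bt q.1) (o q.1) u q.2).map fun f =>
        (x.1, moMul x.2 f)).head?) (h := fun _ x => some x)
    (NPC.Poly.getD (hl.comp b) b2 (NPC.Poly.const _)) (NPC.Poly.head? ?_)
    (NPC.Poly.some (NPC.Poly.snd NPC.Poly.id))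
  refine NPC.Poly.flatMap (l := fun q : α × ℕ => List.range (m q.1 + m q.1 + 2))
    (F := fun q u => ((l q.1).getD u none).elim [] fun x =>
      (hop (m q.1) (n q.1) p (drop q.1) (bt q.1) (o q.1) u q.2).map fun f =>
        (x.1, moMul x.2 f)) (hM.range.comp b) ?_
  have c : Poly (fun q : (α × ℕ) × ℕ => q.1.1) := NPC.Poly.fst (NPC.Poly.fst NPC.Poly.id)
  have c2 : Poly (fun q : (α × ℕ) × ℕ => q.1.2) := NPC.Poly.snd (NPC.Poly.fst NPC.Poly.id)
  have c3 : Poly (fun q : (α × ℕ) × ℕ => q.2) := NPC.Poly.snd NPC.Poly.id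
  refine NPC.Poly.optElim (o := fun q : (α × ℕ) × ℕ => (l q.1.1).getD q.2 none)
    (g := fun _ => []) (h := fun q x =>
      (hop (m q.1.1) (n q.1.1) p (drop q.1.1) (bt q.1.1) (o q.1.1) q.2 q.1.2).map fun f =>
        (x.1, moMul x.2 f)) (NPC.Poly.getD (hl.comp c) c3 (NPC.Poly.const _))
    (NPC.Poly.const []) ?_
  have d : Poly (fun q : ((α × ℕ) × ℕ) × (Bool × Mo) => q.1) := NPC.Poly.fst NPC.Poly.id
  have hh : Poly (fun q : (α × ℕ) × ℕ =>
      hop (m q.1.1) (n q.1.1) p (drop q.1.1) (bt q.1.1) (o q.1.1) q.2 q.1.2) :=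
    phop h p (UPoly.comp (n := m) hm c) (UPoly.comp (n := n) hn c) (hd.comp c) (hb.comp c)
      (ho.comp c) c3 c2
  refine NPC.Poly.map (l := fun q : ((α × ℕ) × ℕ) × (Bool × Mo) =>
      hop (m q.1.1.1) (n q.1.1.1) p (drop q.1.1.1) (bt q.1.1.1) (o q.1.1.1) q.1.2 q.1.1.2)
    (F := fun q f => (q.2.1, moMul q.2.2 f)) (hh.comp d) ?_
  have e2 : Poly (fun q : (((α × ℕ) × ℕ) × (Bool × Mo)) × Mo => q.1.2) :=
    NPC.Poly.snd (NPC.Poly.fst NPC.Poly.id)
  exact NPC.Poly.pair (NPC.Poly.fst e2) (pmul (NPC.Poly.snd e2) (NPC.Poly.snd NPC.Poly.id))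

theorem sz_moMul (a b : Mo) : sz (moMul a b) ≤ sz a + sz b + 3 := by
  obtain ⟨⟨a1, a2, a3⟩, a4, a5⟩ := a
  obtain ⟨⟨b1, b2, b3⟩, b4, b5⟩ := b
  simp only [moMul, sz_pair]
  have h1 := sz_append a2 b2
  have h2 := sz_append a3 b3
  have h3 := sz_append a4 b4
  have h4 := sz_append a5 b5
  have h5 := sz_bool_le (a1 ^^ b1)
  omega

/-- All labels have bounded size. -/
theorem lab_sz {m n p : ℕ} {drop : List Bool} {bt : List ℕ} {o : List Outcome} {B : ℕ}
    (hB : ∀ u v, u < m + m + 2 → v < m + m + 2 → ∀ f ∈ hop m n p drop bt o u v, sz f ≤ B) :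
    ∀ (i : ℕ), ((labS m n p drop bt o)^[i] (lab0 m)).length = m + m + 2 ∧
      ∀ (x : Bool × Mo), some x ∈ (labS m n p drop bt o)^[i] (lab0 m) →
        sz x.2 ≤ sz moOne + i * (B + 3) := by
  intro i
  induction i with
  | zero =>
    refine ⟨by simp [lab0], fun x hx => ?_⟩
    simp only [Function.iterate_zero, id, lab0, List.mem_map] at hx
    obtain ⟨c, -, hc⟩ := hx
    split_ifs at hc with h1 h2
    · simp only [Option.some.injEq] at hc
      rw [← hc]
      simp
    · simp only [Option.some.injEq] at hc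
      rw [← hc]
      simp
  | succ i ih =>
    rw [Function.iterate_succ_apply']
    obtain ⟨h1, h2⟩ := ih
    set L := (labS m n p drop bt o)^[i] (lab0 m) with hL
    have hget : ∀ (u : ℕ) (x : Bool × Mo), L.getD u none = some x → some x ∈ L := by
      intro u x hx
      rw [List.getD_eq_getElem?_getD] at hx
      cases hu : L[u]? with
      | none => rw [hu] at hx; simp at hx
      | some z =>
        rw [hu] at hx
        simp only [Option.getD_some] at hx
        subst hx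
        exact List.mem_of_getElem? hu
    refine ⟨by simp [labS], fun x hx => ?_⟩
    simp only [labS, List.mem_map, List.mem_range] at hx
    obtain ⟨v, hv, hx⟩ := hx
    cases hLv : L.getD v none with
    | some z =>
      rw [hLv] at hx
      simp only [Option.elim_some, Option.some.injEq] at hx
      subst hx
      have := h2 _ (hget v _ hLv)
      have e : (i + 1) * (B + 3) = i * (B + 3) + (B + 3) := by ring
      omega
    | none =>
      rw [hLv] at hx
      simp only [Option.elim_none] at hx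
      have hx' := List.mem_of_mem_head? (Option.mem_def.2 hx)
      rw [List.mem_flatMap] at hx'
      obtain ⟨u, hu, hx'⟩ := hx'
      have hu := List.mem_range.1 hu
      cases hLu : L.getD u none with
      | none => rw [hLu] at hx'; simp at hx'
      | some z =>
        rw [hLu] at hx'
        simp only [Option.elim_some, List.mem_map] at hx'
        obtain ⟨f, hf, rfl⟩ := hx'
        have e1 := h2 _ (hget u _ hLu)
        have e2 := hB u v hu hv f hf
        have e3 := sz_moMul z.2 f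
        have e : (i + 1) * (B + 3) = i * (B + 3) + (B + 3) := by ring
        simp only
        omega

theorem plabs (h : S_PP4) {m n : α → ℕ} {drop : α → List Bool} {bt : α → List ℕ}
    {o : α → List Outcome} (p : ℕ) (hm : UPoly m) (hn : UPoly n) (hd : Poly drop)
    (hb : Poly bt) (ho : Poly o) :
    Poly (fun a => labs (m a) (n a) p (drop a) (bt a) (o a)) := by
  have hM := um2 hm
  -- all factors
  have hhops : Poly (fun a => (List.range (m a + m a + 2)).flatMap fun u =>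
      (List.range (m a + m a + 2)).flatMap fun v =>
        hop (m a) (n a) p (drop a) (bt a) (o a) u v) := by
    refine NPC.Poly.flatMap (F := fun a u => (List.range (m a + m a + 2)).flatMap fun v =>
      hop (m a) (n a) p (drop a) (bt a) (o a) u v) hM.range ?_
    refine NPC.Poly.flatMap (l := fun q : α × ℕ => List.range (m q.1 + m q.1 + 2))
      (F := fun q v => hop (m q.1) (n q.1) p (drop q.1) (bt q.1) (o q.1) q.2 v)
      (hM.range.comp (NPC.Poly.fst NPC.Poly.id)) ?_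
    have c : Poly (fun q : (α × ℕ) × ℕ => q.1.1) := NPC.Poly.fst (NPC.Poly.fst NPC.Poly.id)
    have c2 : Poly (fun q : (α × ℕ) × ℕ => q.1.2) := NPC.Poly.snd (NPC.Poly.fst NPC.Poly.id)
    have c3 : Poly (fun q : (α × ℕ) × ℕ => q.2) := NPC.Poly.snd NPC.Poly.id
    exact phop h p (UPoly.comp (n := m) hm c) (UPoly.comp (n := n) hn c) (hd.comp c) (hb.comp c)
      (ho.comp c) c2 c3
  obtain ⟨r, hr⟩ := hhops.sz_le
  obtain ⟨s, hs⟩ := NPC.Poly.sz_le hM
  have hMs : ∀ a, m a + m a + 2 ≤ s.eval (sz a) := fun a => by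
    have := length_lt_sz (List.replicate (m a + m a + 2) ())
    rw [List.length_replicate] at this
    exact this.le.trans (hs a)
  have hu : Poly (fun a => List.replicate (m a + m a + 2) ()) := hM
  unfold labs
  have hF : Poly (fun q : α × Lab => labS (m q.1) (n q.1) p (drop q.1) (bt q.1) (o q.1) q.2) := by
    have b : Poly (fun q : α × Lab => q.1) := NPC.Poly.fst NPC.Poly.id
    exact plabS h p (UPoly.comp (n := m) hm b) (UPoly.comp (n := n) hn b) (hd.comp b) (hb.comp b)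
      (ho.comp b) (NPC.Poly.snd NPC.Poly.id)
  have key : Poly (fun a => (fun l : Lab => labS (m a) (n a) p (drop a) (bt a) (o a)
      l)^[(List.replicate (m a + m a + 2) ()).length] (lab0 (m a))) := by
    refine NPC.Poly.iterLen (F := fun a l => labS (m a) (n a) p (drop a) (bt a) (o a) l) hu
      (plab0 hm) hF (s * (s * (r + 3) + Polynomial.C (sz moOne + 9)) + 1) ?_
    intro a k hk
    rw [List.length_replicate] at hk
    have hB : ∀ u v, u < m a + m a + 2 → v < m a + m a + 2 →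
        ∀ f ∈ hop (m a) (n a) p (drop a) (bt a) (o a) u v, sz f ≤ r.eval (sz a) := by
      intro u v hu hv f hf
      refine le_trans (le_of_lt (sz_le_of_mem ?_)) (hr a)
      exact List.mem_flatMap.2 ⟨u, List.mem_range.2 hu, List.mem_flatMap.2
        ⟨v, List.mem_range.2 hv, hf⟩⟩
    obtain ⟨h1, h2⟩ := lab_sz hB k
    have h3 : ∀ x ∈ (labS (m a) (n a) p (drop a) (bt a) (o a))^[k] (lab0 (m a)),
        sz x ≤ sz moOne + s.eval (sz a) * (r.eval (sz a) + 3) + 8 := by
      intro x hx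
      cases x with
      | none => simp
      | some x =>
        have e1 := h2 x hx
        have e2 := sz_bool_le x.1
        have e3 : k * (r.eval (sz a) + 3) ≤ s.eval (sz a) * (r.eval (sz a) + 3) :=
          Nat.mul_le_mul_right _ (hk.trans (hMs a))
        obtain ⟨x1, x2⟩ := x
        simp only [sz_some, sz_pair]
        simp only at e1 e2
        omega
    have h4 := sz_le_length_mul _ _ h3
    rw [h1] at h4
    refine h4.trans ?_
    simp only [Polynomial.eval_add, Polynomial.eval_mul, Polynomial.eval_C, Polynomial.eval_one,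
      Polynomial.eval_ofNat]
    have h5 := Nat.mul_le_mul_right (sz moOne + s.eval (sz a) * (r.eval (sz a) + 3) + 8 + 1) (hMs a)
    have h6 : s.eval (sz a) * (sz moOne + s.eval (sz a) * (r.eval (sz a) + 3) + 8 + 1) =
        s.eval (sz a) * (s.eval (sz a) * (r.eval (sz a) + 3) + (sz moOne + 9)) := by ring
    rw [h6] at h5
    exact Nat.add_le_add_right h5 1
  exact key.congr fun a => by simp only [List.length_replicate]

theorem pisL {l : α → Lab} {c : α → ℕ} (b : Bool) (hl : Poly l) (hc : Poly c) :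
    Poly (fun a => isL (l a) b (c a)) := by
  unfold isL
  exact NPC.Poly.dec_eq (NPC.Poly.optMap_fp (h := fun _ (x : Bool × Mo) => x.1)
    (NPC.Poly.getD hl hc (NPC.Poly.const _)) (NPC.Poly.fst (NPC.Poly.snd NPC.Poly.id)))
    (NPC.Poly.const _)

theorem plbW {l : α → Lab} {c : α → ℕ} (hl : Poly l) (hc : Poly c) :
    Poly (fun a => lbW (l a) (c a)) := by
  unfold lbW
  exact NPC.Poly.optGetD (NPC.Poly.optMap_fp (h := fun _ (x : Bool × Mo) => x.2)
    (NPC.Poly.getD hl hc (NPC.Poly.const _)) (NPC.Poly.snd (NPC.Poly.snd NPC.Poly.id)))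
    (NPC.Poly.const _)

theorem pconn (h : S_PP4) {m n : α → ℕ} {drop : α → List Bool} {bt : α → List ℕ}
    {o : α → List Outcome} {l : α → Lab} (p : ℕ) (hm : UPoly m) (hn : UPoly n) (hd : Poly drop)
    (hb : Poly bt) (ho : Poly o) (hl : Poly l) :
    Poly (fun a => conn (m a) (n a) p (drop a) (bt a) (o a) (l a)) := by
  have hM := um2 hm
  unfold conn
  refine NPC.Poly.any (p := fun a u => (List.range (m a + m a + 2)).any fun v =>
    isL (l a) false u && (isL (l a) true v &&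
      !(hop (m a) (n a) p (drop a) (bt a) (o a) u v).isEmpty)) hM.range ?_
  refine NPC.Poly.any (l := fun q : α × ℕ => List.range (m q.1 + m q.1 + 2))
    (p := fun q v => isL (l q.1) false q.2 && (isL (l q.1) true v &&
      !(hop (m q.1) (n q.1) p (drop q.1) (bt q.1) (o q.1) q.2 v).isEmpty))
    (hM.range.comp (NPC.Poly.fst NPC.Poly.id)) ?_
  have c : Poly (fun q : (α × ℕ) × ℕ => q.1.1) := NPC.Poly.fst (NPC.Poly.fst NPC.Poly.id)
  have c2 : Poly (fun q : (α × ℕ) × ℕ => q.1.2) := NPC.Poly.snd (NPC.Poly.fst NPC.Poly.id)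
  have c3 : Poly (fun q : (α × ℕ) × ℕ => q.2) := NPC.Poly.snd NPC.Poly.id
  exact NPC.Poly.and (pisL false (hl.comp c) c2) (NPC.Poly.and (pisL true (hl.comp c) c3)
    (NPC.Poly.not (NPC.Poly.isEmpty (phop h p (UPoly.comp (n := m) hm c) (UPoly.comp (n := n) hn c)
      (hd.comp c) (hb.comp c) (ho.comp c) c2 c3))))

theorem pcrs {m n : α → ℕ} {drop : α → List Bool} {bt : α → List ℕ}
    {o : α → List Outcome} {l : α → Lab} (p : ℕ) (hm : UPoly m) (hn : UPoly n) (hd : Poly drop)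
    (hb : Poly bt) (ho : Poly o) (hl : Poly l) :
    Poly (fun a => crs (m a) (n a) p (drop a) (bt a) (o a) (l a)) := by
  have hM := um2 hm
  unfold crs
  refine NPC.Poly.flatMap (F := fun a k => (List.range (m a + m a + 2)).flatMap fun c =>
    if nz (m a) (drop a) (bt a) (o a) k c && (isL (l a) true ((bt a).getD k 0) &&
      isL (l a) false c) then [moMul (tM p (bt a) k c) (moMul (lbW (l a) c)
        (moInv (lbW (l a) ((bt a).getD k 0))))] else []) (un2 hn).range ?_
  refine NPC.Poly.flatMap (l := fun q : α × ℕ => List.range (m q.1 + m q.1 + 2))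
    (F := fun q c => if nz (m q.1) (drop q.1) (bt q.1) (o q.1) q.2 c &&
      (isL (l q.1) true ((bt q.1).getD q.2 0) && isL (l q.1) false c) then
      [moMul (tM p (bt q.1) q.2 c) (moMul (lbW (l q.1) c)
        (moInv (lbW (l q.1) ((bt q.1).getD q.2 0))))] else [])
    (hM.range.comp (NPC.Poly.fst NPC.Poly.id)) ?_
  have c : Poly (fun q : (α × ℕ) × ℕ => q.1.1) := NPC.Poly.fst (NPC.Poly.fst NPC.Poly.id)
  have c2 : Poly (fun q : (α × ℕ) × ℕ => q.1.2) := NPC.Poly.snd (NPC.Poly.fst NPC.Poly.id)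
  have c3 : Poly (fun q : (α × ℕ) × ℕ => q.2) := NPC.Poly.snd NPC.Poly.id
  have hbk : Poly (fun q : (α × ℕ) × ℕ => (bt q.1.1).getD q.1.2 0) :=
    NPC.Poly.getD (hb.comp c) c2 (NPC.Poly.const 0)
  exact NPC.Poly.ite (NPC.Poly.decide_bool (NPC.Poly.and
    (pnz (hm.toPoly.comp c) (hd.comp c) (hb.comp c) (ho.comp c) c2 c3)
    (NPC.Poly.and (pisL true (hl.comp c) hbk) (pisL false (hl.comp c) c3))))
    (NPC.Poly.cons (pmul (ptM p (hb.comp c) c2 c3) (pmul (plbW (hl.comp c) c3)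
      (pinv (plbW (hl.comp c) hbk)))) (NPC.Poly.const [])) (NPC.Poly.const [])

theorem psqQs {m n : α → ℕ} {L : α → List Mo} (hm : UPoly m) (hn : UPoly n) (hL : Poly L) :
    Poly (fun a => sqQs (m a) (n a) (L a)) := by
  unfold sqQs
  refine NPC.Poly.flatMap (F := fun a u => (L a).map fun v => cmpQ (m a) (n a) u v) hL ?_
  refine NPC.Poly.map (l := fun q : α × Mo => L q.1)
    (F := fun q v => cmpQ (m q.1) (n q.1) q.2 v) (hL.comp (NPC.Poly.fst NPC.Poly.id)) ?_
  have c : Poly (fun q : (α × Mo) × Mo => q.1.1) := NPC.Poly.fst (NPC.Poly.fst NPC.Poly.id)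
  have c2 : Poly (fun q : (α × Mo) × Mo => q.1.2) := NPC.Poly.snd (NPC.Poly.fst NPC.Poly.id)
  have c3 : Poly (fun q : (α × Mo) × Mo => q.2) := NPC.Poly.snd NPC.Poly.id
  exact pcmpQ (UPoly.comp (n := m) hm c) (UPoly.comp (n := n) hn c) c2 c3

theorem pargmax (h : S_PP4) {L : α → List Mo} {o : α → List Outcome} (hL : Poly L)
    (ho : Poly o) : Poly (fun a => argmax (L a) (o a)) := by
  have hl := NPC.Poly.length hL
  unfold argmax
  refine NPC.Poly.getD hL (NPC.Poly.optGetD (NPC.Poly.head? (NPC.Poly.filter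
    (p := fun a i => (List.range (L a).length).all fun j =>
      decide (0 ≤ osg ((o a).getD (i * (L a).length + j) none))) (NPC.Poly.range_length hL) ?_))
    (NPC.Poly.const 0)) (NPC.Poly.const _)
  refine NPC.Poly.all (l := fun q : α × ℕ => List.range (L q.1).length)
    (p := fun q j => decide (0 ≤ osg ((o q.1).getD (q.2 * (L q.1).length + j) none)))
    (NPC.Poly.range_length (hL.comp (NPC.Poly.fst NPC.Poly.id))) ?_
  have c : Poly (fun q : (α × ℕ) × ℕ => q.1.1) := NPC.Poly.fst (NPC.Poly.fst NPC.Poly.id)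
  have c2 : Poly (fun q : (α × ℕ) × ℕ => q.1.2) := NPC.Poly.snd (NPC.Poly.fst NPC.Poly.id)
  have c3 : Poly (fun q : (α × ℕ) × ℕ => q.2) := NPC.Poly.snd NPC.Poly.id
  exact posgle h (NPC.Poly.getD (ho.comp c) (NPC.Poly.add (NPC.Poly.mul c2 (hl.comp c)) c3)
    (NPC.Poly.const none))

theorem pnewW {m n : α → ℕ} {drop : α → List Bool} {l : α → Lab} {t : α → Mo} (hm : UPoly m)
    (hn : UPoly n) (hd : Poly drop) (hl : Poly l) (ht : Poly t) :
    Poly (fun a => newW (m a) (n a) (drop a) (l a) (t a)) := by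
  unfold newW
  refine NPC.Poly.map (F := fun a c => if act (m a) (drop a) c then
    (if isL (l a) true c then moMul (moTwo (cW (m a) (n a))) (moMul (lbW (l a) c) (t a))
      else lbW (l a) c) else moOne) (UPoly.add hm hm).range ?_
  have b : Poly (fun q : α × ℕ => q.1) := NPC.Poly.fst NPC.Poly.id
  have b2 : Poly (fun q : α × ℕ => q.2) := NPC.Poly.snd NPC.Poly.id
  have hw : Poly (fun q : α × ℕ => lbW (l q.1) q.2) := plbW (hl.comp b) b2
  exact NPC.Poly.ite (NPC.Poly.decide_bool (pact (hm.toPoly.comp b) (hd.comp b) b2))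
    (NPC.Poly.ite (NPC.Poly.decide_bool (pisL true (hl.comp b) b2))
      (pmul (ptwoM (UPoly.comp (n := fun a => cW (m a) (n a)) (ucW hm hn) b))
        (pmul hw (ht.comp b))) hw) (NPC.Poly.const _)

end TQD

open TQQ TQD Pool.Agent.W920.FC.TPU4 in
theorem t_QD : S_QQ → Pool.Agent.W920.FC.S_PP4 → S_QD := by
  intro _ h α _ U V p drop t W bt o y l hU hV hd ht hW hb ho hy hl
  have hm : UPoly (fun a => (U a).length) := UPoly.length hU
  have hn : UPoly (fun a => (V a).length) := UPoly.length hV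
  exact ⟨pws0 hm hn ht hW, phalve hm hn hW hy, fun b hb' => ppUpd h hm hn hd ho hy hb',
    fun j hj => z_poly h (ucD hm hn) ho hj, pbaQs p hm hn ht hW hb,
    fun k hk => ppick h hm hd hk ho, pgrQs p hm hn ht hW hb, plabs h p hm hn hd hb ho,
    pconn h p hm hn hd hb ho hl, pcrs p hm hn hd hb ho hl, psqQs hm hn hW,
    pargmax h hW ho, pnewW hm hn hd hl ht, ucD hm hn, ucJ hm hn, ucR hm hn,
    ucT (un3 hn) (um4 hm)⟩

end Pool.Agent.Y648.CS
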