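import Pool.Agent.Y648.CS.StmP
import Pool.Agent.W920.FD.T_QP
import Pool.Agent.W920.FD.T_QF

set_option autoImplicit false

/-!
# Queries in polynomial time
-/

namespace Pool.Agent.Y648.CS

open Pool.Agent.NPC Pool.Agent.H558R2 Pool.Agent.H622R3.SM Pool.Agent.W920.FC

namespace TQQ

variable {α β : Type} [TEnc α] [TEnc β]

attribute [local fun_prop] TPM.pInstr

/-! ### Instructions -/

theorem pcode {I : α → Instr} (h : Poly I) : Poly (fun a => (I a).code) :=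
  NPC.Poly.of_toT (NPC.Poly.toT' h)

theorem pdst {I : α → Instr} (h : Poly I) : Poly (fun a => (I a).dst) :=
  NPC.Poly.fst (NPC.Poly.snd (pcode h))

theorem pfst {I : α → Instr} (h : Poly I) : Poly (fun a => (I a).fst) :=
  NPC.Poly.fst (NPC.Poly.snd (NPC.Poly.snd (pcode h)))

theorem psnd {I : α → Instr} (h : Poly I) : Poly (fun a => (I a).snd) :=
  NPC.Poly.snd (NPC.Poly.snd (NPC.Poly.snd (pcode h)))

theorem pmk {I : α → Instr} {f g k : α → Reg} (h : Poly I) (hf : Poly f) (hg : Poly g)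
    (hk : Poly k) : Poly (fun a => Instr.mk (I a).op (f a) (g a) (k a)) :=
  NPC.Poly.of_toT (NPC.Poly.toT' (NPC.Poly.pair (NPC.Poly.fst (pcode h))
    (NPC.Poly.pair hf (NPC.Poly.pair hg hk))))

theorem pheadD {r : α → List ℕ} (h : Poly r) : Poly (fun a => (r a).headD 0) :=
  (NPC.Poly.optGetD (NPC.Poly.head? h) (NPC.Poly.const 0)).congr fun a => by
    cases r a <;> rfl

theorem prn {c : α → ℕ} {r : α → Reg} (hc : Poly c) (hr : Poly r) :
    Poly (fun a => rn (c a) (r a)) := by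
  unfold rn
  exact NPC.Poly.ite (NPC.Poly.decide_lt (pheadD hr) (NPC.Poly.const 4)) hr
    (NPC.Poly.cons (NPC.Poly.const 60) (NPC.Poly.cons hc hr))

theorem prnI {c : α → ℕ} {I : α → Instr} (hc : Poly c) (hI : Poly I) :
    Poly (fun a => rnI (c a) (I a)) :=
  pmk hI (prn hc (pdst hI)) (prn hc (pfst hI)) (prn hc (psnd hI))

theorem ptupP {qs : α → List Qry} (h : Poly qs) : Poly (fun a => tupP (qs a)) := by
  unfold tupP
  refine NPC.Poly.flatMap (F := fun _ (x : Qry × ℕ) => x.1.1.map (rnI x.2))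
    (NPC.Poly.zipIdx h) ?_
  refine NPC.Poly.map (l := fun p : α × (Qry × ℕ) => p.2.1.1) (F := fun p I => rnI p.2.2 I)
    (NPC.Poly.fst (NPC.Poly.fst (NPC.Poly.snd NPC.Poly.id))) ?_
  exact prnI (NPC.Poly.snd (NPC.Poly.snd (NPC.Poly.fst NPC.Poly.id))) (NPC.Poly.snd NPC.Poly.id)

theorem ptupR {qs : α → List Qry} {i : α → ℕ} (h : Poly qs) (hi : Poly i) :
    Poly (fun a => tupR (qs a) (i a)) := by
  unfold tupR
  exact prn hi (NPC.Poly.snd (NPC.Poly.getD h hi (NPC.Poly.const _)))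

theorem pcmb (op : Op) {q₁ q₂ : α → Qry} (h1 : Poly q₁) (h2 : Poly q₂) :
    Poly (fun a => cmb op (q₁ a) (q₂ a)) := by
  unfold cmb
  have h : Poly (fun a => [q₁ a, q₂ a]) :=
    NPC.Poly.cons h1 (NPC.Poly.cons h2 (NPC.Poly.const []))
  exact NPC.Poly.pair (NPC.Poly.append (ptupP h) (NPC.Poly.cons (TPM.pInstr op
    (NPC.Poly.const [63]) (ptupR h (NPC.Poly.const 0)) (ptupR h (NPC.Poly.const 1)))
      (NPC.Poly.const []))) (NPC.Poly.const [63])

theorem ptwo {e : α → ℕ} (he : UPoly e) : Poly (fun a => twoQ (e a)) := by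
  unfold twoQ
  have he' := he.toPoly
  refine NPC.Poly.pair (NPC.Poly.cons (NPC.Poly.const _) (NPC.Poly.map
    (F := fun _ t => (⟨Op.add, [4, t + 1], [4, t], [4, t]⟩ : Instr)) he.range (by fun_prop))) ?_
  exact NPC.Poly.cons (NPC.Poly.const 4) (NPC.Poly.cons he' (NPC.Poly.const []))

/-! ### Minors -/

theorem pentI {m n p i c : α → ℕ} {r : α → Reg} (hm : Poly m) (hn : Poly n) (hp : Poly p)
    (hi : Poly i) (hc : Poly c) (hr : Poly r) :
    Poly (fun a => entI (m a) (n a) (p a) (i a) (c a) (r a)) := by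
  have k0 : Poly (fun _ : α => (0 : ℕ)) := NPC.Poly.const 0
  have k1 : Poly (fun _ : α => (1 : ℕ)) := NPC.Poly.const 1
  have k2 : Poly (fun _ : α => (2 : ℕ)) := NPC.Poly.const 2
  have r2 : Poly (fun _ : α => ([2] : Reg)) := NPC.Poly.const [2]
  have r3 : Poly (fun _ : α => ([3] : Reg)) := NPC.Poly.const [3]
  have hmm : Poly (fun a => m a + m a) := NPC.Poly.add hm hm
  have a0 : Poly (fun a => (⟨Op.add, r a, [3], [3]⟩ : Instr)) := TPM.pInstr _ hr r3 r3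
  have a1 : Poly (fun a => (⟨Op.add, r a, [2], [3]⟩ : Instr)) := TPM.pInstr _ hr r2 r3
  have a2 : Poly (fun a => (⟨Op.sub, r a, [3], [2]⟩ : Instr)) := TPM.pInstr _ hr r3 r2
  have a3 : Poly (fun a => (⟨Op.add, r a, [0, c a, i a], [3]⟩ : Instr)) :=
    TPM.pInstr _ hr (NPC.Poly.cons k0 (NPC.Poly.cons hc (NPC.Poly.cons hi (NPC.Poly.const [])))) r3
  have a4 : Poly (fun a => (⟨Op.sub, r a, [3], [1, c a]⟩ : Instr)) :=
    TPM.pInstr _ hr r3 (NPC.Poly.cons k1 (NPC.Poly.cons hc (NPC.Poly.const [])))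
  have a5 : Poly (fun a => (⟨Op.sub, r a, [3], [0, c a - m a, i a]⟩ : Instr)) :=
    TPM.pInstr _ hr r3 (NPC.Poly.cons k0 (NPC.Poly.cons (NPC.Poly.sub hc hm)
      (NPC.Poly.cons hi (NPC.Poly.const []))))
  have d1 : Poly (fun a => decide (i a < n a)) := NPC.Poly.decide_lt hi hn
  have d2 : Poly (fun a => decide (i a = n a)) := NPC.Poly.dec_eq hi hn
  have d3 : Poly (fun a => decide (p a = 0)) := NPC.Poly.dec_eq hp k0
  unfold entI
  refine NPC.Poly.ite (NPC.Poly.decide_lt hc hm)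
    (NPC.Poly.ite d1 a3 (NPC.Poly.ite d2 (NPC.Poly.ite d3 a0 a4) a1)) ?_
  refine NPC.Poly.ite (NPC.Poly.decide_lt hc hmm)
    (NPC.Poly.ite d1 a5 (NPC.Poly.ite d2 (NPC.Poly.ite d3 a1 a0) a1)) ?_
  refine NPC.Poly.ite (NPC.Poly.dec_eq hc hmm) (NPC.Poly.ite d2 a2 a0) ?_
  refine NPC.Poly.ite (NPC.Poly.dec_eq hc (NPC.Poly.add hmm k1))
    (NPC.Poly.ite (NPC.Poly.dec_eq hi (NPC.Poly.add hn k1)) a2 a0) ?_
  exact NPC.Poly.ite (NPC.Poly.dec_eq hc (NPC.Poly.add (NPC.Poly.add hmm k2) hi)) a1 a0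

/-- A program for a natural number in unary. -/
theorem of_len {γ : Type} [TEnc γ] {f : ℕ → γ}
    (h : Poly (fun u : List Unit => f u.length)) {n : α → ℕ} (hn : UPoly n) :
    Poly (fun a => f (n a)) :=
  (h.comp hn).congr fun a => by simp

theorem pfl {n : α → ℕ} (hn : UPoly n) : Poly (fun a => flProg (n a)) :=
  of_len (Pool.Agent.W920.FD.TQP.pfl NPC.Poly.id) hn

theorem pnum {n : α → ℕ} (hn : UPoly n) : Poly (fun a => numProg (n a)) :=
  of_len (Pool.Agent.W920.FD.TQP.pnum NPC.Poly.id) hn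

theorem pdetQ {m n : α → ℕ} {x : α → Mn} (hm : UPoly m) (hn : UPoly n) (hx : Poly x) :
    Poly (fun a => detQ (m a) (n a) (x a)) := by
  unfold detQ
  have hn2 : UPoly (fun a => n a + 2) := UPoly.add hn (UPoly.const 2)
  have hm' := hm.toPoly
  have hn' := hn.toPoly
  refine NPC.Poly.pair (NPC.Poly.append ?_ (pfl hn2)) ?_
  · refine NPC.Poly.flatMap (F := fun a i => (List.range (n a + 2)).map fun k =>
      entI (m a) (n a) (x a).1 i ((x a).2.getD k 0) [4, i, k]) hn2.range ?_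
    refine NPC.Poly.map (l := fun p : α × ℕ => List.range (n p.1 + 2))
      (F := fun p k => entI (m p.1) (n p.1) (x p.1).1 p.2 ((x p.1).2.getD k 0) [4, p.2, k])
      (hn2.range.comp (NPC.Poly.fst NPC.Poly.id)) ?_
    have b : Poly (fun q : (α × ℕ) × ℕ => q.1.1) := NPC.Poly.fst (NPC.Poly.fst NPC.Poly.id)
    have b2 : Poly (fun q : (α × ℕ) × ℕ => q.1.2) := NPC.Poly.snd (NPC.Poly.fst NPC.Poly.id)
    have b3 : Poly (fun q : (α × ℕ) × ℕ => q.2) := NPC.Poly.snd NPC.Poly.id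
    exact pentI (hm'.comp b) (hn'.comp b) (NPC.Poly.fst (hx.comp b)) b2
      (NPC.Poly.getD (NPC.Poly.snd (hx.comp b)) b3 (NPC.Poly.const 0))
      (NPC.Poly.cons (NPC.Poly.const 4) (NPC.Poly.cons b2 (NPC.Poly.cons b3
        (NPC.Poly.const []))))
  · exact NPC.Poly.cons (NPC.Poly.const 10) (NPC.Poly.cons
      (NPC.Poly.add hn' (NPC.Poly.const 1)) (NPC.Poly.const []))

theorem pprQ {m n e : α → ℕ} {l : α → List Mn} (hm : UPoly m) (hn : UPoly n) (he : UPoly e)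
    (hl : Poly l) : Poly (fun a => prQ (m a) (n a) (e a) (l a)) := by
  have hQ : Poly (fun a => twoQ (e a) :: (l a).map (detQ (m a) (n a))) := by
    refine NPC.Poly.cons (ptwo he) (NPC.Poly.map (F := fun a x => detQ (m a) (n a) x) hl ?_)
    exact pdetQ (m := fun p : α × Mn => m p.1) (n := fun p => n p.1)
      (UPoly.comp (n := m) hm (NPC.Poly.fst NPC.Poly.id))
      (UPoly.comp (n := n) hn (NPC.Poly.fst NPC.Poly.id)) (NPC.Poly.snd NPC.Poly.id)
  obtain ⟨Q, hQ'⟩ : ∃ Q : α → List Qry, Q = fun a => twoQ (e a) :: (l a).map (detQ (m a) (n a)) :=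
    ⟨_, rfl⟩
  have eQ : ∀ a, twoQ (e a) :: (l a).map (detQ (m a) (n a)) = Q a := fun a => by rw [hQ']
  rw [← hQ'] at hQ
  unfold prQ
  simp only [eQ]
  refine NPC.Poly.pair (NPC.Poly.append (ptupP hQ) (NPC.Poly.cons ?_ ?_)) ?_
  · exact TPM.pInstr _ (NPC.Poly.const _) (ptupR hQ (NPC.Poly.const 0)) (NPC.Poly.const _)
  · refine NPC.Poly.map (F := fun a t =>
      (⟨Op.mul, [62, t + 1], [62, t], tupR (Q a) (t + 1)⟩ : Instr)) (NPC.Poly.range_length hl) ?_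
    have b2 : Poly (fun q : α × ℕ => q.2) := NPC.Poly.snd NPC.Poly.id
    have b3 : Poly (fun q : α × ℕ => q.2 + 1) := NPC.Poly.succ b2
    exact TPM.pInstr _ (NPC.Poly.cons (NPC.Poly.const 62) (NPC.Poly.cons b3 (NPC.Poly.const [])))
      (NPC.Poly.cons (NPC.Poly.const 62) (NPC.Poly.cons b2 (NPC.Poly.const [])))
      (ptupR (hQ.comp (NPC.Poly.fst NPC.Poly.id)) b3)
  · exact NPC.Poly.cons (NPC.Poly.const 62) (NPC.Poly.cons (NPC.Poly.length hl)
      (NPC.Poly.const []))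

/-! ### Monomials -/

theorem pu1 {a : α → Mo} (h : Poly a) : Poly (fun x => (a x).1.2.1) :=
  NPC.Poly.fst (NPC.Poly.snd (NPC.Poly.fst h))

theorem pu2 {a : α → Mo} (h : Poly a) : Poly (fun x => (a x).1.2.2) :=
  NPC.Poly.snd (NPC.Poly.snd (NPC.Poly.fst h))

theorem pl1 {a : α → Mo} (h : Poly a) : Poly (fun x => (a x).2.1) :=
  NPC.Poly.fst (NPC.Poly.snd h)

theorem pl2 {a : α → Mo} (h : Poly a) : Poly (fun x => (a x).2.2) :=
  NPC.Poly.snd (NPC.Poly.snd h)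

theorem psg {a : α → Mo} (h : Poly a) : Poly (fun x => (a x).1.1) :=
  NPC.Poly.fst (NPC.Poly.fst h)

theorem pcmpQ {m n : α → ℕ} {a b : α → Mo} (hm : UPoly m) (hn : UPoly n) (ha : Poly a)
    (hb : Poly b) : Poly (fun x => cmpQ (m x) (n x) (a x) (b x)) := by
  unfold cmpQ
  have h1 : Poly (fun x => prQ (m x) (n x) ((a x).1.2.1.length + (b x).1.2.2.length)
      ((a x).2.1 ++ (b x).2.2)) :=
    pprQ hm hn (UPoly.add (UPoly.length (pu1 ha)) (UPoly.length (pu2 hb)))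
      (NPC.Poly.append (pl1 ha) (pl2 hb))
  have h2 : Poly (fun x => prQ (m x) (n x) ((b x).1.2.1.length + (a x).1.2.2.length)
      ((b x).2.1 ++ (a x).2.2)) :=
    pprQ hm hn (UPoly.add (UPoly.length (pu1 hb)) (UPoly.length (pu2 ha)))
      (NPC.Poly.append (pl1 hb) (pl2 ha))
  exact pcmb _ (pcmb _ h1 h1) (pcmb _ h2 h2)

theorem pmoQ {m n : α → ℕ} {a : α → Mo} (hm : UPoly m) (hn : UPoly n) (ha : Poly a) :
    Poly (fun x => moQ (m x) (n x) (a x)) := by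
  unfold moQ
  have h1 : Poly (fun x => prQ (m x) (n x) (a x).1.2.1.length (a x).2.1) :=
    pprQ hm hn (UPoly.length (pu1 ha)) (pl1 ha)
  have h2 : Poly (fun x => prQ (m x) (n x) (a x).1.2.2.length (a x).2.2) :=
    pprQ hm hn (UPoly.length (pu2 ha)) (pl2 ha)
  have h3 := pcmb Op.div h1 h2
  exact NPC.Poly.ite (NPC.Poly.decide_bool (psg ha)) (pcmb Op.sub (NPC.Poly.const ([], [3])) h3) h3

/-! ### Sizes -/

theorem ucK {m n : α → ℕ} (hm : UPoly m) (hn : UPoly n) : UPoly (fun a => cK (m a) (n a)) :=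
  UPoly.add (UPoly.add hm (UPoly.add hn hn)) (UPoly.const 1)

theorem ucT {m n : α → ℕ} (hm : UPoly m) (hn : UPoly n) : UPoly (fun a => cT (m a) (n a)) :=
  UPoly.mul (UPoly.const 4) (UPoly.mul (ucK hm hn) (UPoly.mul (ucK hm hn) (ucK hm hn)))

theorem un3 {n : α → ℕ} (hn : UPoly n) : UPoly (fun a => n a + 3) := UPoly.add hn (UPoly.const 3)

theorem um4 {m : α → ℕ} (hm : UPoly m) : UPoly (fun a => m a + m a + 4) :=
  UPoly.add (UPoly.add hm hm) (UPoly.const 4)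

theorem ucD {m n : α → ℕ} (hm : UPoly m) (hn : UPoly n) : UPoly (fun a => cD (m a) (n a)) :=
  ucK (un3 hn) (um4 hm)

theorem ucO {m n : α → ℕ} (hm : UPoly m) (hn : UPoly n) : UPoly (fun a => cO (m a) (n a)) :=
  UPoly.add (un3 hn) (um4 hm)

theorem ucA {m n : α → ℕ} (hm : UPoly m) (hn : UPoly n) : UPoly (fun a => cA (m a) (n a)) :=
  UPoly.mul (UPoly.const 7) (ucD hm hn)

theorem ucE {m n : α → ℕ} (hm : UPoly m) (hn : UPoly n) : UPoly (fun a => cE (m a) (n a)) :=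
  UPoly.mul (UPoly.const 8) (ucD hm hn)

theorem ucJ {m n : α → ℕ} (hm : UPoly m) (hn : UPoly n) : UPoly (fun a => cJ (m a) (n a)) :=
  UPoly.mul (UPoly.const 24) (UPoly.mul (ucD hm hn) (ucD hm hn))

theorem ucW {m n : α → ℕ} (hm : UPoly m) (hn : UPoly n) : UPoly (fun a => cW (m a) (n a)) :=
  UPoly.mul (UPoly.const 6) (ucD hm hn)

theorem ucR {m n : α → ℕ} (hm : UPoly m) (hn : UPoly n) :
    UPoly (fun a => Pool.Agent.Y648.CS.cR (m a) (n a)) :=
  UPoly.mul (UPoly.const 64) (UPoly.mul (ucD hm hn) (UPoly.mul (ucD hm hn) (ucD hm hn)))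

/-! ### The weighted matrix -/

theorem pcofI {m n i c : α → ℕ} {r : α → Reg} (p : ℕ) (hm : Poly m) (hn : Poly n)
    (hi : Poly i) (hc : Poly c) (hr : Poly r) :
    Poly (fun a => cofI (m a) (n a) p (i a) (c a) (r a)) := by
  have k1 : Poly (fun _ : α => (1 : ℕ)) := NPC.Poly.const 1
  have k2 : Poly (fun _ : α => (2 : ℕ)) := NPC.Poly.const 2
  have r2 : Poly (fun _ : α => ([2] : Reg)) := NPC.Poly.const [2]
  have r3 : Poly (fun _ : α => ([3] : Reg)) := NPC.Poly.const [3]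
  have hmm : Poly (fun a => m a + m a) := NPC.Poly.add hm hm
  have a0 : Poly (fun a => (⟨Op.add, r a, [3], [3]⟩ : Instr)) := TPM.pInstr _ hr r3 r3
  have a1 : Poly (fun a => (⟨Op.add, r a, [2], [3]⟩ : Instr)) := TPM.pInstr _ hr r2 r3
  have a2 : Poly (fun a => (⟨Op.sub, r a, [3], [2]⟩ : Instr)) := TPM.pInstr _ hr r3 r2
  have d1 : Poly (fun a => decide (i a < n a + 2)) := NPC.Poly.decide_lt hi (NPC.Poly.add hn k2)
  have d2 : Poly (fun a => decide (i a = n a + 1)) := NPC.Poly.dec_eq hi (NPC.Poly.add hn k1)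
  have d3 : Poly (fun a => decide (i a = n a + 2)) := NPC.Poly.dec_eq hi (NPC.Poly.add hn k2)
  have d4 : Poly (fun a => decide (i a = n a)) := NPC.Poly.dec_eq hi hn
  unfold cofI
  refine NPC.Poly.ite (NPC.Poly.decide_lt hc hmm)
    (NPC.Poly.ite d1 (pentI hm hn (NPC.Poly.const p) hi hc hr) a0) ?_
  refine NPC.Poly.ite (NPC.Poly.dec_eq hc hmm) (NPC.Poly.ite d2 a1 a0) ?_
  refine NPC.Poly.ite (NPC.Poly.dec_eq hc (NPC.Poly.add hmm k1)) (NPC.Poly.ite d3 a2 a0) ?_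
  refine NPC.Poly.ite (NPC.Poly.dec_eq hc (NPC.Poly.add hmm k2))
    (NPC.Poly.ite d2 a2 (NPC.Poly.ite d3 a1 a0)) ?_
  exact NPC.Poly.ite (NPC.Poly.decide_or d4 d3) a2 a0

theorem pwtQs {m n : α → ℕ} {Ws : α → List Mo} (hm : UPoly m) (hn : UPoly n) (hW : Poly Ws) :
    Poly (fun a => wtQs (m a) (n a) (Ws a)) := by
  unfold wtQs
  refine NPC.Poly.append (NPC.Poly.map (F := fun a c => moQ (m a) (n a) ((Ws a).getD c moOne))
    (um4 hm).range ?_) (NPC.Poly.cons (ptwo (ucA hm hn)) (NPC.Poly.const []))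
  exact pmoQ (m := fun p : α × ℕ => m p.1) (n := fun p => n p.1)
    (UPoly.comp (n := m) hm (NPC.Poly.fst NPC.Poly.id))
    (UPoly.comp (n := n) hn (NPC.Poly.fst NPC.Poly.id))
    (NPC.Poly.getD (hW.comp (NPC.Poly.fst NPC.Poly.id)) (NPC.Poly.snd NPC.Poly.id)
      (NPC.Poly.const _))

theorem ppreP {m n : α → ℕ} {Ws : α → List Mo} (p : ℕ) (hm : UPoly m) (hn : UPoly n)
    (hW : Poly Ws) : Poly (fun a => preP (m a) (n a) p (Ws a)) := by
  have hQ := pwtQs hm hn hW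
  obtain ⟨Q, hQ'⟩ : ∃ Q : α → List Qry, Q = fun a => wtQs (m a) (n a) (Ws a) := ⟨_, rfl⟩
  have eQ : ∀ a, wtQs (m a) (n a) (Ws a) = Q a := fun a => by rw [hQ']
  rw [← hQ'] at hQ
  unfold preP
  simp only [eQ]
  refine NPC.Poly.append (ptupP hQ) ?_
  refine NPC.Poly.flatMap (F := fun a i => (List.range (m a + m a + 4)).flatMap fun c =>
    [cofI (m a) (n a) p i c [79, i, c], (⟨Op.mul, [80, i, c], [79, i, c],
      tupR (Q a) (if i = n a + 2 ∧ c = m a + m a + 3 then m a + m a + 4 else c)⟩ : Instr)])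
    (un3 hn).range ?_
  refine NPC.Poly.flatMap (l := fun q : α × ℕ => List.range (m q.1 + m q.1 + 4))
    (F := fun q c => [cofI (m q.1) (n q.1) p q.2 c [79, q.2, c],
      (⟨Op.mul, [80, q.2, c], [79, q.2, c], tupR (Q q.1)
        (if q.2 = n q.1 + 2 ∧ c = m q.1 + m q.1 + 3 then m q.1 + m q.1 + 4 else c)⟩ : Instr)])
    ((um4 hm).range.comp (NPC.Poly.fst NPC.Poly.id)) ?_
  have b : Poly (fun q : (α × ℕ) × ℕ => q.1.1) := NPC.Poly.fst (NPC.Poly.fst NPC.Poly.id)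
  have b2 : Poly (fun q : (α × ℕ) × ℕ => q.1.2) := NPC.Poly.snd (NPC.Poly.fst NPC.Poly.id)
  have b3 : Poly (fun q : (α × ℕ) × ℕ => q.2) := NPC.Poly.snd NPC.Poly.id
  have hm' : Poly (fun q : (α × ℕ) × ℕ => m q.1.1) := hm.toPoly.comp b
  have hn' : Poly (fun q : (α × ℕ) × ℕ => n q.1.1) := hn.toPoly.comp b
  have hr : ∀ k : ℕ, Poly (fun q : (α × ℕ) × ℕ => [k, q.1.2, q.2]) := fun k =>
    NPC.Poly.cons (NPC.Poly.const k) (NPC.Poly.cons b2 (NPC.Poly.cons b3 (NPC.Poly.const [])))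
  have hmm : Poly (fun q : (α × ℕ) × ℕ => m q.1.1 + m q.1.1) := NPC.Poly.add hm' hm'
  have hc : Poly (fun q : (α × ℕ) × ℕ => if q.1.2 = n q.1.1 + 2 ∧ q.2 = m q.1.1 + m q.1.1 + 3
      then m q.1.1 + m q.1.1 + 4 else q.2) :=
    NPC.Poly.ite (NPC.Poly.decide_and (NPC.Poly.dec_eq b2 (NPC.Poly.add hn' (NPC.Poly.const 2)))
      (NPC.Poly.dec_eq b3 (NPC.Poly.add hmm (NPC.Poly.const 3))))
      (NPC.Poly.add hmm (NPC.Poly.const 4)) b3
  exact NPC.Poly.cons (pcofI p hm' hn' b2 b3 (hr 79)) (NPC.Poly.cons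
    (TPM.pInstr _ (hr 80) (hr 79) (ptupR (hQ.comp b) hc)) (NPC.Poly.const []))

theorem prl {m n : α → ℕ} {r : α → Reg} (hm : Poly m) (hn : Poly n) (hr : Poly r) :
    Poly (fun a => rl (m a) (n a) (r a)) := by
  have hh := pheadD hr
  have g1 : Poly (fun a => (r a).getD 1 0) := NPC.Poly.getD hr (NPC.Poly.const 1) (NPC.Poly.const 0)
  have g2 : Poly (fun a => (r a).getD 2 0) := NPC.Poly.getD hr (NPC.Poly.const 2) (NPC.Poly.const 0)
  unfold rl
  refine NPC.Poly.ite (NPC.Poly.decide_and (NPC.Poly.dec_eq (NPC.Poly.length hr)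
    (NPC.Poly.const 3)) (NPC.Poly.decide_and (NPC.Poly.dec_eq hh (NPC.Poly.const 0))
      (NPC.Poly.decide_and (NPC.Poly.decide_lt g1 (NPC.Poly.add hn (NPC.Poly.const 3)))
        (NPC.Poly.decide_lt g2 (NPC.Poly.add (NPC.Poly.add hm hm) (NPC.Poly.const 4))))))
    (NPC.Poly.cons (NPC.Poly.const 80) (NPC.Poly.tail hr)) ?_
  refine NPC.Poly.ite (NPC.Poly.dec_eq hr (NPC.Poly.const [2])) (NPC.Poly.const [2]) ?_
  exact NPC.Poly.ite (NPC.Poly.decide_lt hh (NPC.Poly.const 4)) (NPC.Poly.const [3])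
    (NPC.Poly.cons (NPC.Poly.const 81) hr)

theorem prlI {m n : α → ℕ} {I : α → Instr} (hm : Poly m) (hn : Poly n) (hI : Poly I) :
    Poly (fun a => rlI (m a) (n a) (I a)) :=
  pmk hI (prl hm hn (pdst hI)) (prl hm hn (pfst hI)) (prl hm hn (psnd hI))

/-! ### The queries of a step -/

theorem pL1 {m n : α → ℕ} (hm : UPoly m) (hn : UPoly n) : Poly (fun a => L1 (m a) (n a)) :=
  (NPC.Poly.map (F := fun _ _ => (([1], [1]) : List ℤ × List ℤ)) (ucD hm hn)
    (NPC.Poly.const _)).congr fun a => by simp [L1]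

theorem pdrK {m n : α → ℕ} {drop : α → List Bool} (hm : UPoly m) (hn : UPoly n)
    (hd : Poly drop) : Poly (fun a => drK (m a) (n a) (drop a)) := by
  unfold drK
  refine NPC.Poly.map (F := fun a j => if j < cO (m a) (n a) then true
    else if j < cO (m a) (n a) + (m a + m a) then (drop a).getD (j - cO (m a) (n a)) true
    else decide (cO (m a) (n a) + (m a + m a + 4) ≤ j)) (ucD hm hn).range ?_
  have b : Poly (fun q : α × ℕ => q.1) := NPC.Poly.fst NPC.Poly.id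
  have b2 : Poly (fun q : α × ℕ => q.2) := NPC.Poly.snd NPC.Poly.id
  have hm' : Poly (fun q : α × ℕ => m q.1) := hm.toPoly.comp b
  have hO : Poly (fun q : α × ℕ => cO (m q.1) (n q.1)) := (ucO hm hn).toPoly.comp b
  have hmm : Poly (fun q : α × ℕ => m q.1 + m q.1) := NPC.Poly.add hm' hm'
  refine NPC.Poly.ite (NPC.Poly.decide_lt b2 hO) (NPC.Poly.const true) ?_
  refine NPC.Poly.ite (NPC.Poly.decide_lt b2 (NPC.Poly.add hO hmm))
    (NPC.Poly.getD (hd.comp b) (NPC.Poly.sub b2 hO) (NPC.Poly.const true)) ?_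
  exact NPC.Poly.decide_le (NPC.Poly.add hO (NPC.Poly.add hmm (NPC.Poly.const 4))) b2

theorem pallQs (h : Pool.Agent.W920.FD.S_QP) {m n : α → ℕ} {drop : α → List Bool}
    {y : α → List ℕ} (hm : UPoly m) (hn : UPoly n) (hd : Poly drop) (hy : Poly y) :
    Poly (fun a => allQs (m a) (n a) (drop a) (y a)) := by
  have hL := pL1 hm hn
  have hdr := pdrK hm hn hd
  have h1 : Poly (fun a => Pool.Agent.W920.FD.perQs V1 (n a + 3) (m a + m a + 4)
      (L1 (m a) (n a)) (drK (m a) (n a) (drop a)) (y a)) :=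
    (h α _ _ (fun _ => V1) _ _ _ (un3 hn) (um4 hm) (NPC.Poly.const V1) hL hdr hy).congr
      fun a => by simp only [List.length_replicate]
  have h2 : Poly (fun a => Pool.Agent.W920.FD.perP V1 (n a + 3) (m a + m a + 4)
      (L1 (m a) (n a)) (drK (m a) (n a) (drop a))) :=
    (Pool.Agent.W920.FD.TQP.pper Pool.Agent.W920.FD.t_QF (un3 hn) (um4 hm)
      (NPC.Poly.const V1) hL hdr).congr fun a => by simp only [List.length_replicate]
  obtain ⟨P, hP⟩ : ∃ P : α → List Instr, P = fun a => Pool.Agent.W920.FD.perP V1 (n a + 3)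
    (m a + m a + 4) (L1 (m a) (n a)) (drK (m a) (n a) (drop a)) := ⟨_, rfl⟩
  have eP : ∀ a, Pool.Agent.W920.FD.perP V1 (n a + 3)
    (m a + m a + 4) (L1 (m a) (n a)) (drK (m a) (n a) (drop a)) = P a := fun a => by rw [hP]
  rw [← hP] at h2
  have hD := ucD hm hn
  have hT : Poly (fun a => numProg (cT (n a + 3) (m a + m a + 4))) := pnum (ucT (un3 hn) (um4 hm))
  obtain ⟨N, hN⟩ : ∃ N : α → List Instr, N = fun a => numProg (cT (n a + 3) (m a + m a + 4)) :=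
    ⟨_, rfl⟩
  have eN : ∀ a, numProg (cT (n a + 3) (m a + m a + 4)) = N a := fun a => by rw [hN]
  rw [← hN] at hT
  unfold allQs
  refine NPC.Poly.append h1 ?_
  refine NPC.Poly.flatMap (F := fun a r => (List.range (cD (m a) (n a))).map fun j =>
    mrQ (m a) (n a) (drop a) (y a) r j) (UPoly.add hD (UPoly.const 1)).range ?_
  refine NPC.Poly.map (l := fun q : α × ℕ => List.range (cD (m q.1) (n q.1)))
    (F := fun q j => mrQ (m q.1) (n q.1) (drop q.1) (y q.1) q.2 j)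
    (hD.range.comp (NPC.Poly.fst NPC.Poly.id)) ?_
  unfold mrQ Pool.Agent.W920.FD.dQ Pool.Agent.W920.FD.cQ
  simp only [eP, eN]
  have b : Poly (fun q : (α × ℕ) × ℕ => q.1.1) := NPC.Poly.fst (NPC.Poly.fst NPC.Poly.id)
  have b2 : Poly (fun q : (α × ℕ) × ℕ => q.1.2) := NPC.Poly.snd (NPC.Poly.fst NPC.Poly.id)
  have b3 : Poly (fun q : (α × ℕ) × ℕ => q.2) := NPC.Poly.snd NPC.Poly.id
  have hDp : Poly (fun q : (α × ℕ) × ℕ => cD (m q.1.1) (n q.1.1)) := hD.toPoly.comp b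
  have hdot : ∀ r : (α × ℕ) × ℕ → ℕ, Poly r → Poly (fun q : (α × ℕ) × ℕ =>
      (P q.1.1 ++ (N q.1.1 ++ dotProg (cK (n q.1.1 + 3) (m q.1.1 + m q.1.1 + 4)) (r q) q.2
        (y q.1.1)), [42, cK (n q.1.1 + 3) (m q.1.1 + m q.1.1 + 4)])) := by
    intro r hr
    refine NPC.Poly.pair (NPC.Poly.append (h2.comp b) (NPC.Poly.append (hT.comp b) ?_))
      (NPC.Poly.cons (NPC.Poly.const 42) (NPC.Poly.cons hDp (NPC.Poly.const [])))
    have hu : Poly (fun q : (α × ℕ) × ℕ => List.replicate (cD (m q.1.1) (n q.1.1)) ()) :=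
      UPoly.comp (n := fun a => cD (m a) (n a)) hD b
    exact (Pool.Agent.W920.FD.TQP.pdot hu hr b3 (hy.comp b)).congr fun q => by
      simp only [List.length_replicate]
      rfl
  have hh2 : Poly (fun _ : (α × ℕ) × ℕ => twoQ 2) := NPC.Poly.const _
  refine NPC.Poly.ite (NPC.Poly.dec_eq b2 (NPC.Poly.const 0)) ?_ ?_
  · exact pcmb _ (pcmb _ hh2 (hdot _ (NPC.Poly.const 0))) (NPC.Poly.const _)
  · exact pcmb _ (pcmb _ hh2 (hdot _ b2)) (NPC.Poly.pair (h2.comp b) (NPC.Poly.cons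
      (NPC.Poly.const 10) (NPC.Poly.cons (NPC.Poly.sub b2 (NPC.Poly.const 1))
        (NPC.Poly.const []))))

theorem ppeQs (h : Pool.Agent.W920.FD.S_QP) {m n : α → ℕ} (p : ℕ) {drop : α → List Bool}
    {Ws : α → List Mo} {y : α → List ℕ} (hm : UPoly m) (hn : UPoly n) (hd : Poly drop)
    (hW : Poly Ws) (hy : Poly y) :
    Poly (fun a => peQs (m a) (n a) p (drop a) (Ws a) (y a)) := by
  have h1 := ppreP p hm hn hW
  obtain ⟨P, hP⟩ : ∃ P : α → List Instr, P = fun a => preP (m a) (n a) p (Ws a) := ⟨_, rfl⟩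
  have eP : ∀ a, preP (m a) (n a) p (Ws a) = P a := fun a => by rw [hP]
  rw [← hP] at h1
  unfold peQs
  refine NPC.Poly.map (F := fun a q => reQ (m a) (n a) p (Ws a) q) (pallQs h hm hn hd hy) ?_
  unfold reQ
  simp only [eP]
  have b : Poly (fun q : α × Qry => q.1) := NPC.Poly.fst NPC.Poly.id
  have b2 : Poly (fun q : α × Qry => q.2) := NPC.Poly.snd NPC.Poly.id
  have hm' : Poly (fun q : α × Qry => m q.1) := hm.toPoly.comp b
  have hn' : Poly (fun q : α × Qry => n q.1) := hn.toPoly.comp b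
  refine NPC.Poly.pair (NPC.Poly.append (h1.comp b) ?_) (prl hm' hn' (NPC.Poly.snd b2))
  refine NPC.Poly.map (F := fun q I => rlI (m q.1) (n q.1) I) (NPC.Poly.fst b2) ?_
  exact prlI (hm'.comp (NPC.Poly.fst NPC.Poly.id)) (hn'.comp (NPC.Poly.fst NPC.Poly.id))
    (NPC.Poly.snd NPC.Poly.id)

end TQQ

open TQQ in
theorem t_QQ : Pool.Agent.W920.FD.S_QP → S_QQ := by
  intro h α _ U V hU hV
  have hm : UPoly (fun a => (U a).length) := UPoly.length hU
  have hn : UPoly (fun a => (V a).length) := UPoly.length hV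
  exact ⟨fun e l he hl => pprQ hm hn he hl, fun a b ha hb => pcmpQ hm hn ha hb,
    fun a ha => pmoQ hm hn ha, fun p drop Ws y hd hW hy => ppeQs h p hm hn hd hW hy⟩

end Pool.Agent.Y648.CS
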