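import Pool.Agent.Y529.CS.Sub

/-!
# The scales of the elementary vectors in both phases
-/

set_option autoImplicit false
set_option linter.all false

namespace Pool.Agent.Y648.CS

open Pool.Agent.NPC Pool.Agent.H558R2 Pool.Agent.H622R3.SM Pool.Agent.Y529.CS

theorem sc0 {k m n : ℕ} (A : Fin m → Fin n → ℝ) (b : Fin m → ℝ) (hA : FewScales k m n A) :
    ScOn ((m + n) ^ k + 1) (Lsp m n 0 (start A b) (dr0 m)) (Xc m (dr0 m)) (m + m + 1) := by
  classical
  intro i hi j hj
  rw [Xc0, Finset.mem_range] at hi hj
  -- the row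
  have hrow : ∀ i < m + m, ∃ i' : Fin m, i = i' ∨ i = m + (i' : ℕ) := by
    intro i hi
    rcases lt_cases hi with ⟨d, hd⟩ | ⟨d, hd⟩
    · exact ⟨d, Or.inl hd⟩
    · exact ⟨d, Or.inr hd⟩
  obtain ⟨i', hi'⟩ := hrow i hi
  obtain ⟨j', hj'⟩ := hrow j hj
  obtain ⟨S, hS1, hS2, hS3⟩ := hA i' j'
  refine ⟨insert 1 S, (Finset.card_insert_le _ _).trans (by omega), ?_, ?_⟩
  · intro s hs
    rw [Finset.mem_insert] at hs
    rcases hs with rfl | hs
    · exact one_pos
    · exact hS2 s hs
  intro v hv hvi hvj
  obtain ⟨hvL, hv0, hvn, hvm⟩ := hv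
  rw [Xc0] at hv0 hvm
  rw [mem_Lsp0] at hvL
  obtain ⟨hL1, hL2, hL3⟩ := hvL
  have hl0 : ∀ c : Fin m, 0 ≤ v c := fun c => hv0 c (Finset.mem_range.2 (by have := c.2; omega))
  have hr0 : ∀ c : Fin m, 0 ≤ v (m + c) := fun c =>
    hv0 _ (Finset.mem_range.2 (by have := c.2; omega))
  by_cases hc : ∃ c : Fin m, v c ≠ 0 ∧ v (m + (c : ℕ)) ≠ 0
  · -- a trivial vector
    obtain ⟨c, hc1, hc2⟩ := hc
    have hz := hvm (mk2 (fun d => if d = c then 1 else 0) (fun d => if d = c then 1 else 0) 1 2)
      (by
        rw [mem_Lsp0]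
        refine ⟨fun i => ?_, ?_, ?_⟩
        · simp
        · simp
        · simp [Finset.sum_add_distrib]
          norm_num)
      (by
        intro d hd hvd
        rw [Finset.mem_range] at hd
        rcases lt_cases hd with ⟨e, rfl⟩ | ⟨e, rfl⟩
        · rw [mk2_l]
          split_ifs with h
          · subst h
            exact absurd hvd hc1
          · rfl
        · rw [mk2_r]
          split_ifs with h
          · subst h
            exact absurd hvd hc2
          · rfl)
    obtain ⟨l, hl⟩ := hz
    have hl1 : ∀ d < m + m, v d ≠ 0 → 1 = l * v d := by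
      intro d hd hvd
      have h1 := hl d (Finset.mem_range.2 hd)
      have hl0 : l ≠ 0 := by
        rintro rfl
        have h2 := hl c (Finset.mem_range.2 (by have := c.2; omega))
        rw [mk2_l, if_pos rfl, zero_mul] at h2
        exact one_ne_zero h2
      rcases lt_cases hd with ⟨e, rfl⟩ | ⟨e, rfl⟩
      · rw [mk2_l] at h1
        split_ifs at h1 with h
        · exact h1
        · exact absurd h1.symm (mul_ne_zero hl0 hvd)
      · rw [mk2_r] at h1
        split_ifs at h1 with h
        · exact h1
        · exact absurd h1.symm (mul_ne_zero hl0 hvd)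
    have hij : v i = v j := by
      have h1 := hl1 i hi hvi
      have h2 := hl1 j hj hvj
      have hl0 : l ≠ 0 := by
        rintro rfl
        rw [zero_mul] at h1
        exact one_ne_zero h1
      exact mul_left_cancel₀ hl0 (h1.symm.trans h2)
    refine ⟨1, Finset.mem_insert_self _ _, ?_, ?_⟩
    · rw [hij, div_self hvj]
    · rw [hij, div_self hvj, mul_one]
      exact one_le_pow₀ (by norm_num)
  · -- a circuit
    push Not at hc
    have hex : ∀ c : Fin m, v c = 0 ∨ v (m + (c : ℕ)) = 0 := fun c => by
      by_cases h : v c = 0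
      · exact Or.inl h
      · exact Or.inr (hc c h)
    set C : Fin m → ℝ := fun c => v c - v (m + c) with hC
    have habs : ∀ (i : ℕ) (i' : Fin m), (i = i' ∨ i = m + (i' : ℕ)) → v i ≠ 0 →
        |C i'| = v i := by
      rintro i i' (rfl | rfl) hvi
      · simp only [hC]
        rw [(hex i').resolve_left hvi, sub_zero, abs_of_nonneg (hl0 i')]
      · simp only [hC]
        rw [(hex i').resolve_right hvi, zero_sub, abs_neg, abs_of_nonneg (hr0 i')]
    have hCi := habs i i' hi' hvi
    have hCj := habs j j' hj' hvj
    have hCi0 : C i' ≠ 0 := by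
      intro h
      rw [h, abs_zero] at hCi
      exact hvi hCi.symm
    have hCj0 : C j' ≠ 0 := by
      intro h
      rw [h, abs_zero] at hCj
      exact hvj hCj.symm
    have hcirc : Circ A C := by
      refine ⟨fun h => hCi0 (by rw [h]; rfl), ?_, ?_⟩
      · funext i
        show ∑ c, C c * A c i = 0
        rw [← hL1 i]
        exact Finset.sum_congr rfl fun c _ => mul_comm _ _
      · intro D hD hsup
        have hD' : ∀ i, ∑ c, A c i * D c = 0 := by
          intro i
          have h1 := congrFun hD i
          have h2 : ∑ c, D c * A c i = 0 := h1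
          rw [← h2]
          exact Finset.sum_congr rfl fun c _ => mul_comm _ _
        set u : Fin m → ℝ := fun c => if v c = 0 then 0 else D c with hu
        set w : Fin m → ℝ := fun c => if v (m + (c : ℕ)) = 0 then 0 else - D c with hw
        have huw : ∀ c, u c - w c = D c := by
          intro c
          simp only [hu, hw]
          rcases hex c with h | h
          · rw [if_pos h]
            by_cases h' : v (m + (c : ℕ)) = 0
            · rw [if_pos h', sub_zero]
              exact (hsup c (by simp only [hC]; rw [h, h', sub_zero])).symm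
            · rw [if_neg h']
              ring
          · rw [if_pos h, sub_zero]
            by_cases h' : v c = 0
            · rw [if_pos h']
              exact (hsup c (by simp only [hC]; rw [h, h', sub_zero])).symm
            · rw [if_neg h']
        obtain ⟨l, hl⟩ := hvm (mk2 u w (∑ c, w c) (∑ c, (u c + w c)))
          (by
            rw [mem_Lsp0]
            refine ⟨fun i => ?_, ?_, ?_⟩
            · simp only [mk2_l, mk2_r]
              rw [← hD' i]
              exact Finset.sum_congr rfl fun c _ => by rw [huw]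
            · simp only [mk2_q, mk2_r]
            · simp only [mk2_nu, mk2_l, mk2_r])
          (by
            intro d hd hvd
            rw [Finset.mem_range] at hd
            rcases lt_cases hd with ⟨e, rfl⟩ | ⟨e, rfl⟩
            · rw [mk2_l]
              simp only [hu]
              rw [if_pos hvd]
            · rw [mk2_r]
              simp only [hw]
              rw [if_pos hvd])
        refine ⟨l, ?_⟩
        funext c
        have h1 := hl c (Finset.mem_range.2 (by have := c.2; omega))
        have h2 := hl (m + c) (Finset.mem_range.2 (by have := c.2; omega))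
        rw [mk2_l] at h1
        rw [mk2_r] at h2
        show D c = l * C c
        rw [← huw c, h1, h2]
        simp only [hC]
        ring
    obtain ⟨s, hs, hs1, hs2⟩ := hS3 C hcirc hCi0 hCj0
    rw [abs_div, hCi, hCj] at hs1 hs2
    refine ⟨s, Finset.mem_insert_of_mem hs, hs1, hs2.trans ?_⟩
    apply mul_le_mul_of_nonneg_right _ (hS2 s hs).le
    exact pow_le_pow_right₀ (by norm_num) (by omega)

theorem sc1 {k m n : ℕ} (A : Fin m → Fin n → ℝ) (b : Fin m → ℝ) (hA : FewScales k m n A)
    (B : List Bool) :
    ScOn ((m + n) ^ k + 1) (Lsp m n 1 (start A b) (dr1 m B)) (Xc m (dr1 m B)) (m + m + 1) := by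
  classical
  intro i hi j hj
  rw [mem_Xc1] at hi hj
  obtain ⟨S, hS1, hS2, hS3⟩ := hA ⟨i, hi.1⟩ ⟨j, hj.1⟩
  refine ⟨S, by omega, hS2, ?_⟩
  intro v hv hvi hvj
  obtain ⟨hvL, hv0, hvn, hvm⟩ := hv
  rw [mem_Lsp1] at hvL
  obtain ⟨hL1, hL2, hL3⟩ := hvL
  have hCi : rs B v (⟨i, hi.1⟩ : Fin m) = v i := by
    unfold rs
    rw [if_pos hi.2]
  have hCj : rs B v (⟨j, hj.1⟩ : Fin m) = v j := by
    unfold rs
    rw [if_pos hj.2]
  have hcirc : Circ A (rs B v) := by
    refine ⟨fun h => hvi (by rw [← hCi, h]; rfl), ?_, ?_⟩
    · funext i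
      show ∑ c, rs B v c * A c i = 0
      rw [← hL1 i]
      exact Finset.sum_congr rfl fun c _ => mul_comm _ _
    · intro D hD hsup
      have hD' : ∀ i, ∑ c, A c i * D c = 0 := by
        intro i
        have h1 := congrFun hD i
        have h2 : ∑ c, D c * A c i = 0 := h1
        rw [← h2]
        exact Finset.sum_congr rfl fun c _ => mul_comm _ _
      have hz : rs B (mk2 D 0 (- ∑ c, b c * D c) (∑ c, D c)) = D := by
        funext c
        unfold rs
        split_ifs with h
        · rw [mk2_l]
        · exact (hsup c (by unfold rs; rw [if_neg h])).symm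
      obtain ⟨l, hl⟩ := hvm (mk2 D 0 (- ∑ c, b c * D c) (∑ c, D c))
        (by
          rw [mem_Lsp1, hz]
          exact ⟨hD', mk2_q _ _ _ _, mk2_nu _ _ _ _⟩)
        (by
          intro d hd hvd
          rw [mem_Xc1] at hd
          have h1 : mk2 D 0 (- ∑ c, b c * D c) (∑ c, D c) d = D ⟨d, hd.1⟩ :=
            mk2_l D 0 _ _ (⟨d, hd.1⟩ : Fin m)
          rw [h1]
          apply hsup
          unfold rs
          rw [if_pos hd.2]
          exact hvd)
      refine ⟨l, ?_⟩
      funext c
      show D c = l * rs B v c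
      by_cases h : B.getD c false = true
      · have h1 := hl c (by rw [mem_Xc1]; exact ⟨c.2, h⟩)
        rw [mk2_l] at h1
        rw [h1]
        unfold rs
        rw [if_pos h]
      · have h2 : rs B v c = 0 := by
          unfold rs
          rw [if_neg h]
        rw [h2, hsup c h2, mul_zero]
  obtain ⟨s, hs, hs1, hs2⟩ := hS3 _ hcirc (by rw [hCi]; exact hvi) (by rw [hCj]; exact hvj)
  have hnn : 0 ≤ v i / v j := div_nonneg (hv0 i (by rw [mem_Xc1]; exact hi))
    (hv0 j (by rw [mem_Xc1]; exact hj))
  rw [hCi, hCj, abs_of_nonneg hnn] at hs1 hs2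
  refine ⟨s, hs, hs1, hs2.trans ?_⟩
  apply mul_le_mul_of_nonneg_right _ (hS2 s hs).le
  exact pow_le_pow_right₀ (by norm_num) (by omega)

theorem t_SC : S_SC := fun _ _ _ A b hA => ⟨sc0 A b hA, fun B => sc1 A b hA B⟩

end Pool.Agent.Y648.CS
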