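import Pool.Agent.Y648.CS.StmM
import Pool.Agent.W920.FC.T_ORD1

set_option autoImplicit false

/-!
# Tuples and combinations of queries
-/

namespace Pool.Agent.Y648.CS

open Pool.Agent.NPC Pool.Agent.H558R2 Pool.Agent.H622R3.SM Pool.Agent.W920.FC

namespace TTUP

open Pool.Agent.W920.FC.TORD1

/-- Renaming of the registers of an instruction. -/
def ren (ρ : Reg → Reg) (I : Instr) : Instr := ⟨I.op, ρ I.dst, ρ I.fst, ρ I.snd⟩

theorem ord_ren (ρ : Reg → Reg) (P : List Instr) : ∀ (S T : Set Reg), (∀ r ∈ S, ρ r ∈ T) →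
    (∀ r, r ∉ S → ρ r ∉ T) → (∀ r, r ∉ S → ∀ r', r' ∉ S → ρ r = ρ r' → r = r') → Ord S P →
    Ord T (P.map (ren ρ)) := by
  induction P with
  | nil => intro S T _ _ _ _; trivial
  | cons I P ih =>
    rintro S T h1 h2 h3 ⟨a1, a2, a3, a4⟩
    refine ⟨h1 _ a1, h1 _ a2, h2 _ a3, ih (insert I.dst S) (insert (ρ I.dst) T) ?_ ?_ ?_ a4⟩
    · rintro r (rfl | hr)
      · exact Or.inl rfl
      · exact Or.inr (h1 r hr)
    · intro r hr
      rw [Set.mem_insert_iff, not_or] at hr
      rintro (h | h)
      · exact hr.1 (h3 r hr.2 I.dst a3 h)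
      · exact h2 r hr.2 h
    · intro r hr r' hr' h
      rw [Set.mem_insert_iff, not_or] at hr hr'
      exact h3 r hr.2 r' hr'.2 h

theorem ord_dst {P : List Instr} : ∀ {S : Set Reg}, Ord S P → ∀ I ∈ P, I.dst ∉ S := by
  induction P with
  | nil => intro S _ I hI; simp at hI
  | cons J P ih =>
    rintro S ⟨a1, a2, a3, a4⟩ I hI
    rcases List.mem_cons.1 hI with rfl | hI
    · exact a3
    · intro h
      exact ih a4 I hI (Or.inr h)

/-- The operands are read from the set or from the registers written. -/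
theorem ord_opr : ∀ (P : List Instr) (S : Set Reg), Ord S P → ∀ I ∈ P,
    I.fst ∈ S ∪ Pool.Agent.W920.FC.wr P ∧ I.snd ∈ S ∪ Pool.Agent.W920.FC.wr P := by
  intro P
  induction P with
  | nil => intro S _ I hI; simp at hI
  | cons J P ih =>
    rintro S ⟨d1, d2, d3, d4⟩ I hI
    rcases List.mem_cons.1 hI with rfl | hI
    · exact ⟨Or.inl d1, Or.inl d2⟩
    · obtain ⟨f1, f2⟩ := ih _ d4 I hI
      have hsub : insert J.dst S ∪ Pool.Agent.W920.FC.wr P ⊆
          S ∪ Pool.Agent.W920.FC.wr (J :: P) := by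
        rw [wr_cons]
        rintro r ((rfl | h) | h)
        · exact Or.inr (Or.inl rfl)
        · exact Or.inl h
        · exact Or.inr (Or.inr h)
      exact ⟨hsub f1, hsub f2⟩

theorem rn_base {c : ℕ} {r : Reg} (h : r ∈ baseReg) : rn c r = r := by
  have h' : r.headD 0 < 4 := h
  simp only [rn, if_pos h']

theorem rn_not {c : ℕ} {r : Reg} (h : r ∉ baseReg) : rn c r = 60 :: c :: r := by
  have h' : ¬ r.headD 0 < 4 := h
  simp only [rn, if_neg h']

theorem not_base_cons {a : ℕ} {r : Reg} (h : 4 ≤ a) : (a :: r : Reg) ∉ baseReg := by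
  intro h'
  have h'' : a < 4 := h'
  omega

/-- The program from the index `k` on. -/
def tupF (k : ℕ) (qs : List Qry) : List Instr := (qs.zipIdx k).flatMap fun x => x.1.1.map (rnI x.2)

theorem tupF_cons (k : ℕ) (q : Qry) (qs : List Qry) :
    tupF k (q :: qs) = q.1.map (rnI k) ++ tupF (k + 1) qs := by
  simp [tupF, List.zipIdx_cons]

theorem mem_tupF {k : ℕ} {qs : List Qry} {I : Instr} (h : I ∈ tupF k qs) :
    ∃ c, k ≤ c ∧ c < k + qs.length ∧ ∃ J ∈ (qs.getD (c - k) ([], [3])).1, I = rnI c J := by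
  induction qs generalizing k with
  | nil => simp [tupF] at h
  | cons q qs ih =>
    rw [tupF_cons, List.mem_append] at h
    rcases h with h | h
    · obtain ⟨J, hJ, rfl⟩ := List.mem_map.1 h
      exact ⟨k, le_rfl, by simp, J, by simpa using hJ, rfl⟩
    · obtain ⟨c, h1, h2, J, hJ, rfl⟩ := ih h
      refine ⟨c, by omega, by simp; omega, J, ?_, rfl⟩
      have : c - k = (c - (k + 1)) + 1 := by omega
      rw [this, List.getD_cons_succ]
      exact hJ

theorem tupF_mem {qs : List Qry} : ∀ {k i : ℕ} (_ : i < qs.length) {J : Instr}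
    (_ : J ∈ (qs.getD i ([], [3])).1), rnI (k + i) J ∈ tupF k qs := by
  induction qs with
  | nil => intro k i hi; simp at hi
  | cons q qs ih =>
    intro k i hi J hJ
    rw [tupF_cons, List.mem_append]
    cases i with
    | zero => exact Or.inl (List.mem_map.2 ⟨J, by simpa using hJ, rfl⟩)
    | succ i =>
      right
      rw [List.getD_cons_succ] at hJ
      have := ih (k := k + 1) (i := i) (by simpa using hi) hJ
      rw [show k + (i + 1) = k + 1 + i by omega]
      exact this

theorem rnI_eq (c : ℕ) : rnI c = ren (rn c) := rfl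

theorem wr_rn {c : ℕ} {P : List Instr} (h : Ord baseReg P) {r : Reg}
    (hr : r ∈ Pool.Agent.W920.FC.wr (P.map (rnI c))) : ∃ r', r' ∉ baseReg ∧ r = 60 :: c :: r' := by
  obtain ⟨I, hI, rfl⟩ := hr
  obtain ⟨J, hJ, rfl⟩ := List.mem_map.1 hI
  exact ⟨J.dst, ord_dst h J hJ, rn_not (ord_dst h J hJ)⟩

theorem ord_tupF {qs : List Qry} : ∀ {k : ℕ} {T : Set Reg}, (∀ q ∈ qs, Ord baseReg q.1) →
    baseReg ⊆ T → (∀ c, k ≤ c → ∀ r, (60 :: c :: r : Reg) ∉ T) → Ord T (tupF k qs) := by
  induction qs with
  | nil => intro k T _ _ _; trivial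
  | cons q qs ih =>
    intro k T h1 h2 h3
    rw [tupF_cons, ord_append]
    have hq := h1 q (by simp)
    constructor
    · rw [rnI_eq]
      refine ord_ren (rn k) q.1 baseReg T ?_ ?_ ?_ hq
      · intro r hr
        rw [rn_base hr]
        exact h2 hr
      · intro r hr
        rw [rn_not hr]
        exact h3 k le_rfl r
      · intro r hr r' hr' h
        rw [rn_not hr, rn_not hr'] at h
        simpa using h
    · refine ih (fun q' hq' => h1 q' (List.mem_cons_of_mem _ hq')) (h2.trans
        Set.subset_union_left) ?_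
      rintro c hc r (h | h)
      · exact h3 c (by omega) r h
      · obtain ⟨r', -, hr'⟩ := wr_rn hq h
        simp only [List.cons.injEq, true_and] at hr'
        omega

/-- The common valuation. -/
noncomputable def val (g : Reg → ℝ) (V : ℕ → Reg → ℝ) : Reg → ℝ
  | 60 :: c :: r => V c r
  | r => g r

theorem val_base {g : Reg → ℝ} {V : ℕ → Reg → ℝ} {r : Reg} (h : r ∈ baseReg) :
    val g V r = g r := by
  unfold val
  split
  · rename_i c r'
    exact absurd h (not_base_cons (by norm_num))
  · rfl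

theorem val_rn {g : Reg → ℝ} {V : ℕ → Reg → ℝ} {c : ℕ} (hV : ∀ r ∈ baseReg, V c r = g r)
    (r : Reg) : val g V (rn c r) = V c r := by
  by_cases h : r ∈ baseReg
  · rw [rn_base h, val_base h, hV r h]
  · rw [rn_not h]
    rfl

end TTUP

open TTUP Pool.Agent.W920.FC.TORD1

theorem t_TUP : S_TUP := by
  intro g G qs vs hF
  have hlen : qs.length = vs.length := hF.length_eq
  have hi : ∀ i, i < qs.length → HasVal g G (qs.getD i ([], [3])) (vs.getD i 0) := by
    intro i hi
    have := List.Forall₂.get hF hi (by omega)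
    rw [List.getD_eq_getElem?_getD, List.getElem?_eq_getElem hi, List.getD_eq_getElem?_getD,
      List.getElem?_eq_getElem (by omega)]
    exact this
  have hex : ∀ i, ∃ V : Reg → ℝ, i < qs.length → (∀ r ∈ baseReg, V r = g r) ∧
      (∀ I ∈ (qs.getD i ([], [3])).1, Eqn V I ∧ G (V I.dst)) ∧
      V (qs.getD i ([], [3])).2 = vs.getD i 0 := by
    intro i
    by_cases h : i < qs.length
    · obtain ⟨-, V, h1, h2, -, h4⟩ := hi i h
      exact ⟨V, fun _ => ⟨h1, fun I hI => ⟨⟨(h2 I hI).1, (h2 I hI).2.1⟩, (h2 I hI).2.2⟩, h4⟩⟩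
    · exact ⟨g, fun h' => absurd h' h⟩
  choose V hV using hex
  have hord : ∀ q ∈ qs, Ord baseReg q.1 := by
    intro q hq
    obtain ⟨i, h, rfl⟩ := List.getElem_of_mem hq
    have := (hi i h).1
    rwa [List.getD_eq_getElem?_getD, List.getElem?_eq_getElem h] at this
  refine ⟨ord_tupF (k := 0) hord subset_rfl fun c _ r => not_base_cons (by norm_num), ?_, ?_, ?_,
    ?_⟩
  · rintro r ⟨I, hI, rfl⟩
    obtain ⟨c, -, h2, J, hJ, rfl⟩ := mem_tupF (k := 0) hI
    have h3 := ord_dst (hi (c - 0) (by omega)).1 J hJ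
    change (rn c J.dst).headD 0 = 60
    rw [rn_not h3]
    rfl
  · intro i h
    obtain ⟨-, -, -, -, h3, -⟩ := hi i h
    rcases h3 with h3 | ⟨J, hJ, h3⟩
    · left
      unfold tupR
      rw [rn_base h3]
      exact h3
    · right
      have := tupF_mem (k := 0) h hJ
      refine ⟨_, this, ?_⟩
      rw [zero_add]
      change rn i J.dst = rn i _
      rw [h3]
  · refine ⟨val g V, fun r hr => val_base hr, ?_, ?_⟩
    · intro I hI
      obtain ⟨c, -, h2, J, hJ, rfl⟩ := mem_tupF (k := 0) hI
      have hc : c < qs.length := by omega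
      obtain ⟨h3, h4, -⟩ := hV c hc
      obtain ⟨⟨e1, e2⟩, e3⟩ := h4 J hJ
      have e := val_rn (V := V) h3
      refine ⟨⟨?_, ?_⟩, ?_⟩
      · change val g V (rn c J.dst) = J.op.eval (val g V (rn c J.fst)) (val g V (rn c J.snd))
        rw [e, e, e, e1]
      · intro h
        change val g V (rn c J.snd) ≠ 0
        rw [e]
        exact e2 h
      · change G (val g V (rn c J.dst))
        rw [e]
        exact e3
    · intro i h
      obtain ⟨h3, -, h5⟩ := hV i h
      unfold tupR
      rw [val_rn (V := V) h3, h5]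
  · have : ∀ (k : ℕ) (qs : List Qry), (tupF k qs).length = (qs.map fun q => q.1.length).sum := by
      intro k qs
      induction qs generalizing k with
      | nil => rfl
      | cons q qs ih => rw [tupF_cons, List.length_append, ih]; simp
    exact this 0 qs

theorem t_CMB : S_TUP → S_CMB := by
  intro hT g G op q₁ q₂ v₁ v₂ h1 h2 hdiv hG
  obtain ⟨a1, a2, a3, ⟨V, b1, b2, b3⟩, a5⟩ := hT g G [q₁, q₂] [v₁, v₂]
    (List.Forall₂.cons h1 (List.Forall₂.cons h2 List.Forall₂.nil))
  have c0 : V (tupR [q₁, q₂] 0) = v₁ := by simpa using b3 0 (by simp)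
  have c1 : V (tupR [q₁, q₂] 1) = v₂ := by simpa using b3 1 (by simp)
  have hmem : ∀ i < 2, tupR [q₁, q₂] i ∈ baseReg ∪ Pool.Agent.W920.FC.wr (tupP [q₁, q₂]) :=
    fun i hi => a3 i (by simpa using hi)
  have h63 : ([63] : Reg) ∉ baseReg ∪ Pool.Agent.W920.FC.wr (tupP [q₁, q₂]) := by
    rintro (h | h)
    · exact not_base_cons (by norm_num) h
    · have := a2 _ h
      simp at this
  have hne : ∀ i < 2, tupR [q₁, q₂] i ≠ [63] := by
    intro i hi h
    exact h63 (h ▸ hmem i hi)
  refine ⟨⟨?_, fun r => if r = [63] then op.eval v₁ v₂ else V r, ?_, ?_, ?_, ?_⟩, ?_⟩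
  · change Ord baseReg (tupP [q₁, q₂] ++ _)
    rw [ord_append]
    exact ⟨a1, hmem 0 (by norm_num), hmem 1 (by norm_num), h63, trivial⟩
  · intro r hr
    have : r ≠ [63] := by
      rintro rfl
      exact not_base_cons (by norm_num) hr
    simp only [if_neg this]
    exact b1 r hr
  · intro I hI
    change I ∈ tupP [q₁, q₂] ++ _ at hI
    rcases List.mem_append.1 hI with hI | hI
    · have e : ∀ r, r ∈ baseReg ∪ Pool.Agent.W920.FC.wr (tupP [q₁, q₂]) → r ≠ [63] := by
        rintro r hr rfl
        exact h63 hr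
      obtain ⟨f1, f2⟩ := ord_opr _ _ a1 I hI
      obtain ⟨⟨e1, e2⟩, e3⟩ := b2 I hI
      have g1 := e _ f1
      have g2 := e _ f2
      have g3 := e I.dst (Or.inr ⟨I, hI, rfl⟩)
      simp only [if_neg g1, if_neg g2, if_neg g3]
      exact ⟨e1, e2, e3⟩
    · rw [List.mem_singleton] at hI
      subst hI
      simp only [if_true, if_neg (hne 0 (by norm_num)), if_neg (hne 1 (by norm_num)), c0, c1]
      exact ⟨trivial, hdiv, hG⟩
  · right
    exact ⟨_, List.mem_append_right _ (List.mem_singleton_self _), rfl⟩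
  · simp only [cmb, if_true]
  · simp only [cmb, List.length_append, a5]
    simp

theorem t_TWO : S_TWO := by
  intro g G e hg hG
  obtain ⟨hg2, hg3⟩ := hg
  let V : Reg → ℝ := fun r => match r with
    | [4, t] => 2 ^ t
    | r => g r
  have hV4 : ∀ t, V [4, t] = 2 ^ t := fun t => rfl
  have hVb : ∀ r ∈ baseReg, V r = g r := by
    intro r hr
    simp only [V]
    split
    · exact absurd hr (not_base_cons (by norm_num))
    · rfl
  have h2b : ([2] : Reg) ∈ baseReg := by
    change (2 : ℕ) < 4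
    norm_num
  have h3b : ([3] : Reg) ∈ baseReg := by
    change (3 : ℕ) < 4
    norm_num
  have hord : ∀ (N : ℕ), Ord (insert [4, 0] baseReg)
      ((List.range N).map fun t => (⟨Op.add, [4, t + 1], [4, t], [4, t]⟩ : Instr)) ∧
      ∀ r ∈ insert [4, 0] baseReg ∪ Pool.Agent.W920.FC.wr
        ((List.range N).map fun t => (⟨Op.add, [4, t + 1], [4, t], [4, t]⟩ : Instr)),
        r ∈ baseReg ∨ ∃ t ≤ N, r = [4, t] := by
    intro N
    induction N with
    | zero =>
      refine ⟨trivial, ?_⟩
      rintro r ((rfl | h) | ⟨I, hI, -⟩)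
      · exact Or.inr ⟨0, le_rfl, rfl⟩
      · exact Or.inl h
      · simp at hI
    | succ N ih =>
      obtain ⟨h1, h2⟩ := ih
      rw [List.range_succ, List.map_append, ord_append]
      have hN : ([4, N] : Reg) ∈ insert [4, 0] baseReg ∪ Pool.Agent.W920.FC.wr
          ((List.range N).map fun t => (⟨Op.add, [4, t + 1], [4, t], [4, t]⟩ : Instr)) := by
        cases N with
        | zero => exact Or.inl (Or.inl rfl)
        | succ N =>
          right
          exact ⟨⟨Op.add, [4, N + 1], [4, N], [4, N]⟩, List.mem_map.2 ⟨N, by simp, rfl⟩, rfl⟩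
      refine ⟨⟨h1, hN, hN, ?_, trivial⟩, ?_⟩
      · intro h
        rcases h2 _ h with h | ⟨t, ht, h⟩
        · exact not_base_cons (by norm_num) h
        · simp only [List.cons.injEq, true_and, and_true] at h
          omega
      · rw [wr_append]
        rintro r (h | (h | h))
        · rcases h2 r (Or.inl h) with h | ⟨t, ht, h⟩
          · exact Or.inl h
          · exact Or.inr ⟨t, by omega, h⟩
        · rcases h2 r (Or.inr h) with h | ⟨t, ht, h⟩
          · exact Or.inl h
          · exact Or.inr ⟨t, by omega, h⟩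
        · obtain ⟨I, hI, rfl⟩ := h
          simp only [List.map_cons, List.map_nil, List.mem_singleton] at hI
          subst hI
          exact Or.inr ⟨N + 1, le_rfl, rfl⟩
  refine ⟨⟨?_, V, hVb, ?_, ?_, hV4 e⟩, ?_⟩
  · refine ⟨h2b, h3b, not_base_cons (by norm_num), (hord e).1⟩
  · intro I hI
    simp only [twoQ] at hI
    rcases List.mem_cons.1 hI with rfl | hI
    · refine ⟨?_, fun h => by simp at h, ?_⟩
      · change V [4, 0] = V [2] + V [3]
        rw [hV4, hVb _ h2b, hVb _ h3b, hg2, hg3]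
        norm_num
      · change G (V [4, 0])
        rw [hV4]
        exact hG 0 (by omega)
    · obtain ⟨t, ht, rfl⟩ := List.mem_map.1 hI
      have ht := List.mem_range.1 ht
      refine ⟨?_, fun h => by simp at h, ?_⟩
      · change V [4, t + 1] = V [4, t] + V [4, t]
        rw [hV4, hV4]
        ring
      · change G (V [4, t + 1])
        rw [hV4]
        exact hG _ (by omega)
  · right
    cases e with
    | zero => exact ⟨_, List.mem_cons_self, rfl⟩
    | succ e =>
      exact ⟨⟨Op.add, [4, e + 1], [4, e], [4, e]⟩, List.mem_cons_of_mem _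
        (List.mem_map.2 ⟨e, by simp, rfl⟩), rfl⟩
  · simp [twoQ]

end Pool.Agent.Y648.CS
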