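import Pool.Agent.W920.FD.Stm

set_option autoImplicit false

/-!
# Linear feasibility for matrices with few scales of circuit ratios: the algorithm

We look for `y ≥ 0` with `y A = 0` and `b y > 0`. The algorithm follows the path of the bounds
`z_c(t) = max {x_c : x ≥ 0, x in L, nu x ≤ 1, q x ≤ t}` for decreasing `t`, where `L` is a subspace,
`nu` the sum of the coordinates and `q` a linear form. Two phases: in phase `0` the coordinates are
`y⁺, y⁻` with `(y⁺ - y⁻) A = 0` and `q` is the sum of the `y⁻`; it finds the largest support of a
solution `y ≥ 0` of `y A = 0`. In phase `1` the coordinates are those of `y` in this support, and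
`q = - b y`.

One iteration, from `t` and upper bounds `W_c` for `z_c(t)`:
1. the perceptron algorithm with margins, for the system with weights `W`, finds a point in the
   centre, or halves one of the bounds `W_c`;
2. in the centre, `q < 0` means that phase `1` is successful;
3. row by row, a basis of columns of almost maximal weighted volume is found;
4. the large entries of the weighted tableau are the edges of a graph. If the columns `nu` and `q`
   are not connected, then `t` jumps to a number given by the largest tableau entry joining the two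
   components, and the weights are expressed by products of tableau entries along paths; if they
   are connected, `t` is halved.

All real numbers of the algorithm are products of powers of two, minors, and inverses of minors.
-/

namespace Pool.Agent.Y648.CS

open Pool.Agent.NPC Pool.Agent.H558R2 Pool.Agent.H622R3.SM Pool.Agent.W920.FC

/-! ### Tuples of queries -/

/-- Registers of the query number `c`. -/
def rn (c : ℕ) (r : Reg) : Reg := if r.headD 0 < 4 then r else 60 :: c :: r

/-- Renaming in an instruction. -/
def rnI (c : ℕ) (I : Instr) : Instr := ⟨I.op, rn c I.dst, rn c I.fst, rn c I.snd⟩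

/-- The programs of several queries, in different registers. -/
def tupP (qs : List Qry) : List Instr := qs.zipIdx.flatMap fun x => x.1.1.map (rnI x.2)

/-- The result of the query number `i`. -/
def tupR (qs : List Qry) (i : ℕ) : Reg := rn i (qs.getD i ([], [3])).2

/-- An arithmetic operation with the results of two queries. -/
def cmb (op : Op) (q₁ q₂ : Qry) : Qry :=
  (tupP [q₁, q₂] ++ [(⟨op, [63], tupR [q₁, q₂] 0, tupR [q₁, q₂] 1⟩ : Instr)], [63])

/-- The number `1`. -/
def oneQ : Qry := ([], [2])

/-- The power `2 ^ e`. -/
def twoQ (e : ℕ) : Qry := ((⟨Op.add, [4, 0], [2], [3]⟩ : Instr) ::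
  (List.range e).map (fun t => (⟨Op.add, [4, t + 1], [4, t], [4, t]⟩ : Instr)), [4, e])

/-! ### Minors -/

/-- A minor: the phase and the list of the columns. The columns `0, ..., m - 1` belong to `y⁺`,
`m, ..., 2 m - 1` to `y⁻`, `2 m` to `q`, `2 m + 1` to `nu`, and `2 m + 2 + k` is the unit vector
number `k`. -/
abbrev Mn : Type := ℕ × List ℕ

/-- The instruction computing the entry in row `i` and column `c`, in the register `r`. The rows
`0, ..., n - 1` are the equations `y A = 0`, row `n` defines `q` and row `n + 1` defines `nu`. -/
def entI (m n p i c : ℕ) (r : Reg) : Instr :=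
  if c < m then
    (if i < n then ⟨Op.add, r, [0, c, i], [3]⟩
      else if i = n then (if p = 0 then ⟨Op.add, r, [3], [3]⟩ else ⟨Op.sub, r, [3], [1, c]⟩)
      else ⟨Op.add, r, [2], [3]⟩)
  else if c < m + m then
    (if i < n then ⟨Op.sub, r, [3], [0, c - m, i]⟩
      else if i = n then (if p = 0 then ⟨Op.add, r, [2], [3]⟩ else ⟨Op.add, r, [3], [3]⟩)
      else ⟨Op.add, r, [2], [3]⟩)
  else if c = m + m then (if i = n then ⟨Op.sub, r, [3], [2]⟩ else ⟨Op.add, r, [3], [3]⟩)
  else if c = m + m + 1 then (if i = n + 1 then ⟨Op.sub, r, [3], [2]⟩ else ⟨Op.add, r, [3], [3]⟩)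
  else (if c = m + m + 2 + i then ⟨Op.add, r, [2], [3]⟩ else ⟨Op.add, r, [3], [3]⟩)

/-- The minor, up to the sign `(-1) ^ (n + 1)`. -/
def detQ (m n : ℕ) (x : Mn) : Qry :=
  (((List.range (n + 2)).flatMap fun i => (List.range (n + 2)).map fun k =>
    entI m n x.1 i (x.2.getD k 0) [4, i, k]) ++ flProg (n + 2), [10, n + 1])

/-- `2 ^ e` times a product of minors. -/
def prQ (m n e : ℕ) (l : List Mn) : Qry :=
  (tupP (twoQ e :: l.map (detQ m n)) ++
    ((⟨Op.add, [62, 0], tupR (twoQ e :: l.map (detQ m n)) 0, [3]⟩ : Instr) ::
      (List.range l.length).map fun t =>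
        (⟨Op.mul, [62, t + 1], [62, t], tupR (twoQ e :: l.map (detQ m n)) (t + 1)⟩ : Instr)),
    [62, l.length])

/-! ### Monomials in minors -/

/-- A sign (`true` for minus), a power of two (numerator and denominator), and products of minors
(numerator and denominator). -/
abbrev Mo : Type := (Bool × (List Unit × List Unit)) × (List Mn × List Mn)

/-- The monomial `1`. -/
def moOne : Mo := ((false, ([], [])), ([], []))

/-- The product. -/
def moMul (a b : Mo) : Mo :=
  ((a.1.1 ^^ b.1.1, (a.1.2.1 ++ b.1.2.1, a.1.2.2 ++ b.1.2.2)), (a.2.1 ++ b.2.1, a.2.2 ++ b.2.2))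

/-- The inverse. -/
def moInv (a : Mo) : Mo := ((a.1.1, (a.1.2.2, a.1.2.1)), (a.2.2, a.2.1))

/-- The power `2 ^ e`. -/
def moTwo (e : ℕ) : Mo := ((false, (List.replicate e (), [])), ([], []))

/-- Half. -/
def moHalf (a : Mo) : Mo := ((a.1.1, (a.1.2.1, () :: a.1.2.2)), a.2)

/-- A minor. -/
def moMin (x : Mn) : Mo := ((false, ([], [])), ([x], []))

/-- A ratio of minors. -/
def moRat (x y : Mn) : Mo := ((false, ([], [])), ([x], [y]))

/-- A query for the sign of the difference of the absolute values of two monomials. -/
def cmpQ (m n : ℕ) (a b : Mo) : Qry :=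
  cmb Op.sub
    (cmb Op.mul (prQ m n (a.1.2.1.length + b.1.2.2.length) (a.2.1 ++ b.2.2))
      (prQ m n (a.1.2.1.length + b.1.2.2.length) (a.2.1 ++ b.2.2)))
    (cmb Op.mul (prQ m n (b.1.2.1.length + a.1.2.2.length) (b.2.1 ++ a.2.2))
      (prQ m n (b.1.2.1.length + a.1.2.2.length) (b.2.1 ++ a.2.2)))

/-- The value of a monomial. -/
def moQ (m n : ℕ) (a : Mo) : Qry :=
  if a.1.1 then
    cmb Op.sub ([], [3]) (cmb Op.div (prQ m n a.1.2.1.length a.2.1) (prQ m n a.1.2.2.length a.2.2))
  else cmb Op.div (prQ m n a.1.2.1.length a.2.1) (prQ m n a.1.2.2.length a.2.2)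

/-! ### Sizes -/

/-- The dimension of the system of the perceptron algorithm. -/
def cD (m n : ℕ) : ℕ := cK (n + 3) (m + m + 4)

/-- The first of the columns used. -/
def cO (m n : ℕ) : ℕ := n + 3 + (m + m + 4)

/-- The exponent of the weight of `q`, and of the first weight of the slack of `q ≤ t nu`. -/
def cA (m n : ℕ) : ℕ := 7 * cD m n

/-- The exponent of the threshold for edges. -/
def cE (m n : ℕ) : ℕ := 8 * cD m n

/-- The exponent of the factor in the jump of `t`. -/
def cJ (m n : ℕ) : ℕ := 24 * (cD m n * cD m n)

/-- The exponent of the factor in the jump of the weights. -/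
def cW (m n : ℕ) : ℕ := 6 * cD m n

/-- The number of rounds of the perceptron algorithm in one iteration. -/
def cR (m n : ℕ) : ℕ := 64 * (cD m n * (cD m n * cD m n))

/-! ### The perceptron algorithm with margins -/

/-- The instruction computing the coefficient in row `i` and column `c`, in the register `r`. The
columns `0, ..., 2 m - 1` belong to the coordinates, `2 m` to the slack of `nu ≤ 1`, `2 m + 1` to
the slack of `q ≤ t`, `2 m + 2` to `nu` and `2 m + 3` to `q`. -/
def cofI (m n p i c : ℕ) (r : Reg) : Instr :=
  if c < m + m then (if i < n + 2 then entI m n p i c r else ⟨Op.add, r, [3], [3]⟩)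
  else if c = m + m then (if i = n + 1 then ⟨Op.add, r, [2], [3]⟩ else ⟨Op.add, r, [3], [3]⟩)
  else if c = m + m + 1 then (if i = n + 2 then ⟨Op.sub, r, [3], [2]⟩ else ⟨Op.add, r, [3], [3]⟩)
  else if c = m + m + 2 then
    (if i = n + 1 then ⟨Op.sub, r, [3], [2]⟩ else if i = n + 2 then ⟨Op.add, r, [2], [3]⟩
      else ⟨Op.add, r, [3], [3]⟩)
  else (if i = n ∨ i = n + 2 then ⟨Op.sub, r, [3], [2]⟩ else ⟨Op.add, r, [3], [3]⟩)

/-- The queries for the weights, and for the weight of `q` in the last row. -/
def wtQs (m n : ℕ) (Ws : List Mo) : List Qry :=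
  ((List.range (m + m + 4)).map fun c => moQ m n (Ws.getD c moOne)) ++ [twoQ (cA m n)]

/-- The program for the weighted matrix, in `[80, i, c]`. -/
def preP (m n p : ℕ) (Ws : List Mo) : List Instr :=
  tupP (wtQs m n Ws) ++ (List.range (n + 3)).flatMap fun i => (List.range (m + m + 4)).flatMap fun c =>
    [cofI m n p i c [79, i, c], (⟨Op.mul, [80, i, c], [79, i, c],
      tupR (wtQs m n Ws) (if i = n + 2 ∧ c = m + m + 3 then m + m + 4 else c)⟩ : Instr)]

/-- Renaming of registers: the matrix `A` is replaced by the weighted matrix, and `b` by `0`. -/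
def rl (m n : ℕ) (r : Reg) : Reg :=
  if r.length = 3 ∧ r.headD 0 = 0 ∧ r.getD 1 0 < n + 3 ∧ r.getD 2 0 < m + m + 4 then 80 :: r.tail
  else if r = [2] then [2]
  else if r.headD 0 < 4 then [3]
  else 81 :: r

/-- Renaming in an instruction. -/
def rlI (m n : ℕ) (I : Instr) : Instr := ⟨I.op, rl m n I.dst, rl m n I.fst, rl m n I.snd⟩

/-- A query for the weighted matrix. -/
def reQ (m n p : ℕ) (Ws : List Mo) (q : Qry) : Qry :=
  (preP m n p Ws ++ q.1.map (rlI m n), rl m n q.2)

/-- The vector with the only coordinate `1`. -/
def V1 : Pool.Agent.W920.FD.VS := ([], [[2]])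

/-- The weights `1`. -/
def L1 (m n : ℕ) : List (List ℤ × List ℤ) := List.replicate (cD m n) ([1], [1])

/-- The columns dropped, among all columns of the system. -/
def drK (m n : ℕ) (drop : List Bool) : List Bool :=
  (List.range (cD m n)).map fun j => if j < cO m n then true
    else if j < cO m n + (m + m) then drop.getD (j - cO m n) true
    else decide (cO m n + (m + m + 4) ≤ j)

/-- The columns whose signs are tested, among all columns of the system. -/
def tsK (m n : ℕ) (drop : List Bool) : List Bool :=
  (List.range (cD m n)).map fun j => if j < cO m n then false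
    else if j < cO m n + (m + m) then !(drop.getD (j - cO m n) true)
    else decide (j < cO m n + (m + m + 2))

/-- The query for a margin: `4 (P y)_j - 1`, up to a factor. -/
def mrQ (m n : ℕ) (drop : List Bool) (y : List ℕ) (r j : ℕ) : Qry :=
  if r = 0 then
    cmb Op.sub (cmb Op.mul (twoQ 2)
      (Pool.Agent.W920.FD.dQ V1 (n + 3) (m + m + 4) (L1 m n) (drK m n drop) y 0 j)) oneQ
  else cmb Op.add (cmb Op.mul (twoQ 2)
      (Pool.Agent.W920.FD.dQ V1 (n + 3) (m + m + 4) (L1 m n) (drK m n drop) y r j))
    (Pool.Agent.W920.FD.cQ V1 (n + 3) (m + m + 4) (L1 m n) (drK m n drop) (r - 1))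

/-- The queries of a step of the perceptron algorithm, for the system with the matrix `A`. -/
def allQs (m n : ℕ) (drop : List Bool) (y : List ℕ) : List Qry :=
  Pool.Agent.W920.FD.perQs V1 (n + 3) (m + m + 4) (L1 m n) (drK m n drop) y ++
    (List.range (cD m n + 1)).flatMap fun r => (List.range (cD m n)).map fun j =>
      mrQ m n drop y r j

/-- The queries of a step of the perceptron algorithm. -/
def peQs (m n p : ℕ) (drop : List Bool) (Ws : List Mo) (y : List ℕ) : List Qry :=
  (allQs m n drop y).map (reQ m n p Ws)

/-- The sign of `(P y)_j - 1 / 4`. -/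
def mOf (K : ℕ) (o : List Outcome) (j : ℕ) : ℤ :=
  (if rkOf K o = 0 then 1 else - osg (o.getD (rkOf K o - 1) none)) *
    osg (o.getD (K + (K + 1) * K + (rkOf K o * K + j)) none)

/-- The columns where the margin is not attained. -/
def bdM (K : ℕ) (ts : List Bool) (o : List Outcome) : List ℕ :=
  (List.range K).filter fun j => ts.getD j false && decide (mOf K o j ≤ 0)

/-- A step of the perceptron algorithm. -/
def pUpd (K : ℕ) (ts : List Bool) (s : List ℕ × Bool) (o : List Outcome) : List ℕ × Bool :=
  (((bdM K ts o).head?).map fun j => (bump s.1 K j, s.2)).getD (s.1, true)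

/-- One of the weights is halved. -/
def halve (m n : ℕ) (Ws : List Mo) (y : List ℕ) : List Mo :=
  (List.range (m + m + 4)).map fun c =>
    if ((List.range (cD m n)).filter fun j =>
        decide (4 * (cD m n * cD m n) ≤ y.getD j 0)).head? = some (cO m n + c) then
      moHalf (Ws.getD c moOne)
    else Ws.getD c moOne

/-- The states of the search for the centre: weights, vector, success. -/
abbrev RS : Type := (List Mo × List ℕ) × Bool

/-- A round of the perceptron algorithm. -/
def rnd (m n p : ℕ) (drop : List Bool) (s : RS) : TT RS :=
  if s.2 = true then ret s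
  else
    bnd (iter (fun t => bnd (batch (peQs m n p drop s.1.1 t.1))
        fun o => ret (pUpd (cD m n) (tsK m n drop) t o)) (cT (n + 3) (m + m + 4))
      ((List.range (cD m n)).map fun _ => 0, false)) fun t =>
      ret (if t.2 = true then ((s.1.1, t.1), true) else ((halve m n s.1.1 t.1, t.1), false))

/-- The weights at the beginning. -/
def ws0 (m n : ℕ) (t : Mo) (W : List Mo) : List Mo :=
  ((List.range (m + m)).map fun c => W.getD c moOne) ++
    [moOne, moTwo (cA m n), moOne, moMul (moTwo (cA m n)) t]

/-- The search for the centre. -/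
def recen (m n p : ℕ) (drop : List Bool) (t : Mo) (W : List Mo) : TT RS :=
  iter (rnd m n p drop) (cR m n) ((ws0 m n t W, []), false)

/-! ### The basis -/

/-- The column `c` is used. -/
def act (m : ℕ) (drop : List Bool) (c : ℕ) : Bool := decide (m + m ≤ c) || !(drop.getD c true)

/-- The weight of a column. -/
def wc (m : ℕ) (t : Mo) (W : List Mo) (c : ℕ) : Mo :=
  if c < m + m then W.getD c moOne else if c = m + m then t else moOne

/-- The minor with the columns `β`, `c` and unit columns. -/
def cand (m n p : ℕ) (β : List ℕ) (c : ℕ) : Mn :=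
  (p, β ++ c :: (List.range (n + 1 - β.length)).map fun i => m + m + 2 + (β.length + 1 + i))

/-- The queries for the choice of the next column. -/
def baQs (m n p : ℕ) (t : Mo) (W : List Mo) (β : List ℕ) : List Qry :=
  ((List.range (m + m + 2)).map fun c => prQ m n 0 [cand m n p β c]) ++
    (List.range (m + m + 2)).flatMap fun c => (List.range (m + m + 2)).map fun c' =>
      cmpQ m n (moMul (moMin (cand m n p β c)) (wc m t W c))
        (moMul (moMin (cand m n p β c')) (wc m t W c'))

/-- The next column. -/
def pick (m : ℕ) (drop : List Bool) (k : ℕ) (o : List Outcome) : ℕ :=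
  (((List.range (m + m + 2)).filter fun c => act m drop c && (decide (o.getD c none ≠ none) &&
    (List.range (m + m + 2)).all fun c' => !(act m drop c') ||
      decide (0 ≤ osg (o.getD (m + m + 2 + (c * (m + m + 2) + c')) none)))).head?).getD
    (m + m + 2 + k)

/-- The basis. -/
def basis (m n p : ℕ) (drop : List Bool) (t : Mo) (W : List Mo) : TT (List ℕ) :=
  iter (fun β => bnd (batch (baQs m n p t W β)) fun o => ret (β ++ [pick m drop β.length o]))
    (n + 2) []

/-! ### The graph -/

/-- The tableau entry. -/
def tM (p : ℕ) (β : List ℕ) (k c : ℕ) : Mo := moRat (p, β.set k c) (p, β)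

/-- The queries for the graph. -/
def grQs (m n p : ℕ) (t : Mo) (W : List Mo) (β : List ℕ) : List Qry :=
  (List.range (n + 2)).flatMap fun k => (List.range (m + m + 2)).flatMap fun c =>
    [prQ m n 0 [(p, β.set k c)],
      cmpQ m n (moMul (moTwo (cE m n)) (moMul (tM p β k c) (wc m t W c)))
        (wc m t W (β.getD k 0))]

/-- The column `c` is not in the basis, and used; the column number `k` of the basis is not a unit
column. -/
def pos (m : ℕ) (drop : List Bool) (β : List ℕ) (k c : ℕ) : Bool :=
  decide (β.getD k 0 < m + m + 2) && (act m drop c && !(decide (c ∈ β)))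

/-- The tableau entry `k, c` is not zero. -/
def nz (m : ℕ) (drop : List Bool) (β : List ℕ) (o : List Outcome) (k c : ℕ) : Bool :=
  pos m drop β k c && decide (o.getD (2 * (k * (m + m + 2) + c)) none ≠ none)

/-- There is an edge between the column number `k` of the basis and the column `c`. -/
def edge (m : ℕ) (drop : List Bool) (β : List ℕ) (o : List Outcome) (k c : ℕ) : Bool :=
  pos m drop β k c && decide (0 ≤ osg (o.getD (2 * (k * (m + m + 2) + c) + 1) none))

/-- The factors for the edges from `u` to `v`. -/
def hop (m n p : ℕ) (drop : List Bool) (β : List ℕ) (o : List Outcome) (u v : ℕ) : List Mo :=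
  (List.range (n + 2)).flatMap fun k =>
    (if decide (β.getD k 0 = u) && edge m drop β o k v then
      [moMul (moTwo (cE m n)) (moInv (tM p β k v))] else []) ++
    (if decide (β.getD k 0 = v) && edge m drop β o k u then
      [moMul (moTwo (cE m n)) (tM p β k u)] else [])

/-- The labels: `true` for the component of `q`, `false` for the component of `nu`; and the weight
relative to `q` or `nu`. -/
abbrev Lab : Type := List (Option (Bool × Mo))

/-- The labels at the beginning. -/
def lab0 (m : ℕ) : Lab := (List.range (m + m + 2)).map fun c =>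
  if c = m + m then some (true, moOne) else if c = m + m + 1 then some (false, moOne) else none

/-- One step of the search. -/
def labS (m n p : ℕ) (drop : List Bool) (β : List ℕ) (o : List Outcome) (l : Lab) : Lab :=
  (List.range (m + m + 2)).map fun v => (l.getD v none).elim
    (((List.range (m + m + 2)).flatMap fun u => (l.getD u none).elim [] fun x =>
      (hop m n p drop β o u v).map fun f => (x.1, moMul x.2 f)).head?) fun x => some x

/-- The labels. -/
def labs (m n p : ℕ) (drop : List Bool) (β : List ℕ) (o : List Outcome) : Lab :=
  (labS m n p drop β o)^[m + m + 2] (lab0 m)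

/-- The column `c` has the label `b`. -/
def isL (l : Lab) (b : Bool) (c : ℕ) : Bool := decide ((l.getD c none).map (fun x => x.1) = some b)

/-- The relative weight. -/
def lbW (l : Lab) (c : ℕ) : Mo := ((l.getD c none).map fun x => x.2).getD moOne

/-- The columns `q` and `nu` are connected. -/
def conn (m n p : ℕ) (drop : List Bool) (β : List ℕ) (o : List Outcome) (l : Lab) : Bool :=
  (List.range (m + m + 2)).any fun u => (List.range (m + m + 2)).any fun v =>
    isL l false u && (isL l true v && !(hop m n p drop β o u v).isEmpty)

/-- The monomials for the tableau entries joining the two components. -/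
def crs (m n p : ℕ) (drop : List Bool) (β : List ℕ) (o : List Outcome) (l : Lab) : List Mo :=
  (List.range (n + 2)).flatMap fun k => (List.range (m + m + 2)).flatMap fun c =>
    if nz m drop β o k c && (isL l true (β.getD k 0) && isL l false c) then
      [moMul (tM p β k c) (moMul (lbW l c) (moInv (lbW l (β.getD k 0))))] else []

/-- Comparison of all pairs. -/
def sqQs (m n : ℕ) (L : List Mo) : List Qry := L.flatMap fun u => L.map fun v => cmpQ m n u v

/-- The first monomial of maximal absolute value. -/
def argmax (L : List Mo) (o : List Outcome) : Mo :=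
  L.getD ((((List.range L.length).filter fun i => (List.range L.length).all fun j =>
    decide (0 ≤ osg (o.getD (i * L.length + j) none))).head?).getD 0) moOne

/-- The sign is corrected by the outcome of a test. -/
def fixS (a : Mo) (o : Outcome) : Mo := ((decide (o = some false), a.1.2), a.2)

/-- The query for the correction of the sign. -/
def fxQ (m n : ℕ) (a : Mo) : Qry := prQ m n 0 (a.2.1 ++ a.2.2)

/-- The new weights after a jump to `t`. -/
def newW (m n : ℕ) (drop : List Bool) (l : Lab) (t : Mo) : List Mo :=
  (List.range (m + m)).map fun c => if act m drop c then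
    (if isL l true c then moMul (moTwo (cW m n)) (moMul (lbW l c) t) else lbW l c) else moOne

/-! ### Iterations -/

/-- The states: status (`0` running, `1` success, `2` end), the number `t`, the weights, the
component of `nu`. -/
abbrev PS : Type := ℕ × (Mo × (List Mo × List Bool))

/-- The end of an iteration. -/
def fin (m n p : ℕ) (drop : List Bool) (t : Mo) (W : List Mo) (β : List ℕ) (o : List Outcome) :
    TT PS :=
  if conn m n p drop β o (labs m n p drop β o) then ret (0, (moHalf t, (W, [])))
  else
    if (crs m n p drop β o (labs m n p drop β o)).isEmpty then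
      ret (2, (t, (W, (List.range (m + m)).map fun c => isL (labs m n p drop β o) false c)))
    else
      bnd (batch (sqQs m n (crs m n p drop β o (labs m n p drop β o)))) fun o' =>
        bnd (batch [cmpQ m n (moMul (moTwo (cJ m n + 1))
            (argmax (crs m n p drop β o (labs m n p drop β o)) o')) t]) fun o'' =>
          if o''.getD 0 none = some false then
            bnd (batch (fxQ m n (moMul (moTwo (cJ m n))
                (argmax (crs m n p drop β o (labs m n p drop β o)) o')) ::
              (newW m n drop (labs m n p drop β o) (moMul (moTwo (cJ m n))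
                (argmax (crs m n p drop β o (labs m n p drop β o)) o'))).map (fxQ m n))) fun o3 =>
              ret (0, (fixS (moMul (moTwo (cJ m n))
                  (argmax (crs m n p drop β o (labs m n p drop β o)) o')) (o3.getD 0 none),
                ((newW m n drop (labs m n p drop β o) (moMul (moTwo (cJ m n))
                  (argmax (crs m n p drop β o (labs m n p drop β o)) o'))).zipIdx.map fun x =>
                    fixS x.1 (o3.getD (x.2 + 1) none), [])))
          else ret (0, (moHalf t, (W, [])))

/-- One iteration. -/
def itr (m n p : ℕ) (drop : List Bool) (s : PS) : TT PS :=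
  if s.1 ≠ 0 then ret s
  else
    bnd (recen m n p drop s.2.1 s.2.2.1) fun c =>
      bnd (batch (peQs m n p drop c.1.1 c.1.2)) fun o =>
        if zOf (cD m n) o (cO m n + (m + m + 3)) < 0 then ret (1, s.2)
        else
          bnd (basis m n p drop s.2.1 (c.1.1.take (m + m))) fun β =>
            bnd (batch (grQs m n p s.2.1 (c.1.1.take (m + m)) β)) fun o' =>
              fin m n p drop s.2.1 (c.1.1.take (m + m)) β o'

/-! ### The algorithm -/

/-- The state at the beginning of the first phase. -/
def st0 (m : ℕ) : PS := (0, (moOne, (List.replicate (m + m) moOne, [])))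

/-- The columns dropped in the first phase: none. -/
def dr0 (m : ℕ) : List Bool := List.replicate (m + m) false

/-- The columns dropped in the second phase. -/
def dr1 (m : ℕ) (B : List Bool) : List Bool :=
  (List.range (m + m)).map fun c => !(decide (c < m) && B.getD c false)

/-- The first value of `t` in the second phase, up to the sign: the entry `j` of `b`. -/
def t1 (m n j : ℕ) : Mo :=
  moMin (1, ((List.range n).map fun i => m + m + 2 + i) ++ [j, m + m + 2 + (n + 1)])

/-- The queries for the signs and sizes of the entries of `b`. -/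
def bQs (m n : ℕ) : List Qry :=
  ((List.range m).map fun j => (([], [1, j]) : Qry)) ++
    sqQs m n ((List.range m).map fun j => t1 m n j)

/-- The position of the largest entry of `b`. -/
def bMax (m : ℕ) (o : List Outcome) : ℕ :=
  (((List.range m).filter fun i => (List.range m).all fun j =>
    decide (0 ≤ osg (o.getD (m + (i * m + j)) none))).head?).getD 0

/-- The state at the beginning of the second phase. -/
def st1 (m n : ℕ) (j : ℕ) (o : Outcome) (W : List Mo) (B : List Bool) : PS :=
  (0, (fixS (t1 m n j) o, ((List.range (m + m)).map fun c =>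
    if (dr1 m B).getD c true then moOne else W.getD c moOne, [])))

/-- The second phase. -/
def TB (m n N : ℕ) (s : PS) : TT Bool :=
  if s.1 ≠ 2 then ret true
  else
    bnd (batch (bQs m n)) fun o =>
      if (List.range m).all fun j => decide (o.getD j none ≠ some true) then ret true
      else
        bnd (batch [fxQ m n (t1 m n (bMax m o))]) fun o' =>
          bnd (iter (itr m n 1 (dr1 m s.2.2.2)) N
            (st1 m n (bMax m o) (o'.getD 0 none) s.2.2.1 s.2.2.2)) fun s' =>
            ret (decide (s'.1 ≠ 1))

/-- The computation, with `N` iterations in every phase. -/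
def TA (N : ℕ → ℕ → ℕ) (m n : ℕ) : TT Bool :=
  bnd (iter (itr m n 0 (dr0 m)) (N m n) (st0 m)) fun s => TB m n (N m n) s

/-- The number of iterations, for the class with the exponent `k`. -/
def cI (k m n : ℕ) : ℕ := (m + n + 2) ^ (8 * k + 40)

/-- The algorithm. -/
def alg (k : ℕ) : Alg := algOf (TA (cI k))

end Pool.Agent.Y648.CS
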