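import Pool.Agent.Y648.CS.Defs

set_option autoImplicit false

/-!
# Few scales of circuit ratios: statements about polynomial time
-/

namespace Pool.Agent.Y648.CS

open Pool.Agent.NPC Pool.Agent.H558R2 Pool.Agent.H622R3.SM Pool.Agent.W920.FC

/-- Queries in polynomial time. -/
def S_QQ : Prop := ∀ (α : Type) [TEnc α] (U V : α → List Unit), Poly U → Poly V →
  (∀ (e : α → ℕ) (l : α → List Mn), UPoly e → Poly l →
    Poly (fun x => prQ (U x).length (V x).length (e x) (l x))) ∧
  (∀ a b : α → Mo, Poly a → Poly b →
    Poly (fun x => cmpQ (U x).length (V x).length (a x) (b x))) ∧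
  (∀ a : α → Mo, Poly a → Poly (fun x => moQ (U x).length (V x).length (a x))) ∧
  (∀ (p : ℕ) (drop : α → List Bool) (Ws : α → List Mo) (y : α → List ℕ), Poly drop → Poly Ws →
    Poly y → Poly (fun x => peQs (U x).length (V x).length p (drop x) (Ws x) (y x)))

/-- The parts of an iteration in polynomial time. -/
def S_QD : Prop := ∀ (α : Type) [TEnc α] (U V : α → List Unit) (p : ℕ) (drop : α → List Bool)
  (t : α → Mo) (W : α → List Mo) (β : α → List ℕ) (o : α → List Outcome) (y : α → List ℕ)
  (l : α → Lab), Poly U → Poly V → Poly drop → Poly t → Poly W → Poly β → Poly o → Poly y →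
  Poly l →
  Poly (fun x => ws0 (U x).length (V x).length (t x) (W x)) ∧
  Poly (fun x => halve (U x).length (V x).length (W x) (y x)) ∧
  (∀ b : α → Bool, Poly b → Poly (fun x => pUpd (cD (U x).length (V x).length)
    (tsK (U x).length (V x).length (drop x)) (y x, b x) (o x))) ∧
  (∀ j : α → ℕ, Poly j → Poly (fun x => zOf (cD (U x).length (V x).length) (o x) (j x))) ∧
  Poly (fun x => baQs (U x).length (V x).length p (t x) (W x) (β x)) ∧
  (∀ k : α → ℕ, Poly k → Poly (fun x => pick (U x).length (drop x) (k x) (o x))) ∧
  Poly (fun x => grQs (U x).length (V x).length p (t x) (W x) (β x)) ∧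
  Poly (fun x => labs (U x).length (V x).length p (drop x) (β x) (o x)) ∧
  Poly (fun x => conn (U x).length (V x).length p (drop x) (β x) (o x) (l x)) ∧
  Poly (fun x => crs (U x).length (V x).length p (drop x) (β x) (o x) (l x)) ∧
  Poly (fun x => sqQs (U x).length (V x).length (W x)) ∧
  Poly (fun x => argmax (W x) (o x)) ∧
  Poly (fun x => newW (U x).length (V x).length (drop x) (l x) (t x)) ∧
  UPoly (fun x => cD (U x).length (V x).length) ∧
  UPoly (fun x => cJ (U x).length (V x).length) ∧
  UPoly (fun x => cR (U x).length (V x).length) ∧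
  UPoly (fun x => cT ((V x).length + 3) ((U x).length + (U x).length + 4))

/-- The computation in polynomial time. -/
def S_PTA (k : ℕ) : Prop :=
  PT (fun a : List Unit × List Unit => TA (cI k) a.1.length a.2.length)

end Pool.Agent.Y648.CS
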