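import Pool.Agent.Y648.CS.StmS
import Pool.Agent.Y648.CS.StmP

set_option autoImplicit false

/-!
# Few scales of circuit ratios: statements about the iterations
-/

namespace Pool.Agent.Y648.CS

open Pool.Agent.NPC Pool.Agent.H558R2 Pool.Agent.H622R3.SM Pool.Agent.W920.FC

/-! ### The subspaces -/

/-- The coordinates used. -/
def Xc (m : ℕ) (drop : List Bool) : Finset ℕ :=
  (Finset.range (m + m)).filter fun c => drop.getD c true = false

/-- The columns used. -/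
def Acs (m : ℕ) (drop : List Bool) : Finset ℕ := insert (m + m) (insert (m + m + 1) (Xc m drop))

/-- The subspace. -/
noncomputable def Lsp (m n p : ℕ) (g : Reg → ℝ) (drop : List Bool) : Submodule ℝ (ℕ → ℝ) where
  carrier := {x | ∀ i < n + 2, ∑ c ∈ Acs m drop, Rb m n p g i c * x c = 0}
  add_mem' := by
    intro x y hx hy i hi
    simp only [Pi.add_apply, mul_add, Finset.sum_add_distrib, hx i hi, hy i hi, add_zero]
  zero_mem' := by
    intro i _
    simp
  smul_mem' := by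
    intro l x hx i hi
    have h : ∀ c, Rb m n p g i c * (l • x) c = l * (Rb m n p g i c * x c) := fun c => by
      simp only [Pi.smul_apply, smul_eq_mul]; ring
    simp only [h, ← Finset.mul_sum, hx i hi, mul_zero]

/-- The columns as vectors. -/
noncomputable def cl (m n p : ℕ) (g : Reg → ℝ) : ℕ → Fin (n + 2) → ℝ := fun c i => Rb m n p g i c

/-- The unit columns. -/
def un (m n : ℕ) : Fin (n + 2) → ℕ := fun k => m + m + 2 + k

/-- The list as a function. -/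
def bf (n : ℕ) (β : List ℕ) : Fin (n + 2) → ℕ := fun k => β.getD k 0

/-- The weights of the columns. -/
noncomputable def wf (m n : ℕ) (g : Reg → ℝ) (t : Mo) (W : List Mo) : ℕ → ℝ := fun c =>
  moV m n g (wc m t W c)

/-! ### Constants -/

/-- The margin. -/
noncomputable def epR (m n : ℕ) : ℝ := (1 / 2) ^ (2 * cD m n)

/-- The bound for `- q`, in the centre. -/
noncomputable def MR (m n : ℕ) : ℝ := 2 ^ (2 * cD m n)

/-- The bound for `- q`, at the beginning of an iteration. -/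
noncomputable def M0R (m n : ℕ) : ℝ := 2 ^ cW m n

/-- The quality of the weights at the beginning of an iteration. -/
noncomputable def dlR (m n : ℕ) : ℝ := (1 / 2) ^ (32 * (cD m n * cD m n))

/-- The exponent for the exchanges between the two parts. -/
def cC (m n : ℕ) : ℕ := 64 * (cD m n * cD m n)

/-- The exponents are at most `e`, the lists have length at most `l`. -/
def MoS (e l : ℕ) (a : Mo) : Prop :=
  a.1.2.1.length ≤ e ∧ a.1.2.2.length ≤ e ∧ a.2.1.length ≤ l ∧ a.2.2.length ≤ l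

/-- The monomial `a` is of bounded size, well defined and positive. -/
def MoG (m n : ℕ) (g : Reg → ℝ) (E : ℕ) (a : Mo) : Prop :=
  MoS E (4 * cD m n) a ∧ MoOK m n g a ∧ 0 < moV m n g a

/-- The invariant at the beginning of an iteration. -/
structure Inv (m n p : ℕ) (g : Reg → ℝ) (drop : List Bool) (E : ℕ) (t : Mo) (W : List Mo) :
    Prop where
  len : W.length = m + m
  szt : MoG m n g E t
  szW : ∀ c < m + m, MoG m n g E (W.getD c moOne)
  bd : Bds (Lsp m n p g drop) (Xc m drop) (m + m) (m + m + 1) (moV m n g t) (wf m n g t W)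
    (M0R m n)
  lo : ∀ c ∈ Xc m drop, ∃ x ∈ Sl (Lsp m n p g drop) (Xc m drop) (m + m) (m + m + 1)
    (moV m n g t), dlR m n * wf m n g t W c ≤ x c

/-- One step along the path, from `t` to `t'`. -/
def Cut (m n p : ℕ) (g : Reg → ℝ) (drop : List Bool) (t t' : ℝ) : Prop :=
  ∃ (w : ℕ → ℝ) (β : Fin (n + 2) → ℕ) (x : ℕ → ℝ),
    Wts (Xc m drop) (m + m) (m + m + 1) t w ∧
    Bds (Lsp m n p g drop) (Xc m drop) (m + m) (m + m + 1) t w (MR m n) ∧
    Cen (Lsp m n p g drop) (Xc m drop) (m + m) (m + m + 1) t w (epR m n) x ∧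
    Greedy (cl m n p g) (un m n) (Acs m drop) w β ∧ 0 < t' ∧ 2 * t' ≤ t ∧
    ∀ σ : ℕ → Bool, σ (m + m + 1) = false → σ (m + m) = true →
      ∃ k, β k ∈ Acs m drop ∧ ∃ c ∈ Acs m drop, (∀ l, β l ≠ c) ∧ σ (β k) ≠ σ c ∧
      (|cdet (cl m n p g) β| * w (β k) ≤
          2 ^ cC m n * (|cdet (cl m n p g) (Function.update β k c)| * w c) ∨
        (σ (β k) = true ∧ σ c = false ∧ |cdet (cl m n p g) β| * w (β k) * (t' / t) ≤
          2 ^ cC m n * (|cdet (cl m n p g) (Function.update β k c)| * w c)))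

/-- The facts at the end of a phase. -/
def Trm (m n p : ℕ) (g : Reg → ℝ) (drop : List Bool) (E : ℕ) (W : List Mo) (B : List Bool) :
    Prop :=
  (∀ c < m + m, MoG m n g E (W.getD c moOne)) ∧
  (∀ y ∈ Sl (Lsp m n p g drop) (Xc m drop) (m + m) (m + m + 1) 0,
    (∀ c ∈ Xc m drop, y c ≤ moV m n g (W.getD c moOne)) ∧
    (∀ c ∈ Xc m drop, B.getD c false = false → y c = 0) ∧ y (m + m) = 0) ∧
  ∃ y ∈ Lsp m n p g drop, (∀ c ∈ Xc m drop, B.getD c false = true →
      epR m n / 2 * moV m n g (W.getD c moOne) ≤ y c) ∧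
    (∀ c ∈ Xc m drop, B.getD c false = false → y c = 0) ∧ y (m + m) = 0 ∧ y (m + m + 1) ≤ 1

/-! ### The parts of an iteration -/

/-- Elementary facts on the subspaces. -/
def S_LSP : Prop := ∀ (m n p : ℕ) (g : Reg → ℝ) (drop : List Bool),
  SpC (Lsp m n p g drop) (Xc m drop) (m + m) (m + m + 1) ∧ (Xc m drop).card + 2 ≤ cD m n ∧
  (Xc m drop).card + 2 ≤ m + m + 2 ∧
  Units (cl m n p g) (un m n) (Acs m drop) ∧
  (∀ x, x ∈ Lsp m n p g drop ↔ ∀ i, ∑ c ∈ Acs m drop, cl m n p g c i * x c = 0) ∧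
  (∀ β : List ℕ, mv m n g (p, β) = (-1) ^ (n + 1) * cdet (cl m n p g) (bf n β)) ∧
  (∀ c < m + m + 2, c ∈ Acs m drop ↔ act m drop c = true)

/-- The search for the centre. -/
def S_REC : Prop := ∀ pB : Polynomial ℕ, ∃ q : Polynomial ℕ, ∀ (m n p : ℕ) (g : Reg → ℝ)
  (drop : List Bool) (E : ℕ) (t : Mo) (W : List Mo), Base g → E ≤ pB.eval (m + n) →
  Inv m n p g drop E t W → ∃ (Ws : List Mo) (y : List ℕ) (x : ℕ → ℝ),
  Runs g (Gd q (m + n) g) (recen m n p drop t W) ((Ws, y), true) (q.eval (m + n)) ∧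
  Ws.length = m + m + 4 ∧ (∀ c < m + m, MoG m n g (E + cR m n) (Ws.getD c moOne)) ∧
  (∀ a ∈ Ws, MoSz (q.eval (m + n)) a ∧ MoOK m n g a) ∧
  (∀ l < cD m n, y.getD l 0 ≤ cT (n + 3) (m + m + 4)) ∧
  Cen (Lsp m n p g drop) (Xc m drop) (m + m) (m + m + 1) (moV m n g t)
    (wf m n g t (Ws.take (m + m))) (epR m n) x ∧
  (zOf (cD m n) ((alV (GMat (n + 3) (m + m + 4) (gW m n p g (wV m n g Ws)) (fun _ => 1)
    (drK m n drop)) y).map signOut) (cO m n + (m + m + 3)) < 0 ↔ x (m + m) < 0) ∧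
  (0 ≤ x (m + m) → Bds (Lsp m n p g drop) (Xc m drop) (m + m) (m + m + 1) (moV m n g t)
    (wf m n g t (Ws.take (m + m))) (MR m n))

/-- The choice of the basis. -/
def S_BAS : Prop := ∀ pB : Polynomial ℕ, ∃ q : Polynomial ℕ, ∀ (m n p : ℕ) (g : Reg → ℝ)
  (drop : List Bool) (E : ℕ) (t : Mo) (W : List Mo), Base g → E ≤ pB.eval (m + n) →
  MoG m n g E t → (∀ c < m + m, MoG m n g E (W.getD c moOne)) →
  ∃ β : List ℕ, Runs g (Gd q (m + n) g) (basis m n p drop t W) β (q.eval (m + n)) ∧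
    β.length = n + 2 ∧ Greedy (cl m n p g) (un m n) (Acs m drop) (wf m n g t W) (bf n β)

/-- The meaning of the outcomes of the queries for the graph. -/
def GrOK (m n p : ℕ) (g : Reg → ℝ) (drop : List Bool) (w : ℕ → ℝ) (β : List ℕ)
    (o : List Outcome) : Prop :=
  ∀ k : Fin (n + 2), ∀ c < m + m + 2,
    (nz m drop β o k c = true ↔ pos m drop β k c = true ∧
      cdet (cl m n p g) (Function.update (bf n β) k c) ≠ 0) ∧
    (edge m drop β o k c = true ↔ pos m drop β k c = true ∧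
      |cdet (cl m n p g) (bf n β)| * w (β.getD k 0) ≤
        2 ^ cE m n * (|cdet (cl m n p g) (Function.update (bf n β) k c)| * w c))

/-- The queries for the graph. -/
def S_GRA : Prop := ∀ pB : Polynomial ℕ, ∃ q : Polynomial ℕ, ∀ (m n p : ℕ) (g : Reg → ℝ)
  (drop : List Bool) (E : ℕ) (t : Mo) (W : List Mo) (β : List ℕ), Base g → E ≤ pB.eval (m + n) →
  MoG m n g E t → (∀ c < m + m, MoG m n g E (W.getD c moOne)) → β.length = n + 2 →
  Greedy (cl m n p g) (un m n) (Acs m drop) (wf m n g t W) (bf n β) →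
  ∃ o : List Outcome, Runs g (Gd q (m + n) g) (batch (grQs m n p t W β)) o (q.eval (m + n)) ∧
    GrOK m n p g drop (wf m n g t W) β o

/-- The size of the root: `t` for the component of `q`, `1` for the component of `nu`. -/
noncomputable def root (t : ℝ) (b : Bool) : ℝ := if b then t else 1

/-- The labels: roots; columns used; relative weights; closure; coherence. -/
def LabOK (m n p : ℕ) (g : Reg → ℝ) (drop : List Bool) (t : ℝ) (w : ℕ → ℝ) (β : List ℕ)
    (o : List Outcome) (l : Lab) : Prop :=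
  isL l true (m + m) = true ∧ isL l false (m + m + 1) = true ∧
  (∀ c b, isL l b c = true → c ∈ Acs m drop ∧ isL l (!b) c = false ∧ MoOK m n g (lbW l c) ∧
    MoS ((m + m + 2) * cE m n) (m + m + 2) (lbW l c) ∧
    w c ≤ |moV m n g (lbW l c)| * root t b ∧
    |moV m n g (lbW l c)| * root t b ≤ 2 ^ (2 * cE m n * (m + m + 2)) * w c) ∧
  (∀ u v, (isL l true u = true ∨ isL l false u = true) → v < m + m + 2 →
    hop m n p drop β o u v ≠ [] → isL l true v = true ∨ isL l false v = true) ∧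
  ∀ σ : ℕ → Bool, (∀ u v, u < m + m + 2 → v < m + m + 2 → hop m n p drop β o u v ≠ [] →
    σ u = σ v) → ∀ c b, isL l b c = true → σ c = σ (if b then m + m else m + m + 1)

/-- The labels. -/
def S_LAB : Prop := ∀ (m n p : ℕ) (g : Reg → ℝ) (drop : List Bool) (t : ℝ) (w : ℕ → ℝ)
  (β : List ℕ) (o : List Outcome), Wts (Xc m drop) (m + m) (m + m + 1) t w → β.length = n + 2 →
  Greedy (cl m n p g) (un m n) (Acs m drop) w (bf n β) → GrOK m n p g drop w β o →
  LabOK m n p g drop t w β o (labs m n p drop β o)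

/-- The end of an iteration. -/
def S_FIN : Prop := ∀ pB : Polynomial ℕ, ∃ q : Polynomial ℕ, ∀ (m n p : ℕ) (g : Reg → ℝ)
  (drop : List Bool) (E : ℕ) (t : Mo) (W : List Mo) (β : List ℕ) (o : List Outcome)
  (x : ℕ → ℝ), Base g → E ≤ pB.eval (m + n) → 64 * (cD m n * cD m n) ≤ E → W.length = m + m →
  MoG m n g E t → (∀ c < m + m, MoG m n g E (W.getD c moOne)) → β.length = n + 2 →
  Bds (Lsp m n p g drop) (Xc m drop) (m + m) (m + m + 1) (moV m n g t) (wf m n g t W)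
    (MR m n) →
  Cen (Lsp m n p g drop) (Xc m drop) (m + m) (m + m + 1) (moV m n g t) (wf m n g t W)
    (epR m n) x →
  Greedy (cl m n p g) (un m n) (Acs m drop) (wf m n g t W) (bf n β) →
  GrOK m n p g drop (wf m n g t W) β o →
  LabOK m n p g drop (moV m n g t) (wf m n g t W) β o (labs m n p drop β o) →
  ∃ s : PS, Runs g (Gd q (m + n) g) (fin m n p drop t W β o) s (q.eval (m + n)) ∧
    ((s.1 = 0 ∧ Inv m n p g drop (E + 1) s.2.1 s.2.2.1 ∧
        Cut m n p g drop (moV m n g t) (moV m n g s.2.1)) ∨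
      (s.1 = 2 ∧ Trm m n p g drop E s.2.2.1 s.2.2.2))

/-- One iteration. -/
def S_ITR : Prop := ∀ pB : Polynomial ℕ, ∃ q : Polynomial ℕ, ∀ (m n p : ℕ) (g : Reg → ℝ)
  (drop : List Bool) (E : ℕ) (t : Mo) (W : List Mo) (B : List Bool), Base g →
  E ≤ pB.eval (m + n) → 64 * (cD m n * cD m n) ≤ E → Inv m n p g drop E t W →
  ∃ s : PS, Runs g (Gd q (m + n) g) (itr m n p drop (0, (t, (W, B)))) s (q.eval (m + n)) ∧
    ((s.1 = 0 ∧ Inv m n p g drop (E + cR m n + 1) s.2.1 s.2.2.1 ∧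
        Cut m n p g drop (moV m n g t) (moV m n g s.2.1)) ∨
      (s.1 = 1 ∧ ∃ x ∈ Lsp m n p g drop, (∀ c ∈ Xc m drop, 0 ≤ x c) ∧ x (m + m) < 0) ∨
      (s.1 = 2 ∧ Trm m n p g drop (E + cR m n) s.2.2.1 s.2.2.2))

/-- The number of steps. -/
def S_CUTC : Prop := ∀ (k m n p : ℕ) (g : Reg → ℝ) (drop : List Bool) (T : ℕ → ℝ) (M : ℕ),
  1 ≤ m → 1 ≤ n →
  ScOn ((m + n) ^ k + 1) (Lsp m n p g drop) (Xc m drop) (m + m + 1) →
  (∀ i < M, Cut m n p g drop (T i) (T (i + 1))) → M < cI k m n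

/-- A phase. -/
def S_PHS (k : ℕ) : Prop := ∀ pB : Polynomial ℕ, ∃ q : Polynomial ℕ, ∀ (m n p : ℕ)
  (g : Reg → ℝ) (drop : List Bool) (E : ℕ) (t : Mo) (W : List Mo) (B : List Bool), Base g →
  1 ≤ m → 1 ≤ n → E ≤ pB.eval (m + n) → 64 * (cD m n * cD m n) ≤ E →
  Inv m n p g drop E t W →
  ScOn ((m + n) ^ k + 1) (Lsp m n p g drop) (Xc m drop) (m + m + 1) →
  ∃ s : PS, Runs g (Gd q (m + n) g) (iter (itr m n p drop) (cI k m n) (0, (t, (W, B)))) s
      (q.eval (m + n)) ∧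
    ((s.1 = 1 ∧ ∃ x ∈ Lsp m n p g drop, (∀ c ∈ Xc m drop, 0 ≤ x c) ∧ x (m + m) < 0) ∨
      (s.1 = 2 ∧ Trm m n p g drop (q.eval (m + n)) s.2.2.1 s.2.2.2))

/-! ### The result -/

/-- The elementary vectors (circuits) of the left kernel of `A`: the vectors `C ≠ 0` with
`C A = 0` such that every vector of the left kernel whose support is contained in the support of `C`
is a multiple of `C`. -/
def Circ {m n : ℕ} (A : Matrix (Fin m) (Fin n) ℝ) (C : Fin m → ℝ) : Prop :=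
  C ≠ 0 ∧ A.vecMul C = 0 ∧
  ∀ D : Fin m → ℝ, A.vecMul D = 0 → (∀ i, C i = 0 → D i = 0) → ∃ l : ℝ, D = l • C

/-- For any two rows, the ratios of the entries of the circuits lie in at most `(m + n) ^ k`
intervals `[s, 2 ^ ((m + n) ^ k) s]`. -/
def FewScales (k m n : ℕ) (A : Matrix (Fin m) (Fin n) ℝ) : Prop :=
  ∀ i j : Fin m, ∃ S : Finset ℝ, S.card ≤ (m + n) ^ k ∧ (∀ s ∈ S, 0 < s) ∧
    ∀ C, Circ A C → C i ≠ 0 → C j ≠ 0 →
      ∃ s ∈ S, s ≤ |C i / C j| ∧ |C i / C j| ≤ 2 ^ ((m + n) ^ k) * s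

/-- The scales in the two phases. -/
def S_SC : Prop := ∀ (k m n : ℕ) (A : Matrix (Fin m) (Fin n) ℝ) (b : Fin m → ℝ),
  FewScales k m n A →
  ScOn ((m + n) ^ k + 1) (Lsp m n 0 (start A b) (dr0 m)) (Xc m (dr0 m)) (m + m + 1) ∧
  ∀ B : List Bool, ScOn ((m + n) ^ k + 1) (Lsp m n 1 (start A b) (dr1 m B)) (Xc m (dr1 m B))
    (m + m + 1)

/-- The beginning of the first phase, and what its end means. -/
def S_BEG0 : Prop := ∀ (m n : ℕ) (A : Matrix (Fin m) (Fin n) ℝ) (b : Fin m → ℝ),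
  Inv m n 0 (start A b) (dr0 m) (64 * (cD m n * cD m n)) moOne (List.replicate (m + m) moOne) ∧
  ∀ x ∈ Lsp m n 0 (start A b) (dr0 m), (∀ c ∈ Xc m (dr0 m), 0 ≤ x c) → 0 ≤ x (m + m)

/-- The second phase: its beginning, and what its end means. -/
def S_BEG1 : Prop := ∀ (m n E j : ℕ) (A : Matrix (Fin m) (Fin n) ℝ) (b : Fin m → ℝ)
  (W : List Mo) (B : List Bool), 64 * (cD m n * cD m n) ≤ E →
  Trm m n 0 (start A b) (dr0 m) E W B →
  (j < m → start A b [1, j] ≠ 0 → (∀ i < m, |start A b [1, i]| ≤ |start A b [1, j]|) →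
    ∀ o, o = signOut (prV m n (start A b) 0 ((t1 m n j).2.1 ++ (t1 m n j).2.2)) →
    Inv m n 1 (start A b) (dr1 m B) E (st1 m n j o W B).2.1 (st1 m n j o W B).2.2.1) ∧
  ((∃ x ∈ Lsp m n 1 (start A b) (dr1 m B), (∀ c ∈ Xc m (dr1 m B), 0 ≤ x c) ∧ x (m + m) < 0) →
    ¬ ∃ z : Fin n → ℝ, b ≤ A.mulVec z) ∧
  ((∀ y ∈ Sl (Lsp m n 1 (start A b) (dr1 m B)) (Xc m (dr1 m B)) (m + m) (m + m + 1) 0,
    y (m + m) = 0) → ∃ z : Fin n → ℝ, b ≤ A.mulVec z)

/-- The main theorem. -/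
def S_FINAL (k : ℕ) : Prop := PolyControl (alg k) ∧ OracleFree (alg k) ∧
  StronglyPolynomialOn (fun m n A _ => FewScales k m n A) (alg k)

end Pool.Agent.Y648.CS
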