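import Pool.Agent.Y648.CS.Defs

set_option autoImplicit false

/-!
# Few scales of circuit ratios: statements about programs, queries, and the perceptron algorithm
-/

namespace Pool.Agent.Y648.CS

open Pool.Agent.NPC Pool.Agent.H558R2 Pool.Agent.H622R3.SM Pool.Agent.W920.FC

/-! ### Values -/

/-- The entry in row `i` and column `c`. -/
noncomputable def Rb (m n p : ℕ) (g : Reg → ℝ) (i c : ℕ) : ℝ :=
  if c < m then
    (if i < n then g [0, c, i] else if i = n then (if p = 0 then 0 else - g [1, c]) else 1)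
  else if c < m + m then
    (if i < n then - g [0, c - m, i] else if i = n then (if p = 0 then 1 else 0) else 1)
  else if c = m + m then (if i = n then -1 else 0)
  else if c = m + m + 1 then (if i = n + 1 then -1 else 0)
  else (if c = m + m + 2 + i then 1 else 0)

/-- The value of a minor. -/
noncomputable def mv (m n : ℕ) (g : Reg → ℝ) (x : Mn) : ℝ :=
  (-1) ^ (n + 1) * (Matrix.of fun i k : Fin (n + 2) => Rb m n x.1 g i (x.2.getD k 0)).det

/-- The value of a product of minors. -/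
noncomputable def prV (m n : ℕ) (g : Reg → ℝ) (e : ℕ) (l : List Mn) : ℝ :=
  2 ^ e * (l.map (mv m n g)).prod

/-- The value of a monomial. -/
noncomputable def moV (m n : ℕ) (g : Reg → ℝ) (a : Mo) : ℝ :=
  (if a.1.1 then -1 else 1) * (prV m n g a.1.2.1.length a.2.1 / prV m n g a.1.2.2.length a.2.2)

/-- The value of a comparison. -/
noncomputable def cmV (m n : ℕ) (g : Reg → ℝ) (a b : Mo) : ℝ :=
  prV m n g (a.1.2.1.length + b.1.2.2.length) (a.2.1 ++ b.2.2) *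
      prV m n g (a.1.2.1.length + b.1.2.2.length) (a.2.1 ++ b.2.2) -
    prV m n g (b.1.2.1.length + a.1.2.2.length) (b.2.1 ++ a.2.2) *
      prV m n g (b.1.2.1.length + a.1.2.2.length) (b.2.1 ++ a.2.2)

/-- All parts of the monomial have length at most `B`. -/
def MoSz (B : ℕ) (a : Mo) : Prop :=
  a.1.2.1.length ≤ B ∧ a.1.2.2.length ≤ B ∧ a.2.1.length ≤ B ∧ a.2.2.length ≤ B

/-- The minors of the denominator do not vanish. -/
def MoOK (m n : ℕ) (g : Reg → ℝ) (a : Mo) : Prop := ∀ x ∈ a.2.2, mv m n g x ≠ 0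

/-! ### Tuples -/

/-- Tuples of queries. -/
def S_TUP : Prop := ∀ (g : Reg → ℝ) (G : ℝ → Prop) (qs : List Qry) (vs : List ℝ),
  List.Forall₂ (HasVal g G) qs vs →
  Ord baseReg (tupP qs) ∧ (∀ r ∈ Pool.Agent.W920.FC.wr (tupP qs), r.headD 0 = 60) ∧
  (∀ i < qs.length, tupR qs i ∈ baseReg ∨ tupR qs i ∈ Pool.Agent.W920.FC.wr (tupP qs)) ∧
  (∃ V : Reg → ℝ, (∀ r ∈ baseReg, V r = g r) ∧ (∀ I ∈ tupP qs, Eqn V I ∧ G (V I.dst)) ∧
    ∀ i < qs.length, V (tupR qs i) = vs.getD i 0) ∧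
  (tupP qs).length = (qs.map fun q => q.1.length).sum

/-- Arithmetic operations with the results of two queries. -/
def S_CMB : Prop := ∀ (g : Reg → ℝ) (G : ℝ → Prop) (op : Op) (q₁ q₂ : Qry) (v₁ v₂ : ℝ),
  HasVal g G q₁ v₁ → HasVal g G q₂ v₂ → (op = Op.div → v₂ ≠ 0) → G (op.eval v₁ v₂) →
  HasVal g G (cmb op q₁ q₂) (op.eval v₁ v₂) ∧
  (cmb op q₁ q₂).1.length = q₁.1.length + q₂.1.length + 1

/-- Powers of two. -/
def S_TWO : Prop := ∀ (g : Reg → ℝ) (G : ℝ → Prop) (e : ℕ), Base g → (∀ t ≤ e, G (2 ^ t)) →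
  HasVal g G (twoQ e) (2 ^ e) ∧ (twoQ e).1.length = e + 1

/-- Minors. -/
def S_DET : Prop := ∃ q : Polynomial ℕ, ∀ (m n : ℕ) (g : Reg → ℝ) (x : Mn), Base g →
  HasVal g (Gd q (m + n) g) (detQ m n x) (mv m n g x) ∧ (detQ m n x).1.length ≤ q.eval (m + n)

/-- Products of minors. -/
def S_PR : Prop := ∀ pB : Polynomial ℕ, ∃ q : Polynomial ℕ, ∀ (m n : ℕ) (g : Reg → ℝ) (e : ℕ)
  (l : List Mn), Base g → e ≤ pB.eval (m + n) → l.length ≤ pB.eval (m + n) →
  HasVal g (Gd q (m + n) g) (prQ m n e l) (prV m n g e l) ∧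
  (prQ m n e l).1.length ≤ q.eval (m + n)

/-- Comparisons. -/
def S_CMPQ : Prop := ∀ pB : Polynomial ℕ, ∃ q : Polynomial ℕ, ∀ (m n : ℕ) (g : Reg → ℝ)
  (a b : Mo), Base g → MoSz (pB.eval (m + n)) a → MoSz (pB.eval (m + n)) b →
  HasVal g (Gd q (m + n) g) (cmpQ m n a b) (cmV m n g a b) ∧
  (cmpQ m n a b).1.length ≤ q.eval (m + n)

/-- Monomials. -/
def S_MOQ : Prop := ∀ pB : Polynomial ℕ, ∃ q : Polynomial ℕ, ∀ (m n : ℕ) (g : Reg → ℝ)
  (a : Mo), Base g → MoSz (pB.eval (m + n)) a → MoOK m n g a →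
  HasVal g (Gd q (m + n) g) (moQ m n a) (moV m n g a) ∧
  (moQ m n a).1.length ≤ q.eval (m + n)

/-- The values of monomials. -/
def S_MOV : Prop := ∀ (m n : ℕ) (g : Reg → ℝ),
  moV m n g moOne = 1 ∧ MoOK m n g moOne ∧
  (∀ e, moV m n g (moTwo e) = 2 ^ e ∧ MoOK m n g (moTwo e)) ∧
  (∀ a b, moV m n g (moMul a b) = moV m n g a * moV m n g b) ∧
  (∀ a b, MoOK m n g a → MoOK m n g b → MoOK m n g (moMul a b)) ∧
  (∀ a, moV m n g (moHalf a) = moV m n g a / 2 ∧ (MoOK m n g a → MoOK m n g (moHalf a))) ∧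
  (∀ a, |moV m n g (moInv a)| = |moV m n g a|⁻¹ ∧
    (MoOK m n g a → moV m n g a ≠ 0 → MoOK m n g (moInv a))) ∧
  (∀ x y, moV m n g (moRat x y) = mv m n g x / mv m n g y) ∧
  (∀ x, moV m n g (moMin x) = mv m n g x ∧ MoOK m n g (moMin x)) ∧
  (∀ a b, MoOK m n g a → MoOK m n g b →
    signOut (cmV m n g a b) = signOut (|moV m n g a| - |moV m n g b|)) ∧
  (∀ a, MoOK m n g a → moV m n g a ≠ 0 →
    MoOK m n g (fixS a (signOut (prV m n g 0 (a.2.1 ++ a.2.2)))) ∧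
    moV m n g (fixS a (signOut (prV m n g 0 (a.2.1 ++ a.2.2)))) = |moV m n g a| ∧
    0 < |moV m n g a|)

/-! ### The weighted matrix -/

/-- The coefficient in row `i` and column `c` of the system of the perceptron algorithm. -/
noncomputable def Pc (m n p : ℕ) (g : Reg → ℝ) (i c : ℕ) : ℝ :=
  if c < m + m then (if i < n + 2 then Rb m n p g i c else 0)
  else if c = m + m then (if i = n + 1 then 1 else 0)
  else if c = m + m + 1 then (if i = n + 2 then -1 else 0)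
  else if c = m + m + 2 then (if i = n + 1 then -1 else if i = n + 2 then 1 else 0)
  else (if i = n ∨ i = n + 2 then -1 else 0)

/-- The weighted matrix. -/
noncomputable def PW (m n p : ℕ) (g : Reg → ℝ) (w : ℕ → ℝ) (i c : ℕ) : ℝ :=
  Pc m n p g i c * if i = n + 2 ∧ c = m + m + 3 then 2 ^ cA m n else w c

/-- The weighted matrix in place of `A`, and `0` in place of `b`. -/
noncomputable def gW (m n p : ℕ) (g : Reg → ℝ) (w : ℕ → ℝ) : Reg → ℝ := fun r =>
  if r.length = 3 ∧ r.headD 0 = 0 ∧ r.getD 1 0 < n + 3 ∧ r.getD 2 0 < m + m + 4 then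
    PW m n p g w (r.getD 1 0) (r.getD 2 0)
  else if r = [2] then 1 else 0

/-- The weights given by a list of monomials. -/
noncomputable def wV (m n : ℕ) (g : Reg → ℝ) (Ws : List Mo) (c : ℕ) : ℝ :=
  moV m n g (Ws.getD c moOne)

/-- The program for the weighted matrix. -/
def S_PRE : Prop := ∀ pB : Polynomial ℕ, ∃ q : Polynomial ℕ, ∀ (m n p : ℕ) (g : Reg → ℝ)
  (Ws : List Mo), Base g → (∀ a ∈ Ws, MoSz (pB.eval (m + n)) a ∧ MoOK m n g a) →
  Ord baseReg (preP m n p Ws) ∧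
  (∀ r ∈ Pool.Agent.W920.FC.wr (preP m n p Ws), 60 ≤ r.headD 0 ∧ r.headD 0 ≤ 80) ∧
  (∀ i < n + 3, ∀ c < m + m + 4, [80, i, c] ∈ Pool.Agent.W920.FC.wr (preP m n p Ws)) ∧
  (∃ V : Reg → ℝ, (∀ r ∈ baseReg, V r = g r) ∧
    (∀ I ∈ preP m n p Ws, Eqn V I ∧ Gd q (m + n) g (V I.dst)) ∧
    ∀ i < n + 3, ∀ c < m + m + 4, V [80, i, c] = PW m n p g (wV m n g Ws) i c) ∧
  (preP m n p Ws).length ≤ q.eval (m + n) ∧
  ∀ lam, RB lam g → RB (q.eval (m + n + lam)) (gW m n p g (wV m n g Ws))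

/-- Renaming of registers: a query for the weighted matrix. -/
def S_REL : Prop := ∀ (m n p : ℕ) (g g' : Reg → ℝ) (G : ℝ → Prop) (Ws : List Mo) (q : Qry)
  (v : ℝ), Base g → Ord baseReg (preP m n p Ws) →
  (∀ r ∈ Pool.Agent.W920.FC.wr (preP m n p Ws), 60 ≤ r.headD 0 ∧ r.headD 0 ≤ 80) →
  (∀ i < n + 3, ∀ c < m + m + 4, [80, i, c] ∈ Pool.Agent.W920.FC.wr (preP m n p Ws)) →
  (∃ V : Reg → ℝ, (∀ r ∈ baseReg, V r = g r) ∧
    (∀ I ∈ preP m n p Ws, Eqn V I ∧ G (V I.dst)) ∧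
    ∀ i < n + 3, ∀ c < m + m + 4, V [80, i, c] = g' [0, i, c]) →
  g' [2] = 1 →
  (∀ r ∈ baseReg, r ≠ [2] → (∀ i < n + 3, ∀ c < m + m + 4, r ≠ [0, i, c]) → g' r = 0) →
  HasVal g' G q v → HasVal g G (reQ m n p Ws q) v

/-! ### The queries of the perceptron algorithm -/

/-- The value of the query for a margin. -/
noncomputable def mVal {K : ℕ} (G : Matrix (Fin K) (Fin K) ℝ) (y : List ℕ) (r j : ℕ) : ℝ :=
  if r = 0 then 2 ^ 2 * dVal G y 0 j - 1 else 2 ^ 2 * dVal G y r j + cVal G (r - 1)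

/-- The values of the queries of a step. -/
noncomputable def alV {K : ℕ} (G : Matrix (Fin K) (Fin K) ℝ) (y : List ℕ) : List ℝ :=
  perVals G y ++ (List.range (K + 1)).flatMap fun r => (List.range K).map fun j => mVal G y r j

/-- The queries, for the system with the matrix `A` in the base registers. -/
def S_ALLQ : Prop := ∃ q : Polynomial ℕ, ∀ (m n : ℕ) (g' : Reg → ℝ) (drop : List Bool)
  (y : List ℕ), Base g' → (∀ l < cD m n, y.getD l 0 ≤ cT (n + 3) (m + m + 4)) →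
  List.Forall₂ (HasVal g' (Gd q (m + n) g')) (allQs m n drop y)
    (alV (GMat (n + 3) (m + m + 4) g' (fun _ => 1) (drK m n drop)) y) ∧
  ((allQs m n drop y).map fun q => q.1.length + 1).sum ≤ q.eval (m + n)

/-- The queries of a step of the perceptron algorithm. -/
def S_PEQ : Prop := ∀ pB : Polynomial ℕ, ∃ q : Polynomial ℕ, ∀ (m n p : ℕ) (g : Reg → ℝ)
  (drop : List Bool) (Ws : List Mo) (y : List ℕ), Base g →
  (∀ a ∈ Ws, MoSz (pB.eval (m + n)) a ∧ MoOK m n g a) →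
  (∀ l < cD m n, y.getD l 0 ≤ cT (n + 3) (m + m + 4)) →
  List.Forall₂ (HasVal g (Gd q (m + n) g)) (peQs m n p drop Ws y)
    (alV (GMat (n + 3) (m + m + 4) (gW m n p g (wV m n g Ws)) (fun _ => 1) (drK m n drop)) y) ∧
  ((peQs m n p drop Ws y).map fun q => q.1.length + 1).sum ≤ q.eval (m + n)

/-! ### The perceptron algorithm -/

/-- The signs and margins of the projection are found from the outcomes. -/
def S_PRM : Prop := ∀ (K : ℕ) (G : Matrix (Fin K) (Fin K) ℝ) (y : List ℕ), G.IsSymm →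
  ∃ z : Fin K → ℝ, IsPr G (fun j => ((y.getD j 0 : ℕ) : ℝ)) z ∧
    ∀ j : Fin K, (0 < zOf K ((alV G y).map signOut) j ↔ 0 < z j) ∧
      (zOf K ((alV G y).map signOut) j < 0 ↔ z j < 0) ∧
      (mOf K ((alV G y).map signOut) j ≤ 0 ↔ z j ≤ 1 / 4)

/-- The states of the perceptron algorithm. -/
noncomputable def pSt (K : ℕ) (G : Matrix (Fin K) (Fin K) ℝ) (ts : List Bool) :
    ℕ → List ℕ × Bool
  | 0 => ((List.range K).map fun _ => 0, false)
  | i + 1 => pUpd K ts (pSt K G ts i) ((alV G (pSt K G ts i).1).map signOut)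

/-- The perceptron algorithm with margins: sizes, and its result after `4 K ^ 3` steps. At most half
of the coordinates are not forced to vanish by `G`. -/
def S_PERM : Prop := ∀ (K : ℕ) (G : Matrix (Fin K) (Fin K) ℝ) (ts dr : List Bool), 1 ≤ K →
  G.IsSymm → (∀ x : Fin K → ℝ, G.mulVec x = 0 → ∀ j : Fin K, dr.getD j false = true → x j = 0) →
  (∀ j < K, ts.getD j false = true → dr.getD j false = false) →
  2 * ((List.range K).filter fun j => !(dr.getD j false)).length ≤ K →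
  (∀ i l, (pSt K G ts i).1.getD l 0 ≤ i) ∧
  ((pSt K G ts (4 * (K * (K * K)))).2 = true → ∃ z : Fin K → ℝ,
    IsPr G (fun j => (((pSt K G ts (4 * (K * (K * K)))).1.getD j 0 : ℕ) : ℝ)) z ∧
    (∀ j : Fin K, ts.getD j false = true → 1 / 4 < z j) ∧ ∀ j : Fin K, |z j| ≤ 3 * K ^ 2) ∧
  ((pSt K G ts (4 * (K * (K * K)))).2 = false →
    (∃ j < K, ts.getD j false = true ∧
      4 * (K * K) ≤ (pSt K G ts (4 * (K * (K * K)))).1.getD j 0) ∧
    (∀ j < K, 4 * (K * K) ≤ (pSt K G ts (4 * (K * (K * K)))).1.getD j 0 →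
      ts.getD j false = true) ∧
    ∀ x : Fin K → ℝ, G.mulVec x = 0 → (∀ j, |x j| ≤ 1) →
      (∀ j : Fin K, ts.getD j false = true → 0 ≤ x j) → ∀ j : Fin K,
      4 * (K * K) ≤ (pSt K G ts (4 * (K * (K * K)))).1.getD j 0 → x j ≤ 1 / 2)

end Pool.Agent.Y648.CS
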