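import Pool.Agent.Y648.CS.StmM

set_option autoImplicit false

/-!
# Few scales of circuit ratios: the mathematics of the path

Vectors are functions on `ℕ`; `X` is the set of the coordinates which are nonnegative, `q` and `nu`
are two further coordinates: a linear form, and the sum of the coordinates in `X`.
-/

namespace Pool.Agent.Y648.CS

/-- The points with `x ≥ 0`, `nu ≤ 1` and `q ≤ t`. -/
def Sl (Ls : Submodule ℝ (ℕ → ℝ)) (X : Finset ℕ) (q nu : ℕ) (t : ℝ) : Set (ℕ → ℝ) :=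
  {x | x ∈ Ls ∧ (∀ c ∈ X, 0 ≤ x c) ∧ x nu ≤ 1 ∧ x q ≤ t}

/-- The weights `w` are upper bounds. -/
def Bds (Ls : Submodule ℝ (ℕ → ℝ)) (X : Finset ℕ) (q nu : ℕ) (t : ℝ) (w : ℕ → ℝ) (M : ℝ) : Prop :=
  ∀ x ∈ Sl Ls X q nu t, (∀ c ∈ X, x c ≤ w c) ∧ -(M * t) ≤ x q ∧ 0 ≤ x nu

/-- A point in the centre. -/
def Cen (Ls : Submodule ℝ (ℕ → ℝ)) (X : Finset ℕ) (q nu : ℕ) (t : ℝ) (w : ℕ → ℝ) (ε : ℝ)
    (x : ℕ → ℝ) : Prop :=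
  x ∈ Ls ∧ (∀ c ∈ X, ε * w c ≤ x c) ∧ x nu ≤ 1 - ε ∧ x q ≤ (1 - ε) * t

/-- A tableau: the coordinates in `bs` are linear forms of the other ones, which are free. -/
def Tab (Ls : Submodule ℝ (ℕ → ℝ)) (Ac bs : Finset ℕ) (T : ℕ → ℕ → ℝ) : Prop :=
  bs ⊆ Ac ∧ (∀ x ∈ Ls, ∀ i ∈ bs, x i = ∑ j ∈ Ac \ bs, T i j * x j) ∧
  ∀ u : ℕ → ℝ, ∃ x ∈ Ls, ∀ j ∈ Ac \ bs, x j = u j

/-- General assumptions on the weights. -/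
def Wts (X : Finset ℕ) (q nu : ℕ) (t : ℝ) (w : ℕ → ℝ) : Prop :=
  q ∉ X ∧ nu ∉ X ∧ q ≠ nu ∧ 0 < t ∧ (∀ c ∈ X, 0 < w c) ∧ w q = t ∧ w nu = 1

/-- Every component of the graph contains `q` or `nu`. -/
def S_COMP : Prop := ∀ (Ls : Submodule ℝ (ℕ → ℝ)) (X : Finset ℕ) (q nu : ℕ) (t : ℝ)
  (w : ℕ → ℝ) (M ε η : ℝ) (K : ℕ) (bs : Finset ℕ) (T : ℕ → ℕ → ℝ) (x : ℕ → ℝ) (U : Finset ℕ),
  Wts X q nu t w → X.card + 2 ≤ K → 0 < ε → ε ≤ 1 → 1 ≤ M → 0 ≤ η → 4 * K * η * M < ε ^ 2 →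
  Bds Ls X q nu t w M → Cen Ls X q nu t w ε x → Tab Ls (insert q (insert nu X)) bs T →
  U ⊆ X → U.Nonempty →
  (∀ i ∈ bs, ∀ j ∈ insert q (insert nu X) \ bs, (i ∈ U ↔ j ∉ U) → |T i j| * w j ≤ η * w i) →
  False

/-- The jump: if the components `B` of `nu` and the complement are almost decoupled. -/
def S_JUMP : Prop := ∀ (Ls : Submodule ℝ (ℕ → ℝ)) (X : Finset ℕ) (q nu : ℕ) (t t' : ℝ)
  (w : ℕ → ℝ) (M ε η θ : ℝ) (K : ℕ) (bs : Finset ℕ) (T : ℕ → ℕ → ℝ) (x : ℕ → ℝ)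
  (B : Finset ℕ),
  Wts X q nu t w → X.card + 2 ≤ K → 0 < ε → ε ≤ 1 → 1 ≤ M → 0 ≤ η → 0 ≤ θ → θ ≤ η →
  4 * K * η * M ≤ ε → 0 < t' → t' ≤ t → 2 * K * M * θ * t ≤ ε * t' →
  Bds Ls X q nu t w M → Cen Ls X q nu t w ε x → Tab Ls (insert q (insert nu X)) bs T →
  B ⊆ insert q (insert nu X) → nu ∈ B → q ∉ B →
  (∀ i ∈ bs, i ∉ B → ∀ j ∈ insert q (insert nu X) \ bs, j ∈ B → |T i j| * w j ≤ θ * w i) →
  (∀ i ∈ bs, i ∈ B → ∀ j ∈ insert q (insert nu X) \ bs, j ∉ B → |T i j| * w j ≤ η * w i) →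
  (∀ y ∈ Sl Ls X q nu t', ∀ j ∈ insert q (insert nu X), j ∉ B →
    |y j| ≤ 8 * M / ε * (t' / t) * w j) ∧
  ∃ y ∈ Sl Ls X q nu t', (∀ j ∈ X, j ∈ B → ε / 4 * w j ≤ y j) ∧
    ∀ j ∈ X, j ∉ B → ε / 4 * (t' / t) * w j ≤ y j

/-- The end: if nothing leads from the component `B` of `nu` to its complement. -/
def S_TERM : Prop := ∀ (Ls : Submodule ℝ (ℕ → ℝ)) (X : Finset ℕ) (q nu : ℕ) (t : ℝ)
  (w : ℕ → ℝ) (M ε η : ℝ) (K : ℕ) (bs : Finset ℕ) (T : ℕ → ℕ → ℝ) (x : ℕ → ℝ)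
  (B : Finset ℕ),
  Wts X q nu t w → X.card + 2 ≤ K → 0 < ε → ε ≤ 1 → 1 ≤ M → 0 ≤ η →
  4 * K * η * M ≤ ε →
  Bds Ls X q nu t w M → Cen Ls X q nu t w ε x → Tab Ls (insert q (insert nu X)) bs T →
  B ⊆ insert q (insert nu X) → nu ∈ B → q ∉ B →
  (∀ i ∈ bs, i ∉ B → ∀ j ∈ insert q (insert nu X) \ bs, j ∈ B → T i j = 0) →
  (∀ i ∈ bs, i ∈ B → ∀ j ∈ insert q (insert nu X) \ bs, j ∉ B → |T i j| * w j ≤ η * w i) →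
  (∀ y ∈ Sl Ls X q nu 0, ∀ j ∈ insert q (insert nu X), j ∉ B → y j = 0) ∧
  ∃ y ∈ Ls, (∀ j ∈ X, j ∈ B → ε / 2 * w j ≤ y j) ∧
    (∀ j ∈ insert q (insert nu X), j ∉ B → y j = 0) ∧ y nu ≤ 1

/-! ### Bases of almost maximal volume -/

/-- The determinant with the columns `β`. -/
noncomputable def cdet {N : ℕ} (a : ℕ → Fin N → ℝ) (β : Fin N → ℕ) : ℝ :=
  (Matrix.of fun i k : Fin N => a (β k) i).det

/-- The determinant with the columns `β l`, `l < k`, then `c`, then unit columns. -/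
noncomputable def pdet {N : ℕ} (a : ℕ → Fin N → ℝ) (u β : Fin N → ℕ) (k : Fin N) (c : ℕ) : ℝ :=
  cdet a (fun l => if l < k then β l else if l = k then c else u l)

/-- The columns `β` have been chosen greedily; unit columns `u k` are used if there is no other
choice. -/
def Greedy {N : ℕ} (a : ℕ → Fin N → ℝ) (u : Fin N → ℕ) (Ac : Finset ℕ) (w : ℕ → ℝ)
    (β : Fin N → ℕ) : Prop :=
  ∀ k, (β k ∈ Ac ∧ pdet a u β k (β k) ≠ 0 ∧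
      ∀ c ∈ Ac, |pdet a u β k c| * w c ≤ |pdet a u β k (β k)| * w (β k)) ∨
    (β k = u k ∧ ∀ c ∈ Ac, pdet a u β k c = 0)

/-- The columns `u` are unit vectors. -/
def Units {N : ℕ} (a : ℕ → Fin N → ℝ) (u : Fin N → ℕ) (Ac : Finset ℕ) : Prop :=
  (∀ k i, a (u k) i = if i = k then 1 else 0) ∧ Function.Injective u ∧ ∀ k, u k ∉ Ac

/-- Greedy bases. -/
def S_GRD : Prop := ∀ (N : ℕ) (a : ℕ → Fin N → ℝ) (u : Fin N → ℕ) (Ac : Finset ℕ) (w : ℕ → ℝ)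
  (β : Fin N → ℕ), Units a u Ac → (∀ c ∈ Ac, 0 < w c) → Greedy a u Ac w β →
  cdet a β ≠ 0 ∧ Function.Injective β ∧
  (∀ k, β k = u k → ∀ c ∈ Ac, cdet a (Function.update β k c) = 0) ∧
  (∀ k, β k ∈ Ac → ∀ c ∈ Ac, |cdet a (Function.update β k c)| * w c ≤
    2 ^ N * (|cdet a β| * w (β k))) ∧
  ∀ (Ls : Submodule ℝ (ℕ → ℝ)), (∀ x, x ∈ Ls ↔ ∀ i, ∑ c ∈ Ac, a c i * x c = 0) →
    ∀ T : ℕ → ℕ → ℝ, (∀ k, β k ∈ Ac → ∀ c, T (β k) c =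
      - (cdet a (Function.update β k c) / cdet a β)) →
    Tab Ls Ac (Ac.filter fun c => ∃ k, β k = c) T

/-- Greedy bases have almost maximal volume, and the unit columns do not depend on the weights. -/
def S_GRV : Prop := ∀ (N : ℕ) (a : ℕ → Fin N → ℝ) (u : Fin N → ℕ) (Ac : Finset ℕ) (w : ℕ → ℝ)
  (β : Fin N → ℕ), Units a u Ac → (∀ c ∈ Ac, 0 < w c) → Greedy a u Ac w β →
  (∀ β' : Fin N → ℕ, (∀ k, (β k = u k → β' k = u k) ∧ (β k ≠ u k → β' k ∈ Ac)) →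
    |cdet a β'| * ∏ k ∈ Finset.univ.filter (fun k => β k ≠ u k), w (β' k) ≤
    (N.factorial * 2 ^ (N * N)) *
      (|cdet a β| * ∏ k ∈ Finset.univ.filter (fun k => β k ≠ u k), w (β k))) ∧
  ∀ (w' : ℕ → ℝ) (β' : Fin N → ℕ), (∀ c ∈ Ac, 0 < w' c) → Greedy a u Ac w' β' →
    ∀ k, β' k = u k ↔ β k = u k

/-! ### Elementary vectors -/

/-- The normalised nonnegative elementary vectors. -/
def ElV (Ls : Submodule ℝ (ℕ → ℝ)) (X : Finset ℕ) (nu : ℕ) (v : ℕ → ℝ) : Prop :=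
  v ∈ Ls ∧ (∀ c ∈ X, 0 ≤ v c) ∧ v nu = 1 ∧
  ∀ z ∈ Ls, (∀ c ∈ X, v c = 0 → z c = 0) → ∃ l : ℝ, ∀ c ∈ X, z c = l * v c

/-- Assumptions on the two special coordinates. -/
def SpC (Ls : Submodule ℝ (ℕ → ℝ)) (X : Finset ℕ) (q nu : ℕ) : Prop :=
  q ∉ X ∧ nu ∉ X ∧ q ≠ nu ∧ (∀ x ∈ Ls, x nu = ∑ c ∈ X, x c) ∧
  ∀ x ∈ Ls, (∀ c ∈ X, x c = 0) → x q = 0

/-- Decomposition into elementary vectors. -/
def S_DECO : Prop := ∀ (Ls : Submodule ℝ (ℕ → ℝ)) (X : Finset ℕ) (q nu : ℕ) (x : ℕ → ℝ),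
  SpC Ls X q nu → x ∈ Ls → (∀ c ∈ X, 0 ≤ x c) →
  ∃ (v : ℕ → ℕ → ℝ) (l : ℕ → ℝ), (∀ i < X.card, 0 ≤ l i ∧ (l i ≠ 0 → ElV Ls X nu (v i))) ∧
    (∀ c ∈ X, x c = ∑ i ∈ Finset.range X.card, l i * v i c) ∧
    x nu = ∑ i ∈ Finset.range X.card, l i ∧
    x q = ∑ i ∈ Finset.range X.card, l i * v i q

/-- The ratios of coordinates of elementary vectors have few scales. -/
def ScOn (r : ℕ) (Ls : Submodule ℝ (ℕ → ℝ)) (X : Finset ℕ) (nu : ℕ) : Prop :=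
  ∀ i ∈ X, ∀ j ∈ X, ∃ S : Finset ℝ, S.card ≤ r ∧ (∀ s ∈ S, 0 < s) ∧
    ∀ v, ElV Ls X nu v → v i ≠ 0 → v j ≠ 0 → ∃ s ∈ S, s ≤ v i / v j ∧ v i / v j ≤ 2 ^ r * s

/-- Between two consecutive points of `Z`, all functions `F e` are linear, of slope `0` or `1`. -/
def Kink (Ac : Finset ℕ) (q nu : ℕ) (F : ℕ → ℝ → ℝ) (Z : Finset ℝ) : Prop :=
  ∀ y₁ y₂ : ℝ, y₁ ≤ y₂ → (∀ z ∈ Z, z < y₁ ∨ y₂ < z) → ∃ σ : ℕ → Bool, σ nu = false ∧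
    σ q = true ∧ ∀ e ∈ Ac, ∀ y, y₁ ≤ y → y ≤ y₂ → F e y = F e y₁ + if σ e then y - y₁ else 0

/-- The structure of the bounds along the path. -/
def S_FST : Prop := ∀ (Ls : Submodule ℝ (ℕ → ℝ)) (X : Finset ℕ) (q nu r K : ℕ), 1 ≤ r →
  SpC Ls X q nu → X.card + 2 ≤ K → ScOn r Ls X nu →
  ∃ (Z : Finset ℝ) (F : ℕ → ℝ → ℝ), Z.card ≤ K * (K * r) ^ 2 ∧
    Kink (insert q (insert nu X)) q nu F Z ∧
    ∀ (t : ℝ) (w : ℕ → ℝ) (M ε : ℝ) (x : ℕ → ℝ), Wts X q nu t w → 0 < ε → ε ≤ 1 → 1 ≤ M →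
      Bds Ls X q nu t w M → Cen Ls X q nu t w ε x →
      ∀ e ∈ insert q (insert nu X), F e (Real.logb 2 t) ≤ Real.logb 2 (w e) ∧
        Real.logb 2 (w e) ≤ F e (Real.logb 2 t) + (r + Real.logb 2 (K ^ 2 * (1 + M) / ε))

/-! ### Counting -/

/-- The number of steps along the path. -/
def S_CNT : Prop := ∀ (ι : Type) (Bs : Finset ι) (ld : ι → ℝ) (S : ι → Finset ℕ)
  (Ac : Finset ℕ) (q nu N : ℕ) (Z : Finset ℝ) (F : ℕ → ℝ → ℝ) (C D c₁ : ℝ) (M : ℕ) (y : ℕ → ℝ)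
  (om : ℕ → ℕ → ℝ) (b : ℕ → ι), 0 ≤ C → 0 ≤ D → 0 ≤ c₁ →
  (∀ a ∈ Bs, S a ⊆ Ac ∧ (S a).card ≤ N) → Kink Ac q nu F Z →
  (∀ k < M, b k ∈ Bs ∧ (∀ e ∈ Ac, F e (y k) ≤ om k e ∧ om k e ≤ F e (y k) + C) ∧
    (∀ a ∈ Bs, ld a + ∑ e ∈ S a, om k e ≤ ld (b k) + ∑ e ∈ S (b k), om k e + D) ∧
    y (k + 1) ≤ y k - 1 ∧
    ∀ σ : ℕ → Bool, σ nu = false → σ q = true → ∃ a ∈ Bs, ∃ e ∈ S (b k), ∃ e' ∈ Ac,
      e' ∉ S (b k) ∧ S a = insert e' ((S (b k)).erase e) ∧ σ e ≠ σ e' ∧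
      (ld (b k) + ∑ f ∈ S (b k), om k f - c₁ ≤ ld a + ∑ f ∈ S a, om k f ∨
        (σ e = true ∧ σ e' = false ∧ ld (b k) + ∑ f ∈ S (b k), om k f - c₁ -
          (y k - y (k + 1)) ≤ ld a + ∑ f ∈ S a, om k f))) →
  (M : ℝ) ≤ 2 * Z.card + (2 * Z.card + 1) * ((N + 1) ^ 2 * (2 * (2 * N * C + D + c₁) + 2))

end Pool.Agent.Y648.CS
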