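import Pool.Agent.Y648.CS.Ut

set_option autoImplicit false

/-!
# Few scales of circuit ratios: the end of an iteration, tools
-/

namespace Pool.Agent.Y648.CS

open Pool.Agent.NPC Pool.Agent.H558R2 Pool.Agent.H622R3.SM Pool.Agent.W920.FC

namespace FN

theorem osg_nonneg (v : ℝ) : 0 ≤ osg (signOut v) ↔ 0 ≤ v := by
  unfold signOut
  rcases lt_trichotomy v 0 with h | h | h
  · rw [if_neg (not_lt.2 h.le), if_pos h]
    simp [osg, h]
  · rw [if_neg (by rw [h]; exact lt_irrefl _), if_neg (by rw [h]; exact lt_irrefl _)]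
    simp [osg, h]
  · rw [if_pos h]
    simp [osg, h.le]

theorem signOut_false (v : ℝ) : signOut v = some false ↔ v < 0 := by
  unfold signOut
  rcases lt_trichotomy v 0 with h | h | h
  · rw [if_neg (not_lt.2 h.le), if_pos h]
    simp [h]
  · rw [if_neg (by rw [h]; exact lt_irrefl _), if_neg (by rw [h]; exact lt_irrefl _)]
    simp [h]
  · rw [if_pos h]
    simp [h.le]

theorem getD_fm {α β : Type} (f : α → List β) (N : ℕ) (d : β) : ∀ (L : List α),
    (∀ a ∈ L, (f a).length = N) → ∀ (i j : ℕ) (hi : i < L.length), j < N →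
    (L.flatMap f).getD (i * N + j) d = (f L[i]).getD j d := by
  intro L
  induction L with
  | nil => intro _ i j hi; exact absurd hi (by simp)
  | cons a L ih =>
    intro h i j hi hj
    rw [List.flatMap_cons]
    cases i with
    | zero =>
      rw [List.getD_eq_getElem?_getD, List.getD_eq_getElem?_getD, Nat.zero_mul, Nat.zero_add,
        List.getElem?_append_left (by rw [h a (by simp)]; exact hj)]
      rfl
    | succ i =>
      have h1 := ih (fun b hb => h b (by simp [hb])) i j (by simpa using hi) hj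
      rw [List.getD_eq_getElem?_getD] at h1 ⊢
      rw [List.getElem?_append_right (by rw [h a (by simp)]; nlinarith)]
      have h2 : (i + 1) * N + j - (f a).length = i * N + j := by
        rw [h a (by simp), Nat.succ_mul]
        omega
      rw [h2, h1]
      rfl

/-- The values of the comparisons. -/
theorem forall_sq {m n : ℕ} {g : Reg → ℝ} {G : ℝ → Prop} (L : List Mo)
    (h : ∀ a ∈ L, ∀ b ∈ L, HasVal g G (cmpQ m n a b) (cmV m n g a b)) :
    List.Forall₂ (HasVal g G) (sqQs m n L) (L.flatMap fun u => L.map fun v => cmV m n g u v) := by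
  unfold sqQs
  have h2 : ∀ L' : List Mo, (∀ a ∈ L', a ∈ L) →
      List.Forall₂ (HasVal g G) (L'.flatMap fun u => L.map fun v => cmpQ m n u v)
        (L'.flatMap fun u => L.map fun v => cmV m n g u v) := by
    intro L'
    induction L' with
    | nil => intro _; exact List.Forall₂.nil
    | cons a L' ih =>
      intro hL
      rw [List.flatMap_cons, List.flatMap_cons]
      refine List.rel_append ?_ (ih fun b hb => hL b (by simp [hb]))
      rw [List.forall₂_map_left_iff, List.forall₂_map_right_iff, List.forall₂_same]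
      exact fun b hb => h a (hL a (by simp)) b hb
  exact h2 L fun a ha => ha

theorem sq_len {m n : ℕ} (L : List Mo) (c : ℕ)
    (h : ∀ a ∈ L, ∀ b ∈ L, (cmpQ m n a b).1.length ≤ c) :
    ((sqQs m n L).map fun q => q.1.length + 1).sum ≤ L.length * (L.length * (c + 1)) := by
  have h1 : ∀ x ∈ (sqQs m n L).map (fun q : Qry => q.1.length + 1), x ≤ c + 1 := by
    intro x hx
    obtain ⟨q, hq, rfl⟩ := List.mem_map.1 hx
    unfold sqQs at hq
    obtain ⟨a, ha, hq⟩ := List.mem_flatMap.1 hq
    obtain ⟨b, hb, rfl⟩ := List.mem_map.1 hq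
    exact Nat.succ_le_succ (h a ha b hb)
  have h2 := List.sum_le_card_nsmul _ _ h1
  have h3 : (sqQs m n L).length = L.length * L.length := by
    unfold sqQs
    rw [List.length_flatMap]
    simp
  rw [List.length_map, h3, smul_eq_mul, mul_assoc] at h2
  exact h2

/-- The first maximal element. -/
theorem argmax_spec (L : List Mo) (val : Mo → ℝ) (o : List Outcome) (hne : L ≠ [])
    (h : ∀ (i j : ℕ) (hi : i < L.length) (hj : j < L.length),
      o.getD (i * L.length + j) none = signOut (val L[i] - val L[j])) :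
    argmax L o ∈ L ∧ ∀ v ∈ L, val v ≤ val (argmax L o) := by
  have hpos : 0 < L.length := List.length_pos_iff.2 hne
  -- a maximal index
  obtain ⟨i0, hi0⟩ : ∃ i : Fin L.length, ∀ j : Fin L.length, val L[j] ≤ val L[i] := by
    have : Nonempty (Fin L.length) := ⟨⟨0, hpos⟩⟩
    exact Finite.exists_max fun i : Fin L.length => val L[i]
  have hmem : (i0 : ℕ) ∈ (List.range L.length).filter fun i => (List.range L.length).all fun j =>
      decide (0 ≤ osg (o.getD (i * L.length + j) none)) := by
    rw [List.mem_filter]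
    refine ⟨List.mem_range.2 i0.2, ?_⟩
    rw [List.all_eq_true]
    intro j hj
    rw [decide_eq_true_eq, h i0 j i0.2 (List.mem_range.1 hj), osg_nonneg, sub_nonneg]
    exact hi0 ⟨j, List.mem_range.1 hj⟩
  unfold argmax
  obtain ⟨i1, hi1⟩ : ∃ i1, ((List.range L.length).filter fun i => (List.range L.length).all fun j =>
      decide (0 ≤ osg (o.getD (i * L.length + j) none))).head? = some i1 := by
    cases hh : ((List.range L.length).filter fun i => (List.range L.length).all fun j =>
      decide (0 ≤ osg (o.getD (i * L.length + j) none))) with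
    | nil => rw [hh] at hmem; exact absurd hmem (by simp)
    | cons a s => exact ⟨a, rfl⟩
  rw [hi1]
  have hm1 := List.mem_of_mem_head? (by rw [hi1]; rfl : i1 ∈ ((List.range L.length).filter fun i =>
    (List.range L.length).all fun j => decide (0 ≤ osg (o.getD (i * L.length + j) none))).head?)
  rw [List.mem_filter, List.mem_range, List.all_eq_true] at hm1
  have he : L.getD ((some i1).getD 0) moOne = L[i1]'hm1.1 := by
    rw [Option.getD_some, List.getD_eq_getElem _ _ hm1.1]
  rw [he]
  refine ⟨List.getElem_mem _, fun v hv => ?_⟩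
  obtain ⟨j, hj, rfl⟩ := List.getElem_of_mem hv
  have h2 := hm1.2 j (List.mem_range.2 hj)
  rw [decide_eq_true_eq, h i1 j hm1.1 hj, osg_nonneg, sub_nonneg] at h2
  exact h2

theorem bf_set {n : ℕ} {β : List ℕ} (hl : β.length = n + 2) (k : Fin (n + 2)) (c : ℕ) :
    bf n (β.set k c) = Function.update (bf n β) k c := by
  funext j
  unfold bf
  rw [Function.update_apply, List.getD_eq_getElem?_getD, List.getElem?_set]
  by_cases h : j = k
  · subst h
    rw [if_pos rfl, if_pos (by rw [hl]; exact j.2), if_pos rfl]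
    rfl
  · rw [if_neg (fun h1 => h (Fin.ext h1.symm)), if_neg h, List.getD_eq_getElem?_getD]

/-! ### Numbers -/

/-- Bounds for the constants, with `P = 2 ^ K` and `Q = 2 ^ (K * K)`. -/
theorem nums (m n : ℕ) : ∃ P Q H : ℝ, 0 < P ∧ 0 < Q ∧ 0 < H ∧ 4096 ≤ P ∧
    4 * (cD m n : ℝ) < P * P ∧ P ^ 12 ≤ Q ∧ H ≤ Q ^ 8 ∧ 1 ≤ H ∧
    epR m n = 1 / P ^ 2 ∧ MR m n = P ^ 2 ∧ M0R m n = P ^ 6 ∧ dlR m n = 1 / Q ^ 32 ∧
    (2 : ℝ) ^ cE m n = P ^ 8 ∧ (2 : ℝ) ^ cJ m n = Q ^ 24 ∧ (2 : ℝ) ^ cC m n = Q ^ 64 ∧
    (2 : ℝ) ^ cW m n = P ^ 6 ∧ (2 : ℝ) ^ (2 * cE m n * (m + m + 2)) = H := by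
  have hK : 12 ≤ cD m n := by unfold cD cK; omega
  have hK2 : 2 * (m + m + 2) ≤ cD m n := by unfold cD cK; omega
  refine ⟨2 ^ cD m n, 2 ^ (cD m n * cD m n), 2 ^ (2 * cE m n * (m + m + 2)), by positivity,
    by positivity, by positivity, ?_, ?_, ?_, ?_, ?_, ?_, ?_, ?_, ?_, ?_, ?_, ?_, ?_, rfl⟩
  · calc (4096 : ℝ) = 2 ^ 12 := by norm_num
      _ ≤ 2 ^ cD m n := pow_le_pow_right₀ (by norm_num) hK
  · have h1 : ((cD m n : ℕ) : ℝ) < 2 ^ cD m n := by
      exact_mod_cast Nat.lt_two_pow_self
    have h2 : (4 : ℝ) ≤ 2 ^ cD m n := by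
      calc (4 : ℝ) = 2 ^ 2 := by norm_num
        _ ≤ 2 ^ cD m n := pow_le_pow_right₀ (by norm_num) (by omega)
    have h3 : (0 : ℝ) ≤ ((cD m n : ℕ) : ℝ) := Nat.cast_nonneg _
    nlinarith
  · rw [← pow_mul]
    exact pow_le_pow_right₀ (by norm_num) (by nlinarith)
  · rw [← pow_mul]
    refine pow_le_pow_right₀ (by norm_num) ?_
    unfold cE
    nlinarith
  · exact one_le_pow₀ (by norm_num)
  · unfold epR
    rw [one_div_pow, ← pow_mul]
    ring_nf
  · unfold MR
    rw [← pow_mul]
    ring_nf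
  · unfold M0R cW
    rw [← pow_mul]
    ring_nf
  · unfold dlR
    rw [one_div_pow, ← pow_mul]
    ring_nf
  · unfold cE
    rw [← pow_mul]
    ring_nf
  · unfold cJ
    rw [← pow_mul]
    ring_nf
  · unfold cC
    rw [← pow_mul]
    ring_nf
  · unfold cW
    rw [← pow_mul]
    ring_nf

end FN

end Pool.Agent.Y648.CS
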