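import Pool.Agent.Y648.CS.T_FIN1

set_option autoImplicit false

/-!
# Few scales of circuit ratios: the end of an iteration, the graph
-/

namespace Pool.Agent.Y648.CS

open Pool.Agent.NPC Pool.Agent.H558R2 Pool.Agent.H622R3.SM Pool.Agent.W920.FC

namespace FN

theorem hop_ne {m n p : ℕ} {drop : List Bool} {β : List ℕ} {o : List Outcome} {u v : ℕ} :
    hop m n p drop β o u v ≠ [] ↔ ∃ k < n + 2, (β.getD k 0 = u ∧ edge m drop β o k v = true) ∨
      (β.getD k 0 = v ∧ edge m drop β o k u = true) := by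
  unfold hop
  rw [Ne, List.flatMap_eq_nil_iff]
  push Not
  constructor
  · rintro ⟨k, hk, h⟩
    refine ⟨k, List.mem_range.1 hk, ?_⟩
    by_contra hcon
    push Not at hcon
    apply h
    rw [if_neg, if_neg]
    · rfl
    · rw [Bool.and_eq_true, decide_eq_true_eq]
      exact fun h1 => hcon.2 h1.1 h1.2
    · rw [Bool.and_eq_true, decide_eq_true_eq]
      exact fun h1 => hcon.1 h1.1 h1.2
  · rintro ⟨k, hk, h⟩
    refine ⟨k, List.mem_range.2 hk, ?_⟩
    rcases h with h | h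
    · rw [if_pos (by rw [Bool.and_eq_true, decide_eq_true_eq]; exact h)]
      simp
    · rw [if_pos (c := (decide (β.getD k 0 = v) && edge m drop β o k u) = true)
        (by rw [Bool.and_eq_true, decide_eq_true_eq]; exact h)]
      simp

theorem hop_symm {m n p : ℕ} {drop : List Bool} {β : List ℕ} {o : List Outcome} {u v : ℕ}
    (h : hop m n p drop β o u v ≠ []) : hop m n p drop β o v u ≠ [] := by
  rw [hop_ne] at h ⊢
  obtain ⟨k, hk, h | h⟩ := h
  · exact ⟨k, hk, Or.inr h⟩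
  · exact ⟨k, hk, Or.inl h⟩

/-- All assumptions. -/
structure Hy (m n p : ℕ) (g : Reg → ℝ) (drop : List Bool) (t : ℝ) (w : ℕ → ℝ) (β : List ℕ)
    (o : List Outcome) (l : Lab) (x : ℕ → ℝ) : Prop where
  wts : Wts (Xc m drop) (m + m) (m + m + 1) t w
  bds : Bds (Lsp m n p g drop) (Xc m drop) (m + m) (m + m + 1) t w (MR m n)
  cen : Cen (Lsp m n p g drop) (Xc m drop) (m + m) (m + m + 1) t w (epR m n) x
  gre : Greedy (cl m n p g) (un m n) (Acs m drop) w (bf n β)
  len : β.length = n + 2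
  gr : GrOK m n p g drop w β o
  lab : LabOK m n p g drop t w β o l

/-- The tableau. -/
noncomputable def Tt (m n p : ℕ) (g : Reg → ℝ) (β : List ℕ) (i c : ℕ) : ℝ :=
  open Classical in
  if h : ∃ k, bf n β k = i then
    - (cdet (cl m n p g) (Function.update (bf n β) h.choose c) / cdet (cl m n p g) (bf n β))
  else 0

/-- The rows of the tableau. -/
noncomputable def bS (m n : ℕ) (drop : List Bool) (β : List ℕ) : Finset ℕ :=
  open Classical in (Acs m drop).filter fun c => ∃ k, bf n β k = c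

/-- The facts on the tableau. -/
structure Ta (m n p : ℕ) (g : Reg → ℝ) (drop : List Bool) (w : ℕ → ℝ) (β : List ℕ) : Prop where
  dne : cdet (cl m n p g) (bf n β) ≠ 0
  inj : Function.Injective (bf n β)
  tab : Tab (Lsp m n p g drop) (Acs m drop) (bS m n drop β) (Tt m n p g β)
  ev : ∀ k c, Tt m n p g β (bf n β k) c =
    - (cdet (cl m n p g) (Function.update (bf n β) k c) / cdet (cl m n p g) (bf n β))

theorem mk_ta (hG : S_GRD) (hL : S_LSP) {m n p : ℕ} {g : Reg → ℝ} {drop : List Bool} {t : ℝ}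
    {w : ℕ → ℝ} {β : List ℕ} {o : List Outcome} {l : Lab} {x : ℕ → ℝ}
    (h : Hy m n p g drop t w β o l x) : Ta m n p g drop w β := by
  obtain ⟨h1, -, -, h2, h3, -, -⟩ := hL m n p g drop
  have hpos : ∀ c ∈ Acs m drop, 0 < w c := by
    intro c hc
    unfold Acs at hc
    rcases Finset.mem_insert.1 hc with hc | hc
    · rw [hc, h.wts.2.2.2.2.2.1]; exact h.wts.2.2.2.1
    rcases Finset.mem_insert.1 hc with hc | hc
    · rw [hc, h.wts.2.2.2.2.2.2]; exact one_pos
    · exact h.wts.2.2.2.2.1 c hc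
  obtain ⟨h4, h5, -, -, h6⟩ := hG (n + 2) (cl m n p g) (un m n) (Acs m drop) w (bf n β) h2 hpos h.gre
  have hev : ∀ k c, Tt m n p g β (bf n β k) c =
      - (cdet (cl m n p g) (Function.update (bf n β) k c) / cdet (cl m n p g) (bf n β)) := by
    intro k c
    have hex : ∃ k', bf n β k' = bf n β k := ⟨k, rfl⟩
    have hch : hex.choose = k := h5 hex.choose_spec
    unfold Tt
    rw [dif_pos hex, hch]
  refine ⟨h4, h5, ?_, hev⟩
  have h7 := h6 (Lsp m n p g drop) h3 (Tt m n p g β) fun k _ c => hev k c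
  exact h7

theorem mem_bS {m n : ℕ} {drop : List Bool} {β : List ℕ} {c : ℕ} :
    c ∈ bS m n drop β ↔ c ∈ Acs m drop ∧ ∃ k, bf n β k = c := by
  unfold bS
  exact Finset.mem_filter

theorem mem_acs {m : ℕ} {drop : List Bool} {c : ℕ} :
    c ∈ Acs m drop ↔ c = m + m ∨ c = m + m + 1 ∨ c ∈ Xc m drop := by
  unfold Acs
  rw [Finset.mem_insert, Finset.mem_insert]

theorem acs_lt {m : ℕ} {drop : List Bool} {c : ℕ} (h : c ∈ Acs m drop) : c < m + m + 2 := by
  rcases mem_acs.1 h with h | h | h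
  · omega
  · omega
  · have := Finset.mem_range.1 (Finset.mem_filter.1 h).1
    omega

theorem wpos {m n p : ℕ} {g : Reg → ℝ} {drop : List Bool} {t : ℝ}
    {w : ℕ → ℝ} {β : List ℕ} {o : List Outcome} {l : Lab} {x : ℕ → ℝ}
    (h : Hy m n p g drop t w β o l x) {c : ℕ} (hc : c ∈ Acs m drop) : 0 < w c := by
  rcases mem_acs.1 hc with hc | hc | hc
  · rw [hc, h.wts.2.2.2.2.2.1]; exact h.wts.2.2.2.1
  · rw [hc, h.wts.2.2.2.2.2.2]; exact one_pos
  · exact h.wts.2.2.2.2.1 c hc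

/-- The conditions for an entry of the tableau. -/
theorem pos_iff (hL : S_LSP) {m n p : ℕ} {g : Reg → ℝ} {drop : List Bool} {t : ℝ}
    {w : ℕ → ℝ} {β : List ℕ} {o : List Outcome} {l : Lab} {x : ℕ → ℝ}
    (h : Hy m n p g drop t w β o l x) (k : Fin (n + 2)) {c : ℕ} (hc : c < m + m + 2) :
    pos m drop β k c = true ↔ bf n β k ∈ Acs m drop ∧ c ∈ Acs m drop ∧ ∀ l, bf n β l ≠ c := by
  obtain ⟨-, -, -, h2, -, -, h7⟩ := hL m n p g drop
  unfold pos
  rw [Bool.and_eq_true, Bool.and_eq_true, decide_eq_true_eq, ← h7 c hc]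
  constructor
  · rintro ⟨h3, h4, h5⟩
    refine ⟨?_, h4, ?_⟩
    · rcases h.gre k with h6 | h6
      · exact h6.1
      · exfalso
        have h8 := h6.1
        unfold bf un at h8
        omega
    · intro j hj
      rw [Bool.not_eq_true', decide_eq_false_iff_not] at h5
      apply h5
      rw [← hj]
      unfold bf
      rw [List.getD_eq_getElem _ _ (by rw [h.len]; exact j.2)]
      exact List.getElem_mem _
  · rintro ⟨h3, h4, h5⟩
    refine ⟨acs_lt h3, h4, ?_⟩
    rw [Bool.not_eq_true', decide_eq_false_iff_not]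
    intro hmem
    obtain ⟨j, hj, hj2⟩ := List.getElem_of_mem hmem
    refine h5 ⟨j, by rw [← h.len]; exact hj⟩ ?_
    unfold bf
    rw [List.getD_eq_getElem _ _ hj]
    exact hj2

/-- An edge gives an exchange. -/
theorem edge_ex (hL : S_LSP) {m n p : ℕ} {g : Reg → ℝ} {drop : List Bool} {t : ℝ}
    {w : ℕ → ℝ} {β : List ℕ} {o : List Outcome} {l : Lab} {x : ℕ → ℝ}
    (h : Hy m n p g drop t w β o l x) {u v : ℕ} (hu : u < m + m + 2) (hv : v < m + m + 2)
    (hh : hop m n p drop β o u v ≠ []) : ∃ k : Fin (n + 2), ∃ c, bf n β k ∈ Acs m drop ∧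
      c ∈ Acs m drop ∧ (∀ l, bf n β l ≠ c) ∧ ((bf n β k = u ∧ c = v) ∨ (bf n β k = v ∧ c = u)) ∧
      |cdet (cl m n p g) (bf n β)| * w (bf n β k) ≤
        2 ^ cE m n * (|cdet (cl m n p g) (Function.update (bf n β) k c)| * w c) := by
  rw [hop_ne] at hh
  obtain ⟨k, hk, h1 | h1⟩ := hh
  · have h2 := (h.gr ⟨k, hk⟩ v hv).2.1 h1.2
    have h3 := (pos_iff hL h ⟨k, hk⟩ hv).1 h2.1
    exact ⟨⟨k, hk⟩, v, h3.1, h3.2.1, h3.2.2, Or.inl ⟨h1.1, rfl⟩, h2.2⟩
  · have h2 := (h.gr ⟨k, hk⟩ u hu).2.1 h1.2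
    have h3 := (pos_iff hL h ⟨k, hk⟩ hu).1 h2.1
    exact ⟨⟨k, hk⟩, u, h3.1, h3.2.1, h3.2.2, Or.inr ⟨h1.1, rfl⟩, h2.2⟩

/-- Without an edge the entry of the tableau is small. -/
theorem noedge (hL : S_LSP) {m n p : ℕ} {g : Reg → ℝ} {drop : List Bool} {t : ℝ}
    {w : ℕ → ℝ} {β : List ℕ} {o : List Outcome} {l : Lab} {x : ℕ → ℝ}
    (h : Hy m n p g drop t w β o l x) (ht : Ta m n p g drop w β) {P : ℝ} (hP : 0 < P)
    (hPE : (2 : ℝ) ^ cE m n = P ^ 8) {i j : ℕ} (hi : i ∈ bS m n drop β)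
    (hj : j ∈ Acs m drop \ bS m n drop β) (hh : hop m n p drop β o i j = []) :
    |Tt m n p g β i j| * w j ≤ 1 / P ^ 8 * w i := by
  obtain ⟨hi1, k, hk⟩ := mem_bS.1 hi
  obtain ⟨hj1, hj2⟩ := Finset.mem_sdiff.1 hj
  have hj3 : ∀ l, bf n β l ≠ j := fun l hl => hj2 (mem_bS.2 ⟨hj1, l, hl⟩)
  have hne : ¬ (edge m drop β o k j = true) := by
    intro he
    have : hop m n p drop β o i j ≠ [] := hop_ne.2 ⟨k, k.2, Or.inl ⟨hk, he⟩⟩
    exact this hh
  have hp : pos m drop β k j = true := (pos_iff hL h k (acs_lt hj1)).2 ⟨by rw [hk]; exact hi1, hj1, hj3⟩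
  have h1 : ¬ (|cdet (cl m n p g) (bf n β)| * w (bf n β k) ≤
        2 ^ cE m n * (|cdet (cl m n p g) (Function.update (bf n β) k j)| * w j)) := by
    intro h2
    exact hne ((h.gr k j (acs_lt hj1)).2.2 ⟨hp, h2⟩)
  rw [not_le, hPE, hk] at h1
  rw [← hk, ht.ev, abs_neg, abs_div, hk]
  have h3 : 0 < |cdet (cl m n p g) (bf n β)| := abs_pos.2 ht.dne
  rw [div_mul_eq_mul_div, div_le_iff₀ h3, div_mul_eq_mul_div, div_mul_eq_mul_div, one_mul,
    le_div_iff₀ (by positivity)]
  nlinarith [h1.le]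

/-- All columns have labels. -/
theorem all_lab (hC : S_COMP) (hL : S_LSP) {m n p : ℕ} {g : Reg → ℝ} {drop : List Bool} {t : ℝ}
    {w : ℕ → ℝ} {β : List ℕ} {o : List Outcome} {l : Lab} {x : ℕ → ℝ}
    (h : Hy m n p g drop t w β o l x) (ht : Ta m n p g drop w β) :
    ∀ c ∈ Acs m drop, isL l true c = true ∨ isL l false c = true := by
  obtain ⟨P, Q, H, hP, -, -, hP4, hPK, -, -, -, heP, hMR, -, -, hPE, -, -, -, -⟩ := nums m n
  by_contra hcon
  push Not at hcon
  obtain ⟨c0, hc0, hc1, hc2⟩ := hcon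
  have hc0X : c0 ∈ Xc m drop := by
    rcases mem_acs.1 hc0 with h1 | h1 | h1
    · rw [h1] at hc1
      exact absurd h.lab.1 hc1
    · rw [h1] at hc2
      exact absurd h.lab.2.1 hc2
    · exact h1
  obtain ⟨h1, h1', -, -, -, -, -⟩ := hL m n p g drop
  have hP1 : (1 : ℝ) ≤ P := by linarith
  refine hC (Lsp m n p g drop) (Xc m drop) (m + m) (m + m + 1) t w (MR m n) (epR m n)
    (1 / P ^ 8) (cD m n) (bS m n drop β) (Tt m n p g β) x
    ((Xc m drop).filter fun c => ¬ (isL l true c = true ∨ isL l false c = true))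
    h.wts h1' (by rw [heP]; positivity) ?_ (by rw [hMR]; exact one_le_pow₀ hP1)
    (by positivity) ?_ h.bds h.cen ht.tab (Finset.filter_subset _ _)
    ⟨c0, Finset.mem_filter.2 ⟨hc0X, fun h2 => h2.elim hc1 hc2⟩⟩ ?_
  · rw [heP, div_le_one (by positivity)]
    exact one_le_pow₀ hP1
  · rw [hMR, heP]
    have h2 : 4 * (cD m n : ℝ) * (1 / P ^ 8) * P ^ 2 = 4 * (cD m n : ℝ) / P ^ 6 := by
      field_simp
    rw [h2, div_pow, one_pow, ← pow_mul, div_lt_div_iff₀ (by positivity) (by positivity)]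
    have h3 : P ^ 6 = P * P * P ^ (2 * 2) := by ring
    rw [h3, one_mul]
    exact mul_lt_mul_of_pos_right hPK (by positivity)
  · intro i hi j hj hij
    by_contra hcon
    have hne : hop m n p drop β o i j ≠ [] := fun h2 => hcon (noedge hL h ht hP hPE hi hj h2)
    have hi1 := (mem_bS.1 hi).1
    have hj1 := (Finset.mem_sdiff.1 hj).1
    have hU : ∀ c ∈ Acs m drop, c ∈ ((Xc m drop).filter fun c =>
        ¬ (isL l true c = true ∨ isL l false c = true)) ↔
        ¬ (isL l true c = true ∨ isL l false c = true) := by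
      intro c hc
      rw [Finset.mem_filter]
      refine ⟨fun h2 => h2.2, fun h2 => ⟨?_, h2⟩⟩
      rcases mem_acs.1 hc with h3 | h3 | h3
      · rw [h3] at h2
        exact absurd (Or.inl h.lab.1) h2
      · rw [h3] at h2
        exact absurd (Or.inr h.lab.2.1) h2
      · exact h3
    rw [hU i hi1, hU j hj1, not_not] at hij
    have h3 : (isL l true i = true ∨ isL l false i = true) →
        (isL l true j = true ∨ isL l false j = true) := fun h4 =>
      h.lab.2.2.2.1 i j h4 (acs_lt hj1) hne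
    have h4 : (isL l true j = true ∨ isL l false j = true) →
        (isL l true i = true ∨ isL l false i = true) := fun h4 =>
      h.lab.2.2.2.1 j i h4 (acs_lt hi1) (hop_symm hne)
    tauto

end FN

end Pool.Agent.Y648.CS
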