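import Pool.Agent.Y648.CS.T_FIN2

set_option autoImplicit false

/-!
# Few scales of circuit ratios: the end of an iteration, the cases
-/

namespace Pool.Agent.Y648.CS

open Pool.Agent.NPC Pool.Agent.H558R2 Pool.Agent.H622R3.SM Pool.Agent.W920.FC

namespace FN

theorem MoS.mul {e e' l l' : ℕ} {a b : Mo} (ha : MoS e l a) (hb : MoS e' l' b) :
    MoS (e + e') (l + l') (moMul a b) := by
  obtain ⟨h1, h2, h3, h4⟩ := ha
  obtain ⟨h5, h6, h7, h8⟩ := hb
  refine ⟨?_, ?_, ?_, ?_⟩ <;> simp only [moMul, List.length_append] <;> omega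

theorem MoS.inv {e l : ℕ} {a : Mo} (ha : MoS e l a) : MoS e l (moInv a) := by
  obtain ⟨h1, h2, h3, h4⟩ := ha
  exact ⟨h2, h1, h4, h3⟩

theorem MoS.two (e : ℕ) : MoS e 0 (moTwo e) := by
  refine ⟨?_, ?_, ?_, ?_⟩ <;> simp [moTwo]

theorem MoS.rat (x y : Mn) : MoS 0 1 (moRat x y) := by
  refine ⟨?_, ?_, ?_, ?_⟩ <;> simp [moRat]

theorem MoS.mono {e e' l l' : ℕ} {a : Mo} (he : e ≤ e') (hl : l ≤ l') (ha : MoS e l a) :
    MoS e' l' a :=
  ⟨ha.1.trans he, ha.2.1.trans he, ha.2.2.1.trans hl, ha.2.2.2.trans hl⟩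

theorem mem_crs {m n p : ℕ} {drop : List Bool} {β : List ℕ} {o : List Outcome} {l : Lab}
    {a : Mo} : a ∈ crs m n p drop β o l ↔ ∃ k < n + 2, ∃ c < m + m + 2,
      nz m drop β o k c = true ∧ isL l true (β.getD k 0) = true ∧ isL l false c = true ∧
      a = moMul (tM p β k c) (moMul (lbW l c) (moInv (lbW l (β.getD k 0)))) := by
  unfold crs
  rw [List.mem_flatMap]
  constructor
  · rintro ⟨k, hk, ha⟩
    obtain ⟨c, hc, ha⟩ := List.mem_flatMap.1 ha
    by_cases hcond : (nz m drop β o k c && (isL l true (β.getD k 0) && isL l false c)) = true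
    · rw [if_pos hcond] at ha
      rw [Bool.and_eq_true, Bool.and_eq_true] at hcond
      exact ⟨k, List.mem_range.1 hk, c, List.mem_range.1 hc, hcond.1, hcond.2.1, hcond.2.2,
        List.mem_singleton.1 ha⟩
    · rw [if_neg hcond] at ha
      exact absurd ha (by simp)
  · rintro ⟨k, hk, c, hc, h1, h2, h3, rfl⟩
    refine ⟨k, List.mem_range.2 hk, List.mem_flatMap.2 ⟨c, List.mem_range.2 hc, ?_⟩⟩
    rw [if_pos (by rw [h1, h2, h3]; rfl)]
    exact List.mem_singleton.2 rfl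

theorem crs_len {m n p : ℕ} {drop : List Bool} {β : List ℕ} {o : List Outcome} {l : Lab} :
    (crs m n p drop β o l).length ≤ (n + 2) * (m + m + 2) := by
  unfold crs
  rw [List.length_flatMap]
  refine (List.sum_le_card_nsmul _ (m + m + 2) ?_).trans ?_
  · intro x hx
    obtain ⟨k, -, rfl⟩ := List.mem_map.1 hx
    rw [List.length_flatMap]
    refine (List.sum_le_card_nsmul _ 1 ?_).trans ?_
    · intro y hy
      obtain ⟨c, -, rfl⟩ := List.mem_map.1 hy
      split_ifs <;> simp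
    · simp
  · simp

/-- A cross entry of the tableau, `a` being the corresponding monomial. -/
def CrF (m n p : ℕ) (g : Reg → ℝ) (drop : List Bool) (β : List ℕ) (l : Lab) (a : Mo)
    (k : Fin (n + 2)) (c : ℕ) : Prop :=
  bf n β k ∈ Acs m drop ∧ c ∈ Acs m drop ∧ (∀ j, bf n β j ≠ c) ∧
  isL l true (bf n β k) = true ∧ isL l false c = true ∧
  cdet (cl m n p g) (Function.update (bf n β) k c) ≠ 0 ∧
  MoOK m n g a ∧ moV m n g a ≠ 0 ∧ MoS (2 * (m + m + 2) * cE m n) (1 + 2 * (m + m + 2)) a ∧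
  |moV m n g a| * (|cdet (cl m n p g) (bf n β)| * |moV m n g (lbW l (bf n β k))|) =
    |cdet (cl m n p g) (Function.update (bf n β) k c)| * |moV m n g (lbW l c)|

theorem lb_ne {m n p : ℕ} {g : Reg → ℝ} {drop : List Bool} {t : ℝ}
    {w : ℕ → ℝ} {β : List ℕ} {o : List Outcome} {l : Lab} {x : ℕ → ℝ}
    (h : Hy m n p g drop t w β o l x) {b : Bool} {c : ℕ} (hc : isL l b c = true) :
    moV m n g (lbW l c) ≠ 0 := by
  obtain ⟨h1, -, -, -, h2, -⟩ := h.lab.2.2.1 c b hc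
  intro h3
  rw [h3, abs_zero, zero_mul] at h2
  exact absurd (wpos h h1) (not_lt.2 h2)

theorem mk_crf (hL : S_LSP) (hM : S_MOV) {m n p : ℕ} {g : Reg → ℝ} {drop : List Bool} {t : ℝ}
    {w : ℕ → ℝ} {β : List ℕ} {o : List Outcome} {l : Lab} {x : ℕ → ℝ}
    (h : Hy m n p g drop t w β o l x) (ht : Ta m n p g drop w β) {k c : ℕ} (hk : k < n + 2)
    (hc : c < m + m + 2) (h1 : nz m drop β o k c = true) (h2 : isL l true (β.getD k 0) = true)
    (h3 : isL l false c = true) :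
    CrF m n p g drop β l (moMul (tM p β k c) (moMul (lbW l c) (moInv (lbW l (β.getD k 0)))))
      ⟨k, hk⟩ c := by
  obtain ⟨-, -, -, -, -, hmv, -⟩ := hL m n p g drop
  obtain ⟨-, -, -, hmul, hmulok, -, hinv, hrat, -, -, -⟩ := hM m n g
  obtain ⟨h4, h5⟩ := (h.gr ⟨k, hk⟩ c hc).1.1 h1
  obtain ⟨h6, h7, h8⟩ := (pos_iff hL h ⟨k, hk⟩ hc).1 h4
  have hset := bf_set h.len ⟨k, hk⟩ c
  have hv1 : mv m n g (p, β.set k c) =
      (-1) ^ (n + 1) * cdet (cl m n p g) (Function.update (bf n β) ⟨k, hk⟩ c) := by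
    rw [hmv, hset]
  have hv2 : mv m n g (p, β) = (-1) ^ (n + 1) * cdet (cl m n p g) (bf n β) := hmv β
  have hl1 := lb_ne h h2
  have hl2 := lb_ne h h3
  have hne1 : ((-1 : ℝ)) ^ (n + 1) ≠ 0 := pow_ne_zero _ (by norm_num)
  have hab : |((-1 : ℝ)) ^ (n + 1)| = 1 := by rw [abs_pow]; simp
  have hokr : MoOK m n g (tM p β k c) := by
    intro y hy
    unfold tM moRat at hy
    rw [List.mem_singleton] at hy
    rw [hy, hv2]
    exact mul_ne_zero hne1 ht.dne
  have hvr : |moV m n g (tM p β k c)| = |cdet (cl m n p g) (Function.update (bf n β) ⟨k, hk⟩ c)| /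
      |cdet (cl m n p g) (bf n β)| := by
    unfold tM
    rw [hrat, hv1, hv2, abs_div, abs_mul, abs_mul, hab, one_mul, one_mul]
  obtain ⟨-, -, hok1, hs1, -, -⟩ := h.lab.2.2.1 _ _ h2
  obtain ⟨-, -, hok2, hs2, -, -⟩ := h.lab.2.2.1 _ _ h3
  have hD : |cdet (cl m n p g) (bf n β)| ≠ 0 := abs_ne_zero.2 ht.dne
  have hD' : |cdet (cl m n p g) (Function.update (bf n β) ⟨k, hk⟩ c)| ≠ 0 := abs_ne_zero.2 h5
  have hval : |moV m n g (moMul (tM p β k c) (moMul (lbW l c) (moInv (lbW l (β.getD k 0)))))| =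
      |cdet (cl m n p g) (Function.update (bf n β) ⟨k, hk⟩ c)| / |cdet (cl m n p g) (bf n β)| *
        (|moV m n g (lbW l c)| * |moV m n g (lbW l (β.getD k 0))|⁻¹) := by
    rw [hmul, hmul, abs_mul, abs_mul, hvr, (hinv _).1]
  refine ⟨h6, h7, h8, h2, h3, h5, ?_, ?_, ?_, ?_⟩
  · exact hmulok _ _ hokr (hmulok _ _ hok2 ((hinv _).2 hok1 hl1))
  · rw [← abs_ne_zero, hval]
    exact mul_ne_zero (div_ne_zero hD' hD) (mul_ne_zero (abs_ne_zero.2 hl2)
      (inv_ne_zero (abs_ne_zero.2 hl1)))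
  · refine MoS.mono ?_ ?_ (MoS.mul (MoS.rat _ _) (MoS.mul hs2 (MoS.inv hs1)))
    · rw [Nat.zero_add, mul_assoc, two_mul]
    · omega
  · rw [hval]
    have hl1' : |moV m n g (lbW l (β.getD k 0))| ≠ 0 := abs_ne_zero.2 hl1
    show _ / _ * (_ * |moV m n g (lbW l (β.getD k 0))|⁻¹) *
      (_ * |moV m n g (lbW l (β.getD k 0))|) = _
    field_simp

theorem crs_crf (hL : S_LSP) (hM : S_MOV) {m n p : ℕ} {g : Reg → ℝ} {drop : List Bool} {t : ℝ}
    {w : ℕ → ℝ} {β : List ℕ} {o : List Outcome} {l : Lab} {x : ℕ → ℝ}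
    (h : Hy m n p g drop t w β o l x) (ht : Ta m n p g drop w β) {a : Mo}
    (ha : a ∈ crs m n p drop β o l) : ∃ k c, CrF m n p g drop β l a k c := by
  obtain ⟨k, hk, c, hc, h1, h2, h3, rfl⟩ := mem_crs.1 ha
  exact ⟨⟨k, hk⟩, c, mk_crf hL hM h ht hk hc h1 h2 h3⟩

/-- The entries of the tableau from labels `false` to labels `true` are given by `crs`. -/
theorem T_crs (hL : S_LSP) (hM : S_MOV) {m n p : ℕ} {g : Reg → ℝ} {drop : List Bool} {t : ℝ}
    {w : ℕ → ℝ} {β : List ℕ} {o : List Outcome} {l : Lab} {x : ℕ → ℝ}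
    (h : Hy m n p g drop t w β o l x) (ht : Ta m n p g drop w β) {i j : ℕ}
    (hi : i ∈ bS m n drop β) (hj : j ∈ Acs m drop \ bS m n drop β)
    (hi2 : isL l true i = true) (hj2 : isL l false j = true) (hT : Tt m n p g β i j ≠ 0) :
    ∃ a ∈ crs m n p drop β o l,
      |moV m n g a| * |moV m n g (lbW l i)| = |Tt m n p g β i j| * |moV m n g (lbW l j)| := by
  obtain ⟨hi1, k, hk⟩ := mem_bS.1 hi
  obtain ⟨hj1, hj3⟩ := Finset.mem_sdiff.1 hj
  have hj4 : ∀ l, bf n β l ≠ j := fun l hl => hj3 (mem_bS.2 ⟨hj1, l, hl⟩)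
  subst hk
  have hD : |cdet (cl m n p g) (bf n β)| ≠ 0 := abs_ne_zero.2 ht.dne
  rw [ht.ev] at hT ⊢
  have hne : cdet (cl m n p g) (Function.update (bf n β) k j) ≠ 0 := by
    intro h1
    apply hT
    rw [h1, zero_div, neg_zero]
  have hnz : nz m drop β o k j = true := (h.gr k j (acs_lt hj1)).1.2
    ⟨(pos_iff hL h k (acs_lt hj1)).2 ⟨hi1, hj1, hj4⟩, hne⟩
  refine ⟨_, mem_crs.2 ⟨k, k.2, j, acs_lt hj1, hnz, hi2, hj2, rfl⟩, ?_⟩
  obtain ⟨-, -, -, -, -, -, -, -, -, h1⟩ := mk_crf hL hM h ht k.2 (acs_lt hj1) hnz hi2 hj2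
  rw [abs_neg, abs_div, div_mul_eq_mul_div, eq_div_iff hD]
  rw [← h1]
  ring

/-! ### Steps of the path -/

theorem cE_le (m n : ℕ) : cE m n ≤ cC m n := by
  have hK : 1 ≤ cD m n := by unfold cD cK; omega
  unfold cE cC
  have h1 : cD m n * 1 ≤ cD m n * cD m n := Nat.mul_le_mul_left _ hK
  rw [mul_one] at h1
  calc 8 * cD m n ≤ 8 * (cD m n * cD m n) := Nat.mul_le_mul_left _ h1
    _ ≤ 64 * (cD m n * cD m n) := Nat.mul_le_mul_right _ (by norm_num)

theorem cut_of (hL : S_LSP) {m n p : ℕ} {g : Reg → ℝ} {drop : List Bool} {t : ℝ}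
    {w : ℕ → ℝ} {β : List ℕ} {o : List Outcome} {l : Lab} {x : ℕ → ℝ}
    (h : Hy m n p g drop t w β o l x) {t' : ℝ} (ht' : 0 < t') (htt : 2 * t' ≤ t)
    (hex : ∃ k : Fin (n + 2), ∃ c, bf n β k ∈ Acs m drop ∧ c ∈ Acs m drop ∧
      (∀ j, bf n β j ≠ c) ∧ isL l true (bf n β k) = true ∧ isL l false c = true ∧
      |cdet (cl m n p g) (bf n β)| * w (bf n β k) * (t' / t) ≤
        2 ^ cC m n * (|cdet (cl m n p g) (Function.update (bf n β) k c)| * w c)) :
    Cut m n p g drop t t' := by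
  refine ⟨w, bf n β, x, h.wts, h.bds, h.cen, h.gre, ht', htt, fun σ hs1 hs2 => ?_⟩
  have hEC : cE m n ≤ cC m n := cE_le m n
  have hpow : (2 : ℝ) ^ cE m n ≤ 2 ^ cC m n := pow_le_pow_right₀ (by norm_num) hEC
  by_cases hco : ∀ u v, u < m + m + 2 → v < m + m + 2 → hop m n p drop β o u v ≠ [] → σ u = σ v
  · obtain ⟨k, c, h1, h2, h3, h4, h5, h6⟩ := hex
    have h7 := h.lab.2.2.2.2 σ hco _ _ h4
    have h8 := h.lab.2.2.2.2 σ hco _ _ h5
    rw [if_pos rfl, hs2] at h7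
    rw [if_neg (by simp), hs1] at h8
    exact ⟨k, h1, c, h2, h3, by rw [h7, h8]; simp, Or.inr ⟨h7, h8, h6⟩⟩
  · push Not at hco
    obtain ⟨u, v, hu, hv, h1, h2⟩ := hco
    obtain ⟨k, c, h3, h4, h5, h6, h7⟩ := edge_ex hL h hu hv h1
    refine ⟨k, h3, c, h4, h5, ?_, Or.inl (h7.trans ?_)⟩
    · rcases h6 with h6 | h6
      · rw [h6.1, h6.2]; exact h2
      · rw [h6.1, h6.2]; exact fun h8 => h2 h8.symm
    · exact mul_le_mul_of_nonneg_right hpow (mul_nonneg (abs_nonneg _) (wpos h h4).le)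

theorem cut_conn (hL : S_LSP) {m n p : ℕ} {g : Reg → ℝ} {drop : List Bool} {t : ℝ}
    {w : ℕ → ℝ} {β : List ℕ} {o : List Outcome} {l : Lab} {x : ℕ → ℝ}
    (h : Hy m n p g drop t w β o l x) {t' : ℝ} (ht' : 0 < t') (htt : 2 * t' ≤ t)
    (hcon : conn m n p drop β o l = true) : Cut m n p g drop t t' := by
  refine ⟨w, bf n β, x, h.wts, h.bds, h.cen, h.gre, ht', htt, fun σ hs1 hs2 => ?_⟩
  have hEC : cE m n ≤ cC m n := cE_le m n
  have hpow : (2 : ℝ) ^ cE m n ≤ 2 ^ cC m n := pow_le_pow_right₀ (by norm_num) hEC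
  have hco : ¬ ∀ u v, u < m + m + 2 → v < m + m + 2 → hop m n p drop β o u v ≠ [] →
      σ u = σ v := by
    intro hco
    unfold conn at hcon
    rw [List.any_eq_true] at hcon
    obtain ⟨u, hu, h1⟩ := hcon
    rw [List.any_eq_true] at h1
    obtain ⟨v, hv, h1⟩ := h1
    rw [Bool.and_eq_true, Bool.and_eq_true] at h1
    obtain ⟨h2, h3, h4⟩ := h1
    have h5 : hop m n p drop β o u v ≠ [] := by
      intro h6
      rw [h6] at h4
      exact absurd h4 (by simp)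
    have h6 := hco u v (List.mem_range.1 hu) (List.mem_range.1 hv) h5
    have h7 := h.lab.2.2.2.2 σ hco _ _ h2
    have h8 := h.lab.2.2.2.2 σ hco _ _ h3
    rw [if_neg (by simp), hs1] at h7
    rw [if_pos rfl, hs2] at h8
    rw [h7, h8] at h6
    exact absurd h6 (by simp)
  push Not at hco
  obtain ⟨u, v, hu, hv, h1, h2⟩ := hco
  obtain ⟨k, c, h3, h4, h5, h6, h7⟩ := edge_ex hL h hu hv h1
  refine ⟨k, h3, c, h4, h5, ?_, Or.inl (h7.trans ?_)⟩
  · rcases h6 with h6 | h6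
    · rw [h6.1, h6.2]; exact h2
    · rw [h6.1, h6.2]; exact fun h8 => h2 h8.symm
  · exact mul_le_mul_of_nonneg_right hpow (mul_nonneg (abs_nonneg _) (wpos h h4).le)

/-- In the case of no connection, labels `true` and `false` have no hop. -/
theorem no_hop {m n p : ℕ} {g : Reg → ℝ} {drop : List Bool} {t : ℝ}
    {w : ℕ → ℝ} {β : List ℕ} {o : List Outcome} {l : Lab} {x : ℕ → ℝ}
    (h : Hy m n p g drop t w β o l x) (hcon : ¬ conn m n p drop β o l = true) {u v : ℕ}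
    (hu : isL l false u = true) (hv : isL l true v = true) :
    hop m n p drop β o u v = [] ∧ hop m n p drop β o v u = [] := by
  have h1 : hop m n p drop β o u v = [] := by
    by_contra hne
    apply hcon
    unfold conn
    rw [List.any_eq_true]
    refine ⟨u, List.mem_range.2 (acs_lt (h.lab.2.2.1 u _ hu).1), ?_⟩
    rw [List.any_eq_true]
    refine ⟨v, List.mem_range.2 (acs_lt (h.lab.2.2.1 v _ hv).1), ?_⟩
    rw [Bool.and_eq_true, Bool.and_eq_true]
    refine ⟨hu, hv, ?_⟩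
    cases hh : hop m n p drop β o u v with
    | nil => exact absurd hh hne
    | cons a s => rfl
  refine ⟨h1, ?_⟩
  by_contra hne
  exact hop_symm hne h1

end FN

end Pool.Agent.Y648.CS
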