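import Pool.Agent.Y648.CS.T_FIN3

set_option autoImplicit false

/-!
# Few scales of circuit ratios: the end of an iteration, halving, jumps, and the end
-/

namespace Pool.Agent.Y648.CS

open Pool.Agent.NPC Pool.Agent.H558R2 Pool.Agent.H622R3.SM Pool.Agent.W920.FC

namespace FN

theorem sl_mono {Ls : Submodule ℝ (ℕ → ℝ)} {X : Finset ℕ} {q nu : ℕ} {t t' : ℝ} (h : t ≤ t')
    {y : ℕ → ℝ} (hy : y ∈ Sl Ls X q nu t) : y ∈ Sl Ls X q nu t' :=
  ⟨hy.1, hy.2.1, hy.2.2.1, hy.2.2.2.trans h⟩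

theorem xc_lt {m : ℕ} {drop : List Bool} {c : ℕ} (h : c ∈ Xc m drop) : c < m + m :=
  Finset.mem_range.1 (Finset.mem_filter.1 h).1

theorem wf_lt {m n : ℕ} {g : Reg → ℝ} {t : Mo} {W : List Mo} {c : ℕ} (h : c < m + m) :
    wf m n g t W c = moV m n g (W.getD c moOne) := by
  unfold wf wc
  rw [if_pos h]

theorem halve_inv (hM : S_MOV) {m n p : ℕ} {g : Reg → ℝ} {drop : List Bool} {E : ℕ} {t : Mo}
    {W : List Mo} {x : ℕ → ℝ} (hlen : W.length = m + m) (htG : MoG m n g E t)
    (hW : ∀ c < m + m, MoG m n g E (W.getD c moOne))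
    (hb : Bds (Lsp m n p g drop) (Xc m drop) (m + m) (m + m + 1) (moV m n g t) (wf m n g t W)
      (MR m n))
    (hc : Cen (Lsp m n p g drop) (Xc m drop) (m + m) (m + m + 1) (moV m n g t) (wf m n g t W)
      (epR m n) x) : Inv m n p g drop (E + 1) (moHalf t) W := by
  obtain ⟨-, -, -, -, -, hhalf, -, -, -, -, -⟩ := hM m n g
  obtain ⟨P, Q, H, hP, hQ, -, hP4, hPK, hPQ, -, -, heP, hMR, hM0, hdl, hPE, -, -, -, -⟩ := nums m n
  have hP1 : (1 : ℝ) ≤ P := by linarith
  have htpos : 0 < moV m n g t := htG.2.2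
  have hv : moV m n g (moHalf t) = moV m n g t / 2 := (hhalf t).1
  refine ⟨hlen, ⟨⟨?_, ?_, ?_, ?_⟩, (hhalf t).2 htG.2.1, ?_⟩, fun c hc => (hW c hc).mono (by omega),
    ?_, ?_⟩
  · have := htG.1.1
    simp only [moHalf]
    omega
  · have := htG.1.2.1
    simp only [moHalf, List.length_cons]
    omega
  · exact htG.1.2.2.1
  · exact htG.1.2.2.2
  · rw [hv]
    linarith
  · intro y hy
    rw [hv] at hy
    have h1 := hb y (sl_mono (by linarith) hy)
    refine ⟨fun c hc => ?_, ?_, h1.2.2⟩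
    · rw [wf_lt (xc_lt hc)]
      have h2 := h1.1 c hc
      rwa [wf_lt (xc_lt hc)] at h2
    · refine le_trans ?_ h1.2.1
      rw [hv, hM0, hMR, neg_le_neg_iff]
      have h2 : P ^ 2 * 2 ≤ P ^ 6 := by
        have : P ^ 6 = P ^ 2 * P ^ 4 := by ring
        rw [this]
        refine mul_le_mul_of_nonneg_left ?_ (by positivity)
        have : P ^ 4 = P * P ^ 3 := by ring
        rw [this]
        nlinarith [one_le_pow₀ hP1 (n := 3)]
      calc P ^ 2 * moV m n g t = P ^ 2 * 2 * (moV m n g t / 2) := by ring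
        _ ≤ P ^ 6 * (moV m n g t / 2) := mul_le_mul_of_nonneg_right h2 (by linarith)
  · intro c hcX
    refine ⟨(1 / 2 : ℝ) • x, ⟨Submodule.smul_mem _ _ hc.1, ?_, ?_, ?_⟩, ?_⟩
    · intro c' hc'
      have h1 := hc.2.1 c' hc'
      have h2 : 0 ≤ epR m n * wf m n g t W c' := by
        rw [wf_lt (xc_lt hc'), heP]
        exact mul_nonneg (by positivity) (hW c' (xc_lt hc')).2.2.le
      simp only [Pi.smul_apply, smul_eq_mul]
      linarith
    · have h1 := hc.2.2.1
      have h2 : 0 < epR m n := by rw [heP]; positivity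
      simp only [Pi.smul_apply, smul_eq_mul]
      linarith
    · have h1 := hc.2.2.2
      have h2 : 0 < epR m n := by rw [heP]; positivity
      simp only [Pi.smul_apply, smul_eq_mul]
      rw [hv]
      nlinarith
    · have h1 := hc.2.1 c hcX
      rw [wf_lt (xc_lt hcX)] at h1 ⊢
      have h2 : 0 < moV m n g (W.getD c moOne) := (hW c (xc_lt hcX)).2.2
      simp only [Pi.smul_apply, smul_eq_mul]
      have h3 : dlR m n ≤ 1 / 2 * epR m n := by
        rw [hdl, heP]
        have h4 : P ^ 2 * 2 ≤ Q ^ 32 := by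
          have h5 : P ^ 2 * 2 ≤ P ^ 12 := by
            have : P ^ 12 = P ^ 2 * P ^ 10 := by ring
            rw [this]
            refine mul_le_mul_of_nonneg_left ?_ (by positivity)
            have : P ^ 10 = P * P ^ 9 := by ring
            rw [this]
            nlinarith [one_le_pow₀ hP1 (n := 9)]
          have h6 : Q ≤ Q ^ 32 := by
            have hQ1 : 1 ≤ Q := (one_le_pow₀ hP1).trans hPQ
            exact le_self_pow₀ hQ1 (by norm_num)
          exact (h5.trans hPQ).trans h6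
        rw [div_mul_div_comm, one_mul]
        exact one_div_le_one_div_of_le (by positivity) (by linarith)
      calc dlR m n * moV m n g (W.getD c moOne)
          ≤ 1 / 2 * epR m n * moV m n g (W.getD c moOne) := mul_le_mul_of_nonneg_right h3 h2.le
        _ ≤ 1 / 2 * x c := by linarith

/-- The set of the columns with the label `false`. -/
def Bf (m : ℕ) (drop : List Bool) (l : Lab) : Finset ℕ :=
  (Acs m drop).filter fun c => isL l false c = true

theorem mem_Bf {m : ℕ} {drop : List Bool} {l : Lab} {c : ℕ} :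
    c ∈ Bf m drop l ↔ c ∈ Acs m drop ∧ isL l false c = true := Finset.mem_filter

theorem not_mem_Bf (hC : S_COMP) (hL : S_LSP) {m n p : ℕ} {g : Reg → ℝ} {drop : List Bool} {t : ℝ}
    {w : ℕ → ℝ} {β : List ℕ} {o : List Outcome} {l : Lab} {x : ℕ → ℝ}
    (h : Hy m n p g drop t w β o l x) (ht : Ta m n p g drop w β) {c : ℕ} (hc : c ∈ Acs m drop)
    (hcB : c ∉ Bf m drop l) : isL l true c = true := by
  rcases all_lab hC hL h ht c hc with h1 | h1
  · exact h1
  · exact absurd (mem_Bf.2 ⟨hc, h1⟩) hcB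

theorem nu_mem_Bf {m n p : ℕ} {g : Reg → ℝ} {drop : List Bool} {t : ℝ}
    {w : ℕ → ℝ} {β : List ℕ} {o : List Outcome} {l : Lab} {x : ℕ → ℝ}
    (h : Hy m n p g drop t w β o l x) : m + m + 1 ∈ Bf m drop l :=
  mem_Bf.2 ⟨mem_acs.2 (Or.inr (Or.inl rfl)), h.lab.2.1⟩

theorem q_not_mem_Bf {m n p : ℕ} {g : Reg → ℝ} {drop : List Bool} {t : ℝ}
    {w : ℕ → ℝ} {β : List ℕ} {o : List Outcome} {l : Lab} {x : ℕ → ℝ}
    (h : Hy m n p g drop t w β o l x) : m + m ∉ Bf m drop l := by
  intro h1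
  have h2 := (h.lab.2.2.1 _ _ h.lab.1).2.1
  have h3 := (mem_Bf.1 h1).2
  simp only [Bool.not_true] at h2
  rw [h2] at h3
  exact absurd h3 (by simp)

/-- The end of the phase. -/
theorem term (hT : S_TERM) (hC : S_COMP) (hL : S_LSP) (hM : S_MOV) {m n p : ℕ} {g : Reg → ℝ}
    {drop : List Bool} {E : ℕ} {t : Mo} {W : List Mo} {β : List ℕ} {o : List Outcome} {l : Lab}
    {x : ℕ → ℝ}
    (h : Hy m n p g drop (moV m n g t) (wf m n g t W) β o l x)
    (ht : Ta m n p g drop (wf m n g t W) β)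
    (hW : ∀ c < m + m, MoG m n g E (W.getD c moOne))
    (hcon : ¬ conn m n p drop β o l = true) (hcr : crs m n p drop β o l = []) :
    Trm m n p g drop E W ((List.range (m + m)).map fun c => isL l false c) := by
  obtain ⟨P, Q, H, hP, hQ, -, hP4, hPK, hPQ, -, -, heP, hMR, hM0, hdl, hPE, -, -, -, -⟩ := nums m n
  have hP1 : (1 : ℝ) ≤ P := by linarith
  obtain ⟨h1, h1', -, -, -, -, -⟩ := hL m n p g drop
  have hB : ∀ c ∈ Xc m drop,
      ((List.range (m + m)).map fun c => isL l false c).getD c false = isL l false c := by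
    intro c hc
    rw [List.getD_eq_getElem?_getD, List.getElem?_map, List.getElem?_range (xc_lt hc)]
    rfl
  have key := hT (Lsp m n p g drop) (Xc m drop) (m + m) (m + m + 1) (moV m n g t)
    (wf m n g t W) (MR m n) (epR m n) (1 / P ^ 8) (cD m n) (bS m n drop β) (Tt m n p g β) x
    (Bf m drop l) h.wts h1' (by rw [heP]; positivity)
    (by rw [heP, div_le_one (by positivity)]; exact one_le_pow₀ hP1)
    (by rw [hMR]; exact one_le_pow₀ hP1) (by positivity) ?_ h.bds h.cen ht.tab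
    (Finset.filter_subset _ _) (nu_mem_Bf h) (q_not_mem_Bf h) ?_ ?_
  · obtain ⟨k1, y, k2, k3, k4, k5⟩ := key
    refine ⟨hW, fun y hy => ⟨fun c hc => ?_, fun c hc hc2 => ?_, ?_⟩, y, k2, fun c hc hc2 => ?_,
      fun c hc hc2 => ?_, ?_, k5⟩
    · have h2 := (h.bds y (sl_mono h.wts.2.2.2.1.le hy)).1 c hc
      rwa [wf_lt (xc_lt hc)] at h2
    · rw [hB c hc] at hc2
      refine k1 y hy c (mem_acs.2 (Or.inr (Or.inr hc))) fun h3 => ?_
      rw [(mem_Bf.1 h3).2] at hc2
      exact absurd hc2 (by simp)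
    · exact k1 y hy _ (mem_acs.2 (Or.inl rfl)) (q_not_mem_Bf h)
    · rw [hB c hc] at hc2
      have h2 := k3 c hc (mem_Bf.2 ⟨mem_acs.2 (Or.inr (Or.inr hc)), hc2⟩)
      rwa [wf_lt (xc_lt hc)] at h2
    · rw [hB c hc] at hc2
      refine k4 c (mem_acs.2 (Or.inr (Or.inr hc))) fun h3 => ?_
      rw [(mem_Bf.1 h3).2] at hc2
      exact absurd hc2 (by simp)
    · exact k4 _ (mem_acs.2 (Or.inl rfl)) (q_not_mem_Bf h)
  · rw [hMR, heP]
    have h2 : 4 * (cD m n : ℝ) * (1 / P ^ 8) * P ^ 2 = 4 * (cD m n : ℝ) / P ^ 6 := by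
      field_simp
    rw [h2, div_le_div_iff₀ (by positivity) (by positivity)]
    have h3 : 1 * P ^ 6 = P * P * (P ^ 2 * P ^ 2) := by ring
    rw [h3]
    refine mul_le_mul hPK.le ?_ (by positivity) (by positivity)
    nlinarith [one_le_pow₀ hP1 (n := 2)]
  · intro i hi hiB j hj hjB
    by_contra hne
    obtain ⟨a, ha, -⟩ := T_crs hL hM h ht hi hj (not_mem_Bf hC hL h ht (mem_bS.1 hi).1 hiB)
      (mem_Bf.1 hjB).2 hne
    rw [hcr] at ha
    exact absurd ha (by simp)
  · intro i hi hiB j hj hjB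
    have h2 := not_mem_Bf hC hL h ht (Finset.mem_sdiff.1 hj).1 hjB
    exact noedge hL h ht hP hPE hi hj (no_hop h hcon (mem_Bf.1 hiB).2 h2).1

/-- The jump. -/
theorem jump (hJ : S_JUMP) (hC : S_COMP) (hL : S_LSP) {m n p : ℕ} {g : Reg → ℝ}
    {drop : List Bool} {t : ℝ}
    {w : ℕ → ℝ} {β : List ℕ} {o : List Outcome} {l : Lab} {x : ℕ → ℝ}
    (h : Hy m n p g drop t w β o l x) (ht : Ta m n p g drop w β)
    (hcon : ¬ conn m n p drop β o l = true) {τ t'' : ℝ} (hτ : 0 < τ)
    (hmax : ∀ i ∈ bS m n drop β, ∀ j ∈ Acs m drop \ bS m n drop β, isL l true i = true →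
      isL l false j = true →
      |Tt m n p g β i j| * |moV m n g (lbW l j)| ≤ τ * |moV m n g (lbW l i)|)
    (ht'' : t'' = 2 ^ cJ m n * τ) (h2 : 2 * t'' ≤ t) :
    (∀ y ∈ Sl (Lsp m n p g drop) (Xc m drop) (m + m) (m + m + 1) t'',
      (∀ j ∈ Acs m drop, isL l true j = true →
        |y j| ≤ 2 ^ cW m n * (|moV m n g (lbW l j)| * t'')) ∧ -(M0R m n * t'') ≤ y (m + m)) ∧
    ∃ y ∈ Sl (Lsp m n p g drop) (Xc m drop) (m + m) (m + m + 1) t'',
      (∀ j ∈ Xc m drop, isL l false j = true → dlR m n * |moV m n g (lbW l j)| ≤ y j) ∧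
      ∀ j ∈ Xc m drop, isL l true j = true →
        dlR m n * (2 ^ cW m n * (|moV m n g (lbW l j)| * t'')) ≤ y j := by
  obtain ⟨P, Q, H, hP, hQ, hH, hP4, hPK, hPQ, hHQ, hH1, heP, hMR, hM0, hdl, hPE, hJQ, -, hWP,
    hHd⟩ := nums m n
  have hP1 : (1 : ℝ) ≤ P := by linarith
  have hQ1 : 1 ≤ Q := (one_le_pow₀ hP1).trans hPQ
  obtain ⟨h1, h1', -, -, -, -, -⟩ := hL m n p g drop
  have htpos : 0 < t := h.wts.2.2.2.1
  have ht''pos : 0 < t'' := by rw [ht'', hJQ]; positivity
  -- the small number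
  obtain ⟨θ, hθ⟩ : ∃ θ : ℝ, θ = min (H * τ / t) (1 / P ^ 8) := ⟨_, rfl⟩
  have hθ0 : 0 ≤ θ := by rw [hθ]; exact le_min (by positivity) (by positivity)
  have key := hJ (Lsp m n p g drop) (Xc m drop) (m + m) (m + m + 1) t t'' w (MR m n) (epR m n)
    (1 / P ^ 8) θ (cD m n) (bS m n drop β) (Tt m n p g β) x
    (Bf m drop l) h.wts h1' (by rw [heP]; positivity)
    (by rw [heP, div_le_one (by positivity)]; exact one_le_pow₀ hP1)
    (by rw [hMR]; exact one_le_pow₀ hP1) (by positivity) hθ0 (by rw [hθ]; exact min_le_right _ _)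
    ?_ ht''pos (by linarith) ?_ h.bds h.cen ht.tab
    (Finset.filter_subset _ _) (nu_mem_Bf h) (q_not_mem_Bf h) ?_ ?_
  · obtain ⟨k1, y, k2, k3, k4⟩ := key
    have h8 : 8 * MR m n / epR m n ≤ P ^ 6 := by
      rw [hMR, heP, div_div_eq_mul_div, div_one]
      have h9 : P ^ 6 = P ^ 2 * (P ^ 2 * P ^ 2) := by ring
      have h10 : (8 : ℝ) ≤ P ^ 2 := by nlinarith
      rw [h9, mul_assoc]
      exact mul_le_mul_of_nonneg_right h10 (by positivity)
    have hr0 : 0 ≤ t'' / t := by positivity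
    refine ⟨fun y hy => ⟨fun j hj hjl => ?_, ?_⟩, y, k2, fun j hj hjl => ?_, fun j hj hjl => ?_⟩
    · have hjB : j ∉ Bf m drop l := by
        intro h3
        have h4 := (mem_Bf.1 h3).2
        have h5 := (h.lab.2.2.1 _ _ hjl).2.1
        simp only [Bool.not_true] at h5
        rw [h5] at h4
        exact absurd h4 (by simp)
      refine (k1 y hy j hj hjB).trans ?_
      have h6 := (h.lab.2.2.1 _ _ hjl).2.2.2.2.1
      simp only [root, if_true] at h6
      rw [hWP]
      have h7 := wpos h hj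
      calc 8 * MR m n / epR m n * (t'' / t) * w j ≤ P ^ 6 * (t'' / t) * w j := by
            refine mul_le_mul_of_nonneg_right (mul_le_mul_of_nonneg_right h8 hr0) h7.le
        _ ≤ P ^ 6 * (t'' / t) * (|moV m n g (lbW l j)| * t) :=
            mul_le_mul_of_nonneg_left h6 (by positivity)
        _ = P ^ 6 * (|moV m n g (lbW l j)| * t'') := by field_simp
    · have h3 := k1 y hy (m + m) (mem_acs.2 (Or.inl rfl)) (q_not_mem_Bf h)
      rw [h.wts.2.2.2.2.2.1] at h3
      have h4 : 8 * MR m n / epR m n * (t'' / t) * t ≤ M0R m n * t'' := by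
        rw [hM0]
        calc 8 * MR m n / epR m n * (t'' / t) * t = 8 * MR m n / epR m n * t'' := by field_simp
          _ ≤ P ^ 6 * t'' := mul_le_mul_of_nonneg_right h8 ht''pos.le
      have h5 := neg_abs_le (y (m + m))
      linarith
    · have hjB : j ∈ Bf m drop l := mem_Bf.2 ⟨mem_acs.2 (Or.inr (Or.inr hj)), hjl⟩
      refine le_trans ?_ (k3 j hj hjB)
      have h6 := (h.lab.2.2.1 _ _ hjl).2.2.2.2.2
      rw [hHd] at h6
      simp only [root, Bool.false_eq_true, if_false, mul_one] at h6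
      have h7 := wpos h (mem_acs.2 (Or.inr (Or.inr hj)))
      have h9 : dlR m n * H ≤ epR m n / 4 := by
        rw [hdl, heP, one_div_mul_eq_div, div_div, div_le_div_iff₀ (by positivity) (by positivity),
          one_mul]
        have h10 : P ^ 2 * 4 ≤ P ^ 12 := by
          have : P ^ 12 = P ^ 2 * P ^ 10 := by ring
          rw [this]
          refine mul_le_mul_of_nonneg_left ?_ (by positivity)
          have : P ^ 10 = P * P ^ 9 := by ring
          rw [this]
          nlinarith [one_le_pow₀ hP1 (n := 9)]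
        calc H * (P ^ 2 * 4) ≤ Q ^ 8 * Q := mul_le_mul hHQ (h10.trans hPQ) (by positivity)
              (by positivity)
          _ = Q ^ 9 := by ring
          _ ≤ Q ^ 32 := pow_le_pow_right₀ hQ1 (by norm_num)
      calc dlR m n * |moV m n g (lbW l j)| ≤ dlR m n * (H * w j) :=
            mul_le_mul_of_nonneg_left h6 (by rw [hdl]; positivity)
        _ = dlR m n * H * w j := by ring
        _ ≤ epR m n / 4 * w j := mul_le_mul_of_nonneg_right h9 h7.le
    · have hjB : j ∉ Bf m drop l := by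
        intro h3
        have h4 := (mem_Bf.1 h3).2
        have h5 := (h.lab.2.2.1 _ _ hjl).2.1
        simp only [Bool.not_true] at h5
        rw [h5] at h4
        exact absurd h4 (by simp)
      refine le_trans ?_ (k4 j hj hjB)
      have h6 := (h.lab.2.2.1 _ _ hjl).2.2.2.2.2
      rw [hHd] at h6
      simp only [root, if_true] at h6
      have h7 := wpos h (mem_acs.2 (Or.inr (Or.inr hj)))
      have h9 : dlR m n * (P ^ 6 * H) ≤ epR m n / 4 := by
        rw [hdl, heP, one_div_mul_eq_div, div_div, div_le_div_iff₀ (by positivity) (by positivity),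
          one_mul]
        have h10 : P ^ 6 * (P ^ 2 * 4) ≤ P ^ 12 := by
          have : P ^ 12 = P ^ 6 * (P ^ 2 * P ^ 4) := by ring
          rw [this]
          refine mul_le_mul_of_nonneg_left (mul_le_mul_of_nonneg_left ?_ (by positivity))
            (by positivity)
          have : P ^ 4 = P * P ^ 3 := by ring
          rw [this]
          nlinarith [one_le_pow₀ hP1 (n := 3)]
        calc P ^ 6 * H * (P ^ 2 * 4) = H * (P ^ 6 * (P ^ 2 * 4)) := by ring
          _ ≤ Q ^ 8 * Q := mul_le_mul hHQ (h10.trans hPQ) (by positivity) (by positivity)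
          _ = Q ^ 9 := by ring
          _ ≤ Q ^ 32 := pow_le_pow_right₀ hQ1 (by norm_num)
      have h11 : |moV m n g (lbW l j)| ≤ H * w j / t := by
        rw [le_div_iff₀ htpos]
        exact h6
      rw [hWP]
      calc dlR m n * (P ^ 6 * (|moV m n g (lbW l j)| * t''))
          ≤ dlR m n * (P ^ 6 * (H * w j / t * t'')) := by
            refine mul_le_mul_of_nonneg_left (mul_le_mul_of_nonneg_left
              (mul_le_mul_of_nonneg_right h11 ht''pos.le) (by positivity)) (by rw [hdl]; positivity)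
        _ = dlR m n * (P ^ 6 * H) * ((t'' / t) * w j) := by ring
        _ ≤ epR m n / 4 * ((t'' / t) * w j) := mul_le_mul_of_nonneg_right h9 (by positivity)
        _ = epR m n / 4 * (t'' / t) * w j := by ring
  · rw [hMR, heP]
    have h3 : 4 * (cD m n : ℝ) * (1 / P ^ 8) * P ^ 2 = 4 * (cD m n : ℝ) / P ^ 6 := by
      field_simp
    rw [h3, div_le_div_iff₀ (by positivity) (by positivity)]
    have h4 : 1 * P ^ 6 = P * P * (P ^ 2 * P ^ 2) := by ring
    rw [h4]
    refine mul_le_mul hPK.le ?_ (by positivity) (by positivity)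
    nlinarith [one_le_pow₀ hP1 (n := 2)]
  · have h3 : θ * t ≤ H * τ := by
      have h4 : θ ≤ H * τ / t := by rw [hθ]; exact min_le_left _ _
      rwa [le_div_iff₀ htpos] at h4
    rw [hMR, heP, ht'', hJQ, one_div_mul_eq_div, le_div_iff₀ (by positivity)]
    have h5 : (0 : ℝ) ≤ cD m n := Nat.cast_nonneg _
    calc 2 * (cD m n : ℝ) * P ^ 2 * θ * t * P ^ 2 = 2 * (cD m n : ℝ) * P ^ 4 * (θ * t) := by ring
      _ ≤ 2 * (cD m n : ℝ) * P ^ 4 * (H * τ) := mul_le_mul_of_nonneg_left h3 (by positivity)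
      _ ≤ P ^ 2 * P ^ 4 * (Q ^ 8 * τ) := by
          refine mul_le_mul (mul_le_mul_of_nonneg_right ?_ (by positivity))
            (mul_le_mul_of_nonneg_right hHQ hτ.le) (by positivity) (by positivity)
          nlinarith
      _ = P ^ 6 * Q ^ 8 * τ := by ring
      _ ≤ Q * Q ^ 8 * τ := by
          refine mul_le_mul_of_nonneg_right (mul_le_mul_of_nonneg_right ?_ (by positivity)) hτ.le
          exact (pow_le_pow_right₀ hP1 (by norm_num)).trans hPQ
      _ = Q ^ 9 * τ := by ring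
      _ ≤ Q ^ 24 * τ := mul_le_mul_of_nonneg_right (pow_le_pow_right₀ hQ1 (by norm_num)) hτ.le
  · intro i hi hiB j hj hjB
    have hi1 := not_mem_Bf hC hL h ht (mem_bS.1 hi).1 hiB
    have hj1 := (mem_Bf.1 hjB).2
    have hwi := wpos h (mem_bS.1 hi).1
    rw [hθ, min_mul_of_nonneg _ _ hwi.le]
    refine le_min ?_ (noedge hL h ht hP hPE hi hj (no_hop h hcon hj1 hi1).2)
    have h3 := hmax i hi j hj hi1 hj1
    have h4 := (h.lab.2.2.1 _ _ hj1).2.2.2.2.1
    have h5 := (h.lab.2.2.1 _ _ hi1).2.2.2.2.2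
    rw [hHd] at h5
    simp only [root, Bool.false_eq_true, if_false, mul_one] at h4
    simp only [root, if_true] at h5
    calc |Tt m n p g β i j| * w j ≤ |Tt m n p g β i j| * |moV m n g (lbW l j)| :=
          mul_le_mul_of_nonneg_left h4 (abs_nonneg _)
      _ ≤ τ * |moV m n g (lbW l i)| := h3
      _ ≤ τ * (H * w i / t) := by
          refine mul_le_mul_of_nonneg_left ?_ hτ.le
          rw [le_div_iff₀ htpos]
          exact h5
      _ = H * τ / t * w i := by ring
  · intro i hi hiB j hj hjB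
    have h3 := not_mem_Bf hC hL h ht (Finset.mem_sdiff.1 hj).1 hjB
    exact noedge hL h ht hP hPE hi hj (no_hop h hcon (mem_Bf.1 hiB).2 h3).1

end FN

end Pool.Agent.Y648.CS
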