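import Pool.Agent.Y648.CS.Ut
import Pool.Agent.Y648.CS.T_LSP
import Pool.Agent.W920.FC.T_KERSTEP
import Pool.Agent.W920.FC.T_PROJ

set_option autoImplicit false

/-!
# The search for the centre (helper590, job 387)
-/

namespace Pool.Agent.Y648.CS

open Pool.Agent.NPC Pool.Agent.H558R2 Pool.Agent.H622R3.SM Pool.Agent.W920.FC

namespace TREC

/-! ### Numbers -/

theorem cD_eq (m n : ℕ) : cD m n = cO m n + (m + m + 4) + 1 := by
  unfold cD cK cO
  omega

theorem cO_eq (m n : ℕ) : cO m n = n + 3 + (m + m + 4) := rfl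

theorem cD_ge (m n : ℕ) : 4 * m + 12 ≤ cD m n := by
  unfold cD cK
  omega

theorem pw_num (K : ℕ) (hK : 4 ≤ K) : 12 * K ^ 2 ≤ 2 ^ (2 * K) := by
  induction K, hK using Nat.le_induction with
  | base => norm_num
  | succ K hK ih =>
    have e : 2 ^ (2 * (K + 1)) = 4 * 2 ^ (2 * K) := by
      rw [mul_add, pow_add]
      norm_num
      ring
    rw [e]
    nlinarith

/-- The quotient in the centre. -/
theorem ep_le (m n : ℕ) : epR m n ≤ 1 / (12 * (cD m n : ℝ) ^ 2) := by
  have h1 := cD_ge m n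
  have h2 := pw_num (cD m n) (by omega)
  have h3 : (12 * (cD m n : ℝ) ^ 2) ≤ 2 ^ (2 * cD m n) := by exact_mod_cast h2
  have h4 : (0 : ℝ) < 12 * (cD m n : ℝ) ^ 2 := by
    have : (0 : ℝ) < cD m n := by
      have : 0 < cD m n := by omega
      exact_mod_cast this
    positivity
  unfold epR
  rw [one_div, inv_pow, ← one_div]
  exact one_div_le_one_div_of_le h4 h3

theorem MR_ge (m n : ℕ) : 12 * (cD m n : ℝ) ^ 2 ≤ MR m n := by
  have h1 := cD_ge m n
  have h2 := pw_num (cD m n) (by omega)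
  unfold MR
  exact_mod_cast h2

/-! ### Lists -/

theorem dr_getD (m n : ℕ) (drop : List Bool) (j : ℕ) (hj : j < cD m n) :
    (drK m n drop).getD j false = if j < cO m n then true
    else if j < cO m n + (m + m) then drop.getD (j - cO m n) true
    else decide (cO m n + (m + m + 4) ≤ j) := by
  unfold drK
  exact TPROJ.getD_map_range _ _ _ _ hj

theorem ts_getD (m n : ℕ) (drop : List Bool) (j : ℕ) (hj : j < cD m n) :
    (tsK m n drop).getD j false = if j < cO m n then false
    else if j < cO m n + (m + m) then !(drop.getD (j - cO m n) true)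
    else decide (j < cO m n + (m + m + 2)) := by
  unfold tsK
  exact TPROJ.getD_map_range _ _ _ _ hj

theorem ts_dr (m n : ℕ) (drop : List Bool) (j : ℕ) (hj : j < cD m n)
    (h : (tsK m n drop).getD j false = true) : (drK m n drop).getD j false = false := by
  rw [ts_getD m n drop j hj] at h
  rw [dr_getD m n drop j hj]
  by_cases h1 : j < cO m n
  · rw [if_pos h1] at h
    exact absurd h (by decide)
  · rw [if_neg h1] at h ⊢
    by_cases h2 : j < cO m n + (m + m)
    · rw [if_pos h2] at h ⊢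
      rwa [Bool.not_eq_true'] at h
    · rw [if_neg h2] at h ⊢
      rw [decide_eq_true_eq] at h
      rw [decide_eq_false_iff_not]
      omega

theorem nd_len (m n : ℕ) (drop : List Bool) :
    2 * ((List.range (cD m n)).filter fun j => !((drK m n drop).getD j false)).length ≤ cD m n := by
  have h1 : ((List.range (cD m n)).filter fun j => !((drK m n drop).getD j false)).length ≤
      m + m + 4 := by
    have hsub : ((Finset.range (cD m n)).filter fun j => (!((drK m n drop).getD j false)) = true) ⊆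
        Finset.Ico (cO m n) (cO m n + (m + m + 4)) := by
      intro j hj
      obtain ⟨h1, h2⟩ := Finset.mem_filter.1 hj
      have h1' := Finset.mem_range.1 h1
      rw [Bool.not_eq_true', dr_getD m n drop j h1'] at h2
      rw [Finset.mem_Ico]
      by_cases h3 : j < cO m n
      · rw [if_pos h3] at h2
        exact absurd h2 (by decide)
      · rw [if_neg h3] at h2
        by_cases h4 : j < cO m n + (m + m)
        · omega
        · rw [if_neg h4, decide_eq_false_iff_not] at h2
          omega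
    have h2 := Finset.card_le_card hsub
    rw [Nat.card_Ico] at h2
    have h3 : ((List.range (cD m n)).filter fun j => !((drK m n drop).getD j false)).length =
        ((Finset.range (cD m n)).filter fun j => (!((drK m n drop).getD j false)) = true).card := by
      rw [← List.toFinset_card_of_nodup (List.nodup_range.filter _)]
      congr 1
      ext j
      simp
    omega
  have h2 := cD_eq m n
  have h3 := cO_eq m n
  omega

/-! ### The kernel -/

/-- The coordinates of a vector which are used. -/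
noncomputable def uz (m n : ℕ) (z : Fin (cD m n) → ℝ) (c : ℕ) : ℝ :=
  if h : cO m n + c < cD m n then z ⟨cO m n + c, h⟩ else 0

/-- The extension of a vector. -/
noncomputable def eu (m n : ℕ) (u : ℕ → ℝ) : Fin (cD m n) → ℝ := fun j =>
  if cO m n ≤ (j : ℕ) ∧ (j : ℕ) < cO m n + (m + m + 4) then u (j - cO m n) else 0

theorem uz_eu (m n : ℕ) (u : ℕ → ℝ) (c : ℕ) (hc : c < m + m + 4) : uz m n (eu m n u) c = u c := by
  have h := cD_eq m n
  unfold uz
  rw [dif_pos (by omega)]
  unfold eu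
  rw [if_pos ⟨by simp, by simp only; omega⟩]
  simp

/-- The matrix of the perceptron algorithm. -/
noncomputable def GG (m n p : ℕ) (g : Reg → ℝ) (drop : List Bool) (w : ℕ → ℝ) :
    Matrix (Fin (cD m n)) (Fin (cD m n)) ℝ :=
  GMat (n + 3) (m + m + 4) (gW m n p g w) (fun _ => 1) (drK m n drop)

theorem sum_fin (m n : ℕ) (F : ℕ → ℝ) (z : Fin (cD m n) → ℝ)
    (h0 : ∀ j : Fin (cD m n), (j : ℕ) < cO m n ∨ cO m n + (m + m + 4) ≤ j → z j = 0) :
    ∑ j : Fin (cD m n), F j * z j = ∑ c ∈ Finset.range (m + m + 4), F (cO m n + c) * uz m n z c := by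
  obtain ⟨f, hf⟩ : ∃ f : ℕ → ℝ, f = fun j => F j * (if h : j < cD m n then z ⟨j, h⟩ else 0) :=
    ⟨_, rfl⟩
  have e1 : ∑ j : Fin (cD m n), F j * z j = ∑ j ∈ Finset.range (cD m n), f j := by
    rw [Finset.sum_range]
    refine Finset.sum_congr rfl fun j _ => ?_
    rw [hf]
    simp only
    rw [dif_pos j.2]
  have hD := cD_eq m n
  have e0 : Finset.range (cD m n) = Finset.range (cO m n + (m + m + 4) + 1) := by rw [← hD]
  rw [e1, e0, Finset.sum_range_succ, Finset.sum_range_add]
  have e2 : ∑ x ∈ Finset.range (cO m n), f x = 0 := by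
    refine Finset.sum_eq_zero fun j hj => ?_
    have hj' := Finset.mem_range.1 hj
    rw [hf]
    simp only
    rw [dif_pos (by omega), h0 ⟨j, by omega⟩ (Or.inl hj'), mul_zero]
  have e3 : f (cO m n + (m + m + 4)) = 0 := by
    rw [hf]
    simp only
    rw [dif_pos (by omega), h0 ⟨cO m n + (m + m + 4), by omega⟩ (Or.inr le_rfl), mul_zero]
  rw [e2, e3, add_zero, zero_add, hf]
  rfl

theorem Rv_col (m n p : ℕ) (g : Reg → ℝ) (w : ℕ → ℝ) (i c : ℕ) (hi : i < n + 3)
    (hc : c < m + m + 4) :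
    Rv (n + 3) (m + m + 4) (gW m n p g w) i (cO m n + c) = PW m n p g w i c := by
  have h := cO_eq m n
  unfold Rv
  rw [if_neg (by omega), if_neg (by omega), if_pos (by omega)]
  have e : cO m n + c - (n + 3) - (m + m + 4) = c := by omega
  rw [e]
  unfold gW
  rw [if_pos ⟨rfl, rfl, hi, hc⟩]
  rfl

theorem dr_out (m n : ℕ) (drop : List Bool) (j : Fin (cD m n))
    (h : (j : ℕ) < cO m n ∨ cO m n + (m + m + 4) ≤ j) : (drK m n drop).getD j false = true := by
  rw [dr_getD m n drop j j.2]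
  rcases h with h | h
  · rw [if_pos h]
  · rw [if_neg (by omega), if_neg (by omega), decide_eq_true_eq]
    exact h

theorem ker1 {m n p : ℕ} {g : Reg → ℝ} {drop : List Bool} {w : ℕ → ℝ} {z : Fin (cD m n) → ℝ}
    (hz : (GG m n p g drop w).mulVec z = 0) :
    (∀ i < n + 3, ∑ c ∈ Finset.range (m + m + 4), PW m n p g w i c * uz m n z c = 0) ∧
    ∀ c < m + m, drop.getD c true = true → uz m n z c = 0 := by
  have h := ((TKERSTEP.ker_thm (n + 3) (m + m + 4) (gW m n p g w) (fun _ => 1)
    (drK m n drop)).2 z).1 hz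
  obtain ⟨h1, h2⟩ := h
  refine ⟨fun i hi => ?_, fun c hc hd => ?_⟩
  · have h3 := h1 i hi
    have h4 : ∑ j : Fin (cD m n), Rv (n + 3) (m + m + 4) (gW m n p g w) i j * z j = 0 := by
      rw [← h3]
      refine Finset.sum_congr rfl fun j _ => ?_
      rw [mul_one]
    rw [sum_fin m n (fun j => Rv (n + 3) (m + m + 4) (gW m n p g w) i j) z
      (fun j hj => h2 j (dr_out m n drop j hj))] at h4
    rw [← h4]
    refine Finset.sum_congr rfl fun c hc => ?_
    rw [Rv_col m n p g w i c hi (Finset.mem_range.1 hc)]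
  · have hD := cD_eq m n
    unfold uz
    rw [dif_pos (by omega)]
    apply h2
    show (drK m n drop).getD (cO m n + c) false = true
    rw [dr_getD m n drop _ (by omega), if_neg (by omega), if_pos (by omega),
      Nat.add_sub_cancel_left]
    exact hd

theorem ker2 {m n p : ℕ} {g : Reg → ℝ} {drop : List Bool} {w u : ℕ → ℝ}
    (h1 : ∀ i < n + 3, ∑ c ∈ Finset.range (m + m + 4), PW m n p g w i c * u c = 0)
    (h2 : ∀ c < m + m, drop.getD c true = true → u c = 0) :
    (GG m n p g drop w).mulVec (eu m n u) = 0 := by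
  refine ((TKERSTEP.ker_thm (n + 3) (m + m + 4) (gW m n p g w) (fun _ => 1)
    (drK m n drop)).2 (eu m n u)).2 ⟨fun i hi => ?_, fun j hj => ?_⟩
  · have h3 : ∑ j : Fin (cD m n), Rv (n + 3) (m + m + 4) (gW m n p g w) i j * eu m n u j = 0 := by
      rw [sum_fin m n (fun j => Rv (n + 3) (m + m + 4) (gW m n p g w) i j) (eu m n u) ?_]
      · rw [← h1 i hi]
        refine Finset.sum_congr rfl fun c hc => ?_
        have hc' := Finset.mem_range.1 hc
        rw [Rv_col m n p g w i c hi hc', uz_eu m n u c hc']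
      · intro j hj
        unfold eu
        rw [if_neg (by omega)]
    refine Eq.trans ?_ h3
    refine Finset.sum_congr rfl fun j _ => ?_
    rw [mul_one]
  · have hj' : (drK m n drop).getD (j : ℕ) false = true := hj
    rw [dr_getD m n drop j j.2] at hj'
    unfold eu
    by_cases h3 : cO m n ≤ (j : ℕ) ∧ (j : ℕ) < cO m n + (m + m + 4)
    · rw [if_pos h3]
      rw [if_neg (by omega)] at hj'
      by_cases h4 : (j : ℕ) < cO m n + (m + m)
      · rw [if_pos h4] at hj'
        exact h2 _ (by omega) hj'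
      · rw [if_neg h4, decide_eq_true_eq] at hj'
        omega
    · rw [if_neg h3]

/-! ### The rows -/

section

variable {m n p : ℕ} {g : Reg → ℝ} {drop : List Bool} {w u : ℕ → ℝ}

theorem sum_X (f : ℕ → ℝ) (h : ∀ c < m + m, drop.getD c true = true → f c = 0) :
    ∑ c ∈ Finset.range (m + m), f c = ∑ c ∈ Xc m drop, f c := by
  unfold Xc
  rw [Finset.sum_filter]
  refine Finset.sum_congr rfl fun c hc => ?_
  by_cases h1 : drop.getD c true = false
  · rw [if_pos h1]
  · rw [if_neg h1]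
    rw [Bool.not_eq_false] at h1
    exact h c (Finset.mem_range.1 hc) h1

theorem rowS (hu : ∀ c < m + m, drop.getD c true = true → u c = 0) (i : ℕ) :
    ∑ c ∈ Finset.range (m + m + 4), PW m n p g w i c * u c =
      ∑ c ∈ Xc m drop, PW m n p g w i c * u c + PW m n p g w i (m + m) * u (m + m) +
        PW m n p g w i (m + m + 1) * u (m + m + 1) + PW m n p g w i (m + m + 2) * u (m + m + 2) +
        PW m n p g w i (m + m + 3) * u (m + m + 3) := by
  rw [show m + m + 4 = m + m + 3 + 1 from rfl, Finset.sum_range_succ,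
    show m + m + 3 = m + m + 2 + 1 from rfl, Finset.sum_range_succ,
    show m + m + 2 = m + m + 1 + 1 from rfl, Finset.sum_range_succ, Finset.sum_range_succ,
    sum_X (drop := drop) (fun c => PW m n p g w i c * u c) fun c hc hd => by
      simp only [hu c hc hd, mul_zero]]

theorem PW_X (i c : ℕ) (hc : c ∈ Xc m drop) :
    PW m n p g w i c = (if i < n + 2 then Rb m n p g i c else 0) * w c := by
  have hc' := (TLSP.mem_Xc.1 hc).1
  unfold PW Pc
  rw [if_pos hc', if_neg (show ¬ (i = n + 2 ∧ c = m + m + 3) by omega)]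

theorem PW_0 (i : ℕ) : PW m n p g w i (m + m) = (if i = n + 1 then 1 else 0) * w (m + m) := by
  unfold PW Pc
  rw [if_neg (by omega), if_pos rfl, if_neg (show ¬ (i = n + 2 ∧ m + m = m + m + 3) by omega)]

theorem PW_1 (i : ℕ) :
    PW m n p g w i (m + m + 1) = (if i = n + 2 then -1 else 0) * w (m + m + 1) := by
  unfold PW Pc
  rw [if_neg (by omega), if_neg (by omega), if_pos rfl,
    if_neg (show ¬ (i = n + 2 ∧ m + m + 1 = m + m + 3) by omega)]

theorem PW_2 (i : ℕ) : PW m n p g w i (m + m + 2) =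
    (if i = n + 1 then -1 else if i = n + 2 then 1 else 0) * w (m + m + 2) := by
  unfold PW Pc
  rw [if_neg (by omega), if_neg (by omega), if_neg (by omega), if_pos rfl,
    if_neg (show ¬ (i = n + 2 ∧ m + m + 2 = m + m + 3) by omega)]

theorem PW_3 (i : ℕ) : PW m n p g w i (m + m + 3) =
    (if i = n ∨ i = n + 2 then -1 else 0) * (if i = n + 2 then 2 ^ cA m n else w (m + m + 3)) := by
  unfold PW Pc
  rw [if_neg (by omega), if_neg (by omega), if_neg (by omega), if_neg (by omega)]
  by_cases h : i = n + 2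
  · rw [if_pos (show i = n + 2 ∧ m + m + 3 = m + m + 3 from ⟨h, rfl⟩), if_pos h]
  · rw [if_neg (show ¬ (i = n + 2 ∧ m + m + 3 = m + m + 3) from fun h' => h h'.1), if_neg h]

theorem row_lt (hu : ∀ c < m + m, drop.getD c true = true → u c = 0) (i : ℕ) (hi : i < n) :
    ∑ c ∈ Finset.range (m + m + 4), PW m n p g w i c * u c =
      ∑ c ∈ Xc m drop, Rb m n p g i c * (w c * u c) := by
  rw [rowS hu, PW_0, PW_1, PW_2, PW_3, if_neg (by omega), if_neg (by omega), if_neg (by omega),
    if_neg (by omega), if_neg (by omega)]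
  rw [show ∑ c ∈ Xc m drop, PW m n p g w i c * u c =
    ∑ c ∈ Xc m drop, Rb m n p g i c * (w c * u c) from
    Finset.sum_congr rfl fun c hc => by rw [PW_X i c hc, if_pos (by omega)]; ring]
  ring

theorem row_n (hu : ∀ c < m + m, drop.getD c true = true → u c = 0) :
    ∑ c ∈ Finset.range (m + m + 4), PW m n p g w n c * u c =
      ∑ c ∈ Xc m drop, Rb m n p g n c * (w c * u c) - w (m + m + 3) * u (m + m + 3) := by
  rw [rowS hu, PW_0, PW_1, PW_2, PW_3, if_neg (by omega), if_neg (by omega), if_neg (by omega),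
    if_neg (by omega), if_pos (Or.inl rfl), if_neg (by omega)]
  rw [show ∑ c ∈ Xc m drop, PW m n p g w n c * u c =
    ∑ c ∈ Xc m drop, Rb m n p g n c * (w c * u c) from
    Finset.sum_congr rfl fun c hc => by rw [PW_X n c hc, if_pos (by omega)]; ring]
  ring

theorem row_n1 (hu : ∀ c < m + m, drop.getD c true = true → u c = 0) :
    ∑ c ∈ Finset.range (m + m + 4), PW m n p g w (n + 1) c * u c =
      ∑ c ∈ Xc m drop, w c * u c + w (m + m) * u (m + m) - w (m + m + 2) * u (m + m + 2) := by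
  rw [rowS hu, PW_0, PW_1, PW_2, PW_3, if_pos rfl, if_neg (by omega), if_pos rfl,
    if_neg (by omega), if_neg (by omega)]
  rw [show ∑ c ∈ Xc m drop, PW m n p g w (n + 1) c * u c =
    ∑ c ∈ Xc m drop, w c * u c from
    Finset.sum_congr rfl fun c hc => by
      rw [PW_X _ c hc, if_pos (by omega), TLSP.Rb_last _ _ _ _ _ (TLSP.mem_Xc.1 hc).1]; ring]
  ring

theorem row_n2 (hu : ∀ c < m + m, drop.getD c true = true → u c = 0) :
    ∑ c ∈ Finset.range (m + m + 4), PW m n p g w (n + 2) c * u c =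
      - (w (m + m + 1) * u (m + m + 1)) + w (m + m + 2) * u (m + m + 2) -
        2 ^ cA m n * u (m + m + 3) := by
  rw [rowS hu, PW_0, PW_1, PW_2, PW_3, if_neg (by omega), if_pos rfl, if_neg (by omega),
    if_pos rfl, if_pos (Or.inr rfl), if_pos rfl]
  rw [show ∑ c ∈ Xc m drop, PW m n p g w (n + 2) c * u c = 0 from
    Finset.sum_eq_zero fun c hc => by
      rw [PW_X _ c hc, if_neg (by omega)]; ring]
  ring

/-- The subspace. -/
theorem mem_L {x : ℕ → ℝ} : x ∈ Lsp m n p g drop ↔
    (∀ i < n, ∑ c ∈ Xc m drop, Rb m n p g i c * x c = 0) ∧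
    x (m + m) = ∑ c ∈ Xc m drop, Rb m n p g n c * x c ∧
    x (m + m + 1) = ∑ c ∈ Xc m drop, x c := by
  constructor
  · intro hx
    refine ⟨fun i hi => ?_, TLSP.q_eq hx, TLSP.nu_eq hx⟩
    have h : ∑ c ∈ Acs m drop, Rb m n p g i c * x c = 0 := hx i (by omega)
    rw [TLSP.sum_Acs, TLSP.Rb_q, TLSP.Rb_nu, if_neg (by omega), if_neg (by omega)] at h
    linarith
  · rintro ⟨h1, h2, h3⟩ i hi
    rw [TLSP.sum_Acs, TLSP.Rb_q, TLSP.Rb_nu]
    rcases lt_trichotomy i n with h | h | h
    · rw [if_neg (by omega), if_neg (by omega), h1 i h]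
      ring
    · subst h
      rw [if_pos rfl, if_neg (by omega), h2]
      ring
    · have h' : i = n + 1 := by omega
      subst h'
      rw [if_neg (by omega), if_pos rfl, h3]
      have e : ∑ c ∈ Xc m drop, Rb m n p g (n + 1) c * x c = ∑ c ∈ Xc m drop, x c := by
        refine Finset.sum_congr rfl fun c hc => ?_
        rw [TLSP.Rb_last _ _ _ _ _ (TLSP.mem_Xc.1 hc).1, one_mul]
      rw [e]
      ring

end

/-! ### Halving a weight -/

/-- The weight number `e` is halved. -/
def hv (m : ℕ) (Ws : List Mo) (e : ℕ) : List Mo :=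
  (List.range (m + m + 4)).map fun c =>
    if e = c then moHalf (Ws.getD c moOne) else Ws.getD c moOne

theorem hv_len (m : ℕ) (Ws : List Mo) (e : ℕ) : (hv m Ws e).length = m + m + 4 := by
  unfold hv
  simp

theorem hv_getD (m : ℕ) (Ws : List Mo) (e c : ℕ) (hc : c < m + m + 4) :
    (hv m Ws e).getD c moOne = if e = c then moHalf (Ws.getD c moOne) else Ws.getD c moOne := by
  unfold hv
  exact TPROJ.getD_map_range _ _ _ _ hc

theorem halve_eq (m n : ℕ) (Ws : List Mo) (y : List ℕ) (e : ℕ)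
    (h : ((List.range (cD m n)).filter fun j =>
        decide (4 * (cD m n * cD m n) ≤ y.getD j 0)).head? = some (cO m n + e)) :
    halve m n Ws y = hv m Ws e := by
  unfold halve hv
  refine List.map_congr_left fun c _ => ?_
  rw [h]
  by_cases hc : e = c
  · rw [if_pos (by rw [hc]), if_pos hc]
  · rw [if_neg (fun h' => hc (by have := Option.some.inj h'; omega)), if_neg hc]

section

variable {m n p : ℕ} {g : Reg → ℝ} {drop : List Bool} {E : ℕ} {t : Mo} {W Ws : List Mo}

theorem wV_hv (hM : S_MOV) (e c : ℕ) (hc : c < m + m + 4) :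
    wV m n g (hv m Ws e) c = if e = c then wV m n g Ws c / 2 else wV m n g Ws c := by
  unfold wV
  rw [hv_getD m Ws e c hc]
  by_cases h : e = c
  · rw [if_pos h, if_pos h]
    exact ((hM m n g).2.2.2.2.2.1 _).1
  · rw [if_neg h, if_neg h]

/-- The state of the search after `j` rounds without success. -/
structure RI (m n p : ℕ) (g : Reg → ℝ) (drop : List Bool) (E : ℕ) (t : Mo) (P0 : ℝ) (j : ℕ)
    (Ws : List Mo) : Prop where
  len : Ws.length = m + m + 4
  szW : ∀ c < m + m, MoS (E + j) (4 * cD m n) (Ws.getD c moOne)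
  szA : ∀ c < m + m + 4, MoS (E + cA m n + j) (4 * cD m n) (Ws.getD c moOne)
  ok : ∀ c < m + m + 4, MoOK m n g (Ws.getD c moOne)
  pos : ∀ c < m + m + 4, 0 < wV m n g Ws c
  e0 : wV m n g Ws (m + m) = 1
  e2 : wV m n g Ws (m + m + 2) = 1
  e3 : wV m n g Ws (m + m + 3) = 2 ^ cA m n * moV m n g t
  ub : ∀ x ∈ Sl (Lsp m n p g drop) (Xc m drop) (m + m) (m + m + 1) (moV m n g t),
    (∀ c ∈ Xc m drop, x c ≤ wV m n g Ws c) ∧
      1 - x (m + m) / moV m n g t ≤ wV m n g Ws (m + m + 1)
  pr : (∏ c ∈ insert (m + m + 1) (Xc m drop), wV m n g Ws c) * 2 ^ j = P0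

theorem half_sz {e l : ℕ} {a : Mo} (h : MoS e l a) : MoS (e + 1) l (moHalf a) := by
  obtain ⟨h1, h2, h3, h4⟩ := h
  refine ⟨Nat.le_succ_of_le h1, ?_, h3, h4⟩
  show (() :: a.1.2.2).length ≤ _
  rw [List.length_cons]
  omega

theorem RI_half (hM : S_MOV) {P0 : ℝ} {j e : ℕ} (h : RI m n p g drop E t P0 j Ws)
    (he : e ∈ insert (m + m + 1) (Xc m drop))
    (hx : ∀ x ∈ Sl (Lsp m n p g drop) (Xc m drop) (m + m) (m + m + 1) (moV m n g t),
      (e ∈ Xc m drop → x e ≤ wV m n g Ws e / 2) ∧
      (e = m + m + 1 → 1 - x (m + m) / moV m n g t ≤ wV m n g Ws e / 2)) :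
    RI m n p g drop E t P0 (j + 1) (hv m Ws e) := by
  have he' : e = m + m + 1 ∨ e < m + m := by
    rcases Finset.mem_insert.1 he with h1 | h1
    · exact Or.inl h1
    · exact Or.inr (TLSP.mem_Xc.1 h1).1
  have hs : ∀ (k l c : ℕ), c < m + m + 4 → MoS k l (Ws.getD c moOne) →
      MoS (k + 1) l ((hv m Ws e).getD c moOne) := by
    intro k l c hc h1
    rw [hv_getD m Ws e c hc]
    by_cases h2 : e = c
    · rw [if_pos h2]
      exact half_sz h1
    · rw [if_neg h2]
      exact ⟨Nat.le_succ_of_le h1.1, Nat.le_succ_of_le h1.2.1, h1.2.2.1, h1.2.2.2⟩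
  refine ⟨hv_len m Ws e, ?_, ?_, ?_, ?_, ?_, ?_, ?_, ?_, ?_⟩
  · intro c hc
    exact hs _ _ c (by omega) (h.szW c hc)
  · intro c hc
    exact hs _ _ c hc (h.szA c hc)
  · intro c hc
    rw [hv_getD m Ws e c hc]
    by_cases h2 : e = c
    · rw [if_pos h2]
      exact ((hM m n g).2.2.2.2.2.1 _).2 (h.ok c hc)
    · rw [if_neg h2]
      exact h.ok c hc
  · intro c hc
    rw [wV_hv hM e c hc]
    have := h.pos c hc
    split_ifs
    · linarith
    · exact this
  · rw [wV_hv hM e _ (by omega), if_neg (by omega)]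
    exact h.e0
  · rw [wV_hv hM e _ (by omega), if_neg (by omega)]
    exact h.e2
  · rw [wV_hv hM e _ (by omega), if_neg (by omega)]
    exact h.e3
  · intro x hxS
    obtain ⟨h1, h2⟩ := h.ub x hxS
    obtain ⟨h3, h4⟩ := hx x hxS
    refine ⟨fun c hc => ?_, ?_⟩
    · have hc' := (TLSP.mem_Xc.1 hc).1
      rw [wV_hv hM e c (by omega)]
      by_cases h5 : e = c
      · rw [if_pos h5, ← h5]
        exact h3 (by rw [h5]; exact hc)
      · rw [if_neg h5]
        exact h1 c hc
    · rw [wV_hv hM e _ (by omega)]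
      by_cases h5 : e = m + m + 1
      · rw [if_pos h5, ← h5]
        exact h4 h5
      · rw [if_neg h5]
        exact h2
  · rw [← h.pr, pow_succ]
    have e1 : ∏ c ∈ insert (m + m + 1) (Xc m drop), wV m n g (hv m Ws e) c =
        (∏ c ∈ insert (m + m + 1) (Xc m drop), wV m n g Ws c) / 2 := by
      rw [← Finset.mul_prod_erase _ _ he, ← Finset.mul_prod_erase _ (fun c => wV m n g Ws c) he,
        wV_hv hM e e (by omega), if_pos rfl]
      have e2 : ∏ c ∈ (insert (m + m + 1) (Xc m drop)).erase e, wV m n g (hv m Ws e) c =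
          ∏ c ∈ (insert (m + m + 1) (Xc m drop)).erase e, wV m n g Ws c := by
        refine Finset.prod_congr rfl fun c hc => ?_
        obtain ⟨h5, h6⟩ := Finset.mem_erase.1 hc
        have h7 : c < m + m + 4 := by
          rcases Finset.mem_insert.1 h6 with h8 | h8
          · omega
          · have := (TLSP.mem_Xc.1 h8).1
            omega
        rw [wV_hv hM e c h7, if_neg (Ne.symm h5)]
      rw [e2]
      ring
    rw [e1]
    ring

theorem ws0_X (m n : ℕ) (t : Mo) (W : List Mo) (c : ℕ) (hc : c < m + m) :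
    (ws0 m n t W).getD c moOne = W.getD c moOne := by
  unfold ws0
  rw [List.getD_append _ _ _ _ (by simpa using hc)]
  exact TPROJ.getD_map_range _ _ _ _ hc

theorem ws0_r (m n : ℕ) (t : Mo) (W : List Mo) (i : ℕ) :
    (ws0 m n t W).getD (m + m + i) moOne =
      [moOne, moTwo (cA m n), moOne, moMul (moTwo (cA m n)) t].getD i moOne := by
  unfold ws0
  rw [List.getD_append_right _ _ _ _ (by simp)]
  congr 1
  simp

theorem wf_X (m n : ℕ) (g : Reg → ℝ) (t : Mo) (W : List Mo) (c : ℕ) (hc : c < m + m) :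
    wf m n g t W c = moV m n g (W.getD c moOne) := by
  unfold wf wc
  rw [if_pos hc]

theorem RI_zero (hM : S_MOV) (hI : Inv m n p g drop E t W) :
    RI m n p g drop E t (2 ^ cA m n * ∏ c ∈ Xc m drop, wf m n g t W c) 0 (ws0 m n t W) := by
  obtain ⟨h1, ok1, htwo, hmul, okmul, -, -, -, -, -, -⟩ := hM m n g
  have htp := hI.szt.2.2
  have hX : ∀ c < m + m, wV m n g (ws0 m n t W) c = wf m n g t W c := by
    intro c hc
    unfold wV
    rw [ws0_X m n t W c hc, wf_X m n g t W c hc]
  have h0 : wV m n g (ws0 m n t W) (m + m) = 1 := by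
    unfold wV
    have := ws0_r m n t W 0
    rw [add_zero] at this
    rw [this]
    exact h1
  have h1' : wV m n g (ws0 m n t W) (m + m + 1) = 2 ^ cA m n := by
    unfold wV
    rw [ws0_r m n t W 1]
    exact (htwo _).1
  have h2' : wV m n g (ws0 m n t W) (m + m + 2) = 1 := by
    unfold wV
    rw [ws0_r m n t W 2]
    exact h1
  have h3' : wV m n g (ws0 m n t W) (m + m + 3) = 2 ^ cA m n * moV m n g t := by
    unfold wV
    rw [ws0_r m n t W 3]
    show moV m n g (moMul (moTwo (cA m n)) t) = _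
    rw [hmul, (htwo _).1]
  have hcases : ∀ c < m + m + 4, c < m + m ∨ c = m + m ∨ c = m + m + 1 ∨ c = m + m + 2 ∨
      c = m + m + 3 := fun c hc => by omega
  refine ⟨?_, ?_, ?_, ?_, ?_, h0, h2', h3', ?_, ?_⟩
  · unfold ws0
    simp
  · intro c hc
    rw [ws0_X m n t W c hc]
    exact (hI.szW c hc).1
  · intro c hc
    have hz : ∀ a b : ℕ, MoS a b moOne := fun a b =>
      ⟨Nat.zero_le _, Nat.zero_le _, Nat.zero_le _, Nat.zero_le _⟩
    rcases hcases c hc with h | rfl | rfl | rfl | rfl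
    · rw [ws0_X m n t W c h]
      obtain ⟨a1, a2, a3, a4⟩ := (hI.szW c h).1
      exact ⟨by omega, by omega, a3, a4⟩
    · have := ws0_r m n t W 0
      rw [add_zero] at this
      rw [this]
      exact hz _ _
    · rw [ws0_r m n t W 1]
      refine ⟨?_, Nat.zero_le _, Nat.zero_le _, Nat.zero_le _⟩
      show (List.replicate (cA m n) ()).length ≤ _
      rw [List.length_replicate]
      omega
    · rw [ws0_r m n t W 2]
      exact hz _ _
    · rw [ws0_r m n t W 3]
      obtain ⟨a1, a2, a3, a4⟩ := hI.szt.1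
      refine ⟨?_, ?_, ?_, ?_⟩
      · show (List.replicate (cA m n) () ++ t.1.2.1).length ≤ _
        rw [List.length_append, List.length_replicate]
        omega
      · show ([] ++ t.1.2.2).length ≤ _
        rw [List.nil_append]
        omega
      · show ([] ++ t.2.1).length ≤ _
        rw [List.nil_append]
        exact a3
      · show ([] ++ t.2.2).length ≤ _
        rw [List.nil_append]
        exact a4
  · intro c hc
    rcases hcases c hc with h | rfl | rfl | rfl | rfl
    · rw [ws0_X m n t W c h]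
      exact (hI.szW c h).2.1
    · have := ws0_r m n t W 0
      rw [add_zero] at this
      rw [this]
      exact ok1
    · rw [ws0_r m n t W 1]
      exact (htwo _).2
    · rw [ws0_r m n t W 2]
      exact ok1
    · rw [ws0_r m n t W 3]
      exact okmul _ _ (htwo _).2 hI.szt.2.1
  · intro c hc
    rcases hcases c hc with h | rfl | rfl | rfl | rfl
    · rw [hX c h, wf_X m n g t W c h]
      exact (hI.szW c h).2.2
    · rw [h0]
      exact one_pos
    · rw [h1']
      positivity
    · rw [h2']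
      exact one_pos
    · rw [h3']
      positivity
  · intro x hx
    obtain ⟨b1, b2, -⟩ := hI.bd x hx
    refine ⟨fun c hc => ?_, ?_⟩
    · rw [hX c (TLSP.mem_Xc.1 hc).1]
      exact b1 c hc
    · rw [h1']
      have h4 : -(x (m + m) / moV m n g t) ≤ M0R m n := by
        rw [← neg_div, div_le_iff₀ htp]
        linarith
      have h5 : (1 : ℝ) ≤ 2 ^ cW m n := one_le_pow₀ (by norm_num)
      have h6 : (2 : ℝ) * 2 ^ cW m n ≤ 2 ^ cA m n := by
        rw [← pow_succ']
        refine pow_le_pow_right₀ (by norm_num) ?_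
        have := cD_ge m n
        unfold cW cA
        omega
      unfold M0R at h4
      linarith
  · rw [pow_zero, mul_one, Finset.prod_insert (TLSP.nu_nmem m drop), h1']
    congr 1
    exact Finset.prod_congr rfl fun c hc => hX c (TLSP.mem_Xc.1 hc).1

theorem zero_Sl (htp : 0 < moV m n g t) :
    (0 : ℕ → ℝ) ∈ Sl (Lsp m n p g drop) (Xc m drop) (m + m) (m + m + 1) (moV m n g t) := by
  refine ⟨Submodule.zero_mem _, fun c _ => le_rfl, ?_, htp.le⟩
  show (0 : ℝ) ≤ 1
  norm_num

theorem w1_ge (htp : 0 < moV m n g t) {P0 : ℝ} {j : ℕ} (h : RI m n p g drop E t P0 j Ws) :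
    1 ≤ wV m n g Ws (m + m + 1) := by
  have h1 := (h.ub 0 (zero_Sl htp)).2
  simpa using h1

/-- The number of rounds. -/
theorem count (hI : Inv m n p g drop E t W) {j : ℕ}
    (h : RI m n p g drop E t (2 ^ cA m n * ∏ c ∈ Xc m drop, wf m n g t W c) j Ws) :
    j < cR m n := by
  have htp := hI.szt.2.2
  have hw1 := w1_ge htp h
  have hX : ∀ c ∈ Xc m drop, dlR m n * wf m n g t W c ≤ wV m n g Ws c := by
    intro c hc
    obtain ⟨x, hx, hx2⟩ := hI.lo c hc
    exact hx2.trans ((h.ub x hx).1 c hc)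
  have hwp : ∀ c ∈ Xc m drop, 0 < wf m n g t W c := by
    intro c hc
    have hc' := (TLSP.mem_Xc.1 hc).1
    rw [wf_X m n g t W c hc']
    exact (hI.szW c hc').2.2
  have hdl : 0 < dlR m n := by unfold dlR; positivity
  have hP : 0 < ∏ c ∈ Xc m drop, wf m n g t W c := Finset.prod_pos hwp
  have h1 : dlR m n ^ (Xc m drop).card * ∏ c ∈ Xc m drop, wf m n g t W c ≤
      ∏ c ∈ insert (m + m + 1) (Xc m drop), wV m n g Ws c := by
    rw [Finset.prod_insert (TLSP.nu_nmem m drop), ← Finset.prod_const, ← Finset.prod_mul_distrib]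
    have h2 : ∏ c ∈ Xc m drop, dlR m n * wf m n g t W c ≤ ∏ c ∈ Xc m drop, wV m n g Ws c :=
      Finset.prod_le_prod (fun c hc => mul_nonneg hdl.le (hwp c hc).le) hX
    have h3 : 0 ≤ ∏ c ∈ Xc m drop, wV m n g Ws c := Finset.prod_nonneg fun c hc =>
      (h.pos c (by have := (TLSP.mem_Xc.1 hc).1; omega)).le
    nlinarith
  have h2 := h.pr
  have h3 : dlR m n ^ (Xc m drop).card * 2 ^ j ≤ 2 ^ cA m n := by
    have h4 : (dlR m n ^ (Xc m drop).card * 2 ^ j) * ∏ c ∈ Xc m drop, wf m n g t W c ≤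
        2 ^ cA m n * ∏ c ∈ Xc m drop, wf m n g t W c := by
      rw [← h2]
      calc _ = (dlR m n ^ (Xc m drop).card * ∏ c ∈ Xc m drop, wf m n g t W c) * 2 ^ j := by ring
        _ ≤ _ := mul_le_mul_of_nonneg_right h1 (by positivity)
    exact le_of_mul_le_mul_right h4 hP
  have h4 : (2 : ℝ) ^ j ≤ 2 ^ (cA m n + 32 * (cD m n * cD m n) * (Xc m drop).card) := by
    have h5 : dlR m n ^ (Xc m drop).card * 2 ^ (32 * (cD m n * cD m n) * (Xc m drop).card) = 1 := by
      unfold dlR
      rw [← pow_mul, ← mul_pow]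
      norm_num
    calc (2 : ℝ) ^ j = (dlR m n ^ (Xc m drop).card * 2 ^ j) *
          2 ^ (32 * (cD m n * cD m n) * (Xc m drop).card) := by
          rw [mul_right_comm, h5, one_mul]
      _ ≤ 2 ^ cA m n * 2 ^ (32 * (cD m n * cD m n) * (Xc m drop).card) :=
          mul_le_mul_of_nonneg_right h3 (by positivity)
      _ = _ := by rw [pow_add]
  have h5 : j ≤ cA m n + 32 * (cD m n * cD m n) * (Xc m drop).card :=
    (pow_le_pow_iff_right₀ (by norm_num : (1 : ℝ) < 2)).1 h4
  have h6 := TLSP.card_Xc m drop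
  have h7 := cD_ge m n
  have h8 : (Xc m drop).card ≤ cD m n := by omega
  have h9 : 32 * (cD m n * cD m n) * (Xc m drop).card ≤ 32 * (cD m n * cD m n) * cD m n :=
    Nat.mul_le_mul_left _ h8
  have h10 : 144 * cD m n ≤ cD m n * cD m n * cD m n := by
    have : 144 ≤ cD m n * cD m n := by nlinarith
    exact Nat.mul_le_mul_right _ this
  have e1 : cR m n = 64 * (cD m n * cD m n * cD m n) := by unfold cR; ring
  have e2 : 32 * (cD m n * cD m n) * cD m n = 32 * (cD m n * cD m n * cD m n) := by ring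
  have e3 : cA m n = 7 * cD m n := rfl
  rw [e1]
  rw [e2] at h9
  omega

/-- The kernel vector of a point, in the coordinates used. -/
noncomputable def ux (m n : ℕ) (drop : List Bool) (tv : ℝ) (w x : ℕ → ℝ) (c : ℕ) : ℝ :=
  if c < m + m then (if drop.getD c true = false then x c / w c else 0)
  else if c = m + m then 1 - x (m + m + 1)
  else if c = m + m + 1 then (1 - x (m + m) / tv) / w (m + m + 1)
  else if c = m + m + 2 then 1
  else x (m + m) / (2 ^ cA m n * tv)

section

variable {tv : ℝ} {w x : ℕ → ℝ}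

theorem ux_X {c : ℕ} (hc : c ∈ Xc m drop) : ux m n drop tv w x c = x c / w c := by
  obtain ⟨h1, h2⟩ := TLSP.mem_Xc.1 hc
  unfold ux
  rw [if_pos h1, if_pos h2]

theorem ux_d {c : ℕ} (hc : c < m + m) (hd : drop.getD c true = true) :
    ux m n drop tv w x c = 0 := by
  unfold ux
  rw [if_pos hc, if_neg (by rw [hd]; decide)]

theorem ux_0 : ux m n drop tv w x (m + m) = 1 - x (m + m + 1) := by
  unfold ux
  rw [if_neg (by omega), if_pos rfl]

theorem ux_1 : ux m n drop tv w x (m + m + 1) = (1 - x (m + m) / tv) / w (m + m + 1) := by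
  unfold ux
  rw [if_neg (by omega), if_neg (by omega), if_pos rfl]

theorem ux_2 : ux m n drop tv w x (m + m + 2) = 1 := by
  unfold ux
  rw [if_neg (by omega), if_neg (by omega), if_neg (by omega), if_pos rfl]

theorem ux_3 : ux m n drop tv w x (m + m + 3) = x (m + m) / (2 ^ cA m n * tv) := by
  unfold ux
  rw [if_neg (by omega), if_neg (by omega), if_neg (by omega), if_neg (by omega)]

end

/-- The kernel vector of a point. -/
theorem kv_ker (htp : 0 < moV m n g t) {P0 : ℝ} {j : ℕ} (h : RI m n p g drop E t P0 j Ws)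
    {x : ℕ → ℝ} (hx : x ∈ Lsp m n p g drop) :
    (GG m n p g drop (wV m n g Ws)).mulVec
      (eu m n (ux m n drop (moV m n g t) (wV m n g Ws) x)) = 0 := by
  obtain ⟨u, hu⟩ : ∃ u, u = ux m n drop (moV m n g t) (wV m n g Ws) x := ⟨_, rfl⟩
  obtain ⟨w, hw⟩ : ∃ w, w = wV m n g Ws := ⟨_, rfl⟩
  rw [← hu, ← hw]
  have hp : ∀ c < m + m + 4, w c ≠ 0 := fun c hc => by rw [hw]; exact (h.pos c hc).ne'
  have hd : ∀ c < m + m, drop.getD c true = true → u c = 0 := fun c hc hd => by
    rw [hu]; exact ux_d hc hd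
  have hX : ∀ c ∈ Xc m drop, w c * u c = x c := by
    intro c hc
    have hc' := (TLSP.mem_Xc.1 hc).1
    rw [hu, ux_X hc, ← hw]
    have := hp c (by omega)
    field_simp
  obtain ⟨m1, m2, m3⟩ := mem_L.1 hx
  have h2A : (2 : ℝ) ^ cA m n ≠ 0 := by positivity
  refine ker2 (fun i hi => ?_) hd
  rcases (by omega : i < n ∨ i = n ∨ i = n + 1 ∨ i = n + 2) with h1 | rfl | rfl | rfl
  · rw [row_lt hd i h1, ← m1 i h1]
    exact Finset.sum_congr rfl fun c hc => by rw [hX c hc]
  · rw [row_n hd, Finset.sum_congr rfl fun c hc => by rw [hX c hc], ← m2, hu, ux_3, hw,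
      h.e3]
    field_simp
    ring
  · rw [row_n1 hd, Finset.sum_congr rfl fun c hc => hX c hc, ← m3, hu, ux_0, ux_2, hw, h.e0, h.e2]
    ring
  · rw [row_n2 hd, hu, ux_1, ux_2, ux_3, ← hw]
    have h5 := hp (m + m + 1) (by omega)
    have h6 : w (m + m + 2) = 1 := by rw [hw]; exact h.e2
    rw [h6]
    field_simp
    ring

theorem kv_box (htp : 0 < moV m n g t) {P0 : ℝ} {j : ℕ} (h : RI m n p g drop E t P0 j Ws)
    (hbd : Bds (Lsp m n p g drop) (Xc m drop) (m + m) (m + m + 1) (moV m n g t) (wf m n g t W)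
      (M0R m n)) {x : ℕ → ℝ}
    (hx : x ∈ Sl (Lsp m n p g drop) (Xc m drop) (m + m) (m + m + 1) (moV m n g t)) (c : ℕ)
    (hc : c < m + m + 4) :
    |ux m n drop (moV m n g t) (wV m n g Ws) x c| ≤ 1 ∧
    (c < m + m + 2 → 0 ≤ ux m n drop (moV m n g t) (wV m n g Ws) x c) := by
  obtain ⟨hx1, hx2, hx3, hx4⟩ := hx
  obtain ⟨u1, u2⟩ := h.ub x ⟨hx1, hx2, hx3, hx4⟩
  obtain ⟨-, b2, b3⟩ := hbd x ⟨hx1, hx2, hx3, hx4⟩
  have ab : ∀ v : ℝ, 0 ≤ v → v ≤ 1 → |v| ≤ 1 := fun v h1 h2 => by rwa [abs_of_nonneg h1]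
  rcases (by omega : c < m + m ∨ c = m + m ∨ c = m + m + 1 ∨ c = m + m + 2 ∨ c = m + m + 3) with
    h1 | rfl | rfl | rfl | rfl
  · by_cases hd : drop.getD c true = false
    · have hcX : c ∈ Xc m drop := TLSP.mem_Xc.2 ⟨h1, hd⟩
      rw [ux_X hcX]
      have hwp := h.pos c (by omega)
      have h2 : 0 ≤ x c / wV m n g Ws c := div_nonneg (hx2 c hcX) hwp.le
      exact ⟨ab _ h2 ((div_le_one hwp).2 (u1 c hcX)), fun _ => h2⟩
    · rw [Bool.not_eq_false] at hd
      rw [ux_d h1 hd]
      exact ⟨by simp, fun _ => le_rfl⟩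
  · rw [ux_0]
    exact ⟨ab _ (by linarith) (by linarith), fun _ => by linarith⟩
  · rw [ux_1]
    have hwp := h.pos (m + m + 1) (by omega)
    have h2 : 0 ≤ (1 - x (m + m) / moV m n g t) / wV m n g Ws (m + m + 1) := by
      refine div_nonneg ?_ hwp.le
      rw [sub_nonneg, div_le_one htp]
      exact hx4
    exact ⟨ab _ h2 ((div_le_one hwp).2 u2), fun _ => h2⟩
  · rw [ux_2]
    exact ⟨by simp, fun _ => zero_le_one⟩
  · rw [ux_3]
    refine ⟨?_, fun h' => by omega⟩
    have h2A : (1 : ℝ) ≤ 2 ^ cA m n := one_le_pow₀ (by norm_num)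
    have h3 : M0R m n ≤ 2 ^ cA m n := by
      unfold M0R
      refine pow_le_pow_right₀ (by norm_num) ?_
      unfold cW cA
      omega
    rw [abs_div, abs_of_pos (by positivity : (0 : ℝ) < 2 ^ cA m n * moV m n g t),
      div_le_one (by positivity), abs_le]
    constructor
    · nlinarith
    · nlinarith

/-- The test of the coordinates used. -/
theorem ts_e {jj : ℕ} (hj : jj < cD m n) (h : (tsK m n drop).getD jj false = true) :
    ∃ e, jj = cO m n + e ∧ (e ∈ Xc m drop ∨ e = m + m ∨ e = m + m + 1) := by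
  rw [ts_getD m n drop jj hj] at h
  by_cases h1 : jj < cO m n
  · rw [if_pos h1] at h
    exact absurd h (by decide)
  · rw [if_neg h1] at h
    refine ⟨jj - cO m n, by omega, ?_⟩
    by_cases h2 : jj < cO m n + (m + m)
    · rw [if_pos h2, Bool.not_eq_true'] at h
      exact Or.inl (TLSP.mem_Xc.2 ⟨by omega, h⟩)
    · rw [if_neg h2, decide_eq_true_eq] at h
      right
      omega

theorem e_ts {e : ℕ} (h : e ∈ Xc m drop ∨ e = m + m ∨ e = m + m + 1) :
    (tsK m n drop).getD (cO m n + e) false = true := by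
  have hD := cD_eq m n
  rcases h with h | rfl | rfl
  · obtain ⟨h1, h2⟩ := TLSP.mem_Xc.1 h
    rw [ts_getD m n drop _ (by omega), if_neg (by omega), if_pos (by omega),
      Nat.add_sub_cancel_left, h2]
    rfl
  · rw [ts_getD m n drop _ (by omega), if_neg (by omega), if_neg (by omega), decide_eq_true_eq]
    omega
  · rw [ts_getD m n drop _ (by omega), if_neg (by omega), if_neg (by omega), decide_eq_true_eq]
    omega

/-- The kernel vector of a point, all conditions. -/
theorem kv (htp : 0 < moV m n g t) {P0 : ℝ} {j : ℕ} (h : RI m n p g drop E t P0 j Ws)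
    (hbd : Bds (Lsp m n p g drop) (Xc m drop) (m + m) (m + m + 1) (moV m n g t) (wf m n g t W)
      (M0R m n)) {x : ℕ → ℝ}
    (hx : x ∈ Sl (Lsp m n p g drop) (Xc m drop) (m + m) (m + m + 1) (moV m n g t)) :
    (∀ i, |eu m n (ux m n drop (moV m n g t) (wV m n g Ws) x) i| ≤ 1) ∧
    (∀ i : Fin (cD m n), (tsK m n drop).getD i false = true →
      0 ≤ eu m n (ux m n drop (moV m n g t) (wV m n g Ws) x) i) ∧
    ∀ (e : ℕ) (he : cO m n + e < cD m n), e < m + m + 4 →
      eu m n (ux m n drop (moV m n g t) (wV m n g Ws) x) ⟨cO m n + e, he⟩ =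
        ux m n drop (moV m n g t) (wV m n g Ws) x e := by
  refine ⟨fun i => ?_, fun i hi => ?_, fun e he h1 => ?_⟩
  · unfold eu
    by_cases h1 : cO m n ≤ (i : ℕ) ∧ (i : ℕ) < cO m n + (m + m + 4)
    · rw [if_pos h1]
      exact (kv_box htp h hbd hx _ (by omega)).1
    · rw [if_neg h1]
      simp
  · obtain ⟨e, he, he2⟩ := ts_e i.2 hi
    have he3 : e < m + m + 2 := by
      rcases he2 with h1 | h1 | h1
      · have := (TLSP.mem_Xc.1 h1).1
        omega
      · omega
      · omega
    unfold eu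
    rw [if_pos ⟨by omega, by omega⟩, he, Nat.add_sub_cancel_left]
    exact (kv_box htp h hbd hx e (by omega)).2 he3
  · unfold eu
    rw [if_pos ⟨by simp, by simp only; omega⟩]
    simp

/-- A round without success. -/
theorem fail_step (hM : S_MOV) (htp : 0 < moV m n g t) {P0 : ℝ} {j : ℕ}
    (h : RI m n p g drop E t P0 j Ws)
    (hbd : Bds (Lsp m n p g drop) (Xc m drop) (m + m) (m + m + 1) (moV m n g t) (wf m n g t W)
      (M0R m n)) (y : List ℕ)
    (h1 : ∃ j < cD m n, (tsK m n drop).getD j false = true ∧ 4 * (cD m n * cD m n) ≤ y.getD j 0)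
    (h2 : ∀ j < cD m n, 4 * (cD m n * cD m n) ≤ y.getD j 0 →
      (tsK m n drop).getD j false = true)
    (h3 : ∀ x : Fin (cD m n) → ℝ, (GG m n p g drop (wV m n g Ws)).mulVec x = 0 →
      (∀ j, |x j| ≤ 1) → (∀ j : Fin (cD m n), (tsK m n drop).getD j false = true → 0 ≤ x j) →
      ∀ j : Fin (cD m n), 4 * (cD m n * cD m n) ≤ y.getD j 0 → x j ≤ 1 / 2) :
    RI m n p g drop E t P0 (j + 1) (halve m n Ws y) := by
  obtain ⟨j₀, hj₀, -, hj₀2⟩ := h1
  rcases hl : ((List.range (cD m n)).filter fun j =>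
        decide (4 * (cD m n * cD m n) ≤ y.getD j 0)) with _ | ⟨j₁, l⟩
  · exfalso
    have : j₀ ∈ ((List.range (cD m n)).filter fun j =>
        decide (4 * (cD m n * cD m n) ≤ y.getD j 0)) :=
      List.mem_filter.2 ⟨List.mem_range.2 hj₀, by rw [decide_eq_true_eq]; exact hj₀2⟩
    rw [hl] at this
    exact absurd this List.not_mem_nil
  · have hj₁ : j₁ ∈ ((List.range (cD m n)).filter fun j =>
        decide (4 * (cD m n * cD m n) ≤ y.getD j 0)) := by
      rw [hl]
      exact List.mem_cons_self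
    obtain ⟨a1, a2⟩ := List.mem_filter.1 hj₁
    have a3 := List.mem_range.1 a1
    rw [decide_eq_true_eq] at a2
    obtain ⟨e, rfl, he2⟩ := ts_e a3 (h2 j₁ a3 a2)
    have hhead : ((List.range (cD m n)).filter fun j =>
        decide (4 * (cD m n * cD m n) ≤ y.getD j 0)).head? = some (cO m n + e) := by
      rw [hl]
      rfl
    rw [halve_eq m n Ws y e hhead]
    have he3 : e < m + m + 4 := by
      rcases he2 with h1 | h1 | h1
      · have := (TLSP.mem_Xc.1 h1).1
        omega
      · omega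
      · omega
    have hux : ∀ x ∈ Sl (Lsp m n p g drop) (Xc m drop) (m + m) (m + m + 1) (moV m n g t),
        ux m n drop (moV m n g t) (wV m n g Ws) x e ≤ 1 / 2 := by
      intro x hx
      obtain ⟨b1, b2, b3⟩ := kv htp h hbd hx
      have b4 := h3 _ (kv_ker htp h hx.1) b1 b2 ⟨cO m n + e, a3⟩ a2
      rwa [b3 e a3 he3] at b4
    have hwp := h.pos e he3
    have he4 : e ∈ Xc m drop ∨ e = m + m + 1 := by
      rcases he2 with h4 | h4 | h4
      · exact Or.inl h4
      · exfalso
        have h5 := hux 0 (zero_Sl htp)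
        rw [h4, ux_0] at h5
        simp at h5
        linarith
      · exact Or.inr h4
    refine RI_half hM h (by rw [Finset.mem_insert]; tauto) fun x hx => ⟨fun h4 => ?_, fun h4 => ?_⟩
    · have h5 := hux x hx
      rw [ux_X h4, div_le_iff₀ hwp] at h5
      linarith
    · have h5 := hux x hx
      rw [h4] at h5 hwp ⊢
      rw [ux_1, div_le_iff₀ hwp] at h5
      linarith

/-- The projection is unique. -/
theorem pr_uniq {K : ℕ} {G : Matrix (Fin K) (Fin K) ℝ} (hG : G.IsSymm) {y z z' : Fin K → ℝ}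
    (h : IsPr G y z) (h' : IsPr G y z') : z = z' := by
  obtain ⟨h1, u, h2⟩ := h
  obtain ⟨h1', u', h2'⟩ := h'
  have h3 : G.mulVec (z - z') = 0 := by rw [Matrix.mulVec_sub, h1, h1', sub_zero]
  have h4 : z - z' = G.mulVec (u' - u) := by
    funext l
    rw [Matrix.mulVec_sub, Pi.sub_apply, Pi.sub_apply, ← h2', ← h2]
    ring
  have h5 : (z - z') ⬝ᵥ G.mulVec (u' - u) = 0 := by
    rw [Matrix.dotProduct_mulVec, ← Matrix.mulVec_transpose, hG.eq, h3, zero_dotProduct]
  rw [← h4] at h5
  have h6 := (dotProduct_self_eq_zero (v := z - z')).1 h5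
  exact sub_eq_zero.1 h6

theorem wf_take (m n : ℕ) (g : Reg → ℝ) (t : Mo) (Ws : List Mo) (c : ℕ) (hc : c < m + m) :
    wf m n g t (Ws.take (m + m)) c = wV m n g Ws c := by
  rw [wf_X m n g t _ c hc]
  unfold wV
  congr 1
  rw [List.getD_eq_getElem?_getD, List.getD_eq_getElem?_getD, List.getElem?_take, if_pos hc]

/-- The end of the search. -/
theorem succ (hI : Inv m n p g drop E t W) {P0 : ℝ} {j : ℕ}
    (h : RI m n p g drop E t P0 j Ws) (z : Fin (cD m n) → ℝ)
    (hz : (GG m n p g drop (wV m n g Ws)).mulVec z = 0)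
    (hz1 : ∀ i : Fin (cD m n), (tsK m n drop).getD i false = true → 1 / 4 < z i)
    (hz2 : ∀ i : Fin (cD m n), |z i| ≤ 3 * (cD m n : ℝ) ^ 2) :
    ∃ x : ℕ → ℝ, Cen (Lsp m n p g drop) (Xc m drop) (m + m) (m + m + 1) (moV m n g t)
      (wf m n g t (Ws.take (m + m))) (epR m n) x ∧
      (∀ hh : cO m n + (m + m + 3) < cD m n,
        (z ⟨cO m n + (m + m + 3), hh⟩ < 0 ↔ x (m + m) < 0)) ∧
      (0 ≤ x (m + m) → Bds (Lsp m n p g drop) (Xc m drop) (m + m) (m + m + 1) (moV m n g t)
        (wf m n g t (Ws.take (m + m))) (MR m n)) := by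
  have htp := hI.szt.2.2
  have hD := cD_eq m n
  obtain ⟨tv, htv⟩ : ∃ tv, tv = moV m n g t := ⟨_, rfl⟩
  obtain ⟨w, hw⟩ : ∃ w, w = wV m n g Ws := ⟨_, rfl⟩
  obtain ⟨u, hu⟩ : ∃ u, u = uz m n z := ⟨_, rfl⟩
  obtain ⟨k1, k2⟩ := ker1 hz
  rw [← hu, ← hw] at k1
  rw [← hu] at k2
  rw [← htv] at htp ⊢
  have hue : ∀ (e : ℕ) (he : cO m n + e < cD m n), u e = z ⟨cO m n + e, he⟩ := by
    intro e he
    rw [hu]
    unfold uz
    rw [dif_pos he]
  have r0 := k1 n (by omega)
  rw [row_n k2] at r0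
  have r1 := k1 (n + 1) (by omega)
  rw [row_n1 k2] at r1
  have r2 := k1 (n + 2) (by omega)
  rw [row_n2 k2] at r2
  have w0 : w (m + m) = 1 := by rw [hw]; exact h.e0
  have w2 : w (m + m + 2) = 1 := by rw [hw]; exact h.e2
  have w3 : w (m + m + 3) = 2 ^ cA m n * tv := by rw [hw, htv]; exact h.e3
  have w1 : 1 ≤ w (m + m + 1) := by
    rw [hw]
    exact w1_ge (by rw [← htv]; exact htp) h
  rw [w0, w2, one_mul, one_mul] at r1
  rw [w2, one_mul] at r2
  rw [w3] at r0
  have hwp : ∀ c < m + m + 4, 0 < w c := fun c hc => by rw [hw]; exact h.pos c hc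
  have hXp : ∀ c ∈ Xc m drop, 1 / 4 < u c := by
    intro c hc
    have hc' := (TLSP.mem_Xc.1 hc).1
    rw [hue c (by omega)]
    exact hz1 _ (e_ts (Or.inl hc))
  have h0p : 1 / 4 < u (m + m) := by
    rw [hue (m + m) (by omega)]
    exact hz1 _ (e_ts (Or.inr (Or.inl rfl)))
  have h1p : 1 / 4 < u (m + m + 1) := by
    rw [hue (m + m + 1) (by omega)]
    exact hz1 _ (e_ts (Or.inr (Or.inr rfl)))
  obtain ⟨ν, hν⟩ : ∃ ν, ν = u (m + m + 2) := ⟨_, rfl⟩
  rw [← hν] at r1 r2
  have hsum : 0 ≤ ∑ c ∈ Xc m drop, w c * u c := Finset.sum_nonneg fun c hc =>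
    mul_nonneg (hwp c (by have := (TLSP.mem_Xc.1 hc).1; omega)).le (by have := hXp c hc; linarith)
  have hνp : 0 < ν := by linarith
  have hνu : ν ≤ 3 * (cD m n : ℝ) ^ 2 := by
    rw [hν, hue (m + m + 2) (by omega)]
    exact (le_abs_self _).trans (hz2 _)
  have hKp : (0 : ℝ) < (cD m n : ℝ) ^ 2 := by
    have h1 := cD_ge m n
    have : (0 : ℝ) < cD m n := by
      have : 0 < cD m n := by omega
      exact_mod_cast this
    positivity
  have hep := ep_le m n
  have hδ : ∀ v : ℝ, 1 / 4 < v → 1 / (12 * (cD m n : ℝ) ^ 2) ≤ v / ν := by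
    intro v hv
    rw [div_le_div_iff₀ (by positivity) hνp]
    nlinarith
  have hδ' : ∀ v : ℝ, 1 / 4 < v → epR m n ≤ v / ν := fun v hv => hep.trans (hδ v hv)
  obtain ⟨x, hx⟩ : ∃ x : ℕ → ℝ, x = fun c => if c = m + m then 2 ^ cA m n * tv * u (m + m + 3) / ν
    else if c = m + m + 1 then ∑ c ∈ Xc m drop, w c * u c / ν else w c * u c / ν := ⟨_, rfl⟩
  have xq : x (m + m) = 2 ^ cA m n * tv * u (m + m + 3) / ν := by
    rw [hx]
    simp only
    rw [if_pos trivial]
  have xn : x (m + m + 1) = ∑ c ∈ Xc m drop, w c * u c / ν := by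
    rw [hx]
    simp only
    rw [if_neg (by omega), if_pos trivial]
  have xc : ∀ c ∈ Xc m drop, x c = w c * u c / ν := by
    intro c hc
    have hc' := (TLSP.mem_Xc.1 hc).1
    rw [hx]
    simp only
    rw [if_neg (by omega), if_neg (by omega)]
  have hq : x (m + m) = tv * (1 - w (m + m + 1) * u (m + m + 1) / ν) := by
    have e : 2 ^ cA m n * u (m + m + 3) = ν - w (m + m + 1) * u (m + m + 1) := by linarith
    rw [xq]
    calc 2 ^ cA m n * tv * u (m + m + 3) / ν = tv * (2 ^ cA m n * u (m + m + 3)) / ν := by ring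
      _ = _ := by
        rw [e]
        field_simp
  have hpr : w (m + m + 1) * (1 / (12 * (cD m n : ℝ) ^ 2)) ≤
      w (m + m + 1) * u (m + m + 1) / ν := by
    rw [mul_div_assoc]
    exact mul_le_mul_of_nonneg_left (hδ _ h1p) (by linarith)
  refine ⟨x, ⟨?_, ?_, ?_, ?_⟩, ?_, ?_⟩
  · rw [mem_L]
    refine ⟨fun i hi => ?_, ?_, ?_⟩
    · have r3 := k1 i (by omega)
      rw [row_lt k2 i hi] at r3
      have e : ∑ c ∈ Xc m drop, Rb m n p g i c * x c =
          (∑ c ∈ Xc m drop, Rb m n p g i c * (w c * u c)) / ν := by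
        rw [Finset.sum_div]
        refine Finset.sum_congr rfl fun c hc => ?_
        rw [xc c hc]
        ring
      rw [e, r3, zero_div]
    · have e : ∑ c ∈ Xc m drop, Rb m n p g n c * x c =
          (∑ c ∈ Xc m drop, Rb m n p g n c * (w c * u c)) / ν := by
        rw [Finset.sum_div]
        refine Finset.sum_congr rfl fun c hc => ?_
        rw [xc c hc]
        ring
      rw [e, xq]
      congr 1
      linarith
    · rw [xn]
      exact Finset.sum_congr rfl fun c hc => (xc c hc).symm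
  · intro c hc
    have hc' := (TLSP.mem_Xc.1 hc).1
    rw [xc c hc, wf_take m n g t Ws c hc', ← hw]
    have h3 := hδ' _ (hXp c hc)
    have h4 := hwp c (by omega)
    calc epR m n * w c ≤ u c / ν * w c := mul_le_mul_of_nonneg_right h3 h4.le
      _ = _ := by ring
  · rw [xn, ← Finset.sum_div]
    have e : ∑ c ∈ Xc m drop, w c * u c = ν - u (m + m) := by linarith
    rw [e, sub_div, div_self hνp.ne']
    have := hδ' _ h0p
    linarith
  · rw [hq]
    have h3 := hδ' _ h1p
    have h4 : u (m + m + 1) / ν ≤ w (m + m + 1) * u (m + m + 1) / ν := by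
      rw [mul_div_assoc]
      have : 0 ≤ u (m + m + 1) / ν := div_nonneg (by linarith) hνp.le
      nlinarith
    nlinarith
  · intro hh
    rw [← hue (m + m + 3) hh, xq]
    have h3 : (0 : ℝ) < 2 ^ cA m n * tv / ν := by positivity
    have e : 2 ^ cA m n * tv * u (m + m + 3) / ν = (2 ^ cA m n * tv / ν) * u (m + m + 3) := by ring
    rw [e]
    constructor
    · intro h4
      exact mul_neg_of_pos_of_neg h3 h4
    · intro h4
      by_contra h5
      have := mul_nonneg h3.le (not_lt.1 h5)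
      linarith
  · intro hx0 y hy
    rw [hq] at hx0
    have h3 : 0 ≤ 1 - w (m + m + 1) * u (m + m + 1) / ν := by
      by_contra h4
      have := mul_neg_of_pos_of_neg htp (not_le.1 h4)
      linarith
    have h4 : w (m + m + 1) * (1 / (12 * (cD m n : ℝ) ^ 2)) ≤ 1 := by linarith
    rw [mul_one_div, div_le_one (by positivity)] at h4
    rw [htv] at hy
    obtain ⟨u1, u2⟩ := h.ub y hy
    obtain ⟨-, -, b3⟩ := hI.bd y hy
    have hM := MR_ge m n
    rw [← hw, ← htv] at u2
    refine ⟨fun c hc => ?_, ?_, b3⟩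
    · rw [wf_take m n g t Ws c (TLSP.mem_Xc.1 hc).1]
      exact u1 c hc
    · have h5 : 1 - y (m + m) / tv ≤ MR m n := by linarith
      have h6 : - (MR m n) ≤ y (m + m) / tv := by linarith
      rw [le_div_iff₀ htp] at h6
      linarith

end

/-! ### The rounds -/

section

variable (m n p : ℕ) (g : Reg → ℝ) (drop : List Bool) (t : Mo) (W : List Mo)

/-- The result of the perceptron algorithm. -/
noncomputable def rp (Ws : List Mo) : List ℕ × Bool :=
  pSt (cD m n) (GG m n p g drop (wV m n g Ws)) (tsK m n drop) (cT (n + 3) (m + m + 4))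

/-- The next state. -/
noncomputable def nx (s : RS) : RS :=
  if s.2 = true then s
  else if (rp m n p g drop s.1.1).2 = true then ((s.1.1, (rp m n p g drop s.1.1).1), true)
  else ((halve m n s.1.1 (rp m n p g drop s.1.1).1, (rp m n p g drop s.1.1).1), false)

/-- The states. -/
noncomputable def sq : ℕ → RS
  | 0 => ((ws0 m n t W, []), false)
  | i + 1 => nx m n p g drop (sq i)

end

/-- What is known about the states. -/
theorem st_all (hPERM : S_PERM) (hM : S_MOV) {m n p : ℕ} {g : Reg → ℝ} {drop : List Bool} {E : ℕ}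
    {t : Mo} {W : List Mo} (hI : Inv m n p g drop E t W) (i : ℕ) :
    ((sq m n p g drop t W i).2 = false ∧ RI m n p g drop E t
      (2 ^ cA m n * ∏ c ∈ Xc m drop, wf m n g t W c) i (sq m n p g drop t W i).1.1) ∨
    ((sq m n p g drop t W i).2 = true ∧ (∃ j, RI m n p g drop E t
      (2 ^ cA m n * ∏ c ∈ Xc m drop, wf m n g t W c) j (sq m n p g drop t W i).1.1) ∧
      (sq m n p g drop t W i).1.2 = (rp m n p g drop (sq m n p g drop t W i).1.1).1 ∧
      (rp m n p g drop (sq m n p g drop t W i).1.1).2 = true) := by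
  induction i with
  | zero => exact Or.inl ⟨rfl, RI_zero hM hI⟩
  | succ i ih =>
    have e : sq m n p g drop t W (i + 1) = nx m n p g drop (sq m n p g drop t W i) := rfl
    rcases ih with ⟨h1, h2⟩ | ⟨h1, h2⟩
    · have hsym := (TKERSTEP.ker_thm (n + 3) (m + m + 4) (gW m n p g (wV m n g
        (sq m n p g drop t W i).1.1)) (fun _ => 1) (drK m n drop))
      have hp := hPERM (cD m n) (GG m n p g drop (wV m n g (sq m n p g drop t W i).1.1))
        (tsK m n drop) (drK m n drop) (by have := cD_ge m n; omega) hsym.1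
        (fun x hx j hj => ((hsym.2 x).1 hx).2 j hj) (fun j hj hts => ts_dr m n drop j hj hts)
        (nd_len m n drop)
      obtain ⟨-, -, hfail⟩ := hp
      by_cases h3 : (rp m n p g drop (sq m n p g drop t W i).1.1).2 = true
      · right
        have e2 : sq m n p g drop t W (i + 1) = (((sq m n p g drop t W i).1.1,
            (rp m n p g drop (sq m n p g drop t W i).1.1).1), true) := by
          rw [e]
          unfold nx
          rw [if_neg (by rw [h1]; decide), if_pos h3]
        rw [e2]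
        exact ⟨rfl, ⟨i, h2⟩, rfl, h3⟩
      · left
        have e2 : sq m n p g drop t W (i + 1) = ((halve m n (sq m n p g drop t W i).1.1
            (rp m n p g drop (sq m n p g drop t W i).1.1).1,
            (rp m n p g drop (sq m n p g drop t W i).1.1).1), false) := by
          rw [e]
          unfold nx
          rw [if_neg (by rw [h1]; decide), if_neg h3]
        rw [e2]
        rw [Bool.not_eq_true] at h3
        obtain ⟨f1, f2, f3⟩ := hfail h3
        exact ⟨rfl, fail_step hM hI.szt.2.2 h2 hI.bd _ f1 f2 f3⟩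
    · right
      have e2 : sq m n p g drop t W (i + 1) = sq m n p g drop t W i := by
        rw [e]
        unfold nx
        rw [if_pos h1]
      rw [e2]
      exact ⟨h1, h2⟩

/-- The bound for the sizes. -/
noncomputable def pS (pB : Polynomial ℕ) : Polynomial ℕ := pB + (11 * pD + pR)

theorem pS_le (pB : Polynomial ℕ) (m n E : ℕ) (hE : E ≤ pB.eval (m + n)) :
    E + cA m n + cR m n ≤ (pS pB).eval (m + n) ∧ 4 * cD m n ≤ (pS pB).eval (m + n) := by
  have h1 := pD_le m n
  have h2 := pR_le m n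
  have h3 : (pS pB).eval (m + n) = pB.eval (m + n) + (11 * pD.eval (m + n) + pR.eval (m + n)) := by
    unfold pS
    simp only [Polynomial.eval_add, Polynomial.eval_mul, Polynomial.eval_ofNat]
  have h4 : cA m n = 7 * cD m n := rfl
  omega

theorem RI_sz {m n p : ℕ} {g : Reg → ℝ} {drop : List Bool} {E : ℕ}
    {t : Mo} {W Ws : List Mo} (hI : Inv m n p g drop E t W) {j : ℕ} {pB : Polynomial ℕ}
    (hE : E ≤ pB.eval (m + n))
    (h : RI m n p g drop E t (2 ^ cA m n * ∏ c ∈ Xc m drop, wf m n g t W c) j Ws) :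
    ∀ a ∈ Ws, MoSz ((pS pB).eval (m + n)) a ∧ MoOK m n g a := by
  intro a ha
  obtain ⟨c, hc, rfl⟩ := List.getElem_of_mem ha
  have hc' : c < m + m + 4 := by
    rw [← h.len]
    exact hc
  have e : Ws[c] = Ws.getD c moOne := by
    rw [List.getD_eq_getElem?_getD, List.getElem?_eq_getElem hc]
    rfl
  rw [e]
  obtain ⟨s1, s2, s3, s4⟩ := h.szA c hc'
  obtain ⟨p1, p2⟩ := pS_le pB m n E hE
  have hj := count hI h
  exact ⟨⟨by omega, by omega, by omega, by omega⟩, h.ok c hc'⟩

end TREC

open TREC in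
/-- The search for the centre. -/
theorem t_REC : S_PEQ → S_PRM → S_PERM → S_MOV → S_REC := by
  intro hPEQ hPRM hPERM hM pB
  obtain ⟨q, hq⟩ := hPEQ (pS pB)
  obtain ⟨pT, hpT⟩ : ∃ pT : Polynomial ℕ, pT = 4 * (pD * (pD * pD)) := ⟨_, rfl⟩
  have hcT : ∀ m n : ℕ, cT (n + 3) (m + m + 4) ≤ pT.eval (m + n) := by
    intro m n
    have h := pD_le m n
    rw [hpT]
    simp only [Polynomial.eval_mul, Polynomial.eval_ofNat]
    have e : cT (n + 3) (m + m + 4) = 4 * (cD m n * (cD m n * cD m n)) := rfl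
    rw [e]
    gcongr
  refine ⟨q + (pS pB + pR * (pT * q)), ?_⟩
  intro m n p g drop E t W hg hE hI
  have hst := st_all hPERM hM hI
  have hsym : ∀ Ws : List Mo, (GG m n p g drop (wV m n g Ws)).IsSymm ∧
      ∀ x : Fin (cD m n) → ℝ, (GG m n p g drop (wV m n g Ws)).mulVec x = 0 →
        ∀ j : Fin (cD m n), (drK m n drop).getD j false = true → x j = 0 := by
    intro Ws
    have h := TKERSTEP.ker_thm (n + 3) (m + m + 4) (gW m n p g (wV m n g Ws)) (fun _ => 1)
      (drK m n drop)
    exact ⟨h.1, fun x hx j hj => ((h.2 x).1 hx).2 j hj⟩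
  have hperm : ∀ Ws : List Mo, _ := fun Ws =>
    hPERM (cD m n) (GG m n p g drop (wV m n g Ws)) (tsK m n drop) (drK m n drop)
      (by have := cD_ge m n; omega) (hsym Ws).1 (hsym Ws).2
      (fun j hj hts => ts_dr m n drop j hj hts) (nd_len m n drop)
  -- one round
  have hround : ∀ i, Runs g (Gd q (m + n) g) (rnd m n p drop (sq m n p g drop t W i))
      (sq m n p g drop t W (i + 1)) (pT.eval (m + n) * q.eval (m + n)) := by
    intro i
    have e : sq m n p g drop t W (i + 1) = nx m n p g drop (sq m n p g drop t W i) := rfl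
    rw [e]
    rcases hst i with ⟨h1, h2⟩ | ⟨h1, -⟩
    · obtain ⟨s, hs⟩ : ∃ s, s = sq m n p g drop t W i := ⟨_, rfl⟩
      rw [← hs] at h1 h2 ⊢
      have hsz := RI_sz hI hE h2
      have hstep : ∀ k < cT (n + 3) (m + m + 4), Runs g (Gd q (m + n) g)
          (bnd (batch (peQs m n p drop s.1.1
            (pSt (cD m n) (GG m n p g drop (wV m n g s.1.1)) (tsK m n drop) k).1))
          fun o => ret (pUpd (cD m n) (tsK m n drop)
            (pSt (cD m n) (GG m n p g drop (wV m n g s.1.1)) (tsK m n drop) k) o))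
          (pSt (cD m n) (GG m n p g drop (wV m n g s.1.1)) (tsK m n drop) (k + 1))
          (q.eval (m + n)) := by
        intro k hk
        obtain ⟨q1, q2⟩ := hq m n p g drop s.1.1
          (pSt (cD m n) (GG m n p g drop (wV m n g s.1.1)) (tsK m n drop) k).1 hg hsz
          (fun l _ => ((hperm s.1.1).1 k l).trans hk.le)
        have q3 := runs_batch q1
        have q4 := runs_bnd (f := fun o => ret (pUpd (cD m n) (tsK m n drop)
            (pSt (cD m n) (GG m n p g drop (wV m n g s.1.1)) (tsK m n drop) k) o)) q3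
          (runs_ret (pSt (cD m n) (GG m n p g drop (wV m n g s.1.1)) (tsK m n drop) (k + 1)))
        exact t_TT.2.2.2 _ g _ _ _ _ _ _ (fun v hv => hv) (by simpa using q2) q4
      have hit := t_TT.2.2.1 (List ℕ × Bool) g (Gd q (m + n) g)
        (fun t' => bnd (batch (peQs m n p drop s.1.1 t'.1))
          fun o => ret (pUpd (cD m n) (tsK m n drop) t' o))
        (pSt (cD m n) (GG m n p g drop (wV m n g s.1.1)) (tsK m n drop))
        (cT (n + 3) (m + m + 4)) (q.eval (m + n)) hstep
      have hfin : Runs g (Gd q (m + n) g) (rnd m n p drop s) (nx m n p g drop s)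
          (cT (n + 3) (m + m + 4) * q.eval (m + n) + 0) := by
        unfold rnd nx
        rw [if_neg (by rw [h1]; decide), if_neg (by rw [h1]; decide)]
        refine runs_bnd hit ?_
        exact runs_ret _
      exact t_TT.2.2.2 _ g _ _ _ _ _ _ (fun v hv => hv)
        (by rw [add_zero]; exact Nat.mul_le_mul_right _ (hcT m n)) hfin
    · obtain ⟨s, hs⟩ : ∃ s, s = sq m n p g drop t W i := ⟨_, rfl⟩
      rw [← hs] at h1 ⊢
      have hfin : Runs g (Gd q (m + n) g) (rnd m n p drop s) (nx m n p g drop s) 0 := by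
        unfold rnd nx
        rw [if_pos h1, if_pos h1]
        exact runs_ret _
      exact t_TT.2.2.2 _ g _ _ _ _ _ _ (fun v hv => hv) (Nat.zero_le _) hfin
  have hall := t_TT.2.2.1 RS g (Gd q (m + n) g) (rnd m n p drop) (sq m n p g drop t W)
    (cR m n) (pT.eval (m + n) * q.eval (m + n)) (fun i _ => hround i)
  obtain ⟨s, hs⟩ : ∃ s, s = sq m n p g drop t W (cR m n) := ⟨_, rfl⟩
  have hR : Runs g (Gd (q + (pS pB + pR * (pT * q))) (m + n) g) (recen m n p drop t W) s
      ((q + (pS pB + pR * (pT * q))).eval (m + n)) := by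
    rw [hs]
    refine runs_mono (ple_add_left _ _) ?_ hall
    simp only [Polynomial.eval_add, Polynomial.eval_mul]
    have := Nat.mul_le_mul_right (pT.eval (m + n) * q.eval (m + n)) (pR_le m n)
    omega
  rcases hst (cR m n) with ⟨-, h2⟩ | ⟨h1, ⟨j, h2⟩, h3, h4⟩
  · exact absurd (count hI h2) (lt_irrefl _)
  rw [← hs] at h1 h2 h3 h4
  obtain ⟨hp1, hp2, -⟩ := hperm s.1.1
  obtain ⟨z, z1, z2, z3⟩ := hp2 h4
  obtain ⟨x, x1, x2, x3⟩ := succ hI h2 z z1.1 z2 z3
  obtain ⟨z', z1', z2'⟩ := hPRM (cD m n) (GG m n p g drop (wV m n g s.1.1))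
    (rp m n p g drop s.1.1).1 (hsym s.1.1).1
  have hzz : z = z' := pr_uniq (hsym s.1.1).1 z1 z1'
  have hj := count hI h2
  have hD := cD_eq m n
  have hOlt : cO m n + (m + m + 3) < cD m n := by omega
  refine ⟨s.1.1, (rp m n p g drop s.1.1).1, x, ?_, h2.len, ?_, ?_, ?_, x1, ?_, x3⟩
  · have e : ((s.1.1, (rp m n p g drop s.1.1).1), true) = s := by
      rw [← h3, ← h1]
    rw [e]
    exact hR
  · intro c hc
    obtain ⟨s1, s2, s3, s4⟩ := h2.szW c hc
    exact ⟨⟨by omega, by omega, s3, s4⟩, h2.ok c (by omega), h2.pos c (by omega)⟩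
  · intro a ha
    obtain ⟨⟨s1, s2, s3, s4⟩, h6⟩ := RI_sz hI hE h2 a ha
    have h7 : (pS pB).eval (m + n) ≤ (q + (pS pB + pR * (pT * q))).eval (m + n) := by
      simp only [Polynomial.eval_add]
      omega
    exact ⟨⟨s1.trans h7, s2.trans h7, s3.trans h7, s4.trans h7⟩, h6⟩
  · intro l _
    exact hp1 _ l
  · have h6 := (z2' ⟨cO m n + (m + m + 3), hOlt⟩).2.1
    rw [← hzz] at h6
    exact h6.trans (x2 hOlt)

end Pool.Agent.Y648.CS
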