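import Pool.Agent.Y648.CS.StmA
import Pool.Agent.W920.FC.T_TT

set_option autoImplicit false

/-!
# Few scales of circuit ratios: small tools
-/

namespace Pool.Agent.Y648.CS

open Pool.Agent.NPC Pool.Agent.H558R2 Pool.Agent.H622R3.SM Pool.Agent.W920.FC

theorem qb_mono {β β' : ℕ} (h : β ≤ β') {v : ℝ} (hv : QB β v) : QB β' v := by
  obtain ⟨E, z, h1, h2, h3, h4⟩ := hv
  have h5 : 2 ^ β ≤ 2 ^ β' := Nat.pow_le_pow_right (by norm_num) h
  exact ⟨E, z, h1, h2.trans h5, h3.trans h5, h4⟩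

theorem pe_mono (p : Polynomial ℕ) {a b : ℕ} (h : a ≤ b) : p.eval a ≤ p.eval b := by
  rw [Polynomial.eval_eq_sum_range, Polynomial.eval_eq_sum_range]
  exact Finset.sum_le_sum fun i _ => Nat.mul_le_mul_left _ (Nat.pow_le_pow_left h i)

/-- `p` is at most `q`, everywhere. -/
def PLe (p q : Polynomial ℕ) : Prop := ∀ s, p.eval s ≤ q.eval s

theorem gd_mono {p q : Polynomial ℕ} (h : PLe p q) {S : ℕ} {g : Reg → ℝ} {v : ℝ}
    (hv : Gd p S g v) : Gd q S g v := fun lam hl => qb_mono (h _) (hv lam hl)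

theorem runs_mono {β : Type} {p q : Polynomial ℕ} (h : PLe p q) {S : ℕ} {g : Reg → ℝ} {T : TT β}
    {b : β} {c c' : ℕ} (hc : c ≤ c') (hr : Runs g (Gd p S g) T b c) :
    Runs g (Gd q S g) T b c' :=
  t_TT.2.2.2 β g _ _ T b c c' (fun _ hv => gd_mono h hv) hc hr

theorem ple_add_left (p q : Polynomial ℕ) : PLe p (p + q) := fun s => by
  rw [Polynomial.eval_add]; exact Nat.le_add_right _ _

theorem ple_add_right (p q : Polynomial ℕ) : PLe q (p + q) := fun s => by
  rw [Polynomial.eval_add]; exact Nat.le_add_left _ _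

theorem PLe.trans {p q r : Polynomial ℕ} (h : PLe p q) (h' : PLe q r) : PLe p r :=
  fun s => (h s).trans (h' s)

theorem runs_bnd {β γ : Type} {g : Reg → ℝ} {G : ℝ → Prop} {T : TT β} {f : β → TT γ} {b : β}
    {b' : γ} {c c' : ℕ} (h : Runs g G T b c) (hf : Runs g G (f b) b' c') :
    Runs g G (bnd T f) b' (c + c') := t_TT.1 β γ g G T f b b' c c' h hf

theorem runs_ret {β : Type} {g : Reg → ℝ} {G : ℝ → Prop} (b : β) : Runs g G (ret b) b 0 :=
  Runs.done _ _ _ fun _ => rfl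

theorem runs_batch {g : Reg → ℝ} {G : ℝ → Prop} {qs : List Qry} {vs : List ℝ}
    (h : List.Forall₂ (HasVal g G) qs vs) :
    Runs g G (batch qs) (vs.map signOut) ((qs.map fun q => q.1.length + 1).sum) :=
  t_TT.2.1 g G qs vs h

theorem MoG.mono {m n : ℕ} {g : Reg → ℝ} {E E' : ℕ} {a : Mo} (h : E ≤ E') (ha : MoG m n g E a) :
    MoG m n g E' a :=
  ⟨⟨ha.1.1.trans h, ha.1.2.1.trans h, ha.1.2.2.1, ha.1.2.2.2⟩, ha.2⟩

theorem Inv.mono {m n p : ℕ} {g : Reg → ℝ} {drop : List Bool} {E E' : ℕ} {t : Mo} {W : List Mo}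
    (h : E ≤ E') (hI : Inv m n p g drop E t W) : Inv m n p g drop E' t W :=
  ⟨hI.len, hI.szt.mono h, fun c hc => (hI.szW c hc).mono h, hI.bd, hI.lo⟩

theorem Trm.mono {m n p : ℕ} {g : Reg → ℝ} {drop : List Bool} {E E' : ℕ} {W : List Mo}
    {B : List Bool} (h : E ≤ E') (hI : Trm m n p g drop E W B) : Trm m n p g drop E' W B :=
  ⟨fun c hc => (hI.1 c hc).mono h, hI.2⟩

/-- A polynomial for `cD`. -/
noncomputable def pD : Polynomial ℕ := 16 * Polynomial.X + 12

theorem pD_le (m n : ℕ) : cD m n ≤ pD.eval (m + n) := by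
  unfold pD cD cK
  simp only [Polynomial.eval_add, Polynomial.eval_mul, Polynomial.eval_X, Polynomial.eval_ofNat]
  omega

/-- A polynomial for `cR`. -/
noncomputable def pR : Polynomial ℕ := 64 * (pD * (pD * pD))

theorem pR_le (m n : ℕ) : cR m n ≤ pR.eval (m + n) := by
  have h := pD_le m n
  unfold pR cR
  simp only [Polynomial.eval_mul, Polynomial.eval_ofNat]
  gcongr

end Pool.Agent.Y648.CS
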